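import Mathlib

/-!
# Almost analytic sequences

`G : ℕ → O` is *almost analytic* if `p ^ min k n` divides the `k`-th forward difference of `G` at `n`.
Such a sequence agrees modulo `p ^ n` with an analytic one.
-/

namespace Pool.Agent.Helper86.DML

open Finset fwdDiff

/-- almost analytic sequences -/
def AA {O : Type*} [CommRing O] (p : ℕ) (G : ℕ → O) : Prop :=
  ∀ k n, (p : O) ^ min k n ∣ (fwdDiff 1)^[k] G n

/-- analytic sequences -/
def An {O : Type*} [CommRing O] (p : ℕ) (g : ℕ → O) : Prop :=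
  ∀ k n, (p : O) ^ k ∣ (fwdDiff 1)^[k] g n

/-- `p`-adic completeness, in the form used here -/
structure PComplete (p : ℕ) (O : Type*) [CommRing O] : Prop where
  lim : ∀ a : ℕ → O, (∀ l, (p : O) ^ (l + 1) ∣ a (l + 1) - a l) →
    ∃ b, ∀ l, (p : O) ^ (l + 1) ∣ b - a l
  sep : ∀ x : O, (∀ n, (p : O) ^ n ∣ x) → x = 0

variable {O : Type*} [CommRing O] {p : ℕ} [hp : Fact p.Prime]

lemma pow_dvd_choose {l k : ℕ} (hk : k ≠ 0) (hkl : k ≤ p ^ l) :
    p ^ (l - multiplicity p k) ∣ (p ^ l).choose k := by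
  apply pow_dvd_of_le_emultiplicity
  rw [Nat.Prime.emultiplicity_choose_prime_pow hp.out hkl hk]

lemma multiplicity_lt {k : ℕ} (hk : k ≠ 0) : multiplicity p k < k := by
  have h1 : p ^ multiplicity p k ∣ k := pow_multiplicity_dvd p k
  have h2 : p ^ multiplicity p k ≤ k := Nat.le_of_dvd (Nat.pos_of_ne_zero hk) h1
  exact (Nat.lt_pow_self hp.out.one_lt).trans_le h2

lemma multiplicity_le {l k : ℕ} (hk : k ≠ 0) (hkl : k ≤ p ^ l) : multiplicity p k ≤ l := by
  have h1 : p ^ multiplicity p k ∣ k := pow_multiplicity_dvd p k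
  have h2 : p ^ multiplicity p k ≤ k := Nat.le_of_dvd (Nat.pos_of_ne_zero hk) h1
  exact (Nat.pow_le_pow_iff_right hp.out.one_lt).mp (h2.trans hkl)

lemma AA.shift_dvd {G : ℕ → O} (hG : AA p G) (l n : ℕ) :
    (p : O) ^ min (l + 1) n ∣ G (n + p ^ l) - G n := by
  have h := shift_eq_sum_fwdDiff_iter (1 : ℕ) G (p ^ l) n
  rw [Finset.sum_range_succ'] at h
  simp only [smul_eq_mul, mul_one, Nat.choose_zero_right, Function.iterate_zero, id_eq,
    one_smul] at h
  rw [h, add_sub_cancel_right]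
  apply Finset.dvd_sum
  intro k hk
  rw [Finset.mem_range] at hk
  have hk1 : k + 1 ≤ p ^ l := hk
  have h1 := pow_dvd_choose (p := p) (Nat.succ_ne_zero k) hk1
  have h2 := multiplicity_lt (p := p) (Nat.succ_ne_zero k)
  have h3 := multiplicity_le (p := p) (Nat.succ_ne_zero k) hk1
  rw [nsmul_eq_mul]
  have h4 : (p : O) ^ (l - multiplicity p (k + 1)) ∣ (((p ^ l).choose (k + 1) : ℕ) : O) := by
    have := Nat.cast_dvd_cast (α := O) h1
    simpa using this
  have h5 := mul_dvd_mul h4 (hG (k + 1) n)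
  rw [← pow_add] at h5
  refine (pow_dvd_pow _ ?_).trans h5
  simp only [Nat.succ_eq_add_one] at h2 h3
  omega

lemma AA.shift_dvd' {G : ℕ → O} (hG : AA p G) (l n t : ℕ) :
    (p : O) ^ min (l + 1) n ∣ G (n + p ^ l * t) - G n := by
  induction t with
  | zero => simp
  | succ t ih =>
    have h1 := hG.shift_dvd l (n + p ^ l * t)
    have h2 : (p : O) ^ min (l + 1) n ∣ G (n + p ^ l * t + p ^ l) - G (n + p ^ l * t) := by
      refine (pow_dvd_pow _ ?_).trans h1
      omega
    have h3 := dvd_add h2 ih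
    have h4 : n + p ^ l * (t + 1) = n + p ^ l * t + p ^ l := by ring
    rw [h4]
    convert h3 using 1
    ring

lemma dvd_fwdDiff_iter {d : O} {e : ℕ → O} (he : ∀ n, d ∣ e n) (k n : ℕ) :
    d ∣ (fwdDiff 1)^[k] e n := by
  induction k generalizing n with
  | zero => simpa using he n
  | succ k ih =>
    rw [Function.iterate_succ_apply']
    exact dvd_sub (ih _) (ih _)

theorem AA.exists_analytic (hO : PComplete p O) {G : ℕ → O} (hG : AA p G) :
    ∃ g : ℕ → O, An p g ∧ (∀ n, (p : O) ^ n ∣ G n - g n) ∧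
      ∀ l n, (p : O) ^ (l + 1) ∣ g n - G (n + p ^ l) := by
  have hpl : ∀ l : ℕ, l + 1 ≤ p ^ l := fun l => Nat.lt_pow_self hp.out.one_lt
  have hC : ∀ n l, (p : O) ^ (l + 1) ∣ G (n + p ^ (l + 1)) - G (n + p ^ l) := by
    intro n l
    have h1 := hG.shift_dvd' l (n + p ^ l) (p - 1)
    have h2 : n + p ^ l + p ^ l * (p - 1) = n + p ^ (l + 1) := by
      have : p ^ (l + 1) = p ^ l * (p - 1) + p ^ l := by
        rw [pow_succ, ← Nat.mul_succ, Nat.succ_eq_add_one, Nat.sub_add_cancel hp.out.one_le]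
      rw [this]
      ring
    rw [h2] at h1
    refine (pow_dvd_pow _ ?_).trans h1
    have := hpl l
    omega
  choose g hg using fun n => hO.lim (fun l => G (n + p ^ l)) (hC n)
  refine ⟨g, ?_, ?_, fun l n => hg n l⟩
  · intro k n
    have h1 : ∀ n, (p : O) ^ (k + 1) ∣ (fun n => g n - G (n + p ^ k)) n := fun n => hg n k
    have h2 := dvd_fwdDiff_iter h1 k n
    have h3 : g = (fun n => g n - G (n + p ^ k)) + fun n => G (n + p ^ k) := by
      funext n
      simp
    have h4 : (fwdDiff 1)^[k] g n = (fwdDiff 1)^[k] (fun n => g n - G (n + p ^ k)) n +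
        (fwdDiff 1)^[k] G (n + p ^ k) := by
      conv_lhs => rw [h3]
      rw [fwdDiff_iter_add, Pi.add_apply, fwdDiff_iter_comp_add]
    rw [h4]
    refine dvd_add ((pow_dvd_pow _ (Nat.le_succ k)).trans h2) ?_
    refine (pow_dvd_pow _ ?_).trans (hG k (n + p ^ k))
    have := hpl k
    omega
  · intro n
    have h1 := hg n n
    have h2 := hG.shift_dvd n n
    have h3 : (p : O) ^ n ∣ g n - G (n + p ^ n) := (pow_dvd_pow _ (Nat.le_succ n)).trans h1
    have h4 : (p : O) ^ n ∣ G (n + p ^ n) - G n := by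
      refine (pow_dvd_pow _ ?_).trans h2
      omega
    have h5 := dvd_add h3 h4
    have : G n - g n = -(g n - G (n + p ^ n) + (G (n + p ^ n) - G n)) := by ring
    rw [this]
    exact (dvd_neg).mpr h5

end Pool.Agent.Helper86.DML
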