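import Mathlib
import Pool.Agent.Helper86.DML.PadicSeq

/-!
# Iterating a polynomial self-map that is affine modulo `p`
-/

namespace Pool.Agent.Helper86.DML

open MvPolynomial

noncomputable section

section Abstract

variable {O P : Type*} [CommRing O] [AddCommGroup P] [Module O P]

lemma fwdDiff_iter_end (S : Module.End O P) (ev : P →ₗ[O] O) (k : ℕ) : ∀ (F : P) (n : ℕ),
    (fwdDiff 1)^[k] (fun n => ev ((S ^ n) F)) n = ev (((S - 1) ^ k * S ^ n) F) := by
  induction k with
  | zero => intro F n; simp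
  | succ k ih =>
    intro F n
    rw [Function.iterate_succ_apply]
    have h1 : fwdDiff 1 (fun n => ev ((S ^ n) F)) = fun n => ev ((S ^ n) ((S - 1) F)) := by
      funext n
      simp only [fwdDiff]
      rw [← map_sub]
      congr 1
      rw [pow_succ, LinearMap.sub_apply, map_sub, Module.End.mul_apply]
      rfl
    rw [h1, ih]
    have h2 : (S - 1) ^ (k + 1) * S ^ n = ((S - 1) ^ k * S ^ n) * (S - 1) := by
      have hc : Commute (S - 1) (S ^ n) :=
        ((Commute.refl S).sub_left (Commute.one_left S)).pow_right n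
      rw [pow_succ, mul_assoc, mul_assoc, hc.eq]
    rw [h2]
    rfl

lemma pow_sub_one_mul_pow (S : Module.End O P) (q : O)
    (hS : ∀ F, ∃ F', (S * S) F - S F = q • F') (k : ℕ) : ∀ (n : ℕ) (F : P),
    ∃ F', ((S - 1) ^ k * S ^ n) F = q ^ min k n • F' := by
  induction k with
  | zero => intro n F; exact ⟨((S - 1) ^ 0 * S ^ n : Module.End O P) F, by simp⟩
  | succ k ih =>
    intro n F
    rcases n with _ | n
    · exact ⟨((S - 1) ^ (k + 1) * S ^ 0 : Module.End O P) F, by simp⟩
    · have hc : Commute (S - 1) (S ^ n) :=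
        ((Commute.refl S).sub_left (Commute.one_left S)).pow_right n
      have h1 : (S - 1) ^ (k + 1) * S ^ (n + 1) = ((S - 1) ^ k * S ^ n) * ((S * S) - S) := by
        rw [pow_succ (S - 1), pow_succ S]
        have : (S - 1) * (S ^ n * S) = S ^ n * (S * S - S) := by
          rw [← mul_assoc, hc.eq, mul_assoc, sub_mul, one_mul]
        rw [mul_assoc, this, mul_assoc]
      obtain ⟨F', hF'⟩ := hS F
      obtain ⟨F'', hF''⟩ := ih n F'
      refine ⟨F'', ?_⟩
      rw [h1, Module.End.mul_apply, LinearMap.sub_apply, hF', map_smul, hF'', smul_smul,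
        Nat.succ_min_succ, pow_succ']

lemma AA_of_end (S : Module.End O P) (p : ℕ) (hS : ∀ F, ∃ F', (S * S) F - S F = (p : O) • F')
    (ev : P →ₗ[O] O) (F : P) : AA p (fun n => ev ((S ^ n) F)) := by
  intro k n
  rw [fwdDiff_iter_end]
  obtain ⟨F', hF'⟩ := pow_sub_one_mul_pow S (p : O) hS k n F
  rw [hF', map_smul, smul_eq_mul]
  exact dvd_mul_right _ _

end Abstract

/-- in a monoid, if `t ^ i = t ^ j` for `i < j` then some positive power is idempotent -/
lemma exists_pow_idem {M : Type*} [Monoid M] {t : M} {i j : ℕ} (hij : i < j)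
    (h : t ^ i = t ^ j) : ∃ N, 1 ≤ N ∧ t ^ N * t ^ N = t ^ N := by
  obtain ⟨d, rfl⟩ := Nat.exists_eq_add_of_lt hij
  have h1 : ∀ k, t ^ (i + k * (d + 1)) = t ^ i := by
    intro k
    induction k with
    | zero => simp
    | succ k ih =>
      have : i + (k + 1) * (d + 1) = (i + k * (d + 1)) + (d + 1) := by ring
      rw [this, pow_add, ih, ← pow_add]
      exact h.symm
  refine ⟨(i + 1) * (d + 1), Nat.mul_pos (Nat.succ_pos i) (Nat.succ_pos d), ?_⟩
  have h2 : i ≤ (i + 1) * (d + 1) := by nlinarith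
  obtain ⟨e, he⟩ := Nat.exists_eq_add_of_le h2
  rw [← pow_add]
  have h3 : (i + 1) * (d + 1) + (i + 1) * (d + 1) = (i + (i + 1) * (d + 1)) + e := by omega
  have h4 : t ^ ((i + 1) * (d + 1)) = t ^ i * t ^ e := by rw [he, pow_add]
  rw [h3, pow_add t (i + (i + 1) * (d + 1)) e, h1 (i + 1), h4]

lemma eval_congr_mod {R ι : Type*} [CommRing R] {q : R} {x y : ι → R} (h : ∀ i, q ∣ x i - y i)
    (F : MvPolynomial ι R) : q ∣ eval x F - eval y F := by
  induction F using MvPolynomial.induction_on with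
  | C a => simp
  | add F G hF hG =>
    rw [map_add, map_add]
    have := dvd_add hF hG
    convert this using 1
    ring
  | mul_X F i hF =>
    rw [map_mul, map_mul, eval_X, eval_X]
    have h1 := dvd_add (Dvd.dvd.mul_right hF (x i)) (Dvd.dvd.mul_left (h i) (eval y F))
    convert h1 using 1
    ring

section Poly

variable {ι : Type*} [Finite ι]

/-- affine polynomials -/
def affSub (ι : Type*) (R : Type*) [CommRing R] : Submodule R (MvPolynomial ι R) :=
  Submodule.span R (insert 1 (Set.range X))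

lemma affSub_finite (R : Type*) [CommRing R] [Finite R] : Finite (affSub ι R) := by
  have : Module.Finite R (affSub ι R) := by
    rw [Module.Finite.iff_fg]
    exact Submodule.fg_span ((Set.finite_range _).insert _)
  exact Module.finite_of_finite R

omit [Finite ι] in
lemma bind₁_mem_affSub {R : Type*} [CommRing R] {ψ : ι → MvPolynomial ι R}
    (hψ : ∀ i, ψ i ∈ affSub ι R) {F : MvPolynomial ι R} (hF : F ∈ affSub ι R) :
    bind₁ ψ F ∈ affSub ι R := by
  have h : affSub ι R ≤ (affSub ι R).comap (bind₁ ψ).toLinearMap := by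
    rw [affSub, Submodule.span_le]
    intro G hG
    rcases hG with rfl | ⟨i, rfl⟩
    · rw [SetLike.mem_coe, Submodule.mem_comap, AlgHom.toLinearMap_apply, map_one]
      exact Submodule.subset_span (Set.mem_insert _ _)
    · rw [SetLike.mem_coe, Submodule.mem_comap, AlgHom.toLinearMap_apply, bind₁_X_right]
      exact hψ i
  exact h hF

lemma exists_pow_idem_bind₁ {R : Type*} [CommRing R] [Finite R] {ψ : ι → MvPolynomial ι R}
    (hψ : ∀ i, ψ i ∈ affSub ι R) :
    ∃ N, 1 ≤ N ∧ (bind₁ ψ) ^ N * (bind₁ ψ) ^ N = (bind₁ ψ) ^ N := by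
  have := affSub_finite (ι := ι) R
  have hmem : ∀ n i, ((bind₁ ψ) ^ n) (X i) ∈ affSub ι R := by
    intro n
    induction n with
    | zero => intro i; exact Submodule.subset_span (Set.mem_insert_of_mem _ ⟨i, rfl⟩)
    | succ n ih =>
      intro i
      rw [pow_succ', AlgHom.mul_apply]
      exact bind₁_mem_affSub hψ (ih i)
  obtain ⟨i, j, hij, h⟩ := Finite.exists_ne_map_eq_of_infinite
    (fun (n : ℕ) => (fun i => (⟨((bind₁ ψ) ^ n) (X i), hmem n i⟩ : affSub ι R)))
  have h' : (bind₁ ψ) ^ i = (bind₁ ψ) ^ j := by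
    apply MvPolynomial.algHom_ext
    intro k
    exact congrArg Subtype.val (congrFun h k)
  rcases lt_or_gt_of_ne hij with hlt | hlt
  · exact exists_pow_idem hlt h'
  · exact exists_pow_idem hlt h'.symm

variable {O : Type*} [CommRing O]

omit [Finite ι] in
lemma map_bind₁_pow {R : Type*} [CommRing R] (π : O →+* R) (ψ : ι → MvPolynomial ι O) (n : ℕ)
    (F : MvPolynomial ι O) :
    map π (((bind₁ ψ) ^ n) F) = ((bind₁ (fun i => map π (ψ i))) ^ n) (map π F) := by
  induction n generalizing F with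
  | zero => rfl
  | succ n ih =>
    rw [pow_succ, AlgHom.mul_apply, ih, map_bind₁, pow_succ, AlgHom.mul_apply]

lemma exists_idem_mod (p : ℕ) [Finite (O ⧸ Ideal.span {(p : O)})] {ψ : ι → MvPolynomial ι O}
    (hψ : ∀ i, map (Ideal.Quotient.mk (Ideal.span {(p : O)})) (ψ i) ∈
      affSub ι (O ⧸ Ideal.span {(p : O)})) :
    ∃ N, 1 ≤ N ∧ ∀ F, ∃ F', ((bind₁ ψ) ^ N) (((bind₁ ψ) ^ N) F) - ((bind₁ ψ) ^ N) F =
      (p : O) • F' := by
  obtain ⟨N, hN, h⟩ := exists_pow_idem_bind₁ hψ
  refine ⟨N, hN, fun F => ?_⟩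
  have h1 : map (Ideal.Quotient.mk (Ideal.span {(p : O)}))
      (((bind₁ ψ) ^ N) (((bind₁ ψ) ^ N) F) - ((bind₁ ψ) ^ N) F) = 0 := by
    rw [map_sub, map_bind₁_pow, map_bind₁_pow, ← AlgHom.mul_apply, h, sub_self]
  have h2 : C (p : O) ∣ ((bind₁ ψ) ^ N) (((bind₁ ψ) ^ N) F) - ((bind₁ ψ) ^ N) F := by
    rw [C_dvd_iff_map_hom_eq_zero (Ideal.Quotient.mk (Ideal.span {(p : O)})) (p : O)]
    · exact h1
    · intro r
      rw [Ideal.Quotient.eq_zero_iff_mem, Ideal.mem_span_singleton]
  obtain ⟨F', hF'⟩ := h2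
  exact ⟨F', by rw [hF', MvPolynomial.smul_eq_C_mul]⟩

/-- the self-map of `O ^ ι` given by polynomials -/
def pmap (Φ : ι → MvPolynomial ι O) (x : ι → O) : ι → O := fun i => eval x (Φ i)

omit [Finite ι] in
lemma eval_bind₁_pow (Φ : ι → MvPolynomial ι O) (n : ℕ) (x : ι → O) (F : MvPolynomial ι O) :
    eval x (((bind₁ Φ) ^ n) F) = eval ((pmap Φ)^[n] x) F := by
  induction n generalizing F with
  | zero => rfl
  | succ n ih =>
    rw [pow_succ, AlgHom.mul_apply, ih, Function.iterate_succ_apply']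
    exact eval₂Hom_bind₁ (RingHom.id _) _ Φ F

/-- substitution `x₀ + q u` -/
def zoom (x₀ : ι → O) (q : O) : MvPolynomial ι O →ₐ[O] MvPolynomial ι O :=
  bind₁ (fun i => C (x₀ i) + C q * X i)

omit [Finite ι] in
lemma zoom_taylor (x₀ : ι → O) (q : O) (F : MvPolynomial ι O) :
    ∃ L ∈ Submodule.span O (Set.range (X : ι → MvPolynomial ι O)), ∃ H : MvPolynomial ι O,
      zoom x₀ q F = C (eval x₀ F) + C q * L + C q ^ 2 * H := by
  induction F using MvPolynomial.induction_on with
  | C a => exact ⟨0, Submodule.zero_mem _, 0, by simp [zoom]⟩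
  | add F G hF hG =>
    obtain ⟨L, hL, H, h⟩ := hF
    obtain ⟨L', hL', H', h'⟩ := hG
    refine ⟨L + L', Submodule.add_mem _ hL hL', H + H', ?_⟩
    rw [map_add, h, h', map_add, C_add]
    ring
  | mul_X F i hF =>
    obtain ⟨L, hL, H, h⟩ := hF
    refine ⟨eval x₀ F • X i + x₀ i • L, Submodule.add_mem _
      (Submodule.smul_mem _ _ (Submodule.subset_span ⟨i, rfl⟩)) (Submodule.smul_mem _ _ hL),
      L * X i + H * (C (x₀ i) + C q * X i), ?_⟩
    rw [map_mul, h, MvPolynomial.smul_eq_C_mul, MvPolynomial.smul_eq_C_mul, map_mul, C_mul, eval_X]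
    simp only [zoom, bind₁_X_right]
    ring

omit [Finite ι] in
lemma eval_zoom (x₀ : ι → O) (q : O) (F : MvPolynomial ι O) :
    eval 0 (zoom x₀ q F) = eval x₀ F := by
  have := eval₂Hom_bind₁ (RingHom.id O) (0 : ι → O) (fun i => C (x₀ i) + C q * X i) F
  have h2 : eval (0 : ι → O) (zoom x₀ q F) =
      eval (fun i => eval (0 : ι → O) (C (x₀ i) + C q * X i)) F := this
  rw [h2]
  simp

/-- along a cycle of residue discs all polynomial functions give almost analytic sequences -/
theorem orbit_AA (p : ℕ) [Finite (O ⧸ Ideal.span {(p : O)})]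
    (Φ : ι → MvPolynomial ι O) (x₀ : ι → O) (ℓ : ℕ) (hℓ : 1 ≤ ℓ)
    (hper : ∀ i, (p : O) ∣ (pmap Φ)^[ℓ] x₀ i - x₀ i) :
    ∃ M, 1 ≤ M ∧ (∀ n i, (p : O) ∣ (pmap Φ)^[M * n] x₀ i - x₀ i) ∧
      ∀ F : MvPolynomial ι O, AA p (fun n => eval ((pmap Φ)^[M * n] x₀) F) := by
  have hcyc : ∀ k i, (p : O) ∣ (pmap Φ)^[ℓ * k] x₀ i - x₀ i := by
    intro k
    induction k with
    | zero => intro i; simp
    | succ k ih =>
      intro i
      have h1 : ℓ * (k + 1) = ℓ + ℓ * k := by ring
      rw [h1, Function.iterate_add_apply]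
      have h2 := eval_congr_mod ih (((bind₁ Φ) ^ ℓ) (X i))
      rw [eval_bind₁_pow, eval_bind₁_pow, eval_X, eval_X] at h2
      have h3 := dvd_add h2 (hper i)
      simpa using h3
  have hper' := hper
  choose c hc using hper'
  choose L hL H hH using fun i => zoom_taylor x₀ (p : O) (((bind₁ Φ) ^ ℓ) (X i))
  let ψ : ι → MvPolynomial ι O := fun i => C (c i) + L i + C (p : O) * H i
  have hψ : ∀ i, map (Ideal.Quotient.mk (Ideal.span {(p : O)})) (ψ i) ∈
      affSub ι (O ⧸ Ideal.span {(p : O)}) := by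
    intro i
    have hp : (Ideal.Quotient.mk (Ideal.span {(p : O)})) (p : O) = 0 := by
      rw [Ideal.Quotient.eq_zero_iff_mem]
      exact Ideal.mem_span_singleton_self _
    simp only [ψ, map_add, map_mul, map_C, hp, C_0, zero_mul, add_zero]
    refine Submodule.add_mem _ ?_ ?_
    · have h1 : (1 : MvPolynomial ι (O ⧸ Ideal.span {(p : O)})) ∈
          affSub ι (O ⧸ Ideal.span {(p : O)}) := Submodule.subset_span (Set.mem_insert _ _)
      have := Submodule.smul_mem _ ((Ideal.Quotient.mk (Ideal.span {(p : O)})) (c i)) h1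
      rwa [MvPolynomial.smul_eq_C_mul, mul_one] at this
    · have h2 := hL i
      generalize L i = l at h2
      induction h2 using Submodule.span_induction with
      | mem x hx =>
        obtain ⟨j, rfl⟩ := hx
        rw [map_X]
        exact Submodule.subset_span (Set.mem_insert_of_mem _ ⟨j, rfl⟩)
      | zero => rw [map_zero]; exact Submodule.zero_mem _
      | add x y _ _ hx hy => rw [map_add]; exact Submodule.add_mem _ hx hy
      | smul a x _ hx =>
        rw [MvPolynomial.smul_eq_C_mul, map_mul, map_C, ← MvPolynomial.smul_eq_C_mul]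
        exact Submodule.smul_mem _ _ hx
  obtain ⟨N, hN, hidem⟩ := exists_idem_mod p hψ
  -- the conjugation relation
  have hconj1 : (zoom x₀ (p : O)).comp ((bind₁ Φ) ^ ℓ) = (bind₁ ψ).comp (zoom x₀ (p : O)) := by
    apply MvPolynomial.algHom_ext
    intro i
    rw [AlgHom.comp_apply, AlgHom.comp_apply, hH i]
    have h1 : zoom x₀ (p : O) (X i) = C (x₀ i) + C (p : O) * X i := bind₁_X_right _ _
    rw [h1, map_add, map_mul, bind₁_C_right, bind₁_C_right, bind₁_X_right, eval_bind₁_pow, eval_X]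
    have h2 : (pmap Φ)^[ℓ] x₀ i = x₀ i + (p : O) * c i := by
      rw [← hc i]; ring
    rw [h2, C_add, C_mul]
    simp only [ψ]
    ring
  have hconj : ∀ n (F : MvPolynomial ι O), zoom x₀ (p : O) (((bind₁ Φ) ^ (ℓ * n)) F) =
      ((bind₁ ψ) ^ n) (zoom x₀ (p : O) F) := by
    intro n
    induction n with
    | zero => intro F; rfl
    | succ n ih =>
      intro F
      have h1 : (bind₁ Φ) ^ (ℓ * (n + 1)) = (bind₁ Φ) ^ ℓ * (bind₁ Φ) ^ (ℓ * n) := by
        rw [← pow_add]
        congr 1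
        ring
      rw [h1, AlgHom.mul_apply]
      have h2 := DFunLike.congr_fun hconj1 (((bind₁ Φ) ^ (ℓ * n)) F)
      rw [AlgHom.comp_apply, AlgHom.comp_apply, ih] at h2
      rw [h2, pow_succ', AlgHom.mul_apply]
  refine ⟨ℓ * N, Nat.mul_pos hℓ hN, fun n i => by rw [mul_assoc]; exact hcyc _ i, fun F => ?_⟩
  have hAA := AA_of_end (((bind₁ ψ) ^ N).toLinearMap : Module.End O (MvPolynomial ι O)) p
    (by
      intro F
      obtain ⟨F', hF'⟩ := hidem F
      exact ⟨F', hF'⟩)
    ((MvPolynomial.aeval (0 : ι → O) : MvPolynomial ι O →ₐ[O] O).toLinearMap) (zoom x₀ (p : O) F)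
  have heq : (fun n => eval ((pmap Φ)^[ℓ * N * n] x₀) F) = fun n =>
      (MvPolynomial.aeval (0 : ι → O) : MvPolynomial ι O →ₐ[O] O).toLinearMap
        (((((bind₁ ψ) ^ N).toLinearMap : Module.End O (MvPolynomial ι O)) ^ n)
          (zoom x₀ (p : O) F)) := by
    funext n
    have h1 : ∀ G : MvPolynomial ι O,
        ((((bind₁ ψ) ^ N).toLinearMap : Module.End O (MvPolynomial ι O)) ^ n) G =
          ((bind₁ ψ) ^ (N * n)) G := by
      intro G
      induction n generalizing G with
      | zero => rfl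
      | succ n ih =>
        rw [pow_succ, Module.End.mul_apply, ih]
        have : N * (n + 1) = N * n + N := by ring
        rw [this, pow_add, AlgHom.mul_apply]
        rfl
    have h4 : ∀ G : MvPolynomial ι O,
        (MvPolynomial.aeval (0 : ι → O) : MvPolynomial ι O →ₐ[O] O) G = eval 0 G := by
      intro G
      rw [← MvPolynomial.coe_aeval_eq_eval]
      rfl
    rw [h1, ← hconj, AlgHom.toLinearMap_apply, h4, eval_zoom, eval_bind₁_pow, mul_assoc]
  rw [heq]
  exact hAA

end Poly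

end

end Pool.Agent.Helper86.DML
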