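import Mathlib
import Pool.Agent.Helper86.DML.PadicSeq
import Pool.Agent.Helper86.DML.Operator

/-!
# Finite free algebras over the `p`-adic integers and shadow orbits
-/

namespace Pool.Agent.Helper86.DML

open MvPolynomial

variable {p : ℕ} [hp : Fact p.Prime]

lemma padic_sep (x : ℤ_[p]) (h : ∀ n, (p : ℤ_[p]) ^ n ∣ x) : x = 0 := by
  rw [← norm_eq_zero]
  by_contra hpos
  have hpos' : 0 < ‖x‖ := lt_of_le_of_ne (norm_nonneg _) (Ne.symm hpos)
  obtain ⟨m, hm⟩ := PadicInt.exists_pow_neg_lt p hpos'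
  have h1 := (PadicInt.norm_le_pow_iff_mem_span_pow x m).mpr
    (Ideal.mem_span_singleton.mpr (h m))
  linarith

lemma dvd_sub_of_step {O : Type*} [CommRing O] {q : O} {a : ℕ → O}
    (h : ∀ l, q ^ (l + 1) ∣ a (l + 1) - a l) (l k : ℕ) : q ^ (l + 1) ∣ a (l + k) - a l := by
  induction k with
  | zero => simp
  | succ k ih =>
    have h1 : q ^ (l + 1) ∣ a (l + k + 1) - a (l + k) :=
      (pow_dvd_pow _ (by omega)).trans (h (l + k))
    have := dvd_add h1 ih
    rw [← add_assoc]
    simpa using this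

lemma padic_complete : PComplete p ℤ_[p] := by
  refine ⟨?_, padic_sep⟩
  intro a ha
  have hI : IsLocalRing.maximalIdeal ℤ_[p] = Ideal.span {(p : ℤ_[p])} :=
    PadicInt.maximalIdeal_eq_span_p
  obtain ⟨L, hL⟩ := IsPrecomplete.prec' (I := IsLocalRing.maximalIdeal ℤ_[p]) (M := ℤ_[p])
    (fun m => a (m - 1)) (by
      intro m n hmn
      rw [SModEq.sub_mem, smul_eq_mul, Ideal.mul_top, hI, Ideal.span_singleton_pow,
        Ideal.mem_span_singleton]
      rcases m with _ | m
      · simp
      · obtain ⟨k, rfl⟩ := Nat.exists_eq_add_of_le hmn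
        have h1 := dvd_sub_of_step ha m k
        have h2 : m + 1 + k - 1 = m + k := by omega
        simp only [h2, Nat.add_sub_cancel]
        rw [dvd_sub_comm]
        exact h1)
  refine ⟨L, fun l => ?_⟩
  have := hL (l + 1)
  rw [SModEq.sub_mem, smul_eq_mul, Ideal.mul_top, hI, Ideal.span_singleton_pow,
        Ideal.mem_span_singleton, Nat.add_sub_cancel, dvd_sub_comm] at this
  exact this

variable {O : Type*} [CommRing O] [Algebra ℤ_[p] O]

lemma basis_dvd_iff {κ : Type*} (b : Module.Basis κ ℤ_[p] O) (n : ℕ) (x : O) :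
    (p : O) ^ n ∣ x ↔ ∀ i, (p : ℤ_[p]) ^ n ∣ b.repr x i := by
  have hcast : ((p : ℤ_[p]) ^ n) • (1 : O) = (p : O) ^ n := by
    rw [Algebra.smul_def, mul_one, map_pow, map_natCast]
  constructor
  · rintro ⟨y, rfl⟩ i
    rw [← hcast, smul_mul_assoc, one_mul, map_smul, Finsupp.smul_apply, smul_eq_mul]
    exact dvd_mul_right _ _
  · intro h
    choose y hy using h
    have hfin : (Function.support y).Finite := by
      apply (b.repr x).hasFiniteSupport.subset
      intro i hi hxi
      apply hi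
      have h1 := hy i
      rw [hxi] at h1
      have h2 := (mul_eq_zero.mp h1.symm).resolve_left
        (pow_ne_zero _ (PadicInt.prime_p (p := p)).ne_zero)
      exact h2
    refine ⟨b.repr.symm (Finsupp.ofSupportFinite y hfin), ?_⟩
    rw [← hcast, smul_mul_assoc, one_mul, ← map_smul, LinearEquiv.eq_symm_apply]
    ext i
    rw [Finsupp.smul_apply, smul_eq_mul, hy i]
    rfl

variable [Module.Finite ℤ_[p] O] [Module.Free ℤ_[p] O]

lemma free_complete : PComplete p O := by
  classical
  let b := Module.Free.chooseBasis ℤ_[p] O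
  constructor
  · intro a ha
    choose L hL using fun i => padic_complete.lim (fun l => b.repr (a l) i) (by
      intro l
      have := (basis_dvd_iff b (l + 1) _).mp (ha l) i
      rwa [map_sub, Finsupp.sub_apply] at this)
    refine ⟨b.equivFun.symm L, fun l => ?_⟩
    rw [basis_dvd_iff b]
    intro i
    rw [map_sub, Finsupp.sub_apply, ← Module.Basis.equivFun_apply, LinearEquiv.apply_symm_apply]
    exact hL i l
  · intro x hx
    have h : b.repr x = 0 := by
      ext i
      exact padic_sep _ fun n => (basis_dvd_iff b n x).mp (hx n) i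
    simpa using h

lemma finite_quotient : Finite (O ⧸ Ideal.span {(p : O)}) := by
  classical
  let b := Module.Free.chooseBasis ℤ_[p] O
  apply Finite.of_surjective (fun c : Module.Free.ChooseBasisIndex ℤ_[p] O → Fin p =>
    Ideal.Quotient.mk (Ideal.span {(p : O)}) (b.equivFun.symm fun i => ((c i : ℕ) : ℤ_[p])))
  intro y
  obtain ⟨x, rfl⟩ := Ideal.Quotient.mk_surjective y
  refine ⟨fun i => ⟨(b.repr x i).zmodRepr, PadicInt.zmodRepr_lt_p _⟩, ?_⟩
  rw [Ideal.Quotient.eq, Ideal.mem_span_singleton]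
  have h := basis_dvd_iff b 1 (b.equivFun.symm (fun i => (((b.repr x i).zmodRepr : ℕ) : ℤ_[p])) - x)
  rw [pow_one] at h
  rw [h]
  intro i
  rw [map_sub, Finsupp.sub_apply, ← Module.Basis.equivFun_apply, LinearEquiv.apply_symm_apply,
    pow_one, dvd_sub_comm]
  have := PadicInt.sub_zmodRepr_mem (b.repr x i)
  rwa [PadicInt.maximalIdeal_eq_span_p, Ideal.mem_span_singleton] at this

variable {ι : Type*} [Finite ι]

/-- the shadow orbit -/
theorem shadow (Φ : ι → MvPolynomial ι O) (x₀ : ι → O) (ℓ : ℕ) (hℓ : 1 ≤ ℓ)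
    (hper : ∀ i, (p : O) ∣ (pmap Φ)^[ℓ] x₀ i - x₀ i) :
    ∃ (M : ℕ) (w : ℕ → ι → O) (g : MvPolynomial ι O → ℕ → O), 1 ≤ M ∧
      (∀ F, An p (g F)) ∧
      (∀ F n, (p : O) ^ n ∣ eval ((pmap Φ)^[M * n] x₀) F - g F n) ∧
      (∀ F n, eval (w n) F = g F n) ∧
      (∀ n, (pmap Φ)^[M] (w n) = w (n + 1)) ∧
      (∀ n i, (p : O) ∣ w n i - (pmap Φ)^[M * n] x₀ i) := by
  have := finite_quotient (p := p) (O := O)
  have hcomp := free_complete (p := p) (O := O)
  obtain ⟨M, hM, hcyc, hAA⟩ := orbit_AA p Φ x₀ ℓ hℓ hper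
  choose g hg1 hg2 hg3 using fun F => (hAA F).exists_analytic hcomp
  let w : ℕ → ι → O := fun n i => g (X i) n
  have hw : ∀ n l i, (p : O) ^ (l + 1) ∣ w n i - (pmap Φ)^[M * (n + p ^ l)] x₀ i := by
    intro n l i
    have := hg3 (X i) l n
    simpa using this
  refine ⟨M, w, g, hM, hg1, hg2, ?_, ?_, ?_⟩
  · intro F n
    rw [← sub_eq_zero]
    apply hcomp.sep
    intro l
    rcases l with _ | l
    · simp
    · have h1 := eval_congr_mod (hw n l) F
      have h2 := hg3 F l n
      have h3 := dvd_sub h1 h2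
      convert h3 using 1
      ring
  · intro n
    funext i
    rw [← sub_eq_zero]
    apply hcomp.sep
    intro l
    rcases l with _ | l
    · simp
    · have h1 := eval_congr_mod (hw n l) (((bind₁ Φ) ^ M) (X i))
      rw [eval_bind₁_pow, eval_bind₁_pow, eval_X, eval_X, ← Function.iterate_add_apply] at h1
      have h2 := hw (n + 1) l i
      have h3 : M + M * (n + p ^ l) = M * (n + 1 + p ^ l) := by ring
      rw [h3] at h1
      have h4 := dvd_sub h1 h2
      convert h4 using 1
      ring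
  · intro n i
    have h1 := hw n 0 i
    have h2 := dvd_sub (hcyc (n + p ^ 0) i) (hcyc n i)
    rw [zero_add, pow_one] at h1
    have h3 := dvd_add h1 h2
    convert h3 using 1
    ring

end Pool.Agent.Helper86.DML
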