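import Mathlib

/-!
# Super-sparse sets of natural numbers
-/

namespace Pool.Agent.Helper86.DML

open Finset

/-- super-sparse sets, with natural parameters -/
def SSp (S : Set ℕ) : Prop :=
  ∃ s K n₁ : ℕ, 1 ≤ K ∧ ∀ n ≥ n₁, ∀ T : Finset ℕ,
    (∀ k ∈ T, k ∈ S ∧ n ≤ k ∧ k < n + 2 ^ (n / K)) → T.card ≤ s

lemma SSp.mono {S S' : Set ℕ} (h : SSp S') (hS : S ⊆ S') : SSp S := by
  obtain ⟨s, K, n₁, hK, h⟩ := h
  exact ⟨s, K, n₁, hK, fun n hn T hT => h n hn T fun k hk => ⟨hS (hT k hk).1, (hT k hk).2⟩⟩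

lemma SSp.empty : SSp ∅ := by
  refine ⟨0, 1, 0, le_rfl, fun n _ T hT => ?_⟩
  rw [Nat.le_zero, Finset.card_eq_zero]
  exact Finset.eq_empty_of_forall_notMem fun k hk => (hT k hk).1

lemma SSp.union {S S' : Set ℕ} (h : SSp S) (h' : SSp S') : SSp (S ∪ S') := by
  classical
  obtain ⟨s, K, n₁, hK, h⟩ := h
  obtain ⟨s', K', n₁', hK', h'⟩ := h'
  refine ⟨s + s', K * K', max n₁ n₁', Nat.mul_pos hK hK', fun n hn T hT => ?_⟩
  have hn1 : n₁ ≤ n := le_trans (le_max_left _ _) hn
  have hn2 : n₁' ≤ n := le_trans (le_max_right _ _) hn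
  have e1 : 2 ^ (n / (K * K')) ≤ 2 ^ (n / K) :=
    Nat.pow_le_pow_right (by norm_num) (Nat.div_le_div_left (Nat.le_mul_of_pos_right K hK') hK)
  have e2 : 2 ^ (n / (K * K')) ≤ 2 ^ (n / K') :=
    Nat.pow_le_pow_right (by norm_num) (Nat.div_le_div_left (Nat.le_mul_of_pos_left K' hK) hK')
  have h1 := h n hn1 (T.filter (· ∈ S)) (by
    intro k hk
    rw [Finset.mem_filter] at hk
    have := hT k hk.1
    exact ⟨hk.2, this.2.1, by omega⟩)
  have h2 := h' n hn2 (T.filter (¬ · ∈ S)) (by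
    intro k hk
    rw [Finset.mem_filter] at hk
    have := hT k hk.1
    exact ⟨this.1.resolve_left hk.2, this.2.1, by omega⟩)
  have h3 := Finset.card_filter_add_card_filter_not (s := T) (· ∈ S)
  omega

lemma SSp.iUnion_range {S : ℕ → Set ℕ} {M : ℕ} (h : ∀ j < M, SSp (S j)) :
    SSp (⋃ j ∈ Finset.range M, S j) := by
  induction M with
  | zero => simpa using SSp.empty
  | succ M ih =>
    have h1 := ih fun j hj => h j (by omega)
    have h2 := h1.union (h M (by omega))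
    refine h2.mono ?_
    intro x hx
    simp only [Finset.mem_range, Set.mem_iUnion, exists_prop] at hx
    obtain ⟨j, hj, hx⟩ := hx
    rcases Nat.lt_succ_iff_lt_or_eq.mp hj with hj | rfl
    · left
      simp only [Finset.mem_range, Set.mem_iUnion, exists_prop]
      exact ⟨j, hj, hx⟩
    · right
      exact hx

lemma SSp.of_bounded {S : Set ℕ} (a : ℕ) (h : ∀ k ∈ S, k < a) : SSp S := by
  refine ⟨0, 1, a, le_rfl, fun n hn T hT => ?_⟩
  rw [Nat.le_zero, Finset.card_eq_zero]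
  apply Finset.eq_empty_of_forall_notMem
  intro k hk
  have h1 := hT k hk
  have h2 := h k h1.1
  omega

/-- reindexing along an arithmetic progression -/
lemma SSp.reindex {S' : Set ℕ} (h : SSp S') (a M : ℕ) (hM : 1 ≤ M) :
    SSp {n | ∃ k ∈ S', n = a + M * k} := by
  classical
  obtain ⟨s, K, n₁, hK, h⟩ := h
  -- for `n ≥ 2 a`, `n' = ⌈(n - a) / M⌉ ≥ n / (2 M)`
  refine ⟨s, 2 * M * K, 2 * a + a + M * n₁ + M, Nat.mul_pos (by omega) hK, fun n hn T hT => ?_⟩
  set n' := (n - a + (M - 1)) / M with hn'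
  have hn'1 : n - a ≤ M * n' := by
    have h1 := Nat.div_add_mod (n - a + (M - 1)) M
    have h2 := Nat.mod_lt (n - a + (M - 1)) (by omega : 0 < M)
    rw [← hn'] at h1
    omega
  have hn'2 : ∀ k, n ≤ a + M * k → n' ≤ k := by
    intro k hk
    rw [hn']
    have h1 : n - a + (M - 1) < M * (k + 1) := by
      have : M * (k + 1) = M * k + M := by ring
      omega
    have := (Nat.div_lt_iff_lt_mul (by omega : 0 < M)).mpr (by rw [mul_comm] at h1; exact h1)
    omega
  have hn'3 : n₁ ≤ n' := by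
    by_contra hcon
    push Not at hcon
    have : M * n' ≤ M * n₁ := Nat.mul_le_mul_left _ hcon.le
    omega
  have hn'4 : n / (2 * M * K) ≤ n' / K := by
    have h1 : n / (2 * M) ≤ n' := by
      apply Nat.div_le_of_le_mul
      have : 2 * M * n' = 2 * (M * n') := by ring
      omega
    rw [← Nat.div_div_eq_div_mul]
    exact Nat.div_le_div_right h1
  have hpow : 2 ^ (n / (2 * M * K)) ≤ 2 ^ (n' / K) := Nat.pow_le_pow_right (by norm_num) hn'4
  have hinj : ∀ k ∈ T, ∃ k' ∈ S', k = a + M * k' := fun k hk => (hT k hk).1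
  choose! κ hκ1 hκ2 using hinj
  have h1 := h n' hn'3 (T.image κ) (by
    intro k' hk'
    rw [Finset.mem_image] at hk'
    obtain ⟨k, hk, rfl⟩ := hk'
    have h2 := hT k hk
    have h3 := hκ2 k hk
    refine ⟨hκ1 k hk, hn'2 _ (by rw [← h3]; exact h2.2.1), ?_⟩
    by_contra hcon
    push Not at hcon
    have h4 : M * (n' + 2 ^ (n' / K)) ≤ M * κ k := Nat.mul_le_mul_left _ hcon
    have h5 : 2 ^ (n' / K) ≤ M * 2 ^ (n' / K) := Nat.le_mul_of_pos_left _ hM
    have h6 : M * (n' + 2 ^ (n' / K)) = M * n' + M * 2 ^ (n' / K) := by ring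
    have h7 := h2.2.2
    omega)
  rwa [Finset.card_image_of_injOn] at h1
  intro k hk k' hk' hkk'
  rw [hκ2 k hk, hκ2 k' hk', hkk']

/-- the real form of super-sparseness -/
lemma SSp.final {S : Set ℕ} (h : SSp S) :
    ∃ (s : ℕ) (c : ℝ), 1 < c ∧ ∀ n : ℕ,
      {k : ℕ | n ≤ k ∧ (k : ℝ) < n + c ^ n ∧ k ∈ S}.encard ≤ s := by
  classical
  obtain ⟨s, K, n₁, hK, h⟩ := h
  obtain ⟨c, hc1, hcK⟩ : ∃ c : ℝ, 1 < c ∧ c ^ (2 * K) ≤ 2 := by
    refine ⟨1 + 1 / (4 * K), ?_, ?_⟩
    · have : (0 : ℝ) < K := by exact_mod_cast hK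
      have : (0 : ℝ) < 1 / (4 * K) := by positivity
      linarith
    · have hKpos : (0 : ℝ) < K := by exact_mod_cast hK
      have h1 : (1 + 1 / (4 * (K : ℝ))) ≤ Real.exp (1 / (4 * K)) := by
        have := Real.add_one_le_exp (1 / (4 * (K : ℝ)))
        linarith
      have h2 : (1 + 1 / (4 * (K : ℝ))) ^ (2 * K) ≤ Real.exp (1 / (4 * K)) ^ (2 * K) :=
        pow_le_pow_left₀ (by positivity) h1 _
      have h3 : Real.exp (1 / (4 * K)) ^ (2 * K) = Real.exp (1 / 2) := by
        rw [← Real.exp_nat_mul]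
        congr 1
        push_cast
        field_simp
        norm_num
      rw [h3] at h2
      have h4 : Real.exp (1 / 2) ≤ 2 := by
        have h5 : Real.exp (1 / 2) ^ 2 = Real.exp 1 := by
          rw [← Real.exp_nat_mul]
          congr 1
          norm_num
        have h6 := Real.exp_one_lt_d9
        nlinarith [Real.exp_pos (1 / 2)]
      exact h2.trans h4
  -- a bound for all `n`
  set n₂ := max n₁ (2 * K) with hn₂
  obtain ⟨B, hB⟩ := exists_nat_gt (c ^ n₂)
  refine ⟨max s (B + 1), c, hc1, fun n => ?_⟩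
  have hfin : ∀ (H : ℕ), c ^ n ≤ H → {k : ℕ | n ≤ k ∧ (k : ℝ) < n + c ^ n ∧ k ∈ S} ⊆
      ((Finset.Ico n (n + H)).filter (· ∈ S) : Finset ℕ) := by
    intro H hH k hk
    simp only [Set.mem_ofPred_eq] at hk
    simp only [Finset.coe_filter, Finset.mem_Ico, Set.mem_ofPred_eq]
    refine ⟨⟨hk.1, ?_⟩, hk.2.2⟩
    have : (k : ℝ) < ((n + H : ℕ) : ℝ) := by
      push_cast
      linarith [hk.2.1]
    exact_mod_cast this
  by_cases hn : n₂ ≤ n
  · have hn1 : n₁ ≤ n := le_trans (le_max_left _ _) hn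
    have hn2 : 2 * K ≤ n := le_trans (le_max_right _ _) hn
    have hcn : c ^ n ≤ ((2 ^ (n / K) : ℕ) : ℝ) := by
      have h1 : n ≤ 2 * K * (n / K) := by
        have h2 := Nat.div_add_mod n K
        have h3 := Nat.mod_lt n (by omega : 0 < K)
        have h4 : K ≤ K * (n / K) := by
          have : 2 ≤ n / K := (Nat.le_div_iff_mul_le (by omega)).mpr hn2
          nlinarith
        have : 2 * K * (n / K) = 2 * (K * (n / K)) := by ring
        omega
      have h2 : c ^ n ≤ c ^ (2 * K * (n / K)) := pow_le_pow_right₀ hc1.le h1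
      have h3 : c ^ (2 * K * (n / K)) ≤ 2 ^ (n / K) := by
        rw [pow_mul]
        exact pow_le_pow_left₀ (by positivity) hcK _
      push_cast
      linarith
    have h1 := hfin _ hcn
    have h2 := h n hn1 ((Finset.Ico n (n + 2 ^ (n / K))).filter (· ∈ S)) (by
      intro k hk
      rw [Finset.mem_filter, Finset.mem_Ico] at hk
      exact ⟨hk.2, hk.1⟩)
    calc _ ≤ (((Finset.Ico n (n + 2 ^ (n / K))).filter (· ∈ S) : Finset ℕ) : Set ℕ).encard :=
          Set.encard_le_encard h1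
      _ = (((Finset.Ico n (n + 2 ^ (n / K))).filter (· ∈ S)).card : ℕ∞) :=
          Set.encard_coe_eq_coe_finsetCard _
      _ ≤ _ := by exact_mod_cast h2.trans (le_max_left _ _)
  · push Not at hn
    have hcn : c ^ n ≤ (B : ℝ) := (pow_le_pow_right₀ hc1.le hn.le).trans hB.le
    have h1 := hfin _ hcn
    have h2 : ((Finset.Ico n (n + B)).filter (· ∈ S)).card ≤ B := by
      refine (Finset.card_filter_le _ _).trans ?_
      rw [Nat.card_Ico]
      omega
    calc _ ≤ (((Finset.Ico n (n + B)).filter (· ∈ S) : Finset ℕ) : Set ℕ).encard :=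
          Set.encard_le_encard h1
      _ = (((Finset.Ico n (n + B)).filter (· ∈ S)).card : ℕ∞) :=
          Set.encard_coe_eq_coe_finsetCard _
      _ ≤ _ := by exact_mod_cast h2.trans (le_trans (Nat.le_succ _) (le_max_right _ _))

end Pool.Agent.Helper86.DML
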