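import Mathlib
import Pool.Agent.Helper86.DML.PadicSeq

/-!
# Approximate zeros of analytic sequences
-/

namespace Pool.Agent.Helper86.DML

open Finset fwdDiff Polynomial

variable {p : ℕ} [hp : Fact p.Prime]

lemma padic_prime : Prime (p : ℤ_[p]) := PadicInt.prime_p

lemma dvd_of_dvd_mul_padic (δ : ℕ) : ∀ (E : ℕ) (x y : ℤ_[p]), ¬ (p : ℤ_[p]) ^ (δ + 1) ∣ x →
    (p : ℤ_[p]) ^ E ∣ x * y → (p : ℤ_[p]) ^ (E - δ) ∣ y := by
  induction δ with
  | zero =>
    intro E x y hx h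
    simp only [zero_add, pow_one] at hx
    simpa using (padic_prime (p := p)).pow_dvd_of_dvd_mul_left E hx h
  | succ δ ih =>
    intro E x y hx h
    by_cases hpx : (p : ℤ_[p]) ∣ x
    · obtain ⟨x', rfl⟩ := hpx
      rcases E with _ | E
      · simp
      · have h1 : (p : ℤ_[p]) ^ E ∣ x' * y := by
          rw [pow_succ', mul_assoc] at h
          exact (mul_dvd_mul_iff_left (padic_prime (p := p)).ne_zero).mp h
        have h2 : ¬ (p : ℤ_[p]) ^ (δ + 1) ∣ x' := by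
          intro hd
          exact hx (by rw [pow_succ']; exact mul_dvd_mul_left _ hd)
        have := ih E x' y h2 h1
        rwa [Nat.succ_sub_succ]
    · have := (padic_prime (p := p)).pow_dvd_of_dvd_mul_left E hpx h
      exact (pow_dvd_pow _ (Nat.sub_le _ _)).trans this

lemma toZMod_eq_zero_iff (x : ℤ_[p]) : PadicInt.toZMod x = 0 ↔ (p : ℤ_[p]) ∣ x := by
  rw [← RingHom.mem_ker, PadicInt.ker_toZMod, PadicInt.maximalIdeal_eq_span_p,
    Ideal.mem_span_singleton]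

lemma poly_zeros (s : ℕ) : ∀ (Q : ℤ_[p][X]) (E δ : ℕ) (T : Finset ℕ),
    Q.map PadicInt.toZMod ≠ 0 → (Q.map PadicInt.toZMod).natDegree = s → s < T.card →
    (∀ n ∈ T, (p : ℤ_[p]) ^ E ∣ Q.eval (n : ℤ_[p])) →
    (∀ n ∈ T, ∀ m ∈ T, n ≠ m → ¬ (p : ℤ_[p]) ^ (δ + 1) ∣ ((n : ℤ_[p]) - m)) →
    E ≤ s * δ := by
  induction s with
  | zero =>
    intro Q E δ T hne hs hT hdiv _
    obtain ⟨n, hn⟩ := Finset.card_pos.mp hT
    have h1 := hdiv n hn
    by_contra hE
    push Not at hE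
    have hE1 : E ≠ 0 := by omega
    have h2 : (p : ℤ_[p]) ∣ Q.eval (n : ℤ_[p]) := (dvd_pow_self _ hE1).trans h1
    rw [← toZMod_eq_zero_iff] at h2
    have h3 : (Q.map PadicInt.toZMod).eval (PadicInt.toZMod (n : ℤ_[p])) = 0 := by
      rw [Polynomial.eval_map, Polynomial.eval₂_hom, h2]
    rw [Polynomial.eq_C_of_natDegree_eq_zero hs, Polynomial.eval_C] at h3
    apply hne
    rw [Polynomial.eq_C_of_natDegree_eq_zero hs, h3, Polynomial.C_0]
  | succ s ih =>
    intro Q E δ T hne hs hT hdiv hdist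
    have hTne : T.Nonempty := Finset.card_pos.mp (by omega)
    obtain ⟨a, ha⟩ := hTne
    have hroot : (X - C (a : ℤ_[p])) ∣ Q - C (Q.eval (a : ℤ_[p])) := by
      rw [Polynomial.dvd_iff_isRoot]
      simp [Polynomial.IsRoot]
    obtain ⟨Q₁, hQ₁⟩ := hroot
    have hmap : Q.map PadicInt.toZMod - C (PadicInt.toZMod (Q.eval (a : ℤ_[p]))) =
        (X - C (PadicInt.toZMod (a : ℤ_[p]))) * Q₁.map PadicInt.toZMod := by
      have := congrArg (Polynomial.map PadicInt.toZMod) hQ₁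
      simpa [Polynomial.map_sub, Polynomial.map_mul] using this
    have hdeg : (Q.map PadicInt.toZMod - C (PadicInt.toZMod (Q.eval (a : ℤ_[p])))).natDegree =
        s + 1 := by
      rw [Polynomial.natDegree_sub_C, hs]
    have hQ₁ne : Q₁.map PadicInt.toZMod ≠ 0 := by
      intro h0
      rw [hmap, h0, mul_zero] at hdeg
      simp at hdeg
    have hQ₁deg : (Q₁.map PadicInt.toZMod).natDegree = s := by
      rw [hmap, Polynomial.natDegree_mul (Polynomial.X_sub_C_ne_zero _) hQ₁ne,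
        Polynomial.natDegree_X_sub_C] at hdeg
      omega
    have hcard : s < (T.erase a).card := by
      rw [Finset.card_erase_of_mem ha]
      omega
    have hdiv' : ∀ n ∈ T.erase a, (p : ℤ_[p]) ^ (E - δ) ∣ Q₁.eval (n : ℤ_[p]) := by
      intro n hn
      rw [Finset.mem_erase] at hn
      apply dvd_of_dvd_mul_padic δ E ((n : ℤ_[p]) - (a : ℤ_[p])) _ (hdist n hn.2 a ha hn.1)
      have h1 : ((n : ℤ_[p]) - (a : ℤ_[p])) * Q₁.eval (n : ℤ_[p]) =
          Q.eval (n : ℤ_[p]) - Q.eval (a : ℤ_[p]) := by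
        have := congrArg (Polynomial.eval (n : ℤ_[p])) hQ₁
        simp only [Polynomial.eval_sub, Polynomial.eval_C, Polynomial.eval_mul,
          Polynomial.eval_X] at this
        exact this.symm
      rw [h1]
      exact dvd_sub (hdiv n hn.2) (hdiv a ha)
    have := ih Q₁ (E - δ) δ (T.erase a) hQ₁ne hQ₁deg hcard hdiv'
      (fun n hn m hm hnm => hdist n (Finset.mem_of_mem_erase hn) m (Finset.mem_of_mem_erase hm) hnm)
    have h2 : (s + 1) * δ = s * δ + δ := by ring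
    omega

/-- the quotients `p ^ k / k!` -/
lemma exists_q (hp3 : 3 ≤ p) (k : ℕ) : ∃ q : ℤ_[p], q * (k.factorial : ℤ_[p]) = (p : ℤ_[p]) ^ k ∧
    ∀ M, 2 * M ≤ k → (p : ℤ_[p]) ^ M ∣ q := by
  have hfac : (k.factorial : ℕ) ≠ 0 := Nat.factorial_ne_zero k
  set v := padicValNat p k.factorial with hv
  have hv2 : 2 * v ≤ k := by
    have h1 := sub_one_mul_padicValNat_factorial (p := p) k
    have h2 : 2 * v ≤ (p - 1) * v := Nat.mul_le_mul_right _ (by omega)
    rw [← hv] at h1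
    omega
  obtain ⟨m, hm⟩ : p ^ v ∣ k.factorial := pow_padicValNat_dvd
  have hpm : ¬ p ∣ m := by
    intro hd
    obtain ⟨m', rfl⟩ := hd
    have : p ^ (v + 1) ∣ k.factorial := by
      rw [hm, pow_succ]
      exact mul_dvd_mul_left _ (dvd_mul_right _ _)
    exact (pow_succ_padicValNat_not_dvd hfac) this
  have hunit : IsUnit (m : ℤ_[p]) := by
    rw [PadicInt.isUnit_iff]
    have := (PadicInt.norm_int_lt_one_iff_dvd (p := p) (m : ℤ)).not
    have h1 : ¬ ‖(m : ℤ_[p])‖ < 1 := by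
      have h2 : ¬ ((p : ℤ) ∣ (m : ℤ)) := by exact_mod_cast hpm
      have h3 := this.mpr h2
      simpa using h3
    exact le_antisymm (PadicInt.norm_le_one _) (not_lt.mp h1)
  obtain ⟨u, hu⟩ := hunit
  refine ⟨(p : ℤ_[p]) ^ (k - v) * (↑u⁻¹ : ℤ_[p]), ?_, ?_⟩
  · rw [hm]
    push_cast
    rw [← hu]
    have h1 : (p : ℤ_[p]) ^ (k - v) * ↑u⁻¹ * ((p : ℤ_[p]) ^ v * ↑u) =
        ((p : ℤ_[p]) ^ (k - v) * (p : ℤ_[p]) ^ v) * (↑u⁻¹ * ↑u) := by ring
    rw [h1, Units.inv_mul, mul_one, ← pow_add, Nat.sub_add_cancel (by omega)]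
  · intro M hM
    refine Dvd.dvd.mul_right (pow_dvd_pow _ ?_) _
    omega

lemma coeff_dvd_trans {Q : ℤ_[p][X]} {M : ℕ} {n : ℤ_[p]} (h : (C (p : ℤ_[p])) ^ M ∣ Q) :
    (p : ℤ_[p]) ^ M ∣ Q.eval n := by
  obtain ⟨W, rfl⟩ := h
  simp

theorem zero_estimate (hp3 : 3 ≤ p) {g : ℕ → ℤ_[p]} (hg : An p g) (hne : ∃ n, g n ≠ 0) :
    ∃ s β : ℕ, ∀ (E δ : ℕ) (T : Finset ℕ), s < T.card → (∀ n ∈ T, (p : ℤ_[p]) ^ E ∣ g n) →
      (∀ n ∈ T, ∀ m ∈ T, n ≠ m → ¬ (p : ℤ_[p]) ^ (δ + 1) ∣ ((n : ℤ_[p]) - m)) →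
      E ≤ β + s * δ := by
  classical
  obtain ⟨n₀, hn₀⟩ := hne
  obtain ⟨M, hM⟩ : ∃ M, ¬ (p : ℤ_[p]) ^ M ∣ g n₀ := by
    by_contra hcon
    push Not at hcon
    apply hn₀
    rw [← norm_eq_zero]
    by_contra hpos
    have hpos' : 0 < ‖g n₀‖ := lt_of_le_of_ne (norm_nonneg _) (Ne.symm hpos)
    obtain ⟨m, hm⟩ := PadicInt.exists_pow_neg_lt p hpos'
    have h1 := (PadicInt.norm_le_pow_iff_mem_span_pow (g n₀) m).mpr
      (Ideal.mem_span_singleton.mpr (hcon m))
    linarith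
  choose c hc using fun k => hg k 0
  choose q hq hqM using fun k => exists_q hp3 k
  let P : ℕ → ℤ_[p][X] := fun K =>
    ∑ k ∈ range (K + 1), C (c k * q k) * (descPochhammer ℤ_[p] k)
  have hPeval : ∀ (K n : ℕ), (P K).eval (n : ℤ_[p]) =
      ∑ k ∈ range (K + 1), (n.choose k : ℤ_[p]) * (fwdDiff 1)^[k] g 0 := by
    intro K n
    simp only [P, Polynomial.eval_finsetSum, Polynomial.eval_mul, Polynomial.eval_C]
    refine Finset.sum_congr rfl fun k _ => ?_
    rw [descPochhammer_eval_eq_descFactorial, Nat.descFactorial_eq_factorial_mul_choose, hc]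
    push_cast
    rw [← hq k]
    ring
  have hgeval : ∀ (L n : ℕ), n ≤ L → g n = ∑ k ∈ range (L + 1), (n.choose k : ℤ_[p]) * (fwdDiff 1)^[k] g 0 := by
    intro L n hnL
    have h := shift_eq_sum_fwdDiff_iter (1 : ℕ) g n 0
    simp only [smul_eq_mul, mul_one, zero_add, nsmul_eq_mul] at h
    rw [h]
    apply Finset.sum_subset
    · intro k hk
      rw [Finset.mem_range] at hk ⊢
      omega
    · intro k _ hk
      rw [Finset.mem_range, not_lt] at hk
      rw [Nat.choose_eq_zero_of_lt (by omega)]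
      simp
  have hcong : ∀ (K n : ℕ), (p : ℤ_[p]) ^ (K + 1) ∣ g n - (P K).eval (n : ℤ_[p]) := by
    intro K n
    rw [hPeval, hgeval (max n K) n (le_max_left _ _)]
    have hsub : range (K + 1) ⊆ range (max n K + 1) := by
      intro k hk
      rw [Finset.mem_range] at hk ⊢
      have := le_max_right n K
      omega
    rw [← Finset.sum_sdiff hsub, add_sub_cancel_right]
    apply Finset.dvd_sum
    intro k hk
    rw [Finset.mem_sdiff, Finset.mem_range, Finset.mem_range] at hk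
    refine Dvd.dvd.mul_left ((pow_dvd_pow _ ?_).trans (hg k 0)) _
    omega
  -- the polynomials stabilise modulo p ^ M
  have hstab : ∀ K, 2 * M ≤ K → (C (p : ℤ_[p])) ^ M ∣ P K - P (2 * M) := by
    intro K hK
    have hsub : range (2 * M + 1) ⊆ range (K + 1) := by
      intro k hk
      rw [Finset.mem_range] at hk ⊢
      omega
    simp only [P]
    rw [← Finset.sum_sdiff hsub, add_sub_cancel_right]
    apply Finset.dvd_sum
    intro k hk
    rw [Finset.mem_sdiff, Finset.mem_range, Finset.mem_range] at hk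
    have h1 : (p : ℤ_[p]) ^ M ∣ q k := hqM k M (by omega)
    obtain ⟨w, hw⟩ := h1
    refine Dvd.dvd.mul_right ?_ _
    rw [hw]
    refine ⟨C (c k * w), ?_⟩
    simp only [← C_pow, ← C_mul]
    congr 1
    ring
  have hPne : ¬ (C (p : ℤ_[p])) ^ M ∣ P (2 * M) := by
    intro hd
    apply hM
    have h1 : (p : ℤ_[p]) ^ M ∣ (P (2 * M)).eval (n₀ : ℤ_[p]) := coeff_dvd_trans hd
    have h2 := hcong (2 * M) n₀
    have h3 : (p : ℤ_[p]) ^ M ∣ g n₀ - (P (2 * M)).eval (n₀ : ℤ_[p]) :=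
      (pow_dvd_pow _ (by omega)).trans h2
    have := dvd_add h3 h1
    simpa using this
  -- extract the content
  obtain ⟨β, hβ1, hβ2⟩ : ∃ β, (C (p : ℤ_[p])) ^ β ∣ P (2 * M) ∧
      ¬ (C (p : ℤ_[p])) ^ (β + 1) ∣ P (2 * M) := by
    by_contra hcon
    push Not at hcon
    have : ∀ m, (C (p : ℤ_[p])) ^ m ∣ P (2 * M) := by
      intro m
      induction m with
      | zero => simp
      | succ m ih => exact hcon m ih
    exact hPne (this M)
  have hβM : β < M := by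
    by_contra hcon
    push Not at hcon
    exact hPne ((pow_dvd_pow _ hcon).trans hβ1)
  obtain ⟨Q, hQ⟩ := hβ1
  have hQne : Q.map PadicInt.toZMod ≠ 0 := by
    intro h0
    apply hβ2
    have h1 : (C (p : ℤ_[p])) ∣ Q := by
      rw [Polynomial.C_dvd_iff_dvd_coeff]
      intro i
      rw [← toZMod_eq_zero_iff, ← Polynomial.coeff_map, h0, Polynomial.coeff_zero]
    obtain ⟨Q', rfl⟩ := h1
    refine ⟨Q', ?_⟩
    rw [hQ, pow_succ, mul_assoc]
  refine ⟨(Q.map PadicInt.toZMod).natDegree, β, ?_⟩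
  intro E δ T hT hdiv hdist
  obtain ⟨W, hW⟩ := hstab (max (2 * M) E) (le_max_left _ _)
  set K := max (2 * M) E with hK
  have hPK : P K = (C (p : ℤ_[p])) ^ β * (Q + (C (p : ℤ_[p])) ^ (M - β) * W) := by
    have h1 : P K = P (2 * M) + (C (p : ℤ_[p])) ^ M * W := by rw [← hW]; ring
    rw [h1, hQ, mul_add, ← mul_assoc, ← pow_add, Nat.add_sub_cancel' hβM.le]
  set Q' := Q + (C (p : ℤ_[p])) ^ (M - β) * W with hQ'
  have hmapQ' : Q'.map PadicInt.toZMod = Q.map PadicInt.toZMod := by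
    have h0 : (C (p : ℤ_[p])).map PadicInt.toZMod = 0 := by
      rw [Polynomial.map_C, (toZMod_eq_zero_iff _).mpr dvd_rfl, C_0]
    rw [hQ', Polynomial.map_add, Polynomial.map_mul, Polynomial.map_pow, h0,
      zero_pow (by omega), zero_mul, add_zero]
  have hdivQ : ∀ n ∈ T, (p : ℤ_[p]) ^ (E - β) ∣ Q'.eval (n : ℤ_[p]) := by
    intro n hn
    have h1 : (p : ℤ_[p]) ^ E ∣ (P K).eval (n : ℤ_[p]) := by
      have h2 := hdiv n hn
      have h3 : (p : ℤ_[p]) ^ E ∣ g n - (P K).eval (n : ℤ_[p]) := by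
        refine (pow_dvd_pow _ ?_).trans (hcong K n)
        have := le_max_right (2 * M) E
        omega
      have := dvd_sub h2 h3
      simpa using this
    rw [hPK, Polynomial.eval_mul, Polynomial.eval_pow, Polynomial.eval_C] at h1
    by_cases hEβ : E ≤ β
    · rw [Nat.sub_eq_zero_of_le hEβ]
      simp
    · push Not at hEβ
      have h4 : (p : ℤ_[p]) ^ E = (p : ℤ_[p]) ^ β * (p : ℤ_[p]) ^ (E - β) := by
        rw [← pow_add, Nat.add_sub_cancel' hEβ.le]
      rw [h4] at h1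
      exact (mul_dvd_mul_iff_left (pow_ne_zero _ (padic_prime (p := p)).ne_zero)).mp h1
  have := poly_zeros (Q.map PadicInt.toZMod).natDegree Q' (E - β) δ T (by rw [hmapQ']; exact hQne)
    (by rw [hmapQ']) hT hdivQ hdist
  omega

end Pool.Agent.Helper86.DML
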