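import Mathlib
import Pool.Agent.Helper86.DML.Zeros
import Pool.Agent.Helper86.DML.Complete
import Pool.Agent.Helper86.DML.Sparse

/-!
# The `p`-adic form of the sparseness theorem
-/

namespace Pool.Agent.Helper86.DML

open MvPolynomial

variable {p : ℕ} [hp : Fact p.Prime]

lemma SSp_of_An (hp3 : 3 ≤ p) {g : ℕ → ℤ_[p]} (hg : An p g) (hne : ∃ n, g n ≠ 0) {S : Set ℕ}
    (hS : ∀ n ∈ S, (p : ℤ_[p]) ^ n ∣ g n) : SSp S := by
  obtain ⟨s, β, h⟩ := zero_estimate hp3 hg hne
  refine ⟨s, 2 * (s + 1), 2 * β + 1, by omega, fun n hn T hT => ?_⟩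
  by_contra hcon
  push Not at hcon
  have h1 := h n (n / (2 * (s + 1))) T hcon
    (fun k hk => (pow_dvd_pow _ (hT k hk).2.1).trans (hS k (hT k hk).1)) (by
      intro k hk m hm hkm hd
      have hk' := (hT k hk).2
      have hm' := (hT m hm).2
      have h2 : ((p : ℤ) ^ (n / (2 * (s + 1)) + 1)) ∣ ((k : ℤ) - m) := by
        have := (PadicInt.pow_p_dvd_int_iff (p := p) (n / (2 * (s + 1)) + 1) ((k : ℤ) - m)).mp
          (by push_cast; exact hd)
        exact_mod_cast this
      have h3 : (2 : ℤ) ^ (n / (2 * (s + 1))) ≤ (p : ℤ) ^ (n / (2 * (s + 1)) + 1) := by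
        have h4 : 2 ^ (n / (2 * (s + 1))) ≤ p ^ (n / (2 * (s + 1)) + 1) :=
          (Nat.pow_le_pow_left (by omega) _).trans
            (Nat.pow_le_pow_right (by omega) (Nat.le_succ _))
        exact_mod_cast h4
      have h5 : |(k : ℤ) - m| < (p : ℤ) ^ (n / (2 * (s + 1)) + 1) := by
        rw [abs_lt]
        have e1 : (k : ℤ) < n + 2 ^ (n / (2 * (s + 1))) := by exact_mod_cast hk'.2
        have e2 : (m : ℤ) < n + 2 ^ (n / (2 * (s + 1))) := by exact_mod_cast hm'.2
        have e3 : (n : ℤ) ≤ k := by exact_mod_cast hk'.1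
        have e4 : (n : ℤ) ≤ m := by exact_mod_cast hm'.1
        constructor <;> linarith
      have h6 := Int.eq_zero_of_abs_lt_dvd h2 h5
      apply hkm
      omega)
  have h2 : 2 * (s * (n / (2 * (s + 1)))) ≤ n := by
    have h3 := Nat.div_mul_le_self n (2 * (s + 1))
    have h4 : n / (2 * (s + 1)) * (2 * (s + 1)) =
      2 * (s * (n / (2 * (s + 1)))) + 2 * (n / (2 * (s + 1))) := by ring
    omega
  omega

variable {O : Type*} [CommRing O] [Algebra ℤ_[p] O] [Module.Finite ℤ_[p] O]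
  [Module.Free ℤ_[p] O] {ι : Type*} [Finite ι]

omit [Module.Finite ℤ_[p] O] in
lemma SSp_of_An' (hp3 : 3 ≤ p) {g : ℕ → O} (hg : An p g) (hne : ∃ n, g n ≠ 0) {S : Set ℕ}
    (hS : ∀ n ∈ S, (p : O) ^ n ∣ g n) : SSp S := by
  let b := Module.Free.chooseBasis ℤ_[p] O
  obtain ⟨n₀, hn₀⟩ := hne
  obtain ⟨i, hi⟩ : ∃ i, b.repr (g n₀) i ≠ 0 := by
    by_contra hcon
    push Not at hcon
    apply hn₀
    have : b.repr (g n₀) = 0 := by
      ext i
      exact hcon i
    simpa using this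
  have hfd : ∀ k n, (fwdDiff 1)^[k] (fun n => b.repr (g n) i) n =
      b.repr ((fwdDiff 1)^[k] g n) i := by
    intro k
    induction k with
    | zero => intro n; rfl
    | succ k ih =>
      intro n
      rw [Function.iterate_succ_apply', Function.iterate_succ_apply']
      simp only [fwdDiff]
      rw [ih, ih, map_sub, Finsupp.sub_apply]
  refine SSp_of_An hp3 (g := fun n => b.repr (g n) i) ?_ ⟨n₀, hi⟩ ?_
  · intro k n
    rw [hfd]
    exact (basis_dvd_iff b k _).mp (hg k n) i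
  · intro n hn
    exact (basis_dvd_iff b n _).mp (hS n hn) i

/-- the `p`-adic form of the sparseness theorem -/
theorem padic_main (hp3 : 3 ≤ p) (Φ : ι → MvPolynomial ι O) (α : ι → O)
    (V : Set (MvPolynomial ι O))
    (hV : ∀ w : ι → O, ∀ r, 1 ≤ r → ∃ k, ∃ F ∈ V, eval ((pmap Φ)^[r * k] w) F ≠ 0) :
    SSp {n | ∀ F ∈ V, eval ((pmap Φ)^[n] α) F = 0} := by
  classical
  have := finite_quotient (p := p) (O := O)
  -- preperiodicity modulo `p`
  obtain ⟨n₀, ℓ, hℓ, hper⟩ : ∃ n₀ ℓ, 1 ≤ ℓ ∧ ∀ i, (p : O) ∣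
      (pmap Φ)^[ℓ] ((pmap Φ)^[n₀] α) i - (pmap Φ)^[n₀] α i := by
    obtain ⟨i, j, hij, h⟩ := Finite.exists_ne_map_eq_of_infinite
      (fun (n : ℕ) => (fun i => Ideal.Quotient.mk (Ideal.span {(p : O)}) ((pmap Φ)^[n] α i)))
    wlog hlt : i < j generalizing i j
    · exact this j i hij.symm h.symm (by omega)
    obtain ⟨d, rfl⟩ := Nat.exists_eq_add_of_lt hlt
    refine ⟨i, d + 1, by omega, fun k => ?_⟩
    have h1 := congrFun h k
    rw [eq_comm, Ideal.Quotient.eq, Ideal.mem_span_singleton] at h1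
    rw [← Function.iterate_add_apply]
    have : d + 1 + i = i + d + 1 := by ring
    rw [this]
    exact h1
  obtain ⟨M, w, g, hM, hg1, hg2, hg3, hg4, -⟩ := shadow Φ _ ℓ hℓ hper
  -- the classes
  have hclass : ∀ j < M, SSp {k | ∀ F ∈ V, eval ((pmap Φ)^[n₀ + j + M * k] α) F = 0} := by
    intro j _
    -- iterates of the shadow orbit
    have hwk : ∀ k, (pmap Φ)^[M * k] (w 0) = w k := by
      intro k
      induction k with
      | zero => rfl
      | succ k ih =>
        have : M * (k + 1) = M + M * k := by ring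
        rw [this, Function.iterate_add_apply, ih, hg4]
    obtain ⟨k, F, hF, hne⟩ := hV ((pmap Φ)^[j] (w 0)) M hM
    have hne' : g (((bind₁ Φ) ^ j) F) k ≠ 0 := by
      rw [← hg3, eval_bind₁_pow, ← hwk, ← Function.iterate_add_apply]
      rw [← Function.iterate_add_apply, add_comm] at hne
      exact hne
    refine SSp_of_An' hp3 (hg1 (((bind₁ Φ) ^ j) F)) ⟨k, hne'⟩ ?_
    intro n hn
    have h1 := hn F hF
    have h2 := hg2 (((bind₁ Φ) ^ j) F) n
    rw [eval_bind₁_pow, ← Function.iterate_add_apply, ← Function.iterate_add_apply] at h2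
    have h3 : j + M * n + n₀ = n₀ + j + M * n := by ring
    rw [h3, h1, zero_sub, dvd_neg] at h2
    exact h2
  have hcl2 : ∀ j < M, SSp {n | ∃ k ∈ {k | ∀ F ∈ V, eval ((pmap Φ)^[n₀ + j + M * k] α) F = 0},
      n = n₀ + j + M * k} := fun j hj => (hclass j hj).reindex (n₀ + j) M hM
  refine ((SSp.iUnion_range hcl2).union (SSp.of_bounded (S := {n | n < n₀}) n₀
    (fun k hk => hk))).mono ?_
  intro n hn
  by_cases hlt : n < n₀
  · right
    exact hlt
  · left
    push Not at hlt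
    simp only [Finset.mem_range, Set.mem_iUnion, exists_prop]
    refine ⟨(n - n₀) % M, Nat.mod_lt _ (by omega), (n - n₀) / M, ?_, ?_⟩
    · intro F hF
      have h1 := hn F hF
      have h2 : n₀ + (n - n₀) % M + M * ((n - n₀) / M) = n := by
        have := Nat.div_add_mod (n - n₀) M
        omega
      rw [h2]
      exact h1
    · have := Nat.div_add_mod (n - n₀) M
      omega

end Pool.Agent.Helper86.DML
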