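import Mathlib
import Pool.Agent.Helper86.DML.Padic

/-!
# The shadow of a `p`-adic orbit, with coefficients in larger rings
-/

namespace Pool.Agent.Helper86.DML

open MvPolynomial

universe u

variable {p : ℕ} [hp : Fact p.Prime]
variable {O : Type u} [CommRing O] [Algebra ℤ_[p] O] [Module.Finite ℤ_[p] O]
  [Module.Free ℤ_[p] O] {ι : Type*} [Finite ι]

omit [Module.Finite ℤ_[p] O] [Module.Free ℤ_[p] O] [Algebra ℤ_[p] O] [Finite ι] hp in
lemma iterate_congr' {q : O} (Φ : ι → MvPolynomial ι O) {x y : ι → O} (h : ∀ i, q ∣ x i - y i)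
    (n : ℕ) (i : ι) : q ∣ (pmap Φ)^[n] x i - (pmap Φ)^[n] y i := by
  have h2 := eval_congr_mod h (((bind₁ Φ) ^ n) (X i))
  rwa [eval_bind₁_pow, eval_bind₁_pow, eval_X, eval_X] at h2

omit hp in
lemma An.add {R : Type*} [CommRing R] {g g' : ℕ → R} (hg : An p g) (hg' : An p g') :
    An p (fun n => g n + g' n) := by
  intro k n
  have h := fwdDiff_iter_add (1 : ℕ) g g' k
  have h2 := congrFun h n
  have h3 : (fwdDiff 1)^[k] (fun n => g n + g' n) n = (fwdDiff 1)^[k] g n + (fwdDiff 1)^[k] g' n := h2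
  rw [h3]
  exact dvd_add (hg k n) (hg' k n)

omit hp in
lemma An.const_mul {R : Type*} [CommRing R] {g : ℕ → R} (c : R) (hg : An p g) :
    An p (fun n => c * g n) := by
  intro k n
  have h := fwdDiff_iter_const_smul (1 : ℕ) c g k
  have h2 := congrFun h n
  have h3 : (fwdDiff 1)^[k] (fun n => c * g n) n = c * (fwdDiff 1)^[k] g n := h2
  rw [h3]
  exact Dvd.dvd.mul_left (hg k n) c

omit hp in
lemma An.map {R S : Type*} [CommRing R] [CommRing S] {g : ℕ → R} (φ : R →+* S) (hg : An p g) :
    An p (fun n => φ (g n)) := by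
  have h : ∀ k n, (fwdDiff 1)^[k] (fun n => φ (g n)) n = φ ((fwdDiff 1)^[k] g n) := by
    intro k
    induction k with
    | zero => intro n; rfl
    | succ k ih =>
      intro n
      rw [Function.iterate_succ_apply', Function.iterate_succ_apply']
      simp only [fwdDiff]
      rw [ih, ih, map_sub]
  intro k n
  rw [h]
  have := map_dvd φ (hg k n)
  simpa using this

omit [Algebra ℤ_[p] O] [Module.Finite ℤ_[p] O] [Module.Free ℤ_[p] O] [Finite ι] hp in
/-- analytic interpolation of all polynomial functions with coefficients in a larger ring -/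
lemma exists_interp {O' : Type*} [CommRing O'] (φ : O →+* O') (x w : ℕ → ι → O)
    (h : ∀ F : MvPolynomial ι O, An p (fun n => eval (w n) F))
    (h' : ∀ i n, (p : O) ^ n ∣ x n i - w n i) (F : MvPolynomial ι O') :
    An p (fun n => eval (φ ∘ w n) F) ∧ ∀ n, (p : O') ^ n ∣ eval (φ ∘ x n) F - eval (φ ∘ w n) F := by
  constructor
  · induction F using MvPolynomial.induction_on' with
    | monomial m c =>
      have h1 : (fun n => eval (φ ∘ w n) (monomial m c)) =
          fun n => c * φ (eval (w n) (monomial m 1)) := by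
        funext n
        rw [eval_monomial, eval_monomial, one_mul, Finsupp.prod, Finsupp.prod, map_prod]
        simp
      rw [h1]
      exact (An.map φ (h _)).const_mul c
    | add F G hF hG =>
      have h1 : (fun n => eval (φ ∘ w n) (F + G)) =
          fun n => eval (φ ∘ w n) F + eval (φ ∘ w n) G := by
        funext n
        rw [map_add]
      rw [h1]
      exact hF.add hG
  · intro n
    apply eval_congr_mod
    intro i
    have := map_dvd φ (h' i n)
    simpa using this

/-- every `p`-adic orbit has a shadow orbit, to which it is asymptotic, and the returns of the orbit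
to the zero set of `F` in a residue class are super-sparse unless `F` vanishes on the shadow -/
theorem dichotomy' (hp3 : 3 ≤ p) (Φ : ι → MvPolynomial ι O) (α : ι → O) :
    ∃ (n₀ M : ℕ) (z : ι → O), 1 ≤ M ∧
      (∀ i k, (p : O) ∣ (pmap Φ)^[n₀ + i] α k - (pmap Φ)^[i] z k) ∧
      (∀ n i, M * n ≤ i → ∀ k, (p : O) ^ n ∣ (pmap Φ)^[n₀ + i] α k - (pmap Φ)^[i] z k) ∧
      (∀ (O' : Type u) [CommRing O'] [Algebra ℤ_[p] O'] [Module.Finite ℤ_[p] O']
        [Module.Free ℤ_[p] O'] (φ : O →+* O') (j : ℕ) (F : MvPolynomial ι O'),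
        (∃ k, eval (φ ∘ (pmap Φ)^[j + M * k] z) F ≠ 0) →
        SSp {k | eval (φ ∘ (pmap Φ)^[n₀ + j + M * k] α) F = 0} ∧
        SSp {k | eval (φ ∘ (pmap Φ)^[j + M * k] z) F = 0}) := by
  classical
  have := finite_quotient (p := p) (O := O)
  obtain ⟨n₀, ℓ, hℓ, hper⟩ : ∃ n₀ ℓ, 1 ≤ ℓ ∧ ∀ i, (p : O) ∣
      (pmap Φ)^[ℓ] ((pmap Φ)^[n₀] α) i - (pmap Φ)^[n₀] α i := by
    obtain ⟨i, j, hij, h⟩ := Finite.exists_ne_map_eq_of_infinite
      (fun (n : ℕ) => (fun i => Ideal.Quotient.mk (Ideal.span {(p : O)}) ((pmap Φ)^[n] α i)))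
    wlog hlt : i < j generalizing i j
    · exact this j i hij.symm h.symm (by omega)
    obtain ⟨d, rfl⟩ := Nat.exists_eq_add_of_lt hlt
    refine ⟨i, d + 1, by omega, fun k => ?_⟩
    have h1 := congrFun h k
    rw [eq_comm, Ideal.Quotient.eq, Ideal.mem_span_singleton] at h1
    rw [← Function.iterate_add_apply]
    have : d + 1 + i = i + d + 1 := by ring
    rw [this]
    exact h1
  obtain ⟨M, w, g, hM, hg1, hg2, hg3, hg4, hg5⟩ := shadow Φ _ ℓ hℓ hper
  have hwk : ∀ k, (pmap Φ)^[M * k] (w 0) = w k := by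
    intro k
    induction k with
    | zero => rfl
    | succ k ih =>
      have : M * (k + 1) = M + M * k := by ring
      rw [this, Function.iterate_add_apply, ih, hg4]
  have hasym : ∀ n i, M * n ≤ i → ∀ k,
      (p : O) ^ n ∣ (pmap Φ)^[n₀ + i] α k - (pmap Φ)^[i] (w 0) k := by
    intro n i hi k
    obtain ⟨j, rfl⟩ := Nat.exists_eq_add_of_le hi
    have h1 : ∀ k, (p : O) ^ n ∣ (pmap Φ)^[M * n] ((pmap Φ)^[n₀] α) k - w n k := by
      intro k
      have h3 := hg2 (X k) n
      rwa [eval_X, ← hg3, eval_X] at h3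
    have h2 := iterate_congr' Φ h1 j k
    rw [← hwk n, ← Function.iterate_add_apply, ← Function.iterate_add_apply,
      ← Function.iterate_add_apply] at h2
    have e1 : n₀ + (M * n + j) = j + (M * n) + n₀ := by ring
    have e2 : M * n + j = j + M * n := by ring
    rw [e1, e2]
    exact h2
  refine ⟨n₀, M, w 0, hM, ?_, hasym, ?_⟩
  · intro i k
    have h1 : ∀ i, (p : O) ∣ (pmap Φ)^[n₀] α i - w 0 i := by
      intro i
      rw [dvd_sub_comm]
      simpa using hg5 0 i
    have h2 := iterate_congr' Φ h1 i k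
    rw [← Function.iterate_add_apply, add_comm] at h2
    exact h2
  · intro O' _ _ _ _ φ j F hne
    have hAn : ∀ F : MvPolynomial ι O,
        An p (fun n => eval ((pmap Φ)^[j + M * n] (w 0)) F) := by
      intro F
      have h1 : (fun n => eval ((pmap Φ)^[j + M * n] (w 0)) F) = g (((bind₁ Φ) ^ j) F) := by
        funext n
        rw [← hg3, eval_bind₁_pow, ← hwk n, ← Function.iterate_add_apply]
      rw [h1]
      exact hg1 _
    obtain ⟨h1, h2⟩ := exists_interp φ (fun n => (pmap Φ)^[n₀ + j + M * n] α)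
      (fun n => (pmap Φ)^[j + M * n] (w 0)) hAn (by
        intro i n
        have h3 := hasym n (j + M * n) (Nat.le_add_left _ _) i
        rwa [← add_assoc] at h3) F
    refine ⟨SSp_of_An' hp3 h1 hne ?_, SSp_of_An' hp3 h1 hne ?_⟩
    · intro n hn
      have hn' : eval (φ ∘ (pmap Φ)^[n₀ + j + M * n] α) F = 0 := hn
      have h3 := h2 n
      rw [hn', zero_sub, dvd_neg] at h3
      exact h3
    · intro n hn
      have hn' : eval (φ ∘ (pmap Φ)^[j + M * n] (w 0)) F = 0 := hn
      rw [hn']
      exact dvd_zero _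

end Pool.Agent.Helper86.DML
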