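import Mathlib
import Pool.Agent.Helper86.DML.Dichotomy2

/-!
# Finite extensions of `ℚ_p`: norms, integrality, super-sparseness of small values
-/

namespace Pool.Agent.Helper86.DML

open Polynomial

variable {p : ℕ} [hp : Fact p.Prime]

/-- a slow version of `SSp_of_An` -/
lemma SSp_of_An_slow (hp3 : 3 ≤ p) {g : ℕ → ℤ_[p]} (hg : An p g) (hne : ∃ n, g n ≠ 0) {S : Set ℕ}
    (Q C : ℕ) (hQ : 1 ≤ Q) (hS : ∀ n ∈ S, (p : ℤ_[p]) ^ (n / Q - C) ∣ g n) : SSp S := by
  obtain ⟨s, β, h⟩ := zero_estimate hp3 hg hne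
  refine ⟨s, Q * (2 * (s + 1)), Q * (2 * β + 2 * C + 2), Nat.mul_pos hQ (by omega),
    fun n hn T hT => ?_⟩
  by_contra hcon
  push Not at hcon
  set δ := n / (Q * (2 * (s + 1))) with hδ
  have h1 := h (n / Q - C) δ T hcon
    (fun k hk => (pow_dvd_pow _ (Nat.sub_le_sub_right
      (Nat.div_le_div_right (hT k hk).2.1) _)).trans (hS k (hT k hk).1)) (by
      intro k hk m hm hkm hd
      have hk' := (hT k hk).2
      have hm' := (hT m hm).2
      have h2 : ((p : ℤ) ^ (δ + 1)) ∣ ((k : ℤ) - m) := by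
        have := (PadicInt.pow_p_dvd_int_iff (p := p) (δ + 1) ((k : ℤ) - m)).mp
          (by push_cast; exact hd)
        exact_mod_cast this
      have h3 : (2 : ℤ) ^ δ ≤ (p : ℤ) ^ (δ + 1) := by
        have h4 : 2 ^ δ ≤ p ^ (δ + 1) :=
          (Nat.pow_le_pow_left (by omega) _).trans
            (Nat.pow_le_pow_right (by omega) (Nat.le_succ _))
        exact_mod_cast h4
      have h5 : |(k : ℤ) - m| < (p : ℤ) ^ (δ + 1) := by
        rw [abs_lt]
        have e1 : (k : ℤ) < n + 2 ^ δ := by exact_mod_cast hk'.2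
        have e2 : (m : ℤ) < n + 2 ^ δ := by exact_mod_cast hm'.2
        have e3 : (n : ℤ) ≤ k := by exact_mod_cast hk'.1
        have e4 : (n : ℤ) ≤ m := by exact_mod_cast hm'.1
        constructor <;> linarith
      have h6 := Int.eq_zero_of_abs_lt_dvd h2 h5
      apply hkm
      omega)
  have h2 : 2 * (s * δ) ≤ n / Q := by
    have h3 := Nat.div_mul_le_self (n / Q) (2 * (s + 1))
    rw [Nat.div_div_eq_div_mul, ← hδ] at h3
    have h4 : δ * (2 * (s + 1)) = 2 * (s * δ) + 2 * δ := by ring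
    omega
  have h5 : 2 * β + 2 * C + 2 ≤ n / Q := by
    rw [Nat.le_div_iff_mul_le hQ, mul_comm]
    exact hn
  omega

section Free

variable {O : Type*} [CommRing O] [Algebra ℤ_[p] O] [Module.Free ℤ_[p] O]

lemma SSp_of_An_slow' (hp3 : 3 ≤ p) {g : ℕ → O} (hg : An p g) (hne : ∃ n, g n ≠ 0) {S : Set ℕ}
    (Q C : ℕ) (hQ : 1 ≤ Q) (hS : ∀ n ∈ S, (p : O) ^ (n / Q - C) ∣ g n) : SSp S := by
  let b := Module.Free.chooseBasis ℤ_[p] O
  obtain ⟨n₀, hn₀⟩ := hne
  obtain ⟨i, hi⟩ : ∃ i, b.repr (g n₀) i ≠ 0 := by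
    by_contra hcon
    push Not at hcon
    apply hn₀
    have : b.repr (g n₀) = 0 := by
      ext i
      exact hcon i
    simpa using this
  have hfd : ∀ k n, (fwdDiff 1)^[k] (fun n => b.repr (g n) i) n =
      b.repr ((fwdDiff 1)^[k] g n) i := by
    intro k
    induction k with
    | zero => intro n; rfl
    | succ k ih =>
      intro n
      rw [Function.iterate_succ_apply', Function.iterate_succ_apply']
      simp only [fwdDiff]
      rw [ih, ih, map_sub, Finsupp.sub_apply]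
  refine SSp_of_An_slow hp3 (g := fun n => b.repr (g n) i) ?_ ⟨n₀, hi⟩ Q C hQ ?_
  · intro k n
    rw [hfd]
    exact (basis_dvd_iff b k _).mp (hg k n) i
  · intro n hn
    exact (basis_dvd_iff b _ _).mp (hS n hn) i

end Free

lemma isIntegral_of_norm_le_one (x : PadicAlgCl p) (h : ‖x‖ ≤ 1) : IsIntegral ℤ_[p] x := by
  have hint : IsIntegral ℚ_[p] x := (Algebra.IsAlgebraic.isAlgebraic x).isIntegral
  have h1 : spectralValue (minpoly ℚ_[p] x) ≤ 1 := h
  rw [spectralValue_le_one_iff (minpoly.monic hint)] at h1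
  have h2 : minpoly ℚ_[p] x ∈ Polynomial.lifts (algebraMap ℤ_[p] ℚ_[p]) := by
    rw [Polynomial.lifts_iff_coeff_lifts]
    intro n
    exact ⟨⟨_, h1 n⟩, rfl⟩
  obtain ⟨q, hq, _, hqm⟩ := Polynomial.lifts_and_natDegree_eq_and_monic h2 (minpoly.monic hint)
  refine ⟨q, hqm, ?_⟩
  rw [IsScalarTower.algebraMap_eq ℤ_[p] ℚ_[p] (PadicAlgCl p), ← Polynomial.eval₂_map, hq]
  exact minpoly.aeval ℚ_[p] x

section Field

variable (L : IntermediateField ℚ_[p] (PadicAlgCl p)) [FiniteDimensional ℚ_[p] L]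

omit [FiniteDimensional ℚ_[p] L] in
lemma isIntegral_of_norm_le_one' (x : L) (h : ‖x‖ ≤ 1) : IsIntegral ℤ_[p] x := by
  have h1 : IsIntegral ℤ_[p] (x : PadicAlgCl p) := isIntegral_of_norm_le_one _ h
  have h2 : (x : PadicAlgCl p) = algebraMap L (PadicAlgCl p) x := rfl
  rw [h2] at h1
  have : IsScalarTower ℤ_[p] L (PadicAlgCl p) := IsScalarTower.of_algebraMap_eq (fun x => rfl)
  exact (isIntegral_algebraMap_iff (algebraMap L (PadicAlgCl p)).injective).mp h1

omit [FiniteDimensional ℚ_[p] L] in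
lemma norm_p_L : ‖(p : L)‖ = (p : ℝ)⁻¹ := by
  have h1 : ‖(p : L)‖ = ‖((p : ℚ_[p]) : PadicAlgCl p)‖ := by
    have : ((p : ℚ_[p]) : PadicAlgCl p) = ((p : L) : PadicAlgCl p) := by
      push_cast
      simp
    rw [this]
    rfl
  rw [h1, PadicAlgCl.norm_extends, Padic.norm_p]

omit [FiniteDimensional ℚ_[p] L] in
lemma norm_p_pos : 0 < ‖(p : L)‖ := by
  rw [norm_p_L]
  have := hp.out.pos
  positivity

omit [FiniteDimensional ℚ_[p] L] in
lemma norm_p_lt_one : ‖(p : L)‖ < 1 := by
  rw [norm_p_L]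
  exact inv_lt_one_of_one_lt₀ (by exact_mod_cast hp.out.one_lt)

omit [FiniteDimensional ℚ_[p] L] in
lemma norm_natCast_le (n : ℕ) : ‖(n : L)‖ ≤ 1 := by
  have h1 : ‖(n : L)‖ = ‖((n : ℚ_[p]) : PadicAlgCl p)‖ := by
    have : ((n : ℚ_[p]) : PadicAlgCl p) = ((n : L) : PadicAlgCl p) := by
      push_cast
      simp
    rw [this]
    rfl
  rw [h1, PadicAlgCl.norm_extends]
  exact_mod_cast Padic.norm_int_le_one (p := p) (n : ℤ)

/-- a uniform exponent for the units -/
lemma exists_exponent : ∃ N₁ : ℕ, 1 ≤ N₁ ∧ p ∣ N₁ ∧ ∀ u : L, ‖u‖ = 1 → ‖u ^ N₁ - 1‖ ≤ ‖(p : L)‖ := by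
  classical
  have hproper : ProperSpace L := FiniteDimensional.proper ℚ_[p] L
  obtain ⟨t, ht, hcov⟩ := Metric.totallyBounded_iff.mp
    (isCompact_closedBall (0 : L) 1).totallyBounded ‖(p : L)‖ (norm_p_pos L)
  refine ⟨p * (ht.toFinset.card).factorial, Nat.mul_pos hp.out.pos (Nat.factorial_pos _),
    dvd_mul_right _ _, fun u hu => ?_⟩
  have h1 : ∀ i : ℕ, ∃ y ∈ t, u ^ i ∈ Metric.ball y ‖(p : L)‖ := by
    intro i
    have : u ^ i ∈ Metric.closedBall (0 : L) 1 := by
      rw [mem_closedBall_zero_iff, norm_pow, hu, one_pow]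
    have := hcov this
    simpa using this
  choose f hf1 hf2 using h1
  obtain ⟨i, hi, j, hj, hij, hfij⟩ := Finset.exists_ne_map_eq_of_card_lt_of_maps_to
    (s := Finset.range (ht.toFinset.card + 1)) (t := ht.toFinset) (by simp) (f := f)
    (fun i _ => by simpa using hf1 i)
  wlog hlt : i < j generalizing i j
  · exact this j hj i hi hij.symm hfij.symm (by omega)
  obtain ⟨d, rfl⟩ := Nat.exists_eq_add_of_lt hlt
  have h2 : ‖u ^ (d + 1) - 1‖ ≤ ‖(p : L)‖ := by
    have h3 : dist (u ^ (i + d + 1)) (u ^ i) ≤ ‖(p : L)‖ := by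
      have h4 := hf2 i
      have h5 := hf2 (i + d + 1)
      rw [Metric.mem_ball] at h4 h5
      rw [hfij] at h4
      have h6 := dist_triangle_max (u ^ (i + d + 1)) (f (i + d + 1)) (u ^ i)
      rw [dist_comm (f (i + d + 1))] at h6
      exact h6.trans (max_le h5.le h4.le)
    rw [dist_eq_norm] at h3
    have h4 : u ^ (i + d + 1) - u ^ i = u ^ i * (u ^ (d + 1) - 1) := by ring
    rw [h4, norm_mul, norm_pow, hu, one_pow, one_mul] at h3
    exact h3
  have hd : d + 1 ∣ p * (ht.toFinset.card).factorial := by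
    apply Dvd.dvd.mul_left
    apply Nat.dvd_factorial (by omega)
    rw [Finset.mem_range] at hj
    omega
  obtain ⟨q, hq⟩ := hd
  rw [hq, pow_mul, ← geom_sum_mul, norm_mul]
  have h5 : ‖∑ i ∈ Finset.range q, (u ^ (d + 1)) ^ i‖ ≤ 1 := by
    apply IsUltrametricDist.norm_sum_le_of_forall_le_of_nonneg zero_le_one
    intro i _
    rw [norm_pow, norm_pow, hu, one_pow, one_pow]
  calc _ ≤ 1 * ‖u ^ (d + 1) - 1‖ := by gcongr
    _ ≤ _ := by rw [one_mul]; exact h2

/-- analytic sequences, in terms of norms -/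
def NAn (g : ℕ → L) : Prop := ∀ k n, ‖(fwdDiff 1)^[k] g n‖ ≤ ‖(p : L)‖ ^ k

omit [FiniteDimensional ℚ_[p] L] hp in
lemma fwdDiff_iter_map {R S : Type*} [CommRing R] [CommRing S] (φ : R →+* S) (g : ℕ → R)
    (k n : ℕ) : (fwdDiff 1)^[k] (fun n => φ (g n)) n = φ ((fwdDiff 1)^[k] g n) := by
  induction k generalizing n with
  | zero => rfl
  | succ k ih =>
    rw [Function.iterate_succ_apply', Function.iterate_succ_apply']
    simp only [fwdDiff]
    rw [ih, ih, map_sub]

lemma exists_slow {C θ q : ℝ} (hC : 0 ≤ C) (hθ0 : 0 < θ) (hθ : θ < 1) (hq0 : 0 < q) (hq : q < 1) :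
    ∃ Q C' : ℕ, 1 ≤ Q ∧ ∀ (n : ℕ) (x : ℝ), x ≤ 1 → x ≤ C * θ ^ n → x ≤ q ^ (n / Q - C') := by
  obtain ⟨Q, hQ⟩ := exists_pow_lt_of_lt_one hq0 hθ
  obtain ⟨C', hC'⟩ : ∃ C' : ℕ, C * q ^ C' ≤ 1 := by
    obtain ⟨m, hm⟩ := exists_pow_lt_of_lt_one (show 0 < 1 / (C + 1) by positivity) hq
    refine ⟨m, ?_⟩
    have h1 : C * q ^ m ≤ C * (1 / (C + 1)) := by gcongr
    have h2 : C * (1 / (C + 1)) ≤ 1 := by
      rw [mul_one_div, div_le_one (by positivity)]
      linarith
    linarith
  refine ⟨Q + 1, C', by omega, fun n x hx1 hx => ?_⟩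
  have h1 : θ ^ n ≤ q ^ (n / (Q + 1)) := by
    calc θ ^ n ≤ θ ^ ((Q + 1) * (n / (Q + 1))) :=
          pow_le_pow_of_le_one hθ0.le hθ.le (Nat.mul_div_le n (Q + 1))
      _ = (θ ^ (Q + 1)) ^ (n / (Q + 1)) := pow_mul _ _ _
      _ ≤ q ^ (n / (Q + 1)) := by
          apply pow_le_pow_left₀ (by positivity)
          rw [pow_succ]
          calc θ ^ Q * θ ≤ θ ^ Q * 1 := by gcongr
            _ ≤ q := by rw [mul_one]; exact hQ.le
  by_cases hn : n / (Q + 1) ≤ C'
  · rw [Nat.sub_eq_zero_of_le hn, pow_zero]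
    exact hx1
  · push Not at hn
    calc x ≤ C * θ ^ n := hx
      _ ≤ C * q ^ (n / (Q + 1)) := by gcongr
      _ = C * q ^ C' * q ^ (n / (Q + 1) - C') := by
          rw [mul_assoc, ← pow_add]
          congr 2
          omega
      _ ≤ 1 * q ^ (n / (Q + 1) - C') := by gcongr
      _ = _ := one_mul _

/-- small values of analytic sequences are super-sparse -/
theorem SSp_of_norm (hp3 : 3 ≤ p) {g : ℕ → L} (hg : NAn L g) (hne : ∃ n, g n ≠ 0) {S : Set ℕ}
    {C θ : ℝ} (hθ0 : 0 < θ) (hθ : θ < 1) (hS : ∀ n ∈ S, ‖g n‖ ≤ C * θ ^ n) : SSp S := by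
  have hnoeth : IsNoetherian ℤ_[p] (integralClosure ℤ_[p] L) :=
    IsIntegralClosure.isNoetherian ℤ_[p] ℚ_[p] L _
  have hfin : Module.Finite ℤ_[p] (integralClosure ℤ_[p] L) := inferInstance
  have hinj3 : Function.Injective (algebraMap ℤ_[p] L) := by
    rw [IsScalarTower.algebraMap_eq ℤ_[p] ℚ_[p] L]
    exact (algebraMap ℚ_[p] L).injective.comp (IsFractionRing.injective ℤ_[p] ℚ_[p])
  have htf : Module.IsTorsionFree ℤ_[p] (integralClosure ℤ_[p] L) := by
    have : FaithfulSMul ℤ_[p] (integralClosure ℤ_[p] L) := by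
      rw [faithfulSMul_iff_algebraMap_injective]
      intro a b hab
      exact hinj3 (congrArg Subtype.val hab)
    infer_instance
  have hfree : Module.Free ℤ_[p] (integralClosure ℤ_[p] L) := inferInstance
  have h0 : ∀ n, ‖g n‖ ≤ 1 := fun n => by simpa using hg 0 n
  let g' : ℕ → integralClosure ℤ_[p] L := fun n => ⟨g n, isIntegral_of_norm_le_one' L _ (h0 n)⟩
  have hp0 : (p : L) ≠ 0 := norm_pos_iff.mp (norm_p_pos L)
  have hdvd : ∀ (x : integralClosure ℤ_[p] L) (k : ℕ), ‖(x : L)‖ ≤ ‖(p : L)‖ ^ k →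
      (p : integralClosure ℤ_[p] L) ^ k ∣ x := by
    intro x k hx
    have h1 : ‖(x : L) / (p : L) ^ k‖ ≤ 1 := by
      rw [norm_div, norm_pow, div_le_one (pow_pos (norm_p_pos L) k)]
      exact hx
    refine ⟨⟨_, isIntegral_of_norm_le_one' L _ h1⟩, ?_⟩
    apply Subtype.ext
    have h2 : (p : L) ^ k ≠ 0 := pow_ne_zero k hp0
    change (x : L) = ((p : integralClosure ℤ_[p] L) ^ k : integralClosure ℤ_[p] L) *
      ((x : L) / (p : L) ^ k)
    push_cast
    field_simp
  have hAn : An p g' := by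
    intro k n
    apply hdvd
    have h1 := fwdDiff_iter_map (integralClosure ℤ_[p] L).val.toRingHom g' k n
    have h2 : (fwdDiff 1)^[k] g n = ((fwdDiff 1)^[k] g' n : integralClosure ℤ_[p] L) := h1
    rw [← h2]
    exact hg k n
  obtain ⟨n₁, hn₁⟩ := hne
  obtain ⟨Q, C', hQ, hslow⟩ := exists_slow (C := max C 0) (θ := θ) (q := ‖(p : L)‖) (le_max_right _ _)
    hθ0 hθ (norm_p_pos L) (norm_p_lt_one L)
  refine SSp_of_An_slow' hp3 hAn ⟨n₁, fun h => hn₁ (congrArg Subtype.val h)⟩ Q C' hQ ?_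
  intro n hn
  apply hdvd
  apply hslow n _ (h0 n)
  refine (hS n hn).trans ?_
  gcongr
  exact le_max_left _ _

variable {L}

omit [FiniteDimensional ℚ_[p] L] in
lemma NAn.add {f g : ℕ → L} (hf : NAn L f) (hg : NAn L g) : NAn L (fun n => f n + g n) := by
  intro k n
  have h := congrFun (fwdDiff_iter_add (1 : ℕ) f g k) n
  have h3 : (fwdDiff 1)^[k] (fun n => f n + g n) n = (fwdDiff 1)^[k] f n + (fwdDiff 1)^[k] g n := h
  rw [h3]
  exact (IsUltrametricDist.norm_add_le_max _ _).trans (max_le (hf k n) (hg k n))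

omit [FiniteDimensional ℚ_[p] L] in
lemma NAn.const_mul {f : ℕ → L} (hf : NAn L f) {c : L} (hc : ‖c‖ ≤ 1) :
    NAn L (fun n => c * f n) := by
  intro k n
  have h := congrFun (fwdDiff_iter_const_smul (1 : ℕ) c f k) n
  have h3 : (fwdDiff 1)^[k] (fun n => c * f n) n = c * (fwdDiff 1)^[k] f n := h
  rw [h3, norm_mul]
  exact (mul_le_of_le_one_left (norm_nonneg _) hc).trans (hf k n)

omit [FiniteDimensional ℚ_[p] L] in
lemma NAn.zero : NAn L (fun _ => (0 : L)) := by
  intro k n
  have : ∀ k : ℕ, (fwdDiff 1)^[k] (fun _ : ℕ => (0 : L)) = fun _ => 0 := by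
    intro k
    induction k with
    | zero => rfl
    | succ k ih =>
      rw [Function.iterate_succ_apply', ih]
      funext n
      simp [fwdDiff]
  rw [this, norm_zero]
  exact pow_nonneg (norm_nonneg _) _

omit [FiniteDimensional ℚ_[p] L] in
lemma NAn.sum {ι : Type*} {s : Finset ι} {f : ι → ℕ → L} (h : ∀ i ∈ s, NAn L (f i)) :
    NAn L (fun n => ∑ i ∈ s, f i n) := by
  classical
  induction s using Finset.induction_on with
  | empty => simpa using NAn.zero
  | insert a s ha ih =>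
    simp only [Finset.sum_insert ha]
    exact (h a (Finset.mem_insert_self _ _)).add (ih fun i hi => h i (Finset.mem_insert_of_mem hi))

omit [FiniteDimensional ℚ_[p] L] in
lemma norm_fwdDiff_mul {r : ℝ} (hr : 0 ≤ r) (k : ℕ) : ∀ (f g : ℕ → L) (a b : ℝ), 0 ≤ a → 0 ≤ b →
    (∀ i n, ‖(fwdDiff 1)^[i] f n‖ ≤ a * r ^ i) → (∀ i n, ‖(fwdDiff 1)^[i] g n‖ ≤ b * r ^ i) →
    ∀ n, ‖(fwdDiff 1)^[k] (fun n => f n * g n) n‖ ≤ a * b * r ^ k := by
  induction k with
  | zero =>
    intro f g a b ha hb hf hg n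
    have h1 := hf 0 n
    have h2 := hg 0 n
    simp only [pow_zero, mul_one, Function.iterate_zero, id_eq] at h1 h2 ⊢
    rw [norm_mul]
    exact mul_le_mul h1 h2 (norm_nonneg _) ha
  | succ k ih =>
    intro f g a b ha hb hf hg n
    have e : fwdDiff 1 (fun n => f n * g n) =
        (fun n => fwdDiff 1 f n * g (n + 1)) + fun n => f n * fwdDiff 1 g n := by
      funext n
      simp only [fwdDiff, Pi.add_apply]
      ring
    rw [Function.iterate_succ_apply, e, fwdDiff_iter_add, Pi.add_apply]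
    have h1 := ih (fwdDiff 1 f) (fun n => g (n + 1)) (a * r) b (by positivity) hb
      (fun i n => by
        have := hf (i + 1) n
        rw [Function.iterate_succ_apply] at this
        rw [mul_assoc, ← pow_succ']
        exact this)
      (fun i n => by
        have h3 : (fwdDiff 1)^[i] (fun n => g (n + 1)) n = (fwdDiff 1)^[i] g (n + 1) := by
          clear hg
          induction i generalizing n with
          | zero => rfl
          | succ i ihi =>
            rw [Function.iterate_succ_apply', Function.iterate_succ_apply']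
            simp only [fwdDiff]
            rw [ihi, ihi]
        rw [h3]
        exact hg i (n + 1)) n
    have h2 := ih f (fwdDiff 1 g) a (b * r) ha (by positivity) hf
      (fun i n => by
        have := hg (i + 1) n
        rw [Function.iterate_succ_apply] at this
        rw [mul_assoc, ← pow_succ']
        exact this) n
    refine (IsUltrametricDist.norm_add_le_max _ _).trans (max_le ?_ ?_)
    · refine h1.trans (le_of_eq ?_)
      ring
    · refine h2.trans (le_of_eq ?_)
      ring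

omit [FiniteDimensional ℚ_[p] L] in
lemma NAn.mul {f g : ℕ → L} (hf : NAn L f) (hg : NAn L g) : NAn L (fun n => f n * g n) := by
  intro k n
  have := norm_fwdDiff_mul (norm_nonneg (p : L)) k f g 1 1 zero_le_one zero_le_one
    (fun i n => by rw [one_mul]; exact hf i n) (fun i n => by rw [one_mul]; exact hg i n) n
  rwa [one_mul, one_mul] at this

omit [FiniteDimensional ℚ_[p] L] in
lemma NAn.one : NAn L (fun _ => (1 : L)) := by
  intro k n
  have : ∀ k : ℕ, (fwdDiff 1)^[k + 1] (fun _ : ℕ => (1 : L)) = fun _ => 0 := by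
    intro k
    induction k with
    | zero =>
      funext n
      simp [fwdDiff]
    | succ k ih =>
      rw [Function.iterate_succ_apply', ih]
      funext n
      simp [fwdDiff]
  rcases k with _ | k
  · simp
  · rw [this, norm_zero]
    exact pow_nonneg (norm_nonneg _) _

omit [FiniteDimensional ℚ_[p] L] in
lemma NAn.pow {f : ℕ → L} (hf : NAn L f) (d : ℕ) : NAn L (fun n => f n ^ d) := by
  induction d with
  | zero => simpa using NAn.one
  | succ d ih =>
    simp only [pow_succ]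
    exact ih.mul hf

omit [FiniteDimensional ℚ_[p] L] in
lemma NAn.linear {N₁ : ℕ} (hN : p ∣ N₁) (c : ℕ) : NAn L (fun n => ((c + N₁ * n : ℕ) : L)) := by
  obtain ⟨q, rfl⟩ := hN
  intro k n
  have h2 : ∀ k : ℕ, (fwdDiff 1)^[k + 2] (fun n : ℕ => ((c + p * q * n : ℕ) : L)) = fun _ => 0 := by
    intro k
    induction k with
    | zero =>
      funext n
      simp only [fwdDiff, Function.iterate_succ, Function.iterate_zero, Function.comp_apply, id_eq]
      push_cast
      ring
    | succ k ih =>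
      rw [Function.iterate_succ_apply', ih]
      funext n
      simp [fwdDiff]
  rcases k with _ | _ | k
  · simp only [pow_zero, Function.iterate_zero, id_eq]
    exact norm_natCast_le L _
  · simp only [zero_add, pow_one, Function.iterate_one, fwdDiff]
    have : (((c + p * q * (n + 1) : ℕ) : L) - ((c + p * q * n : ℕ) : L)) = (p : L) * (q : ℕ) := by
      push_cast
      ring
    rw [this, norm_mul]
    exact mul_le_of_le_one_right (norm_nonneg _) (norm_natCast_le L _)
  · rw [h2, norm_zero]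
    exact pow_nonneg (norm_nonneg _) _

omit [FiniteDimensional ℚ_[p] L] in
lemma NAn.exp {v : L} (hv : ‖v‖ = 1) (hv1 : ‖v - 1‖ ≤ ‖(p : L)‖) : NAn L (fun n => v ^ n) := by
  intro k n
  have h : ∀ k n : ℕ, (fwdDiff 1)^[k] (fun n => v ^ n) n = (v - 1) ^ k * v ^ n := by
    intro k
    induction k with
    | zero => intro n; simp
    | succ k ih =>
      intro n
      rw [Function.iterate_succ_apply']
      simp only [fwdDiff]
      rw [ih, ih]
      ring
  rw [h, norm_mul, norm_pow, norm_pow, hv, one_pow, mul_one]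
  exact pow_le_pow_left₀ (norm_nonneg _) hv1 k

end Field

end Pool.Agent.Helper86.DML
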