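import Mathlib
import Pool.Agent.Helper86.DML.Complete

/-!
# Embedding finitely many complex numbers into a finite algebra over the `p`-adic integers
-/

namespace Pool.Agent.Helper86.DML

open MvPolynomial Cardinal

/-- large algebraically independent families in `p ℤ_p` -/
lemma exists_big_family (p : ℕ) [hp : Fact p.Prime] :
    ∃ s : Set ℚ_[p], (∀ x ∈ s, ‖x‖ < 1) ∧ AlgebraicIndependent ℤ ((↑) : s → ℚ_[p]) ∧
      𝔠 ≤ #s := by
  set B : Set ℚ_[p] := {x | ‖x‖ < 1} with hB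
  have halg : Algebra.IsAlgebraic (Algebra.adjoin ℤ B) ℚ_[p] := by
    constructor
    intro z
    obtain ⟨n, hn⟩ : ∃ n : ℕ, ‖(p : ℚ_[p]) ^ n * z‖ < 1 := by
      have h1 : ‖(p : ℚ_[p])‖ < 1 := Padic.norm_p_lt_one
      have h2 := tendsto_pow_atTop_nhds_zero_of_lt_one (norm_nonneg (p : ℚ_[p])) h1
      have h3 := h2.mul_const ‖z‖
      rw [zero_mul] at h3
      obtain ⟨n, hn⟩ := (h3.eventually (gt_mem_nhds (show (0 : ℝ) < 1 by norm_num))).exists
      exact ⟨n, by rw [norm_mul, norm_pow]; exact hn⟩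
    have hpn : ((p : ℤ) ^ n : ℤ) ≠ 0 := pow_ne_zero _ (by exact_mod_cast hp.out.ne_zero)
    refine ⟨Polynomial.C (((p : ℤ) ^ n : ℤ) : Algebra.adjoin ℤ B) * Polynomial.X -
      Polynomial.C ⟨(p : ℚ_[p]) ^ n * z, Algebra.subset_adjoin hn⟩, ?_, ?_⟩
    · intro h0
      have := congrArg (fun q => Polynomial.coeff q 1) h0
      simp only [Polynomial.coeff_sub, Polynomial.coeff_C_mul, Polynomial.coeff_X_one, mul_one,
        Polynomial.coeff_zero, Polynomial.coeff_C, one_ne_zero, if_false, sub_zero] at this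
      have h2 := congrArg (Subtype.val) this
      push_cast at h2
      exact (pow_ne_zero n (by exact_mod_cast hp.out.ne_zero : (p : ℚ_[p]) ≠ 0)) h2
    · rw [map_sub, map_mul, Polynomial.aeval_C, Polynomial.aeval_C, Polynomial.aeval_X]
      change (((((p : ℤ) ^ n : ℤ) : Algebra.adjoin ℤ B) : ℚ_[p])) * z - (p : ℚ_[p]) ^ n * z = 0
      push_cast
      ring
  obtain ⟨s, hsB, hs⟩ := exists_isTranscendenceBasis_subset (R := ℤ) (A := ℚ_[p]) B
  refine ⟨s, fun x hx => hsB hx, hs.1, ?_⟩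
  have h1 : 𝔠 ≤ #ℚ_[p] := continuum_le_cardinal_of_nontriviallyNormedField ℚ_[p]
  have halg2 := hs.isAlgebraic
  have h2 : #ℚ_[p] ≤ max #(Algebra.adjoin ℤ (Set.range ((↑) : s → ℚ_[p]))) ℵ₀ :=
    Algebra.IsAlgebraic.cardinalMk_le_max _ _
  have h3 : #(Algebra.adjoin ℤ (Set.range ((↑) : s → ℚ_[p]))) = #(MvPolynomial s ℤ) :=
    (Cardinal.mk_congr hs.1.aevalEquiv.toEquiv).symm
  have h4 : #(MvPolynomial s ℤ) ≤ max (max #ℤ #s) ℵ₀ := MvPolynomial.cardinalMk_le_max
  rw [h3] at h2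
  have h5 : 𝔠 ≤ max (max (max #ℤ #s) ℵ₀) ℵ₀ := h1.trans (h2.trans (max_le_max h4 le_rfl))
  by_contra hcon
  push Not at hcon
  have h6 : max (max (max #ℤ #s) ℵ₀) ℵ₀ < 𝔠 := by
    rw [max_lt_iff, max_lt_iff, max_lt_iff]
    refine ⟨⟨⟨?_, hcon⟩, aleph0_lt_continuum⟩, aleph0_lt_continuum⟩
    rw [Cardinal.mk_int]
    exact aleph0_lt_continuum
  exact absurd h5 (not_le.mpr h6)

/-- translating an algebraically independent family by integers -/
lemma AlgebraicIndependent.add_int {κ A : Type*} [CommRing A] {x : κ → A}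
    (hx : AlgebraicIndependent ℤ x) (a : κ → ℤ) :
    AlgebraicIndependent ℤ (fun i => (a i : A) + x i) := by
  rw [algebraicIndependent_iff_injective_aeval] at hx ⊢
  have h1 : (aeval (fun i => (a i : A) + x i) : MvPolynomial κ ℤ →ₐ[ℤ] A) =
      (aeval x).comp (bind₁ (fun i => C (a i) + X i)) := by
    apply MvPolynomial.algHom_ext
    intro i
    simp
  rw [h1]
  have h2 : Function.LeftInverse (bind₁ (fun i => C (-a i) + X i) :
      MvPolynomial κ ℤ →ₐ[ℤ] MvPolynomial κ ℤ) (bind₁ (fun i => C (a i) + X i)) := by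
    intro f
    rw [bind₁_bind₁]
    have : (fun i => (bind₁ fun i => C (-a i) + X i) (C (a i) + X i) : κ → MvPolynomial κ ℤ) =
        X := by
      funext i
      simp only [map_add, bind₁_C_right, bind₁_X_right, C_neg]
      ring
    rw [this]
    simp
  rw [AlgHom.coe_comp]
  exact hx.comp h2.injective

lemma eval_modEq (p : ℕ) {κ : Type*} [hp : Fact p.Prime] (a : MvPolynomial κ ℤ) (x : κ → ℤ)
    (τ : κ → ℤ_[p]) (hτ : ∀ i, (p : ℤ_[p]) ∣ τ i) :
    (p : ℤ_[p]) ∣ aeval (fun i => (x i : ℤ_[p]) + τ i) a - ((eval x a : ℤ) : ℤ_[p]) := by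
  induction a using MvPolynomial.induction_on with
  | C a => simp
  | add F G hF hG =>
    rw [map_add, map_add, Int.cast_add]
    have := dvd_add hF hG
    convert this using 1
    ring
  | mul_X F i hF =>
    rw [map_mul, map_mul, eval_X, aeval_X, Int.cast_mul]
    have h1 := dvd_add (Dvd.dvd.mul_right hF ((x i : ℤ_[p]) + τ i))
      (Dvd.dvd.mul_left (hτ i) ((eval x F : ℤ) : ℤ_[p]))
    convert h1 using 1
    ring

/-- finitely many complex numbers become integral over `ℤ_p` under a suitable embedding of `ℂ`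
into an algebraic closure of `ℚ_p` -/
theorem exists_embedding (A : Finset ℂ) :
    ∃ (p : ℕ) (hp : Fact p.Prime) (σ : ℂ →+* AlgebraicClosure ℚ_[p]), 3 ≤ p ∧
      ∀ z ∈ A, IsIntegral ℤ_[p] (σ z) := by
  classical
  obtain ⟨t, ht⟩ := exists_isTranscendenceBasis ℤ ℂ
  -- `ℂ` as an algebra over the polynomial ring
  let i1 : Algebra (MvPolynomial t ℤ) ℂ := (aeval ((↑) : t → ℂ)).toRingHom.toAlgebra
  have hi1 : ∀ f : MvPolynomial t ℤ, algebraMap (MvPolynomial t ℤ) ℂ f = aeval ((↑) : t → ℂ) f :=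
    fun f => rfl
  have hinj1 : Function.Injective (algebraMap (MvPolynomial t ℤ) ℂ) :=
    algebraicIndependent_iff_injective_aeval.mp ht.1
  have : Algebra.IsAlgebraic (MvPolynomial t ℤ) ℂ := by
    have h1 := ht.isAlgebraic
    constructor
    intro z
    obtain ⟨P, hP, hPz⟩ := h1.1 z
    let e := ht.1.aevalEquiv
    refine ⟨P.map (e.symm : _ →+* MvPolynomial t ℤ), ?_, ?_⟩
    · rw [Ne, Polynomial.map_eq_zero_iff e.symm.injective]
      exact hP
    · rw [Polynomial.aeval_def, Polynomial.eval₂_map]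
      rw [Polynomial.aeval_def] at hPz
      rw [← hPz]
      congr 1
      ext u
      obtain ⟨f, rfl⟩ := e.surjective u
      simp only [RingHom.coe_comp, Function.comp_apply, RingHom.coe_coe, AlgEquiv.symm_apply_apply,
        hi1]
      exact (ht.1.algebraMap_aevalEquiv f).symm
  obtain ⟨a, ha, hint⟩ := Algebra.IsAlgebraic.exists_integral_multiples (MvPolynomial t ℤ) A
  obtain ⟨x, hx⟩ : ∃ x : t → ℤ, eval x a ≠ 0 := by
    by_contra hcon
    push Not at hcon
    apply ha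
    apply MvPolynomial.funext
    intro x
    rw [hcon x, map_zero]
  obtain ⟨p, hp3, hpp⟩ := Nat.exists_infinite_primes (max 3 ((eval x a).natAbs + 1))
  have hp : Fact p.Prime := ⟨hpp⟩
  obtain ⟨s, hs1, hs2, hs3⟩ := exists_big_family p
  obtain ⟨e⟩ : Nonempty (t ↪ s) := by
    rw [← Cardinal.le_def]
    have h1 : #t ≤ #ℂ := Cardinal.mk_set_le t
    rw [Cardinal.mk_complex] at h1
    exact h1.trans hs3
  let τ : t → ℤ_[p] := fun i => ⟨(e i : ℚ_[p]), (hs1 _ (e i).2).le⟩
  have hτ : ∀ i, (p : ℤ_[p]) ∣ τ i := by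
    intro i
    rw [← Ideal.mem_span_singleton, ← PadicInt.maximalIdeal_eq_span_p,
      IsLocalRing.mem_maximalIdeal, PadicInt.mem_nonunits]
    exact hs1 _ (e i).2
  let y : t → ℤ_[p] := fun i => (x i : ℤ_[p]) + τ i
  have hτind : AlgebraicIndependent ℤ τ := by
    have h1 : AlgebraicIndependent ℤ (fun i => ((e i : s) : ℚ_[p])) := hs2.comp e e.injective
    have h2 : AlgebraicIndependent ℤ ((PadicInt.Coe.ringHom (p := p)).toIntAlgHom ∘ τ) := h1
    exact AlgebraicIndependent.of_comp _ h2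
  have hy : AlgebraicIndependent ℤ y := AlgebraicIndependent.add_int hτind x
  -- `ℤ_p` and the closure of `ℚ_p` as algebras over the polynomial ring
  let i2 : Algebra (MvPolynomial t ℤ) ℤ_[p] := (aeval y).toRingHom.toAlgebra
  have hi2 : ∀ f : MvPolynomial t ℤ, algebraMap (MvPolynomial t ℤ) ℤ_[p] f = aeval y f :=
    fun f => rfl
  let i3 : Algebra (MvPolynomial t ℤ) (AlgebraicClosure ℚ_[p]) :=
    ((algebraMap ℤ_[p] (AlgebraicClosure ℚ_[p])).comp (aeval y).toRingHom).toAlgebra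
  have i4 : IsScalarTower (MvPolynomial t ℤ) ℤ_[p] (AlgebraicClosure ℚ_[p]) :=
    IsScalarTower.of_algebraMap_eq (fun f => rfl)
  have hinj3 : Function.Injective (algebraMap ℤ_[p] (AlgebraicClosure ℚ_[p])) := by
    rw [IsScalarTower.algebraMap_eq ℤ_[p] ℚ_[p] (AlgebraicClosure ℚ_[p])]
    exact (algebraMap ℚ_[p] (AlgebraicClosure ℚ_[p])).injective.comp
      (IsFractionRing.injective ℤ_[p] ℚ_[p])
  have hinj4 : Function.Injective (algebraMap (MvPolynomial t ℤ) (AlgebraicClosure ℚ_[p])) := by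
    rw [IsScalarTower.algebraMap_eq (MvPolynomial t ℤ) ℤ_[p] (AlgebraicClosure ℚ_[p])]
    exact hinj3.comp (algebraicIndependent_iff_injective_aeval.mp hy)
  have : FaithfulSMul (MvPolynomial t ℤ) ℂ := (faithfulSMul_iff_algebraMap_injective _ _).mpr hinj1
  have : FaithfulSMul (MvPolynomial t ℤ) (AlgebraicClosure ℚ_[p]) :=
    (faithfulSMul_iff_algebraMap_injective _ _).mpr hinj4
  have : Module.IsTorsionFree (MvPolynomial t ℤ) ℂ := inferInstance
  have : Module.IsTorsionFree (MvPolynomial t ℤ) (AlgebraicClosure ℚ_[p]) := inferInstance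
  let σ : ℂ →ₐ[MvPolynomial t ℤ] AlgebraicClosure ℚ_[p] := IsAlgClosed.lift
  refine ⟨p, hp, σ.toRingHom, le_trans (le_max_left _ _) hp3, fun z hz => ?_⟩
  -- the value of `a` is a unit
  have hunit : IsUnit (algebraMap (MvPolynomial t ℤ) ℤ_[p] a) := by
    by_contra hnu
    rw [← mem_nonunits_iff, ← IsLocalRing.mem_maximalIdeal, PadicInt.maximalIdeal_eq_span_p,
      Ideal.mem_span_singleton] at hnu
    have h1 := eval_modEq p a x τ hτ
    have h2 : (p : ℤ_[p]) ∣ ((eval x a : ℤ) : ℤ_[p]) := by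
      have := dvd_sub hnu h1
      rw [hi2, sub_sub_cancel] at this
      exact this
    have h3 : (p : ℤ) ∣ eval x a := by
      have := (PadicInt.pow_p_dvd_int_iff (p := p) 1 (eval x a)).mp (by rwa [pow_one])
      simpa using this
    have h4 := Int.le_of_dvd (Int.natAbs_pos.mpr hx |> fun h => by
      exact_mod_cast h : (0 : ℤ) < ((eval x a).natAbs : ℤ)) ((Int.dvd_natAbs).mpr h3)
    have h5 := le_trans (le_max_right _ _) hp3
    omega
  obtain ⟨u, hu⟩ := hunit
  have h1 : IsIntegral (MvPolynomial t ℤ) (σ (a • z)) := (hint z hz).map σ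
  have h2 : IsIntegral ℤ_[p] (σ (a • z)) := h1.tower_top
  rw [Algebra.smul_def, map_mul, AlgHom.commutes,
    IsScalarTower.algebraMap_apply (MvPolynomial t ℤ) ℤ_[p] (AlgebraicClosure ℚ_[p]), ← hu] at h2
  have h3 : σ z = algebraMap ℤ_[p] (AlgebraicClosure ℚ_[p]) (↑u⁻¹ : ℤ_[p]) *
      (algebraMap ℤ_[p] (AlgebraicClosure ℚ_[p]) (↑u : ℤ_[p]) * σ z) := by
    rw [← mul_assoc, ← map_mul, Units.inv_mul, map_one, one_mul]
  have h4 : IsIntegral ℤ_[p] (σ z) := by
    rw [h3]
    exact isIntegral_algebraMap.mul h2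
  exact h4

end Pool.Agent.Helper86.DML
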