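import Mathlib
import Pool.Agent.Helper86.DML.Padic
import Pool.Agent.Helper86.DML.Embed

/-!
# The sparseness theorem on affine space over the complex numbers
-/

namespace Pool.Agent.Helper86.DML

open MvPolynomial

lemma eval_bind₁_transfer {κ R S Ω : Type*} [CommRing R] [CommRing S] [CommRing Ω]
    (c : R →+* Ω) (σ : S →+* Ω) {Φ' : κ → MvPolynomial κ R} {Φ : κ → MvPolynomial κ S}
    (hΦ : ∀ i, map c (Φ' i) = map σ (Φ i)) {F' : MvPolynomial κ R} {F : MvPolynomial κ S}
    (hF : map c F' = map σ F) (n : ℕ) :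
    map c (((bind₁ Φ') ^ n) F') = map σ (((bind₁ Φ) ^ n) F) := by
  rw [map_bind₁_pow, map_bind₁_pow, hF]
  simp_rw [hΦ]

lemma map_eval' {κ R Ω : Type*} [CommRing R] [CommRing Ω] (c : R →+* Ω) (x : κ → R)
    (F : MvPolynomial κ R) : c (eval x F) = eval (c ∘ x) (map c F) := by
  rw [MvPolynomial.eval_map, ← MvPolynomial.eval₂_comp]

/-- the weak Nullstellensatz -/
lemma exists_zero_of_ne_top {κ : Type*} [Finite κ] {J : Ideal (MvPolynomial κ ℂ)} (hJ : J ≠ ⊤) :
    ∃ x : κ → ℂ, ∀ F ∈ J, eval x F = 0 := by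
  obtain ⟨m, hm, hJm⟩ := Ideal.exists_le_maximal J hJ
  obtain ⟨x, hx⟩ := (isMaximal_iff_eq_vanishingIdeal_singleton).mp hm
  refine ⟨x, fun F hF => ?_⟩
  have h1 := hJm hF
  rw [hx, mem_vanishingIdeal_iff] at h1
  have h2 := h1 x (Set.mem_singleton x)
  rwa [← MvPolynomial.coe_aeval_eq_eval]

lemma eval_eq_zero_of_mem_span {κ : Type*} {V : Set (MvPolynomial κ ℂ)} {x : κ → ℂ}
    (hx : ∀ F ∈ V, eval x F = 0) {F : MvPolynomial κ ℂ}
    (hF : F ∈ Submodule.span (MvPolynomial κ ℂ) V) : eval x F = 0 := by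
  have h : Submodule.span (MvPolynomial κ ℂ) V ≤ RingHom.ker (eval x) := by
    rw [Submodule.span_le]
    intro G hG
    exact hx G hG
  exact h hF

theorem affine_main {κ : Type*} [Finite κ] (Φ : κ → MvPolynomial κ ℂ) (α : κ → ℂ)
    (V : Set (MvPolynomial κ ℂ))
    (hV : ∀ w : κ → ℂ, ∀ r, 1 ≤ r → ∃ k, ∃ F ∈ V, eval ((pmap Φ)^[r * k] w) F ≠ 0) :
    SSp {n | ∀ F ∈ V, eval ((pmap Φ)^[n] α) F = 0} := by
  classical
  have := Fintype.ofFinite κ
  -- finitely many equations suffice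
  obtain ⟨V₀, hV₀, hspan⟩ := (Submodule.fg_span_iff_fg_span_finset_subset V).mp
    (IsNoetherian.noetherian (Submodule.span (MvPolynomial κ ℂ) V))
  have hvan : ∀ x : κ → ℂ, (∀ F ∈ V₀, eval x F = 0) → ∀ F ∈ V, eval x F = 0 := by
    intro x hx F hF
    apply eval_eq_zero_of_mem_span (V := (V₀ : Set (MvPolynomial κ ℂ))) hx
    rw [← hspan]
    exact Submodule.subset_span hF
  -- the embedding
  let A : Finset ℂ := (Finset.univ.biUnion fun i => (Φ i).coeffs) ∪ (V₀.biUnion fun F => F.coeffs) ∪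
    Finset.univ.image α
  obtain ⟨p, hp, σ, hp3, hσ⟩ := exists_embedding A
  let O : Subalgebra ℤ_[p] (AlgebraicClosure ℚ_[p]) := Algebra.adjoin ℤ_[p] (σ '' (A : Set ℂ))
  have hfin : Module.Finite ℤ_[p] O := by
    have h1 : (Subalgebra.toSubmodule O).FG := by
      apply fg_adjoin_of_finite (A.finite_toSet.image _)
      rintro _ ⟨z, hz, rfl⟩
      exact hσ z hz
    exact Module.Finite.iff_fg.mpr h1
  have hinj3 : Function.Injective (algebraMap ℤ_[p] (AlgebraicClosure ℚ_[p])) := by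
    rw [IsScalarTower.algebraMap_eq ℤ_[p] ℚ_[p] (AlgebraicClosure ℚ_[p])]
    exact (algebraMap ℚ_[p] (AlgebraicClosure ℚ_[p])).injective.comp
      (IsFractionRing.injective ℤ_[p] ℚ_[p])
  have htf : Module.IsTorsionFree ℤ_[p] O := by
    have : FaithfulSMul ℤ_[p] O := by
      rw [faithfulSMul_iff_algebraMap_injective]
      intro a b hab
      exact hinj3 (congrArg Subtype.val hab)
    infer_instance
  have hfree : Module.Free ℤ_[p] O := inferInstance
  let c : O →+* AlgebraicClosure ℚ_[p] := O.val.toRingHom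
  have hcinj : Function.Injective c := Subtype.val_injective
  have hA : ∀ z ∈ A, σ z ∈ Set.range c := by
    intro z hz
    exact ⟨⟨σ z, Algebra.subset_adjoin ⟨z, hz, rfl⟩⟩, rfl⟩
  have hlift : ∀ F : MvPolynomial κ ℂ, F.coeffs ⊆ A → ∃ F' : MvPolynomial κ O,
      map c F' = map σ F := by
    intro F hF
    have : map σ F ∈ Set.range (MvPolynomial.map (σ := κ) c) := by
      rw [mem_range_map_iff_coeffs_subset]
      refine (coe_coeffs_map σ F).trans ?_
      rintro _ ⟨z, hz, rfl⟩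
      obtain ⟨o, ho⟩ := hA z (hF hz)
      exact ⟨o, ho⟩
    exact this
  have hliftΦ : ∀ i, ∃ F' : MvPolynomial κ O, map c F' = map σ (Φ i) := by
    intro i
    apply hlift
    intro z hz
    refine Finset.mem_union_left _ (Finset.mem_union_left _ ?_)
    exact Finset.mem_biUnion.mpr ⟨i, Finset.mem_univ _, hz⟩
  choose Φ' hΦ' using hliftΦ
  have hliftV : ∀ F ∈ V₀, ∃ F' : MvPolynomial κ O, map c F' = map σ F := by
    intro F hF
    apply hlift
    intro z hz
    refine Finset.mem_union_left _ (Finset.mem_union_right _ ?_)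
    exact Finset.mem_biUnion.mpr ⟨F, hF, hz⟩
  have hliftα : ∀ i, ∃ a : O, c a = σ (α i) := by
    intro i
    exact hA _ (Finset.mem_union_right _ (Finset.mem_image_of_mem _ (Finset.mem_univ _)))
  choose α' hα' using hliftα
  -- the `p`-adic theorem
  have hpadic := padic_main (p := p) hp3 Φ' α' {F' | ∃ F ∈ V₀, map c F' = map σ F} (by
    intro w r hr
    by_contra hcon
    push Not at hcon
    let J : Ideal (MvPolynomial κ ℂ) := Ideal.span {G | ∃ k, ∃ F ∈ V₀, G = ((bind₁ Φ) ^ (r * k)) F}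
    have hJ : J ≠ ⊤ := by
      intro hJ
      have h1 : J ≤ RingHom.ker ((eval (c ∘ w)).comp (map σ)) := by
        rw [Ideal.span_le]
        rintro _ ⟨k, F, hF, rfl⟩
        obtain ⟨F', hF'⟩ := hliftV F hF
        rw [SetLike.mem_coe, RingHom.mem_ker, RingHom.comp_apply,
          ← eval_bind₁_transfer c σ hΦ' hF', ← map_eval', eval_bind₁_pow,
          hcon k F' ⟨F, hF, hF'⟩, map_zero]
      rw [hJ, top_le_iff] at h1
      exact RingHom.ker_ne_top _ h1
    obtain ⟨x, hx⟩ := exists_zero_of_ne_top hJ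
    obtain ⟨k, F, hF, hne⟩ := hV x r hr
    apply hne
    apply hvan _ _ F hF
    intro G hG
    rw [← eval_bind₁_pow]
    exact hx _ (Ideal.subset_span ⟨k, G, hG, rfl⟩))
  refine hpadic.mono ?_
  intro n hn F' hF'
  obtain ⟨F, hF, hFF'⟩ := hF'
  apply hcinj
  rw [← eval_bind₁_pow, map_eval', eval_bind₁_transfer c σ hΦ' hFF', map_zero]
  have h1 : c ∘ α' = σ ∘ α := funext hα'
  rw [h1, ← map_eval', eval_bind₁_pow, hn F (hV₀ hF), map_zero]

end Pool.Agent.Helper86.DML
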