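import Mathlib
import Pool.Agent.Helper86.DML.Padic

/-!
# The shadow of a `p`-adic orbit: dichotomy for return sets along residue classes
-/

namespace Pool.Agent.Helper86.DML

open MvPolynomial

variable {p : ℕ} [hp : Fact p.Prime]
variable {O : Type*} [CommRing O] [Algebra ℤ_[p] O] [Module.Finite ℤ_[p] O]
  [Module.Free ℤ_[p] O] {ι : Type*} [Finite ι]

omit [Module.Finite ℤ_[p] O] [Module.Free ℤ_[p] O] [Algebra ℤ_[p] O] [Finite ι] hp in
lemma iterate_congr {q : O} (Φ : ι → MvPolynomial ι O) {x y : ι → O} (h : ∀ i, q ∣ x i - y i)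
    (n : ℕ) (i : ι) : q ∣ (pmap Φ)^[n] x i - (pmap Φ)^[n] y i := by
  have h2 := eval_congr_mod h (((bind₁ Φ) ^ n) (X i))
  rwa [eval_bind₁_pow, eval_bind₁_pow, eval_X, eval_X] at h2

/-- every `p`-adic orbit has a shadow orbit, to which it is asymptotic, and the returns of the orbit
to the zero set of `F` in a residue class are super-sparse unless `F` vanishes on the shadow -/
theorem dichotomy (hp3 : 3 ≤ p) (Φ : ι → MvPolynomial ι O) (α : ι → O) :
    ∃ (n₀ M : ℕ) (z : ι → O), 1 ≤ M ∧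
      (∀ i k, (p : O) ∣ (pmap Φ)^[n₀ + i] α k - (pmap Φ)^[i] z k) ∧
      (∀ n i, M * n ≤ i → ∀ k, (p : O) ^ n ∣ (pmap Φ)^[n₀ + i] α k - (pmap Φ)^[i] z k) ∧
      (∀ j F, (∃ k, eval ((pmap Φ)^[j + M * k] z) F ≠ 0) →
        SSp {k | eval ((pmap Φ)^[n₀ + j + M * k] α) F = 0}) := by
  classical
  have := finite_quotient (p := p) (O := O)
  obtain ⟨n₀, ℓ, hℓ, hper⟩ : ∃ n₀ ℓ, 1 ≤ ℓ ∧ ∀ i, (p : O) ∣
      (pmap Φ)^[ℓ] ((pmap Φ)^[n₀] α) i - (pmap Φ)^[n₀] α i := by
    obtain ⟨i, j, hij, h⟩ := Finite.exists_ne_map_eq_of_infinite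
      (fun (n : ℕ) => (fun i => Ideal.Quotient.mk (Ideal.span {(p : O)}) ((pmap Φ)^[n] α i)))
    wlog hlt : i < j generalizing i j
    · exact this j i hij.symm h.symm (by omega)
    obtain ⟨d, rfl⟩ := Nat.exists_eq_add_of_lt hlt
    refine ⟨i, d + 1, by omega, fun k => ?_⟩
    have h1 := congrFun h k
    rw [eq_comm, Ideal.Quotient.eq, Ideal.mem_span_singleton] at h1
    rw [← Function.iterate_add_apply]
    have : d + 1 + i = i + d + 1 := by ring
    rw [this]
    exact h1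
  obtain ⟨M, w, g, hM, hg1, hg2, hg3, hg4, hg5⟩ := shadow Φ _ ℓ hℓ hper
  have hwk : ∀ k, (pmap Φ)^[M * k] (w 0) = w k := by
    intro k
    induction k with
    | zero => rfl
    | succ k ih =>
      have : M * (k + 1) = M + M * k := by ring
      rw [this, Function.iterate_add_apply, ih, hg4]
  refine ⟨n₀, M, w 0, hM, ?_, ?_, ?_⟩
  · intro i k
    have h1 : ∀ i, (p : O) ∣ (pmap Φ)^[n₀] α i - w 0 i := by
      intro i
      rw [dvd_sub_comm]
      simpa using hg5 0 i
    have h2 := iterate_congr Φ h1 i k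
    rw [← Function.iterate_add_apply, add_comm] at h2
    exact h2
  · intro n i hi k
    obtain ⟨j, rfl⟩ := Nat.exists_eq_add_of_le hi
    have h1 : ∀ k, (p : O) ^ n ∣ (pmap Φ)^[M * n] ((pmap Φ)^[n₀] α) k - w n k := by
      intro k
      have h3 := hg2 (X k) n
      rwa [eval_X, ← hg3, eval_X] at h3
    have h2 := iterate_congr Φ h1 j k
    rw [← hwk n, ← Function.iterate_add_apply, ← Function.iterate_add_apply,
      ← Function.iterate_add_apply] at h2
    have e1 : n₀ + (M * n + j) = j + (M * n) + n₀ := by ring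
    have e2 : M * n + j = j + M * n := by ring
    rw [e1, e2]
    exact h2
  · rintro j F ⟨k, hne⟩
    have hne' : g (((bind₁ Φ) ^ j) F) k ≠ 0 := by
      rw [← hg3, eval_bind₁_pow, ← hwk, ← Function.iterate_add_apply]
      exact hne
    refine SSp_of_An' hp3 (hg1 (((bind₁ Φ) ^ j) F)) ⟨k, hne'⟩ ?_
    intro n hn
    have h1 : eval ((pmap Φ)^[n₀ + j + M * n] α) F = 0 := hn
    have h2 := hg2 (((bind₁ Φ) ^ j) F) n
    rw [eval_bind₁_pow, ← Function.iterate_add_apply, ← Function.iterate_add_apply] at h2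
    have h3 : j + M * n + n₀ = n₀ + j + M * n := by ring
    rw [h3, h1, zero_sub, dvd_neg] at h2
    exact h2

end Pool.Agent.Helper86.DML
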