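import Mathlib
import Pool.Agent.Helper86.DML.Affine

/-!
# Lifting an endomorphism of a quasiprojective variety to affine space

A point of projective space is replaced by the projectors onto the corresponding line.
-/

namespace Pool.Agent.Helper86.DML

open MvPolynomial

noncomputable section

lemma eval_smul_of_isHomogeneous {κ : Type*} [Fintype κ] {F : MvPolynomial κ ℂ} {d : ℕ}
    (hF : F.IsHomogeneous d) (c : ℂ) (v : κ → ℂ) : eval (c • v) F = c ^ d * eval v F := by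
  rw [eval_eq', eval_eq', Finset.mul_sum]
  refine Finset.sum_congr rfl fun s hs => ?_
  have h1 : ∑ i, s i = d := by
    have := hF (mem_support_iff.mp hs)
    rw [← this, Finsupp.weight_apply, Finsupp.sum_fintype _ _ (by simp)]
    simp
  have h2 : ∏ i, (c • v) i ^ s i = c ^ d * ∏ i, v i ^ s i := by
    simp only [Pi.smul_apply, smul_eq_mul, mul_pow, Finset.prod_mul_distrib,
      Finset.prod_pow_eq_pow_sum, h1]
  rw [h2]
  ring

/-- functions without common zeros on an affine variety generate the unit ideal -/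
lemma exists_comb {κ L : Type*} [Finite κ] (E : Set (MvPolynomial κ ℂ)) (t : L → MvPolynomial κ ℂ)
    (h : ∀ u : κ → ℂ, (∀ F ∈ E, eval u F = 0) → ∃ l, eval u (t l) ≠ 0) :
    ∃ c : L →₀ MvPolynomial κ ℂ, ∀ u : κ → ℂ, (∀ F ∈ E, eval u F = 0) →
      c.sum (fun l a => eval u a * eval u (t l)) = 1 := by
  have h1 : Ideal.span E ⊔ Ideal.span (Set.range t) = ⊤ := by
    by_contra hne
    obtain ⟨u, hu⟩ := exists_zero_of_ne_top hne
    obtain ⟨l, hl⟩ := h u (fun F hF => hu F (Ideal.mem_sup_left (Ideal.subset_span hF)))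
    exact hl (hu _ (Ideal.mem_sup_right (Ideal.subset_span ⟨l, rfl⟩)))
  have h2 : (1 : MvPolynomial κ ℂ) ∈ Ideal.span E ⊔ Ideal.span (Set.range t) := by
    rw [h1]; trivial
  obtain ⟨e, he, f, hf, hef⟩ := Submodule.mem_sup.mp h2
  obtain ⟨c, hc⟩ := (Finsupp.mem_span_range_iff_exists_finsupp).mp hf
  refine ⟨c, fun u hu => ?_⟩
  have h3 : eval u e = 0 := eval_eq_zero_of_mem_span hu he
  have h4 := congrArg (eval u) hef
  rw [map_add, h3, zero_add, map_one, ← hc, Finsupp.sum, map_sum] at h4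
  rw [← h4, Finsupp.sum]
  refine Finset.sum_congr rfl fun l _ => ?_
  rw [smul_eq_mul, map_mul]

variable {N : ℕ}

/-- complex projective space -/
abbrev PP (N : ℕ) : Type := Projectivization ℂ (Fin (N + 1) → ℂ)

lemma mem_submodule_iff (x : PP N) (v : Fin (N + 1) → ℂ) :
    v ∈ x.submodule ↔ ∃ c : ℂ, v = c • x.rep := by
  rw [Projectivization.submodule_eq, Submodule.mem_span_singleton]
  constructor
  · rintro ⟨c, hc⟩; exact ⟨c, hc.symm⟩
  · rintro ⟨c, hc⟩; exact ⟨c, hc.symm⟩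

variable (B₀ : Finset (MvPolynomial (Fin (N + 1)) ℂ))

/-- index type of the affine coordinates -/
abbrev Idx (N : ℕ) (B₀ : Finset (MvPolynomial (Fin (N + 1)) ℂ)) : Type :=
  (Fin (N + 1) × Fin (N + 1)) ⊕ (B₀ × Fin (N + 1))

/-- a column of the projector, as polynomials -/
def colP (j : Fin (N + 1)) : Fin (N + 1) → MvPolynomial (Idx N B₀) ℂ :=
  fun a => X (Sum.inl (a, j))

/-- a column of the projector -/
def col (u : Idx N B₀ → ℂ) (j : Fin (N + 1)) : Fin (N + 1) → ℂ := fun a => u (Sum.inl (a, j))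

variable {B₀} in
lemma eval_colP (u : Idx N B₀ → ℂ) (j : Fin (N + 1)) (F : MvPolynomial (Fin (N + 1)) ℂ) :
    eval u (bind₁ (colP B₀ j) F) = eval (col B₀ u j) F := by
  have h := eval₂Hom_bind₁ (RingHom.id ℂ) u (colP B₀ j) F
  have h2 : eval u (bind₁ (colP B₀ j) F) = eval (fun a => eval u (colP B₀ j a)) F := h
  rw [h2]
  congr 2
  funext a
  simp [colP, col]

/-- the equations of the affine variety above `X` -/
def eqs (A : Set (MvPolynomial (Fin (N + 1)) ℂ)) : Set (MvPolynomial (Idx N B₀) ℂ) :=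
  {G | ∃ a b c d : Fin (N + 1), G = X (Sum.inl (a, b)) * X (Sum.inl (c, d)) -
      X (Sum.inl (a, d)) * X (Sum.inl (c, b))} ∪
  {G | G = ∑ a, X (Sum.inl (a, a)) - 1} ∪
  {G | ∃ F ∈ A, ∃ j, G = bind₁ (colP B₀ j) F} ∪
  {G | G = ∑ i : B₀ × Fin (N + 1), X (Sum.inr i) * bind₁ (colP B₀ i.2) i.1.1 - 1}

variable {B₀}

lemma mem_zero_iff (A : Set (MvPolynomial (Fin (N + 1)) ℂ)) (u : Idx N B₀ → ℂ) :
    (∀ G ∈ eqs B₀ A, eval u G = 0) ↔
      ((∀ a b c d : Fin (N + 1), u (Sum.inl (a, b)) * u (Sum.inl (c, d)) =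
        u (Sum.inl (a, d)) * u (Sum.inl (c, b))) ∧
      (∑ a, u (Sum.inl (a, a)) = 1) ∧
      (∀ F ∈ A, ∀ j, eval (col B₀ u j) F = 0) ∧
      ∑ i : B₀ × Fin (N + 1), u (Sum.inr i) * eval (col B₀ u i.2) i.1.1 = 1) := by
  constructor
  · intro h
    refine ⟨?_, ?_, ?_, ?_⟩
    · intro a b c d
      have := h _ (Or.inl (Or.inl (Or.inl ⟨a, b, c, d, rfl⟩)))
      simpa [sub_eq_zero] using this
    · have := h _ (Or.inl (Or.inl (Or.inr rfl)))
      simpa [sub_eq_zero] using this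
    · intro F hF j
      have := h _ (Or.inl (Or.inr ⟨F, hF, j, rfl⟩))
      rwa [eval_colP] at this
    · have := h _ (Or.inr rfl)
      simpa [sub_eq_zero, eval_colP] using this
  · rintro ⟨h1, h2, h3, h4⟩ G hG
    rcases hG with ((⟨a, b, c, d, rfl⟩ | rfl) | ⟨F, hF, j, rfl⟩) | rfl
    · simp [h1 a b c d]
    · simp [h2]
    · rw [eval_colP]; exact h3 F hF j
    · simp [eval_colP, h4]

/-- `u` represents the point `x` -/
def Rep (x : PP N) (u : Idx N B₀ → ℂ) : Prop := ∀ j, col B₀ u j ∈ x.submodule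

lemma exists_col_ne {u : Idx N B₀ → ℂ} (h : ∑ a, u (Sum.inl (a, a)) = 1) :
    ∃ a, u (Sum.inl (a, a)) ≠ 0 := by
  by_contra hcon
  push Not at hcon
  simp [hcon] at h

lemma hom_zero {x : PP N} {v : Fin (N + 1) → ℂ} (hv : v ∈ x.submodule)
    {F : MvPolynomial (Fin (N + 1)) ℂ} (hF : ∃ d, F.IsHomogeneous d) (h0 : eval x.rep F = 0) :
    eval v F = 0 := by
  obtain ⟨c, rfl⟩ := (mem_submodule_iff x v).mp hv
  obtain ⟨d, hd⟩ := hF
  rw [eval_smul_of_isHomogeneous hd, h0, mul_zero]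

lemma hom_ne {x : PP N} {v : Fin (N + 1) → ℂ} (hv : v ∈ x.submodule) (hv0 : v ≠ 0)
    {F : MvPolynomial (Fin (N + 1)) ℂ} (hF : ∃ d, F.IsHomogeneous d) (h0 : eval x.rep F ≠ 0) :
    eval v F ≠ 0 := by
  obtain ⟨c, rfl⟩ := (mem_submodule_iff x v).mp hv
  obtain ⟨d, hd⟩ := hF
  rw [eval_smul_of_isHomogeneous hd]
  have hc : c ≠ 0 := by
    rintro rfl
    simp at hv0
  exact mul_ne_zero (pow_ne_zero _ hc) h0

lemma exists_rep {A : Set (MvPolynomial (Fin (N + 1)) ℂ)} {u : Idx N B₀ → ℂ}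
    (hu : ∀ G ∈ eqs B₀ A, eval u G = 0) : ∃ x : PP N, Rep x u := by
  obtain ⟨h1, h2, _, _⟩ := (mem_zero_iff A u).mp hu
  obtain ⟨a, ha⟩ := exists_col_ne h2
  have hne : col B₀ u a ≠ 0 := fun h => ha (congrFun h a)
  refine ⟨Projectivization.mk ℂ (col B₀ u a) hne, fun b => ?_⟩
  rw [Projectivization.submodule_mk, Submodule.mem_span_singleton]
  refine ⟨u (Sum.inl (a, b)) / u (Sum.inl (a, a)), ?_⟩
  funext c
  have h3 := h1 a b c a
  simp only [Pi.smul_apply, smul_eq_mul, col]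
  field_simp
  linear_combination h3

lemma exists_zero_above {A : Set (MvPolynomial (Fin (N + 1)) ℂ)}
    (hA : ∀ F ∈ A, ∃ d : ℕ, F.IsHomogeneous d) (hB : ∀ F ∈ B₀, ∃ d : ℕ, F.IsHomogeneous d)
    (x : PP N) (hx : ∀ F ∈ A, eval x.rep F = 0) (hx' : ∃ F ∈ B₀, eval x.rep F ≠ 0) :
    ∃ u : Idx N B₀ → ℂ, (∀ G ∈ eqs B₀ A, eval u G = 0) ∧ Rep x u := by
  classical
  obtain ⟨i, hi⟩ : ∃ i, x.rep i ≠ 0 := by
    by_contra hcon
    push Not at hcon
    exact x.rep_nonzero (funext hcon)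
  obtain ⟨F₀, hF₀, hne⟩ := hx'
  have hcol : x.rep = x.rep i • ((x.rep i)⁻¹ • x.rep) := by
    rw [smul_smul, mul_inv_cancel₀ hi, one_smul]
  have hv : (x.rep i)⁻¹ • x.rep ∈ x.submodule := (mem_submodule_iff x _).mpr ⟨_, rfl⟩
  have hv0 : (x.rep i)⁻¹ • x.rep ≠ 0 := smul_ne_zero (inv_ne_zero hi) x.rep_nonzero
  have hne' := hom_ne hv hv0 (hB F₀ hF₀) hne
  let u : Idx N B₀ → ℂ := Sum.elim
    (fun ab => if ab.2 = i then (x.rep i)⁻¹ * x.rep ab.1 else 0)
    (fun Fj => if Fj = (⟨F₀, hF₀⟩, i) then (eval ((x.rep i)⁻¹ • x.rep) F₀)⁻¹ else 0)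
  have hcolu : ∀ j, col B₀ u j = if j = i then (x.rep i)⁻¹ • x.rep else 0 := by
    intro j
    funext a
    simp only [col, u, Sum.elim_inl]
    split_ifs <;> simp
  have hrep : Rep x u := by
    intro j
    rw [hcolu]
    split_ifs
    · exact hv
    · exact Submodule.zero_mem _
  refine ⟨u, ?_, hrep⟩
  rw [mem_zero_iff]
  refine ⟨?_, ?_, ?_, ?_⟩
  · intro a b c d
    simp only [u, Sum.elim_inl]
    split_ifs <;> ring
  · simp only [u, Sum.elim_inl]
    rw [Finset.sum_eq_single i]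
    · simp [hi]
    · intro b _ hb
      simp [hb]
    · simp
  · intro F hF j
    exact hom_zero (hrep j) (hA F hF) (hx F hF)
  · rw [Finset.sum_eq_single (⟨F₀, hF₀⟩, i)]
    · have h1 : u (Sum.inr (⟨F₀, hF₀⟩, i)) = (eval ((x.rep i)⁻¹ • x.rep) F₀)⁻¹ := by
        simp [u]
      rw [h1, hcolu, if_pos rfl]
      exact inv_mul_cancel₀ hne'
    · intro b _ hb
      have h1 : u (Sum.inr b) = 0 := by
        simp [u, hb]
      rw [h1, zero_mul]
    · simp

/-- the lift of a regular self-map to the affine variety of projectors -/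
theorem exists_lift (X : Set (PP N)) (A : Set (MvPolynomial (Fin (N + 1)) ℂ))
    (hA : ∀ F ∈ A, ∃ d : ℕ, F.IsHomogeneous d) (hB : ∀ F ∈ B₀, ∃ d : ℕ, F.IsHomogeneous d)
    (hX : ∀ p : PP N, p ∈ X ↔ ((∀ F ∈ A, eval p.rep F = 0) ∧ ∃ F ∈ B₀, eval p.rep F ≠ 0))
    (Φ : PP N → PP N) (hΦX : ∀ x ∈ X, Φ x ∈ X)
    (hΦ : ∀ x ∈ X, ∃ (d e : ℕ) (F : Fin (N + 1) → MvPolynomial (Fin (N + 1)) ℂ)
          (g : MvPolynomial (Fin (N + 1)) ℂ),
          (∀ i, (F i).IsHomogeneous d) ∧ g.IsHomogeneous e ∧ eval x.rep g ≠ 0 ∧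
          ∀ y ∈ X, eval y.rep g ≠ 0 →
            (fun i : Fin (N + 1) => eval y.rep (F i)) ≠ 0 ∧
            (fun i : Fin (N + 1) => eval y.rep (F i)) ∈ (Φ y).submodule) :
    ∃ Ψ : Idx N B₀ → MvPolynomial (Idx N B₀) ℂ, ∀ u : Idx N B₀ → ℂ,
      (∀ G ∈ eqs B₀ A, eval u G = 0) → ∀ x : PP N, Rep x u →
        (∀ G ∈ eqs B₀ A, eval (pmap Ψ u) G = 0) ∧ Rep (Φ x) (pmap Ψ u) := by
  classical
  -- the point below a point of the affine variety lies in `X`
  have hmemX : ∀ u : Idx N B₀ → ℂ, (∀ G ∈ eqs B₀ A, eval u G = 0) → ∀ x : PP N, Rep x u → x ∈ X := by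
    intro u hu x hx
    obtain ⟨h1, h2, h3, h4⟩ := (mem_zero_iff A u).mp hu
    obtain ⟨a, ha⟩ := exists_col_ne h2
    have hne : col B₀ u a ≠ 0 := fun h => ha (congrFun h a)
    rw [hX]
    constructor
    · intro F hF
      by_contra hcon
      exact hom_ne (hx a) hne (hA F hF) hcon (h3 F hF a)
    · by_contra hcon
      push Not at hcon
      rw [Finset.sum_eq_zero] at h4
      · exact zero_ne_one h4
      · intro i _
        rw [hom_zero (hx i.2) (hB i.1.1 i.1.2) (hcon i.1.1 i.1.2), mul_zero]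
  choose! d e F g hFd hge hgx hFg using hΦ
  -- evaluation of the local data at a column
  have hloc : ∀ y ∈ X, ∀ x ∈ X, ∀ v ∈ x.submodule, eval v (g y) ≠ 0 →
      (fun i => eval v (F y i)) ∈ (Φ x).submodule ∧
        (v ≠ 0 → ∃ i, eval v (F y i) ≠ 0) := by
    intro y hy x hx v hv hgv
    have hgrep : eval x.rep (g y) ≠ 0 := by
      intro h0
      exact hgv (hom_zero hv ⟨_, hge y hy⟩ h0)
    obtain ⟨h1, h2⟩ := hFg y hy x hx hgrep
    obtain ⟨c, rfl⟩ := (mem_submodule_iff x v).mp hv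
    have h3 : (fun i => eval (c • x.rep) (F y i)) = c ^ d y • (fun i => eval x.rep (F y i)) := by
      funext i
      rw [eval_smul_of_isHomogeneous (hFd y hy i)]
      rfl
    refine ⟨by rw [h3]; exact Submodule.smul_mem _ _ h2, fun hv0 => ?_⟩
    have hc : c ≠ 0 := by
      rintro rfl
      simp at hv0
    obtain ⟨i, hi⟩ := Function.ne_iff.mp h1
    refine ⟨i, ?_⟩
    rw [eval_smul_of_isHomogeneous (hFd y hy i)]
    exact mul_ne_zero (pow_ne_zero _ hc) hi
  -- first use of the Nullstellensatz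
  obtain ⟨c, hc⟩ := exists_comb (L := X × Fin (N + 1) × Fin (N + 1)) (eqs B₀ A)
    (fun l => bind₁ (colP B₀ l.2.1) (g l.1.1 * F l.1.1 l.2.2)) (by
      intro u hu
      obtain ⟨x, hx⟩ := exists_rep hu
      have hxX := hmemX u hu x hx
      obtain ⟨_, h2, _, _⟩ := (mem_zero_iff A u).mp hu
      obtain ⟨a, ha⟩ := exists_col_ne h2
      have hne : col B₀ u a ≠ 0 := fun h => ha (congrFun h a)
      have hg : eval (col B₀ u a) (g x) ≠ 0 := hom_ne (hx a) hne ⟨_, hge x hxX⟩ (hgx x hxX)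
      obtain ⟨i, hi⟩ := (hloc x hxX x hxX _ (hx a) hg).2 hne
      refine ⟨(⟨x, hxX⟩, a, i), ?_⟩
      rw [eval_colP, map_mul]
      exact mul_ne_zero hg hi)
  let P' : Fin (N + 1) → Fin (N + 1) → MvPolynomial (Idx N B₀) ℂ := fun a b =>
    c.sum (fun l h => if l.2.2 = b then h * bind₁ (colP B₀ l.2.1) (g l.1.1 * F l.1.1 a) else 0)
  have hP'eval : ∀ u a b, eval u (P' a b) = c.sum (fun l h => if l.2.2 = b then
      eval u h * (eval (col B₀ u l.2.1) (g l.1.1) * eval (col B₀ u l.2.1) (F l.1.1 a)) else 0) := by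
    intro u a b
    simp only [P', Finsupp.sum, map_sum]
    refine Finset.sum_congr rfl fun l _ => ?_
    split_ifs
    · rw [map_mul, eval_colP, map_mul]
    · exact map_zero _
  have hP'mem : ∀ u : Idx N B₀ → ℂ, (∀ G ∈ eqs B₀ A, eval u G = 0) → ∀ x : PP N, Rep x u → ∀ b,
      (fun a => eval u (P' a b)) ∈ (Φ x).submodule := by
    intro u hu x hx b
    have h1 : (fun a => eval u (P' a b)) = ∑ l ∈ c.support, (if l.2.2 = b then
        (eval u (c l) * eval (col B₀ u l.2.1) (g l.1.1)) •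
          (fun a => eval (col B₀ u l.2.1) (F l.1.1 a)) else 0) := by
      funext a
      rw [hP'eval, Finsupp.sum, Finset.sum_apply]
      refine Finset.sum_congr rfl fun l _ => ?_
      split_ifs
      · simp only [Pi.smul_apply, smul_eq_mul]
        ring
      · rfl
    rw [h1]
    apply Submodule.sum_mem
    intro l _
    split_ifs
    · by_cases hg : eval (col B₀ u l.2.1) (g l.1.1) = 0
      · rw [hg, mul_zero, zero_smul]
        exact Submodule.zero_mem _
      · exact Submodule.smul_mem _ _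
          (hloc l.1.1 l.1.2 x (hmemX u hu x hx) _ (hx l.2.1) hg).1
    · exact Submodule.zero_mem _
  have hP'tr : ∀ u : Idx N B₀ → ℂ, (∀ G ∈ eqs B₀ A, eval u G = 0) →
      ∑ a, eval u (P' a a) = 1 := by
    intro u hu
    rw [← hc u hu]
    simp only [hP'eval, Finsupp.sum]
    rw [Finset.sum_comm]
    refine Finset.sum_congr rfl fun l _ => ?_
    rw [Finset.sum_ite_eq, if_pos (Finset.mem_univ _), eval_colP, map_mul]
  -- second use of the Nullstellensatz
  obtain ⟨c', hc'⟩ := exists_comb (L := B₀ × Fin (N + 1)) (eqs B₀ A)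
    (fun i => bind₁ (fun a => P' a i.2) i.1.1) (by
      intro u hu
      obtain ⟨x, hx⟩ := exists_rep hu
      have hxX := hmemX u hu x hx
      obtain ⟨G, hG, hGne⟩ := ((hX (Φ x)).mp (hΦX x hxX)).2
      obtain ⟨b, hb⟩ : ∃ b, eval u (P' b b) ≠ 0 := by
        by_contra hcon
        push Not at hcon
        have := hP'tr u hu
        simp [hcon] at this
      have hne : (fun a => eval u (P' a b)) ≠ 0 := fun h => hb (congrFun h b)
      refine ⟨(⟨G, hG⟩, b), ?_⟩
      have h1 := eval₂Hom_bind₁ (RingHom.id ℂ) u (fun a => P' a b) G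
      have h2 : eval u (bind₁ (fun a => P' a b) G) = eval (fun a => eval u (P' a b)) G := h1
      rw [h2]
      exact hom_ne (hP'mem u hu x hx b) hne (hB G hG) hGne)
  refine ⟨Sum.elim (fun ab => P' ab.1 ab.2) (fun i => c' i), ?_⟩
  intro u hu x hx
  set Ψ : Idx N B₀ → MvPolynomial (Idx N B₀) ℂ :=
    Sum.elim (fun ab => P' ab.1 ab.2) (fun i => c' i) with hΨ
  have hcolΨ : ∀ j, col B₀ (pmap Ψ u) j = fun a => eval u (P' a j) := fun j => rfl
  have hrep : Rep (Φ x) (pmap Ψ u) := by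
    intro j
    rw [hcolΨ]
    exact hP'mem u hu x hx j
  refine ⟨?_, hrep⟩
  have hxX := hmemX u hu x hx
  have hΦx := (hX (Φ x)).mp (hΦX x hxX)
  rw [mem_zero_iff]
  refine ⟨?_, hP'tr u hu, ?_, ?_⟩
  · intro a b c d
    obtain ⟨s, hs⟩ := (mem_submodule_iff (Φ x) _).mp (hP'mem u hu x hx b)
    obtain ⟨t, ht⟩ := (mem_submodule_iff (Φ x) _).mp (hP'mem u hu x hx d)
    have e1 : ∀ a, eval u (P' a b) = s * (Φ x).rep a := fun a => congrFun hs a
    have e2 : ∀ a, eval u (P' a d) = t * (Φ x).rep a := fun a => congrFun ht a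
    change eval u (P' a b) * eval u (P' c d) = eval u (P' a d) * eval u (P' c b)
    rw [e1, e1, e2, e2]
    ring
  · intro G hG j
    exact hom_zero (hrep j) (hA G hG) (hΦx.1 G hG)
  · have h1 := hc' u hu
    rw [Finsupp.sum_fintype _ _ (by simp)] at h1
    rw [← h1]
    refine Finset.sum_congr rfl fun i _ => ?_
    have h2 := eval₂Hom_bind₁ (RingHom.id ℂ) u (fun a => P' a i.2) i.1.1
    have h3 : eval u (bind₁ (fun a => P' a i.2) i.1.1) =
        eval (fun a => eval u (P' a i.2)) i.1.1 := h2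
    rw [h3]
    rfl

end

end Pool.Agent.Helper86.DML
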