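import Mathlib

/-!
# First-order Taylor expansion, Cramer's rule, and pairs of rank one projectors
-/

namespace Pool.Agent.Helper86.DML

open MvPolynomial

noncomputable section

section Taylor

variable {ι R : Type*} [Fintype ι] [CommRing R]

/-- derivative of a polynomial at `v` in direction `h` -/
def dirDeriv (v h : ι → R) (G : MvPolynomial ι R) : R := ∑ a, h a * eval v (pderiv a G)

lemma dirDeriv_add (v h : ι → R) (F G : MvPolynomial ι R) :
    dirDeriv v h (F + G) = dirDeriv v h F + dirDeriv v h G := by
  simp only [dirDeriv, map_add, mul_add, Finset.sum_add_distrib]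

lemma dirDeriv_mul (v h : ι → R) (F G : MvPolynomial ι R) :
    dirDeriv v h (F * G) = dirDeriv v h F * eval v G + eval v F * dirDeriv v h G := by
  simp only [dirDeriv, pderiv_mul, map_add, map_mul, mul_add, Finset.sum_add_distrib,
    Finset.sum_mul, Finset.mul_sum]
  congr 1
  · exact Finset.sum_congr rfl fun a _ => by ring
  · exact Finset.sum_congr rfl fun a _ => by ring

lemma dirDeriv_C (v h : ι → R) (a : R) : dirDeriv v h (C a) = 0 := by
  simp [dirDeriv]

lemma dirDeriv_one (v h : ι → R) : dirDeriv v h (1 : MvPolynomial ι R) = 0 := by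
  simp [dirDeriv]

lemma dirDeriv_X (v h : ι → R) (i : ι) : dirDeriv v h (X i) = h i := by
  classical
  simp only [dirDeriv, pderiv_X]
  rw [Finset.sum_eq_single i]
  · simp
  · intro b _ hb
    simp [hb.symm]
  · simp

lemma taylor (v h : ι → R) (q : R) (G : MvPolynomial ι R) :
    q ^ 2 ∣ eval (v + q • h) G - eval v G - q * dirDeriv v h G := by
  induction G using MvPolynomial.induction_on with
  | C a => simp [dirDeriv_C]
  | add F G hF hG =>
    rw [dirDeriv_add, map_add, map_add]
    have := dvd_add hF hG
    convert this using 1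
    ring
  | mul_X F i hF =>
    rw [dirDeriv_mul, dirDeriv_X, map_mul, map_mul, eval_X, eval_X, Pi.add_apply, Pi.smul_apply,
      smul_eq_mul]
    have h1 := dvd_add (Dvd.dvd.mul_right hF (v i + q * h i))
      (Dvd.intro (dirDeriv v h F * h i) rfl : q ^ 2 ∣ q ^ 2 * (dirDeriv v h F * h i))
    convert h1 using 1
    ring

end Taylor

section Cramer

/-- if `A h ≡ 0` modulo `q` then `det A • h ≡ 0` modulo `q` -/
lemma det_mul_dvd {n R : Type*} [Fintype n] [DecidableEq n] [CommRing R] (A : Matrix n n R)
    (h : n → R) (q : R) (hA : ∀ i, q ∣ A.mulVec h i) (i : n) : q ∣ A.det * h i := by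
  have h1 : A.adjugate.mulVec (A.mulVec h) = A.det • h := by
    rw [Matrix.mulVec_mulVec, Matrix.adjugate_mul, Matrix.smul_mulVec, Matrix.one_mulVec]
  have h2 := congrFun h1 i
  rw [Pi.smul_apply, smul_eq_mul] at h2
  rw [← h2]
  exact Finset.dvd_sum fun j _ => Dvd.dvd.mul_left (hA j) _

/-- rows with trivial common kernel contain an invertible square matrix -/
lemma exists_det_ne_zero {K 𝓡 : Type*} [Field K] {n : ℕ} (ρ : 𝓡 → Fin n → K)
    (h : ∀ x : Fin n → K, (∀ r, ∑ a, ρ r a * x a = 0) → x = 0) :
    ∃ I : Fin n → 𝓡, (Matrix.of fun i a => ρ (I i) a).det ≠ 0 := by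
  classical
  obtain ⟨κ, a, ha, hspan, hind⟩ := exists_linearIndependent' K ρ
  have htop : Submodule.span K (Set.range ρ) = ⊤ := by
    by_contra hne
    obtain ⟨f, hf, hf2⟩ := Submodule.exists_le_ker_of_lt_top _ (lt_top_iff_ne_top.mpr hne)
    have h1 : (fun i => f (Pi.single i 1)) = 0 := by
      apply h
      intro r
      have h2 : f (ρ r) = 0 := hf2 (Submodule.subset_span ⟨r, rfl⟩)
      rw [← h2]
      conv_rhs => rw [pi_eq_sum_univ' (ρ r)]
      rw [map_sum]
      refine Finset.sum_congr rfl fun i _ => ?_
      rw [map_smul, smul_eq_mul]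
    apply hf
    refine LinearMap.pi_ext' fun i => ?_
    refine LinearMap.ext_ring ?_
    simpa using congrFun h1 i
  rw [htop] at hspan
  let b := Module.Basis.mk hind (le_of_eq hspan.symm)
  have hfin : Finite κ := Module.Finite.finite_basis b
  have := Fintype.ofFinite κ
  have hcard : Fintype.card κ = n := by
    have h1 := Module.finrank_eq_card_basis b
    rw [Module.finrank_fin_fun] at h1
    exact h1.symm
  let e : Fin n ≃ κ := (Fintype.equivFinOfCardEq hcard).symm
  refine ⟨fun i => a (e i), ?_⟩
  have hind2 : LinearIndependent K (fun i => ρ (a (e i))) := hind.comp e e.injective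
  have h3 : LinearIndependent K (Matrix.of fun i a' => ρ (a (e i)) a').row := hind2
  rw [Matrix.linearIndependent_rows_iff_isUnit, Matrix.isUnit_iff_isUnit_det] at h3
  exact h3.ne_zero

end Cramer

end

end Pool.Agent.Helper86.DML
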