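import Mathlib
import Pool.Agent.Helper86.DML.Taylor

/-!
# Pairs of rank one projectors whose images are congruent
-/

namespace Pool.Agent.Helper86.DML

open MvPolynomial

variable {n : ℕ} {O : Type*} [CommRing O]

/-- the images of two rank one projectors are congruent modulo `q` -/
def Cong (q : O) (P Q : Fin n → Fin n → O) : Prop :=
  ∀ a b i j, q ∣ P a i * Q b j - P b i * Q a j

lemma back_core [IsDomain O] {p : O} (hp : p ≠ 0) {P Q : Fin n → Fin n → O}
    (hP : ∀ a b c d, P a b * P c d = P a d * P c b) (hQ : ∀ a b c d, Q a b * Q c d = Q a d * Q c b)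
    (trP : ∑ a, P a a = 1) (trQ : ∑ a, Q a a = 1) {k : ℕ} (hk1 : 1 ≤ k) (hk : Cong (p ^ k) P Q)
    {L : Type*} (s : Finset L) (γ δ : L → O) (c m : L → Fin n)
    (hsum : ∑ l ∈ s, γ l * (δ l * P (c l) (m l) ^ 2) = 1)
    (hδ : ∀ l ∈ s, ∀ h : Fin n → O, (∀ b, p ^ k * h b = P (c l) (m l) * (∑ y, Q b y * P y (m l)) -
      (∑ y, Q (c l) y * P y (m l)) * P b (m l)) → ∀ b, p ∣ δ l * h b) :
    Cong (p ^ (k + 1)) P Q := by
  intro a b i j
  obtain ⟨w, hw⟩ := hk a b i j
  rw [hw, pow_succ]
  apply mul_dvd_mul_left
  have hpk : p ^ k ≠ 0 := pow_ne_zero _ hp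
  set τ : O := ∑ x, ∑ y, P x y * Q y x with hτ
  -- the main identity
  have hid : ∀ l ∈ s, p ∣ δ l * (P (c l) (m l) ^ 2 * (τ * w)) := by
    intro l hl
    have hex : ∀ b, ∃ hb, P (c l) (m l) * (∑ y, Q b y * P y (m l)) -
        (∑ y, Q (c l) y * P y (m l)) * P b (m l) = p ^ k * hb := by
      intro b
      have h1 : P (c l) (m l) * (∑ y, Q b y * P y (m l)) -
          (∑ y, Q (c l) y * P y (m l)) * P b (m l) =
          ∑ y, P y (m l) * (P (c l) (m l) * Q b y - P b (m l) * Q (c l) y) := by
        rw [Finset.mul_sum, Finset.sum_mul, ← Finset.sum_sub_distrib]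
        exact Finset.sum_congr rfl fun y _ => by ring
      rw [h1]
      have h2 : p ^ k ∣ ∑ y, P y (m l) * (P (c l) (m l) * Q b y - P b (m l) * Q (c l) y) :=
        Finset.dvd_sum fun y _ => Dvd.dvd.mul_left (hk _ _ _ _) _
      exact h2
    choose h hh using hex
    have hdvd := hδ l hl h (fun b => (hh b).symm)
    -- (PQ)_{cj}
    have key : P (c l) (m l) ^ 2 * (τ * w) =
        P a i * (∑ x, P (c l) x * Q x j) * h b - P b i * (∑ x, P (c l) x * Q x j) * h a := by
      apply mul_left_cancel₀ hpk
      have e1 : p ^ k * (P (c l) (m l) ^ 2 * (τ * w)) =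
          P (c l) (m l) ^ 2 * τ * (p ^ k * w) := by ring
      have e2 : p ^ k * (P a i * (∑ x, P (c l) x * Q x j) * h b -
          P b i * (∑ x, P (c l) x * Q x j) * h a) =
          P a i * (∑ x, P (c l) x * Q x j) * (p ^ k * h b) -
          P b i * (∑ x, P (c l) x * Q x j) * (p ^ k * h a) := by ring
      rw [e1, e2, ← hh b, ← hh a, ← hw]
      have e3 : P (c l) (m l) ^ 2 * τ * (P a i * Q b j - P b i * Q a j) =
          ∑ x, ∑ y, P (c l) (m l) ^ 2 * (P y x * Q x y) * (P a i * Q b j - P b i * Q a j) := by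
        rw [hτ, Finset.sum_comm, Finset.mul_sum, Finset.sum_mul]
        refine Finset.sum_congr rfl fun x _ => ?_
        rw [Finset.mul_sum, Finset.sum_mul]
      have e4 : P a i * (∑ x, P (c l) x * Q x j) * (P (c l) (m l) * (∑ y, Q b y * P y (m l)) -
            (∑ y, Q (c l) y * P y (m l)) * P b (m l)) -
          P b i * (∑ x, P (c l) x * Q x j) * (P (c l) (m l) * (∑ y, Q a y * P y (m l)) -
            (∑ y, Q (c l) y * P y (m l)) * P a (m l)) =
          ∑ x, ∑ y, (P (c l) x * Q x j) * P y (m l) *
            (P a i * (P (c l) (m l) * Q b y - P b (m l) * Q (c l) y) -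
             P b i * (P (c l) (m l) * Q a y - P a (m l) * Q (c l) y)) := by
        have e5 : ∀ f g : Fin n → O, (∑ x, f x) * (∑ y, g y) = ∑ x, ∑ y, f x * g y := by
          intro f g
          rw [Finset.sum_mul]
          refine Finset.sum_congr rfl fun x _ => ?_
          rw [Finset.mul_sum]
        calc _ = (∑ x, P (c l) x * Q x j) * (∑ y, P y (m l) *
            (P a i * (P (c l) (m l) * Q b y - P b (m l) * Q (c l) y) -
             P b i * (P (c l) (m l) * Q a y - P a (m l) * Q (c l) y))) := by
              have e6 : ∑ y, P y (m l) *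
                  (P a i * (P (c l) (m l) * Q b y - P b (m l) * Q (c l) y) -
                   P b i * (P (c l) (m l) * Q a y - P a (m l) * Q (c l) y)) =
                  P a i * P (c l) (m l) * (∑ y, Q b y * P y (m l)) -
                  P a i * P b (m l) * (∑ y, Q (c l) y * P y (m l)) -
                  P b i * P (c l) (m l) * (∑ y, Q a y * P y (m l)) +
                  P b i * P a (m l) * (∑ y, Q (c l) y * P y (m l)) := by
                simp only [Finset.mul_sum, ← Finset.sum_sub_distrib, ← Finset.sum_add_distrib]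
                exact Finset.sum_congr rfl fun y _ => by ring
              rw [e6]
              ring
          _ = _ := by
              rw [e5]
              refine Finset.sum_congr rfl fun x _ => Finset.sum_congr rfl fun y _ => ?_
              ring
      rw [e3, e4]
      refine Finset.sum_congr rfl fun x _ => Finset.sum_congr rfl fun y _ => ?_
      have m1 := hP (c l) x y (m l)
      have m2 := hQ x j b y
      have m3 := hQ x j a y
      have m4 := hP a i b (m l)
      linear_combination (- P (c l) (m l) * (P a i * Q b j - P b i * Q a j) * Q x y) * m1 +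
        (- P (c l) (m l) * P a i * P (c l) x * P y (m l)) * m2 +
        (P (c l) (m l) * P b i * P (c l) x * P y (m l)) * m3 +
        (P (c l) x * Q x j * P y (m l) * Q (c l) y) * m4
    rw [key]
    have e7 : δ l * (P a i * (∑ x, P (c l) x * Q x j) * h b -
        P b i * (∑ x, P (c l) x * Q x j) * h a) =
        P a i * (∑ x, P (c l) x * Q x j) * (δ l * h b) -
        P b i * (∑ x, P (c l) x * Q x j) * (δ l * h a) := by ring
    rw [e7]
    exact dvd_sub (Dvd.dvd.mul_left (hdvd b) _) (Dvd.dvd.mul_left (hdvd a) _)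
  have h1 : p ∣ τ * w := by
    have h2 : τ * w = ∑ l ∈ s, γ l * (δ l * (P (c l) (m l) ^ 2 * (τ * w))) := by
      calc τ * w = 1 * (τ * w) := (one_mul _).symm
        _ = _ := by
          rw [← hsum, Finset.sum_mul]
          exact Finset.sum_congr rfl fun l _ => by ring
    rw [h2]
    exact Finset.dvd_sum fun l hl => Dvd.dvd.mul_left (hid l hl) _
  have h2 : p ∣ τ - 1 := by
    have h3 : τ - 1 = ∑ x, ∑ y, (P x y * Q y x - P y y * Q x x) := by
      have h4 : (1 : O) = ∑ x, ∑ y, P y y * Q x x := by
        rw [Finset.sum_comm]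
        simp only [← Finset.mul_sum, trQ, mul_one, trP]
      simp only [Finset.sum_sub_distrib]
      rw [← h4]
    rw [h3]
    refine Finset.dvd_sum fun x _ => Finset.dvd_sum fun y _ => ?_
    exact (dvd_pow_self p (by omega)).trans (hk x y y x)
  have h3 := dvd_sub h1 (Dvd.dvd.mul_right h2 w)
  have h4 : τ * w - (τ - 1) * w = w := by ring
  rwa [h4] at h3

end Pool.Agent.Helper86.DML
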