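import Mathlib
import Pool.Agent.Helper86.DML.RankOne
import Pool.Agent.Helper86.DML.Complete

/-!
# The linearised equations modulo `p`
-/

namespace Pool.Agent.Helper86.DML

open MvPolynomial

variable {ι O : Type*} [Fintype ι] [CommRing O]

lemma dirDeriv_congr {q : O} {y y' : ι → O} (hy : ∀ i, q ∣ y i - y' i) (h : ι → O)
    (G : MvPolynomial ι O) : q ∣ dirDeriv y h G - dirDeriv y' h G := by
  simp only [dirDeriv, ← Finset.sum_sub_distrib, ← mul_sub]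
  exact Finset.dvd_sum fun a _ => Dvd.dvd.mul_left (eval_congr_mod hy _) _

lemma taylor_exists (v h : ι → O) (q : O) (G : MvPolynomial ι O) :
    ∃ r, eval (v + q • h) G = eval v G + q * dirDeriv v h G + q ^ 2 * r := by
  obtain ⟨r, hr⟩ := taylor v h q G
  exact ⟨r, by rw [← hr]; ring⟩

lemma row1_dvd [IsDomain O] {p : O} (hp : p ≠ 0) {k : ℕ} (hk : 1 ≤ k) {y y1 y2 h : ι → O}
    (hy : ∀ i, p ∣ y i - y1 i) (h2 : y2 = y1 + p ^ k • h) {E : MvPolynomial ι O}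
    (e1 : eval y1 E = 0) (e2 : eval y2 E = 0) : p ∣ dirDeriv y h E := by
  obtain ⟨r, hr⟩ := taylor_exists y1 h (p ^ k) E
  rw [← h2, e1, e2, zero_add] at hr
  have hpk : p ^ k ≠ 0 := pow_ne_zero _ hp
  have h3 : dirDeriv y1 h E = - (p ^ k * r) := by
    apply mul_left_cancel₀ hpk
    linear_combination -hr
  have h4 : p ∣ dirDeriv y1 h E := by
    rw [h3]
    exact (dvd_neg).mpr (Dvd.dvd.mul_right (dvd_pow_self p (by omega)) _)
  have h5 := dvd_add (dirDeriv_congr hy h E) h4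
  simpa using h5

lemma row2_dvd [IsDomain O] {p : O} (hp : p ≠ 0) {k : ℕ} (hk : 1 ≤ k) {y y1 y2 h : ι → O}
    (hy : ∀ i, p ∣ y i - y1 i) (h2 : y2 = y1 + p ^ k • h) {G1 G2 : MvPolynomial ι O}
    (e : p ^ (k + 1) ∣ eval y1 G1 * eval y2 G2 - eval y1 G2 * eval y2 G1) :
    p ∣ eval y G1 * dirDeriv y h G2 - eval y G2 * dirDeriv y h G1 := by
  obtain ⟨r1, hr1⟩ := taylor_exists y1 h (p ^ k) G1
  obtain ⟨r2, hr2⟩ := taylor_exists y1 h (p ^ k) G2
  rw [← h2] at hr1 hr2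
  rw [hr1, hr2] at e
  have hpk : p ^ k ≠ 0 := pow_ne_zero _ hp
  have h3 : eval y1 G1 * (eval y1 G2 + p ^ k * dirDeriv y1 h G2 + (p ^ k) ^ 2 * r2) -
      eval y1 G2 * (eval y1 G1 + p ^ k * dirDeriv y1 h G1 + (p ^ k) ^ 2 * r1) =
      p ^ k * (eval y1 G1 * dirDeriv y1 h G2 - eval y1 G2 * dirDeriv y1 h G1 +
        p ^ k * (eval y1 G1 * r2 - eval y1 G2 * r1)) := by ring
  rw [h3, pow_succ] at e
  have h4 := (mul_dvd_mul_iff_left hpk).mp e
  have h5 : p ∣ p ^ k * (eval y1 G1 * r2 - eval y1 G2 * r1) :=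
    Dvd.dvd.mul_right (dvd_pow_self p (by omega)) _
  have h6 : p ∣ eval y1 G1 * dirDeriv y1 h G2 - eval y1 G2 * dirDeriv y1 h G1 := by
    have := dvd_sub h4 h5
    simpa using this
  have h7 := eval_congr_mod hy G1
  have h8 := eval_congr_mod hy G2
  have h9 := dirDeriv_congr hy h G1
  have h10 := dirDeriv_congr hy h G2
  have h11 : eval y G1 * dirDeriv y h G2 - eval y G2 * dirDeriv y h G1 =
      (eval y1 G1 * dirDeriv y1 h G2 - eval y1 G2 * dirDeriv y1 h G1) +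
      ((eval y G1 - eval y1 G1) * dirDeriv y h G2 + eval y1 G1 * (dirDeriv y h G2 - dirDeriv y1 h G2))
      - ((eval y G2 - eval y1 G2) * dirDeriv y h G1 +
        eval y1 G2 * (dirDeriv y h G1 - dirDeriv y1 h G1)) := by ring
  rw [h11]
  exact dvd_sub (dvd_add h6 (dvd_add (Dvd.dvd.mul_right h7 _) (Dvd.dvd.mul_left h10 _)))
    (dvd_add (Dvd.dvd.mul_right h8 _) (Dvd.dvd.mul_left h9 _))

end Pool.Agent.Helper86.DML
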