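import Mathlib
import Pool.Agent.Helper86.DML.Lift
import Pool.Agent.Helper86.DML.Dichotomy
import Pool.Agent.Helper86.DML.Rows

/-!
# Transfer of polynomial identities from complex points to points over another field
-/

namespace Pool.Agent.Helper86.DML

open MvPolynomial

noncomputable section

/-- a polynomial vanishing on the complex zero set of `Eq` vanishes on the zero set over `Ω` -/
lemma transfer {κ Ω : Type*} [Finite κ] [Field Ω] (σ : ℂ →+* Ω) (Eq : Set (MvPolynomial κ ℂ))
    (H : MvPolynomial κ ℂ) (hH : ∀ u : κ → ℂ, (∀ G ∈ Eq, eval u G = 0) → eval u H = 0)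
    (y : κ → Ω) (hy : ∀ G ∈ Eq, eval y (map σ G) = 0) : eval y (map σ H) = 0 := by
  have h1 : H ∈ (Ideal.span Eq).radical := by
    rw [← MvPolynomial.vanishingIdeal_zeroLocus_eq_radical (K := ℂ)]
    intro u hu
    rw [MvPolynomial.mem_zeroLocus_iff] at hu
    have := hH u (fun G hG => by
      have := hu G (Ideal.subset_span hG)
      rwa [← MvPolynomial.coe_aeval_eq_eval])
    rwa [← MvPolynomial.coe_aeval_eq_eval] at this
  obtain ⟨n, hn⟩ := h1
  have h2 : Ideal.span Eq ≤ RingHom.ker ((eval y).comp (map σ)) := by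
    rw [Ideal.span_le]
    intro G hG
    exact hy G hG
  have h3 := h2 hn
  rw [RingHom.mem_ker, map_pow] at h3
  exact eq_zero_of_pow_eq_zero h3

lemma eval_smul_hom {n : ℕ} {Ω : Type*} [Field Ω] {F : MvPolynomial (Fin n) Ω} {d : ℕ}
    (hF : F.IsHomogeneous d) (c : Ω) (v : Fin n → Ω) : eval (c • v) F = c ^ d * eval v F := by
  rw [eval_eq', eval_eq', Finset.mul_sum]
  refine Finset.sum_congr rfl fun s hs => ?_
  have h1 : ∑ i, s i = d := by
    have := hF (mem_support_iff.mp hs)
    rw [← this, Finsupp.weight_apply, Finsupp.sum_fintype _ _ (by simp)]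
    simp
  have h2 : ∏ i, (c • v) i ^ s i = c ^ d * ∏ i, v i ^ s i := by
    simp only [Pi.smul_apply, smul_eq_mul, mul_pow, Finset.prod_mul_distrib,
      Finset.prod_pow_eq_pow_sum, h1]
  rw [h2]
  ring

end

end Pool.Agent.Helper86.DML
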