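import Mathlib
import Pool.Agent.Helper86.DML.Transfer

/-!
# The unramified locus: unit ideal identities
-/

namespace Pool.Agent.Helper86.DML

open MvPolynomial

noncomputable section

section RowDet

variable {n : ℕ} {R : Type*} [CommRing R]

/-- the determinant of the rows `G₁ ∂ G₂ - G₂ ∂ G₁` -/
def rowDet (q : Fin n → MvPolynomial (Fin n) R × MvPolynomial (Fin n) R) : MvPolynomial (Fin n) R :=
  (Matrix.of fun i a => (q i).1 * pderiv a (q i).2 - (q i).2 * pderiv a (q i).1).det

/-- the matrix of the rows at a point -/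
def rowMat (q : Fin n → MvPolynomial (Fin n) R × MvPolynomial (Fin n) R) (y : Fin n → R) :
    Matrix (Fin n) (Fin n) R :=
  Matrix.of fun i a => eval y (q i).1 * eval y (pderiv a (q i).2) -
    eval y (q i).2 * eval y (pderiv a (q i).1)

lemma eval_rowDet (q : Fin n → MvPolynomial (Fin n) R × MvPolynomial (Fin n) R) (y : Fin n → R) :
    eval y (rowDet q) = (rowMat q y).det := by
  rw [rowDet, RingHom.map_det]
  congr 1
  ext i a
  simp [rowMat]

lemma map_rowDet {S : Type*} [CommRing S] (φ : R →+* S)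
    (q : Fin n → MvPolynomial (Fin n) R × MvPolynomial (Fin n) R) :
    map φ (rowDet q) = rowDet (fun i => (map φ (q i).1, map φ (q i).2)) := by
  rw [rowDet, RingHom.map_det, rowDet]
  congr 1
  ext1 i a
  simp [pderiv_map]

lemma rowMat_mulVec (q : Fin n → MvPolynomial (Fin n) R × MvPolynomial (Fin n) R) (y h : Fin n → R)
    (i : Fin n) : (rowMat q y).mulVec h i =
      eval y (q i).1 * dirDeriv y h (q i).2 - eval y (q i).2 * dirDeriv y h (q i).1 := by
  simp only [rowMat, Matrix.mulVec, dotProduct, Matrix.of_apply, dirDeriv, Finset.mul_sum,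
    ← Finset.sum_sub_distrib]
  exact Finset.sum_congr rfl fun a _ => by ring

end RowDet

variable {N : ℕ} {B₀ : Finset (MvPolynomial (Fin (N + 1)) ℂ)}

/-- homogeneous polynomials vanishing on `X` -/
def HomVan (X : Set (PP N)) : Set (MvPolynomial (Fin (N + 1)) ℂ) :=
  {E | (∃ d, E.IsHomogeneous d) ∧ ∀ x ∈ X, eval x.rep E = 0}

/-- index type of the linearised equations -/
abbrev RowIdx (X Y : Set (PP N)) : Type :=
  Option (HomVan X ⊕ (Y × Fin (N + 1) × Fin (N + 1)))

/-- the pairs of polynomials giving the linearised equations -/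
def rowPair (X Y : Set (PP N)) (G : Y → Fin (N + 1) → MvPolynomial (Fin (N + 1)) ℂ)
    (c : Fin (N + 1)) : RowIdx X Y → MvPolynomial (Fin (N + 1)) ℂ × MvPolynomial (Fin (N + 1)) ℂ
  | none => (1, MvPolynomial.X c)
  | some (Sum.inl E) => (1, E.1)
  | some (Sum.inr (y, b, b')) => (G y b, G y b')

/-- the linearised equations have maximal rank at the points where `Φ` is unramified -/
lemma exists_det_unram (X Y : Set (PP N)) (Φ : PP N → PP N)
    (d e : Y → ℕ) (F : Y → Fin (N + 1) → MvPolynomial (Fin (N + 1)) ℂ)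
    (g : Y → MvPolynomial (Fin (N + 1)) ℂ) (hYX : Y ⊆ X)
    (hFd : ∀ y i, (F y i).IsHomogeneous (d y)) (hge : ∀ y, (g y).IsHomogeneous (e y))
    (hgy : ∀ y : Y, eval y.1.rep (g y) ≠ 0)
    (hloc : ∀ y : Y, ∀ x ∈ X, eval x.rep (g y) ≠ 0 →
      (fun i => eval x.rep (F y i)) ≠ 0 ∧ (fun i => eval x.rep (F y i)) ∈ (Φ x).submodule)
    (hun : ∀ y : Y, ∀ h : Fin (N + 1) → ℂ, (∀ E ∈ HomVan X, dirDeriv y.1.rep h E = 0) →
      (fun i => dirDeriv y.1.rep h (F y i)) ∈ (Φ y).submodule → h ∈ y.1.submodule)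
    (x : Y) (v : Fin (N + 1) → ℂ) (hv : v ∈ x.1.submodule) (c : Fin (N + 1)) (hvc : v c ≠ 0) :
    ∃ I : Fin (N + 1) → RowIdx X Y,
      eval v (rowDet fun i => rowPair X Y (fun y b => g y * F y b) c (I i)) ≠ 0 := by
  obtain ⟨lam, rfl⟩ := (mem_submodule_iff x.1 v).mp hv
  have hlam : lam ≠ 0 := by
    rintro rfl
    simp at hvc
  have hrepc : x.1.rep c ≠ 0 := by
    intro h0
    simp [h0] at hvc
  have hder : ∀ (E : MvPolynomial (Fin (N + 1)) ℂ) (k : ℕ), E.IsHomogeneous k →
      ∀ h, dirDeriv (lam • x.1.rep) h E = lam ^ (k - 1) * dirDeriv x.1.rep h E := by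
    intro E k hE h
    simp only [dirDeriv, Finset.mul_sum]
    refine Finset.sum_congr rfl fun a _ => ?_
    rw [eval_smul_hom hE.pderiv]
    ring
  obtain ⟨I, hI⟩ := exists_det_ne_zero (fun (r : RowIdx X Y) a =>
    eval (lam • x.1.rep) (rowPair X Y (fun y b => g y * F y b) c r).1 *
      eval (lam • x.1.rep) (pderiv a (rowPair X Y (fun y b => g y * F y b) c r).2) -
    eval (lam • x.1.rep) (rowPair X Y (fun y b => g y * F y b) c r).2 *
      eval (lam • x.1.rep) (pderiv a (rowPair X Y (fun y b => g y * F y b) c r).1)) (by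
    intro h hh
    have hh' : ∀ r : RowIdx X Y,
        eval (lam • x.1.rep) (rowPair X Y (fun y b => g y * F y b) c r).1 *
          dirDeriv (lam • x.1.rep) h (rowPair X Y (fun y b => g y * F y b) c r).2 -
        eval (lam • x.1.rep) (rowPair X Y (fun y b => g y * F y b) c r).2 *
          dirDeriv (lam • x.1.rep) h (rowPair X Y (fun y b => g y * F y b) c r).1 = 0 := by
      intro r
      rw [← hh r]
      simp only [dirDeriv, Finset.mul_sum, ← Finset.sum_sub_distrib]
      exact Finset.sum_congr rfl fun a _ => by ring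
    have hc0 : h c = 0 := by
      have := hh' none
      simpa [rowPair, dirDeriv_X, dirDeriv_one] using this
    have hE0 : ∀ E ∈ HomVan X, dirDeriv x.1.rep h E = 0 := by
      intro E hE
      have h1 := hh' (some (Sum.inl ⟨E, hE⟩))
      simp only [rowPair, map_one, one_mul, dirDeriv_one, mul_zero, sub_zero] at h1
      obtain ⟨k, hk⟩ := hE.1
      rw [hder E k hk] at h1
      exact (mul_eq_zero.mp h1).resolve_left (pow_ne_zero _ hlam)
    have hF0 : ∀ b b', eval x.1.rep (F x b) * dirDeriv x.1.rep h (F x b') =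
        eval x.1.rep (F x b') * dirDeriv x.1.rep h (F x b) := by
      intro b b'
      have h1 := hh' (some (Sum.inr (x, b, b')))
      simp only [rowPair, map_mul, dirDeriv_mul] at h1
      rw [hder _ _ (hFd x b), hder _ _ (hFd x b'), eval_smul_hom (hFd x b),
        eval_smul_hom (hFd x b'), eval_smul_hom (hge x)] at h1
      have h2 : (lam ^ e x * eval x.1.rep (g x)) ^ 2 * lam ^ d x * lam ^ (d x - 1) *
          (eval x.1.rep (F x b) * dirDeriv x.1.rep h (F x b') -
            eval x.1.rep (F x b') * dirDeriv x.1.rep h (F x b)) = 0 := by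
        linear_combination h1
      have h3 : (lam ^ e x * eval x.1.rep (g x)) ^ 2 * lam ^ d x * lam ^ (d x - 1) ≠ 0 :=
        mul_ne_zero (mul_ne_zero (pow_ne_zero _ (mul_ne_zero (pow_ne_zero _ hlam) (hgy x)))
          (pow_ne_zero _ hlam)) (pow_ne_zero _ hlam)
      exact sub_eq_zero.mp ((mul_eq_zero.mp h2).resolve_left h3)
    obtain ⟨hFne, hFmem⟩ := hloc x x.1 (hYX x.2) (hgy x)
    obtain ⟨b, hb⟩ := Function.ne_iff.mp hFne
    have hmem : (fun i => dirDeriv x.1.rep h (F x i)) ∈ (Φ x).submodule := by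
      have h4 : (fun i => dirDeriv x.1.rep h (F x i)) =
          (dirDeriv x.1.rep h (F x b) / eval x.1.rep (F x b)) • fun i => eval x.1.rep (F x i) := by
        funext i
        have hb' : eval x.1.rep (F x b) ≠ 0 := hb
        simp only [Pi.smul_apply, smul_eq_mul]
        field_simp
        linear_combination hF0 b i
      rw [h4]
      exact Submodule.smul_mem _ _ hFmem
    obtain ⟨mu, hmu⟩ := (mem_submodule_iff _ _).mp (hun x h hE0 hmem)
    have hmu0 : mu = 0 := by
      have := congrFun hmu c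
      rw [hc0, Pi.smul_apply, smul_eq_mul] at this
      exact (mul_eq_zero.mp this.symm).resolve_right hrepc
    rw [hmu, hmu0, zero_smul])
  refine ⟨I, ?_⟩
  rw [eval_rowDet]
  exact hI

end

end Pool.Agent.Helper86.DML
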