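import Mathlib
import Pool.Agent.Helper86.DML.Unram

/-!
# The backward step along the unramified locus
-/

namespace Pool.Agent.Helper86.DML

open MvPolynomial

noncomputable section

variable {N : ℕ} {B₀ : Finset (MvPolynomial (Fin (N + 1)) ℂ)}

/-- equations of the part above `Y` -/
def eqsY (B₀ : Finset (MvPolynomial (Fin (N + 1)) ℂ)) (A D : Set (MvPolynomial (Fin (N + 1)) ℂ)) :
    Set (MvPolynomial (Idx N B₀) ℂ) :=
  eqs B₀ A ∪ {G | ∃ F ∈ D, ∃ j, G = bind₁ (colP B₀ j) F}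

lemma eval_bind₁' {κ τ R : Type*} [CommRing R] (u : τ → R) (f : κ → MvPolynomial τ R)
    (F : MvPolynomial κ R) : eval u (bind₁ f F) = eval (fun i => eval u (f i)) F :=
  eval₂Hom_bind₁ (RingHom.id R) u f F

/-- the determinants of the linearised equations generate the unit ideal above `Y` -/
lemma exists_comb_unram (X Y : Set (PP N)) (A D : Set (MvPolynomial (Fin (N + 1)) ℂ))
    (G : Y → Fin (N + 1) → MvPolynomial (Fin (N + 1)) ℂ)
    (hbelow : ∀ u : Idx N B₀ → ℂ, (∀ H ∈ eqsY B₀ A D, eval u H = 0) → ∃ x ∈ Y, Rep x u)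
    (hdet : ∀ (x : Y) (v : Fin (N + 1) → ℂ), v ∈ x.1.submodule → ∀ c, v c ≠ 0 →
      ∃ I : Fin (N + 1) → RowIdx X Y, eval v (rowDet fun i => rowPair X Y G c (I i)) ≠ 0) :
    ∃ γ : (Fin (N + 1) × Fin (N + 1) × (Fin (N + 1) → RowIdx X Y)) →₀ MvPolynomial (Idx N B₀) ℂ,
      ∀ u : Idx N B₀ → ℂ, (∀ H ∈ eqsY B₀ A D, eval u H = 0) →
        γ.sum (fun l a => eval u a * (eval (u (Sum.inl (l.1, l.2.1)) • col B₀ u l.2.1)
          (rowDet fun i => rowPair X Y G l.1 (l.2.2 i)) * u (Sum.inl (l.1, l.2.1)) ^ 2)) = 1 := by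
  obtain ⟨γ, hγ⟩ := exists_comb (L := Fin (N + 1) × Fin (N + 1) × (Fin (N + 1) → RowIdx X Y))
    (eqsY B₀ A D) (fun l => bind₁ (fun a => MvPolynomial.X (Sum.inl (l.1, l.2.1)) *
      MvPolynomial.X (Sum.inl (a, l.2.1))) (rowDet fun i => rowPair X Y G l.1 (l.2.2 i)) *
      MvPolynomial.X (Sum.inl (l.1, l.2.1)) ^ 2) (by
      intro u hu
      obtain ⟨x, hxY, hx⟩ := hbelow u hu
      obtain ⟨_, h2, _, _⟩ := (mem_zero_iff A u).mp (fun H hH => hu H (Or.inl hH))
      obtain ⟨a, ha⟩ := exists_col_ne h2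
      obtain ⟨I, hI⟩ := hdet ⟨x, hxY⟩ (u (Sum.inl (a, a)) • col B₀ u a)
        (Submodule.smul_mem _ _ (hx a)) a (by
          rw [Pi.smul_apply, smul_eq_mul]
          exact mul_ne_zero ha ha)
      refine ⟨(a, a, I), ?_⟩
      rw [map_mul, map_pow, eval_X, eval_bind₁']
      refine mul_ne_zero ?_ (pow_ne_zero _ ha)
      convert hI using 2
      congr 1
      funext b
      simp [col])
  refine ⟨γ, fun u hu => ?_⟩
  rw [← hγ u hu]
  simp only [Finsupp.sum]
  refine Finset.sum_congr rfl fun l _ => ?_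
  rw [map_mul, map_pow, eval_X, eval_bind₁']
  congr 3
  congr 1
  funext b
  simp [col]

section Points

variable {O Ω : Type*} [CommRing O] [Field Ω] (emb : O →+* Ω) (hemb : Function.Injective emb)
  (σ : ℂ →+* Ω)

/-- the matrix of a point -/
def mat (u : Idx N B₀ → O) : Fin (N + 1) → Fin (N + 1) → O := fun a b => u (Sum.inl (a, b))

/-- `w` satisfies the equations of the variety above `X` -/
def OnX (A : Set (MvPolynomial (Fin (N + 1)) ℂ)) (w : Idx N B₀ → Ω) : Prop :=
  ∀ H ∈ eqs B₀ A, eval w (map σ H) = 0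

variable {σ} in
lemma OnX.minor {A : Set (MvPolynomial (Fin (N + 1)) ℂ)} {w : Idx N B₀ → Ω} (hw : OnX σ A w)
    (a b c d : Fin (N + 1)) :
    w (Sum.inl (a, b)) * w (Sum.inl (c, d)) = w (Sum.inl (a, d)) * w (Sum.inl (c, b)) := by
  have := hw _ (Or.inl (Or.inl (Or.inl ⟨a, b, c, d, rfl⟩)))
  simpa [sub_eq_zero] using this

variable {σ} in
lemma OnX.trace {A : Set (MvPolynomial (Fin (N + 1)) ℂ)} {w : Idx N B₀ → Ω} (hw : OnX σ A w) :
    ∑ a, w (Sum.inl (a, a)) = 1 := by
  have := hw _ (Or.inl (Or.inl (Or.inr rfl)))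
  simpa [sub_eq_zero] using this

include hemb in
lemma OnX.minorO {A : Set (MvPolynomial (Fin (N + 1)) ℂ)} {w : Idx N B₀ → O}
    (hw : OnX σ A (emb ∘ w)) (a b c d : Fin (N + 1)) :
    mat w a b * mat w c d = mat w a d * mat w c b := by
  apply hemb
  rw [map_mul, map_mul]
  exact hw.minor a b c d

include hemb in
lemma OnX.traceO {A : Set (MvPolynomial (Fin (N + 1)) ℂ)} {w : Idx N B₀ → O}
    (hw : OnX σ A (emb ∘ w)) : ∑ a, mat w a a = 1 := by
  apply hemb
  rw [map_sum, map_one]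
  exact hw.trace

lemma eval_map_bind₁ {κ τ : Type*} (w : τ → Ω) (f : κ → MvPolynomial τ ℂ) (F : MvPolynomial κ ℂ) :
    eval w (map σ (bind₁ f F)) = eval (fun i => eval w (map σ (f i))) (map σ F) := by
  rw [map_bind₁, eval_bind₁']

lemma eval_map_colP (w : Idx N B₀ → Ω) (j : Fin (N + 1)) (F : MvPolynomial (Fin (N + 1)) ℂ) :
    eval w (map σ (bind₁ (colP B₀ j) F)) = eval (fun a => w (Sum.inl (a, j))) (map σ F) := by
  rw [eval_map_bind₁]
  congr 2
  funext a
  simp [colP]

variable {σ} in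
/-- combinations of columns are multiples of one column -/
lemma OnX.comb {A : Set (MvPolynomial (Fin (N + 1)) ℂ)} {w : Idx N B₀ → Ω} (hw : OnX σ A w)
    (t : Fin (N + 1) → Ω) : ∃ (μ : Ω) (a : Fin (N + 1)),
      (fun b => ∑ j, w (Sum.inl (b, j)) * t j) = μ • fun b => w (Sum.inl (b, a)) := by
  obtain ⟨a, ha⟩ : ∃ a, w (Sum.inl (a, a)) ≠ 0 := by
    by_contra hcon
    push Not at hcon
    have := hw.trace
    simp [hcon] at this
  refine ⟨(∑ j, t j * w (Sum.inl (a, j))) / w (Sum.inl (a, a)), a, ?_⟩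
  funext b
  rw [Pi.smul_apply, smul_eq_mul, div_mul_eq_mul_div, eq_div_iff ha, Finset.sum_mul, Finset.sum_mul]
  refine Finset.sum_congr rfl fun j _ => ?_
  have := hw.minor a a b j
  linear_combination t j * this

variable {σ} in
lemma OnX.eval_homVan {X : Set (PP N)} {A : Set (MvPolynomial (Fin (N + 1)) ℂ)}
    (hX : ∀ u : Idx N B₀ → ℂ, (∀ H ∈ eqs B₀ A, eval u H = 0) → ∃ x ∈ X, Rep x u)
    {w : Idx N B₀ → Ω} (hw : OnX σ A w) {E : MvPolynomial (Fin (N + 1)) ℂ} (hE : E ∈ HomVan X)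
    (μ : Ω) (a : Fin (N + 1)) : eval (μ • fun b => w (Sum.inl (b, a))) (map σ E) = 0 := by
  obtain ⟨⟨d, hd⟩, hvan⟩ := hE
  rw [eval_smul_hom (hd.map σ), ← eval_map_colP]
  rw [transfer σ (eqs B₀ A) (bind₁ (colP B₀ a) E) _ w hw, mul_zero]
  intro u hu
  obtain ⟨x, hxX, hx⟩ := hX u hu
  rw [eval_colP]
  exact hom_zero (hx a) ⟨d, hd⟩ (hvan x hxX)

variable {σ} in
lemma OnX.eval_loc {A : Set (MvPolynomial (Fin (N + 1)) ℂ)}
    (Φ : PP N → PP N) (Ψ : Idx N B₀ → MvPolynomial (Idx N B₀) ℂ)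
    (hrep : ∀ u : Idx N B₀ → ℂ, (∀ H ∈ eqs B₀ A, eval u H = 0) → ∃ x, Rep x u)
    (hΨ : ∀ u : Idx N B₀ → ℂ, (∀ G ∈ eqs B₀ A, eval u G = 0) → ∀ x : PP N, Rep x u →
        (∀ G ∈ eqs B₀ A, eval (pmap Ψ u) G = 0) ∧ Rep (Φ x) (pmap Ψ u))
    (G : Fin (N + 1) → MvPolynomial (Fin (N + 1)) ℂ) {dG : ℕ} (hG : ∀ b, (G b).IsHomogeneous dG)
    (hGloc : ∀ u : Idx N B₀ → ℂ, (∀ H ∈ eqs B₀ A, eval u H = 0) → ∀ x, Rep x u →
      ∀ v ∈ x.submodule, (fun b => eval v (G b)) ∈ (Φ x).submodule)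
    {w : Idx N B₀ → Ω} (hw : OnX σ A w) (μ : Ω) (m a b j : Fin (N + 1)) :
    eval (μ • fun b => w (Sum.inl (b, m))) (map σ (G b)) *
        eval w (map σ (Ψ (Sum.inl (a, j)))) =
      eval (μ • fun b => w (Sum.inl (b, m))) (map σ (G a)) *
        eval w (map σ (Ψ (Sum.inl (b, j)))) := by
  have h := transfer σ (eqs B₀ A) (bind₁ (colP B₀ m) (G b) * Ψ (Sum.inl (a, j)) -
    bind₁ (colP B₀ m) (G a) * Ψ (Sum.inl (b, j))) (by
      intro u hu
      obtain ⟨x, hx⟩ := hrep u hu
      obtain ⟨_, hΨu⟩ := hΨ u hu x hx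
      obtain ⟨s, hs⟩ := (mem_submodule_iff _ _).mp (hGloc u hu x hx _ (hx m))
      obtain ⟨t, ht⟩ := (mem_submodule_iff _ _).mp (hΨu j)
      have e1 : ∀ a, eval (col B₀ u m) (G a) = s * (Φ x).rep a := fun a => congrFun hs a
      have e2 : ∀ a, eval u (Ψ (Sum.inl (a, j))) = t * (Φ x).rep a := fun a => congrFun ht a
      rw [map_sub, map_mul, map_mul, eval_colP, eval_colP, e1, e1, e2, e2]
      ring) w hw
  rw [map_sub, map_mul, map_mul, map_sub, map_mul, map_mul, eval_map_colP, eval_map_colP] at h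
  rw [eval_smul_hom ((hG b).map σ), eval_smul_hom ((hG a).map σ)]
  linear_combination μ ^ dG * h

include hemb in
/-- the backward step: congruence of the images modulo `p ^ (k + 1)` and of the points modulo
`p ^ k` gives congruence of the points modulo `p ^ (k + 1)`, along the unramified locus -/
theorem back_step [IsDomain O] {p : O} (hp : p ≠ 0) (X Y : Set (PP N))
    (A D : Set (MvPolynomial (Fin (N + 1)) ℂ))
    (Φ : PP N → PP N) (Ψ : Idx N B₀ → MvPolynomial (Idx N B₀) ℂ)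
    (hX : ∀ u : Idx N B₀ → ℂ, (∀ H ∈ eqs B₀ A, eval u H = 0) → ∃ x ∈ X, Rep x u)
    (hΨ : ∀ u : Idx N B₀ → ℂ, (∀ G ∈ eqs B₀ A, eval u G = 0) → ∀ x : PP N, Rep x u →
        (∀ G ∈ eqs B₀ A, eval (pmap Ψ u) G = 0) ∧ Rep (Φ x) (pmap Ψ u))
    (G : Y → Fin (N + 1) → MvPolynomial (Fin (N + 1)) ℂ) (dG : Y → ℕ)
    (hG : ∀ y b, (G y b).IsHomogeneous (dG y))
    (hGloc : ∀ y, ∀ u : Idx N B₀ → ℂ, (∀ H ∈ eqs B₀ A, eval u H = 0) → ∀ x, Rep x u →
      ∀ v ∈ x.submodule, (fun b => eval v (G y b)) ∈ (Φ x).submodule)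
    (γ : (Fin (N + 1) × Fin (N + 1) × (Fin (N + 1) → RowIdx X Y)) →₀ MvPolynomial (Idx N B₀) ℂ)
    (hγ : ∀ u : Idx N B₀ → ℂ, (∀ H ∈ eqsY B₀ A D, eval u H = 0) →
        γ.sum (fun l a => eval u a * (eval (u (Sum.inl (l.1, l.2.1)) • col B₀ u l.2.1)
          (rowDet fun i => rowPair X Y G l.1 (l.2.2 i)) * u (Sum.inl (l.1, l.2.1)) ^ 2)) = 1)
    (Ψ' : Idx N B₀ → MvPolynomial (Idx N B₀) O) (hΨ' : ∀ i, map emb (Ψ' i) = map σ (Ψ i))
    (lift : MvPolynomial (Fin (N + 1)) ℂ → MvPolynomial (Fin (N + 1)) O)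
    (lift' : MvPolynomial (Idx N B₀) ℂ → MvPolynomial (Idx N B₀) O)
    (hl1 : ∀ l ∈ γ.support, map emb (lift' (γ l)) = map σ (γ l))
    (hl2 : ∀ l ∈ γ.support, ∀ i, map emb (lift (rowPair X Y G l.1 (l.2.2 i)).1) =
      map σ (rowPair X Y G l.1 (l.2.2 i)).1 ∧ map emb (lift (rowPair X Y G l.1 (l.2.2 i)).2) =
      map σ (rowPair X Y G l.1 (l.2.2 i)).2)
    (hl3 : ∀ l ∈ γ.support, ∀ i, ∀ y b b', l.2.2 i = some (Sum.inr (y, b, b')) →
      ∀ b'', map emb (lift (G y b'')) = map σ (G y b''))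
    {z x : Idx N B₀ → O} (hz : ∀ H ∈ eqsY B₀ A D, eval (emb ∘ z) (map σ H) = 0)
    (hx : OnX σ A (emb ∘ x)) {k : ℕ} (hk : 1 ≤ k) (h1 : Cong (p ^ k) (mat z) (mat x))
    (h2 : Cong (p ^ (k + 1)) (mat (pmap Ψ' z)) (mat (pmap Ψ' x))) :
    Cong (p ^ (k + 1)) (mat z) (mat x) := by
  have hzX : OnX σ A (emb ∘ z) := fun H hH => hz H (Or.inl hH)
  have hmapinj : Function.Injective (map emb : MvPolynomial (Fin (N + 1)) O → _) :=
    map_injective emb hemb
  -- values of the lift
  have hΨval : ∀ (w : Idx N B₀ → O) i, emb (pmap Ψ' w i) = eval (emb ∘ w) (map σ (Ψ i)) := by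
    intro w i
    rw [← hΨ', pmap, map_eval']
  have hrep : ∀ u : Idx N B₀ → ℂ, (∀ H ∈ eqs B₀ A, eval u H = 0) → ∃ x, Rep x u := by
    intro u hu
    obtain ⟨x, _, hx⟩ := hX u hu
    exact ⟨x, hx⟩
  have hΨX : ∀ w : Idx N B₀ → O, OnX σ A (emb ∘ w) → OnX σ A (emb ∘ pmap Ψ' w) := by
    intro w hw H hH
    have e1 : eval (emb ∘ pmap Ψ' w) (map σ H) = eval (emb ∘ w) (map σ (bind₁ Ψ H)) := by
      rw [eval_map_bind₁]
      congr 2
      funext i
      exact hΨval w i
    rw [e1]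
    refine transfer σ (eqs B₀ A) _ ?_ _ hw
    intro u hu
    obtain ⟨x, hx⟩ := hrep u hu
    rw [eval_bind₁']
    exact (hΨ u hu x hx).1 H hH
  -- the two basic vectors
  have hline1 : ∀ (w : Idx N B₀ → O), OnX σ A (emb ∘ w) → ∀ t : Fin (N + 1) → O,
      ∃ (μ : Ω) (a : Fin (N + 1)), emb ∘ (fun b => ∑ j, mat w b j * t j) =
        μ • fun b => (emb ∘ w) (Sum.inl (b, a)) := by
    intro w hw t
    obtain ⟨μ, a, h⟩ := hw.comb (emb ∘ t)
    refine ⟨μ, a, ?_⟩
    rw [← h]
    funext b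
    simp [mat]
  have hE : ∀ (w : Idx N B₀ → O), OnX σ A (emb ∘ w) → ∀ t : Fin (N + 1) → O,
      ∀ E ∈ HomVan X, ∀ E' : MvPolynomial (Fin (N + 1)) O, map emb E' = map σ E →
        eval (fun b => ∑ j, mat w b j * t j) E' = 0 := by
    intro w hw t E hEX E' hE'
    apply hemb
    obtain ⟨μ, a, h⟩ := hline1 w hw t
    rw [map_eval', hE', h, map_zero]
    exact hw.eval_homVan hX hEX μ a
  have hGl : ∀ (w : Idx N B₀ → O), OnX σ A (emb ∘ w) → ∀ t : Fin (N + 1) → O,
      ∀ y : Y, ∀ G' : Fin (N + 1) → MvPolynomial (Fin (N + 1)) O,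
        (∀ b, map emb (G' b) = map σ (G y b)) → ∀ b,
        eval (fun b => ∑ j, mat w b j * t j) (G' b) =
          ∑ a, eval (fun b => ∑ j, mat w b j * t j) (G' a) * mat (pmap Ψ' w) b a := by
    intro w hw t y G' hG' b
    obtain ⟨μ, m, h⟩ := hline1 w hw t
    have h3 : ∀ a, eval (fun b => ∑ j, mat w b j * t j) (G' b) * mat (pmap Ψ' w) a a =
        eval (fun b => ∑ j, mat w b j * t j) (G' a) * mat (pmap Ψ' w) b a := by
      intro a
      apply hemb
      rw [map_mul, map_mul, map_eval', map_eval', hG', hG', h]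
      have e1 : emb (mat (pmap Ψ' w) a a) = eval (emb ∘ w) (map σ (Ψ (Sum.inl (a, a)))) :=
        hΨval w _
      have e2 : emb (mat (pmap Ψ' w) b a) = eval (emb ∘ w) (map σ (Ψ (Sum.inl (b, a)))) :=
        hΨval w _
      rw [e1, e2]
      exact hw.eval_loc Φ Ψ hrep hΨ (G y) (hG y) (hGloc y) μ m a b a
    rw [← Finset.sum_congr rfl (fun a _ => h3 a), ← Finset.mul_sum,
      (hΨX w hw).traceO emb hemb σ, mul_one]
  have hδval : ∀ l ∈ γ.support, emb (eval (fun b => mat z l.1 l.2.1 * mat z b l.2.1)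
      (rowDet fun i => (lift (rowPair X Y G l.1 (l.2.2 i)).1,
        lift (rowPair X Y G l.1 (l.2.2 i)).2))) =
      eval (fun b => emb (mat z l.1 l.2.1 * mat z b l.2.1))
        (map σ (rowDet fun i => rowPair X Y G l.1 (l.2.2 i))) := by
    intro l hl
    rw [map_eval', map_rowDet, map_rowDet]
    congr 2
    funext i
    rw [(hl2 l hl i).1, (hl2 l hl i).2]
  refine back_core hp (hzX.minorO emb hemb σ) (hx.minorO emb hemb σ) (hzX.traceO emb hemb σ)
    (hx.traceO emb hemb σ) hk h1 γ.support (fun l => eval z (lift' (γ l)))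
    (fun l => eval (fun b => mat z l.1 l.2.1 * mat z b l.2.1)
      (rowDet fun i => (lift (rowPair X Y G l.1 (l.2.2 i)).1,
        lift (rowPair X Y G l.1 (l.2.2 i)).2))) (fun l => l.1) (fun l => l.2.1) ?_ ?_
  · -- the unit ideal identity at `z`
    have h := transfer σ (eqsY B₀ A D) (γ.sum (fun l a => a * (bind₁ (fun b =>
      MvPolynomial.X (Sum.inl (l.1, l.2.1)) * MvPolynomial.X (Sum.inl (b, l.2.1)))
      (rowDet fun i => rowPair X Y G l.1 (l.2.2 i)) *
      MvPolynomial.X (Sum.inl (l.1, l.2.1)) ^ 2)) - 1) (by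
        intro u hu
        rw [map_sub, map_one, sub_eq_zero, ← hγ u hu]
        simp only [Finsupp.sum, map_sum, map_mul, map_pow, eval_X]
        refine Finset.sum_congr rfl fun l _ => ?_
        rw [eval_bind₁']
        congr 3
        congr 1
        funext b
        simp [col]) (emb ∘ z) hz
    rw [map_sub, map_one, map_sub, map_one, sub_eq_zero] at h
    apply hemb
    rw [map_one, ← h]
    simp only [Finsupp.sum, map_sum, map_mul, map_pow, map_X, eval_X]
    refine Finset.sum_congr rfl fun l hl => ?_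
    rw [hδval l hl, map_eval', hl1 l hl, eval_map_bind₁]
    congr 3
    congr 1
    funext b
    simp [mat]
  · intro l hl h hh b
    rw [eval_rowDet]
    refine det_mul_dvd _ h p ?_ b
    intro i
    rw [rowMat_mulVec]
    set c := l.1 with hc
    set m := l.2.1 with hm
    set S : O := ∑ y, mat x c y * mat z y m with hS
    have ht1 : (fun b => ∑ j, mat z b j * (Pi.single m S : Fin (N + 1) → O) j) =
        fun b => S * mat z b m := by
      funext b
      rw [Finset.sum_eq_single m]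
      · rw [Pi.single_eq_same]; ring
      · intro j _ hj
        rw [Pi.single_eq_of_ne hj, mul_zero]
      · simp
    have ht2 : (fun b => ∑ j, mat x b j * (mat z c m * mat z j m)) =
        fun b => mat z c m * ∑ y, mat x b y * mat z y m := by
      funext b
      rw [Finset.mul_sum]
      exact Finset.sum_congr rfl fun j _ => by ring
    have hstar : p ^ (k + 1) ∣
        eval (fun b => S * mat z b m) (lift (rowPair X Y G c (l.2.2 i)).1) *
          eval (fun b => mat z c m * ∑ y, mat x b y * mat z y m)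
            (lift (rowPair X Y G c (l.2.2 i)).2) -
        eval (fun b => S * mat z b m) (lift (rowPair X Y G c (l.2.2 i)).2) *
          eval (fun b => mat z c m * ∑ y, mat x b y * mat z y m)
            (lift (rowPair X Y G c (l.2.2 i)).1) := by
      have hl2i := hl2 l hl i
      have hl3i := hl3 l hl i
      rcases hr : l.2.2 i with _ | E | ⟨y, b, b'⟩
      · rw [hr] at hl2i
        have e1 : lift (rowPair X Y G c none).1 = 1 := by
          apply hmapinj
          rw [hl2i.1]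
          simp [rowPair]
        have e2 : lift (rowPair X Y G c none).2 = MvPolynomial.X c := by
          apply hmapinj
          rw [hl2i.2]
          simp [rowPair, hc]
        rw [e1, e2, map_one, map_one, eval_X, eval_X, one_mul, mul_one, ← hS]
        have : mat z c m * S - S * mat z c m = 0 := by ring
        rw [this]
        exact dvd_zero _
      · rw [hr] at hl2i
        have e1 : lift (rowPair X Y G c (some (Sum.inl E))).1 = 1 := by
          apply hmapinj
          rw [hl2i.1]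
          simp [rowPair]
        have e2 := hE z hzX (Pi.single m S) E.1 E.2 _ hl2i.2
        have e3 := hE x hx (fun j => mat z c m * mat z j m) E.1 E.2 _ hl2i.2
        rw [ht1, ← hc] at e2
        rw [ht2, ← hc] at e3
        rw [e1, map_one, map_one, one_mul, mul_one, e2, e3, sub_zero]
        exact dvd_zero _
      · have hlG := hl3i y b b' hr
        have e1 : ∀ b, eval (fun b => S * mat z b m) (lift (G y b)) =
            ∑ a, eval (fun b => S * mat z b m) (lift (G y a)) * mat (pmap Ψ' z) b a := by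
          intro b
          have := hGl z hzX (Pi.single m S) y (fun b => lift (G y b)) hlG b
          rwa [ht1] at this
        have e2 : ∀ b, eval (fun b => mat z c m * ∑ y, mat x b y * mat z y m) (lift (G y b)) =
            ∑ a, eval (fun b => mat z c m * ∑ y, mat x b y * mat z y m) (lift (G y a)) *
              mat (pmap Ψ' x) b a := by
          intro b
          have := hGl x hx (fun j => mat z c m * mat z j m) y (fun b => lift (G y b)) hlG b
          rwa [ht2] at this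
        simp only [rowPair]
        rw [e1 b, e2 b', e1 b', e2 b, Finset.sum_mul_sum, Finset.sum_mul_sum,
          ← Finset.sum_sub_distrib]
        refine Finset.dvd_sum fun a _ => ?_
        rw [← Finset.sum_sub_distrib]
        refine Finset.dvd_sum fun a' _ => ?_
        have h3 := h2 b b' a a'
        have h4 := Dvd.dvd.mul_left h3 (eval (fun b => S * mat z b m) (lift (G y a)) *
          eval (fun b => mat z c m * ∑ y, mat x b y * mat z y m) (lift (G y a')))
        convert h4 using 1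
        ring
    refine row2_dvd hp hk ?_ ?_ hstar
    · intro j
      have e1 : mat z c m * mat z j m - S * mat z j m =
          (∑ y, (mat z c m * mat x y y - mat z y m * mat x c y)) * mat z j m := by
        rw [Finset.sum_sub_distrib, ← Finset.mul_sum, hx.traceO emb hemb σ, hS, mul_one]
        have : ∑ y, mat z y m * mat x c y = ∑ y, mat x c y * mat z y m :=
          Finset.sum_congr rfl fun y _ => mul_comm _ _
        rw [this]
        ring
      rw [e1]
      refine Dvd.dvd.mul_right (Finset.dvd_sum fun y _ => ?_) _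
      exact (dvd_pow_self p (by omega)).trans (h1 c y m y)
    · funext j
      rw [Pi.add_apply, Pi.smul_apply, smul_eq_mul, hh j]
      ring

end Points

end

end Pool.Agent.Helper86.DML
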