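import Mathlib
import Pool.Agent.Helper86.DML.LocalField

/-!
# Approximation of sequences by exponential polynomials
-/

namespace Pool.Agent.Helper86.DML

open Polynomial

noncomputable section

variable {L : Type*} [NormedField L] [IsUltrametricDist L] [CharZero L]

/-- basic exponential polynomials -/
def epf (d : ℕ) (μ : L) : ℕ → L := fun k => (k : L) ^ d * μ ^ k

variable (L) in
/-- exponential polynomials -/
def EP : Submodule L (ℕ → L) := Submodule.span L {f | ∃ (d : ℕ) (μ : L), μ ≠ 0 ∧ f = epf d μ}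

lemma epf_mem (d : ℕ) {μ : L} (hμ : μ ≠ 0) : epf d μ ∈ EP L :=
  Submodule.subset_span ⟨d, μ, hμ, rfl⟩

lemma EP_const (c : L) : (fun _ => c) ∈ EP L := by
  have : (fun _ : ℕ => c) = c • epf 0 (1 : L) := by
    funext k
    simp [epf]
  rw [this]
  exact (EP L).smul_mem _ (epf_mem 0 one_ne_zero)

lemma EP_mul {e f : ℕ → L} (he : e ∈ EP L) (hf : f ∈ EP L) : e * f ∈ EP L := by
  induction he using Submodule.span_induction with
  | mem x hx =>
    obtain ⟨d, μ, hμ, rfl⟩ := hx
    induction hf using Submodule.span_induction with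
    | mem y hy =>
      obtain ⟨d', μ', hμ', rfl⟩ := hy
      have : epf d μ * epf d' μ' = epf (d + d') (μ * μ') := by
        funext k
        simp only [Pi.mul_apply, epf, mul_pow]
        ring
      rw [this]
      exact epf_mem _ (mul_ne_zero hμ hμ')
    | zero => rw [mul_zero]; exact (EP L).zero_mem
    | add x y _ _ hx hy => rw [mul_add]; exact (EP L).add_mem hx hy
    | smul a x _ hx => rw [mul_smul_comm]; exact (EP L).smul_mem _ hx
  | zero => rw [zero_mul]; exact (EP L).zero_mem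
  | add x y _ _ hx hy => rw [add_mul]; exact (EP L).add_mem hx hy
  | smul a x _ hx => rw [smul_mul_assoc]; exact (EP L).smul_mem _ hx

variable (L) in
/-- the shift operator -/
def shiftOp : Module.End L (ℕ → L) where
  toFun a := fun k => a (k + 1)
  map_add' _ _ := rfl
  map_smul' _ _ := rfl

lemma shiftOp_apply (a : ℕ → L) (k : ℕ) : shiftOp L a k = a (k + 1) := rfl

lemma epf_succ (d : ℕ) (μ : L) : shiftOp L (epf d μ) =
    μ • epf d μ + ∑ j ∈ Finset.range d, ((d.choose j : L) * μ) • epf j μ := by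
  funext k
  simp only [shiftOp_apply, epf, Pi.add_apply, Pi.smul_apply, smul_eq_mul, Finset.sum_apply]
  push_cast
  rw [add_pow, Finset.sum_range_succ, add_mul, Finset.sum_mul, add_comm]
  congr 1
  · simp only [Nat.choose_self, Nat.sub_self, Nat.cast_one, mul_one]
    rw [pow_succ]
    ring
  · refine Finset.sum_congr rfl fun j _ => ?_
    rw [pow_succ]
    ring

lemma EP_shift {e : ℕ → L} (he : e ∈ EP L) : shiftOp L e ∈ EP L := by
  induction he using Submodule.span_induction with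
  | mem x hx =>
    obtain ⟨d, μ, hμ, rfl⟩ := hx
    rw [epf_succ]
    refine (EP L).add_mem ((EP L).smul_mem _ (epf_mem d hμ)) ((EP L).sum_mem fun j _ => ?_)
    exact (EP L).smul_mem _ (epf_mem j hμ)
  | zero => rw [map_zero]; exact (EP L).zero_mem
  | add x y _ _ hx hy => rw [map_add]; exact (EP L).add_mem hx hy
  | smul a x _ hx => rw [map_smul]; exact (EP L).smul_mem _ hx

/-- solving first order difference equations in exponential polynomials -/
lemma EP_solve (lam : L) {e : ℕ → L} (he : e ∈ EP L) :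
    ∃ e' ∈ EP L, shiftOp L e' - lam • e' = e := by
  induction he using Submodule.span_induction with
  | mem x hx =>
    obtain ⟨d, μ, hμ, rfl⟩ := hx
    induction d using Nat.strong_induction_on with
    | _ d ih =>
      choose! s hs1 hs2 using ih
      by_cases hlam : μ = lam
      · subst hlam
        have hd : ((d : L) + 1) * μ ≠ 0 := mul_ne_zero (by exact_mod_cast Nat.succ_ne_zero d) hμ
        refine ⟨(((d : L) + 1) * μ)⁻¹ • (epf (d + 1) μ -
          ∑ j ∈ Finset.range d, (((d + 1).choose j : L) * μ) • s j), ?_, ?_⟩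
        · refine (EP L).smul_mem _ ((EP L).sub_mem (epf_mem _ hμ) ((EP L).sum_mem fun j hj => ?_))
          exact (EP L).smul_mem _ (hs1 j (Finset.mem_range.mp hj))
        · have h1 : shiftOp L (epf (d + 1) μ) - μ • epf (d + 1) μ =
              (((d : L) + 1) * μ) • epf d μ +
              ∑ j ∈ Finset.range d, (((d + 1).choose j : L) * μ) • epf j μ := by
            rw [epf_succ, add_sub_cancel_left, Finset.sum_range_succ, add_comm]
            congr 2
            rw [Nat.choose_succ_self_right]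
            push_cast
            ring
          have h2 : ∑ j ∈ Finset.range d, (((d + 1).choose j : L) * μ) • epf j μ =
              ∑ j ∈ Finset.range d, (((d + 1).choose j : L) * μ) • (shiftOp L (s j) - μ • s j) :=
            Finset.sum_congr rfl fun j hj => by rw [hs2 j (Finset.mem_range.mp hj)]
          have h3 : shiftOp L (∑ j ∈ Finset.range d, (((d + 1).choose j : L) * μ) • s j) -
              μ • (∑ j ∈ Finset.range d, (((d + 1).choose j : L) * μ) • s j) =
              ∑ j ∈ Finset.range d, (((d + 1).choose j : L) * μ) • (shiftOp L (s j) - μ • s j) := by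
            rw [map_sum, Finset.smul_sum, ← Finset.sum_sub_distrib]
            refine Finset.sum_congr rfl fun j _ => ?_
            rw [map_smul, smul_sub, smul_comm]
          rw [map_smul, smul_comm μ, ← smul_sub, map_sub, smul_sub μ, sub_sub_sub_comm, h1, h3, h2,
            add_sub_cancel_right, smul_smul, inv_mul_cancel₀ hd, one_smul]
      · have hd : μ - lam ≠ 0 := sub_ne_zero.mpr hlam
        refine ⟨(μ - lam)⁻¹ • (epf d μ -
          ∑ j ∈ Finset.range d, ((d.choose j : L) * μ) • s j), ?_, ?_⟩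
        · refine (EP L).smul_mem _ ((EP L).sub_mem (epf_mem _ hμ) ((EP L).sum_mem fun j hj => ?_))
          exact (EP L).smul_mem _ (hs1 j (Finset.mem_range.mp hj))
        · have h1 : shiftOp L (epf d μ) - lam • epf d μ =
              (μ - lam) • epf d μ +
              ∑ j ∈ Finset.range d, ((d.choose j : L) * μ) • epf j μ := by
            rw [epf_succ, sub_smul]
            abel
          have h2 : ∑ j ∈ Finset.range d, ((d.choose j : L) * μ) • epf j μ =
              ∑ j ∈ Finset.range d, ((d.choose j : L) * μ) • (shiftOp L (s j) - lam • s j) :=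
            Finset.sum_congr rfl fun j hj => by rw [hs2 j (Finset.mem_range.mp hj)]
          have h3 : shiftOp L (∑ j ∈ Finset.range d, ((d.choose j : L) * μ) • s j) -
              lam • (∑ j ∈ Finset.range d, ((d.choose j : L) * μ) • s j) =
              ∑ j ∈ Finset.range d, ((d.choose j : L) * μ) • (shiftOp L (s j) - lam • s j) := by
            rw [map_sum, Finset.smul_sum, ← Finset.sum_sub_distrib]
            refine Finset.sum_congr rfl fun j _ => ?_
            rw [map_smul, smul_sub, smul_comm]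
          rw [map_smul, smul_comm lam, ← smul_sub, map_sub, smul_sub lam, sub_sub_sub_comm, h1, h3,
            h2, add_sub_cancel_right, smul_smul, inv_mul_cancel₀ hd, one_smul]
  | zero => exact ⟨0, (EP L).zero_mem, by simp⟩
  | add x y _ _ hx hy =>
    obtain ⟨x', hx1, hx2⟩ := hx
    obtain ⟨y', hy1, hy2⟩ := hy
    refine ⟨x' + y', (EP L).add_mem hx1 hy1, ?_⟩
    rw [map_add, smul_add, add_sub_add_comm, hx2, hy2]
  | smul a x _ hx =>
    obtain ⟨x', hx1, hx2⟩ := hx
    refine ⟨a • x', (EP L).smul_mem _ hx1, ?_⟩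
    rw [map_smul, smul_comm lam, ← smul_sub, hx2]

/-- bounded by a multiple of `ρ ^ k` -/
def OO (ρ : ℝ) (a : ℕ → L) : Prop := ∃ C : ℝ, ∀ k, ‖a k‖ ≤ C * ρ ^ k

lemma OO.nonneg {ρ : ℝ} {a : ℕ → L} (h : OO ρ a) : ∃ C : ℝ, 0 ≤ C ∧ ∀ k, ‖a k‖ ≤ C * ρ ^ k := by
  obtain ⟨C, hC⟩ := h
  refine ⟨C, ?_, hC⟩
  have := (norm_nonneg _).trans (hC 0)
  simpa using this

lemma OO.add {ρ : ℝ} (hρ : 0 ≤ ρ) {a b : ℕ → L} (ha : OO ρ a) (hb : OO ρ b) : OO ρ (a + b) := by
  obtain ⟨C, hC⟩ := ha
  obtain ⟨C', hC'⟩ := hb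
  refine ⟨max C C', fun k => (IsUltrametricDist.norm_add_le_max _ _).trans (max_le ?_ ?_)⟩
  · exact (hC k).trans (by gcongr; exact le_max_left _ _)
  · exact (hC' k).trans (by gcongr; exact le_max_right _ _)

lemma OO.mul {ρ ρ' : ℝ} {a b : ℕ → L} (ha : OO ρ a) (hb : OO ρ' b) : OO (ρ * ρ') (a * b) := by
  obtain ⟨C, hC0, hC⟩ := ha.nonneg
  obtain ⟨C', hC0', hC'⟩ := hb.nonneg
  refine ⟨C * C', fun k => ?_⟩
  rw [Pi.mul_apply, norm_mul, mul_pow]
  calc ‖a k‖ * ‖b k‖ ≤ (C * ρ ^ k) * (C' * ρ' ^ k) :=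
        mul_le_mul (hC k) (hC' k) (norm_nonneg _) ((norm_nonneg _).trans (hC k))
    _ = _ := by ring

lemma OO.smul {ρ : ℝ} {a : ℕ → L} (ha : OO ρ a) (c : L) : OO ρ (c • a) := by
  obtain ⟨C, hC⟩ := ha
  refine ⟨‖c‖ * C, fun k => ?_⟩
  rw [Pi.smul_apply, smul_eq_mul, norm_mul, mul_assoc]
  exact mul_le_mul_of_nonneg_left (hC k) (norm_nonneg _)

lemma OO.mono {ρ ρ' : ℝ} (hρ : 0 ≤ ρ) (hρρ' : ρ ≤ ρ') {a : ℕ → L} (ha : OO ρ a) : OO ρ' a := by
  obtain ⟨C, hC0, hC⟩ := ha.nonneg
  exact ⟨C, fun k => (hC k).trans (by gcongr)⟩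

lemma OO.zero {ρ : ℝ} : OO ρ (0 : ℕ → L) := ⟨0, fun k => by simp⟩

lemma OO.shift {ρ : ℝ} {a : ℕ → L} (ha : OO ρ a) : OO ρ (shiftOp L a) := by
  obtain ⟨C, hC⟩ := ha
  refine ⟨C * ρ, fun k => ?_⟩
  have := hC (k + 1)
  rw [pow_succ'] at this
  rw [shiftOp_apply, mul_assoc]
  exact this

variable (L) in
/-- sequences approximated by exponential polynomials up to `O(ρ ^ k)` -/
def ApxM (ρ : ℝ) (hρ : 0 ≤ ρ) : Submodule L (ℕ → L) where
  carrier := {a | ∃ e ∈ EP L, OO ρ (a - e)}
  add_mem' := by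
    rintro a b ⟨e, he, hae⟩ ⟨f, hf, hbf⟩
    refine ⟨e + f, (EP L).add_mem he hf, ?_⟩
    rw [add_sub_add_comm]
    exact hae.add hρ hbf
  zero_mem' := ⟨0, (EP L).zero_mem, by rw [sub_zero]; exact OO.zero⟩
  smul_mem' := by
    rintro c a ⟨e, he, hae⟩
    refine ⟨c • e, (EP L).smul_mem _ he, ?_⟩
    rw [← smul_sub]
    exact hae.smul c

lemma mem_ApxM {ρ : ℝ} {hρ : 0 ≤ ρ} {a : ℕ → L} : a ∈ ApxM L ρ hρ ↔ ∃ e ∈ EP L, OO ρ (a - e) :=
  Iff.rfl

lemma ApxM_of_OO {ρ : ℝ} {hρ : 0 ≤ ρ} {a : ℕ → L} (h : OO ρ a) : a ∈ ApxM L ρ hρ :=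
  ⟨0, (EP L).zero_mem, by rwa [sub_zero]⟩

lemma ApxM_of_EP {ρ : ℝ} {hρ : 0 ≤ ρ} {a : ℕ → L} (h : a ∈ EP L) : a ∈ ApxM L ρ hρ :=
  ⟨a, h, by rw [sub_self]; exact OO.zero⟩

lemma ApxM_mono {ρ ρ' : ℝ} {hρ : 0 ≤ ρ} {hρ' : 0 ≤ ρ'} (h : ρ ≤ ρ') {a : ℕ → L}
    (ha : a ∈ ApxM L ρ hρ) : a ∈ ApxM L ρ' hρ' := by
  obtain ⟨e, he, hae⟩ := ha
  exact ⟨e, he, hae.mono hρ h⟩

lemma ApxM_shift {ρ : ℝ} {hρ : 0 ≤ ρ} {a : ℕ → L} (ha : a ∈ ApxM L ρ hρ) :
    shiftOp L a ∈ ApxM L ρ hρ := by
  obtain ⟨e, he, hae⟩ := ha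
  refine ⟨shiftOp L e, EP_shift he, ?_⟩
  rw [← map_sub]
  exact hae.shift

lemma ApxM_aeval {ρ : ℝ} {hρ : 0 ≤ ρ} {a : ℕ → L} (ha : a ∈ ApxM L ρ hρ) (P : L[X]) :
    aeval (shiftOp L) P a ∈ ApxM L ρ hρ := by
  induction P using Polynomial.induction_on' with
  | add p q hp hq =>
    rw [map_add, LinearMap.add_apply]
    exact (ApxM L ρ hρ).add_mem hp hq
  | monomial n c =>
    rw [aeval_monomial, Module.End.mul_apply]
    have : ∀ n, ((shiftOp L) ^ n) a ∈ ApxM L ρ hρ := by
      intro n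
      induction n with
      | zero => simpa using ha
      | succ n ih =>
        rw [pow_succ', Module.End.mul_apply]
        exact ApxM_shift ih
    rw [Module.algebraMap_end_apply]
    exact (ApxM L ρ hρ).smul_mem _ (this n)

variable [CompleteSpace L]

/-- first order difference equations with small right hand side -/
lemma solve_small {ρ : ℝ} (hρ : 0 < ρ) (lam : L) {a : ℕ → L}
    (h : OO ρ (shiftOp L a - lam • a)) : ∃ e ∈ EP L, OO ρ (a - e) := by
  obtain ⟨C, hC0, hC⟩ := h.nonneg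
  have hCk : ∀ k, ‖a (k + 1) - lam * a k‖ ≤ C * ρ ^ k := hC
  by_cases hlam : ‖lam‖ ≤ ρ
  · refine ⟨0, (EP L).zero_mem, max ‖a 0‖ (C / ρ), fun k => ?_⟩
    rw [sub_zero]
    induction k with
    | zero => rw [pow_zero, mul_one]; exact le_max_left _ _
    | succ k ih =>
      have h1 : a (k + 1) = (a (k + 1) - lam * a k) + lam * a k := by ring
      rw [h1]
      refine (IsUltrametricDist.norm_add_le_max _ _).trans (max_le ?_ ?_)
      · calc _ ≤ C * ρ ^ k := hCk k
          _ = (C / ρ) * ρ ^ (k + 1) := by rw [pow_succ]; field_simp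
          _ ≤ _ := by gcongr; exact le_max_right _ _
      · rw [norm_mul, pow_succ]
        calc ‖lam‖ * ‖a k‖ ≤ ρ * (max ‖a 0‖ (C / ρ) * ρ ^ k) := by gcongr
          _ = _ := by ring
  · push Not at hlam
    have hlam0 : 0 < ‖lam‖ := hρ.trans hlam
    have hlamne : lam ≠ 0 := norm_pos_iff.mp hlam0
    let s : ℕ → L := fun k => a k * lam⁻¹ ^ k
    have hs : ∀ k, dist (s k) (s (k + 1)) ≤ (C / ‖lam‖) * (ρ / ‖lam‖) ^ k := by
      intro k
      rw [dist_eq_norm', ]
      have h1 : s (k + 1) - s k = (a (k + 1) - lam * a k) * lam⁻¹ ^ (k + 1) := by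
        simp only [s]
        have : lam * lam⁻¹ = 1 := mul_inv_cancel₀ hlamne
        rw [pow_succ]
        linear_combination (a k * lam⁻¹ ^ k) * this
      rw [h1, norm_mul, norm_pow, norm_inv]
      calc _ ≤ (C * ρ ^ k) * ‖lam‖⁻¹ ^ (k + 1) := by gcongr; exact hCk k
        _ = _ := by
          rw [div_pow, pow_succ, inv_pow]
          field_simp
    have hr : ρ / ‖lam‖ < 1 := (div_lt_one hlam0).mpr hlam
    obtain ⟨c, hc⟩ := cauchySeq_tendsto_of_complete (cauchySeq_of_le_geometric _ _ hr hs)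
    have hdist := dist_le_of_le_geometric_of_tendsto _ _ hr hs hc
    refine ⟨c • epf 0 lam, (EP L).smul_mem _ (epf_mem 0 hlamne),
      (C / ‖lam‖) / (1 - ρ / ‖lam‖), fun k => ?_⟩
    have h1 := hdist k
    rw [dist_eq_norm] at h1
    have h2 : (a - c • epf 0 lam) k = (s k - c) * lam ^ k := by
      simp only [Pi.sub_apply, Pi.smul_apply, smul_eq_mul, epf, pow_zero, one_mul, s]
      have : lam⁻¹ ^ k * lam ^ k = 1 := by rw [← mul_pow, inv_mul_cancel₀ hlamne, one_pow]
      linear_combination (- a k) * this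
    rw [h2, norm_mul, norm_pow]
    calc _ ≤ ((C / ‖lam‖) * (ρ / ‖lam‖) ^ k / (1 - ρ / ‖lam‖)) * ‖lam‖ ^ k := by gcongr
      _ = _ := by
        rw [div_pow]
        have h3 : ‖lam‖ ^ k ≠ 0 := pow_ne_zero _ hlam0.ne'
        field_simp

lemma ApxM_solve {ρ : ℝ} (hρ : 0 < ρ) (lam : L) {a : ℕ → L}
    (h : shiftOp L a - lam • a ∈ ApxM L ρ hρ.le) : a ∈ ApxM L ρ hρ.le := by
  obtain ⟨e, he, hae⟩ := h
  obtain ⟨e', he', hee'⟩ := EP_solve lam he
  obtain ⟨f, hf, haf⟩ := solve_small hρ lam (a := a - e') (by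
    have : shiftOp L (a - e') - lam • (a - e') =
        (shiftOp L a - lam • a) - (shiftOp L e' - lam • e') := by
      rw [map_sub, smul_sub]
      abel
    rw [this, hee']
    exact hae)
  refine ⟨e' + f, (EP L).add_mem he' hf, ?_⟩
  rw [← sub_sub]
  exact haf

lemma ApxM_of_splits {ρ : ℝ} (hρ : 0 < ρ) (s : Multiset L) {a : ℕ → L}
    (h : aeval (shiftOp L) (s.map fun x => X - C x).prod a ∈ ApxM L ρ hρ.le) :
    a ∈ ApxM L ρ hρ.le := by
  induction s using Multiset.induction_on with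
  | empty => simpa using h
  | cons x s ih =>
    apply ih
    rw [Multiset.map_cons, Multiset.prod_cons, aeval_mul, Module.End.mul_apply] at h
    apply ApxM_solve hρ x
    rw [map_sub, aeval_X, aeval_C] at h
    exact h

/-- linear systems with exponential polynomial right hand side -/
lemma ApxM_linear {ρ : ℝ} (hρ : 0 < ρ) {n : Type*} [Fintype n] [DecidableEq n] (D : Matrix n n L)
    (hD : D.charpoly.Splits) (δ : n → ℕ → L)
    (h : ∀ i, shiftOp L (δ i) - ∑ j, D i j • δ j ∈ ApxM L ρ hρ.le) (l : n) :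
    δ l ∈ ApxM L ρ hρ.le := by
  have h1 : ∀ i, ∑ j, aeval (shiftOp L) (D.charmatrix i j) (δ j) =
      shiftOp L (δ i) - ∑ j, D i j • δ j := by
    intro i
    have : ∀ j, aeval (shiftOp L) (D.charmatrix i j) (δ j) =
        (if i = j then shiftOp L (δ j) else 0) - D i j • δ j := by
      intro j
      rw [Matrix.charmatrix_apply, map_sub, LinearMap.sub_apply, aeval_C,
        Module.algebraMap_end_apply, Matrix.diagonal_apply]
      split_ifs
      · rw [aeval_X]
      · rw [map_zero, LinearMap.zero_apply]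
    simp only [this, Finset.sum_sub_distrib, Finset.sum_ite_eq, Finset.mem_univ, if_true]
  have h2 : ∑ i, aeval (shiftOp L) (D.charmatrix.adjugate l i)
      (shiftOp L (δ i) - ∑ j, D i j • δ j) = aeval (shiftOp L) D.charpoly (δ l) := by
    simp only [← h1, map_sum]
    rw [Finset.sum_comm]
    have h3 : ∀ j, ∑ i, aeval (shiftOp L) (D.charmatrix.adjugate l i)
        (aeval (shiftOp L) (D.charmatrix i j) (δ j)) =
        aeval (shiftOp L) ((D.charmatrix.adjugate * D.charmatrix) l j) (δ j) := by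
      intro j
      rw [Matrix.mul_apply, map_sum, LinearMap.sum_apply]
      refine Finset.sum_congr rfl fun i _ => ?_
      rw [aeval_mul, Module.End.mul_apply]
    simp only [h3, Matrix.adjugate_mul]
    rw [Finset.sum_eq_single l]
    · simp [Matrix.charpoly]
    · intro j _ hj
      simp [Matrix.one_apply_ne hj.symm]
    · simp
  have h4 : aeval (shiftOp L) D.charpoly (δ l) ∈ ApxM L ρ hρ.le := by
    rw [← h2]
    exact (ApxM L ρ hρ.le).sum_mem fun i _ => ApxM_aeval (h i) _
  rw [hD.eq_prod_roots, (Matrix.charpoly_monic D).leadingCoeff, map_one, one_mul] at h4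
  exact ApxM_of_splits hρ _ h4

end

end Pool.Agent.Helper86.DML
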