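import Mathlib
import Pool.Agent.Helper86.DML.ExpPoly

/-!
# Exponential polynomial expansions along an orbit converging to a fixed point
-/

namespace Pool.Agent.Helper86.DML

open MvPolynomial

noncomputable section

variable {L : Type*} [NormedField L] [IsUltrametricDist L] [CharZero L]

lemma OO.mul_le {ρ ρ' ρ'' : ℝ} (hρ : 0 ≤ ρ) (hρ' : 0 ≤ ρ') (h : ρ * ρ' ≤ ρ'') {a b : ℕ → L}
    (ha : OO ρ a) (hb : OO ρ' b) : OO ρ'' (a * b) :=
  (ha.mul hb).mono (mul_nonneg hρ hρ') h

lemma OO.neg {ρ : ℝ} {a : ℕ → L} (ha : OO ρ a) : OO ρ (-a) := by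
  have := ha.smul (-1)
  rwa [neg_one_smul] at this

lemma OO.sub {ρ : ℝ} (hρ : 0 ≤ ρ) {a b : ℕ → L} (ha : OO ρ a) (hb : OO ρ b) : OO ρ (a - b) := by
  rw [sub_eq_add_neg]
  exact ha.add hρ hb.neg

lemma OO.const (c : L) : OO 1 (fun _ => c) := ⟨‖c‖, fun k => by simp⟩

lemma OO.sum {ι : Type*} {s : Finset ι} {ρ : ℝ} (hρ : 0 ≤ ρ) {a : ι → ℕ → L}
    (h : ∀ i ∈ s, OO ρ (a i)) : OO ρ (∑ i ∈ s, a i) := by
  classical
  induction s using Finset.induction_on with
  | empty => simpa using OO.zero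
  | insert b s hb ih =>
    rw [Finset.sum_insert hb]
    exact (h b (Finset.mem_insert_self _ _)).add hρ
      (ih fun i hi => h i (Finset.mem_insert_of_mem hi))

/-- a constant sequence of geometric decay vanishes -/
lemma const_eq_zero {θ : ℝ} (hθ0 : 0 < θ) (hθ1 : θ < 1) {c : L} (h : OO θ (fun _ : ℕ => c)) :
    c = 0 := by
  obtain ⟨C, hC0, hC⟩ := h.nonneg
  by_contra hc
  have hc' : 0 < ‖c‖ := norm_pos_iff.mpr hc
  obtain ⟨m, hm⟩ := exists_pow_lt_of_lt_one (show 0 < ‖c‖ / (C + 1) by positivity) hθ1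
  have h1 := hC m
  have h2 : C * θ ^ m ≤ (C + 1) * θ ^ m := by
    have : 0 ≤ θ ^ m := pow_nonneg hθ0.le m
    nlinarith
  have h3 : (C + 1) * θ ^ m < ‖c‖ := by
    rw [lt_div_iff₀ (by positivity), mul_comm] at hm
    exact hm
  linarith

section GG

variable (L) in
/-- approximated up to `O(θ ^ (r k))` and itself `O(θ ^ k)` -/
def GG (θ : ℝ) (hθ : 0 ≤ θ) (r : ℕ) : Submodule L (ℕ → L) where
  carrier := {a | a ∈ ApxM L (θ ^ r) (pow_nonneg hθ r) ∧ OO θ a}
  add_mem' := fun ha hb => ⟨Submodule.add_mem _ ha.1 hb.1, ha.2.add hθ hb.2⟩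
  zero_mem' := ⟨Submodule.zero_mem _, OO.zero⟩
  smul_mem' := fun c _ ha => ⟨Submodule.smul_mem _ c ha.1, ha.2.smul c⟩

variable {θ : ℝ} (hθ0 : 0 < θ) (hθ1 : θ < 1)

include hθ1 in
lemma GG_mul {r : ℕ} (hr : 1 ≤ r) {a b : ℕ → L} (ha : a ∈ GG L θ hθ0.le r)
    (hb : b ∈ GG L θ hθ0.le r) : a * b ∈ GG L θ hθ0.le (r + 1) := by
  obtain ⟨⟨e, he, hae⟩, ha2⟩ := ha
  obtain ⟨⟨f, hf, hbf⟩, hb2⟩ := hb
  have hθr : θ ^ r ≤ θ := pow_le_of_le_one hθ0.le hθ1.le (by omega)
  have he2 : OO θ e := by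
    have : e = a - (a - e) := by abel
    rw [this]
    exact ha2.sub hθ0.le (hae.mono (by positivity) hθr)
  refine ⟨⟨e * f, EP_mul he hf, ?_⟩, ?_⟩
  · have : a * b - e * f = (a - e) * b + e * (b - f) := by ring
    rw [this]
    refine OO.add (by positivity) ?_ ?_
    · exact hae.mul_le (by positivity) hθ0.le (le_of_eq (pow_succ θ r).symm) hb2
    · exact he2.mul_le hθ0.le (by positivity) (le_of_eq (pow_succ' θ r).symm) hbf
  · exact ha2.mul_le hθ0.le hθ0.le (mul_le_of_le_one_right hθ0.le hθ1.le) hb2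

include hθ1 in
lemma GG_mono {r r' : ℕ} (h : r ≤ r') {a : ℕ → L} (ha : a ∈ GG L θ hθ0.le r') :
    a ∈ GG L θ hθ0.le r :=
  ⟨ApxM_mono (pow_le_pow_of_le_one hθ0.le hθ1.le h) ha.1, ha.2⟩

variable {n : Type*} {δ : ℕ → n → L}

include hθ1 in
lemma eval_sub_mem_GG {r : ℕ} (hr : 1 ≤ r) (hδ : ∀ i, (fun k => δ k i) ∈ GG L θ hθ0.le r)
    (f : MvPolynomial n L) :
    (fun k => eval (δ k) f - constantCoeff f) ∈ GG L θ hθ0.le r := by
  induction f using MvPolynomial.induction_on with
  | C a =>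
    have : (fun k => eval (δ k) (C a : MvPolynomial n L) - constantCoeff (C a : MvPolynomial n L)) =
        0 := by
      funext k
      simp
    rw [this]
    exact Submodule.zero_mem _
  | add f g hf hg =>
    have : (fun k => eval (δ k) (f + g) - constantCoeff (f + g)) =
        (fun k => eval (δ k) f - constantCoeff f) + fun k => eval (δ k) g - constantCoeff g := by
      funext k
      simp only [map_add, Pi.add_apply]
      ring
    rw [this]
    exact Submodule.add_mem _ hf hg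
  | mul_X f i hf =>
    have : (fun k => eval (δ k) (f * X i) - constantCoeff (f * X i)) =
        (fun k => eval (δ k) f - constantCoeff f) * (fun k => δ k i) +
          constantCoeff f • fun k => δ k i := by
      funext k
      simp only [map_mul, eval_X, constantCoeff_X, Pi.add_apply, Pi.mul_apply, Pi.smul_apply,
        smul_eq_mul]
      ring
    rw [this]
    exact Submodule.add_mem _ (GG_mono hθ0 hθ1 (Nat.le_succ r) (GG_mul hθ0 hθ1 hr hf (hδ i)))
      (Submodule.smul_mem _ _ (hδ i))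

/-- the maximal ideal of the origin -/
def mm (n L : Type*) [NormedField L] : Ideal (MvPolynomial n L) :=
  RingHom.ker (constantCoeff (R := L) (σ := n))

omit [IsUltrametricDist L] [CharZero L] in
lemma mem_mm {f : MvPolynomial n L} : f ∈ mm n L ↔ constantCoeff f = 0 := RingHom.mem_ker

include hθ1 in
lemma eval_mem_GG_sq {r : ℕ} (hr : 1 ≤ r) (hδ : ∀ i, (fun k => δ k i) ∈ GG L θ hθ0.le r)
    {f : MvPolynomial n L} (hf : f ∈ mm n L ^ 2) :
    (fun k => eval (δ k) f) ∈ GG L θ hθ0.le (r + 1) := by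
  rw [pow_two] at hf
  refine Submodule.mul_induction_on hf ?_ ?_
  · intro m hm m' hm'
    have h1 := eval_sub_mem_GG hθ0 hθ1 hr hδ m
    have h2 := eval_sub_mem_GG hθ0 hθ1 hr hδ m'
    simp only [mem_mm.mp hm, mem_mm.mp hm', sub_zero] at h1 h2
    have h3 := GG_mul hθ0 hθ1 hr h1 h2
    convert h3 using 1
    funext k
    simp
  · intro x y hx hy
    have := Submodule.add_mem _ hx hy
    convert this using 1
    funext k
    simp

include hθ1 in
/-- expansions along an orbit of an analytic map converging to a fixed point -/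
theorem boot [CompleteSpace L] [Fintype n] [DecidableEq n] (D : Matrix n n L)
    (hD : D.charpoly.Splits)
    (hδ : ∀ i, OO θ (fun k => δ k i))
    (hsys : ∀ R : ℕ, ∃ q : n → MvPolynomial n L, (∀ i, q i ∈ mm n L ^ 2) ∧
      ∀ i, OO (θ ^ R) (fun k => δ (k + 1) i - ∑ j, D i j * δ k j - eval (δ k) (q i)))
    (r : ℕ) (i : n) : (fun k => δ k i) ∈ GG L θ hθ0.le r := by
  induction r generalizing i with
  | zero => exact ⟨ApxM_of_OO ((hδ i).mono hθ0.le (by rw [pow_zero]; exact hθ1.le)), hδ i⟩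
  | succ r ih =>
    rcases Nat.eq_zero_or_pos r with rfl | hr
    · exact ⟨ApxM_of_OO ((hδ i).mono hθ0.le (by rw [zero_add, pow_one])), hδ i⟩
    · obtain ⟨q, hq, hqs⟩ := hsys (r + 1)
      refine ⟨?_, hδ i⟩
      refine ApxM_linear (pow_pos hθ0 (r + 1)) D hD (fun i k => δ k i) ?_ i
      intro i
      have h1 : shiftOp L (fun k => δ k i) - ∑ j, D i j • (fun k => δ k j) =
          (fun k => δ (k + 1) i - ∑ j, D i j * δ k j - eval (δ k) (q i)) +
            fun k => eval (δ k) (q i) := by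
        funext k
        simp only [Pi.sub_apply, shiftOp_apply, Finset.sum_apply, Pi.smul_apply, smul_eq_mul,
          Pi.add_apply]
        ring
      rw [h1]
      exact Submodule.add_mem _ (ApxM_of_OO (hqs i)) (eval_mem_GG_sq hθ0 hθ1 hr ih (hq i)).1

end GG

section QQ

variable {θ : ℝ} (hθ0 : 0 < θ) (hθ1 : θ < 1) {n : Type*} {δ : ℕ → n → L}
  (hδ : ∀ i, OO θ (fun k => δ k i))

include hθ1 hθ0 hδ in
lemma eval_sub_OO (f : MvPolynomial n L) : OO θ (fun k => eval (δ k) f - constantCoeff f) := by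
  have h : ∀ i, (fun k => δ k i) ∈ GG L θ hθ0.le 1 := fun i =>
    ⟨ApxM_of_OO ((hδ i).mono hθ0.le (by rw [pow_one])), hδ i⟩
  exact (eval_sub_mem_GG hθ0 hθ1 le_rfl h f).2

include hθ1 hθ0 hδ in
lemma eval_bdd (f : MvPolynomial n L) : OO 1 (fun k => eval (δ k) f) := by
  have h1 := (eval_sub_OO hθ0 hθ1 hδ f).mono hθ0.le hθ1.le
  have h2 := h1.add zero_le_one (OO.const (constantCoeff f))
  convert h2 using 1
  funext k
  simp

/-- sequences with polynomial expansions in `δ` of every order, with a common linear part -/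
def QQ (θ : ℝ) (δ : ℕ → n → L) (a : ℕ → L) : Prop :=
  ∃ f₂ : MvPolynomial n L, ∀ R : ℕ, ∃ f : MvPolynomial n L, f - f₂ ∈ mm n L ^ 2 ∧
    OO (θ ^ R) (a - fun k => eval (δ k) f)

lemma QQ.const (c : L) : QQ θ δ (fun _ => c) := by
  refine ⟨C c, fun R => ⟨C c, by rw [sub_self]; exact Submodule.zero_mem _, ?_⟩⟩
  have : ((fun _ : ℕ => c) - fun k => eval (δ k) (C c : MvPolynomial n L)) = 0 := by
    funext k
    simp
  rw [this]
  exact OO.zero

lemma QQ.coord (i : n) : QQ θ δ (fun k => δ k i) := by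
  refine ⟨X i, fun R => ⟨X i, by rw [sub_self]; exact Submodule.zero_mem _, ?_⟩⟩
  have : ((fun k => δ k i) - fun k => eval (δ k) (X i : MvPolynomial n L)) = 0 := by
    funext k
    simp
  rw [this]
  exact OO.zero

include hθ0 in
lemma QQ.add {a b : ℕ → L} (ha : QQ θ δ a) (hb : QQ θ δ b) : QQ θ δ (a + b) := by
  obtain ⟨f₂, hf⟩ := ha
  obtain ⟨g₂, hg⟩ := hb
  refine ⟨f₂ + g₂, fun R => ?_⟩
  obtain ⟨f, hf1, hf2⟩ := hf R
  obtain ⟨g, hg1, hg2⟩ := hg R
  refine ⟨f + g, ?_, ?_⟩
  · rw [add_sub_add_comm]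
    exact Submodule.add_mem _ hf1 hg1
  · have : (a + b - fun k => eval (δ k) (f + g)) =
        (a - fun k => eval (δ k) f) + (b - fun k => eval (δ k) g) := by
      funext k
      simp only [Pi.sub_apply, Pi.add_apply, map_add]
      ring
    rw [this]
    exact hf2.add (by positivity) hg2

include hθ0 hθ1 hδ in
lemma QQ.mul {a b : ℕ → L} (ha : QQ θ δ a) (hb : QQ θ δ b) : QQ θ δ (a * b) := by
  obtain ⟨f₂, hf⟩ := ha
  obtain ⟨g₂, hg⟩ := hb
  refine ⟨f₂ * g₂, fun R => ?_⟩
  obtain ⟨f, hf1, hf2⟩ := hf R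
  obtain ⟨g, hg1, hg2⟩ := hg R
  refine ⟨f * g, ?_, ?_⟩
  · have : f * g - f₂ * g₂ = g * (f - f₂) + f₂ * (g - g₂) := by ring
    rw [this]
    exact Submodule.add_mem _ (Ideal.mul_mem_left _ _ hf1) (Ideal.mul_mem_left _ _ hg1)
  · have hb0 : OO 1 b := by
      have h1 := (hg2.mono (by positivity) (pow_le_one₀ hθ0.le hθ1.le)).add zero_le_one
        (eval_bdd hθ0 hθ1 hδ g)
      convert h1 using 1
      funext k
      simp
    have : (a * b - fun k => eval (δ k) (f * g)) =
        (a - fun k => eval (δ k) f) * b + (fun k => eval (δ k) f) * (b - fun k => eval (δ k) g) := by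
      funext k
      simp only [Pi.sub_apply, Pi.add_apply, Pi.mul_apply, map_mul]
      ring
    rw [this]
    refine OO.add (by positivity) ?_ ?_
    · exact hf2.mul_le (by positivity) zero_le_one (by rw [mul_one]) hb0
    · exact (eval_bdd hθ0 hθ1 hδ f).mul_le zero_le_one (by positivity) (by rw [one_mul]) hg2

include hθ0 hθ1 hδ in
lemma QQ.poly {m : Type*} {a : m → ℕ → L} (ha : ∀ s, QQ θ δ (a s)) (F : MvPolynomial m L) :
    QQ θ δ (fun k => eval (fun s => a s k) F) := by
  induction F using MvPolynomial.induction_on with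
  | C c => simpa using QQ.const c
  | add F G hF hG =>
    have := QQ.add hθ0 hF hG
    convert this using 1
    funext k
    simp
  | mul_X F s hF =>
    have := QQ.mul hθ0 hθ1 hδ hF (ha s)
    convert this using 1
    funext k
    simp

omit [CharZero L] [IsUltrametricDist L] in
lemma constantCoeff_sub_eq {f f₂ : MvPolynomial n L} (h : f - f₂ ∈ mm n L ^ 2) :
    constantCoeff f = constantCoeff f₂ := by
  have h1 := Ideal.pow_le_self (by norm_num : (2 : ℕ) ≠ 0) h
  rw [mem_mm, map_sub, sub_eq_zero] at h1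
  exact h1

include hθ0 hθ1 hδ in
/-- division -/
lemma QQ.div {a b g : ℕ → L} (ha : QQ θ δ a) (hg : QQ θ δ g) (hb : OO 1 b) (hab : b * a = g)
    {c : L} (hc : c ≠ 0) (hac : OO θ (fun k => a k - c)) : QQ θ δ b := by
  obtain ⟨f₂, hf⟩ := ha
  obtain ⟨g₂, hg⟩ := hg
  have hcc : constantCoeff f₂ = c := by
    obtain ⟨f, hf1, hf2⟩ := hf 1
    rw [← constantCoeff_sub_eq hf1]
    have h1 := eval_sub_OO hθ0 hθ1 hδ f
    rw [pow_one] at hf2
    have h2 := (hac.sub hθ0.le hf2).sub hθ0.le h1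
    rw [← sub_eq_zero]
    apply const_eq_zero hθ0 hθ1
    convert h2 using 1
    funext k
    simp only [Pi.sub_apply]
    ring
  refine ⟨g₂ * (C c⁻¹ * (1 + (1 - C c⁻¹ * f₂))), fun R => ?_⟩
  obtain ⟨f, hf1, hf2⟩ := hf R
  obtain ⟨g', hg1, hg2⟩ := hg R
  have hcf : constantCoeff f = c := (constantCoeff_sub_eq hf1).trans hcc
  set η : MvPolynomial n L := 1 - C c⁻¹ * f with hη
  have hηm : η ∈ mm n L := by
    rw [mem_mm, hη, map_sub, map_one, map_mul, constantCoeff_C, hcf, inv_mul_cancel₀ hc, sub_self]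
  set h : MvPolynomial n L := C c⁻¹ * ∑ i ∈ Finset.range (R + 2), η ^ i with hh
  have hfh : f * h = 1 - η ^ (R + 2) := by
    have h1 : C c⁻¹ * f = 1 - η := by rw [hη]; ring
    have h2 : f * h = (C c⁻¹ * f) * ∑ i ∈ Finset.range (R + 2), η ^ i := by rw [hh]; ring
    rw [h2, h1]
    have := geom_sum_mul_neg η (R + 2)
    rw [mul_comm] at this
    exact this
  refine ⟨g' * h, ?_, ?_⟩
  · have h1 : g' * h - g₂ * (C c⁻¹ * (1 + (1 - C c⁻¹ * f₂))) =
        h * (g' - g₂) + (g₂ * C c⁻¹) * (-(C c⁻¹ * (f - f₂)) +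
          ∑ i ∈ Finset.range R, η ^ (i + 2)) := by
      rw [hh, Finset.sum_range_succ', Finset.sum_range_succ', hη]
      ring
    rw [h1]
    refine Submodule.add_mem _ (Ideal.mul_mem_left _ _ hg1) (Ideal.mul_mem_left _ _
      (Submodule.add_mem _ ?_ (Submodule.sum_mem _ fun i _ => ?_)))
    · exact Submodule.neg_mem _ (Ideal.mul_mem_left _ _ hf1)
    · rw [pow_add]
      exact Ideal.mul_mem_left _ _ (Ideal.pow_mem_pow hηm 2)
  · -- the estimate
    have hη1 : OO θ (fun k => eval (δ k) η) := by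
      have := eval_sub_OO hθ0 hθ1 hδ η
      rw [mem_mm.mp hηm] at this
      simpa using this
    have hη2 : OO (θ ^ R) (fun k => eval (δ k) η ^ (R + 2)) := by
      obtain ⟨C', hC0, hC⟩ := hη1.nonneg
      refine ⟨C' ^ (R + 2), fun k => ?_⟩
      rw [norm_pow]
      calc ‖eval (δ k) η‖ ^ (R + 2) ≤ (C' * θ ^ k) ^ (R + 2) := by gcongr; exact hC k
        _ = C' ^ (R + 2) * (θ ^ (R + 2)) ^ k := by rw [mul_pow, ← pow_mul, ← pow_mul, mul_comm k]
        _ ≤ _ := by
          gcongr ?_ * ?_ ^ k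
          exact pow_le_pow_of_le_one hθ0.le hθ1.le (by omega)
    have h1 : (b - fun k => eval (δ k) (g' * h)) =
        b * (fun k => eval (δ k) η ^ (R + 2)) -
        (b * (a - fun k => eval (δ k) f)) * (fun k => eval (δ k) h) +
        (g - fun k => eval (δ k) g') * (fun k => eval (δ k) h) := by
      funext k
      have h2 := congrArg (eval (δ k)) hfh
      have h3 := congrFun hab k
      simp only [map_mul, map_sub, map_one, map_pow, Pi.sub_apply, Pi.add_apply,
        Pi.mul_apply] at h2 h3 ⊢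
      linear_combination (-(b k)) * h2 + (eval (δ k) h) * h3
    rw [h1]
    have hbh := eval_bdd hθ0 hθ1 hδ h
    refine OO.add (by positivity) (OO.sub (by positivity) ?_ ?_) ?_
    · exact hb.mul_le zero_le_one (by positivity) (by rw [one_mul]) hη2
    · exact (hb.mul_le zero_le_one (by positivity) (by rw [one_mul]) hf2).mul_le (by positivity)
        zero_le_one (by rw [mul_one]) hbh
    · exact hg2.mul_le (by positivity) zero_le_one (by rw [mul_one]) hbh

omit [CharZero L] [IsUltrametricDist L] in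
lemma exists_linear [Fintype n] (f : MvPolynomial n L) :
    ∃ D : n → L, f - C (constantCoeff f) - ∑ j, C (D j) * X j ∈ mm n L ^ 2 := by
  classical
  induction f using MvPolynomial.induction_on with
  | C a => exact ⟨0, by simp⟩
  | add f g hf hg =>
    obtain ⟨D, hD⟩ := hf
    obtain ⟨D', hD'⟩ := hg
    refine ⟨D + D', ?_⟩
    have := Submodule.add_mem _ hD hD'
    convert this using 1
    simp only [map_add, Pi.add_apply, add_mul, Finset.sum_add_distrib]
    ring
  | mul_X f i _ =>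
    refine ⟨Pi.single i (constantCoeff f), ?_⟩
    have h1 : f * X i - C (constantCoeff (f * X i)) -
        ∑ j, C ((Pi.single i (constantCoeff f) : n → L) j) * X j =
        (f - C (constantCoeff f)) * X i := by
      rw [Finset.sum_eq_single i]
      · rw [Pi.single_eq_same, map_mul, constantCoeff_X, mul_zero, map_zero]
        ring
      · intro j _ hj
        rw [Pi.single_eq_of_ne hj, map_zero, zero_mul]
      · simp
    rw [h1, pow_two]
    apply Ideal.mul_mem_mul
    · rw [mem_mm, map_sub, constantCoeff_C, sub_self]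
    · rw [mem_mm, constantCoeff_X]

include hθ0 hθ1 hδ in
/-- the linearised system -/
theorem exists_system [Fintype n] (h : ∀ i, QQ θ δ (fun k => δ (k + 1) i)) :
    ∃ D : Matrix n n L, ∀ R : ℕ, ∃ q : n → MvPolynomial n L, (∀ i, q i ∈ mm n L ^ 2) ∧
      ∀ i, OO (θ ^ R) (fun k => δ (k + 1) i - ∑ j, D i j * δ k j - eval (δ k) (q i)) := by
  choose f₂ hf using h
  choose D hD using fun i => exists_linear (f₂ i)
  have hc : ∀ i, constantCoeff (f₂ i) = 0 := by
    intro i
    obtain ⟨f, hf1, hf2⟩ := hf i 1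
    rw [← constantCoeff_sub_eq hf1]
    have h1 := eval_sub_OO hθ0 hθ1 hδ f
    rw [pow_one] at hf2
    have h3 : OO θ (shiftOp L (fun k => δ k i)) := (hδ i).shift
    have h2 := (h3.sub hθ0.le hf2).sub hθ0.le h1
    apply const_eq_zero hθ0 hθ1
    convert h2 using 1
    funext k
    simp only [Pi.sub_apply, shiftOp_apply]
    ring
  refine ⟨Matrix.of D, fun R => ?_⟩
  choose f hf1 hf2 using fun i => hf i R
  refine ⟨fun i => f i - ∑ j, C (D i j) * X j, fun i => ?_, fun i => ?_⟩
  · have h1 := hD i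
    rw [hc, map_zero, sub_zero] at h1
    have := Submodule.add_mem _ (hf1 i) h1
    convert this using 1
    ring
  · have := hf2 i
    convert this using 1
    funext k
    simp only [Pi.sub_apply, map_sub, map_sum, map_mul, eval_C, eval_X, Matrix.of_apply]
    ring

end QQ

end

end Pool.Agent.Helper86.DML
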