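import Mathlib

/-!
# Sizes of integer polynomials
-/

namespace Pool.Agent.Helper86.DML

open MvPolynomial

section L1

variable {κ ι : Type*}

/-- the sum of the absolute values of the coefficients -/
def l1 (P : MvPolynomial κ ℤ) : ℕ := ∑ m ∈ P.support, (P.coeff m).natAbs

lemma l1_eq_of_subset {P : MvPolynomial κ ℤ} {s : Finset (κ →₀ ℕ)} (h : P.support ⊆ s) :
    l1 P = ∑ m ∈ s, (P.coeff m).natAbs := by
  refine Finset.sum_subset h fun m _ hm => ?_
  rw [notMem_support_iff.mp hm, Int.natAbs_zero]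

@[simp] lemma l1_zero : l1 (0 : MvPolynomial κ ℤ) = 0 := by simp [l1]

lemma l1_add_le (P Q : MvPolynomial κ ℤ) : l1 (P + Q) ≤ l1 P + l1 Q := by
  classical
  have h1 : P.support ⊆ P.support ∪ Q.support := Finset.subset_union_left
  have h2 : Q.support ⊆ P.support ∪ Q.support := Finset.subset_union_right
  rw [l1_eq_of_subset (support_add (p := P) (q := Q)), l1_eq_of_subset h1, l1_eq_of_subset h2,
    ← Finset.sum_add_distrib]
  refine Finset.sum_le_sum fun m _ => ?_
  rw [coeff_add]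
  exact Int.natAbs_add_le _ _

lemma l1_sum_le (s : Finset ι) (f : ι → MvPolynomial κ ℤ) :
    l1 (∑ i ∈ s, f i) ≤ ∑ i ∈ s, l1 (f i) := by
  classical
  induction s using Finset.induction_on with
  | empty => simp
  | insert a s ha ih =>
    rw [Finset.sum_insert ha, Finset.sum_insert ha]
    exact (l1_add_le _ _).trans (Nat.add_le_add_left ih _)

lemma l1_monomial (m : κ →₀ ℕ) (a : ℤ) : l1 (monomial m a) = a.natAbs := by
  classical
  by_cases ha : a = 0
  · simp [ha]
  · rw [l1, support_monomial, if_neg ha, Finset.sum_singleton, coeff_monomial, if_pos rfl]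

lemma l1_C (a : ℤ) : l1 (C a : MvPolynomial κ ℤ) = a.natAbs := l1_monomial 0 a

@[simp] lemma l1_one : l1 (1 : MvPolynomial κ ℤ) = 1 := by
  have := l1_C (κ := κ) 1
  simpa using this

@[simp] lemma l1_X (i : κ) : l1 (X i : MvPolynomial κ ℤ) = 1 := by
  have := l1_monomial (Finsupp.single i 1) 1
  simpa [X] using this

lemma l1_neg (P : MvPolynomial κ ℤ) : l1 (-P) = l1 P := by
  simp [l1]

lemma l1_mul_le (P Q : MvPolynomial κ ℤ) : l1 (P * Q) ≤ l1 P * l1 Q := by
  have h1 : P * Q = ∑ m ∈ P.support, ∑ n ∈ Q.support,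
      monomial (m + n) (P.coeff m * Q.coeff n) := by
    conv_lhs => rw [P.as_sum, Q.as_sum, Finset.sum_mul_sum]
    simp only [monomial_mul]
  have e : l1 P * l1 Q = ∑ m ∈ P.support, ∑ n ∈ Q.support,
      (P.coeff m).natAbs * (Q.coeff n).natAbs := by
    rw [l1, l1, Finset.sum_mul_sum]
  rw [h1, e]
  refine (l1_sum_le _ _).trans (Finset.sum_le_sum fun m _ => ?_)
  refine (l1_sum_le _ _).trans (Finset.sum_le_sum fun n _ => ?_)
  rw [l1_monomial, Int.natAbs_mul]

lemma l1_pow_le (P : MvPolynomial κ ℤ) (n : ℕ) : l1 (P ^ n) ≤ l1 P ^ n := by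
  induction n with
  | zero => simp
  | succ n ih =>
    rw [pow_succ, pow_succ]
    exact (l1_mul_le _ _).trans (Nat.mul_le_mul_right _ ih)

lemma l1_prod_le (s : Finset ι) (f : ι → MvPolynomial κ ℤ) :
    l1 (∏ i ∈ s, f i) ≤ ∏ i ∈ s, l1 (f i) := by
  classical
  induction s using Finset.induction_on with
  | empty => simp
  | insert a s ha ih =>
    rw [Finset.prod_insert ha, Finset.prod_insert ha]
    exact (l1_mul_le _ _).trans (Nat.mul_le_mul_left _ ih)

lemma card_le_totalDegree {R : Type*} [CommSemiring R] {P : MvPolynomial κ R} {m : κ →₀ ℕ}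
    (hm : m ∈ P.support) : Multiset.card (Finsupp.toMultiset m) ≤ P.totalDegree := by
  rw [totalDegree_eq]
  exact Finset.le_sup (f := fun m => Multiset.card (Finsupp.toMultiset m)) hm

end L1

section Sz

variable {κ ι : Type*}

/-- integer polynomials of degree at most `D` whose coefficients have sum of absolute values at
most `2 ^ D` -/
def Sz (D : ℕ) (P : MvPolynomial κ ℤ) : Prop := P.totalDegree ≤ D ∧ l1 P ≤ 2 ^ D

lemma Sz.mono {D E : ℕ} {P : MvPolynomial κ ℤ} (h : Sz D P) (hDE : D ≤ E) : Sz E P :=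
  ⟨h.1.trans hDE, h.2.trans (Nat.pow_le_pow_right (by norm_num) hDE)⟩

lemma Sz.mul {D E : ℕ} {P Q : MvPolynomial κ ℤ} (hP : Sz D P) (hQ : Sz E Q) :
    Sz (D + E) (P * Q) :=
  ⟨(totalDegree_mul _ _).trans (add_le_add hP.1 hQ.1), by
    rw [pow_add]
    exact (l1_mul_le _ _).trans (Nat.mul_le_mul hP.2 hQ.2)⟩

lemma Sz_X (i : κ) : Sz 1 (X i : MvPolynomial κ ℤ) := by
  refine ⟨?_, ?_⟩
  · rw [totalDegree_X]
  · rw [l1_X]
    norm_num

lemma exists_Sz (P : MvPolynomial κ ℤ) : ∃ D, Sz D P := by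
  refine ⟨max P.totalDegree (l1 P), le_max_left _ _, ?_⟩
  calc l1 P ≤ 2 ^ (l1 P) := Nat.lt_two_pow_self.le
    _ ≤ _ := Nat.pow_le_pow_right (by norm_num) (le_max_right _ _)

lemma exists_Sz_finite [Finite ι] (P : ι → MvPolynomial κ ℤ) : ∃ D, 1 ≤ D ∧ ∀ i, Sz D (P i) := by
  have := Fintype.ofFinite ι
  choose D hD using fun i => exists_Sz (P i)
  refine ⟨1 + ∑ i, D i, by omega, fun i => (hD i).mono ?_⟩
  have := Finset.single_le_sum (f := D) (fun _ _ => Nat.zero_le _) (Finset.mem_univ i)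
  omega

lemma l1_prod_pow_le {Q : ι → MvPolynomial κ ℤ} {B : ℕ} (hQ : ∀ i, l1 (Q i) ≤ B)
    (m : ι →₀ ℕ) : l1 (∏ i ∈ m.support, Q i ^ m i) ≤ B ^ (Multiset.card (Finsupp.toMultiset m)) := by
  rw [Finsupp.card_toMultiset, Finsupp.sum, ← Finset.prod_pow_eq_pow_sum]
  refine (l1_prod_le _ _).trans (Finset.prod_le_prod' fun i _ => ?_)
  exact (l1_pow_le _ _).trans (Nat.pow_le_pow_left (hQ i) _)

lemma totalDegree_prod_pow_le {Q : ι → MvPolynomial κ ℤ} {E : ℕ}
    (hQ : ∀ i, (Q i).totalDegree ≤ E) (m : ι →₀ ℕ) :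
    (∏ i ∈ m.support, Q i ^ m i).totalDegree ≤ E * Multiset.card (Finsupp.toMultiset m) := by
  rw [Finsupp.card_toMultiset, Finsupp.sum, Finset.mul_sum]
  refine (totalDegree_finsetProd _ _).trans (Finset.sum_le_sum fun i _ => ?_)
  refine (totalDegree_pow _ _).trans ?_
  rw [mul_comm]
  exact Nat.mul_le_mul_right _ (hQ i)

/-- composition -/
lemma Sz.bind {D E : ℕ} {P : MvPolynomial ι ℤ} {Q : ι → MvPolynomial κ ℤ} (hP : Sz D P)
    (hQ : ∀ i, Sz E (Q i)) : Sz (D * (E + 1)) (bind₁ Q P) := by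
  have h1 : bind₁ Q P = ∑ m ∈ P.support, bind₁ Q (monomial m (P.coeff m)) := by
    conv_lhs => rw [P.as_sum, map_sum]
  constructor
  · rw [h1]
    refine (totalDegree_finsetSum _ _).trans (Finset.sup_le fun m hm => ?_)
    rw [bind₁_monomial]
    refine (totalDegree_mul _ _).trans ?_
    rw [totalDegree_C, zero_add]
    refine (totalDegree_prod_pow_le (fun i => (hQ i).1) m).trans ?_
    have h2 := (card_le_totalDegree hm).trans hP.1
    calc E * Multiset.card (Finsupp.toMultiset m) ≤ E * D := Nat.mul_le_mul_left _ h2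
      _ = D * E := mul_comm _ _
      _ ≤ _ := Nat.mul_le_mul_left _ (Nat.le_succ _)
  · rw [h1]
    refine (l1_sum_le _ _).trans ?_
    have h3 : ∀ m ∈ P.support, l1 (bind₁ Q (monomial m (P.coeff m))) ≤
        (P.coeff m).natAbs * 2 ^ (E * D) := by
      intro m hm
      rw [bind₁_monomial]
      refine (l1_mul_le _ _).trans ?_
      rw [l1_C]
      apply Nat.mul_le_mul_left
      refine (l1_prod_pow_le (fun i => (hQ i).2) m).trans ?_
      rw [← pow_mul]
      apply Nat.pow_le_pow_right (by norm_num)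
      exact Nat.mul_le_mul_left _ ((card_le_totalDegree hm).trans hP.1)
    refine (Finset.sum_le_sum h3).trans ?_
    rw [← Finset.sum_mul]
    calc (∑ m ∈ P.support, (P.coeff m).natAbs) * 2 ^ (E * D) ≤ 2 ^ D * 2 ^ (E * D) :=
          Nat.mul_le_mul_right _ hP.2
      _ = 2 ^ (D * (E + 1)) := by rw [← pow_add]; congr 1; ring

end Sz

lemma map_aeval_int {κ A B : Type*} [CommRing A] [CommRing B] [Algebra ℤ A] [Algebra ℤ B]
    (φ : A →+* B) (g : κ → A)
    (P : MvPolynomial κ ℤ) : φ (aeval g P) = aeval (fun i => φ (g i)) P := by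
  induction P using MvPolynomial.induction_on with
  | C a => simp
  | add P Q hP hQ => rw [map_add, map_add, map_add, hP, hQ]
  | mul_X P i hP => rw [map_mul, map_mul, map_mul, hP, aeval_X, aeval_X]

section Bound

variable {κ : Type*} {Ω : Type*} [NormedField Ω] [IsUltrametricDist Ω]

lemma norm_intCast_le_one (n : ℤ) : ‖(n : Ω)‖ ≤ 1 := by
  exact IsUltrametricDist.norm_intCast_le_one Ω n

/-- values of integer polynomials at bounded points of an ultrametric field -/
lemma norm_aeval_le {v : κ → Ω} {B : ℝ} (hB : 1 ≤ B) (hv : ∀ i, ‖v i‖ ≤ B)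
    {P : MvPolynomial κ ℤ} {D : ℕ} (hP : P.totalDegree ≤ D) : ‖aeval v P‖ ≤ B ^ D := by
  have h1 : aeval v P = ∑ m ∈ P.support, aeval v (monomial m (P.coeff m)) := by
    conv_lhs => rw [P.as_sum, map_sum]
  rw [h1]
  apply IsUltrametricDist.norm_sum_le_of_forall_le_of_nonneg (by positivity)
  intro m hm
  rw [aeval_monomial, norm_mul]
  have h2 : ‖(algebraMap ℤ Ω) (P.coeff m)‖ ≤ 1 := by
    rw [eq_intCast]
    exact norm_intCast_le_one _
  have h3 : ‖m.prod fun i k => v i ^ k‖ ≤ B ^ Multiset.card (Finsupp.toMultiset m) := by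
    rw [Finsupp.prod, norm_prod, Finsupp.card_toMultiset, Finsupp.sum,
      ← Finset.prod_pow_eq_pow_sum]
    refine Finset.prod_le_prod (fun _ _ => norm_nonneg _) fun i _ => ?_
    rw [norm_pow]
    exact pow_le_pow_left₀ (norm_nonneg _) (hv i) _
  calc ‖(algebraMap ℤ Ω) (P.coeff m)‖ * ‖m.prod fun i k => v i ^ k‖ ≤
        1 * B ^ Multiset.card (Finsupp.toMultiset m) := by gcongr
    _ = B ^ Multiset.card (Finsupp.toMultiset m) := one_mul _
    _ ≤ B ^ D := pow_le_pow_right₀ hB ((card_le_totalDegree hm).trans hP)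

lemma norm_aeval_le_one {v : κ → Ω} (hv : ∀ i, ‖v i‖ ≤ 1) (P : MvPolynomial κ ℤ) :
    ‖aeval v P‖ ≤ 1 := by
  have := norm_aeval_le le_rfl hv (P := P) le_rfl
  rwa [one_pow] at this

end Bound

end Pool.Agent.Helper86.DML
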