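import Mathlib
import Pool.Agent.Helper86.DML.Size

/-!
# Elimination with bounds for the sizes
-/

namespace Pool.Agent.Helper86.DML

open MvPolynomial

noncomputable section

section General

variable {A : Type*} [CommRing A] {ι : Type*} {n : ℕ}

/-- the homogenised value of an integer polynomial at matrices (with ordered products) -/
def NP (d : A) (M : ι → Matrix (Fin n) (Fin n) A) (D : ℕ) (P : MvPolynomial ι ℤ) :
    Matrix (Fin n) (Fin n) A :=
  ∑ m ∈ P.support, (((P.coeff m : ℤ) : A) * d ^ (D - Multiset.card (Finsupp.toMultiset m))) •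
    ((Finsupp.toMultiset m).toList.map M).prod

/-- elimination: the homogenised values of integer polynomials at algebraic elements are roots of
the characteristic polynomials of explicit matrices -/
theorem elim [IsDomain A] {E : Type*} [Field E] [Algebra A E] [FaithfulSMul A E] [Finite ι]
    (η : ι → E) (hη : ∀ i, IsAlgebraic A (η i)) :
    ∃ (n : ℕ) (d : A) (M : ι → Matrix (Fin n) (Fin n) A), d ≠ 0 ∧
      ∀ (P : MvPolynomial ι ℤ) (D : ℕ), P.totalDegree ≤ D →
        Polynomial.aeval (algebraMap A E d ^ D * aeval η P) (NP d M D P).charpoly = 0 ∧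
        (aeval η P ≠ 0 → (NP d M D P).det ≠ 0) := by
  classical
  let F := FractionRing A
  let _ : Algebra F E := FractionRing.liftAlgebra A E
  have _ : IsScalarTower A F E := FractionRing.isScalarTower_liftAlgebra A E
  let L : IntermediateField F E := IntermediateField.adjoin F (Set.range η)
  have hηF : ∀ i, IsAlgebraic F (η i) := fun i =>
    (hη i).extendScalars (IsFractionRing.injective A F)
  have _ : FiniteDimensional F L := by
    apply IntermediateField.finiteDimensional_adjoin
    rintro _ ⟨i, rfl⟩
    exact (hηF i).isIntegral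
  let ηL : ι → L := fun i => ⟨η i, IntermediateField.subset_adjoin _ _ ⟨i, rfl⟩⟩
  let b := Module.finBasis F L
  let μ : L →ₐ[F] Matrix (Fin (Module.finrank F L)) (Fin (Module.finrank F L)) F :=
    Algebra.leftMulMatrix b
  have hμinj : Function.Injective μ := Algebra.leftMulMatrix_injective b
  obtain ⟨⟨d, hd⟩, hdi⟩ := IsLocalization.exist_integer_multiples_of_finite (nonZeroDivisors A)
    (fun t : ι × Fin (Module.finrank F L) × Fin (Module.finrank F L) => μ (ηL t.1) t.2.1 t.2.2)
  choose Me hMe using fun i r s => hdi (i, r, s)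
  let M : ι → Matrix (Fin (Module.finrank F L)) (Fin (Module.finrank F L)) A :=
    fun i => Matrix.of fun r s => Me i r s
  have hd0 : d ≠ 0 := nonZeroDivisors.ne_zero hd
  have hinjF : Function.Injective (algebraMap A F) := IsFractionRing.injective A F
  have hM : ∀ i, (algebraMap A F).mapMatrix (M i) = (algebraMap A F d) • μ (ηL i) := by
    intro i
    ext r s
    simp only [M, RingHom.mapMatrix_apply, Matrix.map_apply, Matrix.of_apply, Matrix.smul_apply,
      smul_eq_mul]
    rw [hMe i r s, Algebra.smul_def]
  -- lists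
  have hlist : ∀ l : List ι, (algebraMap A F).mapMatrix ((l.map M).prod) =
      (algebraMap A F d) ^ l.length • μ ((l.map ηL).prod) := by
    intro l
    induction l with
    | nil => simp
    | cons i l ih =>
      rw [List.map_cons, List.prod_cons, map_mul, ih, hM, List.map_cons, List.prod_cons, map_mul,
        List.length_cons, pow_succ', smul_mul_smul_comm]
  have hNP : ∀ (P : MvPolynomial ι ℤ) (D : ℕ), P.totalDegree ≤ D →
      (algebraMap A F).mapMatrix (NP d M D P) = μ (algebraMap F L (algebraMap A F d) ^ D *
        aeval ηL P) := by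
    intro P D hD
    have h1 : aeval ηL P = ∑ m ∈ P.support, ((P.coeff m : ℤ) : L) *
        ((Finsupp.toMultiset m).toList.map ηL).prod := by
      conv_lhs => rw [P.as_sum, map_sum]
      refine Finset.sum_congr rfl fun m _ => ?_
      rw [aeval_monomial, eq_intCast]
      congr 1
      rw [← Multiset.prod_coe, ← Multiset.map_coe, Multiset.coe_toList, Finsupp.toMultiset_map,
        Finsupp.prod_toMultiset]
      rw [Finsupp.prod_mapDomain_index (fun _ => pow_zero _) (fun _ _ _ => pow_add _ _ _)]
    rw [h1, NP, map_sum, Finset.mul_sum, map_sum]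
    refine Finset.sum_congr rfl fun m hm => ?_
    have hcard := (card_le_totalDegree hm).trans hD
    have h2 : (algebraMap A F).mapMatrix ((((P.coeff m : ℤ) : A) *
        d ^ (D - Multiset.card (Finsupp.toMultiset m))) •
        ((Finsupp.toMultiset m).toList.map M).prod) =
        (((P.coeff m : ℤ) : F) * (algebraMap A F d) ^ (D - Multiset.card (Finsupp.toMultiset m))) •
        (algebraMap A F).mapMatrix (((Finsupp.toMultiset m).toList.map M).prod) := by
      ext r s
      simp only [RingHom.mapMatrix_apply, Matrix.map_apply, Matrix.smul_apply, smul_eq_mul,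
        map_mul, map_intCast, map_pow]
    rw [h2, hlist, Multiset.length_toList, smul_smul, mul_assoc, ← pow_add,
      Nat.sub_add_cancel hcard]
    rw [← map_smul]
    congr 1
    rw [Algebra.smul_def, map_mul, map_pow, map_intCast]
    ring
  refine ⟨_, d, M, hd0, fun P D hD => ?_⟩
  set z : L := algebraMap F L (algebraMap A F d) ^ D * aeval ηL P with hz
  have hzE : (z : E) = algebraMap A E d ^ D * aeval η P := by
    rw [hz]
    have h1 : ((aeval ηL P : L) : E) = aeval η P := by
      have := map_aeval ηL (algebraMap L E) P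
      rw [show (algebraMap L E) (aeval ηL P) = ((aeval ηL P : L) : E) from rfl] at this
      rw [this]
      rfl
    have h2 : ((algebraMap F L (algebraMap A F d) : L) : E) = algebraMap A E d := by
      rw [IsScalarTower.algebraMap_apply A F E]
      rfl
    have h3 : ((algebraMap F L (algebraMap A F d) ^ D * aeval ηL P : L) : E) =
        ((algebraMap F L (algebraMap A F d) : L) : E) ^ D * ((aeval ηL P : L) : E) := rfl
    rw [h3, h1, h2]
  have hchar : ((NP d M D P).charpoly).map (algebraMap A F) = (μ z).charpoly := by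
    rw [← Matrix.charpoly_map]
    have := hNP P D hD
    rw [RingHom.mapMatrix_apply] at this
    rw [this]
  constructor
  · have h1 : Polynomial.aeval z ((NP d M D P).charpoly.map (algebraMap A F)) = 0 := by
      apply hμinj
      rw [hchar, map_zero, ← Polynomial.aeval_algHom_apply]
      exact Matrix.aeval_self_charpoly _
    have h2 := congrArg (algebraMap L E) h1
    rw [map_zero, ← Polynomial.aeval_algebraMap_apply] at h2
    have h3 : algebraMap L E z = algebraMap A E d ^ D * aeval η P := hzE
    rw [h3, Polynomial.aeval_map_algebraMap] at h2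
    exact h2
  · intro hne hdet
    have h1 : z ≠ 0 := by
      intro h0
      have : (z : E) = 0 := by rw [h0]; rfl
      rw [hzE] at this
      rcases mul_eq_zero.mp this with h | h
      · have h3 : algebraMap A E d = 0 := by
          by_contra hcon
          exact pow_ne_zero D hcon h
        exact hd0 ((FaithfulSMul.algebraMap_eq_zero_iff A E).mp h3)
      · exact hne h
    have h2 : (μ z).det ≠ 0 := by
      have := (Algebra.norm_ne_zero_iff (R := F) (S := L) (x := z)).mpr h1
      rwa [Algebra.norm_eq_matrix_det b] at this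
    apply h2
    have h3 := hNP P D hD
    rw [← h3, ← RingHom.map_det, hdet, map_zero]

end General

section SizeBound

variable {ρ ι : Type*} {n : ℕ}

/-- sum of the sizes of the entries -/
def ml1 (M : Matrix (Fin n) (Fin n) (MvPolynomial ρ ℤ)) : ℕ := ∑ i, ∑ j, l1 (M i j)

lemma l1_le_ml1 (M : Matrix (Fin n) (Fin n) (MvPolynomial ρ ℤ)) (i j : Fin n) :
    l1 (M i j) ≤ ml1 M := by
  refine (Finset.single_le_sum (f := fun j => l1 (M i j)) (fun _ _ => Nat.zero_le _)
    (Finset.mem_univ j)).trans ?_
  exact Finset.single_le_sum (f := fun i => ∑ j, l1 (M i j)) (fun _ _ => Nat.zero_le _)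
    (Finset.mem_univ i)

lemma ml1_one : ml1 (1 : Matrix (Fin n) (Fin n) (MvPolynomial ρ ℤ)) ≤ n := by
  have h1 : ∀ i : Fin n, ∑ j, l1 ((1 : Matrix (Fin n) (Fin n) (MvPolynomial ρ ℤ)) i j) = 1 := by
    intro i
    rw [Finset.sum_eq_single i]
    · rw [Matrix.one_apply_eq, l1_one]
    · intro j _ hj
      rw [Matrix.one_apply_ne (Ne.symm hj), l1_zero]
    · simp
  simp only [ml1, h1, Finset.sum_const, Finset.card_univ, Fintype.card_fin, smul_eq_mul, mul_one]
  exact le_rfl

lemma ml1_mul (M M' : Matrix (Fin n) (Fin n) (MvPolynomial ρ ℤ)) :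
    ml1 (M * M') ≤ ml1 M * ml1 M' := by
  have h1 : ∀ i j, l1 ((M * M') i j) ≤ ∑ k, l1 (M i k) * l1 (M' k j) := by
    intro i j
    rw [Matrix.mul_apply]
    exact (l1_sum_le _ _).trans (Finset.sum_le_sum fun k _ => l1_mul_le _ _)
  calc ml1 (M * M') ≤ ∑ i, ∑ j, ∑ k, l1 (M i k) * l1 (M' k j) :=
        Finset.sum_le_sum fun i _ => Finset.sum_le_sum fun j _ => h1 i j
    _ = ∑ i, ∑ k, l1 (M i k) * ∑ j, l1 (M' k j) := by
        refine Finset.sum_congr rfl fun i _ => ?_
        rw [Finset.sum_comm]
        exact Finset.sum_congr rfl fun k _ => (Finset.mul_sum _ _ _).symm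
    _ ≤ ∑ i, ∑ k, l1 (M i k) * ml1 M' := by
        refine Finset.sum_le_sum fun i _ => Finset.sum_le_sum fun k _ => ?_
        exact Nat.mul_le_mul_left _ (Finset.single_le_sum (f := fun k => ∑ j, l1 (M' k j))
          (fun _ _ => Nat.zero_le _) (Finset.mem_univ k))
    _ = ml1 M * ml1 M' := by
        have e : ml1 M = ∑ i, ∑ k, l1 (M i k) := rfl
        rw [e, Finset.sum_mul]
        exact Finset.sum_congr rfl fun i _ => (Finset.sum_mul _ _ _).symm

lemma ml1_list {M : ι → Matrix (Fin n) (Fin n) (MvPolynomial ρ ℤ)} {B : ℕ}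
    (hM : ∀ i, ml1 (M i) ≤ B) (l : List ι) : ml1 ((l.map M).prod) ≤ n * B ^ l.length := by
  induction l with
  | nil => simpa using ml1_one
  | cons i l ih =>
    rw [List.map_cons, List.prod_cons, List.length_cons, pow_succ]
    calc _ ≤ _ := ml1_mul _ _
      _ ≤ B * (n * B ^ l.length) := Nat.mul_le_mul (hM i) ih
      _ = _ := by ring

lemma mdeg_list {M : ι → Matrix (Fin n) (Fin n) (MvPolynomial ρ ℤ)} {e : ℕ}
    (hM : ∀ i r s, (M i r s).totalDegree ≤ e) (l : List ι) (r s : Fin n) :
    (((l.map M).prod) r s).totalDegree ≤ e * l.length := by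
  induction l generalizing r with
  | nil =>
    simp only [List.map_nil, List.prod_nil, List.length_nil, mul_zero, Nat.le_zero]
    by_cases h : r = s
    · rw [h, Matrix.one_apply_eq, totalDegree_one]
    · rw [Matrix.one_apply_ne h, totalDegree_zero]
  | cons i l ih =>
    rw [List.map_cons, List.prod_cons, List.length_cons, Matrix.mul_apply]
    refine (totalDegree_finsetSum _ _).trans (Finset.sup_le fun k _ => ?_)
    refine (totalDegree_mul _ _).trans ?_
    calc _ ≤ e + e * l.length := Nat.add_le_add (hM i r k) (ih k)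
      _ = _ := by ring

/-- size of the eliminant -/
theorem elim_size [Finite ι] (d : MvPolynomial ρ ℤ)
    (M : ι → Matrix (Fin n) (Fin n) (MvPolynomial ρ ℤ)) :
    ∃ κ₀ : ℕ, ∀ D, 1 ≤ D → ∀ P : MvPolynomial ι ℤ, Sz D P → Sz (κ₀ * D) (NP d M D P).det := by
  classical
  have := Fintype.ofFinite ι
  set B := 1 + l1 d + ∑ i, ml1 (M i) with hB
  set e := d.totalDegree + ∑ i, ∑ r, ∑ s, (M i r s).totalDegree with he
  have hMB : ∀ i, ml1 (M i) ≤ B := fun i => by
    have := Finset.single_le_sum (f := fun i => ml1 (M i)) (fun _ _ => Nat.zero_le _)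
      (Finset.mem_univ i)
    omega
  have hMe : ∀ i r s, (M i r s).totalDegree ≤ e := fun i r s => by
    have h1 := Finset.single_le_sum (f := fun s => (M i r s).totalDegree)
      (fun _ _ => Nat.zero_le _) (Finset.mem_univ s)
    have h2 := Finset.single_le_sum (f := fun r => ∑ s, (M i r s).totalDegree)
      (fun _ _ => Nat.zero_le _) (Finset.mem_univ r)
    have h3 := Finset.single_le_sum (f := fun i => ∑ r, ∑ s, (M i r s).totalDegree)
      (fun _ _ => Nat.zero_le _) (Finset.mem_univ i)
    omega
  have hdB : l1 d ≤ B := by omega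
  have hde : d.totalDegree ≤ e := by omega
  have hB2 : B ≤ 2 ^ B := Nat.lt_two_pow_self.le
  refine ⟨n.factorial + n * n + n * (1 + B) + n * e, fun D hD P hP => ?_⟩
  -- entries
  have hentry : ∀ r s, (NP d M D P r s) = ∑ m ∈ P.support,
      (((P.coeff m : ℤ) : MvPolynomial ρ ℤ) *
        d ^ (D - Multiset.card (Finsupp.toMultiset m))) *
        ((Finsupp.toMultiset m).toList.map M).prod r s := by
    intro r s
    rw [NP, Matrix.sum_apply]
    rfl
  have hcoeff : ∀ m, (((P.coeff m : ℤ) : MvPolynomial ρ ℤ)) = C (P.coeff m) := fun m => by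
    rw [← eq_intCast (C : ℤ →+* MvPolynomial ρ ℤ)]
  have hdeg : ∀ r s, (NP d M D P r s).totalDegree ≤ e * D := by
    intro r s
    rw [hentry]
    refine (totalDegree_finsetSum _ _).trans (Finset.sup_le fun m hm => ?_)
    have hc := (card_le_totalDegree hm).trans hP.1
    refine (totalDegree_mul _ _).trans ?_
    have h1 := mdeg_list hMe (Finsupp.toMultiset m).toList r s
    rw [Multiset.length_toList] at h1
    have h2 : ((((P.coeff m : ℤ) : MvPolynomial ρ ℤ)) *
        d ^ (D - Multiset.card (Finsupp.toMultiset m))).totalDegree ≤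
        e * (D - Multiset.card (Finsupp.toMultiset m)) := by
      refine (totalDegree_mul _ _).trans ?_
      rw [hcoeff, totalDegree_C, zero_add]
      refine (totalDegree_pow _ _).trans ?_
      rw [mul_comm]
      exact Nat.mul_le_mul_right _ hde
    calc _ ≤ e * (D - Multiset.card (Finsupp.toMultiset m)) +
          e * Multiset.card (Finsupp.toMultiset m) := Nat.add_le_add h2 h1
      _ = e * D := by rw [← Nat.mul_add, Nat.sub_add_cancel hc]
  have hl1 : ∀ r s, l1 (NP d M D P r s) ≤ n * 2 ^ D * B ^ D := by
    intro r s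
    rw [hentry]
    refine (l1_sum_le _ _).trans ?_
    have h1 : ∀ m ∈ P.support, l1 ((((P.coeff m : ℤ) : MvPolynomial ρ ℤ) *
        d ^ (D - Multiset.card (Finsupp.toMultiset m))) *
        ((Finsupp.toMultiset m).toList.map M).prod r s) ≤
        (P.coeff m).natAbs * (n * B ^ D) := by
      intro m hm
      have hc := (card_le_totalDegree hm).trans hP.1
      have h2 : l1 (((Finsupp.toMultiset m).toList.map M).prod r s) ≤
          n * B ^ Multiset.card (Finsupp.toMultiset m) := by
        have := (l1_le_ml1 _ r s).trans (ml1_list hMB (Finsupp.toMultiset m).toList)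
        rwa [Multiset.length_toList] at this
      refine (l1_mul_le _ _).trans ?_
      calc _ ≤ ((P.coeff m).natAbs * B ^ (D - Multiset.card (Finsupp.toMultiset m))) *
            (n * B ^ Multiset.card (Finsupp.toMultiset m)) := by
            refine Nat.mul_le_mul ?_ h2
            refine (l1_mul_le _ _).trans ?_
            rw [hcoeff, l1_C]
            exact Nat.mul_le_mul_left _ ((l1_pow_le _ _).trans (Nat.pow_le_pow_left hdB _))
        _ = (P.coeff m).natAbs * (n * (B ^ (D - Multiset.card (Finsupp.toMultiset m)) *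
            B ^ Multiset.card (Finsupp.toMultiset m))) := by ring
        _ = _ := by rw [← pow_add, Nat.sub_add_cancel hc]
    refine (Finset.sum_le_sum h1).trans ?_
    rw [← Finset.sum_mul]
    calc (∑ m ∈ P.support, (P.coeff m).natAbs) * (n * B ^ D) ≤ 2 ^ D * (n * B ^ D) :=
          Nat.mul_le_mul_right _ hP.2
      _ = _ := by ring
  -- the determinant
  have hdet : (NP d M D P).det = ∑ τ : Equiv.Perm (Fin n),
      C ((Equiv.Perm.sign τ : ℤˣ) : ℤ) * ∏ i, NP d M D P (τ i) i := by
    rw [Matrix.det_apply']
    refine Finset.sum_congr rfl fun τ _ => ?_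
    congr 1
  constructor
  · rw [hdet]
    refine (totalDegree_finsetSum _ _).trans (Finset.sup_le fun τ _ => ?_)
    refine (totalDegree_mul _ _).trans ?_
    rw [totalDegree_C, zero_add]
    refine (totalDegree_finsetProd _ _).trans ?_
    refine (Finset.sum_le_sum fun i _ => hdeg (τ i) i).trans ?_
    rw [Finset.sum_const, Finset.card_univ, Fintype.card_fin, smul_eq_mul, ← mul_assoc]
    apply Nat.mul_le_mul_right
    omega
  · rw [hdet]
    refine (l1_sum_le _ _).trans ?_
    have h1 : ∀ τ : Equiv.Perm (Fin n), l1 (C ((Equiv.Perm.sign τ : ℤˣ) : ℤ) *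
        ∏ i, NP d M D P (τ i) i) ≤ (n * 2 ^ D * B ^ D) ^ n := by
      intro τ
      refine (l1_mul_le _ _).trans ?_
      rw [l1_C, Int.units_natAbs, one_mul]
      refine (l1_prod_le _ _).trans ?_
      calc ∏ i, l1 (NP d M D P (τ i) i) ≤ ∏ _i : Fin n, (n * 2 ^ D * B ^ D) :=
            Finset.prod_le_prod' fun i _ => hl1 (τ i) i
        _ = _ := by rw [Finset.prod_const, Finset.card_univ, Fintype.card_fin]
    refine (Finset.sum_le_sum fun τ _ => h1 τ).trans ?_
    rw [Finset.sum_const, Finset.card_univ, Fintype.card_perm, Fintype.card_fin, smul_eq_mul]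
    calc n.factorial * (n * 2 ^ D * B ^ D) ^ n ≤
          2 ^ n.factorial * (2 ^ n * 2 ^ D * (2 ^ B) ^ D) ^ n := by
          gcongr
          · exact Nat.lt_two_pow_self.le
          · exact Nat.lt_two_pow_self.le
      _ = 2 ^ (n.factorial + n * n + n * (1 + B) * D) := by
          rw [← pow_mul, ← pow_add, ← pow_add, ← pow_mul, ← pow_add]
          congr 1
          ring
      _ ≤ _ := by
          apply Nat.pow_le_pow_right (by norm_num)
          have e1 : n.factorial ≤ n.factorial * D := Nat.le_mul_of_pos_right _ (by omega)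
          have e2 : n * n ≤ n * n * D := Nat.le_mul_of_pos_right _ (by omega)
          calc n.factorial + n * n + n * (1 + B) * D ≤
                n.factorial * D + n * n * D + n * (1 + B) * D + n * e * D := by omega
            _ = _ := by ring

end SizeBound

end

end Pool.Agent.Helper86.DML
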