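import Mathlib
import Pool.Agent.Helper86.DML.Size

/-!
# `p`-adic integers with a measure of algebraic independence
-/

namespace Pool.Agent.Helper86.DML

open MvPolynomial

section Option

variable {ρ : Type*}

lemma Sz.coeff_option {D : ℕ} {P : MvPolynomial (Option ρ) ℤ} (hP : Sz D P) (k : ℕ) :
    Sz D ((optionEquivLeft ℤ ρ P).coeff k) := by
  classical
  refine ⟨(totalDegree_coeff_optionEquivLeft_le ℤ ρ P k).trans hP.1, le_trans ?_ hP.2⟩
  have h1 : Function.Injective (fun m : ρ →₀ ℕ => m.optionElim k) := by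
    intro m m' h
    have := congrArg Finsupp.some h
    simpa using this
  calc l1 ((optionEquivLeft ℤ ρ P).coeff k) =
        ∑ m ∈ ((optionEquivLeft ℤ ρ P).coeff k).support, (P.coeff (m.optionElim k)).natAbs := by
        rw [l1]
        refine Finset.sum_congr rfl fun m _ => ?_
        rw [optionEquivLeft_coeff_coeff]
    _ = ∑ m ∈ ((optionEquivLeft ℤ ρ P).coeff k).support.image (fun m => m.optionElim k),
        (P.coeff m).natAbs := by
        rw [Finset.sum_image (fun a _ b _ h => h1 h)]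
    _ ≤ l1 P := by
        refine Finset.sum_le_sum_of_subset fun m hm => ?_
        obtain ⟨m', hm', rfl⟩ := Finset.mem_image.mp hm
        exact (mem_support_coeff_optionEquivLeft ℤ).mp hm'

lemma aeval_option {Ω : Type*} [CommRing Ω] [Algebra ℤ Ω] (z : Ω) (y : ρ → Ω)
    (P : MvPolynomial (Option ρ) ℤ) :
    aeval (fun o => Option.elim o z y) P =
      ((optionEquivLeft ℤ ρ P).map ((aeval y : MvPolynomial ρ ℤ →ₐ[ℤ] Ω) : _ →+* Ω)).eval z := by
  induction P using MvPolynomial.induction_on with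
  | C a =>
    rw [optionEquivLeft_C, Polynomial.map_C, Polynomial.eval_C]
    simp
  | add P Q hP hQ => rw [map_add, map_add, Polynomial.map_add, Polynomial.eval_add, hP, hQ]
  | mul_X P o hP =>
    rw [map_mul, map_mul, Polynomial.map_mul, Polynomial.eval_mul, hP, aeval_X]
    congr 1
    rcases o with _ | i
    · rw [optionEquivLeft_X_none, Polynomial.map_X, Polynomial.eval_X]
      rfl
    · rw [optionEquivLeft_X_some, Polynomial.map_C, Polynomial.eval_C]
      simp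

end Option

section Coeff

variable {p : ℕ} [hp : Fact p.Prime]

lemma padicInt_sub_lt {a b : ℤ_[p]} {ε : ℝ} (ha : ‖a‖ < ε) (hb : ‖b‖ < ε) : ‖a - b‖ < ε := by
  have h1 : ‖a - b‖ ≤ max ‖a‖ ‖b‖ := by
    have := PadicInt.nonarchimedean a (-b)
    rwa [norm_neg, ← sub_eq_add_neg] at this
  exact h1.trans_lt (max_lt ha hb)

/-- the coefficients of a polynomial with small values at many distant points are small -/
lemma coeff_lt_of_small {s : ℝ} (hs : 0 < s) (hs1 : s ≤ 1) : ∀ (D : ℕ) (Q : Polynomial ℤ_[p])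
    (_ : Q.natDegree ≤ D) (t : Fin (D + 1) → ℤ_[p]) (_ : ∀ i j, i ≠ j → s ≤ ‖t i - t j‖)
    (ε : ℝ) (_ : ∀ i, ‖Q.eval (t i)‖ < ε) (k : ℕ), ‖Q.coeff k‖ < ε / s ^ D := by
  intro D
  induction D with
  | zero =>
    intro Q hQ t _ ε hε k
    have hεpos : 0 < ε := (norm_nonneg _).trans_lt (hε 0)
    rw [Nat.le_zero] at hQ
    rw [Polynomial.eq_C_of_natDegree_eq_zero hQ]
    rw [pow_zero, div_one]
    rcases k with _ | k
    · have h1 := hε 0
      rw [Polynomial.eq_C_of_natDegree_eq_zero hQ, Polynomial.eval_C] at h1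
      simpa using h1
    · rw [Polynomial.coeff_C_succ, norm_zero]
      exact hεpos
  | succ D ih =>
    intro Q hQ t ht ε hε k
    have hεpos : 0 < ε := (norm_nonneg _).trans_lt (hε 0)
    set Q₁ := Q /ₘ (Polynomial.X - Polynomial.C (t 0)) with hQ₁
    have hdecomp : Q = Polynomial.C (Q.eval (t 0)) + (Polynomial.X - Polynomial.C (t 0)) * Q₁ := by
      rw [← Polynomial.modByMonic_X_sub_C_eq_C_eval, hQ₁, Polynomial.modByMonic_add_div]
    have hdeg : Q₁.natDegree ≤ D := by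
      rw [hQ₁, Polynomial.natDegree_divByMonic _ (Polynomial.monic_X_sub_C _),
        Polynomial.natDegree_X_sub_C]
      omega
    have hval : ∀ i : Fin (D + 1), ‖Q₁.eval (t i.succ)‖ < ε / s := by
      intro i
      have h1 := congrArg (Polynomial.eval (t i.succ)) hdecomp
      rw [Polynomial.eval_add, Polynomial.eval_C, Polynomial.eval_mul, Polynomial.eval_sub,
        Polynomial.eval_X, Polynomial.eval_C] at h1
      have h2 : (t i.succ - t 0) * Q₁.eval (t i.succ) = Q.eval (t i.succ) - Q.eval (t 0) := by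
        linear_combination -h1
      have h3 : ‖t i.succ - t 0‖ * ‖Q₁.eval (t i.succ)‖ < ε := by
        rw [← norm_mul, h2]
        exact padicInt_sub_lt (hε _) (hε _)
      have h4 := ht i.succ 0 (Fin.succ_ne_zero i)
      rw [lt_div_iff₀ hs]
      calc ‖Q₁.eval (t i.succ)‖ * s ≤ ‖Q₁.eval (t i.succ)‖ * ‖t i.succ - t 0‖ := by gcongr
        _ = ‖t i.succ - t 0‖ * ‖Q₁.eval (t i.succ)‖ := mul_comm _ _
        _ < ε := h3
    have h5 := ih Q₁ hdeg (fun i => t i.succ) (fun i j hij => ht _ _ (by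
      intro h
      exact hij (Fin.succ_injective _ h))) (ε / s) hval
    have h6 : ∀ k, ‖Q₁.coeff k‖ < ε / s ^ (D + 1) := by
      intro k
      have := h5 k
      rwa [div_div, ← pow_succ'] at this
    have h7 : ε ≤ ε / s ^ (D + 1) := by
      rw [le_div_iff₀ (by positivity)]
      exact mul_le_of_le_one_right hεpos.le (pow_le_one₀ hs.le hs1)
    rw [hdecomp, sub_mul]
    have h8 : ‖(Polynomial.C (Q.eval (t 0))).coeff k‖ < ε / s ^ (D + 1) := by
      rcases k with _ | k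
      · rw [Polynomial.coeff_C_zero]
        exact (hε 0).trans_le h7
      · rw [Polynomial.coeff_C_succ, norm_zero]
        positivity
    have h9 : ‖(Polynomial.X * Q₁).coeff k‖ < ε / s ^ (D + 1) := by
      rcases k with _ | k
      · rw [Polynomial.coeff_X_mul_zero, norm_zero]
        positivity
      · rw [Polynomial.coeff_X_mul]
        exact h6 k
    have h10 : ‖(Polynomial.C (t 0) * Q₁).coeff k‖ < ε / s ^ (D + 1) := by
      rw [Polynomial.coeff_C_mul, norm_mul]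
      calc ‖t 0‖ * ‖Q₁.coeff k‖ ≤ 1 * ‖Q₁.coeff k‖ := by
            gcongr
            exact PadicInt.norm_le_one _
        _ < _ := by rw [one_mul]; exact h6 k
    rw [Polynomial.coeff_add, Polynomial.coeff_sub]
    have h11 := padicInt_sub_lt h9 h10
    have h12 : ‖(Polynomial.C (Q.eval (t 0))).coeff k - (-((Polynomial.X * Q₁).coeff k -
      (Polynomial.C (t 0) * Q₁).coeff k))‖ < ε / s ^ (D + 1) :=
      padicInt_sub_lt h8 (by rwa [norm_neg])
    rwa [sub_neg_eq_add] at h12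

end Coeff

section Stage

variable {p : ℕ} [hp : Fact p.Prime] {ρ : Type*} [Fintype ρ]

/-- number of codes -/
def NC (ρ : Type*) [Fintype ρ] (D : ℕ) : ℕ :=
  (2 ^ (D + 1) + 1) ^ (D + 1) ^ Fintype.card (Option ρ)

/-- the code of a polynomial of size at most `D` -/
noncomputable def code (D : ℕ) (P : MvPolynomial (Option ρ) ℤ) :
    (Option ρ → Fin (D + 1)) → Fin (2 ^ (D + 1) + 1) := fun f =>
  if h : (P.coeff (Finsupp.equivFunOnFinite.symm fun i => (f i : ℕ)) + 2 ^ D).toNat <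
    2 ^ (D + 1) + 1 then ⟨_, h⟩ else 0

lemma natAbs_coeff_le {κ : Type*} (P : MvPolynomial κ ℤ) (m : κ →₀ ℕ) :
    (P.coeff m).natAbs ≤ l1 P := by
  by_cases hm : m ∈ P.support
  · exact Finset.single_le_sum (f := fun m => (P.coeff m).natAbs) (fun _ _ => Nat.zero_le _) hm
  · rw [notMem_support_iff.mp hm]
    simp

lemma code_inj {D : ℕ} {P Q : MvPolynomial (Option ρ) ℤ} (hP : Sz D P) (hQ : Sz D Q)
    (h : code D P = code D Q) : P = Q := by
  have key : ∀ R : MvPolynomial (Option ρ) ℤ, Sz D R → ∀ m, -(2 ^ D) ≤ R.coeff m ∧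
      R.coeff m ≤ 2 ^ D := by
    intro R hR m
    have h1 := (natAbs_coeff_le R m).trans hR.2
    have h2 : |R.coeff m| ≤ 2 ^ D := by
      rw [Int.abs_eq_natAbs]
      exact_mod_cast h1
    exact abs_le.mp h2
  ext m
  by_cases hm : ∀ i, m i ≤ D
  · have h1 := congrFun h fun i => ⟨m i, by have := hm i; omega⟩
    have h2 : (Finsupp.equivFunOnFinite.symm fun i =>
        (((⟨m i, by have := hm i; omega⟩ : Fin (D + 1)) : ℕ))) = m := by
      ext i
      simp
    have e2 : (2 : ℤ) ^ (D + 1) = 2 * 2 ^ D := pow_succ' 2 D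
    have hP' := key P hP m
    have hQ' := key Q hQ m
    simp only [code] at h1
    rw [h2] at h1
    have e3 : ((2 ^ (D + 1) + 1 : ℕ) : ℤ) = 2 ^ (D + 1) + 1 := by push_cast; ring
    rw [dif_pos (by omega), dif_pos (by omega)] at h1
    have h3 := Fin.mk.inj_iff.mp h1
    omega
  · push Not at hm
    obtain ⟨i, hi⟩ := hm
    have key2 : ∀ R : MvPolynomial (Option ρ) ℤ, Sz D R → R.coeff m = 0 := by
      intro R hR
      by_contra hne
      have h1 : m ∈ R.support := mem_support_iff.mpr hne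
      have h2 := (monomial_le_degreeOf i h1).trans (degreeOf_le_totalDegree R i)
      have := hR.1
      omega
    rw [key2 P hP, key2 Q hQ]

/-- one step of the construction -/
lemma stage (y : ρ → ℤ_[p]) {δ : ℝ} (_ : 0 < δ) {D : ℕ}
    (hy : ∀ P : MvPolynomial ρ ℤ, Sz D P → P ≠ 0 → δ ≤ ‖aeval y P‖) (z : ℤ_[p]) (m t : ℕ)
    (ht : NC ρ D * (D + 1) < p ^ t) :
    ∃ z' : ℤ_[p], ‖z' - z‖ ≤ (p : ℝ) ^ (-(m : ℤ)) ∧
      ∀ z'' : ℤ_[p], ‖z'' - z'‖ ≤ (p : ℝ) ^ (-((m + t : ℕ) : ℤ)) →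
        ∀ P : MvPolynomial (Option ρ) ℤ, Sz D P → P ≠ 0 →
          δ * ((p : ℝ) ^ (-((m + t : ℕ) : ℤ))) ^ D ≤
            ‖aeval (fun o => Option.elim o z'' y) P‖ := by
  classical
  by_contra hcon
  push Not at hcon
  set s : ℝ := (p : ℝ) ^ (-((m + t : ℕ) : ℤ)) with hs
  have hp1 : (1 : ℝ) < p := by exact_mod_cast hp.out.one_lt
  have hs0 : 0 < s := by positivity
  have hs1 : s ≤ 1 := by
    rw [hs, zpow_neg, zpow_natCast]
    exact inv_le_one_of_one_le₀ (one_le_pow₀ hp1.le)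
  have hpow : ∀ n : ℕ, ‖((p : ℤ_[p]) ^ n)‖ = (p : ℝ) ^ (-(n : ℤ)) := fun n => PadicInt.norm_p_pow n
  -- bad polynomials for each class
  have hbad : ∀ a : Fin (p ^ t), ∃ (z'' : ℤ_[p]) (P : MvPolynomial (Option ρ) ℤ),
      ‖z'' - (z + (p : ℤ_[p]) ^ m * (a : ℕ))‖ ≤ s ∧ Sz D P ∧ P ≠ 0 ∧
      ‖aeval (fun o => Option.elim o z'' y) P‖ < δ * s ^ D := by
    intro a
    obtain ⟨z'', h1, P, h2, h3, h4⟩ := hcon (z + (p : ℤ_[p]) ^ m * (a : ℕ)) (by
      rw [add_sub_cancel_left, norm_mul, hpow]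
      exact mul_le_of_le_one_right (by positivity) (PadicInt.norm_le_one _))
    exact ⟨z'', P, h1, h2, h3, h4⟩
  choose z'' P hz'' hPs hP0 hPv using hbad
  obtain ⟨b, hb⟩ := Fintype.exists_lt_card_fiber_of_mul_lt_card (f := fun a => code D (P a))
    (n := D + 1) (by
      rw [Fintype.card_fun, Fintype.card_fun, Fintype.card_fin, Fintype.card_fin, Fintype.card_fin]
      exact ht)
  obtain ⟨S, hSsub, hScard⟩ := Finset.exists_subset_card_eq hb.le
  have hSn : S.card = D + 1 := hScard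
  let e := S.equivFinOfCardEq hSn
  let a : Fin (D + 1) → Fin (p ^ t) := fun i => (e.symm i : Fin (p ^ t))
  have ha : Function.Injective a := fun i j h => e.symm.injective (Subtype.ext h)
  have hcode : ∀ i, code D (P (a i)) = b := by
    intro i
    have := hSsub (e.symm i).2
    rw [Finset.mem_filter] at this
    exact this.2
  have hPeq : ∀ i, P (a i) = P (a 0) := fun i =>
    code_inj (hPs _) (hPs _) ((hcode i).trans (hcode 0).symm)
  -- the points are far from each other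
  have hdist : ∀ i j, i ≠ j → s ≤ ‖z'' (a i) - z'' (a j)‖ := by
    intro i j hij
    have h1 : s < ‖((p : ℤ_[p]) ^ m * (((a i : ℕ) : ℤ_[p]) - ((a j : ℕ) : ℤ_[p])))‖ := by
      by_contra hcon2
      push Not at hcon2
      rw [hs, PadicInt.norm_le_pow_iff_mem_span_pow, Ideal.mem_span_singleton] at hcon2
      rw [pow_add] at hcon2
      have h2 := (mul_dvd_mul_iff_left (pow_ne_zero m (by
        exact_mod_cast hp.out.ne_zero : (p : ℤ_[p]) ≠ 0))).mp hcon2
      have h3 : ((p : ℤ_[p]) ^ t) ∣ (((a i : ℕ) : ℤ) - ((a j : ℕ) : ℤ) : ℤ) := by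
        push_cast
        exact h2
      have h4 := (PadicInt.pow_p_dvd_int_iff (p := p) t _).mp h3
      have h5 := (a i).2
      have h6 := (a j).2
      have h7 : (a i : ℕ) ≠ (a j : ℕ) := fun h => hij (ha (Fin.ext h))
      have h8 := Int.le_of_dvd (a := (p : ℤ) ^ t) (b := |((a i : ℕ) : ℤ) - ((a j : ℕ) : ℤ)|)
        (by
          apply abs_pos.mpr
          omega) ((dvd_abs _ _).mpr h4)
      have h9 : |((a i : ℕ) : ℤ) - ((a j : ℕ) : ℤ)| < ((p ^ t : ℕ) : ℤ) := by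
        rw [abs_lt]
        constructor <;> omega
      push_cast at h9
      omega
    by_contra hcon2
    push Not at hcon2
    have h2 : ((p : ℤ_[p]) ^ m * (((a i : ℕ) : ℤ_[p]) - ((a j : ℕ) : ℤ_[p]))) =
        (z'' (a i) - z'' (a j)) - ((z'' (a i) - (z + (p : ℤ_[p]) ^ m * ((a i : ℕ) : ℤ_[p]))) -
          (z'' (a j) - (z + (p : ℤ_[p]) ^ m * ((a j : ℕ) : ℤ_[p])))) := by ring
    have h3 : ‖(z'' (a i) - z'' (a j)) - ((z'' (a i) - (z + (p : ℤ_[p]) ^ m * ((a i : ℕ) : ℤ_[p]))) -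
          (z'' (a j) - (z + (p : ℤ_[p]) ^ m * ((a j : ℕ) : ℤ_[p]))))‖ ≤ s := by
      have n1 := PadicInt.nonarchimedean (z'' (a i) - (z + (p : ℤ_[p]) ^ m * ((a i : ℕ) : ℤ_[p])))
        (-(z'' (a j) - (z + (p : ℤ_[p]) ^ m * ((a j : ℕ) : ℤ_[p]))))
      rw [norm_neg, ← sub_eq_add_neg] at n1
      have n2 := PadicInt.nonarchimedean (z'' (a i) - z'' (a j))
        (-((z'' (a i) - (z + (p : ℤ_[p]) ^ m * ((a i : ℕ) : ℤ_[p]))) -
          (z'' (a j) - (z + (p : ℤ_[p]) ^ m * ((a j : ℕ) : ℤ_[p])))))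
      rw [norm_neg, ← sub_eq_add_neg] at n2
      exact n2.trans (max_le hcon2.le (n1.trans (max_le (hz'' _) (hz'' _))))
    rw [← h2] at h3
    exact absurd h1 (not_lt.mpr h3)
  -- the polynomial
  set Q := (optionEquivLeft ℤ ρ (P (a 0))).map
    ((aeval y : MvPolynomial ρ ℤ →ₐ[ℤ] ℤ_[p]) : _ →+* ℤ_[p]) with hQ
  have hdegQ : Q.natDegree ≤ D := by
    refine (Polynomial.natDegree_map_le).trans ?_
    rw [natDegree_optionEquivLeft]
    exact (degreeOf_le_totalDegree _ _).trans (hPs _).1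
  have hval : ∀ i, ‖Q.eval (z'' (a i))‖ < δ * s ^ D := by
    intro i
    rw [hQ, ← aeval_option, ← hPeq i]
    exact hPv (a i)
  have hcoef := coeff_lt_of_small hs0 hs1 D Q hdegQ (fun i => z'' (a i)) hdist (δ * s ^ D) hval
  obtain ⟨k, hk⟩ : ∃ k, (optionEquivLeft ℤ ρ (P (a 0))).coeff k ≠ 0 := by
    by_contra hall
    push Not at hall
    apply hP0 (a 0)
    have : optionEquivLeft ℤ ρ (P (a 0)) = 0 := by
      ext1 k
      rw [hall k, Polynomial.coeff_zero]
    exact (map_eq_zero_iff _ (optionEquivLeft ℤ ρ).injective).mp this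
  have h1 := hcoef k
  rw [hQ, Polynomial.coeff_map, mul_div_assoc, div_self (by positivity), mul_one] at h1
  exact absurd (hy _ ((hPs (a 0)).coeff_option k) hk) (not_le.mpr h1)

end Stage

section LMsec

/-- a measure of algebraic independence -/
def LM {ρ Ω : Type*} [NormedCommRing Ω] (y : ρ → Ω) : Prop :=
  ∃ κ : ℕ, ∀ D, 1 ≤ D → ∀ P : MvPolynomial ρ ℤ, Sz D P → P ≠ 0 →
    (1 / 2 : ℝ) ^ (κ * D ^ κ) ≤ ‖aeval y P‖

lemma Sz.rename {κ ι : Type*} {D : ℕ} {P : MvPolynomial κ ℤ} (hP : Sz D P) (f : κ → ι) :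
    Sz D (MvPolynomial.rename f P) := by
  refine ⟨(totalDegree_rename_le f P).trans hP.1, le_trans ?_ hP.2⟩
  have h1 : MvPolynomial.rename f P = ∑ m ∈ P.support,
      monomial (m.mapDomain f) (P.coeff m) := by
    conv_lhs => rw [P.as_sum, map_sum]
    simp only [rename_monomial]
  rw [h1]
  refine (l1_sum_le _ _).trans ?_
  simp only [l1_monomial]
  exact le_rfl

lemma LM.equiv {ρ ρ' Ω : Type*} [NormedCommRing Ω] {y : ρ → Ω} (h : LM y) (e : ρ ≃ ρ') :
    LM (y ∘ e.symm) := by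
  obtain ⟨κ, hκ⟩ := h
  refine ⟨κ, fun D hD P hP hP0 => ?_⟩
  have h1 := hκ D hD (MvPolynomial.rename e.symm P) (hP.rename _) (by
    rw [Ne, map_eq_zero_iff _ (rename_injective _ e.symm.injective)]
    exact hP0)
  rwa [aeval_rename] at h1

lemma LM.algebraicIndependent {ρ Ω : Type*} [NormedCommRing Ω] {y : ρ → Ω} (h : LM y) :
    AlgebraicIndependent ℤ y := by
  rw [algebraicIndependent_iff]
  intro P hP
  by_contra hne
  obtain ⟨κ, hκ⟩ := h
  obtain ⟨D, hD⟩ := exists_Sz P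
  have h1 := hκ (D + 1) (by omega) P (hD.mono (by omega)) hne
  rw [hP, norm_zero] at h1
  have : (0 : ℝ) < (1 / 2 : ℝ) ^ (κ * (D + 1) ^ κ) := by positivity
  linarith

/-- exponents used in the construction -/
def tt (r D : ℕ) : ℕ := (D + 2) * (D + 1) ^ (r + 1) + (D + 1)

/-- levels used in the construction -/
def mm' (r : ℕ) : ℕ → ℕ
  | 0 => 1
  | D + 1 => mm' r D + tt r (D + 1)

lemma tt_le (r D : ℕ) (hD : 1 ≤ D) : tt r D ≤ (3 * 2 ^ (r + 1) + 2) * D ^ (r + 2) := by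
  have h1 : D + 2 ≤ 3 * D := by omega
  have h2 : (D + 1) ^ (r + 1) ≤ (2 * D) ^ (r + 1) := Nat.pow_le_pow_left (by omega) _
  have h3 : D ≤ D ^ (r + 2) := Nat.le_self_pow (by omega) D
  calc tt r D ≤ 3 * D * (2 * D) ^ (r + 1) + 2 * D :=
        Nat.add_le_add (Nat.mul_le_mul h1 h2) (by omega)
    _ = 3 * 2 ^ (r + 1) * D ^ (r + 2) + 2 * D := by rw [mul_pow]; ring
    _ ≤ 3 * 2 ^ (r + 1) * D ^ (r + 2) + 2 * D ^ (r + 2) := by gcongr
    _ = _ := by ring

lemma mm'_le (r D : ℕ) : mm' r D ≤ 1 + (3 * 2 ^ (r + 1) + 2) * D ^ (r + 3) := by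
  induction D with
  | zero => simp [mm']
  | succ D ih =>
    rw [mm']
    have h1 := tt_le r (D + 1) (by omega)
    set c := 3 * 2 ^ (r + 1) + 2 with hc
    have h2 : D ^ (r + 3) ≤ D * (D + 1) ^ (r + 2) := by
      rw [pow_succ', ]
      exact Nat.mul_le_mul_left _ (Nat.pow_le_pow_left (by omega) _)
    calc mm' r D + tt r (D + 1) ≤ 1 + c * D ^ (r + 3) + c * (D + 1) ^ (r + 2) := by omega
      _ ≤ 1 + c * (D * (D + 1) ^ (r + 2)) + c * (D + 1) ^ (r + 2) := by gcongr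
      _ = 1 + c * (D + 1) ^ (r + 3) := by ring

lemma NC_lt (p : ℕ) (hp : 2 ≤ p) (ρ : Type*) [Fintype ρ] (D : ℕ) :
    NC ρ D * (D + 1) < p ^ tt (Fintype.card ρ) D := by
  have h1 : NC ρ D ≤ 2 ^ ((D + 2) * (D + 1) ^ (Fintype.card ρ + 1)) := by
    rw [NC, Fintype.card_option, pow_mul]
    apply Nat.pow_le_pow_left
    have : 1 ≤ 2 ^ (D + 1) := Nat.one_le_two_pow
    calc 2 ^ (D + 1) + 1 ≤ 2 ^ (D + 1) + 2 ^ (D + 1) := by omega
      _ = 2 ^ (D + 2) := by ring
  have h2 : D + 1 < 2 ^ (D + 1) := Nat.lt_two_pow_self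
  have h3 : 0 < NC ρ D := by
    rw [NC]
    positivity
  calc NC ρ D * (D + 1) < NC ρ D * 2 ^ (D + 1) := Nat.mul_lt_mul_of_pos_left h2 h3
    _ ≤ 2 ^ ((D + 2) * (D + 1) ^ (Fintype.card ρ + 1)) * 2 ^ (D + 1) :=
        Nat.mul_le_mul_right _ h1
    _ = 2 ^ tt (Fintype.card ρ) D := by rw [← pow_add, tt]
    _ ≤ _ := Nat.pow_le_pow_left hp _

variable {p : ℕ} [hp : Fact p.Prime]

lemma LM_option {ρ : Type*} [Fintype ρ] {y : ρ → ℤ_[p]} (hy : LM y) (x : ℤ_[p]) :
    ∃ z : ℤ_[p], ‖z - x‖ ≤ (p : ℝ) ^ (-(1 : ℤ)) ∧ LM (fun o => Option.elim o z y) := by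
  obtain ⟨κ, hκ⟩ := hy
  have hp1 : (1 : ℝ) < p := by exact_mod_cast hp.out.one_lt
  set m : ℕ → ℕ := mm' (Fintype.card ρ) with hm
  let δ : ℕ → ℝ := fun D => (1 / 2 : ℝ) ^ (κ * D ^ κ)
  have hstep : ∀ D z, ∃ z' : ℤ_[p], ‖z' - z‖ ≤ (p : ℝ) ^ (-(m D : ℤ)) ∧
      ∀ z'' : ℤ_[p], ‖z'' - z'‖ ≤ (p : ℝ) ^ (-(m (D + 1) : ℤ)) →
        ∀ P : MvPolynomial (Option ρ) ℤ, Sz (D + 1) P → P ≠ 0 →
          δ (D + 1) * ((p : ℝ) ^ (-(m (D + 1) : ℤ))) ^ (D + 1) ≤
            ‖aeval (fun o => Option.elim o z'' y) P‖ := by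
    intro D z
    exact stage y (δ := δ (D + 1)) (by positivity) (fun P hP hP0 => hκ (D + 1) (by omega) P hP hP0)
      z (m D) (tt (Fintype.card ρ) (D + 1)) (NC_lt p hp.out.two_le ρ (D + 1))
  choose F hF1 hF2 using hstep
  let z : ℕ → ℤ_[p] := fun D => Nat.rec x (fun D z => F D z) D
  have hz0 : z 0 = x := rfl
  have hzs : ∀ D, z (D + 1) = F D (z D) := fun D => rfl
  have hmono : ∀ D, m D ≤ m (D + 1) := fun D => Nat.le_add_right _ _
  have hnest : ∀ D, Metric.closedBall (z (D + 1)) ((p : ℝ) ^ (-(m (D + 1) : ℤ))) ⊆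
      Metric.closedBall (z D) ((p : ℝ) ^ (-(m D : ℤ))) := by
    intro D u hu
    rw [Metric.mem_closedBall, dist_eq_norm] at hu ⊢
    have h1 := hF1 D (z D)
    rw [← hzs] at h1
    have h2 : (p : ℝ) ^ (-(m (D + 1) : ℤ)) ≤ (p : ℝ) ^ (-(m D : ℤ)) := by
      apply zpow_le_zpow_right₀ hp1.le
      have := hmono D
      omega
    have h3 := PadicInt.nonarchimedean (u - z (D + 1)) (z (D + 1) - z D)
    rw [sub_add_sub_cancel] at h3
    exact h3.trans (max_le (hu.trans h2) h1)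
  obtain ⟨u, hu⟩ : (⋂ D, Metric.closedBall (z D) ((p : ℝ) ^ (-(m D : ℤ)))).Nonempty := by
    apply IsCompact.nonempty_iInter_of_sequence_nonempty_isCompact_isClosed
    · exact hnest
    · intro D
      exact ⟨z D, Metric.mem_closedBall_self (by positivity)⟩
    · exact Metric.isClosed_closedBall.isCompact
    · intro D
      exact Metric.isClosed_closedBall
  rw [Set.mem_iInter] at hu
  have hu' : ∀ D, ‖u - z D‖ ≤ (p : ℝ) ^ (-(m D : ℤ)) := by
    intro D
    have := hu D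
    rwa [Metric.mem_closedBall, dist_eq_norm] at this
  refine ⟨u, by simpa [hm, mm', hz0] using hu' 0, ?_⟩
  set c := 3 * 2 ^ (Fintype.card ρ + 1) + 2 with hc
  refine ⟨κ + p * (1 + c) + Fintype.card ρ + 4, fun D hD P hP hP0 => ?_⟩
  obtain ⟨D, rfl⟩ : ∃ D', D = D' + 1 := ⟨D - 1, by omega⟩
  have h1 := hF2 D (z D) u (by rw [← hzs]; exact hu' (D + 1)) P hP hP0
  refine le_trans ?_ h1
  have hp2 : (p : ℝ) ≤ 2 ^ p := by exact_mod_cast Nat.lt_two_pow_self.le
  have h2 : (1 / 2 : ℝ) ^ (p * m (D + 1) * (D + 1)) ≤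
      ((p : ℝ) ^ (-(m (D + 1) : ℤ))) ^ (D + 1) := by
    rw [pow_mul, pow_mul, zpow_neg, zpow_natCast, ← inv_pow]
    apply pow_le_pow_left₀ (by positivity)
    apply pow_le_pow_left₀ (by positivity)
    rw [one_div, inv_pow]
    exact inv_anti₀ (by positivity) hp2
  have h3 := mm'_le (Fintype.card ρ) (D + 1)
  rw [← hc] at h3
  have h4 : κ * (D + 1) ^ κ + p * m (D + 1) * (D + 1) ≤
      (κ + p * (1 + c) + Fintype.card ρ + 4) *
        (D + 1) ^ (κ + p * (1 + c) + Fintype.card ρ + 4) := by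
    set E := κ + p * (1 + c) + Fintype.card ρ + 4 with hE
    have e1 : (D + 1) ^ κ ≤ (D + 1) ^ E := Nat.pow_le_pow_right (by omega) (by omega)
    have e2 : (D + 1) ^ (Fintype.card ρ + 4) ≤ (D + 1) ^ E :=
      Nat.pow_le_pow_right (by omega) (by omega)
    have e3 : m (D + 1) ≤ (1 + c) * (D + 1) ^ (Fintype.card ρ + 3) := by
      refine h3.trans ?_
      have h5 : 1 ≤ (D + 1) ^ (Fintype.card ρ + 3) := Nat.one_le_pow _ _ (by omega)
      calc 1 + c * (D + 1) ^ (Fintype.card ρ + 3) ≤ (D + 1) ^ (Fintype.card ρ + 3) +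
            c * (D + 1) ^ (Fintype.card ρ + 3) := Nat.add_le_add_right h5 _
        _ = _ := by ring
    calc κ * (D + 1) ^ κ + p * m (D + 1) * (D + 1) ≤
          κ * (D + 1) ^ E + p * ((1 + c) * (D + 1) ^ (Fintype.card ρ + 3)) * (D + 1) := by
          gcongr
      _ = κ * (D + 1) ^ E + p * (1 + c) * (D + 1) ^ (Fintype.card ρ + 4) := by ring
      _ ≤ κ * (D + 1) ^ E + p * (1 + c) * (D + 1) ^ E := by gcongr
      _ = (κ + p * (1 + c)) * (D + 1) ^ E := by ring
      _ ≤ _ := Nat.mul_le_mul_right _ (by omega)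
  calc (1 / 2 : ℝ) ^ ((κ + p * (1 + c) + Fintype.card ρ + 4) *
        (D + 1) ^ (κ + p * (1 + c) + Fintype.card ρ + 4)) ≤
        (1 / 2 : ℝ) ^ (κ * (D + 1) ^ κ + p * m (D + 1) * (D + 1)) :=
        pow_le_pow_of_le_one (by norm_num) (by norm_num) h4
    _ = (1 / 2 : ℝ) ^ (κ * (D + 1) ^ κ) * (1 / 2 : ℝ) ^ (p * m (D + 1) * (D + 1)) := pow_add _ _ _
    _ ≤ _ := by
        gcongr

/-- `p`-adic integers in given residue classes with a measure of algebraic independence -/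
theorem exists_LM (ρ : Type) [Finite ρ] (x : ρ → ℤ_[p]) :
    ∃ y : ρ → ℤ_[p], (∀ i, ‖y i - x i‖ ≤ (p : ℝ) ^ (-(1 : ℤ))) ∧ LM y := by
  revert x
  induction ρ using Finite.induction_empty_option with
  | of_equiv e h =>
    intro x
    obtain ⟨y, h1, h2⟩ := h (x ∘ e)
    refine ⟨y ∘ e.symm, fun i => ?_, h2.equiv e⟩
    have := h1 (e.symm i)
    simpa using this
  | h_empty =>
    intro x
    refine ⟨x, fun i => i.elim, 1, fun D hD P hP hP0 => ?_⟩
    obtain ⟨a, rfl⟩ := C_surjective PEmpty P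
    have ha : a ≠ 0 := fun h => hP0 (by rw [h, map_zero])
    rw [aeval_C, eq_intCast, one_mul, pow_one]
    have h1 := hP.2
    rw [l1_C] at h1
    have h2 : (1 : ℝ) ≤ ‖(a : ℤ_[p])‖ * a.natAbs := by
      have ha' : (a : ℤ_[p]) ≠ 0 := by exact_mod_cast ha
      have h3 := PadicInt.norm_eq_zpow_neg_valuation ha'
      have h4 := (PadicInt.norm_int_le_pow_iff_dvd (p := p) (k := a)
        (n := (a : ℤ_[p]).valuation)).mp h3.le
      have h5 := Int.le_of_dvd (abs_pos.mpr ha) ((dvd_abs _ _).mpr h4)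
      have h6 : (p : ℝ) ^ ((a : ℤ_[p]).valuation) ≤ (a.natAbs : ℝ) := by
        rw [Int.abs_eq_natAbs] at h5
        exact_mod_cast h5
      have hp0 : (0 : ℝ) < p := by exact_mod_cast hp.out.pos
      rw [h3, zpow_neg, zpow_natCast]
      rw [inv_mul_eq_div, one_le_div (by positivity)]
      exact h6
    have h3 : ((a.natAbs : ℕ) : ℝ) ≤ 2 ^ D := by exact_mod_cast h1
    rw [one_div, inv_pow, inv_le_iff_one_le_mul₀ (by positivity)]
    calc (1 : ℝ) ≤ ‖(a : ℤ_[p])‖ * a.natAbs := h2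
      _ ≤ ‖(a : ℤ_[p])‖ * 2 ^ D := by gcongr
  | @h_option α _ h =>
    intro x
    obtain ⟨y, h1, h2⟩ := h (fun i => x (some i))
    obtain ⟨z, h3, h4⟩ := LM_option h2 (x none)
    refine ⟨_, fun o => ?_, h4⟩
    rcases o with _ | i
    · exact h3
    · exact h1 i

end LMsec

end Pool.Agent.Helper86.DML
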