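import Mathlib
import Pool.Agent.Helper86.DML.Embed
import Pool.Agent.Helper86.DML.Trans

/-!
# Embeddings with a measure of algebraic independence
-/

namespace Pool.Agent.Helper86.DML

open MvPolynomial Cardinal

/-- the complex numbers of the set `S` are algebraic over a family `u` whose image under `σ` is a
family of `p`-adic integers with a measure of algebraic independence -/
def HasLM (p : ℕ) [Fact p.Prime] (σ : ℂ →+* AlgebraicClosure ℚ_[p]) (S : Set ℂ) : Prop :=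
  ∃ (ρ : Type) (_ : Finite ρ) (u : ρ → ℂ) (y : ρ → ℤ_[p]), AlgebraicIndependent ℤ u ∧
    (∀ i, σ (u i) = algebraMap ℤ_[p] (AlgebraicClosure ℚ_[p]) (y i)) ∧ LM y ∧
    ∀ z ∈ S, IsAlgebraic (Algebra.adjoin ℤ (Set.range u)) z

lemma HasLM.mono {p : ℕ} [Fact p.Prime] {σ : ℂ →+* AlgebraicClosure ℚ_[p]} {S T : Set ℂ}
    (h : HasLM p σ S) (hT : T ⊆ S) : HasLM p σ T := by
  obtain ⟨ρ, hρ, u, y, h1, h2, h3, h4⟩ := h
  exact ⟨ρ, hρ, u, y, h1, h2, h3, fun z hz => h4 z (hT hz)⟩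

/-- extending a finite algebraically independent family of `p ℤ_p` to a big one -/
lemma exists_extension (p : ℕ) [hp : Fact p.Prime] {t s : Set ℂ} (hst : s ⊆ t) (hs : s.Finite)
    (τ₀ : s → ℤ_[p]) (hτ₀ : AlgebraicIndependent ℤ τ₀) (hn : ∀ i, ‖τ₀ i‖ < 1) :
    ∃ τ : t → ℤ_[p], AlgebraicIndependent ℤ τ ∧ (∀ i, ‖τ i‖ < 1) ∧
      ∀ i : s, τ ⟨i.1, hst i.2⟩ = τ₀ i := by
  classical
  set B : Set ℚ_[p] := {x | ‖x‖ < 1} with hB
  have halg : Algebra.IsAlgebraic (Algebra.adjoin ℤ B) ℚ_[p] := by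
    constructor
    intro z
    obtain ⟨n, hn⟩ : ∃ n : ℕ, ‖(p : ℚ_[p]) ^ n * z‖ < 1 := by
      have h1 : ‖(p : ℚ_[p])‖ < 1 := Padic.norm_p_lt_one
      have h2 := tendsto_pow_atTop_nhds_zero_of_lt_one (norm_nonneg (p : ℚ_[p])) h1
      have h3 := h2.mul_const ‖z‖
      rw [zero_mul] at h3
      obtain ⟨n, hn⟩ := (h3.eventually (gt_mem_nhds (show (0 : ℝ) < 1 by norm_num))).exists
      exact ⟨n, by rw [norm_mul, norm_pow]; exact hn⟩
    refine ⟨Polynomial.C (((p : ℤ) ^ n : ℤ) : Algebra.adjoin ℤ B) * Polynomial.X -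
      Polynomial.C ⟨(p : ℚ_[p]) ^ n * z, Algebra.subset_adjoin hn⟩, ?_, ?_⟩
    · intro h0
      have := congrArg (fun q => Polynomial.coeff q 1) h0
      simp only [Polynomial.coeff_sub, Polynomial.coeff_C_mul, Polynomial.coeff_X_one, mul_one,
        Polynomial.coeff_zero, Polynomial.coeff_C, one_ne_zero, if_false, sub_zero] at this
      have h2 := congrArg (Subtype.val) this
      push_cast at h2
      exact (pow_ne_zero n (by exact_mod_cast hp.out.ne_zero : (p : ℚ_[p]) ≠ 0)) h2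
    · rw [map_sub, map_mul, Polynomial.aeval_C, Polynomial.aeval_C, Polynomial.aeval_X]
      change (((((p : ℤ) ^ n : ℤ) : Algebra.adjoin ℤ B) : ℚ_[p])) * z - (p : ℚ_[p]) ^ n * z = 0
      push_cast
      ring
  -- the given family in `ℚ_p`
  let f₀ : s → ℚ_[p] := fun i => (τ₀ i : ℚ_[p])
  have hf₀ : AlgebraicIndependent ℤ f₀ := by
    have := hτ₀.map' (f := (PadicInt.Coe.ringHom (p := p)).toIntAlgHom) Subtype.val_injective
    exact this
  obtain ⟨s', hs1, hs2, hs3⟩ := exists_isTranscendenceBasis_between (R := ℤ) (A := ℚ_[p])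
    (Set.range f₀) B (by rintro _ ⟨i, rfl⟩; exact hn i) hf₀.to_subtype_range
  -- cardinality
  have hcard : 𝔠 ≤ #s' := by
    have h1 : 𝔠 ≤ #ℚ_[p] := continuum_le_cardinal_of_nontriviallyNormedField ℚ_[p]
    have halg2 := hs3.isAlgebraic
    have h2 : #ℚ_[p] ≤ max #(Algebra.adjoin ℤ (Set.range ((↑) : s' → ℚ_[p]))) ℵ₀ :=
      Algebra.IsAlgebraic.cardinalMk_le_max _ _
    have h3 : #(Algebra.adjoin ℤ (Set.range ((↑) : s' → ℚ_[p]))) = #(MvPolynomial s' ℤ) :=
      (Cardinal.mk_congr hs3.1.aevalEquiv.toEquiv).symm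
    have h4 : #(MvPolynomial s' ℤ) ≤ max (max #ℤ #s') ℵ₀ := MvPolynomial.cardinalMk_le_max
    rw [h3] at h2
    have h5 : 𝔠 ≤ max (max (max #ℤ #s') ℵ₀) ℵ₀ := h1.trans (h2.trans (max_le_max h4 le_rfl))
    by_contra hcon
    push Not at hcon
    have h6 : max (max (max #ℤ #s') ℵ₀) ℵ₀ < 𝔠 := by
      rw [max_lt_iff, max_lt_iff, max_lt_iff]
      refine ⟨⟨⟨?_, hcon⟩, aleph0_lt_continuum⟩, aleph0_lt_continuum⟩
      rw [Cardinal.mk_int]
      exact aleph0_lt_continuum
    exact absurd h5 (not_le.mpr h6)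
  have hfin : (Set.range f₀).Finite := by
    have := hs.to_subtype
    exact Set.finite_range f₀
  have hcard2 : 𝔠 ≤ #(s' \ Set.range f₀ : Set ℚ_[p]) := by
    by_contra hcon
    push Not at hcon
    have h1 := Cardinal.mk_sdiff_add_mk hs1
    have h2 : #(s' \ Set.range f₀ : Set ℚ_[p]) + #(Set.range f₀) < 𝔠 :=
      Cardinal.add_lt_of_lt aleph0_lt_continuum.le hcon
        ((Cardinal.lt_aleph0_iff_set_finite.mpr hfin).trans aleph0_lt_continuum)
    rw [h1] at h2
    exact absurd hcard (not_le.mpr h2)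
  obtain ⟨g⟩ : Nonempty ((t \ s : Set ℂ) ↪ (s' \ Set.range f₀ : Set ℚ_[p])) := by
    rw [← Cardinal.le_def]
    have h1 : #(t \ s : Set ℂ) ≤ #ℂ := Cardinal.mk_set_le _
    rw [Cardinal.mk_complex] at h1
    exact h1.trans hcard2
  -- the combined family
  let F : t → s' := fun i => if h : i.1 ∈ s then ⟨f₀ ⟨i.1, h⟩, hs1 ⟨_, rfl⟩⟩ else
    ⟨(g ⟨i.1, i.2, h⟩ : ℚ_[p]), (g ⟨i.1, i.2, h⟩).2.1⟩
  have hf₀inj : Function.Injective f₀ := hf₀.injective
  have hF : Function.Injective F := by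
    intro i j hij
    by_cases hi : i.1 ∈ s <;> by_cases hj : j.1 ∈ s
    · simp only [F, dif_pos hi, dif_pos hj, Subtype.mk.injEq] at hij
      have := hf₀inj hij
      exact Subtype.ext (congrArg (fun x : s => x.1) this)
    · simp only [F, dif_pos hi, dif_neg hj, Subtype.mk.injEq] at hij
      exact absurd ⟨_, hij⟩ (g ⟨j.1, j.2, hj⟩).2.2
    · simp only [F, dif_neg hi, dif_pos hj, Subtype.mk.injEq] at hij
      exact absurd ⟨_, hij.symm⟩ (g ⟨i.1, i.2, hi⟩).2.2
    · simp only [F, dif_neg hi, dif_neg hj, Subtype.mk.injEq] at hij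
      have := g.injective (Subtype.ext hij)
      exact Subtype.ext (congrArg (fun x : (t \ s : Set ℂ) => x.1) this)
  have hFn : ∀ i, ‖((F i : s') : ℚ_[p])‖ < 1 := fun i => hs2 (F i).2
  refine ⟨fun i => ⟨(F i : ℚ_[p]), (hFn i).le⟩, ?_, hFn, ?_⟩
  · have h1 : AlgebraicIndependent ℤ (fun i => ((F i : s') : ℚ_[p])) := hs3.1.comp F hF
    have h2 : AlgebraicIndependent ℤ ((PadicInt.Coe.ringHom (p := p)).toIntAlgHom ∘
      fun i => (⟨(F i : ℚ_[p]), (hFn i).le⟩ : ℤ_[p])) := h1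
    exact AlgebraicIndependent.of_comp _ h2
  · intro i
    apply Subtype.ext
    change ((F ⟨i.1, hst i.2⟩ : s') : ℚ_[p]) = _
    simp only [F, dif_pos i.2]
    rfl

/-- finitely many complex numbers become integral over `ℤ_p` under a suitable embedding of `ℂ`
into an algebraic closure of `ℚ_p`, and the embedding has a measure of algebraic independence -/
theorem exists_embedding_LM (A : Finset ℂ) :
    ∃ (p : ℕ) (hp : Fact p.Prime) (σ : ℂ →+* AlgebraicClosure ℚ_[p]), 3 ≤ p ∧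
      (∀ z ∈ A, IsIntegral ℤ_[p] (σ z)) ∧ HasLM p σ A := by
  classical
  obtain ⟨s, hs⟩ := (AlgebraicIndependent.matroid ℤ ℂ).exists_isBasis (A : Set ℂ)
  rw [AlgebraicIndependent.matroid_isBasis_iff] at hs
  obtain ⟨hs1, hsA, hsalg⟩ := hs
  have hsfin : s.Finite := A.finite_toSet.subset hsA
  obtain ⟨t, hst, ht⟩ := exists_isTranscendenceBasis_superset hs1
  -- `ℂ` as an algebra over the polynomial ring
  let i1 : Algebra (MvPolynomial t ℤ) ℂ := (aeval ((↑) : t → ℂ)).toRingHom.toAlgebra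
  have hi1 : ∀ f : MvPolynomial t ℤ, algebraMap (MvPolynomial t ℤ) ℂ f = aeval ((↑) : t → ℂ) f :=
    fun f => rfl
  have hinj1 : Function.Injective (algebraMap (MvPolynomial t ℤ) ℂ) :=
    algebraicIndependent_iff_injective_aeval.mp ht.1
  have : Algebra.IsAlgebraic (MvPolynomial t ℤ) ℂ := by
    have h1 := ht.isAlgebraic
    constructor
    intro z
    obtain ⟨P, hP, hPz⟩ := h1.1 z
    let e := ht.1.aevalEquiv
    refine ⟨P.map (e.symm : _ →+* MvPolynomial t ℤ), ?_, ?_⟩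
    · rw [Ne, Polynomial.map_eq_zero_iff e.symm.injective]
      exact hP
    · rw [Polynomial.aeval_def, Polynomial.eval₂_map]
      rw [Polynomial.aeval_def] at hPz
      rw [← hPz]
      congr 1
      ext u
      obtain ⟨f, rfl⟩ := e.surjective u
      simp only [RingHom.coe_comp, Function.comp_apply, RingHom.coe_coe, AlgEquiv.symm_apply_apply,
        hi1]
      exact (ht.1.algebraMap_aevalEquiv f).symm
  obtain ⟨a, ha, hint⟩ := Algebra.IsAlgebraic.exists_integral_multiples (MvPolynomial t ℤ) A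
  obtain ⟨x, hx⟩ : ∃ x : t → ℤ, eval x a ≠ 0 := by
    by_contra hcon
    push Not at hcon
    apply ha
    apply MvPolynomial.funext
    intro x
    rw [hcon x, map_zero]
  obtain ⟨p, hp3, hpp⟩ := Nat.exists_infinite_primes (max 3 ((eval x a).natAbs + 1))
  have hp : Fact p.Prime := ⟨hpp⟩
  -- the small family
  have hsF : Finite s := hsfin.to_subtype
  obtain ⟨y₀, hy₀1, hy₀2⟩ := exists_LM (p := p) s (fun i => ((x ⟨i.1, hst i.2⟩ : ℤ) : ℤ_[p]))
  have hp1 : (1 : ℝ) < p := by exact_mod_cast hpp.one_lt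
  have hplt : (p : ℝ) ^ (-(1 : ℤ)) < 1 := by
    rw [zpow_neg, zpow_one]
    exact inv_lt_one_of_one_lt₀ hp1
  let τ₀ : s → ℤ_[p] := fun i => y₀ i - ((x ⟨i.1, hst i.2⟩ : ℤ) : ℤ_[p])
  have hτ₀ind : AlgebraicIndependent ℤ τ₀ := by
    have h0 : AlgebraicIndependent ℤ y₀ := hy₀2.algebraicIndependent
    have h1 := AlgebraicIndependent.add_int h0 (fun i => -(x ⟨i.1, hst i.2⟩))
    have e : τ₀ = fun i => ((-(x ⟨i.1, hst i.2⟩) : ℤ) : ℤ_[p]) + y₀ i := by
      funext i
      simp only [τ₀]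
      push_cast
      ring
    rw [e]
    exact h1
  obtain ⟨τ, hτind, hτn, hτs⟩ := exists_extension p hst hsfin τ₀ hτ₀ind
    (fun i => (hy₀1 i).trans_lt hplt)
  have hτ : ∀ i, (p : ℤ_[p]) ∣ τ i := by
    intro i
    rw [← Ideal.mem_span_singleton, ← PadicInt.maximalIdeal_eq_span_p,
      IsLocalRing.mem_maximalIdeal, PadicInt.mem_nonunits]
    exact hτn i
  let y : t → ℤ_[p] := fun i => (x i : ℤ_[p]) + τ i
  have hy : AlgebraicIndependent ℤ y := AlgebraicIndependent.add_int hτind x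
  have hys : ∀ i : s, y ⟨i.1, hst i.2⟩ = y₀ i := by
    intro i
    simp only [y]
    rw [hτs]
    simp only [τ₀]
    ring
  -- `ℤ_p` and the closure of `ℚ_p` as algebras over the polynomial ring
  let i2 : Algebra (MvPolynomial t ℤ) ℤ_[p] := (aeval y).toRingHom.toAlgebra
  have hi2 : ∀ f : MvPolynomial t ℤ, algebraMap (MvPolynomial t ℤ) ℤ_[p] f = aeval y f :=
    fun f => rfl
  let i3 : Algebra (MvPolynomial t ℤ) (AlgebraicClosure ℚ_[p]) :=
    ((algebraMap ℤ_[p] (AlgebraicClosure ℚ_[p])).comp (aeval y).toRingHom).toAlgebra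
  have i4 : IsScalarTower (MvPolynomial t ℤ) ℤ_[p] (AlgebraicClosure ℚ_[p]) :=
    IsScalarTower.of_algebraMap_eq (fun f => rfl)
  have hinj3 : Function.Injective (algebraMap ℤ_[p] (AlgebraicClosure ℚ_[p])) := by
    rw [IsScalarTower.algebraMap_eq ℤ_[p] ℚ_[p] (AlgebraicClosure ℚ_[p])]
    exact (algebraMap ℚ_[p] (AlgebraicClosure ℚ_[p])).injective.comp
      (IsFractionRing.injective ℤ_[p] ℚ_[p])
  have hinj4 : Function.Injective (algebraMap (MvPolynomial t ℤ) (AlgebraicClosure ℚ_[p])) := by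
    rw [IsScalarTower.algebraMap_eq (MvPolynomial t ℤ) ℤ_[p] (AlgebraicClosure ℚ_[p])]
    exact hinj3.comp (algebraicIndependent_iff_injective_aeval.mp hy)
  have : FaithfulSMul (MvPolynomial t ℤ) ℂ := (faithfulSMul_iff_algebraMap_injective _ _).mpr hinj1
  have : FaithfulSMul (MvPolynomial t ℤ) (AlgebraicClosure ℚ_[p]) :=
    (faithfulSMul_iff_algebraMap_injective _ _).mpr hinj4
  have : Module.IsTorsionFree (MvPolynomial t ℤ) ℂ := inferInstance
  have : Module.IsTorsionFree (MvPolynomial t ℤ) (AlgebraicClosure ℚ_[p]) := inferInstance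
  let σ : ℂ →ₐ[MvPolynomial t ℤ] AlgebraicClosure ℚ_[p] := IsAlgClosed.lift
  have hσX : ∀ i : t, σ.toRingHom (i : ℂ) = algebraMap ℤ_[p] (AlgebraicClosure ℚ_[p]) (y i) := by
    intro i
    have h1 : (i : ℂ) = algebraMap (MvPolynomial t ℤ) ℂ (X i) := by
      rw [hi1, aeval_X]
    have h2 : algebraMap (MvPolynomial t ℤ) (AlgebraicClosure ℚ_[p]) (X i) =
        algebraMap ℤ_[p] (AlgebraicClosure ℚ_[p]) (y i) := by
      rw [IsScalarTower.algebraMap_apply (MvPolynomial t ℤ) ℤ_[p] (AlgebraicClosure ℚ_[p]), hi2,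
        aeval_X]
    change σ (i : ℂ) = _
    rw [h1, AlgHom.commutes, h2]
  refine ⟨p, hp, σ.toRingHom, le_trans (le_max_left _ _) hp3, fun z hz => ?_, ?_⟩
  · -- the value of `a` is a unit
    have hunit : IsUnit (algebraMap (MvPolynomial t ℤ) ℤ_[p] a) := by
      by_contra hnu
      rw [← mem_nonunits_iff, ← IsLocalRing.mem_maximalIdeal, PadicInt.maximalIdeal_eq_span_p,
        Ideal.mem_span_singleton] at hnu
      have h1 := eval_modEq p a x τ hτ
      have h2 : (p : ℤ_[p]) ∣ ((eval x a : ℤ) : ℤ_[p]) := by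
        have := dvd_sub hnu h1
        rw [hi2, sub_sub_cancel] at this
        exact this
      have h3 : (p : ℤ) ∣ eval x a := by
        have := (PadicInt.pow_p_dvd_int_iff (p := p) 1 (eval x a)).mp (by rwa [pow_one])
        simpa using this
      have h4 := Int.le_of_dvd (Int.natAbs_pos.mpr hx |> fun h => by
        exact_mod_cast h : (0 : ℤ) < ((eval x a).natAbs : ℤ)) ((Int.dvd_natAbs).mpr h3)
      have h5 := le_trans (le_max_right _ _) hp3
      omega
    obtain ⟨u, hu⟩ := hunit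
    have h1 : IsIntegral (MvPolynomial t ℤ) (σ (a • z)) := (hint z hz).map σ
    have h2 : IsIntegral ℤ_[p] (σ (a • z)) := h1.tower_top
    rw [Algebra.smul_def, map_mul, AlgHom.commutes,
      IsScalarTower.algebraMap_apply (MvPolynomial t ℤ) ℤ_[p] (AlgebraicClosure ℚ_[p]), ← hu] at h2
    have h3 : σ z = algebraMap ℤ_[p] (AlgebraicClosure ℚ_[p]) (↑u⁻¹ : ℤ_[p]) *
        (algebraMap ℤ_[p] (AlgebraicClosure ℚ_[p]) (↑u : ℤ_[p]) * σ z) := by
      rw [← mul_assoc, ← map_mul, Units.inv_mul, map_one, one_mul]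
    have h4 : IsIntegral ℤ_[p] (σ z) := by
      rw [h3]
      exact isIntegral_algebraMap.mul h2
    exact h4
  · refine ⟨s, hsF, fun i => (i : ℂ), y₀, ?_, fun i => ?_, hy₀2, fun z hz => ?_⟩
    · exact hs1
    · rw [← hys]
      exact hσX ⟨i.1, hst i.2⟩
    · have := hsalg z hz
      have e : Set.range (fun i : s => (i : ℂ)) = s := Subtype.range_coe
      rw [e]
      exact this

end Pool.Agent.Helper86.DML
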