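import Mathlib
import Pool.Agent.Helper86.DML.Back

/-!
# Return sets when the map is unramified along the periodic part of `V`
-/

namespace Pool.Agent.Helper86.DML

open MvPolynomial

noncomputable section

/-- a finite free model over `ℤ_p` containing the images of finitely many complex numbers -/
lemma exists_model (A : Finset ℂ) :
    ∃ (p : ℕ) (_ : Fact p.Prime) (O : Subalgebra ℤ_[p] (AlgebraicClosure ℚ_[p]))
      (σ : ℂ →+* AlgebraicClosure ℚ_[p]), 3 ≤ p ∧ Module.Finite ℤ_[p] O ∧ Module.Free ℤ_[p] O ∧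
      ∀ a ∈ A, ∃ o : O, (o : AlgebraicClosure ℚ_[p]) = σ a := by
  classical
  obtain ⟨p, hp, σ, hp3, hσ⟩ := exists_embedding A
  let O : Subalgebra ℤ_[p] (AlgebraicClosure ℚ_[p]) := Algebra.adjoin ℤ_[p] (σ '' (A : Set ℂ))
  have hfin : Module.Finite ℤ_[p] O := by
    have h1 : (Subalgebra.toSubmodule O).FG := by
      apply fg_adjoin_of_finite (A.finite_toSet.image _)
      rintro _ ⟨z, hz, rfl⟩
      exact hσ z hz
    exact Module.Finite.iff_fg.mpr h1
  have hinj3 : Function.Injective (algebraMap ℤ_[p] (AlgebraicClosure ℚ_[p])) := by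
    rw [IsScalarTower.algebraMap_eq ℤ_[p] ℚ_[p] (AlgebraicClosure ℚ_[p])]
    exact (algebraMap ℚ_[p] (AlgebraicClosure ℚ_[p])).injective.comp
      (IsFractionRing.injective ℤ_[p] ℚ_[p])
  have htf : Module.IsTorsionFree ℤ_[p] O := by
    have : FaithfulSMul ℤ_[p] O := by
      rw [faithfulSMul_iff_algebraMap_injective]
      intro a b hab
      exact hinj3 (congrArg Subtype.val hab)
    infer_instance
  exact ⟨p, hp, O, σ, hp3, hfin, inferInstance,
    fun a ha => ⟨⟨σ a, Algebra.subset_adjoin ⟨a, ha, rfl⟩⟩, rfl⟩⟩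

variable {N : ℕ} {B₀ : Finset (MvPolynomial (Fin (N + 1)) ℂ)}

lemma memX_of_rep {X : Set (PP N)} {A : Set (MvPolynomial (Fin (N + 1)) ℂ)}
    (hA : ∀ F ∈ A, ∃ d : ℕ, F.IsHomogeneous d) (hB : ∀ F ∈ B₀, ∃ d : ℕ, F.IsHomogeneous d)
    (hX : ∀ p : PP N, p ∈ X ↔ ((∀ F ∈ A, eval p.rep F = 0) ∧ ∃ F ∈ B₀, eval p.rep F ≠ 0))
    (u : Idx N B₀ → ℂ) (hu : ∀ G ∈ eqs B₀ A, eval u G = 0) (x : PP N) (hx : Rep x u) : x ∈ X := by
  obtain ⟨h1, h2, h3, h4⟩ := (mem_zero_iff A u).mp hu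
  obtain ⟨a, ha⟩ := exists_col_ne h2
  have hne : col B₀ u a ≠ 0 := fun h => ha (congrFun h a)
  rw [hX]
  constructor
  · intro F hF
    by_contra hcon
    exact hom_ne (hx a) hne (hA F hF) hcon (h3 F hF a)
  · by_contra hcon
    push Not at hcon
    rw [Finset.sum_eq_zero] at h4
    · exact zero_ne_one h4
    · intro i _
      rw [hom_zero (hx i.2) (hB i.1.1 i.1.2) (hcon i.1.1 i.1.2), mul_zero]

/-- vanishing of homogeneous forms upstairs and downstairs -/
lemma zero_up_iff {A C : Set (MvPolynomial (Fin (N + 1)) ℂ)}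
    (hC : ∀ F ∈ C, ∃ d : ℕ, F.IsHomogeneous d)
    (u : Idx N B₀ → ℂ) (hu : ∀ G ∈ eqs B₀ A, eval u G = 0) (x : PP N) (hx : Rep x u) :
    (∀ F ∈ C, eval x.rep F = 0) ↔ ∀ F ∈ C, ∀ j, eval u (bind₁ (colP B₀ j) F) = 0 := by
  constructor
  · intro h F hF j
    rw [eval_colP]
    exact hom_zero (hx j) (hC F hF) (h F hF)
  · intro h F hF
    obtain ⟨_, h2, _, _⟩ := (mem_zero_iff A u).mp hu
    obtain ⟨a, ha⟩ := exists_col_ne h2
    have hne : col B₀ u a ≠ 0 := fun h => ha (congrFun h a)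
    by_contra hcon
    have h3 := h F hF a
    rw [eval_colP] at h3
    exact hom_ne (hx a) hne (hC F hF) hcon h3

lemma emb_pmap {κ R S Ω : Type*} [CommRing R] [CommRing S] [CommRing Ω] (emb : R →+* Ω)
    (σ : S →+* Ω) {Ψ' : κ → MvPolynomial κ R} {Ψ : κ → MvPolynomial κ S}
    (hΨ : ∀ i, map emb (Ψ' i) = map σ (Ψ i)) (w : κ → R) (i : κ) :
    emb (pmap Ψ' w i) = eval (emb ∘ w) (map σ (Ψ i)) := by
  rw [← hΨ, pmap, map_eval']

lemma eval_map_iter {κ R S Ω : Type*} [CommRing R] [CommRing S] [CommRing Ω] (emb : R →+* Ω)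
    (σ : S →+* Ω) {Ψ' : κ → MvPolynomial κ R} {Ψ : κ → MvPolynomial κ S}
    (hΨ : ∀ i, map emb (Ψ' i) = map σ (Ψ i)) (n : ℕ) (w : κ → R) (H : MvPolynomial κ S) :
    eval (emb ∘ w) (map σ (((bind₁ Ψ) ^ n) H)) = eval (emb ∘ (pmap Ψ')^[n] w) (map σ H) := by
  induction n generalizing H with
  | zero => rfl
  | succ n ih =>
    rw [pow_succ, AlgHom.mul_apply, ih, map_bind₁, eval_bind₁', Function.iterate_succ_apply']
    congr 2
    funext i
    exact (emb_pmap emb σ hΨ _ i).symm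

lemma emb_iter {κ R S Ω : Type*} [CommRing R] [CommRing S] [CommRing Ω] (emb : R →+* Ω)
    (σ : S →+* Ω) {Ψ' : κ → MvPolynomial κ R} {Ψ : κ → MvPolynomial κ S}
    (hΨ : ∀ i, map emb (Ψ' i) = map σ (Ψ i)) {w : κ → R} {v : κ → S} (hwv : emb ∘ w = σ ∘ v)
    (n : ℕ) : emb ∘ (pmap Ψ')^[n] w = σ ∘ (pmap Ψ)^[n] v := by
  induction n with
  | zero => exact hwv
  | succ n ih =>
    rw [Function.iterate_succ_apply', Function.iterate_succ_apply']
    funext i
    rw [Function.comp_apply, emb_pmap emb σ hΨ, ih, Function.comp_apply, pmap, map_eval']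

lemma cong_of_dvd {O : Type*} [CommRing O] {n : ℕ} {q : O} {P Q : Fin n → Fin n → O}
    (hP : ∀ a b c d, P a b * P c d = P a d * P c b) (h : ∀ a b, q ∣ Q a b - P a b) :
    Cong q P Q := by
  intro a b i j
  have h1 : P a i * Q b j - P b i * Q a j =
      P a i * (Q b j - P b j) - P b i * (Q a j - P a j) := by
    linear_combination hP a i b j
  rw [h1]
  exact dvd_sub (Dvd.dvd.mul_left (h _ _) _) (Dvd.dvd.mul_left (h _ _) _)

/-- return sets when the periodic part of `V` lies in a closed invariant set along which the map is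
unramified -/
theorem main_unram (X : Set (PP N)) (A : Set (MvPolynomial (Fin (N + 1)) ℂ))
    (hA : ∀ F ∈ A, ∃ d : ℕ, F.IsHomogeneous d) (hB : ∀ F ∈ B₀, ∃ d : ℕ, F.IsHomogeneous d)
    (hX : ∀ p : PP N, p ∈ X ↔ ((∀ F ∈ A, eval p.rep F = 0) ∧ ∃ F ∈ B₀, eval p.rep F ≠ 0))
    (Φ : PP N → PP N) (hΦX : ∀ x ∈ X, Φ x ∈ X)
    (hΦ : ∀ x ∈ X, ∃ (d e : ℕ) (F : Fin (N + 1) → MvPolynomial (Fin (N + 1)) ℂ)
          (g : MvPolynomial (Fin (N + 1)) ℂ),
          (∀ i, (F i).IsHomogeneous d) ∧ g.IsHomogeneous e ∧ eval x.rep g ≠ 0 ∧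
          ∀ y ∈ X, eval y.rep g ≠ 0 →
            (fun i : Fin (N + 1) => eval y.rep (F i)) ≠ 0 ∧
            (fun i : Fin (N + 1) => eval y.rep (F i)) ∈ (Φ y).submodule)
    (V : Set (PP N)) (C : Set (MvPolynomial (Fin (N + 1)) ℂ))
    (hC : ∀ F ∈ C, ∃ d : ℕ, F.IsHomogeneous d)
    (hV : ∀ p : PP N, p ∈ V ↔ ∀ F ∈ C, eval p.rep F = 0)
    (Y : Set (PP N)) (D : Set (MvPolynomial (Fin (N + 1)) ℂ))
    (hD : ∀ F ∈ D, ∃ d : ℕ, F.IsHomogeneous d)
    (hY : ∀ p : PP N, p ∈ Y ↔ p ∈ X ∧ ∀ F ∈ D, eval p.rep F = 0)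
    (hΦY : ∀ y ∈ Y, Φ y ∈ Y)
    (hun : ∀ y ∈ Y, ∃ (d e : ℕ) (F : Fin (N + 1) → MvPolynomial (Fin (N + 1)) ℂ)
          (g : MvPolynomial (Fin (N + 1)) ℂ),
          (∀ i, (F i).IsHomogeneous d) ∧ g.IsHomogeneous e ∧ eval y.rep g ≠ 0 ∧
          (∀ x ∈ X, eval x.rep g ≠ 0 →
            (fun i : Fin (N + 1) => eval x.rep (F i)) ≠ 0 ∧
            (fun i : Fin (N + 1) => eval x.rep (F i)) ∈ (Φ x).submodule) ∧
          ∀ h : Fin (N + 1) → ℂ, (∀ E ∈ HomVan X, dirDeriv y.rep h E = 0) →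
            (fun i => dirDeriv y.rep h (F i)) ∈ (Φ y).submodule → h ∈ y.submodule)
    (hper : ∀ x ∈ X, ∀ r : ℕ, 1 ≤ r → (∀ k, Φ^[r * k] x ∈ V) → x ∈ Y)
    (α : PP N) (hα : α ∈ X) :
    ∃ (T : Finset (ℕ × ℕ)) (R : Set ℕ), SSp R ∧
      {n : ℕ | Φ^[n] α ∈ V} = {n : ℕ | ∃ t ∈ T, ∃ k : ℕ, n = t.1 + t.2 * k} ∪ R := by
  classical
  obtain ⟨Ψ, hΨ⟩ := exists_lift X A hA hB hX Φ hΦX hΦ
  obtain ⟨hα1, hα2⟩ := (hX α).mp hα
  obtain ⟨uα, huα, hrepα⟩ := exists_zero_above hA hB α hα1 hα2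
  have hYX : Y ⊆ X := fun y hy => ((hY y).mp hy).1
  -- iterating the lift
  have hiter : ∀ (u : Idx N B₀ → ℂ) (x : PP N), (∀ G ∈ eqs B₀ A, eval u G = 0) → Rep x u →
      ∀ n, (∀ G ∈ eqs B₀ A, eval ((pmap Ψ)^[n] u) G = 0) ∧ Rep (Φ^[n] x) ((pmap Ψ)^[n] u) := by
    intro u x hu hx n
    induction n with
    | zero => exact ⟨hu, hx⟩
    | succ n ih =>
      rw [Function.iterate_succ_apply', Function.iterate_succ_apply']
      exact hΨ _ ih.1 _ ih.2
  have hbelow : ∀ u : Idx N B₀ → ℂ, (∀ H ∈ eqs B₀ A, eval u H = 0) → ∃ x ∈ X, Rep x u := by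
    intro u hu
    obtain ⟨x, hx⟩ := exists_rep hu
    exact ⟨x, memX_of_rep hA hB hX u hu x hx, hx⟩
  have hbelowY : ∀ u : Idx N B₀ → ℂ, (∀ H ∈ eqsY B₀ A D, eval u H = 0) → ∃ x ∈ Y, Rep x u := by
    intro u hu
    have hu' : ∀ H ∈ eqs B₀ A, eval u H = 0 := fun H hH => hu H (Or.inl hH)
    obtain ⟨x, hxX, hx⟩ := hbelow u hu'
    refine ⟨x, (hY x).mpr ⟨hxX, ?_⟩, hx⟩
    rw [zero_up_iff hD u hu' x hx]
    exact fun F hF j => hu _ (Or.inr ⟨F, hF, j, rfl⟩)
  have hYup : ∀ (u : Idx N B₀ → ℂ) (x : PP N), (∀ H ∈ eqs B₀ A, eval u H = 0) → Rep x u →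
      x ∈ Y → ∀ H ∈ eqsY B₀ A D, eval u H = 0 := by
    rintro u x hu hx hxY H (hH | ⟨F, hF, j, rfl⟩)
    · exact hu H hH
    · exact (zero_up_iff hD u hu x hx).mp ((hY x).mp hxY).2 F hF j
  have hVup : ∀ (u : Idx N B₀ → ℂ) (x : PP N), (∀ G ∈ eqs B₀ A, eval u G = 0) → Rep x u →
      (x ∈ V ↔ ∀ F ∈ C, ∀ j, eval u (bind₁ (colP B₀ j) F) = 0) := by
    intro u x hu hx
    rw [hV x]
    exact zero_up_iff hC u hu x hx
  -- the local data along `Y`
  choose d e F g hFd hge hgy hloc hunr using fun y : Y => hun y.1 y.2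
  let G : Y → Fin (N + 1) → MvPolynomial (Fin (N + 1)) ℂ := fun y b => g y * F y b
  have hG : ∀ y b, (G y b).IsHomogeneous (e y + d y) := fun y b => (hge y).mul (hFd y b)
  have hGloc : ∀ y, ∀ u : Idx N B₀ → ℂ, (∀ H ∈ eqs B₀ A, eval u H = 0) → ∀ x, Rep x u →
      ∀ v ∈ x.submodule, (fun b => eval v (G y b)) ∈ (Φ x).submodule := by
    intro y u hu x hx v hv
    have hxX := memX_of_rep hA hB hX u hu x hx
    obtain ⟨c, rfl⟩ := (mem_submodule_iff x v).mp hv
    have h1 : (fun b => eval (c • x.rep) (G y b)) =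
        (c ^ e y * c ^ d y * eval x.rep (g y)) • (fun b => eval x.rep (F y b)) := by
      funext b
      simp only [G, map_mul, Pi.smul_apply, smul_eq_mul]
      rw [eval_smul_hom (hge y), eval_smul_hom (hFd y b)]
      ring
    rw [h1]
    by_cases hg0 : eval x.rep (g y) = 0
    · rw [hg0, mul_zero, zero_smul]
      exact Submodule.zero_mem _
    · exact Submodule.smul_mem _ _ (hloc y x hxX hg0).2
  obtain ⟨γ, hγ⟩ := exists_comb_unram (B₀ := B₀) X Y A D G hbelowY
    (exists_det_unram X Y Φ d e F g hYX hFd hge hgy hloc hunr)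
  -- finitely many equations for `V`
  let V' : Set (MvPolynomial (Idx N B₀) ℂ) :=
    eqs B₀ A ∪ {H | ∃ F ∈ C, ∃ j, H = bind₁ (colP B₀ j) F}
  obtain ⟨V₀, hV₀, hspan⟩ := (Submodule.fg_span_iff_fg_span_finset_subset V').mp
    (IsNoetherian.noetherian (Submodule.span (MvPolynomial (Idx N B₀) ℂ) V'))
  have hvan : ∀ u : Idx N B₀ → ℂ, (∀ H ∈ V₀, eval u H = 0) → ∀ H ∈ V', eval u H = 0 := by
    intro u hu H hH
    apply eval_eq_zero_of_mem_span (V := (V₀ : Set (MvPolynomial (Idx N B₀) ℂ))) hu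
    rw [← hspan]
    exact Submodule.subset_span hH
  -- the coefficients
  let 𝒜 : Finset ℂ := (Finset.univ.biUnion fun i => (Ψ i).coeffs) ∪
    (V₀.biUnion fun H => H.coeffs) ∪ (Finset.univ.image uα) ∪
    (γ.support.biUnion fun l => (γ l).coeffs) ∪
    (γ.support.biUnion fun l => Finset.univ.biUnion fun i =>
      (rowPair X Y G l.1 (l.2.2 i)).1.coeffs ∪ (rowPair X Y G l.1 (l.2.2 i)).2.coeffs) ∪
    (γ.support.biUnion fun l => Finset.univ.biUnion fun i => Finset.univ.biUnion fun b'' =>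
      (match l.2.2 i with
        | some (Sum.inr (y, _, _)) => (G y b'').coeffs
        | _ => ∅))
  obtain ⟨p, hp, O, σ, hp3, hfin, hfree, hO⟩ := exists_model 𝒜
  let emb : O →+* AlgebraicClosure ℚ_[p] := O.val.toRingHom
  have hemb : Function.Injective emb := Subtype.val_injective
  have hp0 : (p : O) ≠ 0 := by
    intro h0
    have h1 : emb (p : O) = 0 := by rw [h0, map_zero]
    rw [map_natCast] at h1
    exact hp.out.ne_zero (by exact_mod_cast h1)
  have hliftex : ∀ {κ : Type} (H : MvPolynomial κ ℂ), H.coeffs ⊆ 𝒜 →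
      ∃ H' : MvPolynomial κ O, map emb H' = map σ H := by
    intro κ H hH
    have : map σ H ∈ Set.range (MvPolynomial.map (σ := κ) emb) := by
      rw [mem_range_map_iff_coeffs_subset]
      refine (coe_coeffs_map σ H).trans ?_
      rintro _ ⟨z, hz, rfl⟩
      obtain ⟨o, ho⟩ := hO z (hH hz)
      exact ⟨o, ho⟩
    exact this
  let lift : MvPolynomial (Fin (N + 1)) ℂ → MvPolynomial (Fin (N + 1)) O := fun H =>
    if h : ∃ H' : MvPolynomial (Fin (N + 1)) O, map emb H' = map σ H then h.choose else 0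
  have hlift : ∀ H : MvPolynomial (Fin (N + 1)) ℂ, H.coeffs ⊆ 𝒜 → map emb (lift H) = map σ H := by
    intro H hH
    have h := hliftex H hH
    simp only [lift, dif_pos h]
    exact h.choose_spec
  let lift' : MvPolynomial (Idx N B₀) ℂ → MvPolynomial (Idx N B₀) O := fun H =>
    if h : ∃ H' : MvPolynomial (Idx N B₀) O, map emb H' = map σ H then h.choose else 0
  have hlift' : ∀ H : MvPolynomial (Idx N B₀) ℂ, H.coeffs ⊆ 𝒜 → map emb (lift' H) = map σ H := by
    intro H hH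
    have h := hliftex H hH
    simp only [lift', dif_pos h]
    exact h.choose_spec
  let Ψ' : Idx N B₀ → MvPolynomial (Idx N B₀) O := fun i => lift' (Ψ i)
  have hΨ' : ∀ i, map emb (Ψ' i) = map σ (Ψ i) := by
    intro i
    apply hlift'
    intro z hz
    simp only [𝒜, Finset.mem_union, Finset.mem_biUnion]
    exact Or.inl (Or.inl (Or.inl (Or.inl (Or.inl ⟨i, Finset.mem_univ _, hz⟩))))
  have hV₀lift : ∀ H ∈ V₀, map emb (lift' H) = map σ H := by
    intro H hH
    apply hlift'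
    intro z hz
    simp only [𝒜, Finset.mem_union, Finset.mem_biUnion]
    exact Or.inl (Or.inl (Or.inl (Or.inl (Or.inr ⟨H, hH, hz⟩))))
  have hαex : ∀ i, ∃ o : O, emb o = σ (uα i) := by
    intro i
    apply hO
    simp only [𝒜, Finset.mem_union, Finset.mem_biUnion]
    exact Or.inl (Or.inl (Or.inl (Or.inr (Finset.mem_image_of_mem _ (Finset.mem_univ _)))))
  choose α' hα' using hαex
  have hα'' : emb ∘ α' = σ ∘ uα := funext hα'
  have hl1 : ∀ l ∈ γ.support, map emb (lift' (γ l)) = map σ (γ l) := by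
    intro l hl
    apply hlift'
    intro z hz
    simp only [𝒜, Finset.mem_union, Finset.mem_biUnion]
    exact Or.inl (Or.inl (Or.inr ⟨l, hl, hz⟩))
  have hl2 : ∀ l ∈ γ.support, ∀ i, map emb (lift (rowPair X Y G l.1 (l.2.2 i)).1) =
      map σ (rowPair X Y G l.1 (l.2.2 i)).1 ∧ map emb (lift (rowPair X Y G l.1 (l.2.2 i)).2) =
      map σ (rowPair X Y G l.1 (l.2.2 i)).2 := by
    intro l hl i
    constructor
    · apply hlift
      intro z hz
      simp only [𝒜, Finset.mem_union, Finset.mem_biUnion]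
      exact Or.inl (Or.inr ⟨l, hl, i, Finset.mem_univ _, Or.inl hz⟩)
    · apply hlift
      intro z hz
      simp only [𝒜, Finset.mem_union, Finset.mem_biUnion]
      exact Or.inl (Or.inr ⟨l, hl, i, Finset.mem_univ _, Or.inr hz⟩)
  have hl3 : ∀ l ∈ γ.support, ∀ i, ∀ y b b', l.2.2 i = some (Sum.inr (y, b, b')) →
      ∀ b'', map emb (lift (G y b'')) = map σ (G y b'') := by
    intro l hl i y b b' hr b''
    apply hlift
    intro z hz
    simp only [𝒜, Finset.mem_union]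
    right
    rw [Finset.mem_biUnion]
    refine ⟨l, hl, ?_⟩
    rw [Finset.mem_biUnion]
    refine ⟨i, Finset.mem_univ _, ?_⟩
    rw [Finset.mem_biUnion]
    refine ⟨b'', Finset.mem_univ _, ?_⟩
    rw [hr]
    exact hz
  -- the dichotomy
  obtain ⟨n₀, M, z, hM, hz1, hz2, hz3⟩ := dichotomy hp3 Ψ' α'
  have hcomp := free_complete (p := p) (O := O)
  let bad : ℕ → Prop := fun j => ∀ H ∈ V₀, ∀ k, eval ((pmap Ψ')^[j + M * k] z) (lift' H) = 0
  have hOnXx : ∀ i, OnX σ A (emb ∘ (pmap Ψ')^[n₀ + i] α') := by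
    intro i H hH
    rw [emb_iter emb σ hΨ' hα'', ← map_eval', (hiter uα α huα hrepα (n₀ + i)).1 H hH, map_zero]
  -- the full classes
  have hbad : ∀ j, bad j → ∀ k, Φ^[n₀ + j + M * k] α ∈ V := by
    intro j hj
    have hEq : ∀ u : Idx N B₀ → ℂ,
        (∀ H ∈ {H | ∃ k, ∃ F ∈ V₀, H = ((bind₁ Ψ) ^ (M * k)) F}, eval u H = 0) →
        ∃ x ∈ Y, Rep x u ∧ ∀ G ∈ eqs B₀ A, eval u G = 0 := by
      intro u hu
      have h1 : ∀ k, ∀ H ∈ V', eval ((pmap Ψ)^[M * k] u) H = 0 := by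
        intro k
        apply hvan
        intro H hH
        rw [← eval_bind₁_pow]
        exact hu _ ⟨k, H, hH, rfl⟩
      have h2 : ∀ G ∈ eqs B₀ A, eval u G = 0 := by
        intro G hG
        have := h1 0 G (Or.inl hG)
        simpa using this
      obtain ⟨x, hxX, hx⟩ := hbelow u h2
      refine ⟨x, hper x hxX M hM fun k => ?_, hx, h2⟩
      obtain ⟨h3, h4⟩ := hiter u x h2 hx (M * k)
      rw [hVup _ _ h3 h4]
      exact fun F hF j => h1 k _ (Or.inr ⟨F, hF, j, rfl⟩)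
    have hEqz : ∀ H ∈ {H | ∃ k, ∃ F ∈ V₀, H = ((bind₁ Ψ) ^ (M * k)) F},
        eval (emb ∘ (pmap Ψ')^[j] z) (map σ H) = 0 := by
      rintro _ ⟨k, H, hH, rfl⟩
      rw [eval_map_iter emb σ hΨ', ← hV₀lift H hH, ← map_eval', ← Function.iterate_add_apply,
        add_comm (M * k) j, hj H hH k, map_zero]
    have hzY : ∀ i, j ≤ i → ∀ H ∈ eqsY B₀ A D, eval (emb ∘ (pmap Ψ')^[i] z) (map σ H) = 0 := by
      intro i hi H hH
      obtain ⟨t, rfl⟩ := Nat.exists_eq_add_of_le hi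
      have h1 := transfer σ {H | ∃ k, ∃ F ∈ V₀, H = ((bind₁ Ψ) ^ (M * k)) F} (((bind₁ Ψ) ^ t) H)
        (by
          intro u hu
          obtain ⟨x, hxY, hx, hu'⟩ := hEq u hu
          rw [eval_bind₁_pow]
          obtain ⟨h3, h4⟩ := hiter u x hu' hx t
          refine hYup _ _ h3 h4 ?_ H hH
          clear h3 h4
          induction t with
          | zero => exact hxY
          | succ t ih =>
            rw [Function.iterate_succ_apply']
            exact hΦY _ (ih (by omega))) _ hEqz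
      rw [eval_map_iter emb σ hΨ', ← Function.iterate_add_apply, add_comm t j] at h1
      exact h1
    have hzX : ∀ i, j ≤ i → OnX σ A (emb ∘ (pmap Ψ')^[i] z) :=
      fun i hi H hH => hzY i hi H (Or.inl hH)
    -- congruences
    have hcong : ∀ k, ∀ i, j ≤ i → Cong ((p : O) ^ (k + 1)) (mat ((pmap Ψ')^[i] z))
        (mat ((pmap Ψ')^[n₀ + i] α')) := by
      intro k
      induction k with
      | zero =>
        intro i hi
        apply cong_of_dvd ((hzX i hi).minorO emb hemb σ)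
        intro a b
        rw [zero_add, pow_one]
        exact hz1 i _
      | succ k ih =>
        have hback : ∀ t, ∀ i, j ≤ i → M * (k + 2) ≤ i + t →
            Cong ((p : O) ^ (k + 1 + 1)) (mat ((pmap Ψ')^[i] z))
              (mat ((pmap Ψ')^[n₀ + i] α')) := by
          intro t
          induction t with
          | zero =>
            intro i hi hit
            apply cong_of_dvd ((hzX i hi).minorO emb hemb σ)
            intro a b
            exact hz2 (k + 2) i hit _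
          | succ t iht =>
            intro i hi hit
            have h1 := iht (i + 1) (by omega) (by omega)
            have e1 : (pmap Ψ')^[i + 1] z = pmap Ψ' ((pmap Ψ')^[i] z) :=
              Function.iterate_succ_apply' _ _ _
            have e2 : (pmap Ψ')^[n₀ + (i + 1)] α' = pmap Ψ' ((pmap Ψ')^[n₀ + i] α') :=
              Function.iterate_succ_apply' _ _ _
            rw [e1, e2] at h1
            exact back_step emb hemb σ hp0 X Y A D Φ Ψ hbelow hΨ G (fun y => e y + d y) hG hGloc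
              γ hγ Ψ' hΨ' lift lift' hl1 hl2 hl3 (hzY i hi) (hOnXx i) (by omega) (ih i hi) h1
        intro i hi
        exact hback (M * (k + 2)) i hi (by omega)
    have hminor : ∀ i, j ≤ i → ∀ a b s t, mat ((pmap Ψ')^[i] z) a s *
        mat ((pmap Ψ')^[n₀ + i] α') b t = mat ((pmap Ψ')^[i] z) b s *
        mat ((pmap Ψ')^[n₀ + i] α') a t := by
      intro i hi a b s t
      rw [← sub_eq_zero]
      apply hcomp.sep
      intro n
      exact (pow_dvd_pow _ (Nat.le_succ n)).trans (hcong n i hi a b s t)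
    intro k
    obtain ⟨h1, h2⟩ := hiter uα α huα hrepα (n₀ + j + M * k)
    rw [hVup _ _ h1 h2]
    intro F hF m
    obtain ⟨dF, hdF⟩ := hC F hF
    apply σ.injective
    have hi : j ≤ j + M * k := Nat.le_add_right _ _
    set i := j + M * k with hidef
    have hni : n₀ + j + M * k = n₀ + i := by rw [hidef]; ring
    obtain ⟨a, ha⟩ : ∃ a, mat ((pmap Ψ')^[i] z) a a ≠ 0 := by
      by_contra hcon
      push Not at hcon
      have := (hzX i hi).traceO emb hemb σ
      simp [hcon] at this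
    have hcolx : (fun b => (emb ∘ (pmap Ψ')^[n₀ + i] α') (Sum.inl (b, m))) =
        (emb (mat ((pmap Ψ')^[n₀ + i] α') a m) / emb (mat ((pmap Ψ')^[i] z) a a)) •
          fun b => (emb ∘ (pmap Ψ')^[i] z) (Sum.inl (b, a)) := by
      funext b
      have h3 := congrArg emb (hminor i hi a b a m)
      rw [map_mul, map_mul] at h3
      have ha' : emb (mat ((pmap Ψ')^[i] z) a a) ≠ 0 := by
        rw [Ne, map_eq_zero_iff emb hemb]
        exact ha
      rw [Pi.smul_apply, smul_eq_mul, div_mul_eq_mul_div, eq_div_iff ha']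
      simp only [mat, Function.comp_apply] at h3 ⊢
      linear_combination h3
    rw [hni, map_eval', map_zero, ← emb_iter emb σ hΨ' hα'', eval_map_colP, hcolx,
      eval_smul_hom (hdF.map σ), ← eval_map_colP]
    rw [transfer σ (V₀ : Set (MvPolynomial (Idx N B₀) ℂ)) (bind₁ (colP B₀ a) F)
      (fun u hu => hvan u hu _ (Or.inr ⟨F, hF, a, rfl⟩)) (emb ∘ (pmap Ψ')^[i] z) ?_, mul_zero]
    intro H hH
    rw [← hV₀lift H hH, ← map_eval', hj H hH k, map_zero]
  -- the sparse classes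
  have hgood : ∀ j, ¬ bad j → SSp {n | ∃ k ∈ {k | Φ^[n₀ + j + M * k] α ∈ V},
      n = n₀ + j + M * k} := by
    intro j hj
    simp only [bad] at hj
    push Not at hj
    obtain ⟨H, hH, k, hne⟩ := hj
    refine SSp.reindex ?_ (n₀ + j) M hM
    refine (hz3 j (lift' H) ⟨k, hne⟩).mono ?_
    intro k hk
    obtain ⟨h1, h2⟩ := hiter uα α huα hrepα (n₀ + j + M * k)
    have h3 := (hVup _ _ h1 h2).mp hk
    have h4 : eval ((pmap Ψ)^[n₀ + j + M * k] uα) H = 0 := by
      rcases hV₀ hH with hH' | ⟨F, hF, j', rfl⟩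
      · exact h1 H hH'
      · exact h3 F hF j'
    apply hemb
    rw [map_eval', hV₀lift H hH, emb_iter emb σ hΨ' hα'', ← map_eval', h4, map_zero, map_zero]
  refine ⟨((Finset.range n₀).filter fun n => Φ^[n] α ∈ V).image (fun n => (n, 0)) ∪
    ((Finset.range M).filter bad).image (fun j => (n₀ + j, M)),
    ⋃ j ∈ Finset.range M, (if bad j then ∅ else {n | ∃ k ∈ {k | Φ^[n₀ + j + M * k] α ∈ V},
      n = n₀ + j + M * k}), ?_, ?_⟩
  · refine SSp.iUnion_range (S := fun j => if bad j then ∅ else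
      {n | ∃ k ∈ {k | Φ^[n₀ + j + M * k] α ∈ V}, n = n₀ + j + M * k}) ?_
    intro j _
    by_cases hj : bad j
    · simp only [hj, if_true]
      exact SSp.empty
    · simp only [hj, if_false]
      exact hgood j hj
  · ext n
    simp only [Set.mem_ofPred_eq, Set.mem_union, Finset.mem_union, Finset.mem_image,
      Finset.mem_filter, Finset.mem_range, Set.mem_iUnion, exists_prop]
    constructor
    · intro hn
      by_cases hlt : n < n₀
      · left
        exact ⟨(n, 0), Or.inl ⟨n, ⟨hlt, hn⟩, rfl⟩, 0, by simp⟩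
      · push Not at hlt
        have e1 : n = n₀ + (n - n₀) % M + M * ((n - n₀) / M) := by
          have := Nat.div_add_mod (n - n₀) M
          omega
        by_cases hb : bad ((n - n₀) % M)
        · left
          exact ⟨(n₀ + (n - n₀) % M, M), Or.inr ⟨_, ⟨Nat.mod_lt _ (by omega), hb⟩, rfl⟩,
            (n - n₀) / M, e1⟩
        · right
          refine ⟨(n - n₀) % M, Nat.mod_lt _ (by omega), ?_⟩
          simp only [hb, if_false]
          refine ⟨(n - n₀) / M, ?_, e1⟩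
          rw [← e1]
          exact hn
    · rintro (⟨t, (⟨m, ⟨hm, hm2⟩, rfl⟩ | ⟨j, ⟨hj, hb⟩, rfl⟩), k, rfl⟩ | ⟨j, hj, hn⟩)
      · simpa using hm2
      · exact hbad j hb k
      · by_cases hb : bad j
        · simp only [hb, if_true] at hn
          exact absurd hn (Set.notMem_empty _)
        · simp only [hb, if_false] at hn
          obtain ⟨k, hk, rfl⟩ := hn
          exact hk

end

end Pool.Agent.Helper86.DML
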