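import Mathlib
import Pool.Agent.Helper86.DML.Main

/-!
# Invariant chains of prime ideals and the corresponding irreducible subvarieties
-/

namespace Pool.Agent.Helper86.DML

open MvPolynomial

noncomputable section

section Generic

variable {κ : Type*} (I : Ideal (MvPolynomial κ ℂ))

/-- the function field of a prime ideal -/
abbrev GenField : Type _ := FractionRing (MvPolynomial κ ℂ ⧸ I)

/-- constants in the function field -/
def genConst : ℂ →+* GenField I :=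
  ((algebraMap (MvPolynomial κ ℂ ⧸ I) (GenField I)).comp (Ideal.Quotient.mk I)).comp C

/-- the generic point -/
def genPoint : κ → GenField I :=
  fun i => algebraMap (MvPolynomial κ ℂ ⧸ I) (GenField I) (Ideal.Quotient.mk I (X i))

lemma eval_gen (H : MvPolynomial κ ℂ) : eval (genPoint I) (map (genConst I) H) =
    algebraMap (MvPolynomial κ ℂ ⧸ I) (GenField I) (Ideal.Quotient.mk I H) := by
  induction H using MvPolynomial.induction_on with
  | C a => simp [genConst]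
  | add p q hp hq => rw [map_add, map_add, hp, hq, map_add, map_add]
  | mul_X p i hp => rw [map_mul, map_mul, hp, map_X, eval_X, map_mul, map_mul]; rfl

lemma mem_iff_eval_gen [hI : I.IsPrime] (H : MvPolynomial κ ℂ) :
    H ∈ I ↔ eval (genPoint I) (map (genConst I) H) = 0 := by
  rw [eval_gen, map_eq_zero_iff _ (IsFractionRing.injective (MvPolynomial κ ℂ ⧸ I) (GenField I)),
    Ideal.Quotient.eq_zero_iff_mem]

end Generic

variable {N : ℕ} {B₀ : Finset (MvPolynomial (Fin (N + 1)) ℂ)}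

/-- the homogeneous forms vanishing on the variety of `I` -/
def DZ (I : Ideal (MvPolynomial (Idx N B₀) ℂ)) : Set (MvPolynomial (Fin (N + 1)) ℂ) :=
  {F | (∃ d, F.IsHomogeneous d) ∧ ∀ m, bind₁ (colP B₀ m) F ∈ I}

/-- the subvariety of `X` attached to `I` -/
def ZZ (X : Set (PP N)) (I : Ideal (MvPolynomial (Idx N B₀) ℂ)) : Set (PP N) :=
  {x | x ∈ X ∧ ∀ F ∈ DZ I, eval x.rep F = 0}

section One

variable {X : Set (PP N)} {A : Set (MvPolynomial (Fin (N + 1)) ℂ)}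
  (I : Ideal (MvPolynomial (Idx N B₀) ℂ)) [hI : I.IsPrime] (heqs : ∀ H ∈ eqs B₀ A, H ∈ I)
  (hA : ∀ F ∈ A, ∃ d : ℕ, F.IsHomogeneous d) (hB : ∀ F ∈ B₀, ∃ d : ℕ, F.IsHomogeneous d)
  (hX : ∀ p : PP N, p ∈ X ↔ ((∀ F ∈ A, eval p.rep F = 0) ∧ ∃ F ∈ B₀, eval p.rep F ≠ 0))

include heqs in
lemma onX_gen : OnX (genConst I) A (genPoint I) :=
  fun H hH => (mem_iff_eval_gen I H).mp (heqs H hH)

include heqs hA hB hX in
lemma mem_of_vanish (H : MvPolynomial (Idx N B₀) ℂ)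
    (h : ∀ (u : Idx N B₀ → ℂ) (x : PP N), (∀ G ∈ eqs B₀ A, eval u G = 0) → Rep x u → x ∈ ZZ X I →
      eval u H = 0) : H ∈ I := by
  rw [mem_iff_eval_gen]
  refine transfer (genConst I) (eqs B₀ A ∪ {G | ∃ F ∈ DZ I, ∃ m, G = bind₁ (colP B₀ m) F}) H
    ?_ _ ?_
  · intro u hu
    have hu' : ∀ G ∈ eqs B₀ A, eval u G = 0 := fun G hG => hu G (Or.inl hG)
    obtain ⟨x, hx⟩ := exists_rep hu'
    refine h u x hu' hx ⟨memX_of_rep hA hB hX u hu' x hx, ?_⟩
    rw [zero_up_iff (fun F hF => hF.1) u hu' x hx]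
    exact fun F hF m => hu _ (Or.inr ⟨F, hF, m, rfl⟩)
  · rintro G (hG | ⟨F, hF, m, rfl⟩)
    · exact (mem_iff_eval_gen I G).mp (heqs G hG)
    · exact (mem_iff_eval_gen I _).mp (hF.2 m)

include heqs hA hB hX in
/-- forms vanishing on the variety -/
lemma mem_DZ_iff (F : MvPolynomial (Fin (N + 1)) ℂ) (hF : ∃ d, F.IsHomogeneous d) :
    F ∈ DZ I ↔ ∀ x ∈ ZZ X I, eval x.rep F = 0 := by
  constructor
  · intro h x hx
    exact hx.2 F h
  · intro h
    refine ⟨hF, fun m => mem_of_vanish I heqs hA hB hX _ ?_⟩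
    intro u x hu hx hxZ
    rw [eval_colP]
    exact hom_zero (hx m) hF (h x hxZ)

include heqs hA hB hX in
lemma ZZ_nonempty : (ZZ X I).Nonempty := by
  by_contra hcon
  rw [Set.not_nonempty_iff_eq_empty] at hcon
  have h1 : (1 : MvPolynomial (Fin (N + 1)) ℂ) ∈ DZ I := by
    rw [mem_DZ_iff I heqs hA hB hX _ ⟨0, isHomogeneous_one _ _⟩, hcon]
    simp
  have h2 := h1.2 0
  rw [map_one] at h2
  exact hI.ne_top ((Ideal.eq_top_iff_one I).mpr h2)

variable {I} in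
include heqs in
/-- a form outside `DZ I` does not vanish at a column with nonzero diagonal entry -/
lemma eval_gen_col_ne {F : MvPolynomial (Fin (N + 1)) ℂ} (hF : ∃ d, F.IsHomogeneous d)
    (h : F ∉ DZ I) {a : Fin (N + 1)} (ha : genPoint I (Sum.inl (a, a)) ≠ 0) :
    eval (fun b => genPoint I (Sum.inl (b, a))) (map (genConst I) F) ≠ 0 := by
  intro h0
  apply h
  refine ⟨hF, fun m => ?_⟩
  obtain ⟨d, hd⟩ := hF
  rw [mem_iff_eval_gen, eval_map_colP]
  have hcol : (fun b => genPoint I (Sum.inl (b, m))) =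
      (genPoint I (Sum.inl (a, m)) / genPoint I (Sum.inl (a, a))) •
        fun b => genPoint I (Sum.inl (b, a)) := by
    funext b
    rw [Pi.smul_apply, smul_eq_mul, div_mul_eq_mul_div, eq_div_iff ha]
    have := (onX_gen I heqs).minor b m a a
    linear_combination this
  rw [hcol, eval_smul_hom (hd.map _), h0, mul_zero]

include heqs hA hB hX in
lemma ZZ_irreducible (C₁ C₂ : Set (MvPolynomial (Fin (N + 1)) ℂ))
    (hC₁ : ∀ F ∈ C₁, ∃ d, F.IsHomogeneous d) (hC₂ : ∀ F ∈ C₂, ∃ d, F.IsHomogeneous d)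
    (h : ∀ x ∈ ZZ X I, (∀ F ∈ C₁, eval x.rep F = 0) ∨ ∀ F ∈ C₂, eval x.rep F = 0) :
    (∀ x ∈ ZZ X I, ∀ F ∈ C₁, eval x.rep F = 0) ∨ ∀ x ∈ ZZ X I, ∀ F ∈ C₂, eval x.rep F = 0 := by
  by_contra hcon
  push Not at hcon
  obtain ⟨⟨x₁, hx₁, F₁, hF₁, hne₁⟩, ⟨x₂, hx₂, F₂, hF₂, hne₂⟩⟩ := hcon
  have h1 : F₁ ∉ DZ I := fun h => hne₁ (hx₁.2 F₁ h)
  have h2 : F₂ ∉ DZ I := fun h => hne₂ (hx₂.2 F₂ h)
  obtain ⟨a, ha⟩ : ∃ a, genPoint I (Sum.inl (a, a)) ≠ 0 := by
    by_contra hcon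
    push Not at hcon
    have := (onX_gen I heqs).trace
    simp [hcon] at this
  have h3 := eval_gen_col_ne heqs (hC₁ F₁ hF₁) h1 ha
  have h4 := eval_gen_col_ne heqs (hC₂ F₂ hF₂) h2 ha
  obtain ⟨d₁, hd₁⟩ := hC₁ F₁ hF₁
  obtain ⟨d₂, hd₂⟩ := hC₂ F₂ hF₂
  have h5 : F₁ * F₂ ∈ DZ I := by
    rw [mem_DZ_iff I heqs hA hB hX _ ⟨_, hd₁.mul hd₂⟩]
    intro x hx
    rw [map_mul]
    rcases h x hx with h6 | h6
    · rw [h6 F₁ hF₁, zero_mul]
    · rw [h6 F₂ hF₂, mul_zero]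
  have h6 := (mem_iff_eval_gen I _).mp (h5.2 a)
  rw [eval_map_colP, map_mul, map_mul] at h6
  exact mul_ne_zero h3 h4 h6

end One

section Two

variable {X : Set (PP N)} {A : Set (MvPolynomial (Fin (N + 1)) ℂ)}
  (I J : Ideal (MvPolynomial (Idx N B₀) ℂ)) [hI : I.IsPrime]
  (heqs : ∀ H ∈ eqs B₀ A, H ∈ I)
  (hA : ∀ F ∈ A, ∃ d : ℕ, F.IsHomogeneous d) (hB : ∀ F ∈ B₀, ∃ d : ℕ, F.IsHomogeneous d)
  (hX : ∀ p : PP N, p ∈ X ↔ ((∀ F ∈ A, eval p.rep F = 0) ∧ ∃ F ∈ B₀, eval p.rep F ≠ 0))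
  (Φ : PP N → PP N) (hΦX : ∀ x ∈ X, Φ x ∈ X)
  (Ψ : Idx N B₀ → MvPolynomial (Idx N B₀) ℂ)
  (hΨ : ∀ u : Idx N B₀ → ℂ, (∀ G ∈ eqs B₀ A, eval u G = 0) → ∀ x : PP N, Rep x u →
        (∀ G ∈ eqs B₀ A, eval (pmap Ψ u) G = 0) ∧ Rep (Φ x) (pmap Ψ u))
  (hstep : ∀ F, (∃ d, F.IsHomogeneous d) → ((∀ m, bind₁ (colP B₀ m) F ∈ J) ↔
    ∀ m, bind₁ Ψ (bind₁ (colP B₀ m) F) ∈ I))

include heqs hA hB hX hΨ hstep in
/-- the map is dominant between consecutive varieties -/
lemma ZZ_dominant (C : Set (MvPolynomial (Fin (N + 1)) ℂ))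
    (hC : ∀ F ∈ C, ∃ d, F.IsHomogeneous d)
    (h : ∀ x ∈ ZZ X I, ∀ F ∈ C, eval (Φ x).rep F = 0) :
    ∀ x ∈ ZZ X J, ∀ F ∈ C, eval x.rep F = 0 := by
  intro x hx F hF
  apply hx.2
  refine ⟨hC F hF, (hstep F (hC F hF)).mpr fun m => ?_⟩
  apply mem_of_vanish I heqs hA hB hX
  intro u y hu hy hyZ
  obtain ⟨_, h2⟩ := hΨ u hu y hy
  rw [eval_bind₁']
  change eval (pmap Ψ u) _ = 0
  rw [eval_colP]
  exact hom_zero (h2 m) (hC F hF) (h y hyZ F hF)

include heqs hA hB hX hΨ hstep hΦX in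
/-- the map sends each variety into the next one -/
lemma ZZ_map (hΦ : ∀ x ∈ X, ∃ (d e : ℕ) (F : Fin (N + 1) → MvPolynomial (Fin (N + 1)) ℂ)
          (g : MvPolynomial (Fin (N + 1)) ℂ),
          (∀ i, (F i).IsHomogeneous d) ∧ g.IsHomogeneous e ∧ eval x.rep g ≠ 0 ∧
          ∀ y ∈ X, eval y.rep g ≠ 0 →
            (fun i : Fin (N + 1) => eval y.rep (F i)) ≠ 0 ∧
            (fun i : Fin (N + 1) => eval y.rep (F i)) ∈ (Φ y).submodule) :
    ∀ x ∈ ZZ X I, Φ x ∈ ZZ X J := by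
  intro x hx
  refine ⟨hΦX x hx.1, fun F' hF' => ?_⟩
  obtain ⟨d, e, F, g, hFd, hge, hgx, hloc⟩ := hΦ x hx.1
  let G : Fin (N + 1) → MvPolynomial (Fin (N + 1)) ℂ := fun b => g * F b
  have hG : ∀ b, (G b).IsHomogeneous (e + d) := fun b => hge.mul (hFd b)
  have hGloc : ∀ u : Idx N B₀ → ℂ, (∀ H ∈ eqs B₀ A, eval u H = 0) → ∀ x, Rep x u →
      ∀ v ∈ x.submodule, (fun b => eval v (G b)) ∈ (Φ x).submodule := by
    intro u hu x hx v hv
    have hxX := memX_of_rep hA hB hX u hu x hx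
    obtain ⟨c, rfl⟩ := (mem_submodule_iff x v).mp hv
    have h1 : (fun b => eval (c • x.rep) (G b)) =
        (c ^ e * c ^ d * eval x.rep g) • (fun b => eval x.rep (F b)) := by
      funext b
      simp only [G, map_mul, Pi.smul_apply, smul_eq_mul]
      rw [eval_smul_hom hge, eval_smul_hom (hFd b)]
      ring
    rw [h1]
    by_cases hg0 : eval x.rep g = 0
    · rw [hg0, mul_zero, zero_smul]
      exact Submodule.zero_mem _
    · exact Submodule.smul_mem _ _ (hloc x hxX hg0).2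
  obtain ⟨⟨d', hd'⟩, hF'J⟩ := hF'
  -- the pulled back form
  have hH : bind₁ G F' ∈ DZ I := by
    refine ⟨⟨_, hd'.aeval _ hG⟩, fun m => ?_⟩
    rw [mem_iff_eval_gen, eval_map_colP, eval_map_bind₁]
    -- a column of the image with nonzero diagonal entry
    have hw := onX_gen I heqs
    have hw' : OnX (genConst I) A (fun i => eval (genPoint I) (map (genConst I) (Ψ i))) := by
      intro H hH
      rw [← eval_map_bind₁, ← mem_iff_eval_gen]
      apply mem_of_vanish I heqs hA hB hX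
      intro u y hu hy _
      rw [eval_bind₁']
      exact (hΨ u hu y hy).1 H hH
    obtain ⟨a, ha⟩ : ∃ a, eval (genPoint I) (map (genConst I) (Ψ (Sum.inl (a, a)))) ≠ 0 := by
      by_contra hcon
      push Not at hcon
      have := hw'.trace
      simp [hcon] at this
    have hloc2 := fun b => hw.eval_loc Φ Ψ (fun u hu => exists_rep hu) hΨ G hG hGloc 1 m a b a
    simp only [one_smul] at hloc2
    have hcol : (fun i => eval (fun a => genPoint I (Sum.inl (a, m))) (map (genConst I) (G i))) =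
        (eval (fun a => genPoint I (Sum.inl (a, m))) (map (genConst I) (G a)) /
          eval (genPoint I) (map (genConst I) (Ψ (Sum.inl (a, a))))) •
          fun b => eval (genPoint I) (map (genConst I) (Ψ (Sum.inl (b, a)))) := by
      funext b
      rw [Pi.smul_apply, smul_eq_mul, div_mul_eq_mul_div, eq_div_iff ha]
      exact hloc2 b
    rw [hcol, eval_smul_hom (hd'.map _)]
    have h3 := (hstep F' ⟨d', hd'⟩).mp hF'J a
    rw [mem_iff_eval_gen, eval_map_bind₁, eval_map_colP] at h3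
    rw [h3, mul_zero]
  have h4 := hx.2 _ hH
  rw [eval_bind₁'] at h4
  obtain ⟨h5, h6⟩ := hloc x hx.1 hgx
  by_contra hcon
  refine hom_ne (F := F') (x := Φ x) (v := fun i => eval x.rep (G i)) ?_ ?_ ⟨d', hd'⟩ hcon h4
  · have : (fun i => eval x.rep (G i)) = eval x.rep g • fun i => eval x.rep (F i) := by
      funext i
      simp [G]
    rw [this]
    exact Submodule.smul_mem _ _ h6
  · have : (fun i => eval x.rep (G i)) = eval x.rep g • fun i => eval x.rep (F i) := by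
      funext i
      simp [G]
    rw [this]
    exact smul_ne_zero hgx h5

end Two

end

end Pool.Agent.Helper86.DML
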