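import Mathlib
import Pool.Agent.Helper86.DML.Primes
import Pool.Agent.Helper86.DML.Elim
import Pool.Agent.Helper86.DML.Embed2

/-!
# Affine curves: functions are algebraic over any non-constant function, with bounds
-/

namespace Pool.Agent.Helper86.DML

open MvPolynomial

noncomputable section

section AlgebraicFunctions

variable {κ : Type*} [Finite κ] (I : Ideal (MvPolynomial κ ℂ)) [hI : I.IsPrime]

omit [Finite κ] hI in
lemma genConst_eq : genConst I = algebraMap ℂ (GenField I) := rfl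

omit hI in
/-- the zeros of `I` over a point of a Noether normalisation -/
lemma exists_zero_over {s : ℕ} (g : MvPolynomial (Fin s) ℂ →ₐ[ℂ] (MvPolynomial κ ℂ ⧸ I))
    (hg : Function.Injective g) (hint : g.IsIntegral) (a : Fin s → ℂ) :
    ∃ v : κ → ℂ, (∀ H ∈ I, eval v H = 0) ∧ ∀ (i : Fin s) (P : MvPolynomial κ ℂ),
      Ideal.Quotient.mk I P = g (X i) → eval v P = a i := by
  let _ : Algebra (MvPolynomial (Fin s) ℂ) (MvPolynomial κ ℂ ⧸ I) := g.toRingHom.toAlgebra
  have _ : Algebra.IsIntegral (MvPolynomial (Fin s) ℂ) (MvPolynomial κ ℂ ⧸ I) := ⟨hint⟩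
  have hmax : (vanishingIdeal ℂ {a} : Ideal (MvPolynomial (Fin s) ℂ)).IsMaximal :=
    isMaximal_iff_eq_vanishingIdeal_singleton.mpr ⟨a, rfl⟩
  obtain ⟨Q, hQ, hQc⟩ := Ideal.exists_ideal_over_maximal_of_isIntegral
    (S := MvPolynomial κ ℂ ⧸ I) (vanishingIdeal ℂ {a} : Ideal (MvPolynomial (Fin s) ℂ)) (by
      have : RingHom.ker (algebraMap (MvPolynomial (Fin s) ℂ) (MvPolynomial κ ℂ ⧸ I)) = ⊥ :=
        (RingHom.injective_iff_ker_eq_bot _).mp hg
      rw [this]
      exact bot_le)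
  have hmax2 : (Q.comap (Ideal.Quotient.mk I)).IsMaximal :=
    Ideal.comap_isMaximal_of_surjective _ Ideal.Quotient.mk_surjective
  obtain ⟨v, hv⟩ := isMaximal_iff_eq_vanishingIdeal_singleton.mp hmax2
  have hmem : ∀ H, H ∈ Q.comap (Ideal.Quotient.mk I) → eval v H = 0 := by
    intro H hH
    rw [hv, mem_vanishingIdeal_singleton_iff] at hH
    rwa [← coe_aeval_eq_eval]
  refine ⟨v, fun H hH => hmem H ?_, fun i P hP => ?_⟩
  · rw [Ideal.mem_comap, Ideal.Quotient.eq_zero_iff_mem.mpr hH]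
    exact Q.zero_mem
  · have h1 : X i - C (a i) ∈ (vanishingIdeal ℂ {a} : Ideal (MvPolynomial (Fin s) ℂ)) := by
      rw [mem_vanishingIdeal_singleton_iff]
      simp
    rw [← hQc, Ideal.mem_comap] at h1
    have h2 : P - C (a i) ∈ Q.comap (Ideal.Quotient.mk I) := by
      rw [Ideal.mem_comap, map_sub, hP]
      have h3 : algebraMap (MvPolynomial (Fin s) ℂ) (MvPolynomial κ ℂ ⧸ I) (X i - C (a i)) =
          g (X i) - Ideal.Quotient.mk I (C (a i)) := by
        change g (X i - C (a i)) = _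
        rw [map_sub]
        congr 1
        exact g.commutes (a i)
      rwa [h3] at h1
    have h3 := hmem _ h2
    rw [map_sub, eval_C, sub_eq_zero] at h3
    exact h3

/-- on an affine curve every function is algebraic over a non-constant coordinate function -/
theorem curve_alg (hfin : ∀ P ∉ I, {v : κ → ℂ | (∀ H ∈ I, eval v H = 0) ∧ eval v P = 0}.Finite)
    {s₀ : κ} (hs₀ : ∀ c : ℂ, X s₀ - C c ∉ I) (z : GenField I) :
    IsAlgebraic (Algebra.adjoin ℂ {genPoint I s₀}) z := by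
  classical
  obtain ⟨s, g, hg, hint⟩ := exists_integral_inj_algHom_of_fg ℂ (MvPolynomial κ ℂ ⧸ I)
  -- the dimension is at most one
  have hs1 : s ≤ 1 := by
    by_contra hcon
    push Not at hcon
    obtain ⟨P₀, hP₀⟩ := Ideal.Quotient.mk_surjective (g (X ⟨0, by omega⟩))
    obtain ⟨P₁, hP₁⟩ := Ideal.Quotient.mk_surjective (g (X ⟨1, by omega⟩))
    have hP₀I : P₀ ∉ I := by
      intro h
      rw [Ideal.Quotient.eq_zero_iff_mem.mpr h] at hP₀
      have := hg (hP₀.symm.trans (map_zero g).symm)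
      exact X_ne_zero _ this
    have hf := hfin P₀ hP₀I
    choose v hv1 hv2 using fun c : ℂ => exists_zero_over I g hg hint
      (fun i : Fin s => if i.1 = 1 then c else 0)
    have h0 : ∀ c, eval (v c) P₀ = 0 := fun c => by
      have := hv2 c ⟨0, by omega⟩ P₀ hP₀
      simpa using this
    have h1 : ∀ c, eval (v c) P₁ = c := fun c => by
      have := hv2 c ⟨1, by omega⟩ P₁ hP₁
      simpa using this
    have hinj : Function.Injective v := fun c c' h => by
      rw [← h1 c, ← h1 c', h]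
    exact Set.infinite_range_of_injective hinj (hf.subset (by
      rintro _ ⟨c, rfl⟩
      exact ⟨hv1 c, h0 c⟩))
  -- a transcendence basis
  let ι' : (MvPolynomial κ ℂ ⧸ I) →ₐ[ℂ] GenField I :=
    IsScalarTower.toAlgHom ℂ (MvPolynomial κ ℂ ⧸ I) (GenField I)
  have hι' : Function.Injective ι' := IsFractionRing.injective (MvPolynomial κ ℂ ⧸ I) (GenField I)
  let x : Fin s → GenField I := fun i => ι' (g (X i))
  have hxa : (aeval x : MvPolynomial (Fin s) ℂ →ₐ[ℂ] GenField I) = ι'.comp g := by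
    apply algHom_ext
    intro i
    simp [x]
  have hx : AlgebraicIndependent ℂ x := by
    rw [algebraicIndependent_iff_injective_aeval, hxa]
    exact hι'.comp hg
  have halgR : ∀ r : MvPolynomial κ ℂ ⧸ I,
      IsAlgebraic (Algebra.adjoin ℂ (Set.range x)) (ι' r) := by
    intro r
    apply IsIntegral.isAlgebraic
    obtain ⟨p, hp, hpr⟩ := hint r
    let φ : MvPolynomial (Fin s) ℂ →+* Algebra.adjoin ℂ (Set.range x) :=
      (hx.aevalEquiv : MvPolynomial (Fin s) ℂ →+* _)
    refine ⟨p.map φ, hp.map _, ?_⟩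
    rw [Polynomial.eval₂_map]
    have h1 : (algebraMap (Algebra.adjoin ℂ (Set.range x)) (GenField I)).comp φ =
        (ι'.toRingHom).comp g.toRingHom := by
      apply RingHom.ext
      intro a
      have h3 := hx.algebraMap_aevalEquiv a
      rw [hxa] at h3
      exact h3
    rw [h1]
    have h4 : (ι' r) = ι'.toRingHom r := rfl
    rw [h4, ← Polynomial.hom_eval₂]
    have h2 : Polynomial.eval₂ g.toRingHom r p = 0 := hpr
    rw [h2, map_zero]
  have halg : Algebra.IsAlgebraic (Algebra.adjoin ℂ (Set.range x)) (GenField I) := by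
    constructor
    intro w
    obtain ⟨a, b, hb, rfl⟩ := IsFractionRing.div_surjective (A := MvPolynomial κ ℂ ⧸ I) w
    rw [div_eq_mul_inv]
    exact (halgR a).mul (halgR b).inv
  have htr : Algebra.trdeg ℂ (GenField I) ≤ 1 := by
    refine (Algebra.IsAlgebraic.trdeg_le_cardinalMk ℂ (A := GenField I) (Set.range x)).trans ?_
    rw [Cardinal.mk_le_one_iff_set_subsingleton]
    rintro _ ⟨i, rfl⟩ _ ⟨j, rfl⟩
    congr 1
    apply Fin.ext
    omega
  -- the coordinate function is transcendental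
  have htrans : Transcendental ℂ (genPoint I s₀) := by
    intro hal
    obtain ⟨c, hc⟩ := minpoly.mem_range_of_degree_eq_one ℂ (genPoint I s₀)
      (IsAlgClosed.degree_eq_one_of_irreducible ℂ (minpoly.irreducible hal.isIntegral))
    apply hs₀ c
    rw [mem_iff_eval_gen, map_sub, map_sub, map_X, map_C, eval_X, eval_C, genConst_eq, hc, sub_self]
  have hx' : AlgebraicIndependent ℂ (fun _ : Unit => genPoint I s₀) :=
    algebraicIndependent_unique_type_iff.mpr htrans
  have hbasis := hx'.isTranscendenceBasis_of_lift_trdeg_le_of_finite (by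
    rw [Cardinal.mk_fintype, Fintype.card_unit]
    simpa using htr)
  have h1 := hbasis.isAlgebraic
  have e : Set.range (fun _ : Unit => genPoint I s₀) = {genPoint I s₀} := Set.range_const
  rw [e] at h1
  exact h1.isAlgebraic z

/-- the algebraic relations involve finitely many complex numbers -/
lemma finite_coeffs {E : Type*} [Field E] [Algebra ℂ E] {T z : E}
    (h : IsAlgebraic (Algebra.adjoin ℂ {T}) z) :
    ∃ S : Finset ℂ, ∀ B : Subring E, (∀ c ∈ S, algebraMap ℂ E c ∈ B) → T ∈ B →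
      IsAlgebraic B z := by
  classical
  obtain ⟨q, hq0, hq⟩ := h
  have hr : ∀ i, ∃ r : Polynomial ℂ, Polynomial.aeval T r = (q.coeff i : E) := by
    intro i
    have h1 : Algebra.adjoin ℂ {T} ≤ (Polynomial.aeval T : Polynomial ℂ →ₐ[ℂ] E).range := by
      rw [Algebra.adjoin_singleton_eq_range_aeval]
    exact h1 (q.coeff i).2
  choose r hr using hr
  refine ⟨q.support.biUnion fun i => (r i).coeffs, fun B hS hT => ?_⟩
  have hcoef : ∀ i, (q.coeff i : E) ∈ B := by
    intro i
    by_cases hi : i ∈ q.support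
    · rw [← hr i, Polynomial.aeval_eq_sum_range]
      refine B.sum_mem fun j _ => ?_
      rw [Algebra.smul_def]
      refine B.mul_mem ?_ (B.pow_mem hT _)
      by_cases hj : (r i).coeff j = 0
      · rw [hj, map_zero]
        exact B.zero_mem
      · exact hS _ (Finset.mem_biUnion.mpr ⟨i, hi, Polynomial.coeff_mem_coeffs hj⟩)
    · rw [Polynomial.notMem_support_iff.mp hi]
      exact B.zero_mem
  let q' : Polynomial E := q.map (algebraMap (Algebra.adjoin ℂ {T}) E)
  have hq'B : (↑q'.coeffs : Set E) ⊆ B := by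
    intro w hw
    rw [Finset.mem_coe, Polynomial.mem_coeffs_iff] at hw
    obtain ⟨i, _, rfl⟩ := hw
    rw [Polynomial.coeff_map]
    exact hcoef i
  refine ⟨q'.toSubring B hq'B, ?_, ?_⟩
  · intro h0
    apply hq0
    have h1 := congrArg (Polynomial.map B.subtype) h0
    rw [Polynomial.map_toSubring, Polynomial.map_zero] at h1
    exact (Polynomial.map_eq_zero_iff Subtype.val_injective).mp h1
  · have h1 : Polynomial.aeval z (q'.toSubring B hq'B) =
        Polynomial.eval z ((q'.toSubring B hq'B).map B.subtype) := by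
      rw [Polynomial.aeval_def, Polynomial.eval_map]
      rfl
    rw [h1, Polynomial.map_toSubring, Polynomial.eval_map]
    exact hq

end AlgebraicFunctions

section Elimination

variable {κ : Type*} [Finite κ] {R E : Type*} [CommRing R] [Field E]

/-- elimination on an affine curve, with bounds -/
theorem elim_abs [Algebra ℂ E] (mk : MvPolynomial κ ℂ →+* R) (ι' : R →+* E)
    (hι' : Function.Injective ι') (halgE : algebraMap ℂ E = (ι'.comp mk).comp C) (s₀ : κ)
    (htrans : Transcendental ℂ (ι' (mk (X s₀)))) (S : Finset ℂ)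
    (hS : ∀ s, ∀ B : Subring E, (∀ c ∈ S, algebraMap ℂ E c ∈ B) → ι' (mk (X s₀)) ∈ B →
      IsAlgebraic B (ι' (mk (X s))))
    {ρ : Type} [Finite ρ] (u : ρ → ℂ) (hu : AlgebraicIndependent ℤ u)
    (hSalg : ∀ c ∈ S, IsAlgebraic (Algebra.adjoin ℤ (Set.range u)) c)
    {τ : Type} [Finite τ] (a : τ → ℂ)
    (ha : ∀ i, IsAlgebraic (Algebra.adjoin ℤ (Set.range u)) (a i))
    (ω : ℂ) (hω : IsAlgebraic (Algebra.adjoin ℤ (Set.range u)) ω) :
    ∃ κ₀ : ℕ, ∀ D, 1 ≤ D → ∀ P : MvPolynomial (τ ⊕ κ) ℤ, Sz D P →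
      mk (aeval (Sum.elim (fun i => C (a i)) X : τ ⊕ κ → MvPolynomial κ ℂ) P) ≠ 0 →
      ∃ Q : MvPolynomial (Option ρ) ℤ, Sz (κ₀ * D) Q ∧ Q ≠ 0 ∧
        ∀ (v : κ → ℂ) (ev : R →+* ℂ), ev.comp mk = eval v → aeval (Sum.elim a v) P = 0 →
          aeval (fun o => Option.elim o (v s₀ - ω) u) Q = 0 := by
  classical
  -- the base ring
  let T₁ : E := ι' (mk (X s₀)) - algebraMap ℂ E ω
  let f : Option ρ → E := fun o => Option.elim o T₁ (fun i => algebraMap ℂ E (u i))
  have hinjC : Function.Injective (algebraMap ℂ E) := (algebraMap ℂ E).injective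
  have hu' : AlgebraicIndependent ℤ (fun i => algebraMap ℂ E (u i)) :=
    hu.map' (f := (algebraMap ℂ E).toIntAlgHom) hinjC
  have htrans1 : Transcendental ℂ T₁ := by
    intro hal
    apply htrans
    have : ι' (mk (X s₀)) = T₁ + algebraMap ℂ E ω := by simp [T₁]
    rw [this]
    exact hal.add (isAlgebraic_algebraMap ω)
  have hf : AlgebraicIndependent ℤ f := by
    rw [hu'.option_iff_transcendental]
    intro hal
    apply htrans1
    -- algebraic over a subring of the constants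
    obtain ⟨q, hq0, hq⟩ := hal
    have hle : ∀ w : Algebra.adjoin ℤ (Set.range fun i => algebraMap ℂ E (u i)),
        ∃ c : ℂ, algebraMap ℂ E c = (w : E) := by
      intro w
      have h1 : Algebra.adjoin ℤ (Set.range fun i => algebraMap ℂ E (u i)) ≤
          ((algebraMap ℂ E).toIntAlgHom).range := by
        rw [Algebra.adjoin_le_iff]
        rintro _ ⟨i, rfl⟩
        exact ⟨u i, rfl⟩
      exact h1 w.2
    choose c hc using hle
    let cc : Algebra.adjoin ℤ (Set.range fun i => algebraMap ℂ E (u i)) →+* ℂ :=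
      { toFun := c
        map_one' := hinjC (by rw [hc, map_one]; rfl)
        map_mul' := fun a b => hinjC (by rw [hc, map_mul, hc, hc]; rfl)
        map_zero' := hinjC (by rw [hc, map_zero]; rfl)
        map_add' := fun a b => hinjC (by rw [hc, map_add, hc, hc]; rfl) }
    have hccinj : Function.Injective cc := by
      intro a b hab
      apply Subtype.ext
      rw [← hc a, ← hc b]
      exact congrArg _ hab
    refine ⟨q.map cc, ?_, ?_⟩
    · rw [Ne, Polynomial.map_eq_zero_iff hccinj]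
      exact hq0
    · rw [Polynomial.aeval_def, Polynomial.eval₂_map]
      rw [Polynomial.aeval_def] at hq
      have e : (algebraMap ℂ E).comp cc = algebraMap (Algebra.adjoin ℤ
          (Set.range fun i => algebraMap ℂ E (u i))) E := by
        apply RingHom.ext
        intro w
        exact hc w
      rw [e]
      exact hq
  let φ : MvPolynomial (Option ρ) ℤ →ₐ[ℤ] E := aeval f
  have hφ : Function.Injective φ := algebraicIndependent_iff_injective_aeval.mp hf
  let _ : Algebra (MvPolynomial (Option ρ) ℤ) E := φ.toRingHom.toAlgebra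
  have hφa : ∀ Q, algebraMap (MvPolynomial (Option ρ) ℤ) E Q = φ Q := fun _ => rfl
  have _ : FaithfulSMul (MvPolynomial (Option ρ) ℤ) E :=
    (faithfulSMul_iff_algebraMap_injective _ _).mpr hφ
  -- everything is algebraic over the base ring
  let 𝔸 : Subalgebra (MvPolynomial (Option ρ) ℤ) E :=
    Subalgebra.algebraicClosure (MvPolynomial (Option ρ) ℤ) E
  have hbase : ∀ Q : MvPolynomial (Option ρ) ℤ, φ Q ∈ 𝔸 := fun Q =>
    isAlgebraic_algebraMap (R := MvPolynomial (Option ρ) ℤ) Q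
  have hconst : ∀ c : ℂ, IsAlgebraic (Algebra.adjoin ℤ (Set.range u)) c →
      algebraMap ℂ E c ∈ 𝔸 := by
    intro c hc
    obtain ⟨q, hq0, hq⟩ := hc
    -- the constants lie in the base ring
    let ψ : Algebra.adjoin ℤ (Set.range u) →+* MvPolynomial (Option ρ) ℤ :=
      ((rename some : MvPolynomial ρ ℤ →ₐ[ℤ] MvPolynomial (Option ρ) ℤ) : _ →+* _).comp
        (hu.aevalEquiv.symm : _ →+* MvPolynomial ρ ℤ)
    have hψ : ∀ w, φ (ψ w) = algebraMap ℂ E (w : ℂ) := by
      intro w
      obtain ⟨Q, rfl⟩ := hu.aevalEquiv.surjective w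
      have e1 : ψ (hu.aevalEquiv Q) = rename some Q := by
        simp only [ψ, RingHom.comp_apply, RingHom.coe_coe, AlgEquiv.symm_apply_apply]
      rw [e1]
      have e2 : ((hu.aevalEquiv Q : Algebra.adjoin ℤ (Set.range u)) : ℂ) = aeval u Q :=
        hu.algebraMap_aevalEquiv Q
      rw [e2]
      simp only [φ]
      rw [aeval_rename, map_aeval_int]
      rfl
    have hψinj : Function.Injective ψ := by
      intro a b hab
      apply Subtype.ext
      apply hinjC
      rw [← hψ a, ← hψ b, hab]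
    refine ⟨q.map ψ, ?_, ?_⟩
    · rw [Ne, Polynomial.map_eq_zero_iff hψinj]
      exact hq0
    · rw [Polynomial.aeval_def, Polynomial.eval₂_map]
      rw [Polynomial.aeval_def] at hq
      have e4 : (algebraMap (MvPolynomial (Option ρ) ℤ) E).comp ψ =
          (algebraMap ℂ E).comp (algebraMap (Algebra.adjoin ℤ (Set.range u)) ℂ) := by
        apply RingHom.ext
        intro w
        exact hψ w
      rw [e4, ← Polynomial.hom_eval₂, hq, map_zero]
  have hTA : ι' (mk (X s₀)) ∈ 𝔸 := by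
    have h1 : T₁ ∈ 𝔸 := by
      have := hbase (X none)
      simpa [φ, f] using this
    have h2 := 𝔸.add_mem h1 (hconst ω hω)
    simpa [T₁] using h2
  have hpts : ∀ s, IsAlgebraic (MvPolynomial (Option ρ) ℤ) (ι' (mk (X s))) := by
    intro s
    have h1 := hS s 𝔸.toSubring (fun c hc => hconst c (hSalg c hc)) hTA
    have h2 : IsAlgebraic 𝔸 (ι' (mk (X s))) := h1
    exact h2.restrictScalars (MvPolynomial (Option ρ) ℤ)
  let η : τ ⊕ κ → E := Sum.elim (fun i => algebraMap ℂ E (a i)) (fun s => ι' (mk (X s)))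
  have hη : ∀ i, IsAlgebraic (MvPolynomial (Option ρ) ℤ) (η i) := by
    rintro (i | s)
    · exact hconst (a i) (ha i)
    · exact hpts s
  obtain ⟨n, d, M, hd, hel⟩ := elim η hη
  obtain ⟨κ₀, hκ₀⟩ := elim_size d M
  refine ⟨κ₀, fun D hD P hP hPI => ?_⟩
  obtain ⟨h1, h2⟩ := hel P D hP.1
  -- the coordinate ring
  let φ' : MvPolynomial (Option ρ) ℤ →+* R := (aeval (fun o => Option.elim o
    (mk (X s₀ - C ω)) (fun i => mk (C (u i)))) : MvPolynomial (Option ρ) ℤ →ₐ[ℤ] R)
  have hCe : ∀ c, algebraMap ℂ E c = ι' (mk (C c)) := fun c => by rw [halgE]; rfl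
  have hφ' : φ.toRingHom = ι'.comp φ' := by
    apply MvPolynomial.ringHom_ext
    · intro c
      simp
    · rintro (_ | i)
      · simp only [φ, f, φ', AlgHom.toRingHom_eq_coe, RingHom.coe_coe, aeval_X, Option.elim_none,
          RingHom.comp_apply, T₁, map_sub, hCe]
      · simp only [φ, f, φ', AlgHom.toRingHom_eq_coe, RingHom.coe_coe, aeval_X, Option.elim_some,
          RingHom.comp_apply, hCe]
  have hPη : aeval η P = ι' (mk
      (aeval (Sum.elim (fun i => C (a i)) X : τ ⊕ κ → MvPolynomial κ ℂ) P)) := by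
    have e1 := map_aeval_int (ι'.comp mk)
      (Sum.elim (fun i => C (a i)) X : τ ⊕ κ → MvPolynomial κ ℂ) P
    rw [RingHom.comp_apply] at e1
    rw [e1]
    have e2 : (fun i => (ι'.comp mk)
        ((Sum.elim (fun i => C (a i)) X : τ ⊕ κ → MvPolynomial κ ℂ) i)) = η := by
      funext i
      rcases i with i | s
      · simp only [Sum.elim_inl, η, hCe, RingHom.comp_apply]
      · rfl
    rw [e2]
  have hne : aeval η P ≠ 0 := by
    rw [hPη, Ne, map_eq_zero_iff _ hι']
    exact hPI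
  refine ⟨(NP d M D P).det, hκ₀ D hD P hP, h2 hne, fun v ev hev hPv => ?_⟩
  -- evaluation at the point
  have hrel : Polynomial.eval₂ φ' (φ' d ^ D * mk
      (aeval (Sum.elim (fun i => C (a i)) X : τ ⊕ κ → MvPolynomial κ ℂ) P))
      (NP d M D P).charpoly = 0 := by
    apply hι'
    rw [map_zero, Polynomial.hom_eval₂, ← hφ', map_mul, map_pow, ← hPη]
    have e3 : ι' (φ' d) = algebraMap (MvPolynomial (Option ρ) ℤ) E d := by
      rw [hφa, ← RingHom.comp_apply, ← hφ']
      rfl
    rw [e3]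
    exact h1
  have hrel2 := congrArg ev hrel
  rw [map_zero, Polynomial.hom_eval₂, map_mul] at hrel2
  have hevP : ∀ G, ev (mk G) = eval v G := fun G => by
    rw [← RingHom.comp_apply, hev]
  have e5 : ev (mk
      (aeval (Sum.elim (fun i => C (a i)) X : τ ⊕ κ → MvPolynomial κ ℂ) P)) = 0 := by
    rw [hevP, ← hPv]
    have e7 := map_aeval_int (eval v)
      (Sum.elim (fun i => C (a i)) X : τ ⊕ κ → MvPolynomial κ ℂ) P
    rw [e7]
    have e8 : (fun i => (eval v) ((Sum.elim (fun i => C (a i)) X :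
        τ ⊕ κ → MvPolynomial κ ℂ) i)) = Sum.elim a v := by
      funext i
      rcases i with i | s
      · simp
      · simp
    rw [e8]
  rw [e5, mul_zero, Polynomial.eval₂_at_zero] at hrel2
  have e9 : ev.comp φ' = ((aeval (fun o => Option.elim o (v s₀ - ω) u) :
      MvPolynomial (Option ρ) ℤ →ₐ[ℤ] ℂ) : _ →+* ℂ) := by
    apply MvPolynomial.ringHom_ext
    · intro c
      simp
    · rintro (_ | i)
      · simp only [φ', RingHom.comp_apply, RingHom.coe_coe, aeval_X, Option.elim_none, hevP]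
        simp
      · simp only [φ', RingHom.comp_apply, RingHom.coe_coe, aeval_X, Option.elim_some, hevP]
        simp
  have e10 : aeval (fun o => Option.elim o (v s₀ - ω) u) ((NP d M D P).charpoly.coeff 0) = 0 := by
    have e11 : (ev.comp φ') ((NP d M D P).charpoly.coeff 0) = 0 := hrel2
    rw [e9] at e11
    exact e11
  rw [Matrix.det_eq_sign_charpoly_coeff, map_mul, e10, mul_zero]

end Elimination

section Liouville

lemma norm_coe_int {p : ℕ} [hp : Fact p.Prime] (y : ℤ_[p]) :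
    ‖algebraMap ℤ_[p] (PadicAlgCl p) y‖ = ‖y‖ := by
  rw [IsScalarTower.algebraMap_apply ℤ_[p] ℚ_[p] (PadicAlgCl p)]
  exact PadicAlgCl.norm_extends p _

/-- a root close to the origin of a polynomial with a lower bound for its lowest coefficient -/
lemma root_lower {p : ℕ} [hp : Fact p.Prime] {r : Polynomial (PadicAlgCl p)}
    (hr : ∀ i, ‖r.coeff i‖ ≤ 1) {e : ℕ} (he : ∀ i < e, r.coeff i = 0) {t : PadicAlgCl p}
    (ht0 : t ≠ 0) (ht1 : ‖t‖ ≤ 1) (hroot : r.eval t = 0) : ‖r.coeff e‖ ≤ ‖t‖ := by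
  by_contra hcon
  push Not at hcon
  have hpos : 0 < ‖t‖ := norm_pos_iff.mpr ht0
  have h1 : r.eval t = ∑ i ∈ Finset.range (r.natDegree + 1), r.coeff i * t ^ i :=
    Polynomial.eval_eq_sum_range t
  have hmem : e ∈ Finset.range (r.natDegree + 1) := by
    rw [Finset.mem_range, Nat.lt_succ_iff]
    apply Polynomial.le_natDegree_of_ne_zero
    intro h0
    rw [h0, norm_zero] at hcon
    exact absurd hcon (not_lt.mpr (norm_nonneg _))
  rw [hroot, ← Finset.add_sum_erase _ _ hmem] at h1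
  have h2 : r.coeff e * t ^ e = -∑ i ∈ (Finset.range (r.natDegree + 1)).erase e,
      r.coeff i * t ^ i := by
    linear_combination -h1
  have h3 : ‖∑ i ∈ (Finset.range (r.natDegree + 1)).erase e, r.coeff i * t ^ i‖ ≤
      ‖t‖ ^ (e + 1) := by
    apply IsUltrametricDist.norm_sum_le_of_forall_le_of_nonneg (by positivity)
    intro i hi
    rw [Finset.mem_erase] at hi
    rcases lt_or_gt_of_ne hi.1 with h | h
    · rw [he i h, zero_mul, norm_zero]
      positivity
    · rw [norm_mul, norm_pow]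
      calc ‖r.coeff i‖ * ‖t‖ ^ i ≤ 1 * ‖t‖ ^ (e + 1) := by
            refine mul_le_mul (hr i) ?_ (by positivity) zero_le_one
            exact pow_le_pow_of_le_one (norm_nonneg _) ht1 h
        _ = _ := one_mul _
  have h4 : ‖r.coeff e * t ^ e‖ ≤ ‖t‖ ^ (e + 1) := by
    rw [h2, norm_neg]
    exact h3
  rw [norm_mul, norm_pow, pow_succ'] at h4
  have h5 : 0 < ‖t‖ ^ e := by positivity
  exact absurd (le_of_mul_le_mul_right h4 h5) (not_le.mpr hcon)

variable {κ : Type} [Finite κ] (I : Ideal (MvPolynomial κ ℂ)) [hI : I.IsPrime]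

/-- Liouville's inequality on an affine curve -/
theorem curve_liouville
    (hfin : ∀ P ∉ I, {v : κ → ℂ | (∀ H ∈ I, eval v H = 0) ∧ eval v P = 0}.Finite)
    {s₀ : κ} (hs₀ : ∀ c : ℂ, X s₀ - C c ∉ I) :
    ∃ S : Finset ℂ, ∀ (p : ℕ) [Fact p.Prime] (σ : ℂ →+* PadicAlgCl p) (T : Set ℂ),
      (S : Set ℂ) ⊆ T → HasLM p σ T →
      ∀ (τ : Type) [Finite τ] (a : τ → ℂ), (∀ i, a i ∈ T) →
      ∀ w : κ → ℂ, (∀ H ∈ I, eval w H = 0) →
      (∃ P₀ : MvPolynomial (τ ⊕ κ) ℤ,
        aeval (Sum.elim (fun i => C (a i)) X : τ ⊕ κ → MvPolynomial κ ℂ) P₀ ∉ I ∧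
        aeval (Sum.elim a w) P₀ = 0) →
      ∃ κ₁ : ℕ, ∀ D, 1 ≤ D → ∀ P : MvPolynomial (τ ⊕ κ) ℤ, Sz D P →
        aeval (Sum.elim (fun i => C (a i)) X : τ ⊕ κ → MvPolynomial κ ℂ) P ∉ I →
        ∀ v : κ → ℂ, (∀ H ∈ I, eval v H = 0) → aeval (Sum.elim a v) P = 0 → v s₀ ≠ w s₀ →
          ‖σ (v s₀) - σ (w s₀)‖ ≤ 1 → (1 / 2 : ℝ) ^ (κ₁ * D ^ κ₁) ≤ ‖σ (v s₀) - σ (w s₀)‖ := by
  classical
  have := Fintype.ofFinite κ
  choose S hS using fun s : κ => finite_coeffs (curve_alg I hfin hs₀ (genPoint I s))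
  have htrans : Transcendental ℂ (genPoint I s₀) := by
    intro hal
    obtain ⟨c, hc⟩ := minpoly.mem_range_of_degree_eq_one ℂ (genPoint I s₀)
      (IsAlgClosed.degree_eq_one_of_irreducible ℂ (minpoly.irreducible hal.isIntegral))
    apply hs₀ c
    rw [mem_iff_eval_gen, map_sub, map_sub, map_X, map_C, eval_X, eval_C, genConst_eq, hc, sub_self]
  refine ⟨Finset.univ.biUnion S, ?_⟩
  intro p hp σ T hST hLM τ _ a ha w hw ⟨P₀, hP₀I, hP₀w⟩
  obtain ⟨ρ, hρ, u, y, hu, hσu, hy, halg⟩ := hLM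
  have hS' : ∀ s, ∀ B : Subring (GenField I),
      (∀ c ∈ Finset.univ.biUnion S, algebraMap ℂ (GenField I) c ∈ B) →
      (algebraMap (MvPolynomial κ ℂ ⧸ I) (GenField I)) (Ideal.Quotient.mk I (X s₀)) ∈ B →
      IsAlgebraic B ((algebraMap (MvPolynomial κ ℂ ⧸ I) (GenField I))
        (Ideal.Quotient.mk I (X s))) :=
    fun s B hB hT => hS s B (fun c hc => hB c (Finset.mem_biUnion.mpr ⟨s, Finset.mem_univ _, hc⟩))
      hT
  have hSalg : ∀ c ∈ Finset.univ.biUnion S, IsAlgebraic (Algebra.adjoin ℤ (Set.range u)) c :=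
    fun c hc => halg c (hST hc)
  have hev : ∀ v : κ → ℂ, (∀ H ∈ I, eval v H = 0) → ∃ ev : (MvPolynomial κ ℂ ⧸ I) →+* ℂ,
      ev.comp (Ideal.Quotient.mk I) = eval v := fun v hv =>
    ⟨Ideal.Quotient.lift I (eval v) hv, RingHom.ext fun G => rfl⟩
  -- the point `w` is algebraic
  have hwalg : IsAlgebraic (Algebra.adjoin ℤ (Set.range u)) (w s₀) := by
    obtain ⟨κ₀, hκ₀⟩ := elim_abs (Ideal.Quotient.mk I)
      (algebraMap (MvPolynomial κ ℂ ⧸ I) (GenField I)) (IsFractionRing.injective _ _) rfl s₀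
      htrans (Finset.univ.biUnion S) hS' u hu hSalg a (fun i => halg _ (ha i)) 0
      (isAlgebraic_zero)
    obtain ⟨D, hD⟩ := exists_Sz P₀
    obtain ⟨Q, -, hQ0, hQ⟩ := hκ₀ (D + 1) (by omega) P₀ (hD.mono (by omega)) (by
      rw [Ne, Ideal.Quotient.eq_zero_iff_mem]
      exact hP₀I)
    obtain ⟨ev, hev'⟩ := hev w hw
    have h1 := hQ w ev hev' hP₀w
    rw [sub_zero, aeval_option] at h1
    let e := hu.aevalEquiv
    have h2 : ((aeval u : MvPolynomial ρ ℤ →ₐ[ℤ] ℂ) : _ →+* ℂ) =
        (algebraMap (Algebra.adjoin ℤ (Set.range u)) ℂ).comp (e : MvPolynomial ρ ℤ →+* _) := by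
      apply RingHom.ext
      intro G
      exact (hu.algebraMap_aevalEquiv G).symm
    rw [h2, ← Polynomial.map_map, Polynomial.eval_map, ← Polynomial.aeval_def] at h1
    refine ⟨_, ?_, h1⟩
    rw [Ne, Polynomial.map_eq_zero_iff e.injective, map_eq_zero_iff _ (optionEquivLeft ℤ ρ).injective]
    exact hQ0
  obtain ⟨κ₀, hκ₀⟩ := elim_abs (Ideal.Quotient.mk I)
    (algebraMap (MvPolynomial κ ℂ ⧸ I) (GenField I)) (IsFractionRing.injective _ _) rfl s₀
    htrans (Finset.univ.biUnion S) hS' u hu hSalg a (fun i => halg _ (ha i)) (w s₀) hwalg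
  obtain ⟨κ', hκ'⟩ := hy
  refine ⟨κ' * (κ₀ + 1) ^ κ' + κ', fun D hD P hP hPI v hv hPv hne hle => ?_⟩
  obtain ⟨Q, hQs, hQ0, hQ⟩ := hκ₀ D hD P hP (by
    rw [Ne, Ideal.Quotient.eq_zero_iff_mem]
    exact hPI)
  obtain ⟨ev, hev'⟩ := hev v hv
  have h1 := congrArg σ (hQ v ev hev' hPv)
  rw [map_zero, map_aeval_int] at h1
  have h2 : (fun i => σ ((fun o => Option.elim o (v s₀ - w s₀) u) i)) =
      fun o => Option.elim o (σ (v s₀) - σ (w s₀))
        (fun i => algebraMap ℤ_[p] (PadicAlgCl p) (y i)) := by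
    funext o
    rcases o with _ | i
    · simp
    · exact hσu i
  rw [h2, aeval_option] at h1
  set q := optionEquivLeft ℤ ρ Q with hq
  set r := q.map ((aeval fun i => algebraMap ℤ_[p] (PadicAlgCl p) (y i) :
    MvPolynomial ρ ℤ →ₐ[ℤ] PadicAlgCl p) : _ →+* PadicAlgCl p) with hr
  have hq0 : q ≠ 0 := by
    rw [hq, Ne, map_eq_zero_iff _ (optionEquivLeft ℤ ρ).injective]
    exact hQ0
  have hcoef : ∀ i, r.coeff i = algebraMap ℤ_[p] (PadicAlgCl p) (aeval y (q.coeff i)) := by
    intro i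
    rw [hr, Polynomial.coeff_map, map_aeval_int]
    rfl
  have hnorm : ∀ i, ‖r.coeff i‖ ≤ 1 := by
    intro i
    rw [hcoef, norm_coe_int]
    exact PadicInt.norm_le_one _
  have hlow : ∀ i < q.natTrailingDegree, r.coeff i = 0 := by
    intro i hi
    rw [hcoef, Polynomial.coeff_eq_zero_of_lt_natTrailingDegree hi, map_zero, map_zero]
  have h3 := root_lower hnorm hlow (t := σ (v s₀) - σ (w s₀)) (by
    rw [sub_ne_zero]
    exact fun h => hne (σ.injective h)) hle h1
  refine le_trans ?_ h3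
  rw [hcoef, norm_coe_int]
  have hqe : q.coeff q.natTrailingDegree ≠ 0 := Polynomial.trailingCoeff_nonzero_iff_nonzero.mpr hq0
  have h4 := hκ' ((κ₀ + 1) * D) (Nat.mul_pos (by omega) hD) (q.coeff q.natTrailingDegree)
    ((hQs.mono (by
      apply Nat.mul_le_mul_right
      omega)).coeff_option _) hqe
  refine le_trans ?_ h4
  apply pow_le_pow_of_le_one (by norm_num) (by norm_num)
  rw [mul_pow]
  calc κ' * ((κ₀ + 1) ^ κ' * D ^ κ') = (κ' * (κ₀ + 1) ^ κ') * D ^ κ' := by ring
    _ ≤ (κ' * (κ₀ + 1) ^ κ' + κ') * D ^ (κ' * (κ₀ + 1) ^ κ' + κ') := by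
        refine Nat.mul_le_mul (Nat.le_add_right _ _) ?_
        exact Nat.pow_le_pow_right hD (Nat.le_add_left _ _)

end Liouville

end

end Pool.Agent.Helper86.DML
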