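import Mathlib
import Pool.Agent.Helper86.DML.Primes
import Pool.Agent.Helper86.DML.Dichotomy2

/-!
# The structure of orbits: finitely many irreducible periodic subvarieties
-/

namespace Pool.Agent.Helper86.DML

open MvPolynomial

noncomputable section

lemma not_SSp_univ : ¬ SSp Set.univ := by
  rintro ⟨s, K, n₁, hK, h⟩
  have h1 := h (max n₁ (K * (s + 1))) (le_max_left _ _)
    (Finset.Ico (max n₁ (K * (s + 1))) (max n₁ (K * (s + 1)) + 2 ^ (s + 1))) (by
      intro k hk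
      rw [Finset.mem_Ico] at hk
      refine ⟨Set.mem_univ _, hk.1, lt_of_lt_of_le hk.2 ?_⟩
      apply Nat.add_le_add_left
      apply Nat.pow_le_pow_right (by norm_num)
      rw [Nat.le_div_iff_mul_le (by omega), mul_comm]
      exact le_max_right _ _)
  rw [Nat.card_Ico, Nat.add_sub_cancel_left] at h1
  have h2 : s + 1 < 2 ^ (s + 1) := Nat.lt_two_pow_self
  omega

lemma exists_not_mem_of_SSp {S : Set ℕ} (h : SSp S) : ∃ k, k ∉ S := by
  by_contra hcon
  push Not at hcon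
  exact not_SSp_univ (h.mono (fun k _ => hcon k))

/-- enlarging the coefficient ring -/
lemma exists_bigger {p : ℕ} [hp : Fact p.Prime] (O : Subalgebra ℤ_[p] (AlgebraicClosure ℚ_[p]))
    [Module.Finite ℤ_[p] O] (A : Finset (AlgebraicClosure ℚ_[p])) :
    ∃ (O' : Subalgebra ℤ_[p] (AlgebraicClosure ℚ_[p])) (y : AlgebraicClosure ℚ_[p]),
      O ≤ O' ∧ Module.Finite ℤ_[p] O' ∧ Module.Free ℤ_[p] O' ∧ y ≠ 0 ∧ ∀ a ∈ A, y * a ∈ O' := by
  classical
  have hinj3 : Function.Injective (algebraMap ℤ_[p] (AlgebraicClosure ℚ_[p])) := by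
    rw [IsScalarTower.algebraMap_eq ℤ_[p] ℚ_[p] (AlgebraicClosure ℚ_[p])]
    exact (algebraMap ℚ_[p] (AlgebraicClosure ℚ_[p])).injective.comp
      (IsFractionRing.injective ℤ_[p] ℚ_[p])
  have halg : Algebra.IsAlgebraic ℤ_[p] (AlgebraicClosure ℚ_[p]) := by
    have h1 : Algebra.IsAlgebraic ℚ_[p] (AlgebraicClosure ℚ_[p]) :=
      AlgebraicClosure.isAlgebraic ℚ_[p]
    exact (IsFractionRing.comap_isAlgebraic_iff (A := ℤ_[p]) (K := ℚ_[p])).mpr h1
  obtain ⟨y, hy, hint⟩ := Algebra.IsAlgebraic.exists_integral_multiples ℤ_[p] A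
  let O₁ : Subalgebra ℤ_[p] (AlgebraicClosure ℚ_[p]) :=
    Algebra.adjoin ℤ_[p] ((fun a => y • a) '' (A : Set (AlgebraicClosure ℚ_[p])))
  have hfin1 : Module.Finite ℤ_[p] O₁ := by
    have h1 : (Subalgebra.toSubmodule O₁).FG := by
      apply fg_adjoin_of_finite (A.finite_toSet.image _)
      rintro _ ⟨z, hz, rfl⟩
      exact hint z hz
    exact Module.Finite.iff_fg.mpr h1
  have hfin : Module.Finite ℤ_[p] ↥(O ⊔ O₁) := Subalgebra.finite_sup O O₁
  have htf : Module.IsTorsionFree ℤ_[p] ↥(O ⊔ O₁) := by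
    have : FaithfulSMul ℤ_[p] ↥(O ⊔ O₁) := by
      rw [faithfulSMul_iff_algebraMap_injective]
      intro a b hab
      exact hinj3 (congrArg Subtype.val hab)
    infer_instance
  refine ⟨O ⊔ O₁, algebraMap ℤ_[p] _ y, le_sup_left, hfin, inferInstance, ?_, ?_⟩
  · rw [Ne, map_eq_zero_iff _ hinj3]
    exact hy
  · intro a ha
    have h1 : y • a ∈ O₁ := Algebra.subset_adjoin ⟨a, ha, rfl⟩
    have h2 : O₁ ≤ O ⊔ O₁ := le_sup_right
    have h3 := h2 h1
    rwa [Algebra.smul_def] at h3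

/-- the dichotomy for polynomials with arbitrary complex coefficients -/
lemma dichotomy_complex {p : ℕ} [hp : Fact p.Prime]
    (O : Subalgebra ℤ_[p] (AlgebraicClosure ℚ_[p])) [Module.Finite ℤ_[p] O]
    (σ : ℂ →+* AlgebraicClosure ℚ_[p]) {κ : Type*} [Finite κ] (x z : ℕ → κ → O)
    (hz3 : ∀ (O' : Type) [CommRing O'] [Algebra ℤ_[p] O'] [Module.Finite ℤ_[p] O']
        [Module.Free ℤ_[p] O'] (φ : O →+* O') (F : MvPolynomial κ O'),
        (∃ k, eval (φ ∘ z k) F ≠ 0) →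
        SSp {k | eval (φ ∘ x k) F = 0} ∧ SSp {k | eval (φ ∘ z k) F = 0})
    (H : MvPolynomial κ ℂ) (hne : ∃ k, eval (Subtype.val ∘ z k) (map σ H) ≠ 0) :
    SSp {k | eval (Subtype.val ∘ x k) (map σ H) = 0} ∧
      SSp {k | eval (Subtype.val ∘ z k) (map σ H) = 0} := by
  classical
  obtain ⟨O', y, hOO', hfin, hfree, hy, hA⟩ := exists_bigger O (map σ H).coeffs
  obtain ⟨H', hH'⟩ : ∃ H' : MvPolynomial κ O', map O'.val.toRingHom H' = C y * map σ H := by
    have : C y * map σ H ∈ Set.range (MvPolynomial.map (σ := κ) O'.val.toRingHom) := by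
      rw [mem_range_map_iff_coeffs_subset]
      intro c hc
      rw [Finset.mem_coe, mem_coeffs_iff] at hc
      obtain ⟨m, hm, rfl⟩ := hc
      rw [coeff_C_mul]
      by_cases h0 : coeff m (map σ H) = 0
      · rw [h0, mul_zero]
        exact ⟨0, map_zero _⟩
      · exact ⟨⟨_, hA _ (coeff_mem_coeffs _ h0)⟩, rfl⟩
    exact this
  let φ : O →+* O' := (Subalgebra.inclusion hOO').toRingHom
  have hval : ∀ w : κ → O, O'.val.toRingHom (eval (φ ∘ w) H') =
      y * eval (Subtype.val ∘ w) (map σ H) := by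
    intro w
    rw [map_eval', hH', map_mul, eval_C]
    rfl
  have hiff : ∀ w : κ → O, eval (φ ∘ w) H' = 0 ↔ eval (Subtype.val ∘ w) (map σ H) = 0 := by
    intro w
    rw [← map_eq_zero_iff O'.val.toRingHom Subtype.val_injective, hval, mul_eq_zero,
      or_iff_right hy]
  obtain ⟨k, hk⟩ := hne
  have h := hz3 O' φ H' ⟨k, fun h0 => hk ((hiff _).mp h0)⟩
  simp only [hiff] at h
  exact h

end

end Pool.Agent.Helper86.DML
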