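import Mathlib
import Pool.Agent.Helper86.DML.Boot
import Pool.Agent.Helper86.DML.Structure

/-!
# The dichotomy for sequences approximated by exponential polynomials
-/

namespace Pool.Agent.Helper86.DML

open MvPolynomial

noncomputable section

variable {p : ℕ} [hp : Fact p.Prime]
  (L : IntermediateField ℚ_[p] (PadicAlgCl p)) [FiniteDimensional ℚ_[p] L]

lemma norm_sub_le_max' {E : Type*} [SeminormedAddCommGroup E] [IsUltrametricDist E] (a b : E) :
    ‖a - b‖ ≤ max ‖a‖ ‖b‖ := by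
  have := IsUltrametricDist.norm_add_le_max a (-b)
  rwa [norm_neg, ← sub_eq_add_neg] at this

omit [FiniteDimensional ℚ_[p] L] in
lemma exists_scale {ι : Type*} (T : Finset ι) (c : ι → L) :
    ∃ y : L, y ≠ 0 ∧ ∀ i ∈ T, ‖y * c i‖ ≤ 1 := by
  classical
  obtain ⟨m, hm⟩ : ∃ m : ℕ, ∀ i ∈ T, ‖(p : L)‖ ^ m * ‖c i‖ ≤ 1 := by
    induction T using Finset.induction_on with
    | empty => exact ⟨0, by simp⟩
    | insert a s ha ih =>
      obtain ⟨m, hm⟩ := ih
      obtain ⟨m', hm'⟩ := exists_pow_lt_of_lt_one (show 0 < 1 / (‖c a‖ + 1) by positivity)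
        (norm_p_lt_one L)
      refine ⟨m + m', fun i hi => ?_⟩
      have h1 : ‖(p : L)‖ ^ m' ≤ 1 := pow_le_one₀ (norm_nonneg _) (norm_p_lt_one L).le
      have h2 : ‖(p : L)‖ ^ m ≤ 1 := pow_le_one₀ (norm_nonneg _) (norm_p_lt_one L).le
      rw [pow_add]
      rcases Finset.mem_insert.mp hi with rfl | hi
      · have h3 : ‖(p : L)‖ ^ m' * ‖c i‖ ≤ 1 := by
          calc _ ≤ 1 / (‖c i‖ + 1) * ‖c i‖ := by gcongr
            _ ≤ 1 := by
              rw [one_div, inv_mul_le_iff₀ (by positivity)]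
              linarith
        calc _ = ‖(p : L)‖ ^ m * (‖(p : L)‖ ^ m' * ‖c i‖) := by ring
          _ ≤ 1 * 1 := by gcongr
          _ = 1 := one_mul 1
      · calc _ = ‖(p : L)‖ ^ m' * (‖(p : L)‖ ^ m * ‖c i‖) := by ring
          _ ≤ 1 * 1 := by
            gcongr
            exact hm i hi
          _ = 1 := one_mul 1
  refine ⟨(p : L) ^ m, pow_ne_zero _ (norm_pos_iff.mp (norm_p_pos L)), fun i hi => ?_⟩
  rw [norm_mul, norm_pow]
  exact hm i hi

variable {L} in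
/-- one group of exponentials of the same absolute value -/
lemma ep_group (hp3 : 3 ≤ p) {N₁ : ℕ} (hN0 : 1 ≤ N₁) (hNp : p ∣ N₁)
    (hN : ∀ u : L, ‖u‖ = 1 → ‖u ^ N₁ - 1‖ ≤ ‖(p : L)‖) {ι : Type*} (T : Finset ι)
    (c : ι → L) (d : ι → ℕ) (μ : ι → L) {s : ℝ} (hs : 0 < s) (hμ : ∀ i ∈ T, ‖μ i‖ = s) (c₀ : ℕ)
    (hne : ∃ t : ℕ, ∑ i ∈ T, c i * epf (d i) (μ i) (c₀ + N₁ * t) ≠ 0) {s' : ℝ} (hs' : 0 < s')
    (hss : s' < s) (C : ℝ) :
    SSp {t | ‖∑ i ∈ T, c i * epf (d i) (μ i) (c₀ + N₁ * t)‖ ≤ C * s' ^ (c₀ + N₁ * t)} := by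
  classical
  obtain ⟨t₀, ht₀⟩ := hne
  obtain ⟨i₀, hi₀⟩ : T.Nonempty := by
    by_contra hcon
    rw [Finset.not_nonempty_iff_eq_empty] at hcon
    rw [hcon] at ht₀
    simp at ht₀
  set μ₀ := μ i₀ with hμ₀
  have hμ₀s : ‖μ₀‖ = s := hμ i₀ hi₀
  have hμ₀0 : μ₀ ≠ 0 := norm_pos_iff.mp (by rw [hμ₀s]; exact hs)
  obtain ⟨y, hy, hyc⟩ := exists_scale L T c
  set g' : ℕ → L := fun t => ∑ i ∈ T, (y * c i * (μ i / μ₀) ^ c₀) *
    ((((c₀ + N₁ * t : ℕ) : L) ^ d i) * ((μ i / μ₀) ^ N₁) ^ t) with hg'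
  have hu : ∀ i ∈ T, ‖μ i / μ₀‖ = 1 := by
    intro i hi
    rw [norm_div, hμ i hi, hμ₀s, div_self hs.ne']
  have hNAn : NAn L g' := by
    apply NAn.sum
    intro i hi
    apply NAn.const_mul
    · apply NAn.mul
      · exact (NAn.linear hNp c₀).pow (d i)
      · apply NAn.exp
        · rw [norm_pow, hu i hi, one_pow]
        · exact hN _ (hu i hi)
    · rw [norm_mul, norm_pow, hu i hi, one_pow, mul_one]
      exact hyc i hi
  have hrel : ∀ t, g' t = (y / μ₀ ^ (c₀ + N₁ * t)) *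
      ∑ i ∈ T, c i * epf (d i) (μ i) (c₀ + N₁ * t) := by
    intro t
    rw [hg', Finset.mul_sum]
    refine Finset.sum_congr rfl fun i _ => ?_
    simp only [epf]
    rw [← pow_mul, div_pow, div_pow, pow_add μ₀, pow_add (μ i)]
    have h1 : μ₀ ^ c₀ ≠ 0 := pow_ne_zero _ hμ₀0
    have h2 : μ₀ ^ (N₁ * t) ≠ 0 := pow_ne_zero _ hμ₀0
    field_simp
  have hθ0 : 0 < (s' / s) ^ N₁ := by positivity
  have hθ1 : (s' / s) ^ N₁ < 1 :=
    pow_lt_one₀ (by positivity) ((div_lt_one hs).mpr hss) (by omega)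
  refine SSp_of_norm L hp3 hNAn ⟨t₀, ?_⟩ (C := ‖y‖ * C * (s' / s) ^ c₀) hθ0 hθ1 ?_
  · rw [hrel]
    exact mul_ne_zero (div_ne_zero hy (pow_ne_zero _ hμ₀0)) ht₀
  · intro t ht
    rw [hrel, norm_mul, norm_div, norm_pow, hμ₀s]
    have ht' : ‖∑ i ∈ T, c i * epf (d i) (μ i) (c₀ + N₁ * t)‖ ≤ C * s' ^ (c₀ + N₁ * t) := ht
    calc _ ≤ ‖y‖ / s ^ (c₀ + N₁ * t) * (C * s' ^ (c₀ + N₁ * t)) := by gcongr
      _ = _ := by
        rw [← pow_mul, mul_assoc (‖y‖ * C), ← pow_add, div_pow]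
        field_simp

lemma exists_between {ι : Type*} (T : Finset ι) (f : ι → ℝ) {ρ s : ℝ} (hρ : ρ < s)
    (h : ∀ i ∈ T, f i < s) : ∃ s' < s, ρ ≤ s' ∧ ∀ i ∈ T, f i ≤ s' := by
  classical
  induction T using Finset.induction_on with
  | empty => exact ⟨ρ, hρ, le_rfl, by simp⟩
  | insert a T ha ih =>
    obtain ⟨s', h1, h2, h3⟩ := ih fun i hi => h i (Finset.mem_insert_of_mem hi)
    refine ⟨max s' (f a), max_lt h1 (h a (Finset.mem_insert_self _ _)),
      h2.trans (le_max_left _ _), ?_⟩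
    intro i hi
    rcases Finset.mem_insert.mp hi with rfl | hi
    · exact le_max_right _ _
    · exact (h3 i hi).trans (le_max_left _ _)

variable {L}

omit [FiniteDimensional ℚ_[p] L] in
lemma norm_ep_le {ι : Type*} (T : Finset ι) (c : ι → L) (d : ι → ℕ) (μ : ι → L) {ρ : ℝ}
    (hρ : ∀ i ∈ T, ‖μ i‖ ≤ ρ) (k : ℕ) :
    ‖∑ i ∈ T, c i * epf (d i) (μ i) k‖ ≤ (∑ i ∈ T, ‖c i‖) * ρ ^ k := by
  refine (norm_sum_le _ _).trans ?_
  rw [Finset.sum_mul]
  refine Finset.sum_le_sum fun i hi => ?_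
  rw [norm_mul]
  simp only [epf]
  rw [norm_mul, norm_pow, norm_pow]
  have h1 : ‖(k : L)‖ ^ d i ≤ 1 := pow_le_one₀ (norm_nonneg _) (norm_natCast_le L k)
  have h2 : ‖μ i‖ ^ k ≤ ρ ^ k := pow_le_pow_left₀ (norm_nonneg _) (hρ i hi) k
  calc ‖c i‖ * (‖(k : L)‖ ^ d i * ‖μ i‖ ^ k) ≤ ‖c i‖ * (1 * ρ ^ k) := by gcongr
    _ = _ := by rw [one_mul]

/-- the dichotomy for exponential polynomials in a residue class -/
lemma ep_dich (hp3 : 3 ≤ p) {N₁ : ℕ} (hN0 : 1 ≤ N₁) (hNp : p ∣ N₁)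
    (hN : ∀ u : L, ‖u‖ = 1 → ‖u ^ N₁ - 1‖ ≤ ‖(p : L)‖) {ι : Type*} (T : Finset ι)
    (c : ι → L) (d : ι → ℕ) (μ : ι → L) (hμ : ∀ i ∈ T, μ i ≠ 0) {ρ : ℝ} (hρ : 0 < ρ) (c₀ : ℕ) :
    (∃ C : ℝ, ∀ t : ℕ, ‖∑ i ∈ T, c i * epf (d i) (μ i) (c₀ + N₁ * t)‖ ≤
      C * ρ ^ (c₀ + N₁ * t)) ∨
    ∀ C : ℝ, SSp {t | ‖∑ i ∈ T, c i * epf (d i) (μ i) (c₀ + N₁ * t)‖ ≤
      C * ρ ^ (c₀ + N₁ * t)} := by
  classical
  induction T using Finset.strongInduction with
  | H T ih =>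
    by_cases hall : ∀ i ∈ T, ‖μ i‖ ≤ ρ
    · left
      exact ⟨∑ i ∈ T, ‖c i‖, fun t => norm_ep_le T c d μ hall _⟩
    · push Not at hall
      obtain ⟨i₁, hi₁, hi₁ρ⟩ := hall
      obtain ⟨i₀, hi₀, hmax⟩ := Finset.exists_max_image T (fun i => ‖μ i‖) ⟨i₁, hi₁⟩
      set s := ‖μ i₀‖ with hs
      have hρs : ρ < s := hi₁ρ.trans_le (hmax i₁ hi₁)
      set T₂ := T.filter (fun i => ‖μ i‖ ≠ s) with hT₂
      set T₁ := T.filter (fun i => ‖μ i‖ = s) with hT₁
      have hsub : T₂ ⊂ T := by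
        refine ⟨Finset.filter_subset _ _, fun h => ?_⟩
        have := h hi₀
        rw [hT₂, Finset.mem_filter] at this
        exact this.2 rfl
      have hsplit : ∀ k, ∑ i ∈ T, c i * epf (d i) (μ i) k =
          ∑ i ∈ T₁, c i * epf (d i) (μ i) k + ∑ i ∈ T₂, c i * epf (d i) (μ i) k := by
        intro k
        rw [hT₁, hT₂, Finset.sum_filter_add_sum_filter_not]
      by_cases hz : ∀ t : ℕ, ∑ i ∈ T₁, c i * epf (d i) (μ i) (c₀ + N₁ * t) = 0
      · have h1 := ih T₂ hsub fun i hi => hμ i (Finset.mem_of_mem_filter i hi)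
        simp only [hsplit, hz, zero_add]
        exact h1
      · push Not at hz
        right
        intro C
        obtain ⟨s', hs's, hρs', hT₂s⟩ := exists_between T₂ (fun i => ‖μ i‖) hρs (by
          intro i hi
          rw [hT₂, Finset.mem_filter] at hi
          exact lt_of_le_of_ne (hmax i hi.1) hi.2)
        have h1 := ep_group hp3 hN0 hNp hN T₁ c d μ (hρ.trans hρs) (by
          intro i hi
          rw [hT₁, Finset.mem_filter] at hi
          exact hi.2) c₀ hz (s' := s') (hρ.trans_le hρs') hs's (max (max C 0) (∑ i ∈ T₂, ‖c i‖))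
        refine h1.mono ?_
        intro t ht
        have ht' : ‖∑ i ∈ T, c i * epf (d i) (μ i) (c₀ + N₁ * t)‖ ≤ C * ρ ^ (c₀ + N₁ * t) := ht
        have h2 : ∑ i ∈ T₁, c i * epf (d i) (μ i) (c₀ + N₁ * t) =
            ∑ i ∈ T, c i * epf (d i) (μ i) (c₀ + N₁ * t) -
            ∑ i ∈ T₂, c i * epf (d i) (μ i) (c₀ + N₁ * t) := by
          rw [hsplit]
          ring
        change ‖∑ i ∈ T₁, c i * epf (d i) (μ i) (c₀ + N₁ * t)‖ ≤ _
        rw [h2]
        refine (norm_sub_le_max' _ _).trans (max_le ?_ ?_)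
        · refine ht'.trans ?_
          have h3 : ρ ^ (c₀ + N₁ * t) ≤ s' ^ (c₀ + N₁ * t) := pow_le_pow_left₀ hρ.le hρs' _
          have h4 : C ≤ max C 0 := le_max_left _ _
          have h5 : (0 : ℝ) ≤ max C 0 := le_max_right _ _
          calc C * ρ ^ (c₀ + N₁ * t) ≤ max C 0 * ρ ^ (c₀ + N₁ * t) := by gcongr
            _ ≤ max C 0 * s' ^ (c₀ + N₁ * t) := by gcongr
            _ ≤ _ := mul_le_mul_of_nonneg_right (le_max_left _ _)
              (pow_nonneg (hρ.le.trans hρs') _)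
        · refine (norm_ep_le T₂ c d μ hT₂s _).trans ?_
          have : 0 ≤ s' := hρ.le.trans hρs'
          gcongr
          exact le_max_right _ _

omit [FiniteDimensional ℚ_[p] L] in
lemma mem_EP {e : ℕ → L} (he : e ∈ EP L) : ∃ (m : ℕ) (c : Fin m → L) (d : Fin m → ℕ)
    (μ : Fin m → L), (∀ i, μ i ≠ 0) ∧ ∀ k, e k = ∑ i, c i * epf (d i) (μ i) k := by
  obtain ⟨m, c, g, hg⟩ := Submodule.mem_span_set'.mp he
  choose d μ hμ hgd using fun i => (g i).2
  refine ⟨m, c, d, μ, hμ, fun k => ?_⟩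
  rw [← hg, Finset.sum_apply]
  refine Finset.sum_congr rfl fun i _ => ?_
  rw [Pi.smul_apply, smul_eq_mul, hgd i]

/-- the two alternatives for the size of a sequence along the residue class -/
def Small {E : Type*} [Norm E] (a : ℕ → E) : Prop := ∀ ρ : ℝ, 0 < ρ → ∃ C : ℝ, ∀ t, ‖a t‖ ≤ C * ρ ^ t

/-- rarely small -/
def Rare {E : Type*} [Norm E] (a : ℕ → E) : Prop :=
  ∃ ρ : ℝ, 0 < ρ ∧ ∀ C : ℝ, SSp {t | ‖a t‖ ≤ C * ρ ^ t}

theorem apx_dich (hp3 : 3 ≤ p) {N₁ : ℕ} (hN0 : 1 ≤ N₁) (hNp : p ∣ N₁)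
    (hN : ∀ u : L, ‖u‖ = 1 → ‖u ^ N₁ - 1‖ ≤ ‖(p : L)‖) {a : ℕ → L}
    (ha : ∀ (ρ : ℝ) (hρ : 0 < ρ), a ∈ ApxM L ρ hρ.le) (c₀ : ℕ) :
    Small (fun t => a (c₀ + N₁ * t)) ∨ Rare (fun t => a (c₀ + N₁ * t)) := by
  by_cases hall : ∀ (ρ : ℝ), 0 < ρ → ρ ≤ 1 → ∃ C : ℝ, ∀ t : ℕ, ‖a (c₀ + N₁ * t)‖ ≤
      C * ρ ^ (c₀ + N₁ * t)
  · left
    intro ρ hρ
    obtain ⟨C, hC⟩ := hall (min ρ 1) (lt_min hρ one_pos) (min_le_right _ _)
    refine ⟨max C 0, fun t => (hC t).trans ?_⟩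
    have h0 : 0 ≤ min ρ 1 := (lt_min hρ one_pos).le
    have h1 : (min ρ 1) ^ (c₀ + N₁ * t) ≤ ρ ^ t := by
      calc (min ρ 1) ^ (c₀ + N₁ * t) ≤ (min ρ 1) ^ t := by
            apply pow_le_pow_of_le_one h0 (min_le_right _ _)
            nlinarith
        _ ≤ ρ ^ t := pow_le_pow_left₀ h0 (min_le_left _ _) t
    calc C * min ρ 1 ^ (c₀ + N₁ * t) ≤ max C 0 * min ρ 1 ^ (c₀ + N₁ * t) := by
          gcongr
          exact le_max_left _ _
      _ ≤ _ := by
        gcongr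
  · right
    push Not at hall
    obtain ⟨ρ, hρ, hρ1, hnot⟩ := hall
    obtain ⟨e, he, hae⟩ := ha ρ hρ
    obtain ⟨C₁, hC₁0, hC₁⟩ := hae.nonneg
    obtain ⟨m, c, d, μ, hμ, hek⟩ := mem_EP he
    have hdich := ep_dich hp3 hN0 hNp hN Finset.univ c d μ (fun i _ => hμ i) hρ c₀
    simp only [← hek] at hdich
    rcases hdich with ⟨C, hC⟩ | hss
    · exfalso
      obtain ⟨t, ht⟩ := hnot (max C C₁)
      have h1 : a (c₀ + N₁ * t) = (a - e) (c₀ + N₁ * t) + e (c₀ + N₁ * t) := by simp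
      rw [h1] at ht
      apply absurd ht
      push Not
      refine (IsUltrametricDist.norm_add_le_max _ _).trans (max_le ?_ ?_)
      · refine (hC₁ _).trans ?_
        gcongr
        exact le_max_right _ _
      · refine (hC _).trans ?_
        gcongr
        exact le_max_left _ _
    · refine ⟨ρ ^ N₁, pow_pos hρ _, fun C => ?_⟩
      refine (hss (max (C / ρ ^ c₀) C₁)).mono ?_
      intro t ht
      have ht' : ‖a (c₀ + N₁ * t)‖ ≤ C * (ρ ^ N₁) ^ t := ht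
      have h1 : e (c₀ + N₁ * t) = a (c₀ + N₁ * t) - (a - e) (c₀ + N₁ * t) := by simp
      change ‖e (c₀ + N₁ * t)‖ ≤ _
      rw [h1]
      refine (norm_sub_le_max' _ _).trans (max_le ?_ ?_)
      · refine ht'.trans ?_
        have h2 : C * (ρ ^ N₁) ^ t = (C / ρ ^ c₀) * ρ ^ (c₀ + N₁ * t) := by
          rw [pow_add, ← pow_mul]
          have : ρ ^ c₀ ≠ 0 := (pow_pos hρ _).ne'
          field_simp
        rw [h2]
        gcongr
        exact le_max_left _ _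
      · refine (hC₁ _).trans ?_
        gcongr
        exact le_max_right _ _

variable (L)

/-- norm equivalence for a linearly independent family -/
lemma exists_norm_equiv {m : ℕ} (ε : Fin m → PadicAlgCl p) (hε : LinearIndependent L ε) :
    ∃ K : ℝ, 0 < K ∧ ∀ (x : Fin m → L) (b : Fin m), ‖x b‖ ≤ K * ‖∑ i, (x i : PadicAlgCl p) * ε i‖ := by
  classical
  let f : (Fin m → L) →ₗ[ℚ_[p]] PadicAlgCl p :=
    { toFun := fun x => ∑ i, (x i : PadicAlgCl p) * ε i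
      map_add' := by
        intro x y
        simp only [Pi.add_apply, AddMemClass.coe_add, add_mul, Finset.sum_add_distrib]
      map_smul' := by
        intro r x
        simp only [Pi.smul_apply, RingHom.id_apply, Finset.smul_sum]
        refine Finset.sum_congr rfl fun i _ => ?_
        have : ((r • x i : L) : PadicAlgCl p) = r • (x i : PadicAlgCl p) := rfl
        rw [this, smul_mul_assoc] }
  have hker : LinearMap.ker f = ⊥ := by
    rw [LinearMap.ker_eq_bot']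
    intro x hx
    have h1 := Fintype.linearIndependent_iff.mp hε x (by
      have : f x = ∑ i, (x i : PadicAlgCl p) * ε i := rfl
      rw [this] at hx
      rw [← hx]
      rfl)
    exact funext h1
  obtain ⟨K, hK, hanti⟩ := f.exists_antilipschitzWith hker
  refine ⟨K, by exact_mod_cast hK, fun x b => ?_⟩
  have h1 := hanti.le_mul_dist x 0
  rw [dist_zero_right, map_zero, dist_zero_right] at h1
  exact (norm_le_pi_norm x b).trans h1

omit [FiniteDimensional ℚ_[p] L] in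
/-- decomposition of a polynomial over a basis of its coefficients -/
lemma exists_decomp {κ : Type*} (P : MvPolynomial κ (PadicAlgCl p)) :
    ∃ (m : ℕ) (ε : Fin m → PadicAlgCl p) (Q : Fin m → MvPolynomial κ L),
      LinearIndependent L ε ∧
      P = ∑ b, C (ε b) * map (algebraMap L (PadicAlgCl p)) (Q b) := by
  classical
  let W : Submodule L (PadicAlgCl p) := Submodule.span L (P.coeffs : Set (PadicAlgCl p))
  have hWfin : FiniteDimensional L W := FiniteDimensional.span_finset L P.coeffs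
  let B := Module.finBasis L W
  have hmem : ∀ s, coeff s P ∈ W := by
    intro s
    by_cases h0 : coeff s P = 0
    · rw [h0]; exact W.zero_mem
    · exact Submodule.subset_span (coeff_mem_coeffs _ h0)
  refine ⟨_, fun b => (B b : PadicAlgCl p), fun b => ∑ s ∈ P.support,
    monomial s (B.repr ⟨coeff s P, hmem s⟩ b), ?_, ?_⟩
  · exact B.linearIndependent.map' W.subtype (Submodule.ker_subtype W)
  · conv_lhs => rw [P.as_sum]
    simp only [map_sum, map_monomial, Finset.mul_sum, C_mul_monomial]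
    rw [Finset.sum_comm]
    refine Finset.sum_congr rfl fun s _ => ?_
    rw [← map_sum]
    congr 1
    have h1 := congrArg (fun w : W => (w : PadicAlgCl p)) (B.sum_repr ⟨coeff s P, hmem s⟩)
    simp only [Submodule.coe_sum, Submodule.coe_smul] at h1
    refine h1.symm.trans ?_
    refine Finset.sum_congr rfl fun b _ => ?_
    rw [Algebra.smul_def, mul_comm]

variable {L}

/-- the dichotomy for polynomials with arbitrary coefficients -/
theorem poly_dich (hp3 : 3 ≤ p) {N₁ : ℕ} (hN0 : 1 ≤ N₁) (hNp : p ∣ N₁)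
    (hN : ∀ u : L, ‖u‖ = 1 → ‖u ^ N₁ - 1‖ ≤ ‖(p : L)‖) {κ : Type*} {u : ℕ → κ → L}
    (hu : ∀ (F : MvPolynomial κ L) (ρ : ℝ) (hρ : 0 < ρ), (fun k => eval (u k) F) ∈ ApxM L ρ hρ.le)
    (c₀ : ℕ) (P : MvPolynomial κ (PadicAlgCl p)) :
    Small (fun t => eval (fun s => (u (c₀ + N₁ * t) s : PadicAlgCl p)) P) ∨
      Rare (fun t => eval (fun s => (u (c₀ + N₁ * t) s : PadicAlgCl p)) P) := by
  obtain ⟨m, ε, Q, hε, hP⟩ := exists_decomp L P
  obtain ⟨K, hK, hequiv⟩ := exists_norm_equiv L ε hε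
  have hval : ∀ k, eval (fun s => (u k s : PadicAlgCl p)) P =
      ∑ b, ((eval (u k) (Q b) : L) : PadicAlgCl p) * ε b := by
    intro k
    conv_lhs => rw [hP]
    rw [map_sum]
    refine Finset.sum_congr rfl fun b _ => ?_
    rw [map_mul, eval_C, mul_comm]
    congr 1
    exact (map_eval' (algebraMap L (PadicAlgCl p)) (u k) (Q b)).symm
  by_cases hall : ∀ b, Small (fun t => eval (u (c₀ + N₁ * t)) (Q b))
  · left
    intro ρ hρ
    choose C hC using fun b => hall b ρ hρ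
    refine ⟨∑ b, ‖ε b‖ * max (C b) 0, fun t => ?_⟩
    change ‖eval (fun s => (u (c₀ + N₁ * t) s : PadicAlgCl p)) P‖ ≤ _
    rw [hval, Finset.sum_mul]
    refine (norm_sum_le _ _).trans (Finset.sum_le_sum fun b _ => ?_)
    rw [norm_mul, mul_comm, mul_assoc]
    have h1 : ‖((eval (u (c₀ + N₁ * t)) (Q b) : L) : PadicAlgCl p)‖ ≤ C b * ρ ^ t := hC b t
    have h2 : C b * ρ ^ t ≤ max (C b) 0 * ρ ^ t := by
      gcongr
      exact le_max_left _ _
    gcongr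
    exact h1.trans h2
  · right
    push Not at hall
    obtain ⟨b, hb⟩ := hall
    rcases apx_dich hp3 hN0 hNp hN (hu (Q b)) c₀ with h1 | ⟨ρ, hρ, hss⟩
    · exact absurd h1 hb
    · refine ⟨ρ, hρ, fun C => (hss (K * C)).mono ?_⟩
      intro t ht
      have ht' : ‖eval (fun s => (u (c₀ + N₁ * t) s : PadicAlgCl p)) P‖ ≤ C * ρ ^ t := ht
      rw [hval] at ht'
      change ‖eval (u (c₀ + N₁ * t)) (Q b)‖ ≤ _
      refine (hequiv (fun b => eval (u (c₀ + N₁ * t)) (Q b)) b).trans ?_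
      rw [mul_assoc]
      gcongr

end

end Pool.Agent.Helper86.DML
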