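import Mathlib
import Pool.Agent.Helper86.DML.Structure
import Pool.Agent.Helper86.DML.Embed2

/-!
# The p-adic model of an orbit
-/

namespace Pool.Agent.Helper86.DML

open MvPolynomial

noncomputable section

/-- a finite free model over `ℤ_p` containing the images of finitely many complex numbers, with a
measure of algebraic independence -/
lemma exists_model_LM (A : Finset ℂ) :
    ∃ (p : ℕ) (_ : Fact p.Prime) (O : Subalgebra ℤ_[p] (AlgebraicClosure ℚ_[p]))
      (σ : ℂ →+* AlgebraicClosure ℚ_[p]), 3 ≤ p ∧ Module.Finite ℤ_[p] O ∧ Module.Free ℤ_[p] O ∧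
      (∀ a ∈ A, ∃ o : O, (o : AlgebraicClosure ℚ_[p]) = σ a) ∧ HasLM p σ A := by
  classical
  obtain ⟨p, hp, σ, hp3, hσ, hLM⟩ := exists_embedding_LM A
  let O : Subalgebra ℤ_[p] (AlgebraicClosure ℚ_[p]) := Algebra.adjoin ℤ_[p] (σ '' (A : Set ℂ))
  have hfin : Module.Finite ℤ_[p] O := by
    have h1 : (Subalgebra.toSubmodule O).FG := by
      apply fg_adjoin_of_finite (A.finite_toSet.image _)
      rintro _ ⟨z, hz, rfl⟩
      exact hσ z hz
    exact Module.Finite.iff_fg.mpr h1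
  have hinj3 : Function.Injective (algebraMap ℤ_[p] (AlgebraicClosure ℚ_[p])) := by
    rw [IsScalarTower.algebraMap_eq ℤ_[p] ℚ_[p] (AlgebraicClosure ℚ_[p])]
    exact (algebraMap ℚ_[p] (AlgebraicClosure ℚ_[p])).injective.comp
      (IsFractionRing.injective ℤ_[p] ℚ_[p])
  have htf : Module.IsTorsionFree ℤ_[p] O := by
    have : FaithfulSMul ℤ_[p] O := by
      rw [faithfulSMul_iff_algebraMap_injective]
      intro a b hab
      exact hinj3 (congrArg Subtype.val hab)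
    infer_instance
  exact ⟨p, hp, O, σ, hp3, hfin, inferInstance,
    fun a ha => ⟨⟨σ a, Algebra.subset_adjoin ⟨a, ha, rfl⟩⟩, rfl⟩, hLM⟩

variable {N : ℕ} {B₀ : Finset (MvPolynomial (Fin (N + 1)) ℂ)}

lemma iter_lift {X : Set (PP N)} {A : Set (MvPolynomial (Fin (N + 1)) ℂ)} {Φ : PP N → PP N}
    {Ψ : Idx N B₀ → MvPolynomial (Idx N B₀) ℂ}
    (hΨ : ∀ u : Idx N B₀ → ℂ, (∀ G ∈ eqs B₀ A, eval u G = 0) → ∀ x : PP N, Rep x u →
        (∀ G ∈ eqs B₀ A, eval (pmap Ψ u) G = 0) ∧ Rep (Φ x) (pmap Ψ u)) :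
    ∀ (u : Idx N B₀ → ℂ) (x : PP N), (∀ G ∈ eqs B₀ A, eval u G = 0) → Rep x u →
      ∀ n, (∀ G ∈ eqs B₀ A, eval ((pmap Ψ)^[n] u) G = 0) ∧ Rep (Φ^[n] x) ((pmap Ψ)^[n] u) := by
  intro u x hu hx n
  induction n with
  | zero => exact ⟨hu, hx⟩
  | succ n ih =>
    rw [Function.iterate_succ_apply', Function.iterate_succ_apply']
    exact hΨ _ ih.1 _ ih.2

/-- the `p`-adic model of an orbit, with its shadow orbit, including the backward step along a
closed invariant set along which the map is unramified -/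
theorem exists_padic_model (X : Set (PP N)) (A : Set (MvPolynomial (Fin (N + 1)) ℂ))
    (hA : ∀ F ∈ A, ∃ d : ℕ, F.IsHomogeneous d) (hB : ∀ F ∈ B₀, ∃ d : ℕ, F.IsHomogeneous d)
    (hX : ∀ p : PP N, p ∈ X ↔ ((∀ F ∈ A, eval p.rep F = 0) ∧ ∃ F ∈ B₀, eval p.rep F ≠ 0))
    (Φ : PP N → PP N) (hΦX : ∀ x ∈ X, Φ x ∈ X)
    (hΦ : ∀ x ∈ X, ∃ (d e : ℕ) (F : Fin (N + 1) → MvPolynomial (Fin (N + 1)) ℂ)
          (g : MvPolynomial (Fin (N + 1)) ℂ),
          (∀ i, (F i).IsHomogeneous d) ∧ g.IsHomogeneous e ∧ eval x.rep g ≠ 0 ∧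
          ∀ y ∈ X, eval y.rep g ≠ 0 →
            (fun i : Fin (N + 1) => eval y.rep (F i)) ≠ 0 ∧
            (fun i : Fin (N + 1) => eval y.rep (F i)) ∈ (Φ y).submodule)
    (Y : Set (PP N)) (D : Set (MvPolynomial (Fin (N + 1)) ℂ))
    (hD : ∀ F ∈ D, ∃ d : ℕ, F.IsHomogeneous d)
    (hY : ∀ p : PP N, p ∈ Y ↔ p ∈ X ∧ ∀ F ∈ D, eval p.rep F = 0)
    (hun : ∀ y ∈ Y, ∃ (d e : ℕ) (F : Fin (N + 1) → MvPolynomial (Fin (N + 1)) ℂ)
          (g : MvPolynomial (Fin (N + 1)) ℂ),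
          (∀ i, (F i).IsHomogeneous d) ∧ g.IsHomogeneous e ∧ eval y.rep g ≠ 0 ∧
          (∀ x ∈ X, eval x.rep g ≠ 0 →
            (fun i : Fin (N + 1) => eval x.rep (F i)) ≠ 0 ∧
            (fun i : Fin (N + 1) => eval x.rep (F i)) ∈ (Φ x).submodule) ∧
          ∀ h : Fin (N + 1) → ℂ, (∀ E ∈ HomVan X, dirDeriv y.rep h E = 0) →
            (fun i => dirDeriv y.rep h (F i)) ∈ (Φ y).submodule → h ∈ y.submodule)
    (Ψ : Idx N B₀ → MvPolynomial (Idx N B₀) ℂ)
    (hΨ : ∀ u : Idx N B₀ → ℂ, (∀ G ∈ eqs B₀ A, eval u G = 0) → ∀ x : PP N, Rep x u →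
        (∀ G ∈ eqs B₀ A, eval (pmap Ψ u) G = 0) ∧ Rep (Φ x) (pmap Ψ u))
    (𝒜₀ : Finset ℂ) (α : PP N) (hα : α ∈ X) :
    ∃ (p : ℕ) (_ : Fact p.Prime) (O : Subalgebra ℤ_[p] (AlgebraicClosure ℚ_[p]))
      (σ : ℂ →+* AlgebraicClosure ℚ_[p])
      (Ψ' : Idx N B₀ → MvPolynomial (Idx N B₀) O) (uα : Idx N B₀ → ℂ) (n₀ M : ℕ)
      (x z : ℕ → Idx N B₀ → O),
      3 ≤ p ∧ HasLM p σ 𝒜₀ ∧ Module.Finite ℤ_[p] O ∧ Module.Free ℤ_[p] O ∧
      (∀ i, map O.val.toRingHom (Ψ' i) = map σ (Ψ i)) ∧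
      (∀ G ∈ eqs B₀ A, eval uα G = 0) ∧ Rep α uα ∧ 1 ≤ M ∧
      (∀ i, O.val.toRingHom ∘ x i = σ ∘ (pmap Ψ)^[n₀ + i] uα) ∧
      (∀ i, x (i + 1) = pmap Ψ' (x i)) ∧ (∀ i, z (i + 1) = pmap Ψ' (z i)) ∧
      (∀ i k, (p : O) ∣ x i k - z i k) ∧
      (∀ n i, M * n ≤ i → ∀ k, (p : O) ^ n ∣ x i k - z i k) ∧
      (∀ (j : ℕ) (H : MvPolynomial (Idx N B₀) ℂ),
        (∃ k, eval (O.val.toRingHom ∘ z (j + M * k)) (map σ H) ≠ 0) →
        SSp {k | eval (O.val.toRingHom ∘ x (j + M * k)) (map σ H) = 0} ∧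
        SSp {k | eval (O.val.toRingHom ∘ z (j + M * k)) (map σ H) = 0}) ∧
      (∀ j, (∀ i, j ≤ i → ∀ H ∈ eqsY B₀ A D,
          eval (O.val.toRingHom ∘ z i) (map σ H) = 0) →
        ∀ i, j ≤ i → ∀ a b s t, mat (z i) a s * mat (x i) b t = mat (z i) b s * mat (x i) a t) := by
  classical
  obtain ⟨hα1, hα2⟩ := (hX α).mp hα
  obtain ⟨uα, huα, hrepα⟩ := exists_zero_above hA hB α hα1 hα2
  have hYX : Y ⊆ X := fun y hy => ((hY y).mp hy).1
  have hiter := iter_lift (X := X) hΨ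
  have hbelow : ∀ u : Idx N B₀ → ℂ, (∀ H ∈ eqs B₀ A, eval u H = 0) → ∃ x ∈ X, Rep x u := by
    intro u hu
    obtain ⟨x, hx⟩ := exists_rep hu
    exact ⟨x, memX_of_rep hA hB hX u hu x hx, hx⟩
  have hbelowY : ∀ u : Idx N B₀ → ℂ, (∀ H ∈ eqsY B₀ A D, eval u H = 0) → ∃ x ∈ Y, Rep x u := by
    intro u hu
    have hu' : ∀ H ∈ eqs B₀ A, eval u H = 0 := fun H hH => hu H (Or.inl hH)
    obtain ⟨x, hxX, hx⟩ := hbelow u hu'
    refine ⟨x, (hY x).mpr ⟨hxX, ?_⟩, hx⟩
    rw [zero_up_iff hD u hu' x hx]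
    exact fun F hF j => hu _ (Or.inr ⟨F, hF, j, rfl⟩)
  -- the local data along `Y`
  choose d e F g hFd hge hgy hloc hunr using fun y : Y => hun y.1 y.2
  let G : Y → Fin (N + 1) → MvPolynomial (Fin (N + 1)) ℂ := fun y b => g y * F y b
  have hG : ∀ y b, (G y b).IsHomogeneous (e y + d y) := fun y b => (hge y).mul (hFd y b)
  have hGloc : ∀ y, ∀ u : Idx N B₀ → ℂ, (∀ H ∈ eqs B₀ A, eval u H = 0) → ∀ x, Rep x u →
      ∀ v ∈ x.submodule, (fun b => eval v (G y b)) ∈ (Φ x).submodule := by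
    intro y u hu x hx v hv
    have hxX := memX_of_rep hA hB hX u hu x hx
    obtain ⟨c, rfl⟩ := (mem_submodule_iff x v).mp hv
    have h1 : (fun b => eval (c • x.rep) (G y b)) =
        (c ^ e y * c ^ d y * eval x.rep (g y)) • (fun b => eval x.rep (F y b)) := by
      funext b
      simp only [G, map_mul, Pi.smul_apply, smul_eq_mul]
      rw [eval_smul_hom (hge y), eval_smul_hom (hFd y b)]
      ring
    rw [h1]
    by_cases hg0 : eval x.rep (g y) = 0
    · rw [hg0, mul_zero, zero_smul]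
      exact Submodule.zero_mem _
    · exact Submodule.smul_mem _ _ (hloc y x hxX hg0).2
  obtain ⟨γ, hγ⟩ := exists_comb_unram (B₀ := B₀) X Y A D G hbelowY
    (exists_det_unram X Y Φ d e F g hYX hFd hge hgy hloc hunr)
  -- the coefficients
  let 𝒜 : Finset ℂ := (Finset.univ.biUnion fun i => (Ψ i).coeffs) ∪ (Finset.univ.image uα) ∪
    (γ.support.biUnion fun l => (γ l).coeffs) ∪
    (γ.support.biUnion fun l => Finset.univ.biUnion fun i =>
      (rowPair X Y G l.1 (l.2.2 i)).1.coeffs ∪ (rowPair X Y G l.1 (l.2.2 i)).2.coeffs) ∪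
    (γ.support.biUnion fun l => Finset.univ.biUnion fun i => Finset.univ.biUnion fun b'' =>
      (match l.2.2 i with
        | some (Sum.inr (y, _, _)) => (G y b'').coeffs
        | _ => ∅))
  obtain ⟨p, hp, O, σ, hp3, hfin, hfree, hO₀, hLM₀⟩ := exists_model_LM (𝒜₀ ∪ 𝒜)
  have hO : ∀ a ∈ 𝒜, ∃ o : O, (o : AlgebraicClosure ℚ_[p]) = σ a :=
    fun a ha => hO₀ a (Finset.mem_union_right _ ha)
  have hLM : HasLM p σ 𝒜₀ := hLM₀.mono (fun a ha => Finset.mem_coe.mpr
    (Finset.mem_union_left _ (Finset.mem_coe.mp ha)))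
  let emb : O →+* AlgebraicClosure ℚ_[p] := O.val.toRingHom
  have hemb : Function.Injective emb := Subtype.val_injective
  have hp0 : (p : O) ≠ 0 := by
    intro h0
    have h1 : emb (p : O) = 0 := by rw [h0, map_zero]
    rw [map_natCast] at h1
    exact hp.out.ne_zero (by exact_mod_cast h1)
  have hliftex : ∀ {κ : Type} (H : MvPolynomial κ ℂ), H.coeffs ⊆ 𝒜 →
      ∃ H' : MvPolynomial κ O, map emb H' = map σ H := by
    intro κ H hH
    have : map σ H ∈ Set.range (MvPolynomial.map (σ := κ) emb) := by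
      rw [mem_range_map_iff_coeffs_subset]
      refine (coe_coeffs_map σ H).trans ?_
      rintro _ ⟨z, hz, rfl⟩
      obtain ⟨o, ho⟩ := hO z (hH hz)
      exact ⟨o, ho⟩
    exact this
  let lift : MvPolynomial (Fin (N + 1)) ℂ → MvPolynomial (Fin (N + 1)) O := fun H =>
    if h : ∃ H' : MvPolynomial (Fin (N + 1)) O, map emb H' = map σ H then h.choose else 0
  have hlift : ∀ H : MvPolynomial (Fin (N + 1)) ℂ, H.coeffs ⊆ 𝒜 → map emb (lift H) = map σ H := by
    intro H hH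
    have h := hliftex H hH
    simp only [lift, dif_pos h]
    exact h.choose_spec
  let lift' : MvPolynomial (Idx N B₀) ℂ → MvPolynomial (Idx N B₀) O := fun H =>
    if h : ∃ H' : MvPolynomial (Idx N B₀) O, map emb H' = map σ H then h.choose else 0
  have hlift' : ∀ H : MvPolynomial (Idx N B₀) ℂ, H.coeffs ⊆ 𝒜 → map emb (lift' H) = map σ H := by
    intro H hH
    have h := hliftex H hH
    simp only [lift', dif_pos h]
    exact h.choose_spec
  let Ψ' : Idx N B₀ → MvPolynomial (Idx N B₀) O := fun i => lift' (Ψ i)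
  have hΨ' : ∀ i, map emb (Ψ' i) = map σ (Ψ i) := by
    intro i
    apply hlift'
    intro z hz
    simp only [𝒜, Finset.mem_union, Finset.mem_biUnion]
    exact Or.inl (Or.inl (Or.inl (Or.inl ⟨i, Finset.mem_univ _, hz⟩)))
  have hαex : ∀ i, ∃ o : O, emb o = σ (uα i) := by
    intro i
    apply hO
    simp only [𝒜, Finset.mem_union, Finset.mem_biUnion]
    exact Or.inl (Or.inl (Or.inl (Or.inr (Finset.mem_image_of_mem _ (Finset.mem_univ _)))))
  choose α' hα' using hαex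
  have hα'' : emb ∘ α' = σ ∘ uα := funext hα'
  have hl1 : ∀ l ∈ γ.support, map emb (lift' (γ l)) = map σ (γ l) := by
    intro l hl
    apply hlift'
    intro z hz
    simp only [𝒜, Finset.mem_union, Finset.mem_biUnion]
    exact Or.inl (Or.inl (Or.inr ⟨l, hl, hz⟩))
  have hl2 : ∀ l ∈ γ.support, ∀ i, map emb (lift (rowPair X Y G l.1 (l.2.2 i)).1) =
      map σ (rowPair X Y G l.1 (l.2.2 i)).1 ∧ map emb (lift (rowPair X Y G l.1 (l.2.2 i)).2) =
      map σ (rowPair X Y G l.1 (l.2.2 i)).2 := by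
    intro l hl i
    constructor
    · apply hlift
      intro z hz
      simp only [𝒜, Finset.mem_union, Finset.mem_biUnion]
      exact Or.inl (Or.inr ⟨l, hl, i, Finset.mem_univ _, Or.inl hz⟩)
    · apply hlift
      intro z hz
      simp only [𝒜, Finset.mem_union, Finset.mem_biUnion]
      exact Or.inl (Or.inr ⟨l, hl, i, Finset.mem_univ _, Or.inr hz⟩)
  have hl3 : ∀ l ∈ γ.support, ∀ i, ∀ y b b', l.2.2 i = some (Sum.inr (y, b, b')) →
      ∀ b'', map emb (lift (G y b'')) = map σ (G y b'') := by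
    intro l hl i y b b' hr b''
    apply hlift
    intro z hz
    simp only [𝒜, Finset.mem_union]
    right
    rw [Finset.mem_biUnion]
    refine ⟨l, hl, ?_⟩
    rw [Finset.mem_biUnion]
    refine ⟨i, Finset.mem_univ _, ?_⟩
    rw [Finset.mem_biUnion]
    refine ⟨b'', Finset.mem_univ _, ?_⟩
    rw [hr]
    exact hz
  -- the dichotomy
  obtain ⟨n₀, M, z, hM, hz1, hz2, hz3⟩ := dichotomy' hp3 Ψ' α'
  have hcomp := free_complete (p := p) (O := O)
  have hOnXx : ∀ i, OnX σ A (emb ∘ (pmap Ψ')^[n₀ + i] α') := by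
    intro i H hH
    rw [emb_iter emb σ hΨ' hα'', ← map_eval', (hiter uα α huα hrepα (n₀ + i)).1 H hH, map_zero]
  refine ⟨p, hp, O, σ, Ψ', uα, n₀, M, fun i => (pmap Ψ')^[n₀ + i] α',
    fun i => (pmap Ψ')^[i] z, hp3, hLM, hfin, hfree, hΨ', huα, hrepα, hM,
    fun i => emb_iter emb σ hΨ' hα'' (n₀ + i),
    fun i => Function.iterate_succ_apply' _ _ _, fun i => Function.iterate_succ_apply' _ _ _,
    hz1, hz2, ?_, ?_⟩
  · intro j H hne
    refine dichotomy_complex O σ (fun k => (pmap Ψ')^[n₀ + (j + M * k)] α')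
      (fun k => (pmap Ψ')^[j + M * k] z) ?_ H hne
    intro O' _ _ _ _ φ F hF
    have := hz3 O' φ j F hF
    simp only [add_assoc] at this ⊢
    exact this
  · intro j hzY
    have hzX : ∀ i, j ≤ i → OnX σ A (emb ∘ (pmap Ψ')^[i] z) :=
      fun i hi H hH => hzY i hi H (Or.inl hH)
    -- congruences
    have hcong : ∀ k, ∀ i, j ≤ i → Cong ((p : O) ^ (k + 1)) (mat ((pmap Ψ')^[i] z))
        (mat ((pmap Ψ')^[n₀ + i] α')) := by
      intro k
      induction k with
      | zero =>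
        intro i hi
        apply cong_of_dvd ((hzX i hi).minorO emb hemb σ)
        intro a b
        rw [zero_add, pow_one]
        exact hz1 i _
      | succ k ih =>
        have hback : ∀ t, ∀ i, j ≤ i → M * (k + 2) ≤ i + t →
            Cong ((p : O) ^ (k + 1 + 1)) (mat ((pmap Ψ')^[i] z))
              (mat ((pmap Ψ')^[n₀ + i] α')) := by
          intro t
          induction t with
          | zero =>
            intro i hi hit
            apply cong_of_dvd ((hzX i hi).minorO emb hemb σ)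
            intro a b
            exact hz2 (k + 2) i hit _
          | succ t iht =>
            intro i hi hit
            have h1 := iht (i + 1) (by omega) (by omega)
            have e1 : (pmap Ψ')^[i + 1] z = pmap Ψ' ((pmap Ψ')^[i] z) :=
              Function.iterate_succ_apply' _ _ _
            have e2 : (pmap Ψ')^[n₀ + (i + 1)] α' = pmap Ψ' ((pmap Ψ')^[n₀ + i] α') :=
              Function.iterate_succ_apply' _ _ _
            rw [e1, e2] at h1
            exact back_step emb hemb σ hp0 X Y A D Φ Ψ hbelow hΨ G (fun y => e y + d y) hG hGloc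
              γ hγ Ψ' hΨ' lift lift' hl1 hl2 hl3 (hzY i hi) (hOnXx i) (by omega) (ih i hi) h1
        intro i hi
        exact hback (M * (k + 2)) i hi (by omega)
    intro i hi a b s t
    rw [← sub_eq_zero]
    apply hcomp.sep
    intro n
    exact (pow_dvd_pow _ (Nat.le_succ n)).trans (hcong n i hi a b s t)

end

end Pool.Agent.Helper86.DML
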