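import Mathlib
import Pool.Agent.Helper86.DML.Model

/-!
# The structure theorem for orbits
-/

namespace Pool.Agent.Helper86.DML

open MvPolynomial

noncomputable section

variable {N : ℕ} {B₀ : Finset (MvPolynomial (Fin (N + 1)) ℂ)}

/-- the polynomials vanishing along a sequence of points -/
def seqIdeal {κ Ω : Type*} [Field Ω] (σ : ℂ →+* Ω) (z : ℕ → κ → Ω) : Ideal (MvPolynomial κ ℂ) :=
  ⨅ k, RingHom.ker ((eval (z k)).comp (map σ))

lemma mem_seqIdeal {κ Ω : Type*} [Field Ω] {σ : ℂ →+* Ω} {z : ℕ → κ → Ω} {H : MvPolynomial κ ℂ} :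
    H ∈ seqIdeal σ z ↔ ∀ k, eval (z k) (map σ H) = 0 := by
  simp [seqIdeal, RingHom.mem_ker]

lemma seqIdeal_prime {κ Ω : Type*} [Field Ω] {σ : ℂ →+* Ω} {z : ℕ → κ → Ω}
    (h : ∀ H : MvPolynomial κ ℂ, (∃ k, eval (z k) (map σ H) ≠ 0) →
      SSp {k | eval (z k) (map σ H) = 0}) : (seqIdeal σ z).IsPrime := by
  refine ⟨?_, ?_⟩
  · rw [Ne, Ideal.eq_top_iff_one, mem_seqIdeal]
    push Not
    exact ⟨0, by simp⟩
  · intro F G hFG
    by_contra hcon
    push Not at hcon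
    rw [mem_seqIdeal, mem_seqIdeal] at hcon
    push Not at hcon
    obtain ⟨h1, h2⟩ := hcon
    obtain ⟨k, hk⟩ := exists_not_mem_of_SSp ((h F h1).union (h G h2))
    simp only [Set.mem_union, Set.mem_ofPred_eq, not_or] at hk
    have h3 := mem_seqIdeal.mp hFG k
    rw [map_mul, map_mul] at h3
    exact mul_ne_zero hk.1 hk.2 h3

/-- the structure theorem for orbits, with the `p`-adic model -/
theorem structure_model (X : Set (PP N)) (A : Set (MvPolynomial (Fin (N + 1)) ℂ))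
    (hA : ∀ F ∈ A, ∃ d : ℕ, F.IsHomogeneous d) (hB : ∀ F ∈ B₀, ∃ d : ℕ, F.IsHomogeneous d)
    (hX : ∀ p : PP N, p ∈ X ↔ ((∀ F ∈ A, eval p.rep F = 0) ∧ ∃ F ∈ B₀, eval p.rep F ≠ 0))
    (Φ : PP N → PP N) (hΦX : ∀ x ∈ X, Φ x ∈ X)
    (hΦ : ∀ x ∈ X, ∃ (d e : ℕ) (F : Fin (N + 1) → MvPolynomial (Fin (N + 1)) ℂ)
          (g : MvPolynomial (Fin (N + 1)) ℂ),
          (∀ i, (F i).IsHomogeneous d) ∧ g.IsHomogeneous e ∧ eval x.rep g ≠ 0 ∧
          ∀ y ∈ X, eval y.rep g ≠ 0 →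
            (fun i : Fin (N + 1) => eval y.rep (F i)) ≠ 0 ∧
            (fun i : Fin (N + 1) => eval y.rep (F i)) ∈ (Φ y).submodule)
    (Y : Set (PP N)) (D : Set (MvPolynomial (Fin (N + 1)) ℂ))
    (hD : ∀ F ∈ D, ∃ d : ℕ, F.IsHomogeneous d)
    (hY : ∀ p : PP N, p ∈ Y ↔ p ∈ X ∧ ∀ F ∈ D, eval p.rep F = 0)
    (hΦY : ∀ y ∈ Y, Φ y ∈ Y)
    (hun : ∀ y ∈ Y, ∃ (d e : ℕ) (F : Fin (N + 1) → MvPolynomial (Fin (N + 1)) ℂ)
          (g : MvPolynomial (Fin (N + 1)) ℂ),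
          (∀ i, (F i).IsHomogeneous d) ∧ g.IsHomogeneous e ∧ eval y.rep g ≠ 0 ∧
          (∀ x ∈ X, eval x.rep g ≠ 0 →
            (fun i : Fin (N + 1) => eval x.rep (F i)) ≠ 0 ∧
            (fun i : Fin (N + 1) => eval x.rep (F i)) ∈ (Φ x).submodule) ∧
          ∀ h : Fin (N + 1) → ℂ, (∀ E ∈ HomVan X, dirDeriv y.rep h E = 0) →
            (fun i => dirDeriv y.rep h (F i)) ∈ (Φ y).submodule → h ∈ y.submodule)
    (Ψ : Idx N B₀ → MvPolynomial (Idx N B₀) ℂ)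
    (hΨ : ∀ u : Idx N B₀ → ℂ, (∀ G ∈ eqs B₀ A, eval u G = 0) → ∀ x : PP N, Rep x u →
        (∀ G ∈ eqs B₀ A, eval (pmap Ψ u) G = 0) ∧ Rep (Φ x) (pmap Ψ u))
    (𝒜₀ : Finset ℂ) (α : PP N) (hα : α ∈ X) :
    ∃ (p : ℕ) (_ : Fact p.Prime) (O : Subalgebra ℤ_[p] (AlgebraicClosure ℚ_[p]))
      (σ : ℂ →+* AlgebraicClosure ℚ_[p])
      (uα : Idx N B₀ → ℂ) (n₀ M : ℕ) (x z : ℕ → Idx N B₀ → O)
      (I : ℕ → Ideal (MvPolynomial (Idx N B₀) ℂ)),
      3 ≤ p ∧ HasLM p σ 𝒜₀ ∧ Module.Finite ℤ_[p] O ∧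
      (∀ G ∈ eqs B₀ A, eval uα G = 0) ∧ Rep α uα ∧ 1 ≤ M ∧
      (∀ i, O.val.toRingHom ∘ x i = σ ∘ (pmap Ψ)^[n₀ + i] uα) ∧
      (∀ n i, M * n ≤ i → ∀ k, (p : O) ^ n ∣ x i k - z i k) ∧
      (∀ j, ∀ H ∈ I j, eval (O.val.toRingHom ∘ z j) (map σ H) = 0) ∧
      (∀ j, (I j).IsPrime) ∧ (∀ j, ∀ H ∈ eqs B₀ A, H ∈ I j) ∧ ∀ j,
      ZZ X (I (j + M)) = ZZ X (I j) ∧
      (ZZ X (I j)).Nonempty ∧
      (∀ C₁ C₂ : Set (MvPolynomial (Fin (N + 1)) ℂ),
        (∀ F ∈ C₁, ∃ d : ℕ, F.IsHomogeneous d) → (∀ F ∈ C₂, ∃ d : ℕ, F.IsHomogeneous d) →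
        (∀ x ∈ ZZ X (I j), (∀ F ∈ C₁, eval x.rep F = 0) ∨ ∀ F ∈ C₂, eval x.rep F = 0) →
        (∀ x ∈ ZZ X (I j), ∀ F ∈ C₁, eval x.rep F = 0) ∨
          ∀ x ∈ ZZ X (I j), ∀ F ∈ C₂, eval x.rep F = 0) ∧
      (∀ x ∈ ZZ X (I j), Φ x ∈ ZZ X (I (j + 1))) ∧
      (∀ C : Set (MvPolynomial (Fin (N + 1)) ℂ), (∀ F ∈ C, ∃ d : ℕ, F.IsHomogeneous d) →
        (∀ x ∈ ZZ X (I j), ∀ F ∈ C, eval (Φ x).rep F = 0) →
        ∀ x ∈ ZZ X (I (j + 1)), ∀ F ∈ C, eval x.rep F = 0) ∧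
      (∀ C : Set (MvPolynomial (Fin (N + 1)) ℂ), (∀ F ∈ C, ∃ d : ℕ, F.IsHomogeneous d) →
        (∃ x ∈ ZZ X (I j), ∃ F ∈ C, eval x.rep F ≠ 0) →
        SSp {k | ∀ F ∈ C, eval (Φ^[n₀ + j + M * k] α).rep F = 0}) ∧
      (ZZ X (I j) ⊆ Y → ∀ k, Φ^[n₀ + j + M * k] α ∈ ZZ X (I j)) := by
  classical
  obtain ⟨p, hp, O, σ, Ψ', uα, n₀, M, x, z, hp3, hLM, hfin, hfree, hΨ', huα, hrepα, hM, hx0,
    hxs, hzs, hxz, hxz', hdich, hback⟩ :=
    exists_padic_model X A hA hB hX Φ hΦX hΦ Y D hD hY hun Ψ hΨ 𝒜₀ α hα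
  have hiter := iter_lift (X := X) hΨ
  have hemb : Function.Injective O.val.toRingHom := Subtype.val_injective
  let I : ℕ → Ideal (MvPolynomial (Idx N B₀) ℂ) := fun j =>
    seqIdeal σ (fun k => O.val.toRingHom ∘ z (j + M * k))
  have hImem : ∀ j H, H ∈ I j ↔ ∀ k, eval (O.val.toRingHom ∘ z (j + M * k)) (map σ H) = 0 :=
    fun j H => mem_seqIdeal
  have hIprime : ∀ j, (I j).IsPrime := fun j => seqIdeal_prime fun H hH => (hdich j H hH).2
  -- values along the orbit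
  have hxval : ∀ i (H : MvPolynomial (Idx N B₀) ℂ),
      eval (O.val.toRingHom ∘ x i) (map σ H) = σ (eval ((pmap Ψ)^[n₀ + i] uα) H) := by
    intro i H
    rw [hx0, map_eval']
  have heqs : ∀ j, ∀ H ∈ eqs B₀ A, H ∈ I j := by
    intro j H hH
    rw [hImem]
    by_contra hcon
    push Not at hcon
    obtain ⟨k, hk⟩ := exists_not_mem_of_SSp (hdich j H hcon).1
    apply hk
    change eval _ _ = 0
    rw [hxval, (hiter uα α huα hrepα _).1 H hH, map_zero]
  have hzval : ∀ i (H : MvPolynomial (Idx N B₀) ℂ),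
      eval (O.val.toRingHom ∘ z (i + 1)) (map σ H) =
        eval (O.val.toRingHom ∘ z i) (map σ (bind₁ Ψ H)) := by
    intro i H
    rw [eval_map_bind₁, hzs]
    congr 2
    funext i'
    exact emb_pmap O.val.toRingHom σ hΨ' _ i'
  have hstep : ∀ j H, H ∈ I (j + 1) ↔ bind₁ Ψ H ∈ I j := by
    intro j H
    rw [hImem, hImem]
    refine forall_congr' fun k => ?_
    rw [← hzval]
    have : j + 1 + M * k = j + M * k + 1 := by ring
    rw [this]
  have hstep' : ∀ j F, (∃ d, F.IsHomogeneous d) → ((∀ m, bind₁ (colP B₀ m) F ∈ I (j + 1)) ↔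
      ∀ m, bind₁ Ψ (bind₁ (colP B₀ m) F) ∈ I j) :=
    fun j F _ => forall_congr' fun m => hstep j _
  have hper : ∀ j, I (j + M) = I j := by
    intro j
    ext H
    rw [hImem, hImem]
    constructor
    · intro h
      by_contra hcon
      push Not at hcon
      have h1 := (hdich j H hcon).2
      have h2 : SSp (Set.univ : Set ℕ) := by
        refine (h1.union (SSp.of_bounded (S := {0}) 1 (by simp))).mono ?_
        intro k _
        rcases k with _ | k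
        · exact Or.inr rfl
        · left
          have := h k
          have e : j + M + M * k = j + M * (k + 1) := by ring
          rw [e] at this
          exact this
      exact not_SSp_univ h2
    · intro h k
      have := h (k + 1)
      have e : j + M + M * k = j + M * (k + 1) := by ring
      rw [e]
      exact this
  refine ⟨p, hp, O, σ, uα, n₀, M, x, z, I, hp3, hLM, hfin, huα, hrepα, hM, hx0, hxz', ?_,
    hIprime, heqs, fun j => ?_⟩
  · intro j H hH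
    have := (hImem j H).mp hH 0
    rwa [Nat.mul_zero, Nat.add_zero] at this
  have := hIprime j
  have := hIprime (j + 1)
  refine ⟨?_,
    ZZ_nonempty (I j) (heqs j) hA hB hX, ZZ_irreducible (I j) (heqs j) hA hB hX,
    ZZ_map (I j) (I (j + 1)) (heqs j) hA hB hX Φ hΦX Ψ hΨ (hstep' j) hΦ,
    ZZ_dominant (I j) (I (j + 1)) (heqs j) hA hB hX Φ Ψ hΨ (hstep' j), ?_, ?_⟩
  · change ZZ X (I (j + M)) = ZZ X (I j)
    rw [hper]
  · -- sparse classes
    rintro C hC ⟨y, hy, F, hF, hne⟩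
    have h1 : F ∉ DZ (I j) := fun h => hne (hy.2 F h)
    have h2 : ∃ m, bind₁ (colP B₀ m) F ∉ I j := by
      by_contra hcon
      push Not at hcon
      exact h1 ⟨hC F hF, hcon⟩
    obtain ⟨m, hm⟩ := h2
    rw [hImem] at hm
    push Not at hm
    refine (hdich j _ hm).1.mono ?_
    intro k hk
    change eval _ _ = 0
    obtain ⟨h3, h4⟩ := hiter uα α huα hrepα (n₀ + (j + M * k))
    rw [hxval, eval_colP]
    have e : n₀ + j + M * k = n₀ + (j + M * k) := by ring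
    rw [hom_zero (h4 m) (hC F hF) (by rw [← e]; exact hk F hF), map_zero]
  · -- full classes
    intro hjY
    have hzY : ∀ i, j ≤ i → ∀ H ∈ eqsY B₀ A D,
        eval (O.val.toRingHom ∘ z i) (map σ H) = 0 := by
      have h1 : ∀ t, ZZ X (I (j + t)) ⊆ Y := by
        intro t
        induction t with
        | zero => exact hjY
        | succ t ih =>
          have := hIprime (j + t)
          intro y hy
          rw [hY]
          refine ⟨hy.1, ?_⟩
          exact ZZ_dominant (I (j + t)) (I (j + t + 1)) (heqs _) hA hB hX Φ Ψ hΨ (hstep' _) D hD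
            (fun x hx => ((hY _).mp (hΦY x (ih hx))).2) y hy
      intro i hi H hH
      obtain ⟨t, rfl⟩ := Nat.exists_eq_add_of_le hi
      have := hIprime (j + t)
      have h2 : H ∈ I (j + t) := by
        apply mem_of_vanish (I (j + t)) (heqs _) hA hB hX
        intro u y hu hy hyZ
        rcases hH with hH | ⟨F, hF, m, rfl⟩
        · exact hu H hH
        · rw [eval_colP]
          exact hom_zero (hy m) (hD F hF) (((hY y).mp (h1 t hyZ)).2 F hF)
      have h3 := (hImem _ _).mp h2 0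
      rwa [Nat.mul_zero, Nat.add_zero] at h3
    have hminor := hback j hzY
    intro k
    obtain ⟨h1, h2⟩ := hiter uα α huα hrepα (n₀ + (j + M * k))
    have e : n₀ + j + M * k = n₀ + (j + M * k) := by ring
    rw [e]
    refine ⟨memX_of_rep hA hB hX _ h1 _ h2, ?_⟩
    rw [zero_up_iff (fun F hF => hF.1) _ h1 _ h2]
    intro F hF m
    obtain ⟨⟨dF, hdF⟩, hFI⟩ := hF
    apply σ.injective
    have hi : j ≤ j + M * k := Nat.le_add_right _ _
    rw [← hxval, map_zero]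
    have hzX : OnX σ A (O.val.toRingHom ∘ z (j + M * k)) :=
      fun H hH => hzY _ hi H (Or.inl hH)
    obtain ⟨a, ha⟩ : ∃ a, mat (z (j + M * k)) a a ≠ 0 := by
      by_contra hcon
      push Not at hcon
      have := hzX.traceO O.val.toRingHom hemb σ
      simp [hcon] at this
    have hcolx : (fun b => (O.val.toRingHom ∘ x (j + M * k)) (Sum.inl (b, m))) =
        (O.val.toRingHom (mat (x (j + M * k)) a m) /
          O.val.toRingHom (mat (z (j + M * k)) a a)) •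
          fun b => (O.val.toRingHom ∘ z (j + M * k)) (Sum.inl (b, a)) := by
      funext b
      have h3 := congrArg O.val.toRingHom (hminor _ hi a b a m)
      rw [map_mul, map_mul] at h3
      have ha' : O.val.toRingHom (mat (z (j + M * k)) a a) ≠ 0 := by
        rw [Ne, map_eq_zero_iff O.val.toRingHom hemb]
        exact ha
      rw [Pi.smul_apply, smul_eq_mul, div_mul_eq_mul_div, eq_div_iff ha']
      simp only [mat, Function.comp_apply] at h3 ⊢
      linear_combination h3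
    rw [eval_map_colP, hcolx, eval_smul_hom (hdF.map σ), ← eval_map_colP]
    rw [(hImem j _).mp (hFI a) k, mul_zero]

end

end Pool.Agent.Helper86.DML
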