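import Mathlib
import Pool.Agent.Helper86.DML.Orbit
import Pool.Agent.Helper86.DML.EPDich

/-!
# Normalised coordinates, canonical lifts, and expansion at unramified points
-/

namespace Pool.Agent.Helper86.DML

open MvPolynomial

noncomputable section

section Norms

variable {Ω : Type*} [NormedField Ω] {n : Type*} [Fintype n]

lemma eval_bound (v : n → Ω) (G : MvPolynomial n Ω) :
    ∃ C : ℝ, 0 ≤ C ∧ ∀ h : n → Ω, ‖h‖ ≤ 1 → ‖eval (v + h) G‖ ≤ C := by
  induction G using MvPolynomial.induction_on with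
  | C a => exact ⟨‖a‖, norm_nonneg _, fun h _ => by simp⟩
  | add F G hF hG =>
    obtain ⟨C, hC0, hC⟩ := hF
    obtain ⟨C', hC0', hC'⟩ := hG
    refine ⟨C + C', by positivity, fun h hh => ?_⟩
    rw [map_add]
    exact (norm_add_le _ _).trans (add_le_add (hC h hh) (hC' h hh))
  | mul_X F i hF =>
    obtain ⟨C, hC0, hC⟩ := hF
    refine ⟨C * (‖v i‖ + 1), by positivity, fun h hh => ?_⟩
    rw [map_mul, norm_mul, eval_X, Pi.add_apply]
    have h1 : ‖v i + h i‖ ≤ ‖v i‖ + 1 :=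
      (norm_add_le _ _).trans (by gcongr; exact (norm_le_pi_norm h i).trans hh)
    have := hC h hh
    gcongr

lemma dirDeriv_bound (v : n → Ω) (G : MvPolynomial n Ω) :
    ∃ C : ℝ, 0 ≤ C ∧ ∀ h : n → Ω, ‖dirDeriv v h G‖ ≤ C * ‖h‖ := by
  refine ⟨∑ a, ‖eval v (pderiv a G)‖, Finset.sum_nonneg fun _ _ => norm_nonneg _, fun h => ?_⟩
  rw [dirDeriv, Finset.sum_mul]
  refine (norm_sum_le _ _).trans (Finset.sum_le_sum fun a _ => ?_)
  rw [norm_mul, mul_comm]
  exact mul_le_mul_of_nonneg_left (norm_le_pi_norm h a) (norm_nonneg _)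

lemma taylor_norm (v : n → Ω) (G : MvPolynomial n Ω) :
    ∃ C : ℝ, 0 ≤ C ∧ ∀ h : n → Ω, ‖h‖ ≤ 1 →
      ‖eval (v + h) G - eval v G - dirDeriv v h G‖ ≤ C * ‖h‖ ^ 2 := by
  induction G using MvPolynomial.induction_on with
  | C a => exact ⟨0, le_rfl, fun h _ => by simp [dirDeriv_C]⟩
  | add F G hF hG =>
    obtain ⟨C, hC0, hC⟩ := hF
    obtain ⟨C', hC0', hC'⟩ := hG
    refine ⟨C + C', by positivity, fun h hh => ?_⟩
    have h1 : eval (v + h) (F + G) - eval v (F + G) - dirDeriv v h (F + G) =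
        (eval (v + h) F - eval v F - dirDeriv v h F) +
          (eval (v + h) G - eval v G - dirDeriv v h G) := by
      rw [dirDeriv_add, map_add, map_add]
      ring
    rw [h1, add_mul]
    exact (norm_add_le _ _).trans (add_le_add (hC h hh) (hC' h hh))
  | mul_X F i hF =>
    obtain ⟨C, hC0, hC⟩ := hF
    obtain ⟨C', hC0', hC'⟩ := dirDeriv_bound v F
    refine ⟨C * (‖v i‖ + 1) + C', by positivity, fun h hh => ?_⟩
    have h1 : eval (v + h) (F * X i) - eval v (F * X i) - dirDeriv v h (F * X i) =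
        (eval (v + h) F - eval v F - dirDeriv v h F) * (v i + h i) + dirDeriv v h F * h i := by
      rw [dirDeriv_mul, dirDeriv_X, map_mul, map_mul, eval_X, eval_X, Pi.add_apply]
      ring
    rw [h1]
    refine (norm_add_le _ _).trans ?_
    rw [norm_mul, norm_mul, add_mul]
    have h2 : ‖v i + h i‖ ≤ ‖v i‖ + 1 :=
      (norm_add_le _ _).trans (by gcongr; exact (norm_le_pi_norm h i).trans hh)
    have h3 := hC h hh
    have h4 := hC' h
    have h5 := norm_le_pi_norm h i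
    refine add_le_add ?_ ?_
    · calc _ ≤ (C * ‖h‖ ^ 2) * (‖v i‖ + 1) := by gcongr
        _ = _ := by ring
    · calc _ ≤ (C' * ‖h‖) * ‖h‖ := by gcongr
        _ = _ := by ring

/-- an invertible matrix expands -/
lemma matrix_lower {m : ℕ} (A : Matrix (Fin m) (Fin m) Ω) (hA : A.det ≠ 0) :
    ∃ K : ℝ, 0 ≤ K ∧ ∀ h : Fin m → Ω, ∀ r : ℝ, (∀ i, ‖A.mulVec h i‖ ≤ r) → ‖h‖ ≤ K * r := by
  have hunit : IsUnit A.det := isUnit_iff_ne_zero.mpr hA
  refine ⟨∑ i, ∑ j, ‖A⁻¹ i j‖, Finset.sum_nonneg fun _ _ =>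
    Finset.sum_nonneg fun _ _ => norm_nonneg _, fun h r hr => ?_⟩
  have h1 : h = A⁻¹.mulVec (A.mulVec h) := by
    rw [Matrix.mulVec_mulVec, Matrix.nonsing_inv_mul A hunit, Matrix.one_mulVec]
  rcases Nat.eq_zero_or_pos m with rfl | hm
  · have : h = 0 := funext fun i => i.elim0
    rw [this]
    simp
  have hr0 : 0 ≤ r := (norm_nonneg _).trans (hr ⟨0, hm⟩)
  rw [pi_norm_le_iff_of_nonneg (by positivity)]
  intro i
  conv_lhs => rw [h1]
  rw [Matrix.mulVec, dotProduct]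
  refine (norm_sum_le _ _).trans ?_
  calc ∑ j, ‖A⁻¹ i j * A.mulVec h j‖ ≤ ∑ j, ‖A⁻¹ i j‖ * r := by
        refine Finset.sum_le_sum fun j _ => ?_
        rw [norm_mul]
        exact mul_le_mul_of_nonneg_left (hr j) (norm_nonneg _)
    _ = (∑ j, ‖A⁻¹ i j‖) * r := by rw [Finset.sum_mul]
    _ ≤ _ := mul_le_mul_of_nonneg_right (Finset.single_le_sum (f := fun i => ∑ j, ‖A⁻¹ i j‖)
        (fun i _ => Finset.sum_nonneg fun _ _ => norm_nonneg _) (Finset.mem_univ i)) hr0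

end Norms

variable {N : ℕ} {B₀ : Finset (MvPolynomial (Fin (N + 1)) ℂ)}

/-- `Φ` is unramified at `y` -/
def UnramAt (X : Set (PP N)) (Φ : PP N → PP N) (y : PP N) : Prop :=
  ∃ (d e : ℕ) (F : Fin (N + 1) → MvPolynomial (Fin (N + 1)) ℂ)
    (g : MvPolynomial (Fin (N + 1)) ℂ),
    (∀ i, (F i).IsHomogeneous d) ∧ g.IsHomogeneous e ∧ eval y.rep g ≠ 0 ∧
    (∀ x ∈ X, eval x.rep g ≠ 0 →
      (fun i : Fin (N + 1) => eval x.rep (F i)) ≠ 0 ∧
      (fun i : Fin (N + 1) => eval x.rep (F i)) ∈ (Φ x).submodule) ∧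
    ∀ h : Fin (N + 1) → ℂ, (∀ E ∈ HomVan X, dirDeriv y.rep h E = 0) →
      (fun i => dirDeriv y.rep h (F i)) ∈ (Φ y).submodule → h ∈ y.submodule

section NV

variable {Ω : Type*} [Field Ω] (σ : ℂ →+* Ω)

/-- normalised coordinates over `ℂ` -/
def nrep (c : Fin (N + 1)) (x : PP N) : Fin (N + 1) → ℂ := fun a => x.rep a / x.rep c

/-- normalised coordinates -/
def nv (c : Fin (N + 1)) (x : PP N) : Fin (N + 1) → Ω := fun a => σ (nrep c x a)

lemma nrep_eq (c : Fin (N + 1)) (x : PP N) : nrep c x = (x.rep c)⁻¹ • x.rep := by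
  funext a
  rw [nrep, Pi.smul_apply, smul_eq_mul, div_eq_inv_mul]

lemma nrep_mem (c : Fin (N + 1)) (x : PP N) : nrep c x ∈ x.submodule := by
  rw [nrep_eq]
  exact (mem_submodule_iff x _).mpr ⟨_, rfl⟩

lemma nrep_self {c : Fin (N + 1)} {x : PP N} (h : x.rep c ≠ 0) : nrep c x c = 1 := div_self h

lemma nv_self {c : Fin (N + 1)} {x : PP N} (h : x.rep c ≠ 0) : nv σ c x c = 1 := by
  rw [nv, nrep_self h, map_one]

lemma nrep_ne_zero {c : Fin (N + 1)} {x : PP N} (h : x.rep c ≠ 0) : nrep c x ≠ 0 := by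
  intro h0
  have := congrFun h0 c
  rw [nrep_self h] at this
  exact one_ne_zero this

lemma eval_nv (c : Fin (N + 1)) (x : PP N) (F : MvPolynomial (Fin (N + 1)) ℂ) :
    eval (nv σ c x) (map σ F) = σ (eval (nrep c x) F) := (map_eval' σ (nrep c x) F).symm

lemma eval_nrep_zero_iff {c : Fin (N + 1)} {x : PP N} (h : x.rep c ≠ 0)
    {F : MvPolynomial (Fin (N + 1)) ℂ} (hF : ∃ d, F.IsHomogeneous d) :
    eval (nrep c x) F = 0 ↔ eval x.rep F = 0 := by
  constructor
  · intro h0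
    by_contra hne
    exact hom_ne (nrep_mem c x) (nrep_ne_zero h) hF hne h0
  · exact hom_zero (nrep_mem c x) hF

/-- a vector on the line of `x` in terms of the normalised coordinates -/
lemma line_nrep {c : Fin (N + 1)} {x : PP N} (h : x.rep c ≠ 0) {v : Fin (N + 1) → ℂ}
    (hv : v ∈ x.submodule) (b : Fin (N + 1)) : v b = v c * nrep c x b := by
  obtain ⟨t, rfl⟩ := (mem_submodule_iff x v).mp hv
  rw [nrep, Pi.smul_apply, Pi.smul_apply, smul_eq_mul, smul_eq_mul]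
  field_simp

/-- the local formula for the map in normalised coordinates -/
lemma nrep_map {X : Set (PP N)} {Φ : PP N → PP N} {e d : ℕ}
    {F : Fin (N + 1) → MvPolynomial (Fin (N + 1)) ℂ} {g : MvPolynomial (Fin (N + 1)) ℂ}
    (hFd : ∀ i, (F i).IsHomogeneous d) (hge : g.IsHomogeneous e)
    (hloc : ∀ x ∈ X, eval x.rep g ≠ 0 →
      (fun i : Fin (N + 1) => eval x.rep (F i)) ≠ 0 ∧
      (fun i : Fin (N + 1) => eval x.rep (F i)) ∈ (Φ x).submodule)
    {q : PP N} (hq : q ∈ X) (c c' : Fin (N + 1)) (hc' : (Φ q).rep c' ≠ 0) (b : Fin (N + 1)) :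
    eval (nrep c q) (g * F b) = eval (nrep c q) (g * F c') * nrep c' (Φ q) b := by
  have h1 : (fun b => eval (nrep c q) (g * F b)) ∈ (Φ q).submodule := by
    have h2 : (fun b => eval (nrep c q) (g * F b)) =
        (((q.rep c)⁻¹) ^ e * ((q.rep c)⁻¹) ^ d * eval q.rep g) •
          (fun b => eval q.rep (F b)) := by
      funext b
      rw [nrep_eq]
      simp only [map_mul, Pi.smul_apply, smul_eq_mul]
      rw [eval_smul_hom hge, eval_smul_hom (hFd b)]
      ring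
    rw [h2]
    by_cases hg0 : eval q.rep g = 0
    · rw [hg0, mul_zero, zero_smul]
      exact Submodule.zero_mem _
    · exact Submodule.smul_mem _ _ (hloc q hq hg0).2
  exact line_nrep hc' h1 b

end NV

section LowerBound

variable {Ω : Type*} [NormedField Ω] (σ : ℂ →+* Ω)

/-- near an unramified point the map does not contract too much -/
theorem unram_lower (X : Set (PP N)) (Φ : PP N → PP N) (w : PP N) (hw : w ∈ X)
    (hun : UnramAt X Φ w) (c c' : Fin (N + 1)) (hc : w.rep c ≠ 0) (hc' : (Φ w).rep c' ≠ 0) :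
    ∃ K ε : ℝ, 0 < ε ∧ 0 ≤ K ∧ ∀ q ∈ X, q.rep c ≠ 0 → (Φ q).rep c' ≠ 0 →
      ‖nv σ c q - nv σ c w‖ ≤ ε →
      ‖nv σ c q - nv σ c w‖ ≤ K * ‖nv σ c' (Φ q) - nv σ c' (Φ w)‖ := by
  classical
  obtain ⟨d, e, F, g, hFd, hge, hgw, hloc, hker⟩ := hun
  -- an invertible matrix of rows
  obtain ⟨I, hI⟩ := exists_det_unram X {w} Φ (fun _ => d) (fun _ => e) (fun _ => F) (fun _ => g)
    (Set.singleton_subset_iff.mpr hw) (fun _ => hFd) (fun _ => hge)
    (by rintro ⟨y, hy⟩; rw [Set.mem_singleton_iff] at hy; subst hy; exact hgw)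
    (fun _ => hloc)
    (by rintro ⟨y, hy⟩; rw [Set.mem_singleton_iff] at hy; subst hy; exact hker)
    ⟨w, rfl⟩ (nrep c w) (nrep_mem c w) c (by rw [nrep_self hc]; exact one_ne_zero)
  set G : ({w} : Set (PP N)) → Fin (N + 1) → MvPolynomial (Fin (N + 1)) ℂ :=
    fun _ b => g * F b with hG
  set v := nv σ c w with hv
  let q' : Fin (N + 1) → MvPolynomial (Fin (N + 1)) Ω × MvPolynomial (Fin (N + 1)) Ω := fun i =>
    (map σ (rowPair X {w} G c (I i)).1, map σ (rowPair X {w} G c (I i)).2)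
  have hdet : (rowMat q' v).det ≠ 0 := by
    rw [← eval_rowDet, ← map_rowDet, hv, eval_nv]
    exact fun h => hI ((map_eq_zero σ).mp h)
  obtain ⟨K₁, hK₁0, hK₁⟩ := matrix_lower _ hdet
  -- Taylor constants
  choose T₁ hT₁0 hT₁ using fun i => taylor_norm v (q' i).1
  choose T₂ hT₂0 hT₂ using fun i => taylor_norm v (q' i).2
  obtain ⟨Cg, hCg0, hCg⟩ := eval_bound v (map σ (g * F c'))
  set C₂ : ℝ := ∑ i, (‖eval v (q' i).1‖ * T₂ i + ‖eval v (q' i).2‖ * T₁ i) with hC₂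
  have hC₂0 : 0 ≤ C₂ := Finset.sum_nonneg fun i _ => by
    have := hT₁0 i
    have := hT₂0 i
    positivity
  set C₁ : ℝ := 2 * (‖eval v (map σ (g * F c'))‖ * Cg * ‖nv σ c' (Φ w)‖) with hC₁
  have hC₁0 : 0 ≤ C₁ := by positivity
  refine ⟨2 * K₁ * C₁, min 1 (1 / (2 * K₁ * C₂ + 1)), lt_min one_pos (by positivity),
    by positivity, fun q hq hqc hqc' hsmall => ?_⟩
  set h := nv σ c q - v with hh
  have hh1 : ‖h‖ ≤ 1 := hsmall.trans (min_le_left _ _)
  have hh2 : ‖h‖ ≤ 1 / (2 * K₁ * C₂ + 1) := hsmall.trans (min_le_right _ _)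
  set r' := ‖nv σ c' (Φ q) - nv σ c' (Φ w)‖ with hr'
  have hvh : v + h = nv σ c q := by rw [hh]; abel
  -- the rows
  have hrow : ∀ i, ‖eval v (q' i).1 * eval (v + h) (q' i).2 -
      eval v (q' i).2 * eval (v + h) (q' i).1‖ ≤ C₁ * r' := by
    intro i
    rcases hr : I i with _ | E | ⟨y, b, b'⟩
    · have e1 : (q' i).1 = 1 := by simp [q', hr, rowPair]
      have e2 : (q' i).2 = MvPolynomial.X c := by simp [q', hr, rowPair]
      rw [e1, e2, map_one, map_one, eval_X, eval_X, hvh, hv, nv_self σ hqc, nv_self σ hc]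
      simp only [one_mul, mul_one, sub_self, norm_zero]
      positivity
    · have e1 : (q' i).1 = 1 := by simp [q', hr, rowPair]
      have e2 : (q' i).2 = map σ E.1 := by simp [q', hr, rowPair]
      have e3 : eval (nv σ c q) (map σ E.1) = 0 := by
        rw [eval_nv, hom_zero (nrep_mem c q) E.2.1 (E.2.2 q hq), map_zero]
      have e4 : eval v (map σ E.1) = 0 := by
        rw [hv, eval_nv, hom_zero (nrep_mem c w) E.2.1 (E.2.2 w hw), map_zero]
      rw [e1, e2, map_one, map_one, hvh, e3, e4]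
      simp only [mul_zero, mul_one, sub_self, norm_zero]
      positivity
    · have e1 : (q' i).1 = map σ (g * F b) := by simp [q', hr, rowPair, hG]
      have e2 : (q' i).2 = map σ (g * F b') := by simp [q', hr, rowPair, hG]
      have hmap : ∀ (x : PP N), x ∈ X → (Φ x).rep c' ≠ 0 → ∀ b,
          eval (nv σ c x) (map σ (g * F b)) =
            eval (nv σ c x) (map σ (g * F c')) * nv σ c' (Φ x) b := by
        intro x hx hxc' b
        rw [eval_nv, eval_nv, nrep_map hFd hge hloc hx c c' hxc' b, map_mul, nv]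
      have e3 : eval v (q' i).1 * eval (v + h) (q' i).2 -
          eval v (q' i).2 * eval (v + h) (q' i).1 =
          (eval v (map σ (g * F c')) * eval (v + h) (map σ (g * F c'))) *
          (nv σ c' (Φ w) b * (nv σ c' (Φ q) b' - nv σ c' (Φ w) b') -
            nv σ c' (Φ w) b' * (nv σ c' (Φ q) b - nv σ c' (Φ w) b)) := by
        rw [e1, e2, hvh, hmap q hq hqc' b, hmap q hq hqc' b', hv, hmap w hw hc' b,
          hmap w hw hc' b']
        ring
      rw [e3, norm_mul, norm_mul]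
      have e4 := hCg h hh1
      have e5 : ‖nv σ c' (Φ w) b * (nv σ c' (Φ q) b' - nv σ c' (Φ w) b') -
            nv σ c' (Φ w) b' * (nv σ c' (Φ q) b - nv σ c' (Φ w) b)‖ ≤
            2 * ‖nv σ c' (Φ w)‖ * r' := by
        refine (norm_sub_le _ _).trans ?_
        rw [norm_mul, norm_mul]
        have a1 := norm_le_pi_norm (nv σ c' (Φ w)) b
        have a2 := norm_le_pi_norm (nv σ c' (Φ w)) b'
        have a3 := norm_le_pi_norm (nv σ c' (Φ q) - nv σ c' (Φ w)) b
        have a4 := norm_le_pi_norm (nv σ c' (Φ q) - nv σ c' (Φ w)) b'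
        rw [Pi.sub_apply] at a3 a4
        calc _ ≤ ‖nv σ c' (Φ w)‖ * r' + ‖nv σ c' (Φ w)‖ * r' := by gcongr
          _ = _ := by ring
      calc _ ≤ ‖eval v (map σ (g * F c'))‖ * Cg * (2 * ‖nv σ c' (Φ w)‖ * r') := by gcongr
        _ = _ := by rw [hC₁]; ring
  have hmul : ∀ i, ‖(rowMat q' v).mulVec h i‖ ≤ C₁ * r' + C₂ * ‖h‖ ^ 2 := by
    intro i
    rw [rowMat_mulVec]
    have e1 : eval v (q' i).1 * dirDeriv v h (q' i).2 - eval v (q' i).2 * dirDeriv v h (q' i).1 =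
        (eval v (q' i).1 * eval (v + h) (q' i).2 - eval v (q' i).2 * eval (v + h) (q' i).1) -
        (eval v (q' i).1 * (eval (v + h) (q' i).2 - eval v (q' i).2 - dirDeriv v h (q' i).2) -
        eval v (q' i).2 * (eval (v + h) (q' i).1 - eval v (q' i).1 - dirDeriv v h (q' i).1)) := by
      ring
    rw [e1]
    refine (norm_sub_le _ _).trans (add_le_add (hrow i) ?_)
    refine (norm_sub_le _ _).trans ?_
    rw [norm_mul, norm_mul]
    have e2 := hT₁ i h hh1
    have e3 := hT₂ i h hh1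
    have e4 : ‖eval v (q' i).1‖ * T₂ i + ‖eval v (q' i).2‖ * T₁ i ≤ C₂ :=
      Finset.single_le_sum (f := fun i => ‖eval v (q' i).1‖ * T₂ i + ‖eval v (q' i).2‖ * T₁ i)
        (fun i _ => by
          have := hT₁0 i
          have := hT₂0 i
          positivity) (Finset.mem_univ i)
    calc _ ≤ ‖eval v (q' i).1‖ * (T₂ i * ‖h‖ ^ 2) + ‖eval v (q' i).2‖ * (T₁ i * ‖h‖ ^ 2) := by
          gcongr
      _ = (‖eval v (q' i).1‖ * T₂ i + ‖eval v (q' i).2‖ * T₁ i) * ‖h‖ ^ 2 := by ring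
      _ ≤ _ := by gcongr
  have h1 := hK₁ h _ hmul
  have h2 : K₁ * (C₂ * ‖h‖ ^ 2) ≤ ‖h‖ / 2 := by
    have e1 : ‖h‖ * (2 * K₁ * C₂ + 1) ≤ 1 := by
      rw [le_div_iff₀ (by positivity)] at hh2
      exact hh2
    have e2 : 0 ≤ ‖h‖ := norm_nonneg _
    nlinarith
  have h3 : K₁ * (C₁ * r' + C₂ * ‖h‖ ^ 2) = K₁ * C₁ * r' + K₁ * (C₂ * ‖h‖ ^ 2) := by ring
  rw [h3] at h1
  linarith

end LowerBound

end

end Pool.Agent.Helper86.DML
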