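import Mathlib
import Pool.Agent.Helper86.DML.Boot
import Pool.Agent.Helper86.DML.LocalField

/-!
# Expansions along an orbit converging to a cycle
-/

namespace Pool.Agent.Helper86.DML

open MvPolynomial

noncomputable section

section Abstract

variable {L : Type*} [NormedField L] [IsUltrametricDist L] [CharZero L]
variable {θ : ℝ} (hθ0 : 0 < θ) (hθ1 : θ < 1) {n : Type*}

include hθ0 hθ1 in
lemma conv_eval {V : ℕ → n → L} {W : n → L} (h : ∀ a, OO θ (fun k => V k a - W a))
    (P : MvPolynomial n L) : OO θ (fun k => eval (V k) P - eval W P) := by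
  have h1 := eval_sub_OO hθ0 hθ1 (δ := fun k a => V k a - W a) h
    (bind₁ (fun a => X a + C (W a)) P)
  have h2 : ∀ k, eval (fun a => V k a - W a) (bind₁ (fun a => X a + C (W a)) P) =
      eval (V k) P := by
    intro k
    have := eval₂Hom_bind₁ (RingHom.id L) (fun a => V k a - W a) (fun a => X a + C (W a)) P
    have h3 : eval (fun a => V k a - W a) (bind₁ (fun a => X a + C (W a)) P) =
      eval (fun i => eval (fun a => V k a - W a) (X i + C (W i))) P := this
    rw [h3]
    congr 2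
    funext i
    simp
  have h3 : constantCoeff (bind₁ (fun a => X a + C (W a)) P) = eval W P := by
    have e1 : constantCoeff (bind₁ (fun a => X a + C (W a)) P) =
        eval (0 : n → L) (bind₁ (fun a => X a + C (W a)) P) := by
      rw [eval_zero]
    have := eval₂Hom_bind₁ (RingHom.id L) (0 : n → L) (fun a => X a + C (W a)) P
    have h4 : eval (0 : n → L) (bind₁ (fun a => X a + C (W a)) P) =
      eval (fun i => eval (0 : n → L) (X i + C (W i))) P := this
    rw [e1, h4]
    congr 2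
    funext i
    simp
  simp only [h2, h3] at h1
  exact h1

/-- coordinates along an orbit converging to a cycle have expansions in the deviation -/
theorem orbit_QQ (Y W : ℕ → n → L) {M : ℕ} {θ₁ Cv : ℝ} (hθ₁0 : 0 < θ₁) (hθ₁1 : θ₁ < 1)
    (hM : 1 ≤ M) (hWM : ∀ j, W (j + M) = W j) (hconv : ∀ i a, ‖Y i a - W i a‖ ≤ Cv * θ₁ ^ i)
    (G : ℕ → n → MvPolynomial n L) (c' : ℕ → n) (hGM : ∀ j, G (j + M) = G j)
    (hcM : ∀ j, c' (j + M) = c' j)
    (hrec : ∀ i b, eval (Y i) (G i b) = eval (Y i) (G i (c' i)) * Y (i + 1) b)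
    (hne : ∀ i, eval (W i) (G i (c' i)) ≠ 0) (j t : ℕ) (a : n) :
    QQ (θ₁ ^ M) (fun k a => Y (j + M * k) a - W j a) (fun k => Y (j + M * k + t) a) := by
  have hθ0 : 0 < θ₁ ^ M := pow_pos hθ₁0 M
  have hθ1 : θ₁ ^ M < 1 := pow_lt_one₀ hθ₁0.le hθ₁1 (by omega)
  have hWk : ∀ t k, W (t + M * k) = W t := by
    intro t k
    induction k with
    | zero => rfl
    | succ k ih =>
      have : t + M * (k + 1) = t + M * k + M := by ring
      rw [this, hWM, ih]
  have hGk : ∀ t k, G (t + M * k) = G t := by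
    intro t k
    induction k with
    | zero => rfl
    | succ k ih =>
      have : t + M * (k + 1) = t + M * k + M := by ring
      rw [this, hGM, ih]
  have hck : ∀ t k, c' (t + M * k) = c' t := by
    intro t k
    induction k with
    | zero => rfl
    | succ k ih =>
      have : t + M * (k + 1) = t + M * k + M := by ring
      rw [this, hcM, ih]
  have hdev : ∀ t a, OO (θ₁ ^ M) (fun k => Y (t + M * k) a - W t a) := by
    intro t a
    refine ⟨Cv, fun k => ?_⟩
    have h1 := hconv (t + M * k) a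
    rw [hWk] at h1
    refine h1.trans ?_
    have hCv : 0 ≤ Cv := by
      have := (norm_nonneg _).trans (hconv 0 a)
      simpa using this
    rw [← pow_mul]
    gcongr ?_ * ?_
    exact pow_le_pow_of_le_one hθ₁0.le hθ₁1.le (Nat.le_add_left _ _)
  have hbd : ∀ t a, OO 1 (fun k => Y (t + M * k) a) := by
    intro t a
    have h1 := ((hdev t a).mono hθ0.le hθ1.le).add zero_le_one (OO.const (W t a))
    convert h1 using 1
    funext k
    simp
  induction t generalizing a with
  | zero =>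
    have h1 := QQ.add hθ0 (QQ.coord (θ := θ₁ ^ M) (δ := fun k a => Y (j + M * k) a - W j a) a)
      (QQ.const (W j a))
    convert h1 using 1
    funext k
    simp
  | succ t ih =>
    have hidx : ∀ k, j + M * k + t = (j + t) + M * k := fun k => by ring
    have hidx' : ∀ k, j + M * k + (t + 1) = (j + t + 1) + M * k := fun k => by ring
    have hpoly : ∀ P : MvPolynomial n L, QQ (θ₁ ^ M) (fun k a => Y (j + M * k) a - W j a)
        (fun k => eval (Y ((j + t) + M * k)) P) := by
      intro P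
      have h1 := QQ.poly hθ0 hθ1 (fun a => hdev j a) ih P
      convert h1 using 1
      funext k
      rw [← hidx]
    refine QQ.div hθ0 hθ1 (fun a => hdev j a) (hpoly (G (j + t) (c' (j + t))))
      (hpoly (G (j + t) a)) ?_ ?_ (hne (j + t)) (conv_eval hθ0 hθ1 (hdev (j + t)) _)
    · simp only [hidx']
      exact hbd _ a
    · funext k
      have h1 := hrec ((j + t) + M * k) a
      rw [hGk, hck] at h1
      simp only [Pi.mul_apply, hidx']
      have e : j + t + M * k + 1 = j + t + 1 + M * k := by ring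
      rw [e] at h1
      rw [h1, mul_comm]

include hθ0 in
/-- bounded inverse -/
lemma inv_bdd {a : ℕ → L} {c : L} (hc : c ≠ 0) (hac : OO θ (fun k => a k - c)) (hθ1 : θ < 1) :
    OO 1 (fun k => (a k)⁻¹) := by
  obtain ⟨C, hC0, hC⟩ := hac.nonneg
  have hc' : 0 < ‖c‖ := norm_pos_iff.mpr hc
  obtain ⟨m, hm⟩ := exists_pow_lt_of_lt_one (show 0 < ‖c‖ / (C + 1) by positivity) hθ1
  have hbig : ∀ k, m ≤ k → ‖a k‖ = ‖c‖ := by
    intro k hk
    have h1 : ‖a k - c‖ < ‖c‖ := by
      have h2 : C * θ ^ k ≤ (C + 1) * θ ^ m := by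
        have : θ ^ k ≤ θ ^ m := pow_le_pow_of_le_one hθ0.le hθ1.le hk
        have h3 : 0 ≤ θ ^ m := pow_nonneg hθ0.le m
        nlinarith
      have h3 : (C + 1) * θ ^ m < ‖c‖ := by
        rw [lt_div_iff₀ (by positivity), mul_comm] at hm
        exact hm
      have := hC k
      linarith
    have h4 : a k = (a k - c) + c := by ring
    rw [h4, IsUltrametricDist.norm_add_eq_max_of_norm_ne_norm h1.ne, max_eq_right h1.le]
  refine ⟨‖c‖⁻¹ + ∑ k ∈ Finset.range m, ‖(a k)⁻¹‖, fun k => ?_⟩
  rw [one_pow, mul_one]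
  by_cases hk : m ≤ k
  · rw [norm_inv, hbig k hk]
    have : 0 ≤ ∑ k ∈ Finset.range m, ‖(a k)⁻¹‖ := Finset.sum_nonneg fun _ _ => norm_nonneg _
    linarith
  · push Not at hk
    have h1 : ‖(a k)⁻¹‖ ≤ ∑ k ∈ Finset.range m, ‖(a k)⁻¹‖ :=
      Finset.single_le_sum (f := fun k => ‖(a k)⁻¹‖) (fun _ _ => norm_nonneg _)
        (Finset.mem_range.mpr hk)
    have : 0 ≤ ‖c‖⁻¹ := by positivity
    linarith

section Apx

variable [CompleteSpace L] [Fintype n] [DecidableEq n] {δ : ℕ → n → L}

include hθ0 hθ1 in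
/-- sequences with expansions are approximated by exponential polynomials to every order -/
theorem QQ_apx (D : Matrix n n L) (hD : D.charpoly.Splits) (hδ : ∀ i, OO θ (fun k => δ k i))
    (hsys : ∀ R : ℕ, ∃ q : n → MvPolynomial n L, (∀ i, q i ∈ mm n L ^ 2) ∧
      ∀ i, OO (θ ^ R) (fun k => δ (k + 1) i - ∑ j, D i j * δ k j - eval (δ k) (q i)))
    {a : ℕ → L} (ha : QQ θ δ a) (ρ : ℝ) (hρ : 0 < ρ) : a ∈ ApxM L ρ hρ.le := by
  obtain ⟨R, hR⟩ := exists_pow_lt_of_lt_one hρ hθ1
  obtain ⟨f₂, hf⟩ := ha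
  obtain ⟨f, _, hf2⟩ := hf (R + 1)
  have hboot := boot hθ0 hθ1 D hD hδ hsys (R + 1)
  have h1 := (eval_sub_mem_GG hθ0 hθ1 (Nat.le_add_left 1 R) hboot f).1
  have h2 : a = (a - fun k => eval (δ k) f) + ((fun k => eval (δ k) f - constantCoeff f) +
      fun _ => constantCoeff f) := by
    funext k
    simp
  have hle : θ ^ (R + 1) ≤ ρ := (pow_le_pow_of_le_one hθ0.le hθ1.le (Nat.le_succ R)).trans hR.le
  rw [h2]
  refine Submodule.add_mem _ ?_ (Submodule.add_mem _ ?_ (ApxM_of_EP (EP_const _)))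
  · exact ApxM_mono hle (ApxM_of_OO (hρ := by positivity) hf2)
  · exact ApxM_mono hle h1

end Apx

end Abstract

section Map

variable {L L' : Type*} [NormedField L] [NormedField L'] (ι : L →+* L') (hι : ∀ x, ‖ι x‖ = ‖x‖)
  {n : Type*} {θ : ℝ} {δ : ℕ → n → L}

include hι in
lemma OO.map {a : ℕ → L} (h : OO θ a) : OO θ (fun k => ι (a k)) := by
  obtain ⟨C, hC⟩ := h
  exact ⟨C, fun k => by rw [hι]; exact hC k⟩

lemma mm_map {f : MvPolynomial n L} (hf : f ∈ mm n L ^ 2) : map ι f ∈ mm n L' ^ 2 := by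
  have h1 : Ideal.map (map ι) (mm n L) ≤ mm n L' := by
    rw [Ideal.map_le_iff_le_comap]
    intro g hg
    rw [Ideal.mem_comap, mem_mm, constantCoeff_map, mem_mm.mp hg, map_zero]
  have h2 := Ideal.mem_map_of_mem (map ι) hf
  rw [Ideal.map_pow] at h2
  exact Ideal.pow_right_mono h1 2 h2

lemma map_eval_seq (f : MvPolynomial n L) (v : n → L) :
    ι (eval v f) = eval (fun a => ι (v a)) (map ι f) := by
  rw [MvPolynomial.eval_map]
  exact MvPolynomial.eval₂_comp ι v f

include hι in
lemma QQ.map {a : ℕ → L} (h : QQ θ δ a) : QQ θ (fun k i => ι (δ k i)) (fun k => ι (a k)) := by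
  obtain ⟨f₂, hf⟩ := h
  refine ⟨MvPolynomial.map ι f₂, fun R => ?_⟩
  obtain ⟨f, hf1, hf2⟩ := hf R
  refine ⟨MvPolynomial.map ι f, ?_, ?_⟩
  · rw [← map_sub]
    exact mm_map ι hf1
  · have := hf2.map ι hι
    convert this using 1
    funext k
    simp only [Pi.sub_apply, map_sub, map_eval_seq]

include hι in
lemma system_map [Fintype n] {D : Matrix n n L}
    (hsys : ∀ R : ℕ, ∃ q : n → MvPolynomial n L, (∀ i, q i ∈ mm n L ^ 2) ∧
      ∀ i, OO (θ ^ R) (fun k => δ (k + 1) i - ∑ j, D i j * δ k j - eval (δ k) (q i))) :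
    ∀ R : ℕ, ∃ q : n → MvPolynomial n L', (∀ i, q i ∈ mm n L' ^ 2) ∧
      ∀ i, OO (θ ^ R) (fun k => ι (δ (k + 1) i) - ∑ j, (D.map ι) i j * ι (δ k j) -
        eval (fun i => ι (δ k i)) (q i)) := by
  intro R
  obtain ⟨q, hq1, hq2⟩ := hsys R
  refine ⟨fun i => MvPolynomial.map ι (q i), fun i => mm_map ι (hq1 i), fun i => ?_⟩
  have := (hq2 i).map ι hι
  convert this using 1
  funext k
  simp only [map_sub, map_sum, map_mul, map_eval_seq, Matrix.map_apply]

end Map

section Split

variable {p : ℕ} [hp : Fact p.Prime]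

/-- a finite extension over which given characteristic polynomials split -/
theorem exists_split_field (L₁ : IntermediateField ℚ_[p] (PadicAlgCl p))
    [FiniteDimensional ℚ_[p] L₁] {n : Type*} [Fintype n] [DecidableEq n] (M : ℕ)
    (D : ℕ → Matrix n n L₁) :
    ∃ (L : IntermediateField ℚ_[p] (PadicAlgCl p)) (h : L₁ ≤ L), FiniteDimensional ℚ_[p] L ∧
      ∀ j < M, ((D j).map (IntermediateField.inclusion h).toRingHom).charpoly.Splits := by
  classical
  let S : Finset (PadicAlgCl p) := (Finset.range M).biUnion fun j =>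
    ((D j).charpoly.map (algebraMap L₁ (PadicAlgCl p))).roots.toFinset
  have hfin : FiniteDimensional ℚ_[p]
      (IntermediateField.adjoin ℚ_[p] (S : Set (PadicAlgCl p))) :=
    IntermediateField.finiteDimensional_adjoin
      (fun x _ => (Algebra.IsAlgebraic.isAlgebraic (R := ℚ_[p]) x).isIntegral)
  refine ⟨L₁ ⊔ IntermediateField.adjoin ℚ_[p] (S : Set (PadicAlgCl p)), le_sup_left,
    IntermediateField.finiteDimensional_sup _ _, fun j hj => ?_⟩
  set L := L₁ ⊔ IntermediateField.adjoin ℚ_[p] (S : Set (PadicAlgCl p)) with hL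
  have hmap : ((D j).map (IntermediateField.inclusion (le_sup_left : L₁ ≤ L)).toRingHom).charpoly =
      (D j).charpoly.map (IntermediateField.inclusion (le_sup_left : L₁ ≤ L)).toRingHom :=
    Matrix.charpoly_map _ _
  rw [hmap]
  have hcomp : (algebraMap L (PadicAlgCl p)).comp
      (IntermediateField.inclusion (le_sup_left : L₁ ≤ L)).toRingHom =
      algebraMap L₁ (PadicAlgCl p) := by
    ext x
    rfl
  refine Polynomial.Splits.of_splits_map (algebraMap L (PadicAlgCl p)) ?_ ?_
  · exact IsAlgClosed.splits _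
  · intro a ha
    rw [Polynomial.map_map, hcomp] at ha
    have h1 : a ∈ S := by
      simp only [S, Finset.mem_biUnion, Finset.mem_range, Multiset.mem_toFinset]
      exact ⟨j, hj, ha⟩
    have h2 : a ∈ L := by
      have h3 : IntermediateField.adjoin ℚ_[p] (S : Set (PadicAlgCl p)) ≤ L := le_sup_right
      exact h3 (IntermediateField.subset_adjoin _ _ h1)
    exact ⟨⟨a, h2⟩, rfl⟩

end Split

end

end Pool.Agent.Helper86.DML
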