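import Mathlib
import Pool.Agent.Helper86.DML.Lower
import Pool.Agent.Helper86.DML.OrbitQQ

/-!
# Orbits converging to a cycle
-/

namespace Pool.Agent.Helper86.DML

open MvPolynomial

noncomputable section

variable {N : ℕ} {B₀ : Finset (MvPolynomial (Fin (N + 1)) ℂ)}

section Canon

/-- the canonical lift of a point -/
def canon (c : Fin (N + 1)) (F₀ : B₀) (x : PP N) : Idx N B₀ → ℂ := by
  classical
  exact Sum.elim (fun ab => if ab.2 = c then nrep c x ab.1 else 0)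
    (fun Fj => if Fj = (F₀, c) then (eval (nrep c x) F₀.1)⁻¹ else 0)

lemma canon_inl (c : Fin (N + 1)) (F₀ : B₀) (x : PP N) (a b : Fin (N + 1)) :
    canon c F₀ x (Sum.inl (a, b)) = if b = c then nrep c x a else 0 := by
  simp [canon]

lemma canon_inr (c : Fin (N + 1)) (F₀ : B₀) (x : PP N) (s : B₀ × Fin (N + 1)) [Decidable (s = (F₀, c))] :
    canon c F₀ x (Sum.inr s) = if s = (F₀, c) then (eval (nrep c x) F₀.1)⁻¹ else 0 := by
  simp only [canon, Sum.elim_inr]
  congr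

lemma canon_col (c : Fin (N + 1)) (F₀ : B₀) (x : PP N) (b : Fin (N + 1)) :
    col B₀ (canon c F₀ x) b = if b = c then nrep c x else 0 := by
  funext a
  rw [col, canon_inl]
  split_ifs <;> rfl

lemma canon_rep (c : Fin (N + 1)) (F₀ : B₀) (x : PP N) : Rep x (canon c F₀ x) := by
  intro b
  rw [canon_col]
  split_ifs
  · exact nrep_mem c x
  · exact Submodule.zero_mem _

lemma canon_eqs {A : Set (MvPolynomial (Fin (N + 1)) ℂ)}
    (hA : ∀ F ∈ A, ∃ d : ℕ, F.IsHomogeneous d) (hB : ∀ F ∈ B₀, ∃ d : ℕ, F.IsHomogeneous d)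
    {x : PP N} (hx : ∀ F ∈ A, eval x.rep F = 0) {c : Fin (N + 1)} (hc : x.rep c ≠ 0) {F₀ : B₀}
    (hF₀ : eval x.rep F₀.1 ≠ 0) : ∀ G ∈ eqs B₀ A, eval (canon c F₀ x) G = 0 := by
  classical
  rw [mem_zero_iff]
  refine ⟨?_, ?_, ?_, ?_⟩
  · intro a b c' d
    simp only [canon_inl]
    split_ifs <;> ring
  · simp only [canon_inl]
    rw [Finset.sum_ite_eq' Finset.univ c, if_pos (Finset.mem_univ _), nrep_self hc]
  · intro F hF j
    exact hom_zero (canon_rep c F₀ x j) (hA F hF) (hx F hF)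
  · rw [Finset.sum_eq_single (F₀, c)]
    · rw [canon_inr, if_pos rfl, canon_col, if_pos rfl]
      exact inv_mul_cancel₀ (fun h => hF₀ ((eval_nrep_zero_iff hc (hB _ F₀.2)).mp h))
    · intro b _ hb
      rw [canon_inr, if_neg hb, zero_mul]
    · simp

end Canon

section SmallLemmas

lemma Small.shift {E : Type*} [SeminormedAddCommGroup E] {a : ℕ → E} :
    Small (fun t => a (t + 1)) ↔ Small a := by
  constructor
  · intro h ρ hρ
    obtain ⟨C, hC⟩ := h ρ hρ
    refine ⟨max (C / ρ) ‖a 0‖, fun t => ?_⟩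
    rcases t with _ | t
    · rw [pow_zero, mul_one]
      exact le_max_right _ _
    · refine (hC t).trans ?_
      have h1 : C * ρ ^ t = (C / ρ) * ρ ^ (t + 1) := by
        rw [pow_succ]
        field_simp
      rw [h1]
      gcongr
      exact le_max_left _ _
  · intro h ρ hρ
    obtain ⟨C, hC⟩ := h ρ hρ
    refine ⟨C * ρ, fun t => ?_⟩
    have := hC (t + 1)
    rw [pow_succ'] at this
    rw [mul_assoc]
    exact this

variable {Ω : Type*} [NormedField Ω]

lemma Small.of_le {a b : ℕ → Ω} (h : Small a) {K : ℝ} (hK : ∀ t, ‖b t‖ ≤ K * ‖a t‖) : Small b := by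
  intro ρ hρ
  obtain ⟨C, hC⟩ := h ρ hρ
  refine ⟨|K| * C, fun t => (hK t).trans ?_⟩
  rw [mul_assoc]
  calc K * ‖a t‖ ≤ |K| * ‖a t‖ := by gcongr; exact le_abs_self K
    _ ≤ _ := by gcongr; exact hC t

lemma Small.add {a b : ℕ → Ω} (ha : Small a) (hb : Small b) : Small (fun t => a t + b t) := by
  intro ρ hρ
  obtain ⟨C, hC⟩ := ha ρ hρ
  obtain ⟨C', hC'⟩ := hb ρ hρ
  refine ⟨C + C', fun t => (norm_add_le _ _).trans ?_⟩
  rw [add_mul]
  exact add_le_add (hC t) (hC' t)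

lemma not_small_of_rare {a : ℕ → Ω} (h : Rare a) : ¬ Small a := by
  intro hs
  obtain ⟨ρ, hρ, hss⟩ := h
  obtain ⟨C, hC⟩ := hs ρ hρ
  exact not_SSp_univ ((hss C).mono fun t _ => hC t)

lemma Rare.mul {a b : ℕ → Ω} (ha : Rare a) (hb : Rare b) : ¬ Small (fun t => a t * b t) := by
  intro hs
  obtain ⟨ρ, hρ, hss⟩ := ha
  obtain ⟨ρ', hρ', hss'⟩ := hb
  obtain ⟨C, hC⟩ := hs (ρ * ρ') (mul_pos hρ hρ')
  obtain ⟨t, ht⟩ := exists_not_mem_of_SSp ((hss (max C 0)).union (hss' 1))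
  simp only [Set.mem_union, Set.mem_ofPred_eq, not_or, not_le, one_mul] at ht
  have h1 := hC t
  rw [norm_mul] at h1
  have h2 : max C 0 * ρ ^ t * ρ' ^ t < ‖a t‖ * ‖b t‖ := by
    have e0 : 0 ≤ max C 0 * ρ ^ t := by
      have : (0 : ℝ) ≤ max C 0 := le_max_right _ _
      positivity
    exact mul_lt_mul'' ht.1 ht.2 e0 (by positivity)
  have h3 : C * (ρ * ρ') ^ t ≤ max C 0 * ρ ^ t * ρ' ^ t := by
    rw [mul_pow, mul_assoc]
    gcongr
    exact le_max_left _ _
  linarith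

lemma bdd_eval {κ : Type*} {v : ℕ → κ → Ω} (hv : ∀ s, ∃ C, ∀ t, ‖v t s‖ ≤ C)
    (P : MvPolynomial κ Ω) : ∃ C : ℝ, 0 ≤ C ∧ ∀ t, ‖eval (v t) P‖ ≤ C := by
  induction P using MvPolynomial.induction_on with
  | C a => exact ⟨‖a‖, norm_nonneg _, fun t => by simp⟩
  | add F G hF hG =>
    obtain ⟨C, hC0, hC⟩ := hF
    obtain ⟨C', hC0', hC'⟩ := hG
    refine ⟨C + C', by positivity, fun t => ?_⟩
    rw [map_add]
    exact (norm_add_le _ _).trans (add_le_add (hC t) (hC' t))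
  | mul_X F i hF =>
    obtain ⟨C, hC0, hC⟩ := hF
    obtain ⟨C', hC'⟩ := hv i
    have hC0' : 0 ≤ C' := (norm_nonneg _).trans (hC' 0)
    refine ⟨C * C', by positivity, fun t => ?_⟩
    rw [map_mul, norm_mul, eval_X]
    exact mul_le_mul (hC t) (hC' t) (norm_nonneg _) hC0

/-- smallness of a form upstairs and downstairs -/
lemma small_iff (σ : ℂ →+* Ω) {A : Set (MvPolynomial (Fin (N + 1)) ℂ)} {q : ℕ → PP N}
    {c : Fin (N + 1)} (hc : ∀ t, (q t).rep c ≠ 0) {V : ℕ → Idx N B₀ → ℂ}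
    (hV : ∀ t, ∀ G ∈ eqs B₀ A, eval (V t) G = 0) (hrep : ∀ t, Rep (q t) (V t))
    (hVb : ∀ s, ∃ C, ∀ t, ‖σ (V t s)‖ ≤ C) (hqb : ∃ C, ∀ t a, ‖nv σ c (q t) a‖ ≤ C)
    {F : MvPolynomial (Fin (N + 1)) ℂ} (hF : ∃ d, F.IsHomogeneous d) :
    (∀ m, Small (fun t => σ (eval (V t) (bind₁ (colP B₀ m) F)))) ↔
      Small (fun t => eval (nv σ c (q t)) (map σ F)) := by
  obtain ⟨d, hd⟩ := hF
  have hval : ∀ t m, σ (eval (V t) (bind₁ (colP B₀ m) F)) =
      σ (V t (Sum.inl (c, m))) ^ d * eval (nv σ c (q t)) (map σ F) := by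
    intro t m
    rw [eval_colP, eval_nv]
    have h1 : col B₀ (V t) m = V t (Sum.inl (c, m)) • nrep c (q t) := by
      funext b
      exact line_nrep (hc t) (hrep t m) b
    rw [h1, eval_smul_hom hd, map_mul, map_pow]
  constructor
  · intro h
    obtain ⟨C', hC'⟩ := hqb
    intro ρ hρ
    choose C hC using fun m => h m ρ hρ
    refine ⟨(((N : ℝ) + 1) * |C'|) ^ d * ∑ m, |C m|, fun t => ?_⟩
    obtain ⟨m, hm⟩ : ∃ m, 1 ≤ ((N : ℝ) + 1) * (‖σ (V t (Sum.inl (c, m)))‖ * |C'|) := by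
      by_contra hcon
      push Not at hcon
      have h1 := ((mem_zero_iff A (V t)).mp (hV t)).2.1
      have h2 : ∑ m, σ (V t (Sum.inl (c, m))) * nv σ c (q t) m = 1 := by
        rw [← map_one σ, ← h1, map_sum]
        refine Finset.sum_congr rfl fun m _ => ?_
        have h3 := line_nrep (hc t) (hrep t m) m
        simp only [col] at h3
        rw [h3, map_mul, nv]
      have h3 : (1 : ℝ) ≤ ∑ m : Fin (N + 1), ‖σ (V t (Sum.inl (c, m)))‖ * |C'| := by
        rw [← norm_one (α := Ω), ← h2]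
        refine (norm_sum_le _ _).trans (Finset.sum_le_sum fun m _ => ?_)
        rw [norm_mul]
        gcongr
        exact (hC' t m).trans (le_abs_self _)
      have h4 : ∑ m : Fin (N + 1), ‖σ (V t (Sum.inl (c, m)))‖ * |C'| <
          ∑ _m : Fin (N + 1), 1 / ((N : ℝ) + 1) := by
        refine Finset.sum_lt_sum_of_nonempty Finset.univ_nonempty fun m _ => ?_
        rw [lt_div_iff₀ (by positivity), mul_comm]
        exact hcon m
      rw [Finset.sum_const, Finset.card_univ, Fintype.card_fin, nsmul_eq_mul] at h4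
      push_cast at h4
      have h5 : ((N : ℝ) + 1) * (1 / ((N : ℝ) + 1)) = 1 := by
        field_simp
      rw [h5] at h4
      linarith
    have h1 : ‖σ (eval (V t) (bind₁ (colP B₀ m) F))‖ ≤ C m * ρ ^ t := hC m t
    rw [hval, norm_mul, norm_pow] at h1
    change ‖eval (nv σ c (q t)) (map σ F)‖ ≤ _
    set s := ‖σ (V t (Sum.inl (c, m)))‖ with hs
    have h2 : (1 : ℝ) ≤ (((N : ℝ) + 1) * |C'|) ^ d * s ^ d := by
      rw [← mul_pow]
      apply one_le_pow₀
      calc (1 : ℝ) ≤ _ := hm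
        _ = _ := by ring
    calc ‖eval (nv σ c (q t)) (map σ F)‖ ≤
          ((((N : ℝ) + 1) * |C'|) ^ d * s ^ d) * ‖eval (nv σ c (q t)) (map σ F)‖ :=
          le_mul_of_one_le_left (norm_nonneg _) h2
      _ = (((N : ℝ) + 1) * |C'|) ^ d * (s ^ d * ‖eval (nv σ c (q t)) (map σ F)‖) := by ring
      _ ≤ (((N : ℝ) + 1) * |C'|) ^ d * (C m * ρ ^ t) := by gcongr
      _ ≤ (((N : ℝ) + 1) * |C'|) ^ d * ((∑ m, |C m|) * ρ ^ t) := by
        gcongr
        exact (le_abs_self _).trans (Finset.single_le_sum (f := fun m => |C m|)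
          (fun _ _ => abs_nonneg _) (Finset.mem_univ m))
      _ = _ := by ring
  · intro h m
    obtain ⟨C', hC'⟩ := hVb (Sum.inl (c, m))
    refine h.of_le (K := |C'| ^ d) fun t => ?_
    rw [hval, norm_mul, norm_pow]
    gcongr
    exact (hC' t).trans (le_abs_self _)

end SmallLemmas

lemma mod_of_periodic {E : Type*} {f : ℕ → E} {M : ℕ} (h : ∀ j, f (j + M) = f j) (j : ℕ) :
    f (j % M) = f j := Function.Periodic.map_mod_nat h j

lemma per_mul {E : Type*} {f : ℕ → E} {M : ℕ} (h : ∀ j, f (j + M) = f j) (j k : ℕ) :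
    f (j + M * k) = f j := by
  induction k with
  | zero => rfl
  | succ k ih =>
    have : j + M * (k + 1) = j + M * k + M := by ring
    rw [this, h, ih]

lemma QQ.bdd {L : Type*} [NormedField L] [IsUltrametricDist L] [CharZero L] {θ : ℝ} (hθ0 : 0 < θ)
    (hθ1 : θ < 1) {n : Type*} {δ : ℕ → n → L} (hδ : ∀ i, OO θ (fun k => δ k i)) {a : ℕ → L}
    (ha : QQ θ δ a) : OO 1 a := by
  obtain ⟨f₂, hf⟩ := ha
  obtain ⟨f, _, hf2⟩ := hf 0
  rw [pow_zero] at hf2
  have h1 := hf2.add zero_le_one (eval_bdd hθ0 hθ1 hδ f)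
  convert h1 using 1
  funext k
  simp

/-- a finite extension containing finitely many elements -/
lemma exists_field_containing {p : ℕ} [hp : Fact p.Prime]
    (L₀ : IntermediateField ℚ_[p] (PadicAlgCl p)) [FiniteDimensional ℚ_[p] L₀]
    (S : Finset (PadicAlgCl p)) : ∃ L₁ : IntermediateField ℚ_[p] (PadicAlgCl p),
      L₀ ≤ L₁ ∧ FiniteDimensional ℚ_[p] L₁ ∧ ∀ x ∈ S, x ∈ L₁ := by
  have hfin : FiniteDimensional ℚ_[p]
      (IntermediateField.adjoin ℚ_[p] (S : Set (PadicAlgCl p))) :=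
    IntermediateField.finiteDimensional_adjoin
      (fun x _ => (Algebra.IsAlgebraic.isAlgebraic (R := ℚ_[p]) x).isIntegral)
  refine ⟨L₀ ⊔ IntermediateField.adjoin ℚ_[p] (S : Set (PadicAlgCl p)), le_sup_left,
    IntermediateField.finiteDimensional_sup _ _, fun x hx => ?_⟩
  have h3 : IntermediateField.adjoin ℚ_[p] (S : Set (PadicAlgCl p)) ≤
    L₀ ⊔ IntermediateField.adjoin ℚ_[p] (S : Set (PadicAlgCl p)) := le_sup_right
  exact h3 (IntermediateField.subset_adjoin _ _ hx)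

lemma exists_poly_lift {p : ℕ} [hp : Fact p.Prime] {L₁ : IntermediateField ℚ_[p] (PadicAlgCl p)}
    {κ : Type*} (P : MvPolynomial κ (PadicAlgCl p)) (h : ∀ x ∈ P.coeffs, x ∈ L₁) :
    ∃ Q : MvPolynomial κ L₁, map (algebraMap L₁ (PadicAlgCl p)) Q = P := by
  have : P ∈ Set.range (MvPolynomial.map (σ := κ) (algebraMap L₁ (PadicAlgCl p))) := by
    rw [mem_range_map_iff_coeffs_subset]
    intro x hx
    exact ⟨⟨x, h x hx⟩, rfl⟩
  exact this

set_option maxHeartbeats 8000000 in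
/-- orbits converging to a cycle: invariant chains of prime ideals given by the forms that decay
faster than every exponential -/
theorem point_case (X : Set (PP N)) (A : Set (MvPolynomial (Fin (N + 1)) ℂ))
    (hA : ∀ F ∈ A, ∃ d : ℕ, F.IsHomogeneous d) (hB : ∀ F ∈ B₀, ∃ d : ℕ, F.IsHomogeneous d)
    (hX : ∀ p : PP N, p ∈ X ↔ ((∀ F ∈ A, eval p.rep F = 0) ∧ ∃ F ∈ B₀, eval p.rep F ≠ 0))
    (Φ : PP N → PP N)
    (hΦ : ∀ x ∈ X, ∃ (d e : ℕ) (F : Fin (N + 1) → MvPolynomial (Fin (N + 1)) ℂ)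
          (g : MvPolynomial (Fin (N + 1)) ℂ),
          (∀ i, (F i).IsHomogeneous d) ∧ g.IsHomogeneous e ∧ eval x.rep g ≠ 0 ∧
          ∀ y ∈ X, eval y.rep g ≠ 0 →
            (fun i : Fin (N + 1) => eval y.rep (F i)) ≠ 0 ∧
            (fun i : Fin (N + 1) => eval y.rep (F i)) ∈ (Φ y).submodule)
    (Ψ : Idx N B₀ → MvPolynomial (Idx N B₀) ℂ)
    (hΨ : ∀ u : Idx N B₀ → ℂ, (∀ G ∈ eqs B₀ A, eval u G = 0) → ∀ x : PP N, Rep x u →
        (∀ G ∈ eqs B₀ A, eval (pmap Ψ u) G = 0) ∧ Rep (Φ x) (pmap Ψ u))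
    {p : ℕ} [hp : Fact p.Prime] (hp3 : 3 ≤ p) (σ : ℂ →+* PadicAlgCl p)
    (L₀ : IntermediateField ℚ_[p] (PadicAlgCl p)) [FiniteDimensional ℚ_[p] L₀]
    (w q : ℕ → PP N) (M : ℕ) (hM : 1 ≤ M) (hw : ∀ j, w j ∈ X) (hΦw : ∀ j, Φ (w j) = w (j + 1))
    (hwM : ∀ j, w (j + M) = w j) (hq : ∀ i, q i ∈ X) (hΦq : ∀ i, Φ (q i) = q (i + 1))
    (c : ℕ → Fin (N + 1)) (hcM : ∀ j, c (j + M) = c j) (hcw : ∀ j, (w j).rep (c j) ≠ 0)
    (hcq : ∀ j, (q j).rep (c j) ≠ 0)
    (F₀ : ℕ → B₀) (hF₀M : ∀ j, F₀ (j + M) = F₀ j) (hF₀w : ∀ j, eval (w j).rep (F₀ j).1 ≠ 0)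
    (hF₀q : ∀ j, eval (q j).rep (F₀ j).1 ≠ 0)
    (hL₀ : ∀ i a, nv σ (c i) (q i) a ∈ L₀) {θ₁ Cv : ℝ} (hθ₁0 : 0 < θ₁) (hθ₁1 : θ₁ < 1)
    (hconv : ∀ i a, ‖nv σ (c i) (q i) a - nv σ (c i) (w i) a‖ ≤ Cv * θ₁ ^ i) :
    ∃ (M' : ℕ) (I : ℕ → Ideal (MvPolynomial (Idx N B₀) ℂ)), 1 ≤ M' ∧ M ∣ M' ∧ ∀ j,
      (I j).IsPrime ∧ I (j + M') = I j ∧ (∀ H ∈ eqs B₀ A, H ∈ I j) ∧
      (∀ F, (∃ d, F.IsHomogeneous d) → ((∀ m, bind₁ (colP B₀ m) F ∈ I (j + 1)) ↔
        ∀ m, bind₁ Ψ (bind₁ (colP B₀ m) F) ∈ I j)) ∧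
      (∀ F, (∃ d, F.IsHomogeneous d) → F ∉ DZ (I j) →
        SSp {k | eval (q (j + M' * k)).rep F = 0}) ∧
      (∀ F, (∃ d, F.IsHomogeneous d) → (F ∈ DZ (I j) ↔
        Small (fun t => eval (nv σ (c j) (q (j + M' * t))) (map σ F)))) := by
  classical
  choose! d e F g hFd hge hgx hloc using hΦ
  let G : ℕ → Fin (N + 1) → MvPolynomial (Fin (N + 1)) ℂ := fun j b => g (w j) * F (w j) b
  -- the first field
  obtain ⟨L₁, hL₀₁, hL₁fin, hL₁S⟩ := exists_field_containing L₀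
    ((Finset.range M).biUnion fun j =>
      (Finset.univ.biUnion fun b => (map σ (G j b)).coeffs) ∪
      (Finset.univ.image fun a => nv σ (c j) (w j) a) ∪ (map σ (F₀ j).1).coeffs)
  have hGq : ∀ j b, ∃ Q : MvPolynomial (Fin (N + 1)) L₁,
      map (algebraMap L₁ (PadicAlgCl p)) Q = map σ (G (j % M) b) := by
    intro j b
    apply exists_poly_lift
    intro x hx
    apply hL₁S
    rw [Finset.mem_biUnion]
    refine ⟨j % M, Finset.mem_range.mpr (Nat.mod_lt _ (by omega)), ?_⟩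
    simp only [Finset.mem_union, Finset.mem_biUnion]
    exact Or.inl (Or.inl ⟨b, Finset.mem_univ _, hx⟩)
  have hF₀L : ∀ j, ∃ Q : MvPolynomial (Fin (N + 1)) L₁,
      map (algebraMap L₁ (PadicAlgCl p)) Q = map σ (F₀ (j % M)).1 := by
    intro j
    apply exists_poly_lift
    intro x hx
    apply hL₁S
    rw [Finset.mem_biUnion]
    refine ⟨j % M, Finset.mem_range.mpr (Nat.mod_lt _ (by omega)), ?_⟩
    simp only [Finset.mem_union]
    exact Or.inr hx
  have hWL : ∀ j a, nv σ (c j) (w j) a ∈ L₁ := by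
    intro j a
    apply hL₁S
    rw [Finset.mem_biUnion]
    refine ⟨j % M, Finset.mem_range.mpr (Nat.mod_lt _ (by omega)), ?_⟩
    simp only [Finset.mem_union, Finset.mem_image]
    refine Or.inl (Or.inr ⟨a, Finset.mem_univ _, ?_⟩)
    rw [mod_of_periodic hcM, mod_of_periodic hwM]
  choose Gq' hGq' using hGq
  choose F₀L' hF₀L' using hF₀L
  let Gq : ℕ → Fin (N + 1) → MvPolynomial (Fin (N + 1)) L₁ := fun j => Gq' (j % M)
  let F₀L : ℕ → MvPolynomial (Fin (N + 1)) L₁ := fun j => F₀L' (j % M)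
  have hGmap : ∀ j b, map (algebraMap L₁ (PadicAlgCl p)) (Gq j b) = map σ (G j b) := by
    intro j b
    rw [hGq', Nat.mod_mod]
    simp only [G]
    rw [mod_of_periodic hwM]
  have hFmap : ∀ j, map (algebraMap L₁ (PadicAlgCl p)) (F₀L j) = map σ (F₀ j).1 := by
    intro j
    rw [hF₀L', Nat.mod_mod, mod_of_periodic hF₀M]
  let Y : ℕ → Fin (N + 1) → L₁ := fun i a => ⟨nv σ (c i) (q i) a, hL₀₁ (hL₀ i a)⟩
  let W : ℕ → Fin (N + 1) → L₁ := fun i a => ⟨nv σ (c i) (w i) a, hWL i a⟩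
  have hYval : ∀ i P, algebraMap L₁ (PadicAlgCl p) (eval (Y i) P) =
      eval (nv σ (c i) (q i)) (map (algebraMap L₁ (PadicAlgCl p)) P) := fun i P =>
    map_eval' (algebraMap L₁ (PadicAlgCl p)) (Y i) P
  have hWval : ∀ i P, algebraMap L₁ (PadicAlgCl p) (eval (W i) P) =
      eval (nv σ (c i) (w i)) (map (algebraMap L₁ (PadicAlgCl p)) P) := fun i P =>
    map_eval' (algebraMap L₁ (PadicAlgCl p)) (W i) P
  have hinj : Function.Injective (algebraMap L₁ (PadicAlgCl p)) :=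
    (algebraMap L₁ (PadicAlgCl p)).injective
  have hrec : ∀ i b, eval (Y i) (Gq i b) = eval (Y i) (Gq i (c (i + 1))) * Y (i + 1) b := by
    intro i b
    apply hinj
    rw [map_mul, hYval, hYval, hGmap, hGmap, eval_nv, eval_nv]
    have h1 := nrep_map (hFd (w i) (hw i)) (hge (w i) (hw i)) (hloc (w i) (hw i)) (hq i) (c i)
      (c (i + 1)) (by rw [hΦq]; exact hcq (i + 1)) b
    rw [hΦq] at h1
    have h2 : algebraMap L₁ (PadicAlgCl p) (Y (i + 1) b) = σ (nrep (c (i + 1)) (q (i + 1)) b) := rfl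
    rw [h2, ← map_mul]
    exact congrArg σ h1
  have hne : ∀ i, eval (W i) (Gq i (c (i + 1))) ≠ 0 := by
    intro i h0
    have h1 := congrArg (algebraMap L₁ (PadicAlgCl p)) h0
    rw [hWval, hGmap, eval_nv, map_zero, map_eq_zero] at h1
    have h2 : ∀ b, eval (nrep (c i) (w i)) (G i b) = 0 := by
      intro b
      have h3 := nrep_map (hFd (w i) (hw i)) (hge (w i) (hw i)) (hloc (w i) (hw i)) (hw i) (c i)
        (c (i + 1)) (by rw [hΦw]; exact hcw (i + 1)) b
      have h4 : eval (nrep (c i) (w i)) (G i b) =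
        eval (nrep (c i) (w i)) (g (w i) * F (w i) (c (i + 1))) *
          nrep (c (i + 1)) (Φ (w i)) b := h3
      rw [h4]
      have h5 : eval (nrep (c i) (w i)) (g (w i) * F (w i) (c (i + 1))) = 0 := h1
      rw [h5, zero_mul]
    obtain ⟨b, hb⟩ := Function.ne_iff.mp (hloc (w i) (hw i) (w i) (hw i) (hgx (w i) (hw i))).1
    have h3 := (eval_nrep_zero_iff (hcw i) ⟨_, (hge (w i) (hw i)).mul (hFd (w i) (hw i) b)⟩).mp (h2 b)
    rw [map_mul] at h3
    exact mul_ne_zero (hgx (w i) (hw i)) hb h3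
  have hWM : ∀ j, W (j + M) = W j := by
    intro j
    funext a
    apply Subtype.ext
    change nv σ (c (j + M)) (w (j + M)) a = nv σ (c j) (w j) a
    rw [hcM, hwM]
  have hGqM : ∀ j, Gq (j + M) = Gq j := by
    intro j
    simp only [Gq, Nat.add_mod_right]
  have hconv' : ∀ i a, ‖Y i a - W i a‖ ≤ Cv * θ₁ ^ i := hconv
  have hθ0 : 0 < θ₁ ^ M := pow_pos hθ₁0 M
  have hθ1 : θ₁ ^ M < 1 := pow_lt_one₀ hθ₁0.le hθ₁1 (by omega)
  have hQQ := orbit_QQ Y W hθ₁0 hθ₁1 hM hWM hconv' Gq (fun i => c (i + 1)) hGqM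
    (fun j => by
      have : j + M + 1 = j + 1 + M := by ring
      rw [this, hcM]) hrec hne
  have hCv : 0 ≤ Cv := by
    have := (norm_nonneg _).trans (hconv 0 0)
    simpa using this
  have hδ : ∀ j a, OO (θ₁ ^ M) (fun k => Y (j + M * k) a - W j a) := by
    intro j a
    refine ⟨Cv, fun k => ?_⟩
    have h1 := hconv' (j + M * k) a
    rw [per_mul hWM] at h1
    refine h1.trans ?_
    rw [← pow_mul]
    gcongr ?_ * ?_
    exact pow_le_pow_of_le_one hθ₁0.le hθ₁1.le (Nat.le_add_left _ _)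
  -- the linear parts
  have hsys := fun j => exists_system hθ0 hθ1 (hδ j) (fun i => by
    have h1 := QQ.add hθ0 (hQQ j M i) (QQ.const (-(W j i)))
    convert h1 using 1
    funext k
    have : j + M * (k + 1) = j + M * k + M := by ring
    simp only [Pi.add_apply, this]
    ring)
  choose D hD using hsys
  obtain ⟨L, hL, hLfin, hLsplit⟩ := exists_split_field L₁ M D
  have hLcomp : CompleteSpace L := FiniteDimensional.complete ℚ_[p] L
  let ι : L₁ →+* L := (IntermediateField.inclusion hL).toRingHom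
  have hι : ∀ x, ‖ι x‖ = ‖x‖ := fun x => rfl
  obtain ⟨N₁, hN₁0, hN₁p, hN₁⟩ := exists_exponent L
  have happ : ∀ j < M, ∀ a : ℕ → L, QQ (θ₁ ^ M) (fun k i => ι (Y (j + M * k) i - W j i)) a →
      ∀ (ρ : ℝ) (hρ : 0 < ρ), a ∈ ApxM L ρ hρ.le := by
    intro j hj a ha ρ hρ
    exact QQ_apx hθ0 hθ1 ((D j).map ι) (hLsplit j hj) (fun i => (hδ j i).map ι hι)
      (system_map ι hι (hD j)) ha ρ hρ
  -- the lifts
  let U : ℕ → Idx N B₀ → ℂ := fun i => canon (c i) (F₀ i) (q i)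
  let uu : ℕ → ℕ → Idx N B₀ → L₁ := fun j k => Sum.elim
    (fun ab => if ab.2 = c j then Y (j + M * k) ab.1 else 0)
    (fun Fj => if Fj = (F₀ j, c j) then (eval (Y (j + M * k)) (F₀L j))⁻¹ else 0)
  have huu : ∀ j k s, algebraMap L₁ (PadicAlgCl p) (uu j k s) = σ (U (j + M * k) s) := by
    intro j k s
    rcases s with ⟨a, b⟩ | s
    · simp only [uu, Sum.elim_inl, U]
      rw [canon_inl, per_mul hcM]
      split_ifs
      · change nv σ (c (j + M * k)) (q (j + M * k)) a = _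
        rw [per_mul hcM, nv]
      · rw [map_zero, map_zero]
    · simp only [uu, Sum.elim_inr, U]
      rw [per_mul hcM, per_mul hF₀M, canon_inr]
      split_ifs
      · rw [map_inv₀, map_inv₀, hYval, hFmap, per_mul hcM, eval_nv]
      · rw [map_zero, map_zero]
  have huQ : ∀ j s, QQ (θ₁ ^ M) (fun k a => Y (j + M * k) a - W j a) (fun k => uu j k s) := by
    intro j s
    rcases s with ⟨a, b⟩ | s
    · simp only [uu, Sum.elim_inl]
      split_ifs
      · exact hQQ j 0 a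
      · exact QQ.const 0
    · simp only [uu, Sum.elim_inr]
      split_ifs
      · have hc0 : eval (W j) (F₀L j) ≠ 0 := by
          intro h0
          have h1 := congrArg (algebraMap L₁ (PadicAlgCl p)) h0
          rw [hWval, hFmap, eval_nv, map_zero, map_eq_zero,
            eval_nrep_zero_iff (hcw j) (hB _ (F₀ j).2)] at h1
          exact hF₀w j h1
        have hac := conv_eval hθ0 hθ1 (hδ j) (F₀L j)
        refine QQ.div hθ0 hθ1 (hδ j) (QQ.poly hθ0 hθ1 (hδ j) (hQQ j 0) (F₀L j)) (QQ.const 1)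
          (inv_bdd hθ0 hc0 hac hθ1) ?_ hc0 hac
        funext k
        simp only [Pi.mul_apply]
        apply inv_mul_cancel₀
        intro h0
        have h1 := congrArg (algebraMap L₁ (PadicAlgCl p)) h0
        rw [map_zero] at h1
        have h2 : algebraMap L₁ (PadicAlgCl p) (eval (Y (j + M * k)) (F₀L j)) = 0 := h1
        rw [hYval, hFmap, eval_nv, map_eq_zero,
          eval_nrep_zero_iff (hcq _) (hB _ (F₀ j).2)] at h2
        have h3 := hF₀q (j + M * k)
        rw [per_mul hF₀M] at h3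
        exact h3 h2
      · exact QQ.const 0
  -- boundedness
  have hUb : ∀ j s, ∃ C, ∀ k, ‖σ (U (j + M * k) s)‖ ≤ C := by
    intro j s
    obtain ⟨C, hC⟩ := QQ.bdd hθ0 hθ1 (hδ j) (huQ j s)
    refine ⟨C, fun k => ?_⟩
    rw [← huu]
    have := hC k
    rw [one_pow, mul_one] at this
    exact this
  have hM'0 : 1 ≤ M * N₁ := Nat.mul_pos hM hN₁0
  have hidx : ∀ j t, j + M * N₁ * t = j + M * (N₁ * t) := fun j t => by ring
  have hUb' : ∀ j s, ∃ C, ∀ t, ‖σ (U (j + M * N₁ * t) s)‖ ≤ C := by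
    intro j s
    obtain ⟨C, hC⟩ := hUb j s
    exact ⟨C, fun t => by rw [hidx]; exact hC _⟩
  have hqb : ∀ j, ∃ C, ∀ t a, ‖nv σ (c j) (q (j + M * N₁ * t)) a‖ ≤ C := by
    intro j
    choose C hC using fun a => QQ.bdd hθ0 hθ1 (hδ j) (hQQ j 0 a)
    refine ⟨∑ a, |C a|, fun t a => ?_⟩
    have h1 := hC a (N₁ * t)
    rw [one_pow, mul_one] at h1
    have h2 : ‖nv σ (c (j + M * (N₁ * t))) (q (j + M * (N₁ * t))) a‖ ≤ C a := h1
    rw [per_mul hcM] at h2
    rw [hidx]
    exact h2.trans ((le_abs_self _).trans (Finset.single_le_sum (f := fun a => |C a|)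
      (fun _ _ => abs_nonneg _) (Finset.mem_univ a)))
  -- the dichotomy
  have hdich : ∀ j (H : MvPolynomial (Idx N B₀) ℂ),
      Small (fun t => σ (eval (U (j + M * N₁ * t)) H)) ∨
        Rare (fun t => σ (eval (U (j + M * N₁ * t)) H)) := by
    intro j H
    have hj : j % M < M := Nat.mod_lt _ (by omega)
    have h1 := poly_dich (L := L) hp3 hN₁0 hN₁p hN₁ (u := fun k s => ι (uu (j % M) k s)) (by
      intro P ρ hρ
      exact happ (j % M) hj _ (QQ.poly hθ0 hθ1 (fun i => (hδ (j % M) i).map ι hι)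
        (fun s => (huQ (j % M) s).map ι hι) P) ρ hρ) (j / M) (map σ H)
    have h2 : ∀ t, eval (fun s => ((ι (uu (j % M) (j / M + N₁ * t) s) : L) : PadicAlgCl p))
        (map σ H) = σ (eval (U (j + M * N₁ * t)) H) := by
      intro t
      rw [map_eval']
      congr 2
      funext s
      have h3 := huu (j % M) (j / M + N₁ * t) s
      have h4 : j % M + M * (j / M + N₁ * t) = j + M * N₁ * t := by
        have := Nat.mod_add_div j M
        calc j % M + M * (j / M + N₁ * t) = (j % M + M * (j / M)) + M * N₁ * t := by ring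
          _ = _ := by rw [this]
      rw [h4] at h3
      exact h3
    simp only [h2] at h1
    exact h1
  -- the ideals
  let I : ℕ → Ideal (MvPolynomial (Idx N B₀) ℂ) := fun j =>
    { carrier := {H | Small (fun t => σ (eval (U (j + M * N₁ * t)) H))}
      add_mem' := by
        intro a b ha hb
        have h1 := Small.add ha hb
        simp only [Set.mem_ofPred_eq, map_add]
        exact h1
      zero_mem' := by
        intro ρ _
        exact ⟨0, fun t => by simp⟩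
      smul_mem' := by
        intro r a ha
        obtain ⟨C, _, hC⟩ := bdd_eval (v := fun t s => σ (U (j + M * N₁ * t) s)) (hUb' j) (map σ r)
        refine Small.of_le ha (K := C) fun t => ?_
        simp only [smul_eq_mul, map_mul, norm_mul]
        have h1 := hC t
        have h2 : eval (fun s => σ (U (j + M * N₁ * t) s)) (map σ r) =
            σ (eval (U (j + M * N₁ * t)) r) := (map_eval' σ _ r).symm
        rw [h2] at h1
        gcongr }
  have hI : ∀ j H, H ∈ I j ↔ Small (fun t => σ (eval (U (j + M * N₁ * t)) H)) :=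
    fun j H => Iff.rfl
  have hUeq : ∀ i, ∀ G ∈ eqs B₀ A, eval (U i) G = 0 := fun i =>
    canon_eqs hA hB ((hX (q i)).mp (hq i)).1 (hcq i) (hF₀q i)
  have hUrep : ∀ i, Rep (q i) (U i) := fun i => canon_rep _ _ _
  have hcj : ∀ j t, (q (j + M * N₁ * t)).rep (c j) ≠ 0 := by
    intro j t
    have := hcq (j + M * N₁ * t)
    rw [hidx, per_mul hcM] at this
    rw [hidx]
    exact this
  have hDZ : ∀ j F, (∃ d, F.IsHomogeneous d) → (F ∈ DZ (I j) ↔
      Small (fun t => eval (nv σ (c j) (q (j + M * N₁ * t))) (map σ F))) := by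
    intro j F hF
    have h1 := small_iff σ (q := fun t => q (j + M * N₁ * t)) (hcj j)
      (V := fun t => U (j + M * N₁ * t)) (fun t => hUeq _) (fun t => hUrep _) (hUb' j) (hqb j) hF
    rw [← h1]
    constructor
    · intro h m
      exact (hI j _).mp (h.2 m)
    · intro h
      exact ⟨hF, fun m => (hI j _).mpr (h m)⟩
  refine ⟨M * N₁, I, hM'0, dvd_mul_right _ _, fun j => ⟨?_, ?_, ?_, ?_, ?_, hDZ j⟩⟩
  · -- primality
    refine ⟨?_, ?_⟩
    · rw [Ne, Ideal.eq_top_iff_one, hI]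
      intro h
      obtain ⟨C, hC⟩ := h (1 / 2) (by norm_num)
      have h1 : OO (1 / 2) (fun _ : ℕ => (1 : PadicAlgCl p)) := ⟨C, fun k => by
        have := hC k
        simpa using this⟩
      exact one_ne_zero (const_eq_zero (by norm_num) (by norm_num) h1)
    · intro F G hFG
      by_contra hcon
      push Not at hcon
      rw [hI, hI] at hcon
      have h1 := (hdich j F).resolve_left hcon.1
      have h2 := (hdich j G).resolve_left hcon.2
      apply h1.mul h2
      rw [hI] at hFG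
      simp only [map_mul] at hFG
      exact hFG
  · -- periodicity
    ext H
    rw [hI, hI, ← Small.shift (a := fun t => σ (eval (U (j + M * N₁ * t)) H))]
    have : ∀ t, j + M * N₁ + M * N₁ * t = j + M * N₁ * (t + 1) := fun t => by ring
    simp only [this]
  · intro H hH
    rw [hI]
    intro ρ _
    refine ⟨0, fun t => ?_⟩
    have h1 := hUeq (j + M * N₁ * t) H hH
    simp [h1]
  · -- the step
    intro F hF
    have h1 := small_iff σ (q := fun t => q (j + 1 + M * N₁ * t)) (hcj (j + 1))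
      (V := fun t => U (j + 1 + M * N₁ * t)) (fun t => hUeq _) (fun t => hUrep _)
      (hUb' (j + 1)) (hqb (j + 1)) hF
    have h2 := small_iff σ (q := fun t => q (j + 1 + M * N₁ * t)) (hcj (j + 1))
      (V := fun t => pmap Ψ (U (j + M * N₁ * t))) (fun t => (hΨ _ (hUeq _) _ (hUrep _)).1)
      (fun t => by
        have h3 := (hΨ _ (hUeq (j + M * N₁ * t)) _ (hUrep _)).2
        rw [hΦq] at h3
        have : j + M * N₁ * t + 1 = j + 1 + M * N₁ * t := by ring
        rw [this] at h3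
        exact h3)
      (fun s => by
        obtain ⟨C, _, hC⟩ := bdd_eval (v := fun t s => σ (U (j + M * N₁ * t) s)) (hUb' j)
          (map σ (Ψ s))
        refine ⟨C, fun t => ?_⟩
        have h4 : eval (fun s => σ (U (j + M * N₁ * t) s)) (map σ (Ψ s)) =
            σ (pmap Ψ (U (j + M * N₁ * t)) s) := (map_eval' σ _ (Ψ s)).symm
        rw [← h4]
        exact hC t) (hqb (j + 1)) hF
    rw [← h2] at h1
    have h5 : ∀ m t, eval (pmap Ψ (U (j + M * N₁ * t))) (bind₁ (colP B₀ m) F) =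
        eval (U (j + M * N₁ * t)) (bind₁ Ψ (bind₁ (colP B₀ m) F)) := by
      intro m t
      exact (eval_bind₁' (U (j + M * N₁ * t)) Ψ (bind₁ (colP B₀ m) F)).symm
    simp only [h5] at h1
    exact h1
  · -- sparse returns
    intro F hF hFD
    rw [hDZ j F hF] at hFD
    have h1 : ∀ t, σ (eval (U (j + M * N₁ * t)) (bind₁ (colP B₀ (c j)) F)) =
        eval (nv σ (c j) (q (j + M * N₁ * t))) (map σ F) := by
      intro t
      rw [eval_colP, eval_nv]
      simp only [U]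
      rw [canon_col, hidx, per_mul hcM, if_pos rfl]
    have h2 := hdich j (bind₁ (colP B₀ (c j)) F)
    simp only [h1] at h2
    obtain ⟨ρ, hρ, hss⟩ := h2.resolve_left hFD
    refine (hss 0).mono ?_
    intro k hk
    have hk' : eval (q (j + M * N₁ * k)).rep F = 0 := hk
    change ‖eval (nv σ (c j) (q (j + M * N₁ * k))) (map σ F)‖ ≤ _
    rw [eval_nv, hom_zero (nrep_mem _ _) hF hk', map_zero, norm_zero, zero_mul]

end

end Pool.Agent.Helper86.DML
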