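import Mathlib
import Pool.Agent.Helper86.DML.PointCase

/-!
# Finite irreducible sets, points and forms
-/

namespace Pool.Agent.Helper86.DML

open MvPolynomial

noncomputable section

variable {N : ℕ} {B₀ : Finset (MvPolynomial (Fin (N + 1)) ℂ)}

/-- the linear form vanishing at `x` given by two coordinates -/
def lin (x : PP N) (a b : Fin (N + 1)) : MvPolynomial (Fin (N + 1)) ℂ :=
  X a * C (x.rep b) - X b * C (x.rep a)

lemma lin_hom (x : PP N) (a b : Fin (N + 1)) : (lin x a b).IsHomogeneous 1 := by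
  have h1 : (X a * C (x.rep b) : MvPolynomial (Fin (N + 1)) ℂ).IsHomogeneous (1 + 0) :=
    (isHomogeneous_X ℂ a).mul (isHomogeneous_C _ _)
  have h2 : (X b * C (x.rep a) : MvPolynomial (Fin (N + 1)) ℂ).IsHomogeneous (1 + 0) :=
    (isHomogeneous_X ℂ b).mul (isHomogeneous_C _ _)
  exact h1.sub h2

lemma eval_lin (x : PP N) (a b : Fin (N + 1)) (v : Fin (N + 1) → ℂ) :
    eval v (lin x a b) = v a * x.rep b - v b * x.rep a := by
  simp [lin]

lemma eval_lin_self (x : PP N) (a b : Fin (N + 1)) : eval x.rep (lin x a b) = 0 := by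
  rw [eval_lin]; ring

lemma eq_of_lin {x y : PP N} (h : ∀ a b, eval y.rep (lin x a b) = 0) : y = x := by
  obtain ⟨c, hc⟩ : ∃ c, x.rep c ≠ 0 := by
    by_contra hcon
    push Not at hcon
    exact x.rep_nonzero (funext hcon)
  have h1 : y.rep = (y.rep c / x.rep c) • x.rep := by
    funext a
    have := h a c
    rw [eval_lin] at this
    rw [Pi.smul_apply, smul_eq_mul]
    field_simp
    linear_combination this
  have h2 : y.rep ∈ x.submodule := (mem_submodule_iff x _).mpr ⟨_, h1⟩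
  have h3 : y.rep c / x.rep c ≠ 0 := by
    intro h0
    rw [h0, zero_smul] at h1
    exact y.rep_nonzero h1
  rw [← y.mk_rep, ← x.mk_rep, Projectivization.mk_eq_mk_iff']
  exact ⟨_, h1.symm⟩

lemma exists_form (T : Finset (PP N)) {w : PP N} (hw : w ∉ T) :
    ∃ F : MvPolynomial (Fin (N + 1)) ℂ, (∃ d, F.IsHomogeneous d) ∧
      (∀ x ∈ T, eval x.rep F = 0) ∧ eval w.rep F ≠ 0 := by
  classical
  induction T using Finset.induction_on with
  | empty => exact ⟨1, ⟨0, isHomogeneous_one _ _⟩, by simp, by simp⟩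
  | insert x T hx ih =>
    rw [Finset.mem_insert, not_or] at hw
    obtain ⟨F, ⟨d, hd⟩, hFT, hFw⟩ := ih hw.2
    obtain ⟨a, b, hab⟩ : ∃ a b, eval w.rep (lin x a b) ≠ 0 := by
      by_contra hcon
      push Not at hcon
      exact hw.1 (eq_of_lin hcon)
    refine ⟨lin x a b * F, ⟨_, (lin_hom x a b).mul hd⟩, ?_, ?_⟩
    · intro y hy
      rw [map_mul]
      rcases Finset.mem_insert.mp hy with rfl | hy
      · rw [eval_lin_self, zero_mul]
      · rw [hFT y hy, mul_zero]
    · rw [map_mul]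
      exact mul_ne_zero hab hFw

/-- finite irreducible sets are singletons -/
lemma finite_irreducible {Z : Set (PP N)} (hfin : Z.Finite) {w : PP N} (hw : w ∈ Z)
    (hirr : ∀ C₁ C₂ : Set (MvPolynomial (Fin (N + 1)) ℂ),
        (∀ F ∈ C₁, ∃ d : ℕ, F.IsHomogeneous d) → (∀ F ∈ C₂, ∃ d : ℕ, F.IsHomogeneous d) →
        (∀ x ∈ Z, (∀ F ∈ C₁, eval x.rep F = 0) ∨ ∀ F ∈ C₂, eval x.rep F = 0) →
        (∀ x ∈ Z, ∀ F ∈ C₁, eval x.rep F = 0) ∨ ∀ x ∈ Z, ∀ F ∈ C₂, eval x.rep F = 0) :
    Z = {w} := by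
  classical
  rcases hirr {F | (∃ d, F.IsHomogeneous d) ∧ eval w.rep F = 0}
    {F | (∃ d, F.IsHomogeneous d) ∧ ∀ x ∈ Z, x ≠ w → eval x.rep F = 0}
    (fun F hF => hF.1) (fun F hF => hF.1) (by
      intro x hx
      by_cases hxw : x = w
      · subst hxw
        exact Or.inl fun F hF => hF.2
      · exact Or.inr fun F hF => hF.2 x hx hxw) with h | h
  · ext x
    rw [Set.mem_singleton_iff]
    constructor
    · intro hx
      exact eq_of_lin fun a b => h x hx _ ⟨⟨1, lin_hom w a b⟩, eval_lin_self w a b⟩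
    · rintro rfl
      exact hw
  · exfalso
    obtain ⟨F, hF, hFT, hFw⟩ := exists_form (hfin.toFinset.erase w) (w := w) (by simp)
    exact hFw (h w hw F ⟨hF, fun x hx hxw => hFT x (by simp [hxw, hx])⟩)

/-- the closure of a finite set -/
lemma finite_of_dominant {Z Z' : Set (PP N)} (hfin : Z.Finite) (Φ : PP N → PP N)
    (hdom : ∀ C : Set (MvPolynomial (Fin (N + 1)) ℂ), (∀ F ∈ C, ∃ d : ℕ, F.IsHomogeneous d) →
        (∀ x ∈ Z, ∀ F ∈ C, eval (Φ x).rep F = 0) → ∀ x ∈ Z', ∀ F ∈ C, eval x.rep F = 0) :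
    Z'.Finite := by
  classical
  refine (hfin.image Φ).subset ?_
  intro x hx
  by_contra hcon
  obtain ⟨F, hF, hFT, hFw⟩ := exists_form (hfin.image Φ).toFinset (w := x) (by simpa using hcon)
  refine hFw (hdom {F | (∃ d, F.IsHomogeneous d) ∧ ∀ y ∈ Z, eval (Φ y).rep F = 0}
    (fun F hF => hF.1) (fun y hy F hF => hF.2 y hy) x hx F ⟨hF, fun y hy => hFT _ ?_⟩)
  simp only [Set.Finite.mem_toFinset]
  exact ⟨y, hy, rfl⟩

section NormFacts

variable {p : ℕ} [hp : Fact p.Prime]

lemma norm_le_one_of_isIntegral (x : PadicAlgCl p) (h : IsIntegral ℤ_[p] x) : ‖x‖ ≤ 1 := by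
  have hint : IsIntegral ℚ_[p] x := (Algebra.IsAlgebraic.isAlgebraic x).isIntegral
  have h1 : minpoly ℚ_[p] x = (minpoly ℤ_[p] x).map (algebraMap ℤ_[p] ℚ_[p]) := by
    have := minpoly.isIntegrallyClosed_eq_field_fractions ℚ_[p] (PadicAlgCl p) h
    exact this
  change spectralValue (minpoly ℚ_[p] x) ≤ 1
  rw [spectralValue_le_one_iff (minpoly.monic hint), h1]
  intro n
  rw [Polynomial.coeff_map]
  exact PadicInt.norm_le_one _

/-- divisibility by powers of `p` in a finite ring bounds the norm -/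
lemma norm_le_of_dvd (O : Subalgebra ℤ_[p] (PadicAlgCl p)) [Module.Finite ℤ_[p] O] (x : O) (n : ℕ)
    (h : (p : O) ^ n ∣ x) : ‖(x : PadicAlgCl p)‖ ≤ ((p : ℝ)⁻¹) ^ n := by
  obtain ⟨y, rfl⟩ := h
  have h1 : ‖(y : PadicAlgCl p)‖ ≤ 1 := by
    apply norm_le_one_of_isIntegral
    have h2 : IsIntegral ℤ_[p] y := Algebra.IsIntegral.isIntegral y
    exact h2.map O.val
  have h2 : (((p : O) ^ n * y : O) : PadicAlgCl p) = (p : PadicAlgCl p) ^ n * y := by
    push_cast
    rfl
  have h3 : ‖(p : PadicAlgCl p)‖ = (p : ℝ)⁻¹ := by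
    have := PadicAlgCl.norm_extends p (p : ℚ_[p])
    rw [Padic.norm_p] at this
    rw [← this]
    congr 1
  rw [h2, norm_mul, norm_pow, h3]
  exact mul_le_of_le_one_right (by positivity) h1

/-- the field generated by a finite ring -/
lemma exists_frac_field (O : Subalgebra ℤ_[p] (PadicAlgCl p)) [Module.Finite ℤ_[p] O] :
    ∃ L₀ : IntermediateField ℚ_[p] (PadicAlgCl p), FiniteDimensional ℚ_[p] L₀ ∧
      ∀ x : O, (x : PadicAlgCl p) ∈ L₀ := by
  classical
  obtain ⟨S, hS⟩ := (Module.Finite.fg_top : (⊤ : Submodule ℤ_[p] O).FG)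
  have hfin : FiniteDimensional ℚ_[p]
      (IntermediateField.adjoin ℚ_[p] ((S.image Subtype.val : Finset (PadicAlgCl p)) :
        Set (PadicAlgCl p))) :=
    IntermediateField.finiteDimensional_adjoin
      (fun x _ => (Algebra.IsAlgebraic.isAlgebraic (R := ℚ_[p]) x).isIntegral)
  refine ⟨_, hfin, fun x => ?_⟩
  have hx : x ∈ Submodule.span ℤ_[p] (S : Set O) := by rw [hS]; trivial
  induction hx using Submodule.span_induction with
  | mem y hy =>
    apply IntermediateField.subset_adjoin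
    simp only [Finset.coe_image]
    exact ⟨y, hy, rfl⟩
  | zero => exact IntermediateField.zero_mem _
  | add y z _ _ hy hz => exact IntermediateField.add_mem _ hy hz
  | smul a y _ hy =>
    have h1 : ((a • y : O) : PadicAlgCl p) = algebraMap ℚ_[p] (PadicAlgCl p) (a : ℚ_[p]) * y := by
      rw [Subalgebra.coe_smul, Algebra.smul_def]
      rfl
    rw [h1]
    exact IntermediateField.mul_mem _ (IntermediateField.algebraMap_mem _ _) hy

end NormFacts

end

end Pool.Agent.Helper86.DML
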