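import Mathlib
import Pool.Agent.Helper86.DML.FiniteSets

/-!
# Convergence of the orbit to a cycle of points
-/

namespace Pool.Agent.Helper86.DML

open MvPolynomial

noncomputable section

variable {N : ℕ} {B₀ : Finset (MvPolynomial (Fin (N + 1)) ℂ)}

lemma exists_theta {r : ℝ} (hr0 : 0 < r) (hr1 : r < 1) {M : ℕ} (hM : 1 ≤ M) :
    ∃ θ C : ℝ, 0 < θ ∧ θ < 1 ∧ 0 ≤ C ∧ ∀ i : ℕ, r ^ (i / M) ≤ C * θ ^ i := by
  have hMpos : (0 : ℝ) < M := by exact_mod_cast hM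
  set x : ℝ := (1 - r) / M with hx
  have hx0 : 0 < x := div_pos (by linarith) hMpos
  have hx1 : x < 1 := by
    rw [hx, div_lt_one hMpos]
    have : (1 : ℝ) ≤ M := by exact_mod_cast hM
    linarith
  set θ : ℝ := 1 - x with hθ
  have hθ0 : 0 < θ := by linarith
  have hθ1 : θ < 1 := by linarith
  have hb : r ≤ θ ^ M := by
    have h1 := one_add_mul_le_pow (a := -x) (by linarith) M
    have h2 : 1 + (M : ℝ) * -x = r := by
      rw [hx]
      field_simp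
      ring
    rw [h2] at h1
    exact h1
  refine ⟨θ, (θ ^ M)⁻¹, hθ0, hθ1, by positivity, fun i => ?_⟩
  calc r ^ (i / M) ≤ (θ ^ M) ^ (i / M) := pow_le_pow_left₀ hr0.le hb _
    _ = θ ^ (M * (i / M)) := (pow_mul _ _ _).symm
    _ ≤ (θ ^ M)⁻¹ * θ ^ i := by
      rw [le_inv_mul_iff₀ (by positivity), ← pow_add]
      apply pow_le_pow_of_le_one hθ0.le hθ1.le
      have := Nat.mod_add_div i M
      have h3 := Nat.mod_lt i (show 0 < M by omega)
      omega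

theorem conv_model {X : Set (PP N)} {A : Set (MvPolynomial (Fin (N + 1)) ℂ)}
    (hA : ∀ F ∈ A, ∃ d : ℕ, F.IsHomogeneous d) (hB : ∀ F ∈ B₀, ∃ d : ℕ, F.IsHomogeneous d)
    (hX : ∀ p : PP N, p ∈ X ↔ ((∀ F ∈ A, eval p.rep F = 0) ∧ ∃ F ∈ B₀, eval p.rep F ≠ 0))
    {Φ : PP N → PP N} {α : PP N}
    {p : ℕ} [hp : Fact p.Prime] (O : Subalgebra ℤ_[p] (PadicAlgCl p)) [Module.Finite ℤ_[p] O]
    (σ : ℂ →+* PadicAlgCl p) {Ψ : Idx N B₀ → MvPolynomial (Idx N B₀) ℂ}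
    {uα : Idx N B₀ → ℂ} {n₀ M : ℕ} (hM : 1 ≤ M) {x z : ℕ → Idx N B₀ → O}
    {I : ℕ → Ideal (MvPolynomial (Idx N B₀) ℂ)}
    (hΨ : ∀ u : Idx N B₀ → ℂ, (∀ G ∈ eqs B₀ A, eval u G = 0) → ∀ x : PP N, Rep x u →
        (∀ G ∈ eqs B₀ A, eval (pmap Ψ u) G = 0) ∧ Rep (Φ x) (pmap Ψ u))
    (huα : ∀ G ∈ eqs B₀ A, eval uα G = 0) (hrepα : Rep α uα)
    (hx0 : ∀ i, O.val.toRingHom ∘ x i = σ ∘ (pmap Ψ)^[n₀ + i] uα)
    (hxz : ∀ n i, M * n ≤ i → ∀ k, (p : O) ^ n ∣ x i k - z i k)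
    (hIz : ∀ j, ∀ H ∈ I j, eval (O.val.toRingHom ∘ z j) (map σ H) = 0)
    (hIprime : ∀ j, (I j).IsPrime) (hIeqs : ∀ j, ∀ H ∈ eqs B₀ A, H ∈ I j)
    {w : ℕ → PP N} (hw : ∀ j, ZZ X (I j) = {w j}) (hwM : ∀ j, w (j + M) = w j)
    {c : ℕ → Fin (N + 1)} (hcM : ∀ j, c (j + M) = c j) (hcw : ∀ j, (w j).rep (c j) ≠ 0) :
    ∃ (L₀ : IntermediateField ℚ_[p] (PadicAlgCl p)) (_ : FiniteDimensional ℚ_[p] L₀)
      (θ Cv : ℝ) (i₀ : ℕ), 0 < θ ∧ θ < 1 ∧ 0 ≤ Cv ∧ ∀ i, i₀ ≤ i →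
        (Φ^[n₀ + i] α).rep (c i) ≠ 0 ∧
        (∀ a, nv σ (c i) (Φ^[n₀ + i] α) a ∈ L₀) ∧
        ∀ a, ‖nv σ (c i) (Φ^[n₀ + i] α) a - nv σ (c i) (w i) a‖ ≤ Cv * θ ^ i := by
  classical
  have hiter := iter_lift (X := X) hΨ
  obtain ⟨L₀, hL₀fin, hL₀⟩ := exists_frac_field O
  have hp1 : (0 : ℝ) < (p : ℝ)⁻¹ := inv_pos.mpr (by exact_mod_cast hp.out.pos)
  have hp2 : (p : ℝ)⁻¹ < 1 := inv_lt_one_of_one_lt₀ (by exact_mod_cast hp.out.one_lt)
  obtain ⟨θ, C₀, hθ0, hθ1, hC₀, hθ⟩ := exists_theta hp1 hp2 hM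
  -- a uniform bound for the cycle
  obtain ⟨K, hK1, hK⟩ : ∃ K : ℝ, 1 ≤ K ∧ ∀ j a, ‖nv σ (c j) (w j) a‖ ≤ K := by
    refine ⟨1 + ∑ j ∈ Finset.range M, ∑ a, ‖nv σ (c j) (w j) a‖, ?_, fun j a => ?_⟩
    · have : 0 ≤ ∑ j ∈ Finset.range M, ∑ a, ‖nv σ (c j) (w j) a‖ :=
        Finset.sum_nonneg fun _ _ => Finset.sum_nonneg fun _ _ => norm_nonneg _
      linarith
    · have h1 : ‖nv σ (c j) (w j) a‖ = ‖nv σ (c (j % M)) (w (j % M)) a‖ := by
        rw [mod_of_periodic hcM, mod_of_periodic hwM]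
      have h2 : ‖nv σ (c (j % M)) (w (j % M)) a‖ ≤ ∑ a, ‖nv σ (c (j % M)) (w (j % M)) a‖ :=
        Finset.single_le_sum (f := fun a => ‖nv σ (c (j % M)) (w (j % M)) a‖)
          (fun _ _ => norm_nonneg _) (Finset.mem_univ a)
      have h3 : ∑ a, ‖nv σ (c (j % M)) (w (j % M)) a‖ ≤
          ∑ j ∈ Finset.range M, ∑ a, ‖nv σ (c j) (w j) a‖ :=
        Finset.single_le_sum (f := fun j => ∑ a, ‖nv σ (c j) (w j) a‖)
          (fun _ _ => Finset.sum_nonneg fun _ _ => norm_nonneg _)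
          (Finset.mem_range.mpr (Nat.mod_lt _ (by omega)))
      linarith
  set κ : ℝ := 1 / (((N : ℝ) + 1) * K) with hκ
  have hκ0 : 0 < κ := by positivity
  obtain ⟨n₁, hn₁⟩ := exists_pow_lt_of_lt_one hκ0 hp2
  -- the columns of `z`
  have hzcol : ∀ i a m, (z i (Sum.inl (a, m)) : PadicAlgCl p) =
      (z i (Sum.inl (c i, m)) : PadicAlgCl p) * nv σ (c i) (w i) a := by
    intro i a m
    have := hIprime i
    have h1 : lin (w i) a (c i) ∈ DZ (I i) := by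
      rw [mem_DZ_iff (I i) (hIeqs i) hA hB hX _ ⟨1, lin_hom _ _ _⟩, hw]
      intro y hy
      rw [Set.mem_singleton_iff] at hy
      subst hy
      exact eval_lin_self _ _ _
    have h2 := hIz i _ (h1.2 m)
    rw [eval_map_colP] at h2
    simp only [lin, map_sub, map_mul, map_X, map_C, eval_X, eval_C] at h2
    have h3 : (z i (Sum.inl (a, m)) : PadicAlgCl p) * σ ((w i).rep (c i)) -
        (z i (Sum.inl (c i, m)) : PadicAlgCl p) * σ ((w i).rep a) = 0 := h2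
    have h4 : σ ((w i).rep (c i)) ≠ 0 := by
      rw [Ne, map_eq_zero]
      exact hcw i
    rw [nv, nrep, map_div₀]
    field_simp
    linear_combination h3
  have hztr : ∀ i, ∑ m, (z i (Sum.inl (c i, m)) : PadicAlgCl p) * nv σ (c i) (w i) m = 1 := by
    intro i
    have h1 : OnX σ A (O.val.toRingHom ∘ z i) := fun H hH => hIz i H (hIeqs i H hH)
    rw [← h1.trace]
    exact Finset.sum_congr rfl fun m _ => (hzcol i m m).symm
  have hbig : ∀ i, ∃ m, κ ≤ ‖(z i (Sum.inl (c i, m)) : PadicAlgCl p)‖ := by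
    intro i
    by_contra hcon
    push Not at hcon
    have h3 : (1 : ℝ) ≤ ∑ m : Fin (N + 1), ‖(z i (Sum.inl (c i, m)) : PadicAlgCl p)‖ * K := by
      rw [← norm_one (α := PadicAlgCl p), ← hztr i]
      refine (norm_sum_le _ _).trans (Finset.sum_le_sum fun m _ => ?_)
      rw [norm_mul]
      exact mul_le_mul_of_nonneg_left (hK i m) (norm_nonneg _)
    have h4 : ∑ m : Fin (N + 1), ‖(z i (Sum.inl (c i, m)) : PadicAlgCl p)‖ * K <
        ∑ _m : Fin (N + 1), κ * K := by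
      refine Finset.sum_lt_sum_of_nonempty Finset.univ_nonempty fun m _ => ?_
      have := hcon m
      gcongr
    rw [Finset.sum_const, Finset.card_univ, Fintype.card_fin, nsmul_eq_mul] at h4
    push_cast at h4
    have h5 : ((N : ℝ) + 1) * (κ * K) = 1 := by
      rw [hκ]
      field_simp
    rw [h5] at h4
    linarith
  have hdiff : ∀ i s, ‖(x i s : PadicAlgCl p) - (z i s : PadicAlgCl p)‖ ≤ ((p : ℝ)⁻¹) ^ (i / M) := by
    intro i s
    have h1 := norm_le_of_dvd O _ _ (hxz (i / M) i (Nat.mul_div_le i M) s)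
    rw [AddSubgroupClass.coe_sub] at h1
    exact h1
  have hxval : ∀ i s, (x i s : PadicAlgCl p) = σ ((pmap Ψ)^[n₀ + i] uα s) :=
    fun i s => congrFun (hx0 i) s
  refine ⟨L₀, hL₀fin, θ, C₀ * (K / κ), M * n₁, hθ0, hθ1, by positivity, fun i hi => ?_⟩
  obtain ⟨m, hm⟩ := hbig i
  have hsmall : ((p : ℝ)⁻¹) ^ (i / M) < κ := by
    refine lt_of_le_of_lt ?_ hn₁
    apply pow_le_pow_of_le_one hp1.le hp2.le
    rw [Nat.le_div_iff_mul_le (by omega), mul_comm]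
    exact hi
  have hxc : ‖(x i (Sum.inl (c i, m)) : PadicAlgCl p)‖ =
      ‖(z i (Sum.inl (c i, m)) : PadicAlgCl p)‖ := by
    have h1 : (x i (Sum.inl (c i, m)) : PadicAlgCl p) =
        ((x i (Sum.inl (c i, m)) : PadicAlgCl p) - (z i (Sum.inl (c i, m)) : PadicAlgCl p)) +
        (z i (Sum.inl (c i, m)) : PadicAlgCl p) := by ring
    have h2 : ‖(x i (Sum.inl (c i, m)) : PadicAlgCl p) - (z i (Sum.inl (c i, m)) : PadicAlgCl p)‖ <
        ‖(z i (Sum.inl (c i, m)) : PadicAlgCl p)‖ := (hdiff i _).trans_lt (hsmall.trans_le hm)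
    rw [h1, IsUltrametricDist.norm_add_eq_max_of_norm_ne_norm h2.ne, max_eq_right h2.le]
  have hxκ : κ ≤ ‖(x i (Sum.inl (c i, m)) : PadicAlgCl p)‖ := hxc ▸ hm
  have hx0' : (x i (Sum.inl (c i, m)) : PadicAlgCl p) ≠ 0 := norm_pos_iff.mp (hκ0.trans_le hxκ)
  obtain ⟨_, hrep⟩ := hiter uα α huα hrepα (n₀ + i)
  obtain ⟨t, ht⟩ := (mem_submodule_iff _ _).mp (hrep m)
  have ht' : ∀ b, (pmap Ψ)^[n₀ + i] uα (Sum.inl (b, m)) = t * (Φ^[n₀ + i] α).rep b :=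
    fun b => congrFun ht b
  have hrepc : (Φ^[n₀ + i] α).rep (c i) ≠ 0 := by
    intro h0
    apply hx0'
    rw [hxval, ht', h0, mul_zero, map_zero]
  have hnv : ∀ a, nv σ (c i) (Φ^[n₀ + i] α) a =
      (x i (Sum.inl (a, m)) : PadicAlgCl p) / (x i (Sum.inl (c i, m)) : PadicAlgCl p) := by
    intro a
    rw [eq_div_iff hx0', hxval, hxval, nv, ← map_mul]
    congr 1
    have := line_nrep hrepc (hrep m) a
    simp only [col] at this
    rw [this, mul_comm]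
  refine ⟨hrepc, fun a => ?_, fun a => ?_⟩
  · rw [hnv]
    exact IntermediateField.div_mem _ (hL₀ _) (hL₀ _)
  · have h1 : nv σ (c i) (Φ^[n₀ + i] α) a - nv σ (c i) (w i) a =
        (((x i (Sum.inl (a, m)) : PadicAlgCl p) - (z i (Sum.inl (a, m)) : PadicAlgCl p)) -
        ((x i (Sum.inl (c i, m)) : PadicAlgCl p) - (z i (Sum.inl (c i, m)) : PadicAlgCl p)) *
          nv σ (c i) (w i) a) / (x i (Sum.inl (c i, m)) : PadicAlgCl p) := by
      rw [hnv, eq_div_iff hx0', sub_mul, div_mul_cancel₀ _ hx0']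
      linear_combination hzcol i a m
    rw [h1, norm_div]
    have h2 : ‖((x i (Sum.inl (a, m)) : PadicAlgCl p) - (z i (Sum.inl (a, m)) : PadicAlgCl p)) -
        ((x i (Sum.inl (c i, m)) : PadicAlgCl p) - (z i (Sum.inl (c i, m)) : PadicAlgCl p)) *
          nv σ (c i) (w i) a‖ ≤ ((p : ℝ)⁻¹) ^ (i / M) * K := by
      refine (norm_sub_le_max' _ _).trans (max_le ?_ ?_)
      · refine (hdiff i _).trans ?_
        exact le_mul_of_one_le_right (by positivity) hK1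
      · rw [norm_mul]
        exact mul_le_mul (hdiff i _) (hK i a) (norm_nonneg _) (by positivity)
    calc _ ≤ (((p : ℝ)⁻¹) ^ (i / M) * K) / κ := by gcongr
      _ ≤ ((C₀ * θ ^ i) * K) / κ := by
        gcongr
        exact hθ i
      _ = _ := by ring

end

end Pool.Agent.Helper86.DML
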