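import Mathlib
import Pool.Agent.Helper86.DML.Conv

/-!
# The structure theorem, with the case of finite limit sets
-/

namespace Pool.Agent.Helper86.DML

open MvPolynomial Filter Topology

noncomputable section

variable {N : ℕ} {B₀ : Finset (MvPolynomial (Fin (N + 1)) ℂ)}

lemma tendsto_class {Ω : Type*} [NormedField Ω] {v : ℕ → Fin (N + 1) → Ω} {v₀ : Fin (N + 1) → Ω}
    {C θ : ℝ} (hθ0 : 0 < θ) (hθ1 : θ < 1) (h : ∀ t a, ‖v t a - v₀ a‖ ≤ C * θ ^ t)
    (P : MvPolynomial (Fin (N + 1)) Ω) :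
    Tendsto (fun t => eval (v t) P) atTop (𝓝 (eval v₀ P)) := by
  have h1 : Tendsto v atTop (𝓝 v₀) := by
    rw [tendsto_pi_nhds]
    intro a
    rw [tendsto_iff_norm_sub_tendsto_zero]
    refine squeeze_zero (fun _ => norm_nonneg _) (fun t => h t a) ?_
    have := (tendsto_pow_atTop_nhds_zero_of_lt_one hθ0.le hθ1).const_mul C
    rwa [mul_zero] at this
  exact ((MvPolynomial.continuous_eval P).tendsto v₀).comp h1

lemma Small.tendsto {Ω : Type*} [NormedField Ω] {a : ℕ → Ω} (h : Small a) :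
    Tendsto a atTop (𝓝 0) := by
  obtain ⟨C, hC⟩ := h (1 / 2) (by norm_num)
  rw [tendsto_zero_iff_norm_tendsto_zero]
  refine squeeze_zero (fun _ => norm_nonneg _) hC ?_
  have := (tendsto_pow_atTop_nhds_zero_of_lt_one (r := (1 / 2 : ℝ)) (by norm_num)
    (by norm_num)).const_mul C
  rwa [mul_zero] at this

lemma Small.of_le_tail {Ω : Type*} [NormedField Ω] {a b : ℕ → Ω} (h : Small a) {K : ℝ} {t₁ : ℕ}
    (hK : ∀ t, t₁ ≤ t → ‖b t‖ ≤ K * ‖a t‖) : Small b := by
  intro ρ hρ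
  obtain ⟨C, hC⟩ := h ρ hρ
  refine ⟨|K| * |C| + ∑ t ∈ Finset.range t₁, ‖b t‖ / ρ ^ t, fun t => ?_⟩
  have hS : 0 ≤ ∑ t ∈ Finset.range t₁, ‖b t‖ / ρ ^ t :=
    Finset.sum_nonneg fun _ _ => by positivity
  by_cases ht : t₁ ≤ t
  · calc ‖b t‖ ≤ K * ‖a t‖ := hK t ht
      _ ≤ |K| * (|C| * ρ ^ t) := by
        have h1 : ‖a t‖ ≤ |C| * ρ ^ t := (hC t).trans (by gcongr; exact le_abs_self C)
        calc K * ‖a t‖ ≤ |K| * ‖a t‖ := by gcongr; exact le_abs_self K
          _ ≤ _ := by gcongr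
      _ ≤ _ := by
        rw [add_mul, mul_assoc]
        have : 0 ≤ (∑ t ∈ Finset.range t₁, ‖b t‖ / ρ ^ t) * ρ ^ t := by positivity
        linarith
  · push Not at ht
    have h1 : ‖b t‖ / ρ ^ t ≤ ∑ t ∈ Finset.range t₁, ‖b t‖ / ρ ^ t :=
      Finset.single_le_sum (f := fun t => ‖b t‖ / ρ ^ t) (fun _ _ => by positivity)
        (Finset.mem_range.mpr ht)
    rw [div_le_iff₀ (by positivity)] at h1
    refine h1.trans ?_
    have : 0 ≤ |K| * |C| := by positivity
    gcongr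
    linarith

lemma eq_of_nv {Ω : Type*} [Field Ω] (σ : ℂ →+* Ω) {c : Fin (N + 1)} {x y : PP N}
    (hx : x.rep c ≠ 0) (hy : y.rep c ≠ 0) (h : nv σ c y = nv σ c x) : y = x := by
  apply eq_of_lin
  have h1 : ∀ a, y.rep a / y.rep c = x.rep a / x.rep c := fun a => σ.injective (congrFun h a)
  have h2 : ∀ a, y.rep a = (y.rep c / x.rep c) * x.rep a := by
    intro a
    have := h1 a
    field_simp at this ⊢
    linear_combination this
  intro a b
  rw [eval_lin, h2 a, h2 b]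
  ring

lemma exists_min_pos (ε : ℕ → ℝ) (hε : ∀ r, 0 < ε r) (M : ℕ) : ∃ e > 0, ∀ r < M, e ≤ ε r := by
  induction M with
  | zero => exact ⟨1, one_pos, by simp⟩
  | succ M ih =>
    obtain ⟨e, he, h⟩ := ih
    refine ⟨min e (ε M), lt_min he (hε M), fun r hr => ?_⟩
    rcases Nat.lt_succ_iff_lt_or_eq.mp hr with hr | rfl
    · exact (min_le_left _ _).trans (h r hr)
    · exact min_le_right _ _

/-- the structure theorem for orbits, including the case of finite limit sets -/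
theorem main_structure2 (X : Set (PP N)) (A : Set (MvPolynomial (Fin (N + 1)) ℂ))
    (hA : ∀ F ∈ A, ∃ d : ℕ, F.IsHomogeneous d) (hB : ∀ F ∈ B₀, ∃ d : ℕ, F.IsHomogeneous d)
    (hX : ∀ p : PP N, p ∈ X ↔ ((∀ F ∈ A, eval p.rep F = 0) ∧ ∃ F ∈ B₀, eval p.rep F ≠ 0))
    (Φ : PP N → PP N) (hΦX : ∀ x ∈ X, Φ x ∈ X)
    (hΦ : ∀ x ∈ X, ∃ (d e : ℕ) (F : Fin (N + 1) → MvPolynomial (Fin (N + 1)) ℂ)
          (g : MvPolynomial (Fin (N + 1)) ℂ),
          (∀ i, (F i).IsHomogeneous d) ∧ g.IsHomogeneous e ∧ eval x.rep g ≠ 0 ∧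
          ∀ y ∈ X, eval y.rep g ≠ 0 →
            (fun i : Fin (N + 1) => eval y.rep (F i)) ≠ 0 ∧
            (fun i : Fin (N + 1) => eval y.rep (F i)) ∈ (Φ y).submodule)
    (Y : Set (PP N)) (D : Set (MvPolynomial (Fin (N + 1)) ℂ))
    (hD : ∀ F ∈ D, ∃ d : ℕ, F.IsHomogeneous d)
    (hY : ∀ p : PP N, p ∈ Y ↔ p ∈ X ∧ ∀ F ∈ D, eval p.rep F = 0)
    (hΦY : ∀ y ∈ Y, Φ y ∈ Y)
    (hun : ∀ y ∈ Y, UnramAt X Φ y)
    (α : PP N) (hα : α ∈ X) :
    ∃ (n₀ M : ℕ) (Z : ℕ → Set (PP N)), 1 ≤ M ∧ ∀ j,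
      Z (j + M) = Z j ∧
      (∃ E : Set (MvPolynomial (Fin (N + 1)) ℂ), (∀ F ∈ E, ∃ d : ℕ, F.IsHomogeneous d) ∧
        ∀ p : PP N, p ∈ Z j ↔ p ∈ X ∧ ∀ F ∈ E, eval p.rep F = 0) ∧
      (Z j).Nonempty ∧
      (∀ C₁ C₂ : Set (MvPolynomial (Fin (N + 1)) ℂ),
        (∀ F ∈ C₁, ∃ d : ℕ, F.IsHomogeneous d) → (∀ F ∈ C₂, ∃ d : ℕ, F.IsHomogeneous d) →
        (∀ x ∈ Z j, (∀ F ∈ C₁, eval x.rep F = 0) ∨ ∀ F ∈ C₂, eval x.rep F = 0) →
        (∀ x ∈ Z j, ∀ F ∈ C₁, eval x.rep F = 0) ∨ ∀ x ∈ Z j, ∀ F ∈ C₂, eval x.rep F = 0) ∧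
      (∀ x ∈ Z j, Φ x ∈ Z (j + 1)) ∧
      (∀ C : Set (MvPolynomial (Fin (N + 1)) ℂ), (∀ F ∈ C, ∃ d : ℕ, F.IsHomogeneous d) →
        (∀ x ∈ Z j, ∀ F ∈ C, eval (Φ x).rep F = 0) → ∀ x ∈ Z (j + 1), ∀ F ∈ C, eval x.rep F = 0) ∧
      (∀ C : Set (MvPolynomial (Fin (N + 1)) ℂ), (∀ F ∈ C, ∃ d : ℕ, F.IsHomogeneous d) →
        (∃ x ∈ Z j, ∃ F ∈ C, eval x.rep F ≠ 0) →
        SSp {k | ∀ F ∈ C, eval (Φ^[n₀ + j + M * k] α).rep F = 0}) ∧
      (Z j ⊆ Y → ∀ k, Φ^[n₀ + j + M * k] α ∈ Z j) ∧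
      ((Z j).Infinite ∨ ∃ w, Z j = {w} ∧
        ((∀ i, UnramAt X Φ (Φ^[i] w)) → ∃ k, Φ^[n₀ + j + M * k] α = w)) := by
  classical
  obtain ⟨Ψ, hΨ⟩ := exists_lift X A hA hB hX Φ hΦX hΦ
  obtain ⟨p, hp, O, σ, uα, n₀, M, x, z, I, hp3, -, hfin, huα, hrepα, hM, hx0, hxz, hIz,
    hIprime, hIeqs, hcl⟩ := structure_model X A hA hB hX Φ hΦX hΦ Y D hD hY hΦY hun Ψ hΨ ∅ α hα
  by_cases hinf : ∀ j, (ZZ X (I j)).Infinite
  · refine ⟨n₀, M, fun j => ZZ X (I j), hM, fun j => ?_⟩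
    obtain ⟨h1, h2, h3, h4, h5, h6, h7⟩ := hcl j
    exact ⟨h1, ⟨DZ (I j), fun F hF => hF.1, fun p => Iff.rfl⟩, h2, h3, h4, h5, h6, h7,
      Or.inl (hinf j)⟩
  -- all limit sets are points
  have hperZ : ∀ j, ZZ X (I (j + M)) = ZZ X (I j) := fun j => (hcl j).1
  have hfinall : ∀ j, (ZZ X (I j)).Finite := by
    push Not at hinf
    obtain ⟨j₀, hj₀⟩ := hinf
    have hj₀' : (ZZ X (I j₀)).Finite := by
      first
        | exact Set.not_infinite.mp hj₀
        | exact hj₀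
    have h1 : ∀ t, (ZZ X (I (j₀ + t))).Finite := by
      intro t
      induction t with
      | zero => exact hj₀'
      | succ t ih => exact finite_of_dominant ih Φ (hcl (j₀ + t)).2.2.2.2.1
    intro j
    have h2 : ZZ X (I (j + M * j₀)) = ZZ X (I j) := per_mul (f := fun j => ZZ X (I j)) hperZ j j₀
    rw [← h2]
    have h3 : j₀ ≤ M * j₀ := Nat.le_mul_of_pos_left j₀ hM
    obtain ⟨t, ht⟩ := Nat.exists_eq_add_of_le (show j₀ ≤ j + M * j₀ by omega)
    rw [ht]
    exact h1 t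
  choose w hwmem using fun j => (hcl j).2.1
  have hw : ∀ j, ZZ X (I j) = {w j} := fun j =>
    finite_irreducible (hfinall j) (hwmem j) (hcl j).2.2.1
  have hwM : ∀ j, w (j + M) = w j := by
    intro j
    have h1 := hperZ j
    rw [hw, hw] at h1
    exact Set.singleton_injective h1
  have hwX : ∀ j, w j ∈ X := fun j => (hwmem j).1
  have hΦw : ∀ j, Φ (w j) = w (j + 1) := by
    intro j
    have h1 := (hcl j).2.2.2.1 (w j) (hwmem j)
    rw [hw] at h1
    exact h1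
  have hiterw : ∀ j i, Φ^[i] (w j) = w (j + i) := by
    intro j i
    induction i with
    | zero => rfl
    | succ i ih => rw [Function.iterate_succ_apply', ih, hΦw, add_assoc]
  by_cases hram : ∀ j, UnramAt X Φ (w j)
  swap
  · push Not at hram
    obtain ⟨j₁, hj₁⟩ := hram
    refine ⟨n₀, M, fun j => ZZ X (I j), hM, fun j => ?_⟩
    obtain ⟨h1, h2, h3, h4, h5, h6, h7⟩ := hcl j
    refine ⟨h1, ⟨DZ (I j), fun F hF => hF.1, fun p => Iff.rfl⟩, h2, h3, h4, h5, h6, h7,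
      Or.inr ⟨w j, hw j, fun hall => ?_⟩⟩
    exfalso
    have h8 : j ≤ M * j := Nat.le_mul_of_pos_left j hM
    have h9 := hall (j₁ + M * j - j)
    rw [hiterw] at h9
    have h10 : j + (j₁ + M * j - j) = j₁ + M * j := by omega
    rw [h10, per_mul hwM] at h9
    exact hj₁ h9
  -- the unramified case
  choose cc hcc using fun x : PP N => (show ∃ c, x.rep c ≠ 0 by
    by_contra hcon
    push Not at hcon
    exact x.rep_nonzero (funext hcon))
  choose FF hFF using fun x : X => (show ∃ F : B₀, eval x.1.rep F.1 ≠ 0 by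
    obtain ⟨_, F, hF, hne⟩ := (hX x.1).mp x.2
    exact ⟨⟨F, hF⟩, hne⟩)
  set c : ℕ → Fin (N + 1) := fun j => cc (w j) with hc
  have hcM : ∀ j, c (j + M) = c j := fun j => by simp only [hc, hwM]
  have hcw : ∀ j, (w j).rep (c j) ≠ 0 := fun j => hcc (w j)
  set F₀ : ℕ → B₀ := fun j => FF ⟨w j, hwX j⟩ with hF₀
  have hF₀M : ∀ j, F₀ (j + M) = F₀ j := by
    intro j
    simp only [hF₀]
    congr 1
    exact Subtype.ext (hwM j)
  have hF₀w : ∀ j, eval (w j).rep (F₀ j).1 ≠ 0 := fun j => hFF ⟨w j, hwX j⟩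
  obtain ⟨L₀, hL₀fin, θ, Cv, i₀, hθ0, hθ1, hCv, hconv⟩ := conv_model hA hB hX O σ hM hΨ huα
    hrepα hx0 hxz hIz hIprime hIeqs hw hwM hcM hcw
  -- the orbit stays in `X`
  have horb : ∀ i, Φ^[i] α ∈ X := by
    intro i
    induction i with
    | zero => exact hα
    | succ i ih =>
      rw [Function.iterate_succ_apply']
      exact hΦX _ ih
  -- nonvanishing of the auxiliary forms
  obtain ⟨i₁, hi₁⟩ : ∃ i₁, ∀ i, i₁ ≤ i → eval (Φ^[n₀ + i] α).rep (F₀ i).1 ≠ 0 := by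
    have h1 : ∀ j, ∃ k₁, ∀ k, k₁ ≤ k → eval (Φ^[n₀ + (j + M * k)] α).rep (F₀ j).1 ≠ 0 := by
      intro j
      have h2 : Tendsto (fun k => eval (nv σ (c j) (Φ^[n₀ + (j + M * (i₀ + k))] α))
          (map σ (F₀ j).1)) atTop (𝓝 (eval (nv σ (c j) (w j)) (map σ (F₀ j).1))) := by
        refine tendsto_class hθ0 hθ1 (C := Cv) ?_ _
        intro t a
        have h3 : i₀ ≤ M * (i₀ + t) := by
          calc i₀ ≤ i₀ + t := Nat.le_add_right _ _
            _ ≤ _ := Nat.le_mul_of_pos_left _ hM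
        have h4 := (hconv (j + M * (i₀ + t)) (by omega)).2.2 a
        rw [per_mul hcM, per_mul hwM] at h4
        refine h4.trans ?_
        gcongr ?_ * ?_
        apply pow_le_pow_of_le_one hθ0.le hθ1.le
        calc t ≤ i₀ + t := Nat.le_add_left _ _
          _ ≤ M * (i₀ + t) := Nat.le_mul_of_pos_left _ hM
          _ ≤ _ := Nat.le_add_left _ _
      have h5 : eval (nv σ (c j) (w j)) (map σ (F₀ j).1) ≠ 0 := by
        rw [eval_nv, Ne, map_eq_zero, eval_nrep_zero_iff (hcw j) (hB _ (F₀ j).2)]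
        exact hF₀w j
      obtain ⟨k₁, hk₁⟩ := eventually_atTop.mp (h2.eventually_ne h5)
      refine ⟨i₀ + k₁, fun k hk => ?_⟩
      obtain ⟨t, rfl⟩ := Nat.exists_eq_add_of_le hk
      have h6 := hk₁ (k₁ + t) (Nat.le_add_right _ _)
      have e6 : i₀ + (k₁ + t) = i₀ + k₁ + t := (add_assoc _ _ _).symm
      rw [e6] at h6
      intro h0
      apply h6
      rw [eval_nv, hom_zero (nrep_mem _ _) (hB _ (F₀ j).2) h0, map_zero]
    choose k₁ hk₁ using h1
    refine ⟨M * ∑ j ∈ Finset.range M, k₁ j, fun i hi => ?_⟩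
    have h2 : k₁ (i % M) ≤ i / M := by
      rw [Nat.le_div_iff_mul_le (by omega), mul_comm]
      refine le_trans ?_ hi
      apply Nat.mul_le_mul_left
      exact Finset.single_le_sum (f := k₁) (fun _ _ => Nat.zero_le _)
        (Finset.mem_range.mpr (Nat.mod_lt _ (by omega)))
    have h3 := hk₁ (i % M) (i / M) h2
    rw [Nat.mod_add_div, mod_of_periodic hF₀M] at h3
    exact h3
  -- shifting the orbit
  set k₀ := i₀ + i₁ with hk₀
  have hk₀M : i₀ + i₁ ≤ M * k₀ := Nat.le_mul_of_pos_left _ hM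
  set q : ℕ → PP N := fun i => Φ^[n₀ + (M * k₀ + i)] α with hq
  have hshift : ∀ i, i₀ ≤ M * k₀ + i ∧ i₁ ≤ M * k₀ + i := fun i => by omega
  have hcs : ∀ i, c (M * k₀ + i) = c i := fun i =>
    (congrArg c (add_comm (M * k₀) i)).trans (per_mul (f := c) hcM i k₀)
  have hws : ∀ i, w (M * k₀ + i) = w i := fun i =>
    (congrArg w (add_comm (M * k₀) i)).trans (per_mul (f := w) hwM i k₀)
  have hFs : ∀ i, F₀ (M * k₀ + i) = F₀ i := fun i =>
    (congrArg F₀ (add_comm (M * k₀) i)).trans (per_mul (f := F₀) hF₀M i k₀)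
  have hqX : ∀ i, q i ∈ X := fun i => horb _
  have hΦq : ∀ i, Φ (q i) = q (i + 1) := fun i => (Function.iterate_succ_apply' Φ _ α).symm
  have hcq : ∀ i, (q i).rep (c i) ≠ 0 := by
    intro i
    have := (hconv _ (hshift i).1).1
    rwa [hcs] at this
  have hF₀q : ∀ i, eval (q i).rep (F₀ i).1 ≠ 0 := by
    intro i
    have := hi₁ _ (hshift i).2
    rwa [hFs] at this
  have hL₀q : ∀ i a, nv σ (c i) (q i) a ∈ L₀ := by
    intro i a
    have := (hconv _ (hshift i).1).2.1 a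
    rwa [hcs] at this
  have hconvq : ∀ i a, ‖nv σ (c i) (q i) a - nv σ (c i) (w i) a‖ ≤ Cv * θ ^ i := by
    intro i a
    have := (hconv _ (hshift i).1).2.2 a
    rw [hcs, hws] at this
    refine this.trans ?_
    gcongr ?_ * ?_
    exact pow_le_pow_of_le_one hθ0.le hθ1.le (Nat.le_add_left _ _)
  obtain ⟨M', I', hM', ⟨s, hs⟩, hI'⟩ := point_case X A hA hB hX Φ hΦ Ψ hΨ hp3 σ L₀ w q M hM hwX
    hΦw hwM hqX hΦq c hcM hcw hcq F₀ hF₀M hF₀w hF₀q hL₀q hθ0 hθ1 hconvq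
  have hcM' : ∀ j t, c (j + M' * t) = c j := by
    intro j t
    rw [hs, mul_assoc, per_mul hcM]
  have hwM' : ∀ j t, w (j + M' * t) = w j := by
    intro j t
    rw [hs, mul_assoc, per_mul hwM]
  have hconvt : ∀ j t a, ‖nv σ (c j) (q (j + M' * t)) a - nv σ (c j) (w j) a‖ ≤ Cv * θ ^ t := by
    intro j t a
    have := hconvq (j + M' * t) a
    rw [hcM', hwM'] at this
    refine this.trans ?_
    gcongr ?_ * ?_
    apply pow_le_pow_of_le_one hθ0.le hθ1.le
    calc t ≤ M' * t := Nat.le_mul_of_pos_left _ hM'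
      _ ≤ _ := Nat.le_add_left _ _
  have hcqt : ∀ j t, (q (j + M' * t)).rep (c j) ≠ 0 := by
    intro j t
    have := hcq (j + M' * t)
    rwa [hcM'] at this
  have hwZ : ∀ j, w j ∈ ZZ X (I' j) := by
    intro j
    refine ⟨hwX j, fun F hF => ?_⟩
    have h1 := ((hI' j).2.2.2.2.2 F hF.1).mp hF
    have h2 := tendsto_class hθ0 hθ1 (hconvt j) (map σ F)
    have h3 := tendsto_nhds_unique h2 h1.tendsto
    rw [eval_nv, map_eq_zero, eval_nrep_zero_iff (hcw j) hF.1] at h3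
    exact h3
  refine ⟨n₀ + M * k₀, M', fun j => ZZ X (I' j), hM', fun j => ?_⟩
  obtain ⟨hj1, hj2, hj3, hj4, hj5, hj6⟩ := hI' j
  have hirr := ZZ_irreducible (I' j) hj3 hA hB hX
  refine ⟨by show ZZ X (I' (j + M')) = ZZ X (I' j); rw [hj2],
    ⟨DZ (I' j), fun F hF => hF.1, fun p => Iff.rfl⟩,
    ZZ_nonempty (I' j) hj3 hA hB hX, hirr,
    ZZ_map (I' j) (I' (j + 1)) hj3 hA hB hX Φ hΦX Ψ hΨ hj4 hΦ,
    ZZ_dominant (I' j) (I' (j + 1)) hj3 hA hB hX Φ Ψ hΨ hj4, ?_, ?_, ?_⟩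
  · rintro C hC ⟨y, hy, F, hF, hne⟩
    have h1 : F ∉ DZ (I' j) := fun h => hne (hy.2 F h)
    refine (hj5 F (hC F hF) h1).mono ?_
    intro k hk
    have h2 : n₀ + M * k₀ + j + M' * k = n₀ + (M * k₀ + (j + M' * k)) := by ring
    have h3 := hk F hF
    rw [h2] at h3
    exact h3
  · intro hsub k
    have h1 : ZZ X (I j) ⊆ Y := by
      rw [hw]
      exact Set.singleton_subset_iff.mpr (hsub (hwZ j))
    have h2 := (hcl j).2.2.2.2.2.2 h1 (k₀ + s * k)
    have h3 : n₀ + j + M * (k₀ + s * k) = n₀ + M * k₀ + j + M' * k := by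
      rw [hs]
      ring
    rw [h3, hw, Set.mem_singleton_iff] at h2
    rw [h2]
    exact hwZ j
  · by_cases hZinf : (ZZ X (I' j)).Infinite
    · exact Or.inl hZinf
    have hZfin : (ZZ X (I' j)).Finite := Set.not_infinite.mp hZinf
    refine Or.inr ⟨w j, finite_irreducible hZfin (hwZ j) hirr, fun _ => ?_⟩
    -- faster than exponential convergence
    obtain ⟨P₀, ⟨dP, hP₀d⟩, hP₀T, hP₀w⟩ := exists_form (hZfin.toFinset.erase (w j)) (w := w j)
      (by simp)
    have hsm : ∀ a, Small (fun t => nv σ (c j) (q (j + M' * t)) a - nv σ (c j) (w j) a) := by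
      intro a
      have h1 : lin (w j) a (c j) * P₀ ∈ DZ (I' j) := by
        rw [mem_DZ_iff (I' j) hj3 hA hB hX _ ⟨_, (lin_hom _ _ _).mul hP₀d⟩]
        intro y hy
        rw [map_mul]
        by_cases hyw : y = w j
        · subst hyw
          rw [eval_lin_self, zero_mul]
        · rw [hP₀T y (by simp [hyw, hy]), mul_zero]
      have h2 := (hj6 _ h1.1).mp h1
      have h3 := tendsto_class hθ0 hθ1 (hconvt j) (map σ P₀)
      have h4 : eval (nv σ (c j) (w j)) (map σ P₀) ≠ 0 := by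
        rw [eval_nv, Ne, map_eq_zero, eval_nrep_zero_iff (hcw j) ⟨dP, hP₀d⟩]
        exact hP₀w
      have h5 : ∀ᶠ t in atTop, ‖eval (nv σ (c j) (w j)) (map σ P₀)‖ / 2 <
          ‖eval (nv σ (c j) (q (j + M' * t))) (map σ P₀)‖ := by
        have h6 : ‖eval (nv σ (c j) (w j)) (map σ P₀)‖ / 2 <
            ‖eval (nv σ (c j) (w j)) (map σ P₀)‖ := by
          have := norm_pos_iff.mpr h4
          linarith
        exact h3.norm.eventually_const_lt h6
      obtain ⟨t₁, ht₁⟩ := eventually_atTop.mp h5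
      set κ := ‖eval (nv σ (c j) (w j)) (map σ P₀)‖ / 2 with hκ
      have hκ0 : 0 < κ := by
        have := norm_pos_iff.mpr h4
        positivity
      have hs0 : σ ((w j).rep (c j)) ≠ 0 := by
        rw [Ne, map_eq_zero]
        exact hcw j
      refine h2.of_le_tail (K := (‖σ ((w j).rep (c j))‖ * κ)⁻¹) (t₁ := t₁) fun t ht => ?_
      have h7 : eval (nv σ (c j) (q (j + M' * t))) (map σ (lin (w j) a (c j) * P₀)) =
          (nv σ (c j) (q (j + M' * t)) a - nv σ (c j) (w j) a) * σ ((w j).rep (c j)) *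
            eval (nv σ (c j) (q (j + M' * t))) (map σ P₀) := by
        rw [map_mul, map_mul]
        congr 1
        simp only [lin, map_sub, map_mul, map_X, map_C, eval_X, eval_C]
        rw [nv_self σ (hcqt j t)]
        have h8 : σ ((w j).rep a) = nv σ (c j) (w j) a * σ ((w j).rep (c j)) := by
          rw [nv, nrep, map_div₀, div_mul_cancel₀ _ hs0]
        rw [h8]
        ring
      rw [h7, norm_mul, norm_mul]
      have h9 := (ht₁ t ht).le
      rw [le_inv_mul_iff₀ (mul_pos (norm_pos_iff.mpr hs0) hκ0)]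
      calc ‖σ ((w j).rep (c j))‖ * κ *
            ‖nv σ (c j) (q (j + M' * t)) a - nv σ (c j) (w j) a‖ =
          ‖nv σ (c j) (q (j + M' * t)) a - nv σ (c j) (w j) a‖ *
            ‖σ ((w j).rep (c j))‖ * κ := by ring
        _ ≤ _ := by gcongr
    -- uniform lower bounds
    choose K ε hε hK0 hKε using fun r => unram_lower σ X Φ (w r) (hwX r) (hram r) (c r) (c (r + 1))
      (hcw r) (by rw [hΦw]; exact hcw (r + 1))
    obtain ⟨e, he, hmin⟩ := exists_min_pos ε hε M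
    set K' : ℝ := 1 + ∑ r ∈ Finset.range M, K r with hK'
    have hK'1 : 1 ≤ K' := by
      have : 0 ≤ ∑ r ∈ Finset.range M, K r := Finset.sum_nonneg fun r _ => hK0 r
      linarith
    let h : ℕ → Fin (N + 1) → PadicAlgCl p := fun i => nv σ (c i) (q i) - nv σ (c i) (w i)
    have hnorm : ∀ i, ‖h i‖ ≤ Cv * θ ^ i := by
      intro i
      rw [pi_norm_le_iff_of_nonneg (by positivity)]
      exact fun a => hconvq i a
    obtain ⟨i₂, hi₂⟩ : ∃ i₂, ∀ i, i₂ ≤ i → ‖h i‖ ≤ e := by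
      obtain ⟨m, hm⟩ := exists_pow_lt_of_lt_one (show 0 < e / (Cv + 1) by positivity) hθ1
      refine ⟨m, fun i hi => (hnorm i).trans ?_⟩
      have h1 : θ ^ i ≤ θ ^ m := pow_le_pow_of_le_one hθ0.le hθ1.le hi
      rw [lt_div_iff₀ (by positivity)] at hm
      have h2 : 0 ≤ θ ^ m := by positivity
      nlinarith
    have hstep : ∀ i, i₂ ≤ i → ‖h i‖ ≤ K' * ‖h (i + 1)‖ := by
      intro i hi
      have hr : i % M < M := Nat.mod_lt _ (by omega)
      have e1 : c (i % M) = c i := mod_of_periodic hcM i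
      have e2 : w (i % M) = w i := mod_of_periodic hwM i
      have e3 : c (i % M + 1) = c (i + 1) := by
        have := mod_of_periodic (f := fun j => c (j + 1)) (M := M) (fun j => by
          have e : j + M + 1 = j + 1 + M := by ring
          simp only [e, hcM]) i
        exact this
      have h1 := hKε (i % M) (q i) (hqX i) (by rw [e1]; exact hcq i)
        (by rw [e3, hΦq]; exact hcq (i + 1)) (by
          rw [e1, e2]
          exact (hi₂ i hi).trans (hmin _ hr))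
      rw [e1, e2, e3, hΦq, hΦw] at h1
      refine h1.trans ?_
      have h2 : K (i % M) ≤ K' := by
        have := Finset.single_le_sum (f := K) (fun r _ => hK0 r) (Finset.mem_range.mpr hr)
        linarith
      exact mul_le_mul_of_nonneg_right h2 (norm_nonneg _)
    have hsteps : ∀ n i, i₂ ≤ i → ‖h i‖ ≤ K' ^ n * ‖h (i + n)‖ := by
      intro n
      induction n with
      | zero => intro i _; simp
      | succ n ih =>
        intro i hi
        refine (ih i hi).trans ?_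
        rw [pow_succ, mul_assoc]
        have := hstep (i + n) (by omega)
        rw [← add_assoc]
        gcongr
    -- the orbit reaches the cycle
    set ρ : ℝ := 1 / (2 * K' ^ M') with hρ
    have hρ0 : 0 < ρ := by positivity
    choose C hC using fun a => hsm a ρ hρ0
    have hCt : ∀ t, ‖h (j + M' * t)‖ ≤ (∑ a, |C a|) * ρ ^ t := by
      intro t
      have : 0 ≤ ∑ a, |C a| := Finset.sum_nonneg fun _ _ => abs_nonneg _
      rw [pi_norm_le_iff_of_nonneg (by positivity)]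
      intro a
      have h1 : h (j + M' * t) a = nv σ (c j) (q (j + M' * t)) a - nv σ (c j) (w j) a := by
        simp only [h, Pi.sub_apply]
        rw [hcM', hwM']
      rw [h1]
      refine (hC a t).trans ?_
      gcongr
      exact (le_abs_self _).trans (Finset.single_le_sum (f := fun a => |C a|)
        (fun _ _ => abs_nonneg _) (Finset.mem_univ a))
    have hzero : ‖h (j + M' * i₂)‖ = 0 := by
      have hle : i₂ ≤ j + M' * i₂ := by
        calc i₂ ≤ M' * i₂ := Nat.le_mul_of_pos_left _ hM'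
          _ ≤ _ := Nat.le_add_left _ _
      have h1 : ∀ s', ‖h (j + M' * i₂)‖ ≤ ((∑ a, |C a|) * ρ ^ i₂) * (1 / 2) ^ s' := by
        intro s'
        have h2 := hsteps (M' * s') (j + M' * i₂) hle
        have h3 := hCt (i₂ + s')
        have h4 : j + M' * i₂ + M' * s' = j + M' * (i₂ + s') := by ring
        rw [h4] at h2
        refine h2.trans ?_
        calc K' ^ (M' * s') * ‖h (j + M' * (i₂ + s'))‖ ≤
              K' ^ (M' * s') * ((∑ a, |C a|) * ρ ^ (i₂ + s')) := by gcongr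
          _ = _ := by
            have h5 : K' ^ (M' * s') * ρ ^ s' = (1 / 2) ^ s' := by
              rw [pow_mul, ← mul_pow, hρ]
              congr 1
              field_simp
            rw [pow_add, ← h5]
            ring
      have h2 : Tendsto (fun s' : ℕ => ((∑ a, |C a|) * ρ ^ i₂) * (1 / 2 : ℝ) ^ s') atTop (𝓝 0) := by
        have := (tendsto_pow_atTop_nhds_zero_of_lt_one (r := (1 / 2 : ℝ)) (by norm_num)
          (by norm_num)).const_mul ((∑ a, |C a|) * ρ ^ i₂)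
        rwa [mul_zero] at this
      exact le_antisymm (ge_of_tendsto' h2 h1) (norm_nonneg _)
    refine ⟨i₂, ?_⟩
    have hidx : n₀ + M * k₀ + j + M' * i₂ = n₀ + (M * k₀ + (j + M' * i₂)) := by ring
    rw [hidx]
    change q (j + M' * i₂) = w j
    apply eq_of_nv σ (hcw j) (hcqt j i₂)
    have h1 : h (j + M' * i₂) = 0 := norm_eq_zero.mp hzero
    have h2 : nv σ (c (j + M' * i₂)) (q (j + M' * i₂)) -
      nv σ (c (j + M' * i₂)) (w (j + M' * i₂)) = 0 := h1
    rw [hcM', hwM'] at h2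
    exact sub_eq_zero.mp h2

end

end Pool.Agent.Helper86.DML
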