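import Mathlib
import Pool.Agent.Helper86.DML.EPDich

/-!
# Orbits tending to a fixed point faster than exponentially converge super-exponentially
-/

namespace Pool.Agent.Helper86.DML

open Filter Topology

noncomputable section

section

variable {Ω : Type*} [NormedField Ω] {n : Type*} [Fintype n] [DecidableEq n]

/-- a bound for the operator norm -/
def mnorm (A : Matrix n n Ω) : ℝ := ∑ i, ∑ j, ‖A i j‖

omit [DecidableEq n] in
lemma mnorm_nonneg (A : Matrix n n Ω) : 0 ≤ mnorm A :=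
  Finset.sum_nonneg fun _ _ => Finset.sum_nonneg fun _ _ => norm_nonneg _

omit [DecidableEq n] in
lemma mulVec_le (A : Matrix n n Ω) (x : n → Ω) : ‖A.mulVec x‖ ≤ mnorm A * ‖x‖ := by
  rw [pi_norm_le_iff_of_nonneg (mul_nonneg (mnorm_nonneg A) (norm_nonneg _))]
  intro i
  calc ‖A.mulVec x i‖ ≤ ∑ j, ‖A i j‖ * ‖x‖ := by
        rw [Matrix.mulVec, dotProduct]
        refine (norm_sum_le _ _).trans (Finset.sum_le_sum fun j _ => ?_)
        rw [norm_mul]
        gcongr
        exact norm_le_pi_norm x j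
    _ = (∑ j, ‖A i j‖) * ‖x‖ := by rw [Finset.sum_mul]
    _ ≤ mnorm A * ‖x‖ := by
        gcongr
        exact Finset.single_le_sum (f := fun i => ∑ j, ‖A i j‖)
          (fun _ _ => Finset.sum_nonneg fun _ _ => norm_nonneg _) (Finset.mem_univ i)

/-- on the image of a high power the matrix is invertible -/
lemma exists_pow_inv (A : Matrix n n Ω) : ∃ (m : ℕ) (B : Matrix n n Ω), 1 ≤ m ∧
    B * A ^ (2 * m) = A ^ m := by
  have hχ0 : A.charpoly ≠ 0 := A.charpoly_monic.ne_zero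
  obtain ⟨g, hg1, hg2⟩ := Polynomial.exists_eq_pow_rootMultiplicity_mul_and_not_dvd
    A.charpoly hχ0 0
  set e := A.charpoly.rootMultiplicity 0 with he
  rw [Polynomial.C_0, sub_zero] at hg1 hg2
  have hg0 : g.coeff 0 ≠ 0 := fun h => hg2 (Polynomial.X_dvd_iff.mpr h)
  have h1 : A ^ e * Polynomial.aeval A g = 0 := by
    have := Matrix.aeval_self_charpoly A
    rw [hg1, map_mul, map_pow, Polynomial.aeval_X] at this
    exact this
  -- `g = g(0) + X g'`
  have h2 : g = Polynomial.C (g.coeff 0) + Polynomial.X * g.divX := by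
    conv_lhs => rw [← Polynomial.divX_mul_X_add g]
    ring
  set H : Matrix n n Ω := (-(g.coeff 0)⁻¹) • Polynomial.aeval A g.divX with hH
  have hcomm : A * H = H * A := by
    rw [hH, Matrix.mul_smul, Matrix.smul_mul]
    congr 1
    have h3 : Polynomial.aeval A (Polynomial.X * g.divX) = A * Polynomial.aeval A g.divX := by
      rw [map_mul, Polynomial.aeval_X]
    have h4 : Polynomial.aeval A (g.divX * Polynomial.X) = Polynomial.aeval A g.divX * A := by
      rw [map_mul, Polynomial.aeval_X]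
    rw [← h3, ← h4, mul_comm]
  have h4 : A ^ e = A ^ e * (A * H) := by
    rw [h2, map_add, map_mul, Polynomial.aeval_X, Polynomial.aeval_C, mul_add] at h1
    rw [hH, Matrix.mul_smul, Matrix.mul_smul]
    have h5 : A ^ e * (A * Polynomial.aeval A g.divX) =
        -((g.coeff 0) • A ^ e) := by
      have h6 : A ^ e * (algebraMap Ω (Matrix n n Ω)) (g.coeff 0) = (g.coeff 0) • A ^ e := by
        rw [← Algebra.commutes, Algebra.smul_def]
      rw [h6] at h1
      exact eq_neg_of_add_eq_zero_right h1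
    rw [h5, smul_neg, smul_smul, neg_mul, inv_mul_cancel₀ hg0, neg_smul, one_smul, neg_neg]
  have h5 : ∀ k, A ^ e = A ^ e * (A * H) ^ k := by
    intro k
    induction k with
    | zero => rw [pow_zero, mul_one]
    | succ k ih => rw [pow_succ, ← mul_assoc, ← ih, ← h4]
  have hc : Commute A H := hcomm
  refine ⟨e + 1, H ^ (e + 1), by omega, ?_⟩
  have h6 : A ^ (e + 1) = A ^ (e + 1) * (A * H) ^ (e + 1) := by
    calc A ^ (e + 1) = A * A ^ e := pow_succ' A e
      _ = A * (A ^ e * (A * H) ^ (e + 1)) := by rw [← h5 (e + 1)]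
      _ = _ := by rw [← mul_assoc, ← pow_succ']
  rw [hc.mul_pow] at h6
  calc H ^ (e + 1) * A ^ (2 * (e + 1)) = H ^ (e + 1) * (A ^ (e + 1) * A ^ (e + 1)) := by
        rw [← pow_add]
        congr 2
        ring
    _ = A ^ (e + 1) * (A ^ (e + 1) * H ^ (e + 1)) := by
        have h7 : Commute (A ^ (e + 1)) (H ^ (e + 1)) := (hc.pow_pow _ _)
        rw [← mul_assoc, ← h7.eq, mul_assoc, ← h7.eq]
    _ = A ^ (e + 1) := h6.symm

/-- the cone argument -/
theorem cone {δ : ℕ → n → Ω} (A : Matrix n n Ω) {C : ℝ}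
    (hrec : ∀ k, ‖δ (k + 1) - A.mulVec (δ k)‖ ≤ C * ‖δ k‖ ^ 2)
    (hlim : Tendsto (fun k => ‖δ k‖) atTop (𝓝 0))
    (hsm : ∀ ρ : ℝ, 0 < ρ → ∃ C : ℝ, ∀ k, ‖δ k‖ ≤ C * ρ ^ k) :
    ∃ m k₀ : ℕ, 1 ≤ m ∧ ∀ k, ‖δ (k₀ + k)‖ ≤ (1 / 2 : ℝ) ^ (2 ^ (k / m)) := by
  obtain ⟨m, B, hm, hB⟩ := exists_pow_inv A
  have hC0 : 0 ≤ |C| := abs_nonneg C
  obtain ⟨k₀, hk₀⟩ : ∃ k₀, ∀ k, k₀ ≤ k → ‖δ k‖ ≤ 1 := by
    have := hlim.eventually (ge_mem_nhds (show (0 : ℝ) < 1 by norm_num))
    exact eventually_atTop.mp this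
  -- several steps
  have hsteps : ∀ s, ∃ K : ℝ, 0 ≤ K ∧ ∀ k, k₀ ≤ k →
      ‖δ (k + s) - (A ^ s).mulVec (δ k)‖ ≤ K * ‖δ k‖ ^ 2 := by
    intro s
    induction s with
    | zero =>
      refine ⟨0, le_rfl, fun k _ => ?_⟩
      simp
    | succ s ih =>
      obtain ⟨K, hK0, hK⟩ := ih
      refine ⟨mnorm A * K + |C| * (K + mnorm (A ^ s)) ^ 2, by
        have := mnorm_nonneg A
        positivity, fun k hk => ?_⟩
      have h1 : ‖δ (k + s)‖ ≤ (K + mnorm (A ^ s)) * ‖δ k‖ := by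
        have e1 : δ (k + s) = (δ (k + s) - (A ^ s).mulVec (δ k)) + (A ^ s).mulVec (δ k) := by abel
        calc ‖δ (k + s)‖ ≤ ‖δ (k + s) - (A ^ s).mulVec (δ k)‖ + ‖(A ^ s).mulVec (δ k)‖ := by
              conv_lhs => rw [e1]
              exact norm_add_le _ _
          _ ≤ K * ‖δ k‖ ^ 2 + mnorm (A ^ s) * ‖δ k‖ := add_le_add (hK k hk) (mulVec_le _ _)
          _ ≤ K * ‖δ k‖ + mnorm (A ^ s) * ‖δ k‖ := by
              gcongr
              have := hk₀ k hk
              have h0 := norm_nonneg (δ k)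
              nlinarith
          _ = _ := by ring
      have e2 : δ (k + (s + 1)) - (A ^ (s + 1)).mulVec (δ k) =
          (δ (k + s + 1) - A.mulVec (δ (k + s))) +
            A.mulVec (δ (k + s) - (A ^ s).mulVec (δ k)) := by
        rw [pow_succ', ← Matrix.mulVec_mulVec, Matrix.mulVec_sub]
        have : k + (s + 1) = k + s + 1 := by ring
        rw [this]
        abel
      rw [e2]
      refine (norm_add_le _ _).trans ?_
      calc ‖δ (k + s + 1) - A.mulVec (δ (k + s))‖ +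
            ‖A.mulVec (δ (k + s) - (A ^ s).mulVec (δ k))‖ ≤
            |C| * ((K + mnorm (A ^ s)) * ‖δ k‖) ^ 2 + mnorm A * (K * ‖δ k‖ ^ 2) := by
            refine add_le_add ?_ ?_
            · refine (hrec (k + s)).trans ?_
              have : C * ‖δ (k + s)‖ ^ 2 ≤ |C| * ‖δ (k + s)‖ ^ 2 := by
                gcongr
                exact le_abs_self C
              refine this.trans ?_
              gcongr
            · exact (mulVec_le _ _).trans (by
                have := mnorm_nonneg A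
                gcongr
                exact hK k hk)
        _ = _ := by ring
  obtain ⟨K₁, hK₁0, hK₁⟩ := hsteps m
  -- the constants
  set b := mnorm B + 1 with hb
  have hb0 : 0 < b := by have := mnorm_nonneg B; linarith
  set c := 1 / b with hc
  have hc0 : 0 < c := by positivity
  set C' := mnorm (A ^ m) * K₁ with hC'
  have hC'0 : 0 ≤ C' := mul_nonneg (mnorm_nonneg _) hK₁0
  set K := 2 * C' / c + 1 with hK
  have hKpos : 0 < K := by positivity
  let v : ℕ → n → Ω := fun k => (A ^ m).mulVec (δ k)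
  have hv1 : ∀ k, k₀ ≤ k → c * ‖v k‖ - C' * ‖δ k‖ ^ 2 ≤ ‖v (k + m)‖ := by
    intro k hk
    have e1 : (A ^ m).mulVec (δ k) = B.mulVec ((A ^ (2 * m)).mulVec (δ k)) := by
      rw [Matrix.mulVec_mulVec, hB]
    have h1 : ‖v k‖ ≤ b * ‖(A ^ (2 * m)).mulVec (δ k)‖ := by
      change ‖(A ^ m).mulVec (δ k)‖ ≤ _
      rw [e1]
      refine (mulVec_le _ _).trans ?_
      gcongr
      linarith
    have h2 : (A ^ (2 * m)).mulVec (δ k) = v (k + m) -
        (A ^ m).mulVec (δ (k + m) - (A ^ m).mulVec (δ k)) := by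
      simp only [v]
      rw [Matrix.mulVec_sub, Matrix.mulVec_mulVec, ← pow_add]
      have : m + m = 2 * m := by ring
      rw [this]
      abel
    have h3 : ‖(A ^ (2 * m)).mulVec (δ k)‖ ≤ ‖v (k + m)‖ + C' * ‖δ k‖ ^ 2 := by
      rw [h2]
      refine (norm_sub_le _ _).trans ?_
      gcongr
      refine (mulVec_le _ _).trans ?_
      rw [hC', mul_assoc]
      have := mnorm_nonneg (A ^ m)
      gcongr
      exact hK₁ k hk
    have h4 : c * ‖v k‖ ≤ ‖(A ^ (2 * m)).mulVec (δ k)‖ := by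
      rw [hc, one_div, inv_mul_le_iff₀ hb0]
      exact h1
    linarith
  have hv2 : ∀ k, k₀ ≤ k → ‖δ (k + m)‖ ≤ ‖v k‖ + K₁ * ‖δ k‖ ^ 2 := by
    intro k hk
    have e1 : δ (k + m) = v k + (δ (k + m) - (A ^ m).mulVec (δ k)) := by
      simp only [v]
      abel
    calc ‖δ (k + m)‖ ≤ ‖v k‖ + ‖δ (k + m) - (A ^ m).mulVec (δ k)‖ := by
          conv_lhs => rw [e1]
          exact norm_add_le _ _
      _ ≤ _ := by
          gcongr
          exact hK₁ k hk
  set C'' := 2 * (1 + K₁ / K) / c with hC''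
  have hC''0 : 0 < C'' := by positivity
  obtain ⟨k₁, hk₁⟩ : ∃ k₁, ∀ k, k₁ ≤ k → ‖δ k‖ < 1 / (K * C'') := by
    have := hlim.eventually (gt_mem_nhds (show (0 : ℝ) < 1 / (K * C'') by positivity))
    exact eventually_atTop.mp this
  -- inside the cone the decay is only exponential
  have hcone : ∀ k, max k₀ k₁ ≤ k → K * ‖δ k‖ ^ 2 < ‖v k‖ →
      K * ‖δ (k + m)‖ ^ 2 < ‖v (k + m)‖ ∧ c / 2 * ‖v k‖ ≤ ‖v (k + m)‖ := by
    intro k hk hlt
    have hk0 : k₀ ≤ k := le_trans (le_max_left _ _) hk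
    have hk1 : k₁ ≤ k + m := le_trans (le_trans (le_max_right _ _) hk) (Nat.le_add_right _ _)
    have hvpos : 0 < ‖v k‖ := lt_of_le_of_lt (by positivity) hlt
    have h1 : C' * ‖δ k‖ ^ 2 ≤ c / 2 * ‖v k‖ := by
      have e1 : C' ≤ c / 2 * K := by
        rw [hK, mul_add]
        have : c / 2 * (2 * C' / c) = C' := by field_simp
        rw [this]
        have : 0 ≤ c / 2 * 1 := by positivity
        linarith
      calc C' * ‖δ k‖ ^ 2 ≤ (c / 2 * K) * ‖δ k‖ ^ 2 := by gcongr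
        _ = c / 2 * (K * ‖δ k‖ ^ 2) := by ring
        _ ≤ _ := by gcongr
    have h2 : c / 2 * ‖v k‖ ≤ ‖v (k + m)‖ := by
      have := hv1 k hk0
      linarith
    have h3 : ‖δ (k + m)‖ ≤ (1 + K₁ / K) * ‖v k‖ := by
      refine (hv2 k hk0).trans ?_
      have e1 : K₁ * ‖δ k‖ ^ 2 ≤ K₁ / K * ‖v k‖ := by
        calc K₁ * ‖δ k‖ ^ 2 = K₁ / K * (K * ‖δ k‖ ^ 2) := by field_simp
          _ ≤ _ := by gcongr
      linarith
    have h4 : ‖δ (k + m)‖ ≤ C'' * ‖v (k + m)‖ := by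
      calc ‖δ (k + m)‖ ≤ (1 + K₁ / K) * ‖v k‖ := h3
        _ = C'' * (c / 2 * ‖v k‖) := by rw [hC'']; field_simp
        _ ≤ _ := by gcongr
    refine ⟨?_, h2⟩
    have hvpos' : 0 < ‖v (k + m)‖ := lt_of_lt_of_le (by positivity) h2
    by_cases hδ0 : ‖δ (k + m)‖ = 0
    · rw [hδ0]
      simpa using hvpos'
    · have hδpos : 0 < ‖δ (k + m)‖ := lt_of_le_of_ne (norm_nonneg _) (Ne.symm hδ0)
      have h5 := hk₁ (k + m) hk1
      rw [lt_div_iff₀ (by positivity)] at h5
      have h6 : C'' * (K * ‖δ (k + m)‖ ^ 2) < C'' * ‖v (k + m)‖ := by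
        calc C'' * (K * ‖δ (k + m)‖ ^ 2) = (‖δ (k + m)‖ * (K * C'')) * ‖δ (k + m)‖ := by ring
          _ < 1 * ‖δ (k + m)‖ := by gcongr
          _ = ‖δ (k + m)‖ := one_mul _
          _ ≤ _ := h4
      exact lt_of_mul_lt_mul_left h6 hC''0.le
  -- hence the orbit is outside the cone
  have hout : ∀ k, max k₀ k₁ ≤ k → ‖v k‖ ≤ K * ‖δ k‖ ^ 2 := by
    intro k hk
    by_contra hcon
    push Not at hcon
    have hind : ∀ t, K * ‖δ (k + m * t)‖ ^ 2 < ‖v (k + m * t)‖ ∧
        (c / 2) ^ t * ‖v k‖ ≤ ‖v (k + m * t)‖ := by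
      intro t
      induction t with
      | zero => exact ⟨by simpa using hcon, by simp⟩
      | succ t ih =>
        have e : k + m * (t + 1) = k + m * t + m := by ring
        obtain ⟨h1, h2⟩ := hcone (k + m * t) (by omega) ih.1
        rw [e]
        refine ⟨h1, le_trans ?_ h2⟩
        rw [pow_succ']
        calc c / 2 * (c / 2) ^ t * ‖v k‖ = c / 2 * ((c / 2) ^ t * ‖v k‖) := by ring
          _ ≤ _ := by gcongr; exact ih.2
    have hvpos : 0 < ‖v k‖ := lt_of_le_of_lt (by positivity) hcon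
    -- a small exponential rate
    set ρ := min 1 (c / 4) with hρ
    have hρ0 : 0 < ρ := by positivity
    obtain ⟨C₃, hC₃⟩ := hsm ρ hρ0
    have h1 : ∀ t : ℕ, ‖v k‖ ≤ (mnorm (A ^ m) * |C₃|) * (1 / 2) ^ t := by
      intro t
      have h2 := (hind t).2
      have h3 : ‖v (k + m * t)‖ ≤ mnorm (A ^ m) * (|C₃| * ρ ^ t) := by
        refine (mulVec_le _ _).trans ?_
        have := mnorm_nonneg (A ^ m)
        gcongr
        refine (hC₃ _).trans ?_
        have e1 : ρ ^ (k + m * t) ≤ ρ ^ t := by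
          apply pow_le_pow_of_le_one hρ0.le (min_le_left _ _)
          calc t ≤ m * t := Nat.le_mul_of_pos_left _ hm
            _ ≤ _ := Nat.le_add_left _ _
        calc C₃ * ρ ^ (k + m * t) ≤ |C₃| * ρ ^ (k + m * t) := by
              gcongr
              exact le_abs_self _
          _ ≤ _ := by gcongr
      have h4 : ρ ^ t ≤ (c / 2) ^ t * (1 / 2) ^ t := by
        rw [← mul_pow]
        apply pow_le_pow_left₀ hρ0.le
        refine (min_le_right _ _).trans ?_
        linarith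
      have h5 : (c / 2) ^ t * ‖v k‖ ≤ (c / 2) ^ t * ((mnorm (A ^ m) * |C₃|) * (1 / 2) ^ t) := by
        calc (c / 2) ^ t * ‖v k‖ ≤ ‖v (k + m * t)‖ := h2
          _ ≤ mnorm (A ^ m) * (|C₃| * ρ ^ t) := h3
          _ ≤ mnorm (A ^ m) * (|C₃| * ((c / 2) ^ t * (1 / 2) ^ t)) := by
              have := mnorm_nonneg (A ^ m)
              gcongr
          _ = _ := by ring
      exact le_of_mul_le_mul_left h5 (by positivity)
    have h2 : Tendsto (fun t : ℕ => (mnorm (A ^ m) * |C₃|) * (1 / 2 : ℝ) ^ t) atTop (𝓝 0) := by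
      have := (tendsto_pow_atTop_nhds_zero_of_lt_one (r := (1 / 2 : ℝ)) (by norm_num)
        (by norm_num)).const_mul (mnorm (A ^ m) * |C₃|)
      rwa [mul_zero] at this
    exact absurd (ge_of_tendsto' h2 h1) (not_le.mpr hvpos)
  -- super-exponential convergence
  set K₂ := K + K₁ + 1 with hK₂
  have hK₂1 : 1 ≤ K₂ := by linarith
  have hquad : ∀ k, max k₀ k₁ ≤ k → ‖δ (k + m)‖ ≤ K₂ * ‖δ k‖ ^ 2 := by
    intro k hk
    refine (hv2 k (le_trans (le_max_left _ _) hk)).trans ?_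
    have := hout k hk
    have h0 : 0 ≤ ‖δ k‖ ^ 2 := by positivity
    calc ‖v k‖ + K₁ * ‖δ k‖ ^ 2 ≤ K * ‖δ k‖ ^ 2 + K₁ * ‖δ k‖ ^ 2 := by linarith
      _ ≤ _ := by rw [hK₂]; nlinarith
  obtain ⟨k₂, hk₂⟩ : ∃ k₂, ∀ k, k₂ ≤ k → ‖δ k‖ < 1 / (2 * K₂) := by
    have := hlim.eventually (gt_mem_nhds (show (0 : ℝ) < 1 / (2 * K₂) by positivity))
    exact eventually_atTop.mp this
  have hfin : ∀ t k, max (max k₀ k₁) k₂ ≤ k → K₂ * ‖δ (k + m * t)‖ ≤ (1 / 2 : ℝ) ^ (2 ^ t) := by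
    intro t
    induction t with
    | zero =>
      intro k hk
      have h1 := hk₂ k (le_trans (le_max_right _ _) hk)
      rw [lt_div_iff₀ (by positivity)] at h1
      simp only [mul_zero, add_zero, pow_zero, pow_one]
      linarith
    | succ t ih =>
      intro k hk
      have e : k + m * (t + 1) = k + m * t + m := by ring
      have h1 := hquad (k + m * t) (by omega)
      have h2 := ih k hk
      rw [e, pow_succ, pow_mul]
      calc K₂ * ‖δ (k + m * t + m)‖ ≤ K₂ * (K₂ * ‖δ (k + m * t)‖ ^ 2) := by gcongr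
        _ = (K₂ * ‖δ (k + m * t)‖) ^ 2 := by ring
        _ ≤ _ := by gcongr
  refine ⟨m, max (max k₀ k₁) k₂, hm, fun k => ?_⟩
  have h1 := hfin (k / m) (max (max k₀ k₁) k₂ + k % m) (Nat.le_add_right _ _)
  have h2 : max (max k₀ k₁) k₂ + k % m + m * (k / m) = max (max k₀ k₁) k₂ + k := by
    have := Nat.mod_add_div k m
    omega
  rw [h2] at h1
  calc ‖δ (max (max k₀ k₁) k₂ + k)‖ = 1 * ‖δ (max (max k₀ k₁) k₂ + k)‖ := (one_mul _).symm
    _ ≤ K₂ * ‖δ (max (max k₀ k₁) k₂ + k)‖ := by gcongr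
    _ ≤ _ := h1

end

end

end Pool.Agent.Helper86.DML
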