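import Mathlib
import Pool.Agent.Helper86.DML.Lower
import Pool.Agent.Helper86.DML.Cone

/-!
# First order expansion of the map in normalised coordinates, and its iterates
-/

namespace Pool.Agent.Helper86.DML

open MvPolynomial Filter Topology

noncomputable section

variable {N : ℕ}

/-- the map is regular at `y` -/
def RegAt (X : Set (PP N)) (Φ : PP N → PP N) (y : PP N) : Prop :=
  ∃ (d e : ℕ) (F : Fin (N + 1) → MvPolynomial (Fin (N + 1)) ℂ)
    (g : MvPolynomial (Fin (N + 1)) ℂ),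
    (∀ i, (F i).IsHomogeneous d) ∧ g.IsHomogeneous e ∧ eval y.rep g ≠ 0 ∧
    ∀ x ∈ X, eval x.rep g ≠ 0 →
      (fun i : Fin (N + 1) => eval x.rep (F i)) ≠ 0 ∧
      (fun i : Fin (N + 1) => eval x.rep (F i)) ∈ (Φ x).submodule

section Step

variable {Ω : Type*} [NormedField Ω] (σ : ℂ →+* Ω)

/-- the first order expansion of the map in normalised coordinates -/
theorem step_taylor (X : Set (PP N)) (Φ : PP N → PP N) (w : PP N) (hw : w ∈ X)
    (hreg : RegAt X Φ w) (c c' : Fin (N + 1)) (hc : w.rep c ≠ 0) (hc' : (Φ w).rep c' ≠ 0) :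
    ∃ (A : Matrix (Fin (N + 1)) (Fin (N + 1)) Ω) (C ε : ℝ), 0 < ε ∧ 0 ≤ C ∧ ∀ q ∈ X,
      q.rep c ≠ 0 → (Φ q).rep c' ≠ 0 → ‖nv σ c q - nv σ c w‖ ≤ ε →
      ‖(nv σ c' (Φ q) - nv σ c' (Φ w)) - A.mulVec (nv σ c q - nv σ c w)‖ ≤
        C * ‖nv σ c q - nv σ c w‖ ^ 2 := by
  classical
  obtain ⟨d, e, F, g, hFd, hge, hgw, hloc⟩ := hreg
  set v := nv σ c w with hv
  set y₀ := nv σ c' (Φ w) with hy₀
  let G : Fin (N + 1) → MvPolynomial (Fin (N + 1)) Ω := fun b => map σ (g * F b)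
  set s := eval v (G c') with hs
  have hs0 : s ≠ 0 := by
    rw [hs, hv, eval_nv, Ne, map_eq_zero, map_mul, mul_eq_zero, not_or]
    refine ⟨fun h => hgw ((eval_nrep_zero_iff hc ⟨e, hge⟩).mp h), fun h => ?_⟩
    have h1 : eval w.rep (F c') = 0 := (eval_nrep_zero_iff hc ⟨d, hFd c'⟩).mp h
    obtain ⟨h2, h3⟩ := hloc w hw hgw
    apply h2
    funext b
    have h4 := line_nrep hc' h3 b
    rw [h1, zero_mul] at h4
    exact h4
  have hmap : ∀ (x : PP N), x ∈ X → (Φ x).rep c' ≠ 0 → ∀ b,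
      eval (nv σ c x) (G b) = eval (nv σ c x) (G c') * nv σ c' (Φ x) b := by
    intro x hx hxc' b
    simp only [G]
    rw [eval_nv, eval_nv, nrep_map hFd hge hloc hx c c' hxc' b, map_mul, nv]
  choose T hT0 hT using fun b => taylor_norm v (G b)
  choose Dc hD0 hD using fun b => dirDeriv_bound v (G b)
  set Y : ℝ := ‖y₀‖ with hY
  have hY0 : 0 ≤ Y := norm_nonneg _
  set TT : ℝ := ∑ b, T b with hTT
  set DD : ℝ := ∑ b, Dc b with hDD
  have hTT0 : 0 ≤ TT := Finset.sum_nonneg fun b _ => hT0 b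
  have hDD0 : 0 ≤ DD := Finset.sum_nonneg fun b _ => hD0 b
  have hTle : ∀ b, T b ≤ TT := fun b => Finset.single_le_sum (f := T) (fun b _ => hT0 b)
    (Finset.mem_univ b)
  have hDle : ∀ b, Dc b ≤ DD := fun b => Finset.single_le_sum (f := Dc) (fun b _ => hD0 b)
    (Finset.mem_univ b)
  have hsn : 0 < ‖s‖ := norm_pos_iff.mpr hs0
  set E : ℝ := DD + TT with hE
  have hE0 : 0 ≤ E := by positivity
  refine ⟨fun b a => (eval v (pderiv a (G b)) - y₀ b * eval v (pderiv a (G c'))) / s,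
    (E * (1 + Y)) * E * (2 / (‖s‖ * ‖s‖)) + TT * (1 + Y) / ‖s‖,
    min 1 (‖s‖ / (2 * E + 1)), lt_min one_pos (by positivity), by positivity,
    fun q hq hqc hqc' hsmall => ?_⟩
  set h := nv σ c q - v with hh
  have hh1 : ‖h‖ ≤ 1 := hsmall.trans (min_le_left _ _)
  have hh2 : ‖h‖ ≤ ‖s‖ / (2 * E + 1) := hsmall.trans (min_le_right _ _)
  have hvh : v + h = nv σ c q := by rw [hh]; abel
  have hsq : ‖h‖ ^ 2 ≤ ‖h‖ := by
    have := norm_nonneg h
    nlinarith
  -- remainders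
  set r : Fin (N + 1) → Ω := fun b => eval (v + h) (G b) - eval v (G b) - dirDeriv v h (G b)
    with hr
  have hrb : ∀ b, ‖r b‖ ≤ TT * ‖h‖ ^ 2 := by
    intro b
    refine (hT b h hh1).trans ?_
    have := hTle b
    gcongr
  have hdb : ∀ b, ‖dirDeriv v h (G b)‖ ≤ DD * ‖h‖ := by
    intro b
    refine (hD b h).trans ?_
    have := hDle b
    gcongr
  have hu : ∀ b, ‖dirDeriv v h (G b) + r b‖ ≤ E * ‖h‖ := by
    intro b
    refine (norm_add_le _ _).trans ?_
    rw [hE, add_mul]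
    refine add_le_add (hdb b) ((hrb b).trans ?_)
    gcongr
  have hEh : E * ‖h‖ ≤ ‖s‖ / 2 := by
    rw [le_div_iff₀ (by positivity)] at hh2
    have := norm_nonneg h
    nlinarith
  set u : Ω := dirDeriv v h (G c') + r c' with hudef
  have hsu : eval (v + h) (G c') = s + u := by
    rw [hudef, hr, hs]
    ring
  have hsun : ‖s‖ / 2 ≤ ‖s + u‖ := by
    have h1 : ‖u‖ ≤ ‖s‖ / 2 := (hu c').trans hEh
    have h2 : ‖s‖ ≤ ‖s + u‖ + ‖u‖ := by
      have : s = (s + u) - u := by ring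
      calc ‖s‖ = ‖(s + u) - u‖ := by rw [← this]
        _ ≤ _ := norm_sub_le _ _
    linarith
  have hsu0 : s + u ≠ 0 := by
    rw [← norm_pos_iff]
    linarith [half_pos hsn]
  rw [pi_norm_le_iff_of_nonneg (by positivity)]
  intro b
  have hcoord : ((nv σ c' (Φ q) - y₀) - Matrix.mulVec
      (fun b a => (eval v (pderiv a (G b)) - y₀ b * eval v (pderiv a (G c'))) / s) h) b =
      ((dirDeriv v h (G b) + r b) - y₀ b * u) * (-u / (s * (s + u))) +
        (r b - y₀ b * r c') / s := by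
    have h1 : Matrix.mulVec
      (fun b a => (eval v (pderiv a (G b)) - y₀ b * eval v (pderiv a (G c'))) / s) h b =
      (dirDeriv v h (G b) - y₀ b * dirDeriv v h (G c')) / s := by
      rw [Matrix.mulVec, dotProduct, dirDeriv, dirDeriv, Finset.mul_sum, ← Finset.sum_sub_distrib,
        Finset.sum_div]
      refine Finset.sum_congr rfl fun a _ => ?_
      ring
    rw [Pi.sub_apply, Pi.sub_apply, h1]
    have h2 : nv σ c' (Φ q) b = (s * y₀ b + dirDeriv v h (G b) + r b) / (s + u) := by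
      rw [eq_div_iff hsu0]
      have h3 := hmap q hq hqc' b
      rw [← hvh, hsu] at h3
      have h4 := hmap w hw hc' b
      rw [← hv, ← hs, ← hy₀] at h4
      rw [mul_comm, ← h3, hr]
      simp only
      rw [← h4]
      ring
    rw [h2, hudef]
    have hsu0' := hsu0
    rw [hudef] at hsu0'
    field_simp
    ring
  rw [hcoord]
  have hyb : ‖y₀ b‖ ≤ Y := norm_le_pi_norm y₀ b
  have hh0 := norm_nonneg h
  have b1 : ‖(dirDeriv v h (G b) + r b) - y₀ b * u‖ ≤ (E * (1 + Y)) * ‖h‖ := by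
    refine (norm_sub_le _ _).trans ?_
    rw [norm_mul]
    calc _ ≤ E * ‖h‖ + Y * (E * ‖h‖) := by
          gcongr
          · exact hu b
          · exact hu c'
      _ = _ := by ring
  have b2 : ‖-u / (s * (s + u))‖ ≤ (E * ‖h‖) * (2 / (‖s‖ * ‖s‖)) := by
    rw [norm_div, norm_neg, norm_mul, div_eq_mul_inv]
    have : (‖s‖ * ‖s + u‖)⁻¹ ≤ 2 / (‖s‖ * ‖s‖) := by
      rw [inv_le_comm₀ (by positivity) (by positivity), inv_div]
      have := mul_le_mul_of_nonneg_left hsun hsn.le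
      linarith
    have h3 := hu c'
    gcongr
  have b3 : ‖(r b - y₀ b * r c') / s‖ ≤ (TT * (1 + Y) / ‖s‖) * ‖h‖ ^ 2 := by
    rw [norm_div]
    have : ‖r b - y₀ b * r c'‖ ≤ TT * ‖h‖ ^ 2 + Y * (TT * ‖h‖ ^ 2) := by
      refine (norm_sub_le _ _).trans ?_
      rw [norm_mul]
      have := hrb b
      have := hrb c'
      gcongr
    calc _ ≤ (TT * ‖h‖ ^ 2 + Y * (TT * ‖h‖ ^ 2)) / ‖s‖ := by gcongr
      _ = _ := by ring
  refine (norm_add_le _ _).trans ?_
  rw [norm_mul, add_mul]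
  refine add_le_add ?_ b3
  calc _ ≤ ((E * (1 + Y)) * ‖h‖) * ((E * ‖h‖) * (2 / (‖s‖ * ‖s‖))) := by gcongr
    _ = _ := by ring

end Step

section Comp

variable {Ω : Type*} [NormedField Ω] {n : Type*} [Fintype n] [DecidableEq n]

/-- the product of the matrices along `s` steps -/
def stepMat (A : ℕ → Matrix n n Ω) (j : ℕ) : ℕ → Matrix n n Ω
  | 0 => 1
  | s + 1 => A (j + s) * stepMat A j s

lemma stepMat_add {A : ℕ → Matrix n n Ω} {M : ℕ} (hA : ∀ j, A (j + M) = A j) (j s : ℕ) :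
    stepMat A (j + M) s = stepMat A j s := by
  induction s with
  | zero => rfl
  | succ s ih =>
    rw [stepMat, stepMat, ih]
    have : j + M + s = j + s + M := by ring
    rw [this, hA]

theorem comp_steps {A : ℕ → Matrix n n Ω} {δ : ℕ → n → Ω} {C Λ : ℝ} {i₀ : ℕ} (hC : 0 ≤ C)
    (hΛ : ∀ i, mnorm (A i) ≤ Λ)
    (hrec : ∀ i, i₀ ≤ i → ‖δ (i + 1) - (A i).mulVec (δ i)‖ ≤ C * ‖δ i‖ ^ 2)
    (h1 : ∀ i, i₀ ≤ i → ‖δ i‖ ≤ 1) :
    ∀ s, ∃ K : ℝ, 0 ≤ K ∧ ∀ i, i₀ ≤ i →
      ‖δ (i + s) - (stepMat A i s).mulVec (δ i)‖ ≤ K * ‖δ i‖ ^ 2 := by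
  have hΛ0 : 0 ≤ Λ := (mnorm_nonneg (A 0)).trans (hΛ 0)
  have hgrow : ∀ s i, i₀ ≤ i → ‖δ (i + s)‖ ≤ (C + Λ) ^ s * ‖δ i‖ := by
    intro s
    induction s with
    | zero => intro i _; simp
    | succ s ih =>
      intro i hi
      have e1 : δ (i + s + 1) = (δ (i + s + 1) - (A (i + s)).mulVec (δ (i + s))) +
          (A (i + s)).mulVec (δ (i + s)) := by abel
      have h2 : ‖δ (i + s + 1)‖ ≤ (C + Λ) * ‖δ (i + s)‖ := by
        calc ‖δ (i + s + 1)‖ ≤ ‖δ (i + s + 1) - (A (i + s)).mulVec (δ (i + s))‖ +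
              ‖(A (i + s)).mulVec (δ (i + s))‖ := by
              conv_lhs => rw [e1]
              exact norm_add_le _ _
          _ ≤ C * ‖δ (i + s)‖ ^ 2 + Λ * ‖δ (i + s)‖ := by
              refine add_le_add (hrec _ (by omega)) ((mulVec_le _ _).trans ?_)
              gcongr
              exact hΛ _
          _ ≤ C * ‖δ (i + s)‖ + Λ * ‖δ (i + s)‖ := by
              gcongr
              have := h1 (i + s) (by omega)
              have h0 := norm_nonneg (δ (i + s))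
              nlinarith
          _ = _ := by ring
      rw [← add_assoc]
      refine h2.trans ?_
      rw [pow_succ', mul_assoc]
      exact mul_le_mul_of_nonneg_left (ih i hi) (by positivity)
  intro s
  induction s with
  | zero => exact ⟨0, le_rfl, fun i _ => by simp [stepMat]⟩
  | succ s ih =>
    obtain ⟨K, hK0, hK⟩ := ih
    refine ⟨C * ((C + Λ) ^ s) ^ 2 + Λ * K, by positivity, fun i hi => ?_⟩
    have e1 : δ (i + (s + 1)) - (stepMat A i (s + 1)).mulVec (δ i) =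
        (δ (i + s + 1) - (A (i + s)).mulVec (δ (i + s))) +
        (A (i + s)).mulVec (δ (i + s) - (stepMat A i s).mulVec (δ i)) := by
      rw [stepMat, ← Matrix.mulVec_mulVec, Matrix.mulVec_sub, ← add_assoc]
      abel
    rw [e1]
    refine (norm_add_le _ _).trans ?_
    rw [add_mul]
    refine add_le_add ?_ ?_
    · calc _ ≤ C * ‖δ (i + s)‖ ^ 2 := hrec _ (by omega)
        _ ≤ C * ((C + Λ) ^ s * ‖δ i‖) ^ 2 := by
          gcongr
          exact hgrow s i hi
        _ = _ := by ring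
    · calc _ ≤ mnorm (A (i + s)) * ‖δ (i + s) - (stepMat A i s).mulVec (δ i)‖ := mulVec_le _ _
        _ ≤ Λ * (K * ‖δ i‖ ^ 2) := by
          gcongr
          · exact hΛ _
          · exact hK i hi
        _ = _ := by ring

end Comp

end

end Pool.Agent.Helper86.DML
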