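import Mathlib
import Pool.Agent.Helper86.DML.Final
import Pool.Agent.Helper86.DML.Steps

/-!
# The structure theorem, with super-exponential convergence to the finite limit sets
-/

namespace Pool.Agent.Helper86.DML

open MvPolynomial Filter Topology

noncomputable section

variable {N : ℕ} {B₀ : Finset (MvPolynomial (Fin (N + 1)) ℂ)}

/-- the structure theorem for orbits, with the embedding, and with super-exponential convergence
to the finite limit sets -/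
theorem main_structure3 (X : Set (PP N)) (A : Set (MvPolynomial (Fin (N + 1)) ℂ))
    (hA : ∀ F ∈ A, ∃ d : ℕ, F.IsHomogeneous d) (hB : ∀ F ∈ B₀, ∃ d : ℕ, F.IsHomogeneous d)
    (hX : ∀ p : PP N, p ∈ X ↔ ((∀ F ∈ A, eval p.rep F = 0) ∧ ∃ F ∈ B₀, eval p.rep F ≠ 0))
    (Φ : PP N → PP N) (hΦX : ∀ x ∈ X, Φ x ∈ X)
    (hΦ : ∀ x ∈ X, RegAt X Φ x)
    (Ψ : Idx N B₀ → MvPolynomial (Idx N B₀) ℂ)
    (hΨ : ∀ u : Idx N B₀ → ℂ, (∀ G ∈ eqs B₀ A, eval u G = 0) → ∀ x : PP N, Rep x u →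
        (∀ G ∈ eqs B₀ A, eval (pmap Ψ u) G = 0) ∧ Rep (Φ x) (pmap Ψ u))
    (𝒜₀ : Finset ℂ) (α : PP N) (hα : α ∈ X) :
    ∃ (p : ℕ) (_ : Fact p.Prime) (σ : ℂ →+* PadicAlgCl p) (n₀ M : ℕ) (Z : ℕ → Set (PP N)),
      HasLM p σ 𝒜₀ ∧ 1 ≤ M ∧ ∀ j,
      Z (j + M) = Z j ∧
      (∃ E : Set (MvPolynomial (Fin (N + 1)) ℂ), (∀ F ∈ E, ∃ d : ℕ, F.IsHomogeneous d) ∧
        ∀ p : PP N, p ∈ Z j ↔ p ∈ X ∧ ∀ F ∈ E, eval p.rep F = 0) ∧
      (Z j).Nonempty ∧
      (∀ C₁ C₂ : Set (MvPolynomial (Fin (N + 1)) ℂ),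
        (∀ F ∈ C₁, ∃ d : ℕ, F.IsHomogeneous d) → (∀ F ∈ C₂, ∃ d : ℕ, F.IsHomogeneous d) →
        (∀ x ∈ Z j, (∀ F ∈ C₁, eval x.rep F = 0) ∨ ∀ F ∈ C₂, eval x.rep F = 0) →
        (∀ x ∈ Z j, ∀ F ∈ C₁, eval x.rep F = 0) ∨ ∀ x ∈ Z j, ∀ F ∈ C₂, eval x.rep F = 0) ∧
      (∀ x ∈ Z j, Φ x ∈ Z (j + 1)) ∧
      (∀ C : Set (MvPolynomial (Fin (N + 1)) ℂ), (∀ F ∈ C, ∃ d : ℕ, F.IsHomogeneous d) →
        (∀ x ∈ Z j, ∀ F ∈ C, eval (Φ x).rep F = 0) → ∀ x ∈ Z (j + 1), ∀ F ∈ C, eval x.rep F = 0) ∧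
      (∀ C : Set (MvPolynomial (Fin (N + 1)) ℂ), (∀ F ∈ C, ∃ d : ℕ, F.IsHomogeneous d) →
        (∃ x ∈ Z j, ∃ F ∈ C, eval x.rep F ≠ 0) →
        SSp {k | ∀ F ∈ C, eval (Φ^[n₀ + j + M * k] α).rep F = 0}) ∧
      ((Z j).Infinite ∨ ∃ (w : PP N) (c : Fin (N + 1)) (F₀ : MvPolynomial (Fin (N + 1)) ℂ)
        (k₀ m : ℕ), Z j = {w} ∧ F₀ ∈ B₀ ∧ w.rep c ≠ 0 ∧ eval w.rep F₀ ≠ 0 ∧ 1 ≤ m ∧
        ∀ k, (Φ^[n₀ + j + M * (k₀ + k)] α).rep c ≠ 0 ∧
          eval (Φ^[n₀ + j + M * (k₀ + k)] α).rep F₀ ≠ 0 ∧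
          ‖nv σ c (Φ^[n₀ + j + M * (k₀ + k)] α) - nv σ c w‖ ≤ (1 / 2 : ℝ) ^ (2 ^ (k / m))) := by
  classical
  obtain ⟨p, hp, O, σ, uα, n₀, M, x, z, I, hp3, hLM, hfin, huα, hrepα, hM, hx0, hxz, hIz,
    hIprime, hIeqs, hcl⟩ := structure_model X A hA hB hX Φ hΦX hΦ ∅ {1}
      (fun F hF => ⟨0, by rw [Set.mem_singleton_iff.mp hF]; exact isHomogeneous_one _ _⟩)
      (fun p => by simp) (fun y hy => absurd hy (Set.notMem_empty y))
      (fun y hy => absurd hy (Set.notMem_empty y)) Ψ hΨ 𝒜₀ α hα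
  by_cases hinf : ∀ j, (ZZ X (I j)).Infinite
  · refine ⟨p, hp, σ, n₀, M, fun j => ZZ X (I j), hLM, hM, fun j => ?_⟩
    obtain ⟨h1, h2, h3, h4, h5, h6, h7⟩ := hcl j
    exact ⟨h1, ⟨DZ (I j), fun F hF => hF.1, fun p => Iff.rfl⟩, h2, h3, h4, h5, h6,
      Or.inl (hinf j)⟩
  -- all limit sets are points
  have hperZ : ∀ j, ZZ X (I (j + M)) = ZZ X (I j) := fun j => (hcl j).1
  have hfinall : ∀ j, (ZZ X (I j)).Finite := by
    push Not at hinf
    obtain ⟨j₀, hj₀⟩ := hinf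
    have hj₀' : (ZZ X (I j₀)).Finite := by
      first
        | exact Set.not_infinite.mp hj₀
        | exact hj₀
    have h1 : ∀ t, (ZZ X (I (j₀ + t))).Finite := by
      intro t
      induction t with
      | zero => exact hj₀'
      | succ t ih => exact finite_of_dominant ih Φ (hcl (j₀ + t)).2.2.2.2.1
    intro j
    have h2 : ZZ X (I (j + M * j₀)) = ZZ X (I j) := per_mul (f := fun j => ZZ X (I j)) hperZ j j₀
    rw [← h2]
    have h3 : j₀ ≤ M * j₀ := Nat.le_mul_of_pos_left j₀ hM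
    obtain ⟨t, ht⟩ := Nat.exists_eq_add_of_le (show j₀ ≤ j + M * j₀ by omega)
    rw [ht]
    exact h1 t
  choose w hwmem using fun j => (hcl j).2.1
  have hw : ∀ j, ZZ X (I j) = {w j} := fun j =>
    finite_irreducible (hfinall j) (hwmem j) (hcl j).2.2.1
  have hwM : ∀ j, w (j + M) = w j := by
    intro j
    have h1 := hperZ j
    rw [hw, hw] at h1
    exact Set.singleton_injective h1
  have hwX : ∀ j, w j ∈ X := fun j => (hwmem j).1
  have hΦw : ∀ j, Φ (w j) = w (j + 1) := by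
    intro j
    have h1 := (hcl j).2.2.2.1 (w j) (hwmem j)
    rw [hw] at h1
    exact h1
  have hiterw : ∀ j i, Φ^[i] (w j) = w (j + i) := by
    intro j i
    induction i with
    | zero => rfl
    | succ i ih => rw [Function.iterate_succ_apply', ih, hΦw, add_assoc]
  choose cc hcc using fun x : PP N => (show ∃ c, x.rep c ≠ 0 by
    by_contra hcon
    push Not at hcon
    exact x.rep_nonzero (funext hcon))
  choose FF hFF using fun x : X => (show ∃ F : B₀, eval x.1.rep F.1 ≠ 0 by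
    obtain ⟨_, F, hF, hne⟩ := (hX x.1).mp x.2
    exact ⟨⟨F, hF⟩, hne⟩)
  set c : ℕ → Fin (N + 1) := fun j => cc (w j) with hc
  have hcM : ∀ j, c (j + M) = c j := fun j => by simp only [hc, hwM]
  have hcw : ∀ j, (w j).rep (c j) ≠ 0 := fun j => hcc (w j)
  set F₀ : ℕ → B₀ := fun j => FF ⟨w j, hwX j⟩ with hF₀
  have hF₀M : ∀ j, F₀ (j + M) = F₀ j := by
    intro j
    simp only [hF₀]
    congr 1
    exact Subtype.ext (hwM j)
  have hF₀w : ∀ j, eval (w j).rep (F₀ j).1 ≠ 0 := fun j => hFF ⟨w j, hwX j⟩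
  obtain ⟨L₀, hL₀fin, θ, Cv, i₀, hθ0, hθ1, hCv, hconv⟩ := conv_model hA hB hX O σ hM hΨ huα
    hrepα hx0 hxz hIz hIprime hIeqs hw hwM hcM hcw
  -- the orbit stays in `X`
  have horb : ∀ i, Φ^[i] α ∈ X := by
    intro i
    induction i with
    | zero => exact hα
    | succ i ih =>
      rw [Function.iterate_succ_apply']
      exact hΦX _ ih
  -- nonvanishing of the auxiliary forms
  obtain ⟨i₁, hi₁⟩ : ∃ i₁, ∀ i, i₁ ≤ i → eval (Φ^[n₀ + i] α).rep (F₀ i).1 ≠ 0 := by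
    have h1 : ∀ j, ∃ k₁, ∀ k, k₁ ≤ k → eval (Φ^[n₀ + (j + M * k)] α).rep (F₀ j).1 ≠ 0 := by
      intro j
      have h2 : Tendsto (fun k => eval (nv σ (c j) (Φ^[n₀ + (j + M * (i₀ + k))] α))
          (map σ (F₀ j).1)) atTop (𝓝 (eval (nv σ (c j) (w j)) (map σ (F₀ j).1))) := by
        refine tendsto_class hθ0 hθ1 (C := Cv) ?_ _
        intro t a
        have h3 : i₀ ≤ M * (i₀ + t) := by
          calc i₀ ≤ i₀ + t := Nat.le_add_right _ _
            _ ≤ _ := Nat.le_mul_of_pos_left _ hM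
        have h4 := (hconv (j + M * (i₀ + t)) (by omega)).2.2 a
        rw [per_mul hcM, per_mul hwM] at h4
        refine h4.trans ?_
        gcongr ?_ * ?_
        apply pow_le_pow_of_le_one hθ0.le hθ1.le
        calc t ≤ i₀ + t := Nat.le_add_left _ _
          _ ≤ M * (i₀ + t) := Nat.le_mul_of_pos_left _ hM
          _ ≤ _ := Nat.le_add_left _ _
      have h5 : eval (nv σ (c j) (w j)) (map σ (F₀ j).1) ≠ 0 := by
        rw [eval_nv, Ne, map_eq_zero, eval_nrep_zero_iff (hcw j) (hB _ (F₀ j).2)]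
        exact hF₀w j
      obtain ⟨k₁, hk₁⟩ := eventually_atTop.mp (h2.eventually_ne h5)
      refine ⟨i₀ + k₁, fun k hk => ?_⟩
      obtain ⟨t, rfl⟩ := Nat.exists_eq_add_of_le hk
      have h6 := hk₁ (k₁ + t) (Nat.le_add_right _ _)
      have e6 : i₀ + (k₁ + t) = i₀ + k₁ + t := (add_assoc _ _ _).symm
      rw [e6] at h6
      intro h0
      apply h6
      rw [eval_nv, hom_zero (nrep_mem _ _) (hB _ (F₀ j).2) h0, map_zero]
    choose k₁ hk₁ using h1
    refine ⟨M * ∑ j ∈ Finset.range M, k₁ j, fun i hi => ?_⟩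
    have h2 : k₁ (i % M) ≤ i / M := by
      rw [Nat.le_div_iff_mul_le (by omega), mul_comm]
      refine le_trans ?_ hi
      apply Nat.mul_le_mul_left
      exact Finset.single_le_sum (f := k₁) (fun _ _ => Nat.zero_le _)
        (Finset.mem_range.mpr (Nat.mod_lt _ (by omega)))
    have h3 := hk₁ (i % M) (i / M) h2
    rw [Nat.mod_add_div, mod_of_periodic hF₀M] at h3
    exact h3
  -- shifting the orbit
  set k₀ := i₀ + i₁ with hk₀
  have hk₀M : i₀ + i₁ ≤ M * k₀ := Nat.le_mul_of_pos_left _ hM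
  set q : ℕ → PP N := fun i => Φ^[n₀ + (M * k₀ + i)] α with hq
  have hshift : ∀ i, i₀ ≤ M * k₀ + i ∧ i₁ ≤ M * k₀ + i := fun i => by omega
  have hcs : ∀ i, c (M * k₀ + i) = c i := fun i =>
    (congrArg c (add_comm (M * k₀) i)).trans (per_mul (f := c) hcM i k₀)
  have hws : ∀ i, w (M * k₀ + i) = w i := fun i =>
    (congrArg w (add_comm (M * k₀) i)).trans (per_mul (f := w) hwM i k₀)
  have hFs : ∀ i, F₀ (M * k₀ + i) = F₀ i := fun i =>
    (congrArg F₀ (add_comm (M * k₀) i)).trans (per_mul (f := F₀) hF₀M i k₀)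
  have hqX : ∀ i, q i ∈ X := fun i => horb _
  have hΦq : ∀ i, Φ (q i) = q (i + 1) := fun i => (Function.iterate_succ_apply' Φ _ α).symm
  have hcq : ∀ i, (q i).rep (c i) ≠ 0 := by
    intro i
    have := (hconv _ (hshift i).1).1
    rwa [hcs] at this
  have hF₀q : ∀ i, eval (q i).rep (F₀ i).1 ≠ 0 := by
    intro i
    have := hi₁ _ (hshift i).2
    rwa [hFs] at this
  have hL₀q : ∀ i a, nv σ (c i) (q i) a ∈ L₀ := by
    intro i a
    have := (hconv _ (hshift i).1).2.1 a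
    rwa [hcs] at this
  have hconvq : ∀ i a, ‖nv σ (c i) (q i) a - nv σ (c i) (w i) a‖ ≤ Cv * θ ^ i := by
    intro i a
    have := (hconv _ (hshift i).1).2.2 a
    rw [hcs, hws] at this
    refine this.trans ?_
    gcongr ?_ * ?_
    exact pow_le_pow_of_le_one hθ0.le hθ1.le (Nat.le_add_left _ _)
  obtain ⟨M', I', hM', ⟨s, hs⟩, hI'⟩ := point_case X A hA hB hX Φ hΦ Ψ hΨ hp3 σ L₀ w q M hM hwX
    hΦw hwM hqX hΦq c hcM hcw hcq F₀ hF₀M hF₀w hF₀q hL₀q hθ0 hθ1 hconvq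
  have hcM' : ∀ j t, c (j + M' * t) = c j := by
    intro j t
    rw [hs, mul_assoc, per_mul hcM]
  have hwM' : ∀ j t, w (j + M' * t) = w j := by
    intro j t
    rw [hs, mul_assoc, per_mul hwM]
  have hconvt : ∀ j t a, ‖nv σ (c j) (q (j + M' * t)) a - nv σ (c j) (w j) a‖ ≤ Cv * θ ^ t := by
    intro j t a
    have := hconvq (j + M' * t) a
    rw [hcM', hwM'] at this
    refine this.trans ?_
    gcongr ?_ * ?_
    apply pow_le_pow_of_le_one hθ0.le hθ1.le
    calc t ≤ M' * t := Nat.le_mul_of_pos_left _ hM'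
      _ ≤ _ := Nat.le_add_left _ _
  have hcqt : ∀ j t, (q (j + M' * t)).rep (c j) ≠ 0 := by
    intro j t
    have := hcq (j + M' * t)
    rwa [hcM'] at this
  have hwZ : ∀ j, w j ∈ ZZ X (I' j) := by
    intro j
    refine ⟨hwX j, fun F hF => ?_⟩
    have h1 := ((hI' j).2.2.2.2.2 F hF.1).mp hF
    have h2 := tendsto_class hθ0 hθ1 (hconvt j) (map σ F)
    have h3 := tendsto_nhds_unique h2 h1.tendsto
    rw [eval_nv, map_eq_zero, eval_nrep_zero_iff (hcw j) hF.1] at h3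
    exact h3
  -- the expansion along the orbit
  choose A₀ CC ε hε hCC0 hCC using fun r => step_taylor σ X Φ (w r) (hwX r) (hΦ (w r) (hwX r))
    (c r) (c (r + 1)) (hcw r) (by rw [hΦw]; exact hcw (r + 1))
  obtain ⟨e, he, hmin⟩ := exists_min_pos ε hε M
  set C' : ℝ := ∑ r ∈ Finset.range M, CC r with hC'
  have hC'0 : 0 ≤ C' := Finset.sum_nonneg fun r _ => hCC0 r
  set Λ : ℝ := ∑ r ∈ Finset.range M, mnorm (A₀ r) with hΛ
  let A' : ℕ → Matrix (Fin (N + 1)) (Fin (N + 1)) (PadicAlgCl p) := fun i => A₀ (i % M)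
  have hA'M : ∀ i, A' (i + M) = A' i := fun i => by simp only [A', Nat.add_mod_right]
  have hA'Λ : ∀ i, mnorm (A' i) ≤ Λ := fun i =>
    Finset.single_le_sum (f := fun r => mnorm (A₀ r)) (fun _ _ => mnorm_nonneg _)
      (Finset.mem_range.mpr (Nat.mod_lt _ (by omega)))
  let h : ℕ → Fin (N + 1) → PadicAlgCl p := fun i => nv σ (c i) (q i) - nv σ (c i) (w i)
  have hnorm : ∀ i, ‖h i‖ ≤ Cv * θ ^ i := by
    intro i
    rw [pi_norm_le_iff_of_nonneg (by positivity)]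
    exact fun a => hconvq i a
  obtain ⟨i₂, hi₂⟩ : ∃ i₂, ∀ i, i₂ ≤ i → ‖h i‖ ≤ min 1 e := by
    have he' : 0 < min 1 e := lt_min one_pos he
    obtain ⟨m, hm⟩ := exists_pow_lt_of_lt_one (show 0 < min 1 e / (Cv + 1) by positivity) hθ1
    refine ⟨m, fun i hi => (hnorm i).trans ?_⟩
    have h1 : θ ^ i ≤ θ ^ m := pow_le_pow_of_le_one hθ0.le hθ1.le hi
    rw [lt_div_iff₀ (by positivity)] at hm
    have h2 : 0 ≤ θ ^ m := by positivity
    nlinarith
  have hstep : ∀ i, i₂ ≤ i → ‖h (i + 1) - (A' i).mulVec (h i)‖ ≤ C' * ‖h i‖ ^ 2 := by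
    intro i hi
    have hr : i % M < M := Nat.mod_lt _ (by omega)
    have e1 : c (i % M) = c i := mod_of_periodic hcM i
    have e2 : w (i % M) = w i := mod_of_periodic hwM i
    have e3 : c (i % M + 1) = c (i + 1) := by
      have := mod_of_periodic (f := fun j => c (j + 1)) (M := M) (fun j => by
        have e : j + M + 1 = j + 1 + M := by ring
        simp only [e, hcM]) i
      exact this
    have h1 := hCC (i % M) (q i) (hqX i) (by rw [e1]; exact hcq i)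
      (by rw [e3, hΦq]; exact hcq (i + 1)) (by
        rw [e1, e2]
        exact ((hi₂ i hi).trans (min_le_right _ _)).trans (hmin _ hr))
    rw [e1, e2, e3, hΦq, hΦw] at h1
    refine h1.trans ?_
    have h2 : CC (i % M) ≤ C' :=
      Finset.single_le_sum (f := CC) (fun r _ => hCC0 r) (Finset.mem_range.mpr hr)
    exact mul_le_mul_of_nonneg_right h2 (by positivity)
  obtain ⟨KK, hKK0, hKK⟩ := comp_steps hC'0 hA'Λ hstep
    (fun i hi => (hi₂ i hi).trans (min_le_left _ _)) M'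
  refine ⟨p, hp, σ, n₀ + M * k₀, M', fun j => ZZ X (I' j), hLM, hM', fun j => ?_⟩
  obtain ⟨hj1, hj2, hj3, hj4, hj5, hj6⟩ := hI' j
  have hirr := ZZ_irreducible (I' j) hj3 hA hB hX
  refine ⟨by show ZZ X (I' (j + M')) = ZZ X (I' j); rw [hj2],
    ⟨DZ (I' j), fun F hF => hF.1, fun p => Iff.rfl⟩,
    ZZ_nonempty (I' j) hj3 hA hB hX, hirr,
    ZZ_map (I' j) (I' (j + 1)) hj3 hA hB hX Φ hΦX Ψ hΨ hj4 hΦ,
    ZZ_dominant (I' j) (I' (j + 1)) hj3 hA hB hX Φ Ψ hΨ hj4, ?_, ?_⟩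
  · rintro C hC ⟨y, hy, F, hF, hne⟩
    have h1 : F ∉ DZ (I' j) := fun h => hne (hy.2 F h)
    refine (hj5 F (hC F hF) h1).mono ?_
    intro k hk
    have h2 : n₀ + M * k₀ + j + M' * k = n₀ + (M * k₀ + (j + M' * k)) := by ring
    have h3 := hk F hF
    rw [h2] at h3
    exact h3
  · by_cases hZinf : (ZZ X (I' j)).Infinite
    · exact Or.inl hZinf
    have hZfin : (ZZ X (I' j)).Finite := Set.not_infinite.mp hZinf
    -- faster than exponential convergence
    obtain ⟨P₀, ⟨dP, hP₀d⟩, hP₀T, hP₀w⟩ := exists_form (hZfin.toFinset.erase (w j)) (w := w j)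
      (by simp)
    have hsm : ∀ a, Small (fun t => nv σ (c j) (q (j + M' * t)) a - nv σ (c j) (w j) a) := by
      intro a
      have h1 : lin (w j) a (c j) * P₀ ∈ DZ (I' j) := by
        rw [mem_DZ_iff (I' j) hj3 hA hB hX _ ⟨_, (lin_hom _ _ _).mul hP₀d⟩]
        intro y hy
        rw [map_mul]
        by_cases hyw : y = w j
        · subst hyw
          rw [eval_lin_self, zero_mul]
        · rw [hP₀T y (by simp [hyw, hy]), mul_zero]
      have h2 := (hj6 _ h1.1).mp h1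
      have h3 := tendsto_class hθ0 hθ1 (hconvt j) (map σ P₀)
      have h4 : eval (nv σ (c j) (w j)) (map σ P₀) ≠ 0 := by
        rw [eval_nv, Ne, map_eq_zero, eval_nrep_zero_iff (hcw j) ⟨dP, hP₀d⟩]
        exact hP₀w
      have h5 : ∀ᶠ t in atTop, ‖eval (nv σ (c j) (w j)) (map σ P₀)‖ / 2 <
          ‖eval (nv σ (c j) (q (j + M' * t))) (map σ P₀)‖ := by
        have h6 : ‖eval (nv σ (c j) (w j)) (map σ P₀)‖ / 2 <
            ‖eval (nv σ (c j) (w j)) (map σ P₀)‖ := by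
          have := norm_pos_iff.mpr h4
          linarith
        exact h3.norm.eventually_const_lt h6
      obtain ⟨t₁, ht₁⟩ := eventually_atTop.mp h5
      set κ := ‖eval (nv σ (c j) (w j)) (map σ P₀)‖ / 2 with hκ
      have hκ0 : 0 < κ := by
        have := norm_pos_iff.mpr h4
        positivity
      have hs0 : σ ((w j).rep (c j)) ≠ 0 := by
        rw [Ne, map_eq_zero]
        exact hcw j
      refine h2.of_le_tail (K := (‖σ ((w j).rep (c j))‖ * κ)⁻¹) (t₁ := t₁) fun t ht => ?_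
      have h7 : eval (nv σ (c j) (q (j + M' * t))) (map σ (lin (w j) a (c j) * P₀)) =
          (nv σ (c j) (q (j + M' * t)) a - nv σ (c j) (w j) a) * σ ((w j).rep (c j)) *
            eval (nv σ (c j) (q (j + M' * t))) (map σ P₀) := by
        rw [map_mul, map_mul]
        congr 1
        simp only [lin, map_sub, map_mul, map_X, map_C, eval_X, eval_C]
        rw [nv_self σ (hcqt j t)]
        have h8 : σ ((w j).rep a) = nv σ (c j) (w j) a * σ ((w j).rep (c j)) := by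
          rw [nv, nrep, map_div₀, div_mul_cancel₀ _ hs0]
        rw [h8]
        ring
      rw [h7, norm_mul, norm_mul]
      have h9 := (ht₁ t ht).le
      rw [le_inv_mul_iff₀ (mul_pos (norm_pos_iff.mpr hs0) hκ0)]
      calc ‖σ ((w j).rep (c j))‖ * κ *
            ‖nv σ (c j) (q (j + M' * t)) a - nv σ (c j) (w j) a‖ =
          ‖nv σ (c j) (q (j + M' * t)) a - nv σ (c j) (w j) a‖ *
            ‖σ ((w j).rep (c j))‖ * κ := by ring
        _ ≤ _ := by gcongr
    have hnh : ∀ t a, h (j + M' * t) a = nv σ (c j) (q (j + M' * t)) a - nv σ (c j) (w j) a := by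
      intro t a
      simp only [h, Pi.sub_apply]
      rw [hcM', hwM']
    have hle : ∀ t, i₂ ≤ j + M' * (i₂ + t) := by
      intro t
      calc i₂ ≤ i₂ + t := Nat.le_add_right _ _
        _ ≤ M' * (i₂ + t) := Nat.le_mul_of_pos_left _ hM'
        _ ≤ _ := Nat.le_add_left _ _
    have hmat : ∀ t, stepMat A' (j + M' * t) M' = stepMat A' j M' := by
      intro t
      have := per_mul (f := fun i => stepMat A' i M') (M := M) (fun i => stepMat_add hA'M i M')
        j (s * t)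
      rw [← mul_assoc, ← hs] at this
      exact this
    obtain ⟨m, k₁, hm, hk₁⟩ := cone (δ := fun k => h (j + M' * (i₂ + k))) (stepMat A' j M')
      (C := KK) (fun k => by
        have h1 := hKK _ (hle k)
        rw [hmat] at h1
        have h2 : j + M' * (i₂ + (k + 1)) = j + M' * (i₂ + k) + M' := by ring
        rw [h2]
        exact h1)
      (by
        refine squeeze_zero (fun _ => norm_nonneg _) (fun k => (hnorm _).trans ?_)
          (g := fun k => Cv * θ ^ k) ?_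
        · gcongr ?_ * ?_
          apply pow_le_pow_of_le_one hθ0.le hθ1.le
          calc k ≤ i₂ + k := Nat.le_add_left _ _
            _ ≤ M' * (i₂ + k) := Nat.le_mul_of_pos_left _ hM'
            _ ≤ _ := Nat.le_add_left _ _
        · have := (tendsto_pow_atTop_nhds_zero_of_lt_one hθ0.le hθ1).const_mul Cv
          rwa [mul_zero] at this)
      (by
        intro ρ hρ
        choose C hC using fun a => hsm a ρ hρ
        refine ⟨(∑ a, |C a|) * ρ ^ i₂, fun k => ?_⟩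
        have : 0 ≤ ∑ a, |C a| := Finset.sum_nonneg fun _ _ => abs_nonneg _
        rw [pi_norm_le_iff_of_nonneg (by positivity)]
        intro a
        rw [hnh]
        refine (hC a (i₂ + k)).trans ?_
        rw [mul_assoc, ← pow_add]
        gcongr
        exact (le_abs_self _).trans (Finset.single_le_sum (f := fun a => |C a|)
          (fun _ _ => abs_nonneg _) (Finset.mem_univ a)))
    refine Or.inr ⟨w j, c j, (F₀ j).1, i₂ + k₁, m, finite_irreducible hZfin (hwZ j) hirr,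
      (F₀ j).2, hcw j, hF₀w j, hm, fun k => ?_⟩
    have hidx : n₀ + M * k₀ + j + M' * (i₂ + k₁ + k) =
        n₀ + (M * k₀ + (j + M' * (i₂ + k₁ + k))) := by ring
    rw [hidx]
    change (q (j + M' * (i₂ + k₁ + k))).rep (c j) ≠ 0 ∧
      eval (q (j + M' * (i₂ + k₁ + k))).rep (F₀ j).1 ≠ 0 ∧
      ‖nv σ (c j) (q (j + M' * (i₂ + k₁ + k))) - nv σ (c j) (w j)‖ ≤ (1 / 2 : ℝ) ^ (2 ^ (k / m))
    refine ⟨hcqt j _, ?_, ?_⟩
    · have h1 := hF₀q (j + M' * (i₂ + k₁ + k))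
      have h2 : F₀ (j + M' * (i₂ + k₁ + k)) = F₀ j := by
        rw [hs, mul_assoc, per_mul hF₀M]
      rwa [h2] at h1
    · have h1 := hk₁ k
      have h2 : h (j + M' * (i₂ + (k₁ + k))) =
          nv σ (c j) (q (j + M' * (i₂ + k₁ + k))) - nv σ (c j) (w j) := by
        funext a
        rw [hnh, Pi.sub_apply, add_assoc i₂ k₁ k]
      rw [← h2]
      exact h1

end

end Pool.Agent.Helper86.DML
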