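import Mathlib
import Pool.Agent.Helper86.DML.Curve
import Pool.Agent.Helper86.DML.Struct3

/-!
# Charts of curves
-/

namespace Pool.Agent.Helper86.DML

open MvPolynomial

noncomputable section

variable {N : ℕ} {B₀ : Finset (MvPolynomial (Fin (N + 1)) ℂ)}

/-- the point lies in the chart of `c` and `F₀` -/
def InCh (c : Fin (N + 1)) (F₀ : MvPolynomial (Fin (N + 1)) ℂ) (x : PP N) : Prop :=
  x.rep c ≠ 0 ∧ eval x.rep F₀ ≠ 0

lemma eval_rep_nrep {c : Fin (N + 1)} {x : PP N} (h : x.rep c ≠ 0)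
    {F : MvPolynomial (Fin (N + 1)) ℂ} {d : ℕ} (hF : F.IsHomogeneous d) :
    eval x.rep F = (x.rep c) ^ d * eval (nrep c x) F := by
  rw [nrep_eq, eval_smul_hom hF, ← mul_assoc, ← mul_pow, mul_inv_cancel₀ h, one_pow, one_mul]

/-- polynomials in the canonical lift, homogenised -/
lemma canon_hom (c : Fin (N + 1)) (F₀ : B₀) {d₀ : ℕ} (hd₀ : F₀.1.IsHomogeneous d₀)
    (P : MvPolynomial (Idx N B₀) ℂ) :
    ∃ L₀ : ℕ, ∀ L, L₀ ≤ L → ∃ Q : MvPolynomial (Fin (N + 1)) ℂ,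
      Q.IsHomogeneous (L * (1 + d₀)) ∧ ∀ x : PP N, InCh c F₀.1 x →
        eval x.rep Q = (x.rep c * eval x.rep F₀.1) ^ L * eval (canon c F₀ x) P := by
  classical
  induction P using MvPolynomial.induction_on with
  | C a =>
    refine ⟨0, fun L _ => ⟨C a * (X c * F₀.1) ^ L, ?_, fun x _ => ?_⟩⟩
    · have := (isHomogeneous_C (Fin (N + 1)) a).mul (((isHomogeneous_X ℂ c).mul hd₀).pow L)
      have e : L * (1 + d₀) = 0 + (1 + d₀) * L := by ring
      rw [e]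
      exact this
    · simp only [map_mul, map_pow, eval_C, eval_X]
      ring
  | add P P' hP hP' =>
    obtain ⟨L₀, h⟩ := hP
    obtain ⟨L₀', h'⟩ := hP'
    refine ⟨max L₀ L₀', fun L hL => ?_⟩
    obtain ⟨Q, hQ1, hQ2⟩ := h L (le_trans (le_max_left _ _) hL)
    obtain ⟨Q', hQ1', hQ2'⟩ := h' L (le_trans (le_max_right _ _) hL)
    refine ⟨Q + Q', hQ1.add hQ1', fun x hx => ?_⟩
    rw [map_add, map_add, hQ2 x hx, hQ2' x hx]
    ring
  | mul_X P s hP =>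
    obtain ⟨L₀, h⟩ := hP
    refine ⟨L₀ + 1, fun L hL => ?_⟩
    obtain ⟨L', rfl⟩ : ∃ L', L = L' + 1 := ⟨L - 1, by omega⟩
    obtain ⟨Q, hQ1, hQ2⟩ := h L' (by omega)
    have key : ∀ R : MvPolynomial (Fin (N + 1)) ℂ, R.IsHomogeneous (1 + d₀) →
        (∀ x : PP N, InCh c F₀.1 x → eval x.rep R =
          (x.rep c * eval x.rep F₀.1) * canon c F₀ x s) →
        ∃ Q : MvPolynomial (Fin (N + 1)) ℂ, Q.IsHomogeneous ((L' + 1) * (1 + d₀)) ∧
          ∀ x : PP N, InCh c F₀.1 x → eval x.rep Q =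
            (x.rep c * eval x.rep F₀.1) ^ (L' + 1) * eval (canon c F₀ x) (P * X s) := by
      intro R hR1 hR2
      refine ⟨Q * R, ?_, fun x hx => ?_⟩
      · have := hQ1.mul hR1
        have e : (L' + 1) * (1 + d₀) = L' * (1 + d₀) + (1 + d₀) := by ring
        rw [e]
        exact this
      · rw [map_mul, map_mul, hQ2 x hx, hR2 x hx, eval_X]
        ring
    rcases s with ⟨a, b⟩ | s
    · by_cases hb : b = c
      · subst hb
        refine key (X a * F₀.1) ((isHomogeneous_X ℂ a).mul hd₀) fun x hx => ?_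
        rw [canon_inl, if_pos rfl, map_mul, eval_X, nrep]
        have := hx.1
        field_simp
      · refine key 0 (isHomogeneous_zero _ _ _) fun x hx => ?_
        rw [canon_inl, if_neg hb, map_zero, mul_zero]
    · by_cases hs : s = (F₀, c)
      · refine key (X c ^ (1 + d₀)) (isHomogeneous_X_pow c (1 + d₀)) fun x hx => ?_
        rw [canon_inr, if_pos hs, map_pow, eval_X, eval_rep_nrep hx.1 hd₀]
        have h1 := hx.1
        have h2 : eval (nrep c x) F₀.1 ≠ 0 := by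
          rw [Ne, eval_nrep_zero_iff hx.1 ⟨d₀, hd₀⟩]
          exact hx.2
        field_simp
        ring
      · refine key 0 (isHomogeneous_zero _ _ _) fun x hx => ?_
        rw [canon_inr, if_neg hs, map_zero, mul_zero]

lemma canon_hom' (hB : ∀ F ∈ B₀, ∃ d : ℕ, F.IsHomogeneous d) (c : Fin (N + 1)) (F₀ : B₀)
    (P : MvPolynomial (Idx N B₀) ℂ) :
    ∃ Q : MvPolynomial (Fin (N + 1)) ℂ, (∃ d, Q.IsHomogeneous d) ∧
      ∀ x : PP N, InCh c F₀.1 x → (eval x.rep Q = 0 ↔ eval (canon c F₀ x) P = 0) := by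
  obtain ⟨d₀, hd₀⟩ := hB F₀.1 F₀.2
  obtain ⟨L₀, h⟩ := canon_hom c F₀ hd₀ P
  obtain ⟨Q, hQ1, hQ2⟩ := h L₀ le_rfl
  refine ⟨Q, ⟨_, hQ1⟩, fun x hx => ?_⟩
  rw [hQ2 x hx, mul_eq_zero, or_iff_right]
  exact pow_ne_zero _ (mul_ne_zero hx.1 hx.2)

/-- the polynomials vanishing on a set -/
def vanI {κ : Type*} (U : Set (κ → ℂ)) : Ideal (MvPolynomial κ ℂ) :=
  ⨅ u : U, RingHom.ker (eval u.1)

lemma mem_vanI {κ : Type*} {U : Set (κ → ℂ)} {P : MvPolynomial κ ℂ} :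
    P ∈ vanI U ↔ ∀ u ∈ U, eval u P = 0 := by
  simp [vanI, RingHom.mem_ker]

/-- the part of `X` cut out by the forms of `CW` -/
def Cv (X : Set (PP N)) (CW : Set (MvPolynomial (Fin (N + 1)) ℂ)) : Set (PP N) :=
  {x | x ∈ X ∧ ∀ F ∈ CW, eval x.rep F = 0}

/-- the chart of the curve -/
def chU (X : Set (PP N)) (CW : Set (MvPolynomial (Fin (N + 1)) ℂ)) (c : Fin (N + 1)) (F₀ : B₀) :
    Set (Idx N B₀ → ℂ) :=
  {u | ∃ x ∈ Cv X CW, InCh c F₀.1 x ∧ u = canon c F₀ x}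

/-- a set all of whose proper closed subsets are finite -/
def IsCv (X : Set (PP N)) (CW : Set (MvPolynomial (Fin (N + 1)) ℂ)) : Prop :=
  (Cv X CW).Infinite ∧ ∀ Q : MvPolynomial (Fin (N + 1)) ℂ, (∃ d, Q.IsHomogeneous d) →
    (∀ x ∈ Cv X CW, eval x.rep Q = 0) ∨ {x | x ∈ Cv X CW ∧ eval x.rep Q = 0}.Finite

lemma nrep_of_mem {c : Fin (N + 1)} {x : PP N} {v : Fin (N + 1) → ℂ} (hv : v ∈ x.submodule)
    (hc : v c = 1) : x.rep c ≠ 0 ∧ nrep c x = v := by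
  obtain ⟨t, rfl⟩ := (mem_submodule_iff x v).mp hv
  rw [Pi.smul_apply, smul_eq_mul] at hc
  have h0 : x.rep c ≠ 0 := by
    intro h
    rw [h, mul_zero] at hc
    exact zero_ne_one hc
  refine ⟨h0, ?_⟩
  funext a
  rw [nrep, Pi.smul_apply, smul_eq_mul, div_eq_iff h0]
  linear_combination -x.rep a * hc

lemma canon_injOn {c : Fin (N + 1)} {F₀ : B₀} {x y : PP N} (hx : x.rep c ≠ 0) (hy : y.rep c ≠ 0)
    (h : canon c F₀ x = canon c F₀ y) : x = y := by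
  apply eq_of_nv (RingHom.id ℂ) hy hx
  funext a
  have := congrFun h (Sum.inl (a, c))
  rw [canon_inl, canon_inl, if_pos rfl, if_pos rfl] at this
  simpa [nv] using this

section Curve

variable {X : Set (PP N)} {A : Set (MvPolynomial (Fin (N + 1)) ℂ)}
  (hA : ∀ F ∈ A, ∃ d : ℕ, F.IsHomogeneous d) (hB : ∀ F ∈ B₀, ∃ d : ℕ, F.IsHomogeneous d)
  (hX : ∀ p : PP N, p ∈ X ↔ ((∀ F ∈ A, eval p.rep F = 0) ∧ ∃ F ∈ B₀, eval p.rep F ≠ 0))
  {CW : Set (MvPolynomial (Fin (N + 1)) ℂ)} (hCW : ∀ F ∈ CW, ∃ d : ℕ, F.IsHomogeneous d)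

include hA hB hX hCW in
/-- the zero set of the ideal of the chart is the chart -/
lemma chU_zero (c : Fin (N + 1)) (F₀ : B₀) {v : Idx N B₀ → ℂ}
    (hv : ∀ H ∈ vanI (chU X CW c F₀), eval v H = 0) : v ∈ chU X CW c F₀ := by
  classical
  -- the relations of the chart
  have h1 : v (Sum.inl (c, c)) = 1 := by
    have := hv (MvPolynomial.X (Sum.inl (c, c)) - 1) (by
      rw [mem_vanI]
      rintro u ⟨x, hx, hch, rfl⟩
      rw [map_sub, map_one, eval_X, canon_inl, if_pos rfl, nrep_self hch.1, sub_self])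
    rw [map_sub, map_one, eval_X] at this
    exact sub_eq_zero.mp this
  have h2 : ∀ a b, b ≠ c → v (Sum.inl (a, b)) = 0 := by
    intro a b hb
    have := hv (MvPolynomial.X (Sum.inl (a, b))) (by
      rw [mem_vanI]
      rintro u ⟨x, hx, hch, rfl⟩
      rw [eval_X, canon_inl, if_neg hb])
    rwa [eval_X] at this
  have h3 : ∀ s, s ≠ (F₀, c) → v (Sum.inr s) = 0 := by
    intro s hs
    have := hv (MvPolynomial.X (Sum.inr s)) (by
      rw [mem_vanI]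
      rintro u ⟨x, hx, hch, rfl⟩
      rw [eval_X, canon_inr, if_neg hs])
    rwa [eval_X] at this
  have h4 : v (Sum.inr (F₀, c)) * eval (col B₀ v c) F₀.1 = 1 := by
    have := hv (MvPolynomial.X (Sum.inr (F₀, c)) * bind₁ (colP B₀ c) F₀.1 - 1) (by
      rw [mem_vanI]
      rintro u ⟨x, hx, hch, rfl⟩
      rw [map_sub, map_one, map_mul, eval_X, eval_colP, canon_inr, if_pos rfl, canon_col,
        if_pos rfl, inv_mul_cancel₀, sub_self]
      rw [Ne, eval_nrep_zero_iff hch.1 (hB _ F₀.2)]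
      exact hch.2)
    rw [map_sub, map_one, map_mul, eval_X, eval_colP] at this
    exact sub_eq_zero.mp this
  have h5 : ∀ F : MvPolynomial (Fin (N + 1)) ℂ, (∃ d, F.IsHomogeneous d) →
      (∀ x ∈ Cv X CW, eval x.rep F = 0) → eval (col B₀ v c) F = 0 := by
    intro F hF hFx
    have := hv (bind₁ (colP B₀ c) F) (by
      rw [mem_vanI]
      rintro u ⟨x, hx, hch, rfl⟩
      rw [eval_colP]
      exact hom_zero (canon_rep c F₀ x c) hF (hFx x hx))
    rwa [eval_colP] at this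
  -- the point
  have hne : col B₀ v c ≠ 0 := by
    intro h
    have := congrFun h c
    rw [col, h1] at this
    exact one_ne_zero this
  set x : PP N := Projectivization.mk ℂ (col B₀ v c) hne with hx
  have hmem : col B₀ v c ∈ x.submodule := by
    rw [hx, Projectivization.submodule_mk]
    exact Submodule.mem_span_singleton_self _
  obtain ⟨hxc, hnrep⟩ := nrep_of_mem hmem h1
  have h5' : ∀ F : MvPolynomial (Fin (N + 1)) ℂ, (∃ d, F.IsHomogeneous d) →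
      (∀ x ∈ Cv X CW, eval x.rep F = 0) → eval x.rep F = 0 := by
    intro F hF hFx
    rw [← eval_nrep_zero_iff hxc hF, hnrep]
    exact h5 F hF hFx
  have hF₀x : eval x.rep F₀.1 ≠ 0 := by
    rw [Ne, ← eval_nrep_zero_iff hxc (hB _ F₀.2), hnrep]
    intro h0
    rw [h0, mul_zero] at h4
    exact zero_ne_one h4
  have hxX : x ∈ X := by
    rw [hX]
    exact ⟨fun F hF => h5' F (hA F hF) fun y hy => ((hX y).mp hy.1).1 F hF, F₀.1, F₀.2, hF₀x⟩
  refine ⟨x, ⟨hxX, fun F hF => h5' F (hCW F hF) fun y hy => hy.2 F hF⟩, ⟨hxc, hF₀x⟩, ?_⟩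
  funext s
  rcases s with ⟨a, b⟩ | s
  · rw [canon_inl]
    split_ifs with hb
    · subst hb
      rw [hnrep]
      rfl
    · exact h2 a b hb
  · rw [canon_inr]
    split_ifs with hs
    · rw [hs, hnrep]
      exact eq_inv_of_mul_eq_one_left h4
    · exact h3 s hs

include hB in
lemma IsCv.cofinite (hcv : IsCv X CW) {c : Fin (N + 1)} {F₀ : B₀} {w : PP N} (hw : w ∈ Cv X CW)
    (hch : InCh c F₀.1 w) : {x | x ∈ Cv X CW ∧ ¬ InCh c F₀.1 x}.Finite := by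
  have h1 : {x | x ∈ Cv X CW ∧ eval x.rep (MvPolynomial.X c) = 0}.Finite := by
    rcases hcv.2 (MvPolynomial.X c) ⟨1, isHomogeneous_X ℂ c⟩ with h | h
    · exact absurd (by simpa using h w hw) hch.1
    · exact h
  have h2 : {x | x ∈ Cv X CW ∧ eval x.rep F₀.1 = 0}.Finite := by
    rcases hcv.2 F₀.1 (hB _ F₀.2) with h | h
    · exact absurd (h w hw) hch.2
    · exact h
  refine (h1.union h2).subset ?_
  rintro x ⟨hx, hnot⟩
  by_cases hc : x.rep c = 0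
  · exact Or.inl ⟨hx, by simpa using hc⟩
  · refine Or.inr ⟨hx, ?_⟩
    by_contra hne
    exact hnot ⟨hc, hne⟩

include hB in
/-- a polynomial in a chart either vanishes on the curve or has finitely many zeros there -/
lemma IsCv.chart_finite (hcv : IsCv X CW) (c : Fin (N + 1)) (F₀ : B₀)
    (P : MvPolynomial (Idx N B₀) ℂ)
    (hP : ∃ x ∈ Cv X CW, InCh c F₀.1 x ∧ eval (canon c F₀ x) P ≠ 0) :
    {x | x ∈ Cv X CW ∧ InCh c F₀.1 x ∧ eval (canon c F₀ x) P = 0}.Finite := by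
  obtain ⟨x, hx, hch, hne⟩ := hP
  obtain ⟨Q, hQ, hQP⟩ := canon_hom' hB c F₀ P
  rcases hcv.2 Q hQ with h | h
  · exact absurd ((hQP x hch).mp (h x hx)) hne
  · exact h.subset fun y hy => ⟨hy.1, (hQP y hy.2.1).mpr hy.2.2⟩

include hB in
/-- a property given by polynomials in the charts which holds on one chart holds everywhere -/
lemma IsCv.spread (hcv : IsCv X CW) {c c' : Fin (N + 1)} {F₀ F₀' : B₀} {w : PP N}
    (hw : w ∈ Cv X CW) (hch : InCh c F₀.1 w) (P : MvPolynomial (Idx N B₀) ℂ)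
    (S : Set (PP N)) (hS : ∀ x ∈ Cv X CW, InCh c F₀.1 x → x ∈ S)
    (hSP : ∀ x ∈ Cv X CW, InCh c' F₀'.1 x → x ∈ S → eval (canon c' F₀' x) P = 0)
    {y : PP N} (hy : y ∈ Cv X CW) (hych : InCh c' F₀'.1 y) : eval (canon c' F₀' y) P = 0 := by
  by_contra hne
  have h1 := hcv.chart_finite hB c' F₀' P ⟨y, hy, hych, hne⟩
  have h2 := hcv.cofinite hB hw hch
  have h3 := hcv.cofinite hB hy hych
  apply hcv.1
  refine ((h1.union h2).union h3).subset ?_
  intro x hx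
  by_cases hc' : InCh c' F₀'.1 x
  · by_cases hc : InCh c F₀.1 x
    · exact Or.inl (Or.inl ⟨hx, hc', hSP x hx hc' (hS x hx hc)⟩)
    · exact Or.inl (Or.inr ⟨hx, hc⟩)
  · exact Or.inr ⟨hx, hc'⟩

include hB in
lemma IsCv.chart_infinite (hcv : IsCv X CW) {c : Fin (N + 1)} {F₀ : B₀} {w : PP N}
    (hw : w ∈ Cv X CW) (hch : InCh c F₀.1 w) : (chU X CW c F₀).Infinite := by
  have h1 : {x | x ∈ Cv X CW ∧ InCh c F₀.1 x}.Infinite := by
    intro h
    apply hcv.1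
    refine (h.union (hcv.cofinite hB hw hch)).subset fun x hx => ?_
    by_cases hc : InCh c F₀.1 x
    · exact Or.inl ⟨hx, hc⟩
    · exact Or.inr ⟨hx, hc⟩
  have h2 : Set.InjOn (canon c F₀) {x | x ∈ Cv X CW ∧ InCh c F₀.1 x} :=
    fun x hx y hy h => canon_injOn hx.2.1 hy.2.1 h
  refine (h1.image h2).mono ?_
  rintro _ ⟨x, hx, rfl⟩
  exact ⟨x, hx.1, hx.2, rfl⟩

include hB in
lemma IsCv.chart_fin (hcv : IsCv X CW) (c : Fin (N + 1)) (F₀ : B₀)
    {P : MvPolynomial (Idx N B₀) ℂ} (hP : P ∉ vanI (chU X CW c F₀)) :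
    {v | v ∈ chU X CW c F₀ ∧ eval v P = 0}.Finite := by
  rw [mem_vanI] at hP
  push Not at hP
  obtain ⟨u, ⟨x, hx, hch, rfl⟩, hne⟩ := hP
  refine ((hcv.chart_finite hB c F₀ P ⟨x, hx, hch, hne⟩).image (canon c F₀)).subset ?_
  rintro v ⟨⟨y, hy, hych, rfl⟩, hv⟩
  exact ⟨y, ⟨hy, hych, hv⟩, rfl⟩

include hB in
lemma IsCv.chart_prime (hcv : IsCv X CW) {c : Fin (N + 1)} {F₀ : B₀} {w : PP N}
    (hw : w ∈ Cv X CW) (hch : InCh c F₀.1 w) : (vanI (chU X CW c F₀)).IsPrime := by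
  refine ⟨?_, ?_⟩
  · rw [Ne, Ideal.eq_top_iff_one, mem_vanI]
    push Not
    exact ⟨_, ⟨w, hw, hch, rfl⟩, by simp⟩
  · intro P P' hPP'
    by_contra hcon
    push Not at hcon
    have h1 := hcv.chart_fin hB c F₀ hcon.1
    have h2 := hcv.chart_fin hB c F₀ hcon.2
    apply hcv.chart_infinite hB hw hch
    refine (h1.union h2).subset fun v hv => ?_
    have h3 := mem_vanI.mp hPP' v hv
    rw [map_mul, mul_eq_zero] at h3
    rcases h3 with h3 | h3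
    · exact Or.inl ⟨hv, h3⟩
    · exact Or.inr ⟨hv, h3⟩

include hB in
lemma IsCv.chart_coord (hcv : IsCv X CW) {c : Fin (N + 1)} {F₀ : B₀} {w : PP N}
    (hw : w ∈ Cv X CW) (hch : InCh c F₀.1 w) :
    ∃ a₀ : Fin (N + 1), ∀ t : ℂ, MvPolynomial.X (Sum.inl (a₀, c)) - C t ∉ vanI (chU X CW c F₀) := by
  by_contra hcon
  push Not at hcon
  choose t ht using hcon
  apply hcv.chart_infinite hB hw hch
  refine (Set.finite_singleton (canon c F₀ w)).subset ?_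
  rintro u ⟨x, hx, hxch, rfl⟩
  rw [Set.mem_singleton_iff]
  have h1 : ∀ y ∈ Cv X CW, InCh c F₀.1 y → ∀ a, nrep c y a = t a := by
    intro y hy hych a
    have := mem_vanI.mp (ht a) _ ⟨y, hy, hych, rfl⟩
    rw [map_sub, eval_X, eval_C, canon_inl, if_pos rfl] at this
    exact sub_eq_zero.mp this
  have h2 : x = w := by
    apply eq_of_nv (RingHom.id ℂ) hch.1 hxch.1
    funext a
    simp only [nv, RingHom.id_apply]
    rw [h1 x hx hxch a, h1 w hw hch a]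
  rw [h2]

include hA hB hX hCW in
/-- Liouville's inequality on a chart of a curve -/
theorem chart_liouville (hcv : IsCv X CW) (c : Fin (N + 1)) (F₀ : B₀) :
    ∃ S : Finset ℂ, ∀ (p : ℕ) [Fact p.Prime] (σ : ℂ →+* PadicAlgCl p) (T : Set ℂ),
      (S : Set ℂ) ⊆ T → HasLM p σ T →
      ∀ (τ : Type) [Finite τ] (a : τ → ℂ), (∀ i, a i ∈ T) →
      ∀ w ∈ Cv X CW, InCh c F₀.1 w →
      (∃ P₀ : MvPolynomial (τ ⊕ Idx N B₀) ℤ,
        (∃ x ∈ Cv X CW, InCh c F₀.1 x ∧ aeval (Sum.elim a (canon c F₀ x)) P₀ ≠ 0) ∧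
        aeval (Sum.elim a (canon c F₀ w)) P₀ = 0) →
      ∃ (κ₁ : ℕ) (E : Set (PP N)), E.Finite ∧ w ∉ E ∧
        ∀ D, 1 ≤ D → ∀ P : MvPolynomial (τ ⊕ Idx N B₀) ℤ, Sz D P →
        (∃ x ∈ Cv X CW, InCh c F₀.1 x ∧ aeval (Sum.elim a (canon c F₀ x)) P ≠ 0) →
        ∀ v ∈ Cv X CW, InCh c F₀.1 v → aeval (Sum.elim a (canon c F₀ v)) P = 0 → v ≠ w → v ∉ E →
          ‖nv σ c v - nv σ c w‖ ≤ 1 → (1 / 2 : ℝ) ^ (κ₁ * D ^ κ₁) ≤ ‖nv σ c v - nv σ c w‖ := by
  classical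
  by_cases hnon : ∃ w ∈ Cv X CW, InCh c F₀.1 w
  swap
  · refine ⟨∅, fun p _ σ T _ _ τ _ a _ w hw hch => absurd ⟨w, hw, hch⟩ hnon⟩
  obtain ⟨w₀, hw₀, hch₀⟩ := hnon
  have := hcv.chart_prime hB hw₀ hch₀
  obtain ⟨a₀, ha₀⟩ := hcv.chart_coord hB hw₀ hch₀
  have hfin : ∀ P ∉ vanI (chU X CW c F₀),
      {v : Idx N B₀ → ℂ | (∀ H ∈ vanI (chU X CW c F₀), eval v H = 0) ∧ eval v P = 0}.Finite := by
    intro P hP
    refine (hcv.chart_fin hB c F₀ hP).subset ?_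
    rintro v ⟨h1, h2⟩
    exact ⟨chU_zero hA hB hX hCW c F₀ h1, h2⟩
  obtain ⟨S, hS⟩ := curve_liouville (vanI (chU X CW c F₀)) hfin ha₀
  refine ⟨S, fun p hp σ T hST hLM τ _ a ha w hw hch hP₀ => ?_⟩
  have hI : ∀ v ∈ Cv X CW, InCh c F₀.1 v → ∀ H ∈ vanI (chU X CW c F₀),
      eval (canon c F₀ v) H = 0 := fun v hv hvch H hH => mem_vanI.mp hH _ ⟨v, hv, hvch, rfl⟩
  -- specialising the coefficients
  have hspec : ∀ (P : MvPolynomial (τ ⊕ Idx N B₀) ℤ) (u : Idx N B₀ → ℂ),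
      eval u (aeval (Sum.elim (fun i => C (a i)) MvPolynomial.X :
        τ ⊕ Idx N B₀ → MvPolynomial (Idx N B₀) ℂ) P) = aeval (Sum.elim a u) P := by
    intro P u
    have h1 : ∀ Q : MvPolynomial (τ ⊕ Idx N B₀) ℤ,
        ((eval u).comp ((aeval (Sum.elim (fun i => C (a i)) MvPolynomial.X :
          τ ⊕ Idx N B₀ → MvPolynomial (Idx N B₀) ℂ) : _ →ₐ[ℤ] _) :
            MvPolynomial (τ ⊕ Idx N B₀) ℤ →+* MvPolynomial (Idx N B₀) ℂ)) Q =
        ((aeval (Sum.elim a u) : _ →ₐ[ℤ] _) : MvPolynomial (τ ⊕ Idx N B₀) ℤ →+* ℂ) Q := by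
      intro Q
      congr 1
      apply MvPolynomial.ringHom_ext
      · intro r
        simp
      · rintro (i | i)
        · simp
        · simp
    exact h1 P
  have hnotin : ∀ (P : MvPolynomial (τ ⊕ Idx N B₀) ℤ),
      (∃ x ∈ Cv X CW, InCh c F₀.1 x ∧ aeval (Sum.elim a (canon c F₀ x)) P ≠ 0) →
      aeval (Sum.elim (fun i => C (a i)) MvPolynomial.X :
        τ ⊕ Idx N B₀ → MvPolynomial (Idx N B₀) ℂ) P ∉ vanI (chU X CW c F₀) := by
    rintro P ⟨x, hx, hxch, hne⟩ hmem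
    apply hne
    rw [← hspec]
    exact mem_vanI.mp hmem _ ⟨x, hx, hxch, rfl⟩
  obtain ⟨P₀, hP₀1, hP₀2⟩ := hP₀
  obtain ⟨κ₁, hκ₁⟩ := hS p σ T hST hLM τ a ha (canon c F₀ w) (hI w hw hch)
    ⟨P₀, hnotin P₀ hP₀1, hP₀2⟩
  refine ⟨κ₁, {v | v ∈ Cv X CW ∧ InCh c F₀.1 v ∧ nrep c v a₀ = nrep c w a₀ ∧ v ≠ w}, ?_, ?_, ?_⟩
  · have h1 := hcv.chart_finite hB c F₀ (MvPolynomial.X (Sum.inl (a₀, c)) - C (nrep c w a₀)) (by
      have h2 := ha₀ (nrep c w a₀)
      rw [mem_vanI] at h2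
      push Not at h2
      obtain ⟨u, ⟨x, hx, hxch, rfl⟩, hne⟩ := h2
      exact ⟨x, hx, hxch, hne⟩)
    refine h1.subset ?_
    rintro v ⟨hv, hvch, heq, _⟩
    refine ⟨hv, hvch, ?_⟩
    rw [map_sub, eval_X, eval_C, canon_inl, if_pos rfl, heq, sub_self]
  · rintro ⟨_, _, _, h⟩
    exact h rfl
  · intro D hD P hP hPne v hv hvch hvP hvw hvE hle
    have hne : canon c F₀ v (Sum.inl (a₀, c)) ≠ canon c F₀ w (Sum.inl (a₀, c)) := by
      rw [canon_inl, canon_inl, if_pos rfl, if_pos rfl]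
      intro heq
      exact hvE ⟨hv, hvch, heq, hvw⟩
    have hcoord : ‖σ (canon c F₀ v (Sum.inl (a₀, c))) - σ (canon c F₀ w (Sum.inl (a₀, c)))‖ ≤
        ‖nv σ c v - nv σ c w‖ := by
      rw [canon_inl, canon_inl, if_pos rfl, if_pos rfl]
      exact norm_le_pi_norm (nv σ c v - nv σ c w) a₀
    exact (hκ₁ D hD P hP (hnotin P hPne) (canon c F₀ v) (hI v hv hvch) hvP hne
      (hcoord.trans hle)).trans hcoord

end Curve

end

end Pool.Agent.Helper86.DML
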