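import Mathlib

/-!
# Gluing the residue classes
-/

namespace Pool.Agent.Helper86.DML

/-- a decomposition of each residue class gives a decomposition of the whole set -/
lemma glue (Sp : Set ℕ → Prop) (hmono : ∀ {S T : Set ℕ}, Sp S → T ⊆ S → Sp T)
    (hunion : ∀ {S T : Set ℕ}, Sp S → Sp T → Sp (S ∪ T))
    (hbd : ∀ {S : Set ℕ} (a : ℕ), (∀ k ∈ S, k < a) → Sp S)
    (hre : ∀ {S : Set ℕ}, Sp S → ∀ a M : ℕ, 1 ≤ M → Sp {n | ∃ k ∈ S, n = a + M * k})
    {S : Set ℕ} {n₀ M : ℕ} (hM : 1 ≤ M)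
    (h : ∀ j, ∃ (T : Finset (ℕ × ℕ)) (R : Set ℕ), Sp R ∧
      {k | n₀ + j + M * k ∈ S} = {n : ℕ | ∃ t ∈ T, ∃ k : ℕ, n = t.1 + t.2 * k} ∪ R) :
    ∃ (T : Finset (ℕ × ℕ)) (R : Set ℕ), Sp R ∧
      S = {n : ℕ | ∃ t ∈ T, ∃ k : ℕ, n = t.1 + t.2 * k} ∪ R := by
  classical
  choose T R hR hTR using h
  have hsup : ∀ m : ℕ, Sp {n | ∃ j < m, ∃ k ∈ R j, n = n₀ + j + M * k} := by
    intro m
    induction m with
    | zero => exact hbd 0 (by rintro k ⟨j, hj, _⟩; omega)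
    | succ m ih =>
      refine hmono (hunion ih (hre (hR m) (n₀ + m) M hM)) ?_
      rintro n ⟨j, hj, k, hk, rfl⟩
      rcases Nat.lt_succ_iff_lt_or_eq.mp hj with hj | rfl
      · exact Or.inl ⟨j, hj, k, hk, rfl⟩
      · exact Or.inr ⟨k, hk, rfl⟩
  refine ⟨(Finset.range M).biUnion fun j => (T j).image fun t => (n₀ + j + M * t.1, M * t.2),
    {n | n ∈ S ∧ n < n₀} ∪ {n | ∃ j < M, ∃ k ∈ R j, n = n₀ + j + M * k},
    hunion (hbd n₀ fun k hk => hk.2) (hsup M), ?_⟩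
  ext n
  constructor
  · intro hn
    by_cases hn0 : n < n₀
    · exact Or.inr (Or.inl ⟨hn, hn0⟩)
    · have h1 : n = n₀ + (n - n₀) % M + M * ((n - n₀) / M) := by
        have := Nat.mod_add_div (n - n₀) M
        omega
      have h2 : (n - n₀) / M ∈ {k | n₀ + (n - n₀) % M + M * k ∈ S} := by
        show n₀ + (n - n₀) % M + M * ((n - n₀) / M) ∈ S
        rw [← h1]
        exact hn
      rw [hTR] at h2
      have h3 : (n - n₀) % M < M := Nat.mod_lt _ (by omega)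
      rcases h2 with ⟨t, ht, k, hk⟩ | h2
      · refine Or.inl ⟨(n₀ + (n - n₀) % M + M * t.1, M * t.2), ?_, k, ?_⟩
        · rw [Finset.mem_biUnion]
          exact ⟨_, Finset.mem_range.mpr h3, Finset.mem_image.mpr ⟨t, ht, rfl⟩⟩
        · show n = n₀ + (n - n₀) % M + M * t.1 + M * t.2 * k
          calc n = n₀ + (n - n₀) % M + M * ((n - n₀) / M) := h1
            _ = n₀ + (n - n₀) % M + M * (t.1 + t.2 * k) := by rw [hk]
            _ = _ := by ring
      · exact Or.inr (Or.inr ⟨_, h3, _, h2, h1⟩)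
  · rintro (⟨t, ht, k, hk⟩ | (hn | ⟨j, hj, k, hk, rfl⟩))
    · rw [Finset.mem_biUnion] at ht
      obtain ⟨j, hj, ht⟩ := ht
      obtain ⟨t', ht', rfl⟩ := Finset.mem_image.mp ht
      have h1 : t'.1 + t'.2 * k ∈ {k | n₀ + j + M * k ∈ S} := by
        rw [hTR]
        exact Or.inl ⟨t', ht', k, rfl⟩
      have h2 : n₀ + j + M * (t'.1 + t'.2 * k) ∈ S := h1
      have h3 : n = n₀ + j + M * (t'.1 + t'.2 * k) := by
        rw [hk]
        show n₀ + j + M * t'.1 + M * t'.2 * k = _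
        ring
      rw [h3]
      exact h2
    · exact hn.1
    · have h1 : k ∈ {k | n₀ + j + M * k ∈ S} := by
        rw [hTR]
        exact Or.inr hk
      exact h1

/-- a set closed under adding `r` (from some point on) is a finite union of progressions -/
lemma eventually_all {S : Set ℕ} {a : ℕ} (h : ∀ k, a ≤ k → k ∈ S) :
    ∃ (T : Finset (ℕ × ℕ)) (R : Set ℕ), (∀ k ∈ R, k < a) ∧
      S = {n : ℕ | ∃ t ∈ T, ∃ k : ℕ, n = t.1 + t.2 * k} ∪ R := by
  refine ⟨{(a, 1)}, {k | k ∈ S ∧ k < a}, fun k hk => hk.2, ?_⟩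
  ext n
  simp only [Finset.mem_singleton, exists_eq_left, one_mul, Set.mem_union, Set.mem_ofPred_eq]
  constructor
  · intro hn
    by_cases hna : n < a
    · exact Or.inr ⟨hn, hna⟩
    · exact Or.inl ⟨n - a, by omega⟩
  · rintro (⟨k, rfl⟩ | hn)
    · exact h _ (Nat.le_add_right _ _)
    · exact hn.1

end Pool.Agent.Helper86.DML
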