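import Mathlib
import Pool.Agent.Helper86.DML.Sparse

/-!
# Sets of natural numbers with boundedly many elements in geometric windows
-/

namespace Pool.Agent.Helper86.DML

open Finset

/-- boundedly many elements in the windows `[n, (1 + 1 / K) n]` -/
def Gp (S : Set ℕ) : Prop :=
  ∃ s K n₁ : ℕ, 1 ≤ K ∧ ∀ n ≥ n₁, ∀ T : Finset ℕ,
    (∀ k ∈ T, k ∈ S ∧ n ≤ k ∧ K * k ≤ (K + 1) * n) → T.card ≤ s

lemma Gp.mono {S S' : Set ℕ} (h : Gp S') (hS : S ⊆ S') : Gp S := by
  obtain ⟨s, K, n₁, hK, h⟩ := h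
  exact ⟨s, K, n₁, hK, fun n hn T hT => h n hn T fun k hk => ⟨hS (hT k hk).1, (hT k hk).2⟩⟩

lemma window_mono {K K' k n : ℕ} (hKK' : K ≤ K') (hn : n ≤ k)
    (h : K' * k ≤ (K' + 1) * n) : K * k ≤ (K + 1) * n := by
  obtain ⟨t, rfl⟩ := Nat.exists_eq_add_of_le hn
  have h1 : K' * t ≤ n := by
    have e1 : K' * (n + t) = K' * n + K' * t := by ring
    have e2 : (K' + 1) * n = K' * n + n := by ring
    omega
  have h2 : K * t ≤ K' * t := Nat.mul_le_mul_right _ hKK'
  have e1 : K * (n + t) = K * n + K * t := by ring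
  have e2 : (K + 1) * n = K * n + n := by ring
  omega

lemma Gp.union {S S' : Set ℕ} (h : Gp S) (h' : Gp S') : Gp (S ∪ S') := by
  classical
  obtain ⟨s, K, n₁, hK, h⟩ := h
  obtain ⟨s', K', n₁', hK', h'⟩ := h'
  refine ⟨s + s', max K K', max n₁ n₁', le_trans hK (le_max_left _ _), fun n hn T hT => ?_⟩
  have hn1 : n₁ ≤ n := le_trans (le_max_left _ _) hn
  have hn2 : n₁' ≤ n := le_trans (le_max_right _ _) hn
  have h1 := h n hn1 (T.filter (· ∈ S)) (by
    intro k hk
    rw [Finset.mem_filter] at hk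
    have := hT k hk.1
    exact ⟨hk.2, this.2.1, window_mono (le_max_left _ _) this.2.1 this.2.2⟩)
  have h2 := h' n hn2 (T.filter (¬ · ∈ S)) (by
    intro k hk
    rw [Finset.mem_filter] at hk
    have := hT k hk.1
    exact ⟨this.1.resolve_left hk.2, this.2.1, window_mono (le_max_right _ _) this.2.1 this.2.2⟩)
  have h3 := Finset.card_filter_add_card_filter_not (s := T) (· ∈ S)
  omega

lemma Gp.of_bounded {S : Set ℕ} (a : ℕ) (h : ∀ k ∈ S, k < a) : Gp S := by
  refine ⟨0, 1, a, le_rfl, fun n hn T hT => ?_⟩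
  rw [Nat.le_zero, Finset.card_eq_zero]
  apply Finset.eq_empty_of_forall_notMem
  intro k hk
  have h1 := hT k hk
  have h2 := h k h1.1
  omega

/-- reindexing along an arithmetic progression -/
lemma Gp.reindex {S' : Set ℕ} (h : Gp S') (a M : ℕ) (hM : 1 ≤ M) :
    Gp {n | ∃ k ∈ S', n = a + M * k} := by
  classical
  obtain ⟨s, K, n₁, hK, h⟩ := h
  refine ⟨s, 2 * K, 2 * a + a + M * n₁ + M, by omega, fun n hn T hT => ?_⟩
  set n' := (n - a + (M - 1)) / M with hn'
  have hn'1 : n - a ≤ M * n' := by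
    have h1 := Nat.div_add_mod (n - a + (M - 1)) M
    have h2 := Nat.mod_lt (n - a + (M - 1)) (by omega : 0 < M)
    rw [← hn'] at h1
    omega
  have hn'2 : ∀ k, n ≤ a + M * k → n' ≤ k := by
    intro k hk
    rw [hn']
    have h1 : n - a + (M - 1) < M * (k + 1) := by
      have : M * (k + 1) = M * k + M := by ring
      omega
    have := (Nat.div_lt_iff_lt_mul (by omega : 0 < M)).mpr (by rw [mul_comm] at h1; exact h1)
    omega
  have hn'3 : n₁ ≤ n' := by
    by_contra hcon
    push Not at hcon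
    have : M * n' ≤ M * n₁ := Nat.mul_le_mul_left _ hcon.le
    omega
  have hinj : ∀ k ∈ T, ∃ k' ∈ S', k = a + M * k' := fun k hk => (hT k hk).1
  choose! κ hκ1 hκ2 using hinj
  have h1 := h n' hn'3 (T.image κ) (by
    intro k' hk'
    rw [Finset.mem_image] at hk'
    obtain ⟨k, hk, rfl⟩ := hk'
    have h2 := hT k hk
    have h3 := hκ2 k hk
    refine ⟨hκ1 k hk, hn'2 _ (by rw [← h3]; exact h2.2.1), ?_⟩
    have h4 : 2 * K * (a + M * κ k) ≤ (2 * K + 1) * n := by
      rw [← h3]
      exact h2.2.2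
    have h5 : n ≤ M * n' + a := by omega
    have h6 : 2 * a ≤ n := by omega
    -- multiply by `2 M`
    have h7 : (2 * M) * (K * κ k) ≤ (2 * M) * ((K + 1) * n') := by
      have e1 : (2 * M) * (K * κ k) + 2 * K * a = 2 * K * (a + M * κ k) := by ring
      have e2 : (2 * M) * ((K + 1) * n') = (2 * K + 2) * (M * n') := by ring
      have e3 : (2 * K + 2) * n ≤ (2 * K + 2) * (M * n' + a) := Nat.mul_le_mul_left _ h5
      have e4 : (2 * K + 2) * (M * n' + a) = (2 * K + 2) * (M * n') + 2 * K * a + 2 * a := by ring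
      have e5 : (2 * K + 2) * n = (2 * K + 1) * n + n := by ring
      omega
    exact Nat.le_of_mul_le_mul_left h7 (by omega))
  rwa [Finset.card_image_of_injOn] at h1
  intro k hk k' hk' hkk'
  rw [hκ2 k hk, hκ2 k' hk', hkk']

/-- super-sparse sets -/
lemma SSp.gp {S : Set ℕ} (h : SSp S) : Gp S := by
  obtain ⟨s, K, n₁, hK, h⟩ := h
  refine ⟨s, 1, n₁ + 8 * K * K + 1, le_rfl, fun n hn T hT => h n (by omega) T fun k hk => ?_⟩
  have h1 := hT k hk
  refine ⟨h1.1, h1.2.1, ?_⟩
  have h2 : k ≤ 2 * n := by omega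
  have h3 : n < 2 ^ (n / K) := by
    -- `n < K (q + 1)` with `q = n / K ≥ 8 K`
    set q := n / K with hq
    have h4 : 8 * K ≤ q := by
      rw [hq, Nat.le_div_iff_mul_le (by omega)]
      omega
    have h5 : n < K * (q + 1) := by
      have h6 := Nat.div_add_mod n K
      have h7 := Nat.mod_lt n (by omega : 0 < K)
      have e : K * (q + 1) = K * q + K := by ring
      rw [← hq] at h6
      omega
    have h6 : ∀ q, 8 ≤ q → q * (q + 1) ≤ 2 ^ q := by
      intro q hq
      induction q, hq using Nat.le_induction with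
      | base => norm_num
      | succ q hq ih =>
        rw [pow_succ]
        nlinarith
    have h7 := h6 q (by omega)
    have h8 : K * (q + 1) ≤ q * (q + 1) := Nat.mul_le_mul_right _ (by omega)
    omega
  omega

/-- lacunary sets -/
lemma Gp.of_lac {S : Set ℕ} (A B : ℕ)
    (h : ∀ t ∈ S, ∀ l, 1 ≤ l → t + l ∈ S → t ≤ A + B * l) : Gp S := by
  classical
  refine ⟨1, 2 * B + 1, 2 * A + 1, by omega, fun n hn T hT => ?_⟩
  rw [Finset.card_le_one]
  have key : ∀ a ∈ T, ∀ b ∈ T, a < b → False := by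
    intro a ha b hb hab
    obtain ⟨l, rfl⟩ := Nat.exists_eq_add_of_lt hab
    have h1 := hT a ha
    have h2 := hT _ hb
    have h3 := h a h1.1 (l + 1) (by omega) (by rw [← add_assoc]; exact h2.1)
    have h4 := h2.2.2
    have h5 : (2 * B + 1) * (l + 1) ≤ n := by
      have e1 : (2 * B + 1) * (a + l + 1) = (2 * B + 1) * a + (2 * B + 1) * (l + 1) := by ring
      have e2 : (2 * B + 1 + 1) * n = (2 * B + 1) * n + n := by ring
      have e3 : (2 * B + 1) * n ≤ (2 * B + 1) * a := Nat.mul_le_mul_left _ h1.2.1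
      omega
    have h6 : (2 * B + 1) * (l + 1) = 2 * (B * (l + 1)) + (l + 1) := by ring
    have h7 := h1.2.1
    omega
  intro a ha b hb
  rcases lt_trichotomy a b with hab | hab | hab
  · exact (key a ha b hb hab).elim
  · exact hab
  · exact (key b hb a ha hab).elim

/-- the real form: boundedly many elements in the windows `[x, q x]` -/
lemma Gp.final {S : Set ℕ} (h : Gp S) :
    ∃ (s : ℕ) (q : ℝ), 1 < q ∧ ∀ n : ℕ, {k : ℕ | n ≤ k ∧ (k : ℝ) ≤ q * n ∧ k ∈ S}.encard ≤ s := by
  classical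
  obtain ⟨s, K, n₁, hK, h⟩ := h
  have hKpos : (0 : ℝ) < K := by exact_mod_cast hK
  refine ⟨max s (2 * n₁ + 1), 1 + 1 / K, by
    have : 0 < 1 / (K : ℝ) := by positivity
    linarith, fun n => ?_⟩
  have hle : ∀ k : ℕ, (k : ℝ) ≤ (1 + 1 / K) * n → K * k ≤ (K + 1) * n := by
    intro k hk
    have h1 : (K : ℝ) * k ≤ (K + 1) * n := by
      calc (K : ℝ) * k ≤ K * ((1 + 1 / K) * n) := by gcongr
        _ = _ := by field_simp
    exact_mod_cast h1
  by_cases hn : n₁ ≤ n
  · have h1 : {k : ℕ | n ≤ k ∧ (k : ℝ) ≤ (1 + 1 / K) * n ∧ k ∈ S} ⊆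
        ((Finset.Icc n (2 * n)).filter fun k => k ∈ S ∧ K * k ≤ (K + 1) * n : Finset ℕ) := by
      intro k hk
      have h2 := hle k hk.2.1
      rw [Finset.coe_filter]
      refine ⟨Finset.mem_Icc.mpr ⟨hk.1, ?_⟩, hk.2.2, h2⟩
      have h3 : K * k ≤ K * (2 * n) := by
        have e1 : K * (2 * n) = K * n + K * n := by ring
        have e2 : (K + 1) * n = K * n + n := by ring
        have e3 : n ≤ K * n := Nat.le_mul_of_pos_left _ hK
        omega
      exact Nat.le_of_mul_le_mul_left h3 hK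
    have h2 := h n hn ((Finset.Icc n (2 * n)).filter fun k => k ∈ S ∧ K * k ≤ (K + 1) * n) (by
      intro k hk
      rw [Finset.mem_filter, Finset.mem_Icc] at hk
      exact ⟨hk.2.1, hk.1.1, hk.2.2⟩)
    calc _ ≤ _ := Set.encard_le_encard h1
      _ = (((Finset.Icc n (2 * n)).filter fun k => k ∈ S ∧ K * k ≤ (K + 1) * n).card : ℕ∞) :=
          Set.encard_coe_eq_coe_finsetCard _
      _ ≤ _ := by exact_mod_cast h2.trans (le_max_left _ _)
  · push Not at hn
    have h1 : {k : ℕ | n ≤ k ∧ (k : ℝ) ≤ (1 + 1 / K) * n ∧ k ∈ S} ⊆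
        (Finset.range (2 * n₁ + 1) : Finset ℕ) := by
      intro k hk
      have h2 := hle k hk.2.1
      have h3 : K * k ≤ K * (2 * n) := by
        have e1 : K * (2 * n) = K * n + K * n := by ring
        have e2 : (K + 1) * n = K * n + n := by ring
        have e3 : n ≤ K * n := Nat.le_mul_of_pos_left _ hK
        omega
      have h4 := Nat.le_of_mul_le_mul_left h3 hK
      rw [Finset.coe_range, Set.mem_Iio]
      omega
    calc _ ≤ _ := Set.encard_le_encard h1
      _ = ((Finset.range (2 * n₁ + 1)).card : ℕ∞) := Set.encard_coe_eq_coe_finsetCard _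
      _ ≤ _ := by
        rw [Finset.card_range]
        exact_mod_cast le_max_right _ _

/-- logarithmically many elements -/
lemma Gp.log {S : Set ℕ} (h : Gp S) :
    ∃ C : ℝ, ∀ n : ℕ, 2 ≤ n → (({k : ℕ | k ≤ n ∧ k ∈ S}.ncard : ℕ) : ℝ) ≤ C * Real.log n := by
  classical
  obtain ⟨s, K, n₁, hK, h⟩ := h
  let f : ℕ → ℕ := fun n => ((Finset.range (n + 1)).filter (· ∈ S)).card
  have hf : ∀ n, {k : ℕ | k ≤ n ∧ k ∈ S}.ncard = f n := by
    intro n
    have : {k : ℕ | k ≤ n ∧ k ∈ S} = ((Finset.range (n + 1)).filter (· ∈ S) : Finset ℕ) := by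
      ext k
      simp [Nat.lt_succ_iff]
    rw [this, Set.ncard_coe_finset]
  have hmono : ∀ a b, a ≤ b → f a ≤ f b := by
    intro a b hab
    exact Finset.card_le_card (Finset.filter_subset_filter _ (Finset.range_subset_range.mpr
      (by omega)))
  have hKpos : (0 : ℝ) < K := by exact_mod_cast hK
  -- one window
  have hwin : ∀ n, 2 * n₁ + 2 ≤ n → f n ≤ f (K * n / (K + 1)) + s := by
    intro n hn
    set m := K * n / (K + 1) with hm
    have hm1 : K * n < (K + 1) * (m + 1) := by
      have := Nat.lt_mul_div_succ (K * n) (show 0 < K + 1 by omega)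
      exact this
    have hm2 : n₁ ≤ m + 1 := by
      by_contra hcon
      push Not at hcon
      have h1 : (K + 1) * (m + 1) ≤ (K + 1) * n₁ := Nat.mul_le_mul_left _ hcon.le
      have h2 : K * (2 * n₁ + 2) ≤ K * n := Nat.mul_le_mul_left _ hn
      have e1 : K * (2 * n₁ + 2) = K * n₁ + K * n₁ + 2 * K := by ring
      have e2 : (K + 1) * n₁ = K * n₁ + n₁ := by ring
      have e3 : n₁ ≤ K * n₁ := Nat.le_mul_of_pos_left _ hK
      omega
    have h1 := h (m + 1) hm2 ((Finset.Icc (m + 1) n).filter (· ∈ S)) (by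
      intro k hk
      rw [Finset.mem_filter, Finset.mem_Icc] at hk
      refine ⟨hk.2, hk.1.1, ?_⟩
      have : K * k ≤ K * n := Nat.mul_le_mul_left _ hk.1.2
      omega)
    have h2 : (Finset.range (n + 1)).filter (· ∈ S) ⊆
        (Finset.range (m + 1)).filter (· ∈ S) ∪ (Finset.Icc (m + 1) n).filter (· ∈ S) := by
      intro k hk
      rw [Finset.mem_filter, Finset.mem_range] at hk
      rw [Finset.mem_union, Finset.mem_filter, Finset.mem_filter, Finset.mem_range,
        Finset.mem_Icc]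
      by_cases h3 : k < m + 1
      · exact Or.inl ⟨h3, hk.2⟩
      · exact Or.inr ⟨by omega, hk.2⟩
    calc f n ≤ _ := Finset.card_le_card h2
      _ ≤ f m + ((Finset.Icc (m + 1) n).filter (· ∈ S)).card := Finset.card_union_le _ _
      _ ≤ f m + s := Nat.add_le_add_left h1 _
  set θ : ℝ := Real.log ((K + 1) / K) with hθ
  have hθ0 : 0 < θ := by
    apply Real.log_pos
    rw [lt_div_iff₀ hKpos]
    linarith
  set n₀ := 2 * n₁ + 2 with hn₀
  have key : ∀ n : ℕ, 1 ≤ n → (f n : ℝ) ≤ f n₀ + s / θ * Real.log n := by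
    intro n
    induction n using Nat.strong_induction_on with
    | _ n ih =>
      intro hn
      have hlog : 0 ≤ Real.log n := Real.log_natCast_nonneg n
      by_cases hnn : n ≤ n₀
      · have h1 : (f n : ℝ) ≤ f n₀ := by exact_mod_cast hmono n n₀ hnn
        have : 0 ≤ s / θ * Real.log n := by positivity
        linarith
      · push Not at hnn
        set m := K * n / (K + 1) with hm
        have hm1 : 1 ≤ m := by
          rw [hm, Nat.le_div_iff_mul_le (by omega)]
          have : K * 2 ≤ K * n := Nat.mul_le_mul_left _ (by omega)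
          omega
        have hm2 : m < n := by
          rw [hm, Nat.div_lt_iff_lt_mul (by omega)]
          have : n * (K + 1) = K * n + n := by ring
          omega
        have h1 := ih m hm2 hm1
        have h2 : (f n : ℝ) ≤ f m + s := by exact_mod_cast hwin n hnn.le
        have h3 : Real.log m ≤ Real.log n - θ := by
          rw [hθ, ← Real.log_div (by positivity) (by positivity)]
          apply Real.log_le_log (by exact_mod_cast hm1)
          have h4 : (m : ℝ) ≤ (K * n : ℕ) / (K + 1 : ℕ) := Nat.cast_div_le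
          push_cast at h4
          calc (m : ℝ) ≤ K * n / (K + 1) := h4
            _ = n / ((K + 1) / K) := by field_simp
        have h5 : s / θ * Real.log m ≤ s / θ * (Real.log n - θ) := by gcongr
        have h6 : s / θ * (Real.log n - θ) = s / θ * Real.log n - s := by
          field_simp
        linarith
  refine ⟨f n₀ / Real.log 2 + s / θ, fun n hn => ?_⟩
  rw [hf]
  have hlog2 : 0 < Real.log 2 := Real.log_pos (by norm_num)
  have h1 : Real.log 2 ≤ Real.log n := Real.log_le_log (by norm_num) (by exact_mod_cast hn)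
  have h2 := key n (by omega)
  have h3 : (f n₀ : ℝ) ≤ f n₀ / Real.log 2 * Real.log n := by
    rw [div_mul_eq_mul_div, le_div_iff₀ hlog2]
    gcongr
  linarith

/-- a set stable under adding `l` from some point on is a finite union of progressions, up to a
bounded set -/
lemma ap_of_add {S : Set ℕ} {a l : ℕ} (hl : 1 ≤ l) (h : ∀ k, a ≤ k → k ∈ S → k + l ∈ S) :
    ∃ (T : Finset (ℕ × ℕ)) (R : Set ℕ), (∀ k ∈ R, k < a) ∧
      S = {n : ℕ | ∃ t ∈ T, ∃ k : ℕ, n = t.1 + t.2 * k} ∪ R := by
  classical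
  -- the least element in each residue class
  let P : ℕ → ℕ → Prop := fun r k => k ∈ S ∧ a ≤ k ∧ k % l = r
  refine ⟨((Finset.range l).filter fun r => ∃ k, P r k).image fun r =>
    if hr : ∃ k, P r k then (Nat.find hr, l) else (0, 0), {k | k ∈ S ∧ k < a},
    fun k hk => hk.2, ?_⟩
  have hadd : ∀ t k, a ≤ k → k ∈ S → k + l * t ∈ S := by
    intro t
    induction t with
    | zero => intro k _ hk; exact hk
    | succ t ih =>
      intro k hak hk
      have := h _ (le_trans hak (Nat.le_add_right _ _)) (ih k hak hk)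
      have e : k + l * (t + 1) = k + l * t + l := by ring
      rw [e]
      exact this
  ext n
  simp only [Set.mem_union, Set.mem_ofPred_eq]
  constructor
  · intro hn
    by_cases hna : n < a
    · exact Or.inr ⟨hn, hna⟩
    · push Not at hna
      have hr : ∃ k, P (n % l) k := ⟨n, hn, hna, rfl⟩
      refine Or.inl ⟨(Nat.find hr, l), ?_, (n - Nat.find hr) / l, ?_⟩
      · rw [Finset.mem_image]
        refine ⟨n % l, Finset.mem_filter.mpr ⟨Finset.mem_range.mpr (Nat.mod_lt _ (by omega)), hr⟩,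
          ?_⟩
        rw [dif_pos hr]
      · show n = Nat.find hr + l * ((n - Nat.find hr) / l)
        have h1 := Nat.find_spec hr
        have h2 : Nat.find hr ≤ n := Nat.find_min' hr ⟨hn, hna, rfl⟩
        have h3 : l ∣ n - Nat.find hr := (Nat.modEq_iff_dvd' h2).mp h1.2.2
        rw [Nat.mul_div_cancel' h3]
        omega
  · rintro (⟨t, ht, k, rfl⟩ | hn)
    · rw [Finset.mem_image] at ht
      obtain ⟨r, hr, rfl⟩ := ht
      rw [Finset.mem_filter] at hr
      rw [dif_pos hr.2]
      have h1 := Nat.find_spec hr.2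
      exact hadd k _ h1.2.1 h1.1
    · exact hn.1

end Pool.Agent.Helper86.DML
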