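import Mathlib
import Pool.Agent.Helper86.DML.Chart
import Pool.Agent.Helper86.DML.Gap

/-!
# Integer models of the iterates
-/

namespace Pool.Agent.Helper86.DML

open MvPolynomial

noncomputable section

/-- a polynomial with coefficients in the finite set `𝒜`, as an integer polynomial in the
coefficients and the variables -/
lemma exists_int_lift {κ : Type} [Finite κ] (𝒜 : Finset ℂ) (P : MvPolynomial κ ℂ)
    (hP : P.coeffs ⊆ 𝒜) :
    ∃ Q : MvPolynomial (𝒜 ⊕ κ) ℤ, ∀ u : κ → ℂ,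
      aeval (Sum.elim (fun i : 𝒜 => (i : ℂ)) u) Q = eval u P := by
  classical
  have := Fintype.ofFinite κ
  have hc : ∀ s ∈ P.support, P.coeff s ∈ 𝒜 := fun s hs => hP (coeff_mem_coeffs s (by
    rwa [mem_support_iff] at hs))
  refine ⟨∑ s ∈ P.support.attach, X (Sum.inl ⟨P.coeff s.1, hc s.1 s.2⟩) *
    ∏ i, X (Sum.inr i) ^ (s.1 i), fun u => ?_⟩
  rw [map_sum, eval_eq']
  rw [← Finset.sum_attach P.support]
  refine Finset.sum_congr rfl fun s _ => ?_
  rw [map_mul, map_prod, aeval_X]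
  congr 1
  refine Finset.prod_congr rfl fun i _ => ?_
  rw [map_pow, aeval_X]
  rfl

variable {κ τ : Type}

/-- substitution of the map, keeping the coefficients -/
def subΨ (Q : κ → MvPolynomial (τ ⊕ κ) ℤ) : τ ⊕ κ → MvPolynomial (τ ⊕ κ) ℤ :=
  Sum.elim (fun i => X (Sum.inl i)) Q

lemma aeval_subΨ {Ψ : κ → MvPolynomial κ ℂ} {a : τ → ℂ} {Q : κ → MvPolynomial (τ ⊕ κ) ℤ}
    (hQ : ∀ i u, aeval (Sum.elim a u) (Q i) = eval u (Ψ i)) (P : MvPolynomial (τ ⊕ κ) ℤ)
    (u : κ → ℂ) : aeval (Sum.elim a u) (bind₁ (subΨ Q) P) = aeval (Sum.elim a (pmap Ψ u)) P := by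
  induction P using MvPolynomial.induction_on with
  | C c => simp
  | add P P' hP hP' => rw [map_add, map_add, map_add, hP, hP']
  | mul_X P i hP =>
    rw [map_mul, map_mul, map_mul, hP, bind₁_X_right, aeval_X]
    congr 1
    rcases i with i | i
    · simp [subΨ]
    · simp only [subΨ, Sum.elim_inr, hQ, pmap]

lemma aeval_iter {Ψ : κ → MvPolynomial κ ℂ} {a : τ → ℂ} {Q : κ → MvPolynomial (τ ⊕ κ) ℤ}
    (hQ : ∀ i u, aeval (Sum.elim a u) (Q i) = eval u (Ψ i)) (P : MvPolynomial (τ ⊕ κ) ℤ)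
    (k : ℕ) (u : κ → ℂ) :
    aeval (Sum.elim a u) ((bind₁ (subΨ Q))^[k] P) = aeval (Sum.elim a ((pmap Ψ)^[k] u)) P := by
  induction k generalizing P with
  | zero => rfl
  | succ k ih =>
    rw [Function.iterate_succ_apply, ih, aeval_subΨ hQ, Function.iterate_succ_apply' (pmap Ψ)]

lemma Sz.iter {Q : κ → MvPolynomial (τ ⊕ κ) ℤ} {E : ℕ} (hE : 1 ≤ E) (hQ : ∀ i, Sz E (Q i))
    {D : ℕ} {P : MvPolynomial (τ ⊕ κ) ℤ} (hP : Sz D P) (k : ℕ) :
    Sz (D * (E + 1) ^ k) ((bind₁ (subΨ Q))^[k] P) := by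
  have hsub : ∀ i, Sz E (subΨ Q i) := by
    rintro (i | i)
    · exact (Sz_X _).mono hE
    · exact hQ i
  induction k generalizing P D with
  | zero => simpa using hP
  | succ k ih =>
    rw [Function.iterate_succ_apply]
    have := ih (hP.bind hsub)
    have e : D * (E + 1) ^ (k + 1) = D * (E + 1) * (E + 1) ^ k := by ring
    rw [e]
    exact this

end

end Pool.Agent.Helper86.DML
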