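import Mathlib
import Pool.Agent.Helper86.DML.Heights
import Pool.Agent.Helper86.DML.Glue

/-!
# Return sets to curves
-/

namespace Pool.Agent.Helper86.DML

open MvPolynomial

noncomputable section

variable {N : ℕ} {B₀ : Finset (MvPolynomial (Fin (N + 1)) ℂ)}

/-- two points whose lines share a nonzero vector are equal -/
lemma eq_of_mem_both {x y : PP N} {v : Fin (N + 1) → ℂ} (hx : v ∈ x.submodule)
    (hy : v ∈ y.submodule) (hv : v ≠ 0) : x = y := by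
  obtain ⟨s, hs⟩ := (mem_submodule_iff x v).mp hx
  obtain ⟨t, ht⟩ := (mem_submodule_iff y v).mp hy
  have hs0 : s ≠ 0 := by
    rintro rfl
    rw [zero_smul] at hs
    exact hv hs
  rw [← x.mk_rep, ← y.mk_rep, Projectivization.mk_eq_mk_iff']
  refine ⟨s⁻¹ * t, ?_⟩
  rw [mul_smul, ← ht, hs, smul_smul, inv_mul_cancel₀ hs0, one_smul]

lemma gap_numbers {κ₁ D₀ E M l k m : ℕ} (hm : 1 ≤ m)
    (h : 2 ^ (k / m) ≤ κ₁ * (D₀ * (E + 1) ^ (M * l)) ^ κ₁) :
    k ≤ m * (κ₁ + D₀ * κ₁ + 1) + m * ((E + 1) * M * κ₁) * l := by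
  have h1 : κ₁ * (D₀ * (E + 1) ^ (M * l)) ^ κ₁ ≤
      2 ^ (κ₁ + D₀ * κ₁ + (E + 1) * M * κ₁ * l) := by
    have e1 : κ₁ ≤ 2 ^ κ₁ := Nat.lt_two_pow_self.le
    have e2 : D₀ ≤ 2 ^ D₀ := Nat.lt_two_pow_self.le
    have e3 : E + 1 ≤ 2 ^ (E + 1) := Nat.lt_two_pow_self.le
    calc κ₁ * (D₀ * (E + 1) ^ (M * l)) ^ κ₁ ≤
          2 ^ κ₁ * (2 ^ D₀ * (2 ^ (E + 1)) ^ (M * l)) ^ κ₁ := by gcongr
      _ = _ := by
        rw [mul_pow, ← pow_mul, ← pow_mul, ← pow_mul, ← pow_add, ← pow_add]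
        congr 1
        ring
  have h2 := (Nat.pow_le_pow_iff_right (by norm_num : 1 < 2)).mp (h.trans h1)
  have h3 := Nat.div_add_mod k m
  have h4 := Nat.mod_lt k (by omega : 0 < m)
  have h5 : m * (k / m) ≤ m * (κ₁ + D₀ * κ₁ + (E + 1) * M * κ₁ * l) := Nat.mul_le_mul_left _ h2
  have h6 : m * (κ₁ + D₀ * κ₁ + 1) + m * ((E + 1) * M * κ₁) * l =
      m * (κ₁ + D₀ * κ₁ + (E + 1) * M * κ₁ * l) + m := by ring
  omega

/-- the return set to a curve: a finite union of progressions, up to a set with boundedly many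
elements in geometric windows -/
theorem curve_gap (X : Set (PP N)) (A : Set (MvPolynomial (Fin (N + 1)) ℂ))
    (hA : ∀ F ∈ A, ∃ d : ℕ, F.IsHomogeneous d) (hB : ∀ F ∈ B₀, ∃ d : ℕ, F.IsHomogeneous d)
    (hX : ∀ p : PP N, p ∈ X ↔ ((∀ F ∈ A, eval p.rep F = 0) ∧ ∃ F ∈ B₀, eval p.rep F ≠ 0))
    (Φ : PP N → PP N) (hΦX : ∀ x ∈ X, Φ x ∈ X) (hΦ : ∀ x ∈ X, RegAt X Φ x)
    (CW : Finset (MvPolynomial (Fin (N + 1)) ℂ)) (hCW : ∀ F ∈ CW, ∃ d : ℕ, F.IsHomogeneous d)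
    (hcv : IsCv X (CW : Set (MvPolynomial (Fin (N + 1)) ℂ))) (α : PP N) (hα : α ∈ X) :
    ∃ (T : Finset (ℕ × ℕ)) (R : Set ℕ), Gp R ∧
      {n | Φ^[n] α ∈ Cv X (CW : Set (MvPolynomial (Fin (N + 1)) ℂ))} =
        {n : ℕ | ∃ t ∈ T, ∃ k : ℕ, n = t.1 + t.2 * k} ∪ R := by
  classical
  have hCW' : ∀ F ∈ (CW : Set (MvPolynomial (Fin (N + 1)) ℂ)), ∃ d : ℕ, F.IsHomogeneous d :=
    fun F hF => hCW F (Finset.mem_coe.mp hF)
  obtain ⟨Ψ, hΨ⟩ := exists_lift X A hA hB hX Φ hΦX hΦ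
  have hiter := iter_lift (X := X) hΨ
  -- the coefficients
  let 𝒜 : Finset ℂ := (Finset.univ.biUnion fun i => (Ψ i).coeffs) ∪ CW.biUnion fun F => F.coeffs
  choose Q hQ using fun i => exists_int_lift 𝒜 (Ψ i) (by
    intro z hz
    simp only [𝒜, Finset.mem_union, Finset.mem_biUnion]
    exact Or.inl ⟨i, Finset.mem_univ _, hz⟩)
  choose RH hRH using fun F : CW => exists_int_lift 𝒜 F.1 (by
    intro z hz
    simp only [𝒜, Finset.mem_union, Finset.mem_biUnion]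
    exact Or.inr ⟨F.1, F.2, hz⟩)
  let RR : CW × Fin (N + 1) → MvPolynomial (𝒜 ⊕ Idx N B₀) ℤ := fun s =>
    rename (Sum.map id fun b => Sum.inl (b, s.2)) (RH s.1)
  have hRR : ∀ (s : CW × Fin (N + 1)) (u : Idx N B₀ → ℂ),
      aeval (Sum.elim (fun i : 𝒜 => (i : ℂ)) u) (RR s) = eval (col B₀ u s.2) s.1.1 := by
    intro s u
    rw [← hRH s.1, aeval_rename]
    congr 2
    funext i
    rcases i with i | i <;> rfl
  obtain ⟨E, hE1, hE⟩ := exists_Sz_finite Q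
  obtain ⟨D₀, hD₀1, hD₀⟩ := exists_Sz_finite RR
  let RI : ℕ → CW × Fin (N + 1) → MvPolynomial (𝒜 ⊕ Idx N B₀) ℤ := fun k s =>
    (bind₁ (subΨ Q))^[k] (RR s)
  have hRI : ∀ k s (u : Idx N B₀ → ℂ), aeval (Sum.elim (fun i : 𝒜 => (i : ℂ)) u) (RI k s) =
      eval (col B₀ ((pmap Ψ)^[k] u) s.2) s.1.1 := by
    intro k s u
    rw [aeval_iter hQ, hRR]
  -- the Liouville constants
  choose S hS using fun s : Fin (N + 1) × B₀ => chart_liouville hA hB hX hCW' hcv s.1 s.2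
  let T₀ : Finset ℂ := 𝒜 ∪ Finset.univ.biUnion S
  obtain ⟨p, hp, σ, n₀, M, Z, hLM, hM, hZ⟩ :=
    main_structure3 X A hA hB hX Φ hΦX hΦ Ψ hΨ T₀ α hα
  have horb : ∀ i, Φ^[i] α ∈ X := by
    intro i
    induction i with
    | zero => exact hα
    | succ i ih =>
      rw [Function.iterate_succ_apply']
      exact hΦX _ ih
  have hiterX : ∀ i x, x ∈ X → Φ^[i] x ∈ X := by
    intro i x hx
    induction i with
    | zero => exact hx
    | succ i ih =>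
      rw [Function.iterate_succ_apply']
      exact hΦX _ ih
  have hcaneqs : ∀ (c : Fin (N + 1)) (F₀ : B₀) (x : PP N), x ∈ X → InCh c F₀.1 x →
      ∀ G ∈ eqs B₀ A, eval (canon c F₀ x) G = 0 := fun c F₀ x hx hch =>
    canon_eqs hA hB ((hX x).mp hx).1 hch.1 hch.2
  -- return to the curve in terms of polynomials
  have hret : ∀ (c : Fin (N + 1)) (F₀ : B₀) (x : PP N), x ∈ X → InCh c F₀.1 x → ∀ k,
      Φ^[k] x ∈ Cv X (CW : Set (MvPolynomial (Fin (N + 1)) ℂ)) ↔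
      ∀ F ∈ (CW : Set (MvPolynomial (Fin (N + 1)) ℂ)), ∀ m,
        eval (col B₀ ((pmap Ψ)^[k] (canon c F₀ x)) m) F = 0 := by
    intro c F₀ x hx hch k
    obtain ⟨h1, h2⟩ := hiter _ x (hcaneqs c F₀ x hx hch) (canon_rep c F₀ x) k
    have h3 := zero_up_iff hCW' _ h1 _ h2
    simp only [eval_colP] at h3
    rw [← h3]
    exact ⟨fun h => h.2, fun h => ⟨hiterX k x hx, h⟩⟩
  have hret' : ∀ (c : Fin (N + 1)) (F₀ : B₀) (x : PP N), x ∈ X → InCh c F₀.1 x → ∀ k,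
      Φ^[k] x ∈ Cv X (CW : Set (MvPolynomial (Fin (N + 1)) ℂ)) ↔
      ∀ s, aeval (Sum.elim (fun i : 𝒜 => (i : ℂ)) (canon c F₀ x)) (RI k s) = 0 := by
    intro c F₀ x hx hch k
    rw [hret c F₀ x hx hch k]
    constructor
    · intro h s
      rw [hRI]
      exact h s.1.1 (Finset.mem_coe.mpr s.1.2) s.2
    · intro h F hF m
      have := h (⟨F, Finset.mem_coe.mp hF⟩, m)
      rwa [hRI] at this
  refine glue Gp (fun h hs => h.mono hs) (fun h h' => h.union h') (fun a h => Gp.of_bounded a h)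
    (fun h a M hM => h.reindex a M hM) (n₀ := n₀) hM (fun j => ?_)
  obtain ⟨hper, ⟨E', hE'h, hE'⟩, hne, hirr, hmap, hdom, hsp, hfin⟩ := hZ j
  set K : Set ℕ := {k | n₀ + j + M * k ∈
    {n | Φ^[n] α ∈ Cv X (CW : Set (MvPolynomial (Fin (N + 1)) ℂ))}} with hK
  have hKmem : ∀ k, k ∈ K ↔
      Φ^[n₀ + j + M * k] α ∈ Cv X (CW : Set (MvPolynomial (Fin (N + 1)) ℂ)) := fun k => Iff.rfl
  have hstepM : ∀ k l, Φ^[n₀ + j + M * (k + l)] α = Φ^[M * l] (Φ^[n₀ + j + M * k] α) := by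
    intro k l
    rw [← Function.iterate_add_apply]
    congr 1
    ring
  by_cases hsub : ∀ x ∈ Z j, ∀ F ∈ (CW : Set (MvPolynomial (Fin (N + 1)) ℂ)), eval x.rep F = 0
  swap
  · push Not at hsub
    refine ⟨∅, K, ?_, by simp⟩
    refine (hsp _ hCW' hsub).gp.mono ?_
    intro k hk
    exact ((hKmem k).mp hk).2
  have hZX : Z j ⊆ X := fun x hx => ((hE' x).mp hx).1
  have hZCv : Z j ⊆ Cv X (CW : Set (MvPolynomial (Fin (N + 1)) ℂ)) :=
    fun x hx => ⟨hZX hx, hsub x hx⟩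
  have hZM : ∀ x ∈ Z j, Φ^[M] x ∈ Z j := by
    have h1 : ∀ i x, x ∈ Z j → Φ^[i] x ∈ Z (j + i) := by
      intro i x hx
      induction i with
      | zero => exact hx
      | succ i ih =>
        rw [Function.iterate_succ_apply']
        exact (hZ (j + i)).2.2.2.2.1 _ ih
    intro x hx
    have h2 := h1 M x hx
    rwa [hper] at h2
  rcases hfin with hinf | ⟨w, c, F₀, k₀, m, hZw, hF₀, hwc, hwF, hm, hconv⟩
  · -- the limit set is the curve
    have hCvZ : Cv X (CW : Set (MvPolynomial (Fin (N + 1)) ℂ)) ⊆ Z j := by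
      intro x hx
      refine (hE' x).mpr ⟨hx.1, fun F hF => ?_⟩
      rcases hcv.2 F (hE'h F hF) with h | h
      · exact h x hx
      · exact absurd (h.subset (fun y hy => ⟨hZCv hy, ((hE' y).mp hy).2 F hF⟩)) hinf
    obtain ⟨T, R, hR, hTR⟩ := ap_of_add (S := K) (a := 0) (l := 1) le_rfl (by
      intro k _ hk
      rw [hKmem] at hk ⊢
      rw [hstepM k 1, mul_one]
      exact hZCv (hZM _ (hCvZ hk)))
    exact ⟨T, R, Gp.of_bounded 0 hR, hTR⟩
  -- the limit set is a point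
  let F₀' : B₀ := ⟨F₀, hF₀⟩
  have hwZ : w ∈ Z j := by
    rw [hZw]
    rfl
  have hwCv := hZCv hwZ
  have hwch : InCh c F₀'.1 w := ⟨hwc, hwF⟩
  have hwM : Φ^[M] w = w := by
    have := hZM w hwZ
    rwa [hZw, Set.mem_singleton_iff] at this
  set x : ℕ → PP N := fun k => Φ^[n₀ + j + M * (k₀ + k)] α with hx
  have hxX : ∀ k, x k ∈ X := fun k => horb _
  have hxch : ∀ k, InCh c F₀'.1 (x k) := fun k => ⟨(hconv k).1, (hconv k).2.1⟩
  have hxiter : ∀ k l, Φ^[M * l] (x k) = x (k + l) := by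
    intro k l
    change Φ^[M * l] (Φ^[n₀ + j + M * (k₀ + k)] α) = Φ^[n₀ + j + M * (k₀ + (k + l))] α
    rw [← add_assoc k₀ k l]
    exact (hstepM (k₀ + k) l).symm
  have hxK : ∀ k, k₀ + k ∈ K ↔ x k ∈ Cv X (CW : Set (MvPolynomial (Fin (N + 1)) ℂ)) :=
    fun k => Iff.rfl
  by_cases hid : ∀ y ∈ Cv X (CW : Set (MvPolynomial (Fin (N + 1)) ℂ)), InCh c F₀'.1 y →
      Φ^[M] y = y
  · obtain ⟨T, R, hR, hTR⟩ := ap_of_add (S := K) (a := k₀) (l := 1) le_rfl (by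
      intro k hk0 hk
      obtain ⟨t, rfl⟩ := Nat.exists_eq_add_of_le hk0
      have h1 := (hxK t).mp hk
      have h2 := hid _ h1 (hxch t)
      rw [add_assoc, hxK, ← hxiter t 1, mul_one, h2]
      exact h1)
    exact ⟨T, R, Gp.of_bounded k₀ hR, hTR⟩
  push Not at hid
  obtain ⟨y, hyCv, hych, hyM⟩ := hid
  -- an algebraic equation for `w`
  obtain ⟨P₀, hP₀y, hP₀w⟩ : ∃ P₀ : MvPolynomial (𝒜 ⊕ Idx N B₀) ℤ,
      aeval (Sum.elim (fun i : 𝒜 => (i : ℂ)) (canon c F₀' y)) P₀ ≠ 0 ∧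
      aeval (Sum.elim (fun i : 𝒜 => (i : ℂ)) (canon c F₀' w)) P₀ = 0 := by
    let XM : Idx N B₀ → MvPolynomial (𝒜 ⊕ Idx N B₀) ℤ := fun s =>
      (bind₁ (subΨ Q))^[M] (MvPolynomial.X (Sum.inr s))
    have hXM : ∀ s (u : Idx N B₀ → ℂ), aeval (Sum.elim (fun i : 𝒜 => (i : ℂ)) u) (XM s) =
        (pmap Ψ)^[M] u s := by
      intro s u
      rw [aeval_iter hQ, aeval_X]
      rfl
    let PP₀ : Fin (N + 1) → Fin (N + 1) → MvPolynomial (𝒜 ⊕ Idx N B₀) ℤ := fun a m' =>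
      XM (Sum.inl (a, m')) - XM (Sum.inl (c, m')) * MvPolynomial.X (Sum.inr (Sum.inl (a, c)))
    have hPP₀ : ∀ a m' (z : PP N), aeval (Sum.elim (fun i : 𝒜 => (i : ℂ)) (canon c F₀' z))
        (PP₀ a m') = col B₀ ((pmap Ψ)^[M] (canon c F₀' z)) m' a -
          col B₀ ((pmap Ψ)^[M] (canon c F₀' z)) m' c * nrep c z a := by
      intro a m' z
      simp only [PP₀]
      rw [map_sub, map_mul, hXM, hXM, aeval_X, Sum.elim_inr, canon_inl, if_pos rfl]
      rfl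
    obtain ⟨h1, h2⟩ := hiter _ y (hcaneqs c F₀' y hyCv.1 hych) (canon_rep c F₀' y) M
    obtain ⟨m', hm'⟩ := exists_col_ne ((mem_zero_iff A _).mp h1).2.1
    have hcolne : col B₀ ((pmap Ψ)^[M] (canon c F₀' y)) m' ≠ 0 := fun h => hm' (congrFun h m')
    obtain ⟨a, ha⟩ : ∃ a, col B₀ ((pmap Ψ)^[M] (canon c F₀' y)) m' a -
        col B₀ ((pmap Ψ)^[M] (canon c F₀' y)) m' c * nrep c y a ≠ 0 := by
      by_contra hcon
      push Not at hcon
      apply hyM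
      refine eq_of_mem_both (h2 m') ?_ hcolne
      have h3 : col B₀ ((pmap Ψ)^[M] (canon c F₀' y)) m' =
          col B₀ ((pmap Ψ)^[M] (canon c F₀' y)) m' c • nrep c y := by
        funext a
        rw [Pi.smul_apply, smul_eq_mul]
        exact sub_eq_zero.mp (hcon a)
      rw [h3]
      exact Submodule.smul_mem _ _ (nrep_mem c y)
    refine ⟨PP₀ a m', ?_, ?_⟩
    · rw [hPP₀]
      exact ha
    · rw [hPP₀]
      obtain ⟨h3, h4⟩ := hiter _ w (hcaneqs c F₀' w hwCv.1 hwch) (canon_rep c F₀' w) M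
      rw [hwM] at h4
      rw [line_nrep hwc (h4 m') a, sub_self]
  obtain ⟨κ₁, Ex, hExfin, hwEx, hκ₁⟩ := hS (c, F₀') p σ (T₀ : Set ℂ) (by
      intro z hz
      simp only [T₀, Finset.coe_union, Finset.coe_biUnion]
      exact Or.inr (Set.mem_biUnion (Finset.mem_coe.mpr (Finset.mem_univ (c, F₀'))) hz)) hLM
    𝒜 (fun i => (i : ℂ)) (by
      intro i
      simp only [T₀, Finset.coe_union]
      exact Or.inl (Finset.mem_coe.mpr i.2)) w hwCv hwch ⟨P₀, ⟨y, hyCv, hych, hP₀y⟩, hP₀w⟩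
  by_cases hhit : ∃ k, x k = w
  · obtain ⟨k₁, hk₁⟩ := hhit
    have hwall : ∀ l, Φ^[M * l] w = w := by
      intro l
      induction l with
      | zero => rfl
      | succ l ih =>
        have e : M * (l + 1) = M + M * l := by ring
        rw [e, Function.iterate_add_apply, ih, hwM]
    obtain ⟨T, R, hR, hTR⟩ := eventually_all (S := K) (a := k₀ + k₁) (by
      intro k hk
      obtain ⟨t, rfl⟩ := Nat.exists_eq_add_of_le hk
      rw [add_assoc, hxK, ← hxiter, hk₁, hwall]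
      exact hwCv)
    exact ⟨T, R, Gp.of_bounded _ hR, hTR⟩
  push Not at hhit
  by_cases hall : ∃ l, 1 ≤ l ∧ ∀ y ∈ Cv X (CW : Set (MvPolynomial (Fin (N + 1)) ℂ)),
      InCh c F₀'.1 y → Φ^[M * l] y ∈ Cv X (CW : Set (MvPolynomial (Fin (N + 1)) ℂ))
  · obtain ⟨l, hl, hall⟩ := hall
    have hall' : ∀ y ∈ Cv X (CW : Set (MvPolynomial (Fin (N + 1)) ℂ)),
        Φ^[M * l] y ∈ Cv X (CW : Set (MvPolynomial (Fin (N + 1)) ℂ)) := by
      intro y hy
      obtain ⟨c', hc'⟩ : ∃ c', y.rep c' ≠ 0 := by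
        by_contra hcon
        push Not at hcon
        exact y.rep_nonzero (funext hcon)
      obtain ⟨_, G, hG, hGy⟩ := (hX y).mp hy.1
      have hych' : InCh c' ((⟨G, hG⟩ : B₀) : MvPolynomial (Fin (N + 1)) ℂ) y := ⟨hc', hGy⟩
      rw [hret c' ⟨G, hG⟩ y hy.1 hych']
      intro F hF m'
      have h1 := hcv.spread hB hwCv hwch (c' := c') (F₀' := ⟨G, hG⟩)
        (((bind₁ Ψ) ^ (M * l)) (bind₁ (colP B₀ m') F))
        {z | Φ^[M * l] z ∈ Cv X (CW : Set (MvPolynomial (Fin (N + 1)) ℂ))} hall (by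
          intro z hz hzch hzS
          rw [eval_bind₁_pow, eval_colP]
          exact (hret c' ⟨G, hG⟩ z hz.1 hzch (M * l)).mp hzS F hF m') hy hych'
      rwa [eval_bind₁_pow, eval_colP] at h1
    obtain ⟨T, R, hR, hTR⟩ := ap_of_add (S := K) (a := 0) (l := l) hl (by
      intro k _ hk
      rw [hKmem] at hk ⊢
      rw [hstepM k l]
      exact hall' _ hk)
    exact ⟨T, R, Gp.of_bounded 0 hR, hTR⟩
  push Not at hall
  -- the orbit leaves the exceptional set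
  obtain ⟨k₁, hk₁⟩ : ∃ k₁, ∀ k, k₁ ≤ k → x k ∉ Ex := by
    have h1 : ∀ e ∈ hExfin.toFinset, ∃ k₁, ∀ k, k₁ ≤ k → x k ≠ e := by
      intro e he
      have hew : e ≠ w := by
        rintro rfl
        exact hwEx (hExfin.mem_toFinset.mp he)
      by_cases hec : e.rep c = 0
      · refine ⟨0, fun k _ hke => ?_⟩
        have := (hxch k).1
        rw [hke] at this
        exact this hec
      · have hpos : 0 < ‖nv σ c e - nv σ c w‖ := by
          rw [norm_pos_iff, sub_ne_zero]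
          intro h
          exact hew (eq_of_nv σ hwc hec h)
        obtain ⟨n, hn⟩ := exists_pow_lt_of_lt_one hpos (by norm_num : (1 / 2 : ℝ) < 1)
        refine ⟨m * n, fun k hk hke => ?_⟩
        have h2 := (hconv k).2.2
        have h3 : n ≤ k / m := (Nat.le_div_iff_mul_le (by omega)).mpr (by rw [mul_comm]; exact hk)
        have h4 : (1 / 2 : ℝ) ^ (2 ^ (k / m)) ≤ (1 / 2) ^ n := by
          apply pow_le_pow_of_le_one (by norm_num) (by norm_num)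
          exact (Nat.lt_two_pow_self.le).trans (Nat.pow_le_pow_right (by norm_num) h3)
        have h5 : x k = Φ^[n₀ + j + M * (k₀ + k)] α := rfl
        rw [← h5, hke] at h2
        linarith
    choose! kk hkk using h1
    refine ⟨∑ e ∈ hExfin.toFinset, kk e, fun k hk hmem => ?_⟩
    have h2 := hExfin.mem_toFinset.mpr hmem
    have h3 := Finset.single_le_sum (f := kk) (fun _ _ => Nat.zero_le _) h2
    exact hkk _ h2 k (h3.trans hk) rfl
  -- the gap principle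
  refine ⟨∅, K, ?_, by simp⟩
  have hlac : Gp {t | t ∈ K ∧ k₀ + k₁ ≤ t} := by
    refine Gp.of_lac (k₀ + m * (κ₁ + D₀ * κ₁ + 1)) (m * ((E + 1) * M * κ₁)) ?_
    rintro t ⟨ht, htk⟩ l hl ⟨htl, _⟩
    obtain ⟨k, rfl⟩ : ∃ k, t = k₀ + k := ⟨t - k₀, by omega⟩
    have hkk₁ : k₁ ≤ k := by omega
    have hxk := (hxK k).mp ht
    have hxkl : x (k + l) ∈ Cv X (CW : Set (MvPolynomial (Fin (N + 1)) ℂ)) := by
      rw [← hxK, ← add_assoc]
      exact htl
    obtain ⟨y, hy, hych, hyl⟩ := hall l hl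
    rw [hret' c F₀' y hy.1 hych] at hyl
    push Not at hyl
    obtain ⟨s, hs⟩ := hyl
    rw [← hxiter, hret' c F₀' (x k) (hxX k) (hxch k)] at hxkl
    have hD1 : 1 ≤ D₀ * (E + 1) ^ (M * l) := Nat.mul_pos hD₀1 (by positivity)
    have hconvk := (hconv k).2.2
    have hle1 : ‖nv σ c (x k) - nv σ c w‖ ≤ 1 := by
      refine hconvk.trans (pow_le_one₀ (by norm_num) (by norm_num))
    have h1 := hκ₁ (D₀ * (E + 1) ^ (M * l)) hD1 (RI (M * l) s) (Sz.iter hE1 hE (hD₀ s) _)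
      ⟨y, hy, hych, hs⟩ (x k) hxk (hxch k) (hxkl s) (hhit k) (hk₁ k hkk₁) hle1
    have h2 := h1.trans hconvk
    rw [pow_le_pow_iff_right_of_lt_one₀ (by norm_num) (by norm_num)] at h2
    have h3 := gap_numbers hm h2
    omega
  refine (hlac.union (Gp.of_bounded (S := {t | t ∈ K ∧ t < k₀ + k₁}) (k₀ + k₁)
    (fun k hk => hk.2))).mono ?_
  intro t ht
  by_cases h : k₀ + k₁ ≤ t
  · exact Or.inl ⟨ht, h⟩
  · exact Or.inr ⟨ht, by omega⟩

end

end Pool.Agent.Helper86.DML
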